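import Mathlib

set_option autoImplicit false
open MeasureTheory Metric Set

namespace Pool.Agent.Helper551

lemma radial2_bound (b y : ℝ) : |y * (√(b^2 + y^2))⁻¹| ≤ 1 := by
  rw [abs_mul, abs_inv, abs_of_nonneg (Real.sqrt_nonneg _)]
  have h : |y| ≤ √(b^2+y^2) := Real.abs_le_sqrt (by nlinarith [sq_nonneg b])
  rcases (Real.sqrt_nonneg (b^2+y^2)).eq_or_lt with h0 | h0
  · rw [← h0]; simp
  · rw [← div_eq_mul_inv, div_le_one h0]; exact h

lemma radial2 (b ρ : ℝ) (hρ : 0 ≤ ρ) :
    ∫ y in (0:ℝ)..ρ, y * (√(b^2 + y^2))⁻¹ = √(b^2 + ρ^2) - |b| := by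
  have h0 : √(b^2 + (0:ℝ)^2) = |b| := by simp [Real.sqrt_sq_eq_abs]
  rw [← h0]
  apply intervalIntegral.integral_eq_sub_of_hasDerivAt_of_le (f := fun y => √(b^2+y^2)) hρ
  · fun_prop
  · intro x hx
    have hx0 : 0 < x := hx.1
    have hp : 0 < b^2 + x^2 := by positivity
    have h1 : HasDerivAt (fun y : ℝ => b^2 + y^2) (2 * x) x := by
      simpa using ((hasDerivAt_id x).pow 2).const_add (b^2)
    have h2 := h1.sqrt hp.ne'
    have e : x * (√(b^2 + x^2))⁻¹ = 2 * x / (2 * √(b^2+x^2)) := by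
      have : √(b^2+x^2) ≠ 0 := (Real.sqrt_pos.2 hp).ne'
      field_simp
    rw [e]
    exact h2
  · rw [intervalIntegrable_iff]
    have hfin : volume (Ioc (0:ℝ) ρ) < ⊤ := by simp
    rw [uIoc_of_le hρ]
    apply Measure.integrableOn_of_bounded (M := 1) hfin.ne
    · apply Measurable.aestronglyMeasurable
      fun_prop
    · filter_upwards with y
      rw [Real.norm_eq_abs]
      exact radial2_bound b y

lemma sqrt_int (a R : ℝ) (ha : 0 < a) (hR : 0 ≤ R) :
    ∫ t in (-R)..R, √(R^2 + a^2 - 2*a*t) = ((R+a)^3 - |R-a|^3)/(3*a) := by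
  have key : ∀ t ∈ uIcc (-R) R, HasDerivAt (fun t : ℝ => -(R^2+a^2-2*a*t)^(3/2:ℝ)/(3*a))
      (√(R^2 + a^2 - 2*a*t)) t := by
    intro t _
    have h1 : HasDerivAt (fun t : ℝ => R^2+a^2-2*a*t) (-(2*a)) t := by
      simpa using ((hasDerivAt_id t).const_mul (2*a)).const_sub (R^2+a^2)
    have h2 := h1.rpow_const (p := (3/2:ℝ)) (Or.inr (by norm_num))
    have h3 := (h2.neg).div_const (3*a)
    have e : √(R^2 + a^2 - 2*a*t) = -(-(2 * a) * (3 / 2) * (R ^ 2 + a ^ 2 - 2 * a * t) ^ ((3 / 2:ℝ) - 1)) / (3 * a) := by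
      rw [Real.sqrt_eq_rpow]
      norm_num
      field_simp
    rw [e]
    exact h3
  rw [intervalIntegral.integral_eq_sub_of_hasDerivAt key]
  · have e1 : R^2+a^2-2*a*R = |R-a|^2 := by rw [sq_abs]; ring
    have e2 : R^2+a^2-2*a*(-R) = (R+a)^2 := by ring
    have f1 : (|R-a|^2)^(3/2:ℝ) = |R-a|^3 := by
      rw [← Real.rpow_natCast, ← Real.rpow_mul (abs_nonneg _)]
      norm_num
    have f2 : ((R+a)^2)^(3/2:ℝ) = (R+a)^3 := by
      rw [← Real.rpow_natCast, ← Real.rpow_mul (by positivity)]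
      norm_num
    rw [e1, e2, f1, f2]
    ring
  · apply Continuous.intervalIntegrable
    fun_prop

lemma abs_int_ge (a R : ℝ) (hR : 0 ≤ R) (h : R ≤ a) :
    ∫ t in (-R)..R, |t - a| = 2*a*R := by
  have : ∫ t in (-R)..R, |t - a| = ∫ t in (-R)..R, (a - t) := by
    apply intervalIntegral.integral_congr
    intro t ht
    rw [uIcc_of_le (by linarith)] at ht
    show |t - a| = a - t
    rw [abs_of_nonpos (by linarith [ht.2])]; ring
  rw [this, intervalIntegral.integral_sub (by simp) (by simp)]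
  simp
  ring

lemma abs_int_le (a R : ℝ) (ha : 0 ≤ a) (h : a ≤ R) :
    ∫ t in (-R)..R, |t - a| = R^2 + a^2 := by
  have hc : Continuous (fun t : ℝ => |t - a|) := by fun_prop
  rw [← intervalIntegral.integral_add_adjacent_intervals (b := a) (hc.intervalIntegrable _ _)
    (hc.intervalIntegrable _ _)]
  have h1 : ∫ t in (-R)..a, |t - a| = ∫ t in (-R)..a, (a - t) := by
    apply intervalIntegral.integral_congr
    intro t ht
    rw [uIcc_of_le (by linarith)] at ht
    show |t - a| = a - t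
    rw [abs_of_nonpos (by linarith [ht.2])]; ring
  have h2 : ∫ t in a..R, |t - a| = ∫ t in a..R, (t - a) := by
    apply intervalIntegral.integral_congr
    intro t ht
    rw [uIcc_of_le (by linarith)] at ht
    show |t - a| = t - a
    rw [abs_of_nonneg (by linarith [ht.1])]
  rw [h1, h2, intervalIntegral.integral_sub (by simp) (by simp),
    intervalIntegral.integral_sub (by simp) (by simp)]
  simp
  ring

/-- the value function -/
noncomputable def newt (R a : ℝ) : ℝ :=
  if a ≤ R then 2 * Real.pi * R^2 - 2 * Real.pi / 3 * a^2 else 4 * Real.pi / 3 * R^3 / a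

lemma newt_int (a R : ℝ) (ha : 0 ≤ a) (hR : 0 ≤ R) :
    ∫ t in (-R)..R, 2 * Real.pi * (√((t-a)^2 + (R^2 - t^2)) - |t - a|) = newt R a := by
  have e : ∀ t : ℝ, (t-a)^2 + (R^2 - t^2) = R^2 + a^2 - 2*a*t := fun t => by ring
  simp_rw [e]
  rw [intervalIntegral.integral_const_mul, intervalIntegral.integral_sub]
  rotate_left
  · apply Continuous.intervalIntegrable; fun_prop
  · apply Continuous.intervalIntegrable; fun_prop
  unfold newt
  rcases ha.eq_or_lt with rfl | ha
  · rw [if_pos hR, abs_int_le 0 R le_rfl hR]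
    simp [Real.sqrt_sq hR]
    ring
  · rw [sqrt_int a R ha hR]
    split_ifs with h
    · rw [abs_int_le a R ha.le h, abs_of_nonneg (by linarith : 0 ≤ R - a)]
      field_simp
      ring
    · push Not at h
      rw [abs_int_ge a R hR h.le, abs_of_nonpos (by linarith : R - a ≤ 0)]
      field_simp
      ring

end Pool.Agent.Helper551
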