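import Mathlib
import Pool.Agent.Helper551.Calc

set_option autoImplicit false
open MeasureTheory Metric Set

namespace Pool.Agent.Helper551

abbrev E := EuclideanSpace ℝ (Fin 3)
abbrev V2 := EuclideanSpace ℝ (Fin 2)
abbrev W3 := WithLp 2 (ℝ × V2)

/-- potential of the uniform ball -/
noncomputable def Phi (R : ℝ) (z : E) : ℝ := ∫ y in ball (0 : E) R, ‖z - y‖⁻¹

lemma Phi_rot (R : ℝ) (T : E ≃ₗᵢ[ℝ] E) (z : E) : Phi R (T z) = Phi R z := by
  unfold Phi
  have h := (T.measurePreserving).setIntegral_preimage_emb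
    T.toHomeomorph.measurableEmbedding (fun y => ‖T z - y‖⁻¹) (ball 0 R)
  rw [← h]
  have : (T : E → E) ⁻¹' ball 0 R = ball 0 R := by
    ext y; simp
  rw [this]
  congr 1
  ext y
  rw [← map_sub, T.norm_map]

lemma locInt0 (ρ : ℝ) : IntegrableOn (fun y : E => ‖y‖⁻¹) (ball 0 ρ) := by
  rw [integrableOn_fun_norm_addHaar (μ := (volume : Measure E)) (f := fun r : ℝ => r⁻¹)]
  have hfin : volume (Ioo (0:ℝ) ρ) < ⊤ := by simp
  apply Measure.integrableOn_of_bounded (M := ρ) hfin.ne
  · apply Measurable.aestronglyMeasurable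
    fun_prop
  · filter_upwards [ae_restrict_mem measurableSet_Ioo] with y hy
    have h0 : 0 < y := hy.1
    simp only [finrank_euclideanSpace, Fintype.card_fin, Nat.add_one_sub_one, smul_eq_mul, norm_mul,
      norm_pow, Real.norm_eq_abs, norm_inv, abs_of_pos h0]
    rw [show y^2 * y⁻¹ = y by field_simp]
    exact hy.2.le

lemma locInt (z : E) (ρ : ℝ) (x : E) : IntegrableOn (fun y : E => ‖z - y‖⁻¹) (ball x ρ) := by
  have h1 := locInt0 (ρ + dist z x)
  have hmp : MeasurePreserving (fun y : E => z - y) volume volume :=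
    Measure.measurePreserving_sub_left volume z
  have hemb : MeasurableEmbedding (fun y : E => z - y) :=
    (Homeomorph.subLeft z).measurableEmbedding
  have h2 : IntegrableOn ((fun y : E => ‖y‖⁻¹) ∘ (fun y => z - y)) ((fun y => z - y) ⁻¹' ball 0 (ρ + dist z x)) :=
    (hmp.integrableOn_comp_preimage hemb).2 h1
  apply h2.mono_set
  intro y hy
  simp only [mem_preimage, mem_ball, dist_zero_right] at *
  calc ‖z - y‖ = dist z y := (dist_eq_norm _ _).symm
    _ ≤ dist z x + dist x y := dist_triangle _ _ _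
    _ < ρ + dist z x := by rw [dist_comm x y]; linarith

lemma finrank_W3 : Module.finrank ℝ W3 = 3 := by
  rw [(WithLp.linearEquiv 2 ℝ (ℝ × V2)).finrank_eq]
  simp

/-- a linear isometry between the two models of 3-space -/
noncomputable def isoW : W3 ≃ₗᵢ[ℝ] E :=
  ((stdOrthonormalBasis ℝ W3).reindex (finCongr finrank_W3)).repr

lemma inner_w (R a t : ℝ) :
    ∫ w : V2, ({r : ℝ | t^2 + r^2 < R^2}.indicator (fun r => (√((t-a)^2 + r^2))⁻¹)) ‖w‖
      = if t^2 < R^2 then 2 * Real.pi * (√((t-a)^2 + (R^2 - t^2)) - |t - a|) else 0 := by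
  rw [integral_fun_norm_addHaar (μ := (volume : Measure V2))]
  have hvol : (volume : Measure V2).real (ball 0 1) = Real.pi := by
    rw [measureReal_def, EuclideanSpace.volume_ball_fin_two]
    simp [Real.pi_pos.le]
  rw [hvol]
  simp only [finrank_euclideanSpace, Fintype.card_fin, Nat.add_one_sub_one, pow_one, smul_eq_mul,
    nsmul_eq_mul]
  split_ifs with h
  · have hρ : 0 ≤ √(R^2 - t^2) := Real.sqrt_nonneg _
    have h1 : ∫ y in Ioi (0:ℝ), y * ({r : ℝ | t^2 + r^2 < R^2}.indicator (fun r => (√((t-a)^2 + r^2))⁻¹)) y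
       = ∫ y in (0:ℝ)..√(R^2 - t^2), y * (√((t-a)^2 + y^2))⁻¹ := by
      rw [intervalIntegral.integral_of_le hρ, integral_Ioc_eq_integral_Ioo,
        ← integral_indicator measurableSet_Ioi, ← integral_indicator measurableSet_Ioo]
      congr 1
      ext y
      by_cases hy : 0 < y
      · by_cases hy2 : y < √(R^2 - t^2)
        · have : t^2 + y^2 < R^2 := by
            have := (Real.lt_sqrt hy.le).1 hy2
            linarith
          simp [indicator, hy, hy2, this]
        · have : ¬ (t^2 + y^2 < R^2) := by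
            intro hc
            apply hy2
            rw [Real.lt_sqrt hy.le]
            linarith
          simp [indicator, hy, hy2, this]
      · simp [indicator, hy]
    rw [h1, radial2 _ _ hρ, Real.sq_sqrt (by linarith)]
    push_cast
    ring
  · have h1 : ∫ y in Ioi (0:ℝ), y * ({r : ℝ | t^2 + r^2 < R^2}.indicator (fun r => (√((t-a)^2 + r^2))⁻¹)) y = 0 := by
      have : (fun y => y * ({r : ℝ | t^2 + r^2 < R^2}.indicator (fun r => (√((t-a)^2 + r^2))⁻¹)) y) = fun _ => 0 := by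
        ext y
        have : ¬ (t^2 + y^2 < R^2) := by nlinarith [sq_nonneg y]
        simp [indicator, this]
      rw [this]; simp
    rw [h1]; simp

lemma Phi_axis (R a : ℝ) (ha : 0 ≤ a) (hR : 0 ≤ R) :
    Phi R (isoW (WithLp.toLp 2 (a, 0))) = newt R a := by
  unfold Phi
  have hmp1 : MeasurePreserving (isoW : W3 → E) volume volume := isoW.measurePreserving
  have hmp2 : MeasurePreserving (WithLp.toLp 2 : ℝ × V2 → W3) volume volume :=
    WithLp.volume_preserving_toLp ℝ V2
  have hmp : MeasurePreserving (fun p : ℝ × V2 => isoW (WithLp.toLp 2 p)) volume volume :=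
    hmp1.comp hmp2
  have hemb : MeasurableEmbedding (fun p : ℝ × V2 => isoW (WithLp.toLp 2 p)) :=
    isoW.toHomeomorph.measurableEmbedding.comp (MeasurableEquiv.toLp 2 (ℝ × V2)).measurableEmbedding
  have h := hmp.setIntegral_preimage_emb hemb
    (fun y => ‖isoW (WithLp.toLp 2 (a, 0)) - y‖⁻¹) (ball 0 R)
  have hi := (hmp.integrableOn_comp_preimage hemb).2
    (locInt (isoW (WithLp.toLp 2 (a, 0))) R 0)
  rw [← h]
  have hset : (fun p : ℝ × V2 => isoW (WithLp.toLp 2 p)) ⁻¹' ball 0 R = {p : ℝ × V2 | p.1^2 + ‖p.2‖^2 < R^2} := by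
    ext p
    simp only [mem_preimage, mem_ball, dist_zero_right, LinearIsometryEquiv.norm_map, mem_ofPred_eq]
    rw [← sq_lt_sq₀ (norm_nonneg _) hR, WithLp.prod_norm_sq_eq_of_L2]
    simp
  have hmeas : MeasurableSet {p : ℝ × V2 | p.1^2 + ‖p.2‖^2 < R^2} := by
    apply IsOpen.measurableSet
    apply isOpen_lt <;> fun_prop
  have hfun : ∀ p : ℝ × V2, ‖isoW (WithLp.toLp 2 (a, 0)) - isoW (WithLp.toLp 2 p)‖⁻¹
      = (√((p.1 - a)^2 + ‖p.2‖^2))⁻¹ := by
    intro p
    rw [← map_sub, isoW.norm_map, WithLp.prod_norm_eq_of_L2]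
    simp
    ring_nf
  rw [hset] at hi ⊢
  rw [← integral_indicator hmeas]
  rw [← integrable_indicator_iff hmeas] at hi
  have hprod : (volume : Measure (ℝ × V2)) = (volume : Measure ℝ).prod (volume : Measure V2) := rfl
  have hcongr : ({p : ℝ × V2 | p.1^2 + ‖p.2‖^2 < R^2}.indicator (fun p : ℝ × V2 => ‖isoW (WithLp.toLp 2 (a, 0)) - isoW (WithLp.toLp 2 p)‖⁻¹))
    = fun p : ℝ × V2 => ({r : ℝ | p.1^2 + r^2 < R^2}.indicator (fun r => (√((p.1-a)^2 + r^2))⁻¹)) ‖p.2‖ := by
    ext p
    simp only [indicator, mem_ofPred_eq, hfun]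
  have hi' : Integrable (fun p : ℝ × V2 => ({r : ℝ | p.1^2 + r^2 < R^2}.indicator (fun r => (√((p.1-a)^2 + r^2))⁻¹)) ‖p.2‖)
      ((volume : Measure ℝ).prod (volume : Measure V2)) := by
    rw [← hcongr]; exact hi
  rw [hcongr, hprod, integral_prod _ hi']
  simp only
  simp_rw [inner_w]
  rw [← newt_int a R ha hR]
  rw [intervalIntegral.integral_of_le (by linarith), integral_Ioc_eq_integral_Ioo,
    ← integral_indicator measurableSet_Ioo]
  congr 1
  ext t
  by_cases ht : t^2 < R^2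
  · have h1 : t ∈ Ioo (-R) R := abs_lt.1 (abs_lt_of_sq_lt_sq ht hR)
    rw [if_pos ht, indicator_of_mem h1]
  · have h1 : t ∉ Ioo (-R) R := by
      intro hc
      exact ht (sq_lt_sq' hc.1 hc.2)
    rw [if_neg ht, indicator_of_notMem h1]

/-- Newton's theorem -/
theorem Phi_eq (R : ℝ) (hR : 0 ≤ R) (z : E) : Phi R z = newt R ‖z‖ := by
  rw [← Phi_axis R ‖z‖ (norm_nonneg _) hR]
  have hn : ‖z‖ = ‖isoW (WithLp.toLp 2 (‖z‖, 0))‖ := by
    rw [isoW.norm_map, WithLp.prod_norm_eq_of_L2]
    simp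
  have := Submodule.reflection_sub hn
  rw [← this, Phi_rot]

end Pool.Agent.Helper551
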