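import Mathlib
import Pool.Agent.Helper551.Newton

set_option autoImplicit false
open MeasureTheory Metric Set Filter Topology

namespace Pool.Agent.Helper551

/-- bounded measurable densities with bounded support -/
structure Adm (f : E → ℝ) : Prop where
  meas : Measurable f
  bdd : ∃ C, ∀ y, |f y| ≤ C
  supp : ∃ ρ, ∀ y, ρ ≤ ‖y‖ → f y = 0

/-- Newtonian potential -/
noncomputable def pot (f : E → ℝ) (x : E) : ℝ := ∫ y, f y * ‖x - y‖⁻¹

lemma Adm.neg {f : E → ℝ} (hf : Adm f) : Adm (fun y => - f y) := by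
  obtain ⟨C, hC⟩ := hf.bdd
  obtain ⟨ρ, hρ⟩ := hf.supp
  exact ⟨hf.meas.neg, ⟨C, fun y => by rw [abs_neg]; exact hC y⟩, ⟨ρ, fun y hy => by rw [hρ y hy]; simp⟩⟩

lemma Adm.abs {f : E → ℝ} (hf : Adm f) : Adm (fun y => |f y|) := by
  obtain ⟨C, hC⟩ := hf.bdd
  obtain ⟨ρ, hρ⟩ := hf.supp
  exact ⟨hf.meas.abs, ⟨C, fun y => by rw [abs_abs]; exact hC y⟩, ⟨ρ, fun y hy => by rw [hρ y hy]; simp⟩⟩

lemma Adm.add {f g : E → ℝ} (hf : Adm f) (hg : Adm g) : Adm (fun y => f y + g y) := by
  obtain ⟨C, hC⟩ := hf.bdd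
  obtain ⟨ρ, hρ⟩ := hf.supp
  obtain ⟨C', hC'⟩ := hg.bdd
  obtain ⟨ρ', hρ'⟩ := hg.supp
  refine ⟨hf.meas.add hg.meas, ⟨C + C', fun y => (abs_add_le _ _).trans (add_le_add (hC y) (hC' y))⟩,
    ⟨max ρ ρ', fun y hy => ?_⟩⟩
  rw [hρ y ((le_max_left _ _).trans hy), hρ' y ((le_max_right _ _).trans hy)]; simp

lemma Adm.sub {f g : E → ℝ} (hf : Adm f) (hg : Adm g) : Adm (fun y => f y - g y) := by
  have := hf.add hg.neg
  simpa [sub_eq_add_neg] using this

lemma Adm.integrable_mul {f : E → ℝ} (hf : Adm f) (x : E) :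
    Integrable (fun y => f y * ‖x - y‖⁻¹) := by
  obtain ⟨C, hC⟩ := hf.bdd
  obtain ⟨ρ, hρ⟩ := hf.supp
  have h1 : IntegrableOn (fun y => f y * ‖x - y‖⁻¹) (ball 0 ρ) := by
    apply Integrable.bdd_mul (c := C) (locInt x ρ 0) hf.meas.aestronglyMeasurable
    filter_upwards with y
    exact hC y
  apply h1.integrable_of_forall_notMem_eq_zero
  intro y hy
  rw [hρ y (by simpa using hy)]; simp

lemma pot_neg (f : E → ℝ) (x : E) : pot (fun y => - f y) x = - pot f x := by
  unfold pot
  rw [← integral_neg]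
  congr 1; ext y; ring

lemma pot_add {f g : E → ℝ} (hf : Adm f) (hg : Adm g) (x : E) :
    pot (fun y => f y + g y) x = pot f x + pot g x := by
  unfold pot
  rw [← integral_add (hf.integrable_mul x) (hg.integrable_mul x)]
  congr 1; ext y; ring

lemma pot_sub {f g : E → ℝ} (hf : Adm f) (hg : Adm g) (x : E) :
    pot (fun y => f y - g y) x = pot f x - pot g x := by
  unfold pot
  rw [← integral_sub (hf.integrable_mul x) (hg.integrable_mul x)]
  congr 1; ext y; ring

lemma pot_mono {f g : E → ℝ} (hf : Adm f) (hg : Adm g) (h : ∀ y, f y ≤ g y) (x : E) :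
    pot f x ≤ pot g x := by
  apply integral_mono (hf.integrable_mul x) (hg.integrable_mul x)
  intro y
  exact mul_le_mul_of_nonneg_right (h y) (by positivity)

lemma pot_const_mul (c : ℝ) (f : E → ℝ) (x : E) :
    pot (fun y => c * f y) x = c * pot f x := by
  unfold pot
  rw [← integral_const_mul]
  congr 1; ext y; ring

lemma Adm.const_mul {f : E → ℝ} (hf : Adm f) (c : ℝ) : Adm (fun y => c * f y) := by
  obtain ⟨C, hC⟩ := hf.bdd
  obtain ⟨ρ, hρ⟩ := hf.supp
  refine ⟨hf.meas.const_mul c, ⟨|c| * C, fun y => ?_⟩, ⟨ρ, fun y hy => by rw [hρ y hy]; simp⟩⟩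
  rw [abs_mul]; exact mul_le_mul_of_nonneg_left (hC y) (abs_nonneg _)

lemma abs_pot_le {f g : E → ℝ} (hf : Adm f) (hg : Adm g) (h : ∀ y, |f y| ≤ g y) (x : E) :
    |pot f x| ≤ pot g x := by
  rw [abs_le]
  constructor
  · rw [← pot_neg]
    exact pot_mono hg.neg hf (fun y => by linarith [neg_abs_le (f y), h y]) x
  · exact pot_mono hf hg (fun y => by linarith [le_abs_self (f y), h y]) x

lemma adm_ball (ρ : ℝ) : Adm ((ball (0:E) ρ).indicator (fun _ => (1:ℝ))) := by
  refine ⟨measurable_const.indicator measurableSet_ball, ⟨1, fun y => ?_⟩, ⟨ρ, fun y hy => ?_⟩⟩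
  · by_cases h : y ∈ ball (0:E) ρ <;> simp [indicator, h]
  · have : y ∉ ball (0:E) ρ := by simpa using hy
    simp [indicator, this]

lemma pot_ball (ρ : ℝ) (hρ : 0 ≤ ρ) (x : E) :
    pot ((ball (0:E) ρ).indicator (fun _ => (1:ℝ))) x = newt ρ ‖x‖ := by
  rw [← Phi_eq ρ hρ]
  unfold pot Phi
  rw [← integral_indicator measurableSet_ball]
  congr 1; ext y
  by_cases h : y ∈ ball (0:E) ρ <;> simp [indicator, h]

lemma newt_le (R a : ℝ) (hR : 0 < R) : newt R a ≤ 2 * Real.pi * R^2 := by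
  unfold newt
  split_ifs with h
  · have : 0 ≤ 2 * Real.pi / 3 * a^2 := by positivity
    linarith
  · push Not at h
    rw [div_le_iff₀ (by linarith)]
    have : R^3 ≤ R^2 * a := by nlinarith [sq_nonneg R]
    have h3 : 0 < Real.pi := Real.pi_pos
    nlinarith [mul_nonneg h3.le (by positivity : 0 ≤ R^3), mul_le_mul_of_nonneg_left this h3.le]

/-- a bound for potentials -/
lemma Adm.exists_bound {f : E → ℝ} (hf : Adm f) : ∃ C ρ, 0 ≤ C ∧ 0 < ρ ∧ ∀ x, |pot f x| ≤ C * newt ρ ‖x‖ := by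
  obtain ⟨C, hC⟩ := hf.bdd
  obtain ⟨ρ, hρ⟩ := hf.supp
  have hC0 : 0 ≤ C := (abs_nonneg _).trans (hC 0)
  refine ⟨C, max ρ 1, hC0, by positivity, fun x => ?_⟩
  rw [← pot_ball _ (by positivity), ← pot_const_mul]
  apply abs_pot_le hf ((adm_ball _).const_mul C)
  intro y
  by_cases h : y ∈ ball (0:E) (max ρ 1)
  · simp only [indicator, h, if_true, mul_one]; exact hC y
  · have : f y = 0 := hρ y (by
      have : max ρ 1 ≤ ‖y‖ := by simpa using h
      exact (le_max_left _ _).trans this)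
    simp [indicator, h, this]

lemma Adm.pot_bounded {f : E → ℝ} (hf : Adm f) : ∃ M, ∀ x, |pot f x| ≤ M := by
  obtain ⟨C, ρ, hC, hρ, h⟩ := hf.exists_bound
  refine ⟨C * (2 * Real.pi * ρ^2), fun x => (h x).trans ?_⟩
  exact mul_le_mul_of_nonneg_left (newt_le ρ _ hρ) hC

lemma Adm.pot_decay {f : E → ℝ} (hf : Adm f) (ε : ℝ) (hε : 0 < ε) :
    ∃ r, ∀ x, r ≤ ‖x‖ → |pot f x| ≤ ε := by
  obtain ⟨C, ρ, hC, hρ, h⟩ := hf.exists_bound
  refine ⟨ρ + 1 + C * (4 * Real.pi / 3 * ρ^3) / ε, fun x hx => (h x).trans ?_⟩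
  have hp : 0 ≤ C * (4 * Real.pi / 3 * ρ^3) / ε := by
    have := Real.pi_pos
    positivity
  have h1 : ρ < ‖x‖ := by linarith
  have h2 : C * (4 * Real.pi / 3 * ρ^3) / ε ≤ ‖x‖ := by linarith
  unfold newt
  rw [if_neg (by linarith)]
  have hx0 : 0 < ‖x‖ := by linarith
  rw [div_le_iff₀ hε] at h2
  rw [← mul_div_assoc, div_le_iff₀ hx0]
  linarith

lemma ball_int (x : E) (s : ℝ) (z : E) : ∫ y in ball x s, ‖z - y‖⁻¹ = Phi s (z - x) := by
  unfold Phi
  have hmp : MeasurePreserving (fun y : E => y - x) volume volume := measurePreserving_sub_right volume x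
  have hemb : MeasurableEmbedding (fun y : E => y - x) := (Homeomorph.subRight x).measurableEmbedding
  rw [← hmp.setIntegral_preimage_emb hemb (fun y => ‖z - x - y‖⁻¹) (ball 0 s)]
  have : (fun y : E => y - x) ⁻¹' ball 0 s = ball x s := by
    ext y; simp [dist_eq_norm]
  rw [this]
  congr 1; ext y
  congr 2
  abel

lemma Adm.continuous_pot {f : E → ℝ} (hf : Adm f) : Continuous (pot f) := by
  obtain ⟨C, hC⟩ := hf.bdd
  have hC0 : 0 ≤ C := (abs_nonneg _).trans (hC 0)
  obtain ⟨ρ, hρ⟩ := hf.supp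
  have hfi : Integrable f := by
    have h1 : IntegrableOn f (ball 0 ρ) := by
      apply Measure.integrableOn_of_bounded (M := C) measure_ball_lt_top.ne hf.meas.aestronglyMeasurable
      filter_upwards with y
      exact hC y
    apply h1.integrable_of_forall_notMem_eq_zero
    intro y hy
    rw [hρ y (by simpa using hy)]
  -- truncated potentials
  let P : ℝ → E → ℝ := fun ε x => ∫ y, f y * (max ‖x - y‖ ε)⁻¹
  have hPc : ∀ ε, 0 < ε → Continuous (P ε) := by
    intro ε hε
    apply continuous_of_dominated (bound := fun y => |f y| * ε⁻¹)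
    · intro x
      apply Measurable.aestronglyMeasurable
      have := hf.meas
      fun_prop
    · intro x
      filter_upwards with y
      rw [norm_mul, Real.norm_eq_abs, norm_inv, Real.norm_eq_abs]
      apply mul_le_mul_of_nonneg_left _ (abs_nonneg _)
      apply inv_anti₀ hε
      exact (le_max_right _ _).trans (le_abs_self _)
    · exact hfi.abs.mul_const _
    · filter_upwards with y
      apply Continuous.mul continuous_const
      apply Continuous.inv₀ (by fun_prop)
      intro x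
      have : 0 < max ‖x - y‖ ε := lt_of_lt_of_le hε (le_max_right _ _)
      exact this.ne'
  have hPclose : ∀ ε, 0 < ε → ∀ x, |pot f x - P ε x| ≤ C * (2 * Real.pi * ε^2) := by
    intro ε hε x
    have hi2 : Integrable (fun y => f y * (max ‖x - y‖ ε)⁻¹) := by
      apply Integrable.mul_bdd (c := ε⁻¹) hfi
      · apply Measurable.aestronglyMeasurable
        fun_prop
      · filter_upwards with y
        rw [norm_inv, Real.norm_eq_abs]
        apply inv_anti₀ hε
        exact (le_max_right _ _).trans (le_abs_self _)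
    have e1 : pot f x - P ε x = ∫ y, (f y * ‖x - y‖⁻¹ - f y * (max ‖x - y‖ ε)⁻¹) := by
      show (∫ y, f y * ‖x - y‖⁻¹) - (∫ y, f y * (max ‖x - y‖ ε)⁻¹) = _
      rw [integral_sub (hf.integrable_mul x) hi2]
    rw [e1]
    have hb : Integrable ((ball x ε).indicator (fun y : E => C * ‖x - y‖⁻¹)) := by
      rw [integrable_indicator_iff measurableSet_ball]
      exact (locInt x ε x).const_mul C
    have h1 : |∫ y, (f y * ‖x - y‖⁻¹ - f y * (max ‖x - y‖ ε)⁻¹)| ≤ ∫ y, (ball x ε).indicator (fun y : E => C * ‖x - y‖⁻¹) y := by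
      rw [← Real.norm_eq_abs]
      apply norm_integral_le_of_norm_le hb
      have hne : ∀ᵐ y : E, y ≠ x := by
        have : ({x} : Set E)ᶜ ∈ ae (volume : Measure E) := compl_mem_ae_iff.2 (measure_singleton x)
        exact this
      filter_upwards [hne] with y hyx
      by_cases hy : y ∈ ball x ε
      · rw [indicator_of_mem hy, ← mul_sub, norm_mul]
        apply mul_le_mul (hC y) _ (norm_nonneg _) hC0
        rw [Real.norm_eq_abs]
        have hlt : ‖x - y‖ < ε := by rw [← dist_eq_norm, dist_comm]; exact hy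
        rw [max_eq_right hlt.le]
        have h0 : 0 < ‖x - y‖ := norm_pos_iff.2 (sub_ne_zero.2 hyx.symm)
        have h3 : ε⁻¹ ≤ ‖x-y‖⁻¹ := inv_anti₀ h0 hlt.le
        rw [abs_of_nonneg (by linarith)]
        have : 0 ≤ ε⁻¹ := by positivity
        linarith
      · rw [indicator_of_notMem hy]
        have hge : ε ≤ ‖x - y‖ := by
          rw [← dist_eq_norm, dist_comm]; simpa using hy
        rw [max_eq_left hge]; simp
    apply h1.trans
    rw [integral_indicator measurableSet_ball, integral_const_mul]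
    apply mul_le_mul_of_nonneg_left _ hC0
    rw [ball_int x ε x, Phi_eq ε hε.le]
    exact newt_le ε _ hε
  apply continuous_of_uniform_approx_of_continuous
  intro u hu
  obtain ⟨η, hη, hηu⟩ := Metric.mem_uniformity_dist.1 hu
  obtain ⟨ε, hε, hε2⟩ : ∃ ε : ℝ, 0 < ε ∧ C * (2 * Real.pi * ε^2) < η := by
    refine ⟨min 1 (η / (C * (2 * Real.pi) + 1)), by positivity, ?_⟩
    have hpi := Real.pi_pos
    set e := min 1 (η / (C * (2 * Real.pi) + 1)) with he
    have he0 : 0 < e := by positivity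
    have he1 : e ≤ 1 := min_le_left _ _
    have he2 : e ≤ η / (C * (2 * Real.pi) + 1) := min_le_right _ _
    have hpos : 0 < C * (2 * Real.pi) + 1 := by positivity
    rw [le_div_iff₀ hpos] at he2
    have h3 : e^2 ≤ e := by nlinarith
    have h4 : C * (2 * Real.pi * e^2) ≤ C * (2*Real.pi) * e := by
      have : 0 ≤ C * (2 * Real.pi) := by positivity
      nlinarith
    nlinarith
  refine ⟨P ε, hPc ε hε, fun x => hηu ?_⟩
  rw [Real.dist_eq]
  exact (hPclose ε hε x).trans_lt hε2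

end Pool.Agent.Helper551
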