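import Mathlib
import Pool.Agent.Helper551.Pot

set_option autoImplicit false
open MeasureTheory Metric Set Filter Topology

namespace Pool.Agent.Helper551

lemma Adm.locInt_pot {f : E → ℝ} (hf : Adm f) (x : E) (s : ℝ) : IntegrableOn (pot f) (ball x s) := by
  obtain ⟨M, hM⟩ := hf.pot_bounded
  apply Measure.integrableOn_of_bounded (M := M) measure_ball_lt_top.ne
    hf.continuous_pot.aestronglyMeasurable
  filter_upwards with y
  exact hM y

lemma mean_value {f : E → ℝ} (hf : Adm f) (x : E) (s : ℝ) :
    ∫ y in ball x s, pot f y = ∫ z, f z * Phi s (z - x) := by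
  have hmeas : Measurable (fun p : E × E => f p.2 * ‖p.1 - p.2‖⁻¹) := by
    have := hf.meas
    fun_prop
  have hint : Integrable (Function.uncurry (fun (y z : E) => f z * ‖y - z‖⁻¹))
      ((volume.restrict (ball x s)).prod volume) := by
    have hm2 : AEStronglyMeasurable (Function.uncurry (fun (y z : E) => f z * ‖y - z‖⁻¹))
      ((volume.restrict (ball x s)).prod volume) := hmeas.aestronglyMeasurable
    rw [integrable_prod_iff hm2]
    constructor
    · filter_upwards with y
      exact hf.integrable_mul y
    · have : (fun y : E => ∫ z, ‖Function.uncurry (fun (y z : E) => f z * ‖y - z‖⁻¹) (y, z)‖) = pot (fun y => |f y|) := by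
        ext y
        unfold pot
        congr 1; ext z
        simp [abs_mul]
      rw [this]
      exact hf.abs.locInt_pot x s
  unfold pot
  rw [integral_integral_swap hint]
  congr 1
  ext z
  rw [integral_const_mul, ← ball_int]
  congr 2
  ext y
  rw [norm_sub_rev]

/-- the volume of the ball of radius s -/
noncomputable def vol3 (s : ℝ) : ℝ := 4 * Real.pi / 3 * s^3

lemma vol3_eq (x : E) (s : ℝ) (hs : 0 ≤ s) : (volume : Measure E).real (ball x s) = vol3 s := by
  rw [measureReal_def, EuclideanSpace.volume_ball_fin_three]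
  rw [ENNReal.toReal_mul, ENNReal.toReal_pow, ENNReal.toReal_ofReal hs, ENNReal.toReal_ofReal (by positivity)]
  unfold vol3
  ring

/-- the sweeping kernel -/
noncomputable def kap (s : ℝ) (w : E) : ℝ := vol3 s * ‖w‖⁻¹ - Phi s w

lemma kap_of_ge (s : ℝ) (hs : 0 < s) (w : E) (hw : s ≤ ‖w‖) : kap s w = 0 := by
  unfold kap vol3
  rw [Phi_eq s hs.le]
  unfold newt
  have hw0 : 0 < ‖w‖ := by linarith
  split_ifs with h
  · have : ‖w‖ = s := le_antisymm h hw
    rw [this]; field_simp; ring
  · field_simp; ring

lemma kap_of_lt (s : ℝ) (hs : 0 < s) (w : E) (hw0 : w ≠ 0) (hw : ‖w‖ < s) : 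
    kap s w = 2 * Real.pi / 3 * (s - ‖w‖)^2 * (2 * s + ‖w‖) / ‖w‖ := by
  unfold kap vol3
  rw [Phi_eq s hs.le]
  unfold newt
  have hw0 : 0 < ‖w‖ := norm_pos_iff.2 hw0
  rw [if_pos hw.le]
  field_simp
  ring

lemma kap_pos (s : ℝ) (hs : 0 < s) (w : E) (hw0 : w ≠ 0) (hw : ‖w‖ < s) : 0 < kap s w := by
  rw [kap_of_lt s hs w hw0 hw]
  have := Real.pi_pos
  have hw0 : 0 < ‖w‖ := norm_pos_iff.2 hw0
  have : 0 < s - ‖w‖ := by linarith
  positivity

lemma kap_integrable {f : E → ℝ} (hf : Adm f) (x : E) (s : ℝ) (hs : 0 < s) :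
    Integrable (fun z => f z * kap s (z - x)) ∧ Integrable (fun z => f z * Phi s (z - x)) := by
  have h1 : Integrable (fun z => f z * Phi s (z - x)) := by
    have hfi : Integrable f := by
      obtain ⟨C, hC⟩ := hf.bdd
      obtain ⟨ρ, hρ⟩ := hf.supp
      have h1 : IntegrableOn f (ball 0 ρ) := by
        apply Measure.integrableOn_of_bounded (M := C) measure_ball_lt_top.ne hf.meas.aestronglyMeasurable
        filter_upwards with y
        exact hC y
      apply h1.integrable_of_forall_notMem_eq_zero
      intro y hy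
      rw [hρ y (by simpa using hy)]
    have hPhi : (fun z : E => Phi s (z - x)) = fun z => pot ((ball (0:E) s).indicator (fun _ => (1:ℝ))) (z - x) := by
      ext z; rw [pot_ball s hs.le, Phi_eq s hs.le]
    apply Integrable.mul_bdd (c := 2 * Real.pi * s^2) hfi
    · rw [hPhi]
      exact ((adm_ball s).continuous_pot.comp (continuous_id.sub continuous_const)).aestronglyMeasurable
    · filter_upwards with z
      rw [Phi_eq s hs.le, Real.norm_eq_abs, abs_of_nonneg]
      · exact newt_le s _ hs
      · rw [← Phi_eq s hs.le]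
        apply setIntegral_nonneg measurableSet_ball
        intro y _; positivity
  refine ⟨?_, h1⟩
  have h2 : Integrable (fun z => vol3 s * (f z * ‖x - z‖⁻¹)) := (hf.integrable_mul x).const_mul _
  have := h2.sub h1
  refine this.congr ?_
  filter_upwards with z
  simp only [Pi.sub_apply, kap]
  rw [norm_sub_rev]
  ring

/-- mean value defect formula -/
lemma mean_defect {f : E → ℝ} (hf : Adm f) (x : E) (s : ℝ) (hs : 0 < s) :
    vol3 s * pot f x - ∫ y in ball x s, pot f y = ∫ z in ball x s, f z * kap s (z - x) := by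
  rw [mean_value hf]
  unfold pot
  rw [← integral_const_mul, ← integral_sub ((hf.integrable_mul x).const_mul _) (kap_integrable hf x s hs).2]
  rw [← integral_indicator measurableSet_ball]
  congr 1
  ext z
  by_cases hz : z ∈ ball x s
  · rw [indicator_of_mem hz]
    unfold kap
    rw [norm_sub_rev]; ring
  · rw [indicator_of_notMem hz]
    have : s ≤ ‖z - x‖ := by rw [← dist_eq_norm]; simpa using hz
    have h2 := kap_of_ge s hs (z - x) this
    unfold kap at h2
    rw [norm_sub_rev]
    linear_combination f z * h2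

end Pool.Agent.Helper551
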