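import Mathlib
import Pool.Agent.Helper551.Mean

set_option autoImplicit false
open MeasureTheory Metric Set Filter Topology

namespace Pool.Agent.Helper551

lemma exists_farther (x : E) (s : ℝ) (hs : 0 < s) : ∃ y ∈ ball x s, ‖x‖ < ‖y‖ := by
  obtain ⟨e, he, hxe⟩ : ∃ e : E, ‖e‖ = 1 ∧ 0 ≤ inner ℝ x e := by
    let e0 : E := EuclideanSpace.single 0 1
    have h0 : ‖e0‖ = 1 := by simp [e0]
    rcases le_total 0 (inner ℝ x e0) with h | h
    · exact ⟨e0, h0, h⟩
    · exact ⟨-e0, by rw [norm_neg, h0], by rw [inner_neg_right]; linarith⟩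
  refine ⟨x + (s/2) • e, ?_, ?_⟩
  · rw [mem_ball, dist_eq_norm]
    simp only [add_sub_cancel_left, norm_smul, he, Real.norm_eq_abs, mul_one]
    rw [abs_of_pos (by linarith)]; linarith
  · rw [← sq_lt_sq₀ (norm_nonneg _) (norm_nonneg _), norm_add_sq_real, inner_smul_right, norm_smul, he,
      Real.norm_eq_abs, abs_of_pos (by linarith : 0 < s/2)]
    nlinarith [mul_nonneg (by linarith : 0 ≤ s/2) hxe]

lemma ae_ne_E (x : E) : ∀ᵐ y : E, y ≠ x := by
  have : ({x} : Set E)ᶜ ∈ ae (volume : Measure E) := compl_mem_ae_iff.2 (measure_singleton x)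
  exact this

lemma hcst (x : E) (s c : ℝ) : Integrable (fun _ : E => c) (volume.restrict (ball x s)) := by
  have : IntegrableOn (fun _ : E => c) (ball x s) volume :=
    integrableOn_const measure_ball_lt_top.ne
  exact this

/-- maximum principle -/
theorem max_principle {h : E → ℝ} (hh : Adm h) (κ : ℝ) (hκ : κ ≤ 0) (O : Set E) (hO : IsOpen O)
    (hfr : ∀ x ∈ frontier O, κ + pot h x ≤ 0)
    (hle : ∀ᵐ x, x ∈ O → 0 < κ + pot h x → h x ≤ 0) :
    ∀ x ∈ O, κ + pot h x ≤ 0 := by
  intro x1 hx1
  by_contra hcon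
  push Not at hcon
  set v : E → ℝ := fun x => κ + pot h x with hv
  have hvc : Continuous v := continuous_const.add hh.continuous_pot
  obtain ⟨r, hr⟩ := hh.pot_decay (v x1 / 2) (by simp only [hv]; linarith)
  set K : Set E := closure O ∩ {x | v x1 ≤ v x} with hK
  have hKclosed : IsClosed K := isClosed_closure.inter (isClosed_le continuous_const hvc)
  have hKcomp : IsCompact K := by
    apply (isCompact_closedBall (0:E) r).of_isClosed_subset hKclosed
    intro x hx
    rw [mem_closedBall, dist_zero_right]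
    by_contra hlt
    push Not at hlt
    have h1 := hr x hlt.le
    have h2 : v x1 ≤ v x := hx.2
    have h3 := abs_le.1 h1
    have h4 : v x ≤ κ + v x1 / 2 := by
      show κ + pot h x ≤ _
      linarith [h3.2]
    have h5 : 0 < v x1 := hcon
    linarith
  have hKne : K.Nonempty := ⟨x1, subset_closure hx1, by simp⟩
  obtain ⟨x2, hx2K, hx2⟩ := hKcomp.exists_isMaxOn hKne hvc.continuousOn
  set m := v x2 with hm
  have hm1 : v x1 ≤ m := hx2K.2
  have hmpos : 0 < m := lt_of_lt_of_le hcon hm1
  have hall : ∀ y ∈ closure O, v y ≤ m := by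
    intro y hy
    by_cases hy1 : v x1 ≤ v y
    · exact hx2 ⟨hy, hy1⟩
    · push Not at hy1; linarith
  set M : Set E := K ∩ {x | v x = m} with hM
  have hMcomp : IsCompact M := hKcomp.inter_right (isClosed_eq hvc continuous_const)
  have hMne : M.Nonempty := ⟨x2, hx2K, rfl⟩
  obtain ⟨x0, hx0M, hx0⟩ := hMcomp.exists_isMaxOn hMne continuous_norm.continuousOn
  have hvx0 : v x0 = m := hx0M.2
  have hx0O : x0 ∈ O := by
    by_contra hno
    have : x0 ∈ frontier O := by
      rw [hO.frontier_eq]; exact ⟨hx0M.1.1, hno⟩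
    have := hfr x0 this
    have h2 : v x0 ≤ 0 := this
    linarith
  have hopen : IsOpen (O ∩ {x | 0 < v x}) := hO.inter (isOpen_lt continuous_const hvc)
  obtain ⟨s, hs, hball⟩ := Metric.isOpen_iff.1 hopen x0 ⟨hx0O, by show 0 < v x0; rw [hvx0]; exact hmpos⟩
  have hdef := mean_defect hh x0 s hs
  have hneg : ∫ z in ball x0 s, h z * kap s (z - x0) ≤ 0 := by
    apply integral_nonpos_of_ae
    filter_upwards [ae_restrict_mem measurableSet_ball, ae_restrict_of_ae hle, ae_restrict_of_ae (ae_ne_E x0)] with z hz hz2 hz3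
    have h1 := hz2 (hball hz).1 (hball hz).2
    have h2 : 0 < kap s (z - x0) := kap_pos s hs _ (sub_ne_zero.2 hz3) (by rw [← dist_eq_norm]; exact hz)
    exact mul_nonpos_of_nonpos_of_nonneg h1 h2.le
  have hint : ∫ y in ball x0 s, (m - v y) ≤ 0 := by
    have e1 : ∫ y in ball x0 s, (m - v y) = vol3 s * (m - κ) - ∫ y in ball x0 s, pot h y := by
      have : (fun y => m - v y) = fun y => (m - κ) - pot h y := by
        ext y; simp only [hv]; ring
      rw [this, integral_sub (hcst x0 s _) (hh.locInt_pot x0 s)]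
      simp only [integral_const, smul_eq_mul]
      rw [measureReal_restrict_apply_univ, vol3_eq x0 s hs.le]
    rw [e1]
    have e2 : v x0 = κ + pot h x0 := rfl
    have : vol3 s * (m - κ) = vol3 s * pot h x0 := by rw [← hvx0, e2]; ring
    rw [this, hdef]
    exact hneg
  have hnn : ∀ y ∈ ball x0 s, 0 ≤ m - v y := fun y hy => by
    have := hall y (subset_closure (hball hy).1)
    linarith
  have hzero : (fun y => m - v y) =ᵐ[volume.restrict (ball x0 s)] 0 := by
    rw [← setIntegral_eq_zero_iff_of_nonneg_ae]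
    · apply le_antisymm hint
      apply setIntegral_nonneg measurableSet_ball hnn
    · filter_upwards [ae_restrict_mem measurableSet_ball] with y hy
      exact hnn y hy
    · apply Integrable.sub (hcst x0 s _)
      apply Integrable.add (hcst x0 s _) (hh.locInt_pot x0 s)
  have heq : EqOn (fun y => m - v y) 0 (ball x0 s) := by
    apply Measure.eqOn_open_of_ae_eq hzero isOpen_ball
    · exact (continuous_const.sub hvc).continuousOn
    · exact continuousOn_const
  obtain ⟨y, hy, hyn⟩ := exists_farther x0 s hs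
  have hvy : v y = m := by
    have := heq hy
    simp only [Pi.zero_apply] at this
    linarith
  have hyM : y ∈ M := ⟨⟨subset_closure (hball hy).1, by show v x1 ≤ v y; rw [hvy]; exact hm1⟩, hvy⟩
  have := hx0 hyM
  simp only [mem_ofPred_eq] at this
  linarith

end Pool.Agent.Helper551
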