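import Mathlib
import Pool.Agent.Helper551.MaxP

set_option autoImplicit false
open MeasureTheory Metric Set Filter Topology
open scoped BoundedContinuousFunction

namespace Pool.Agent.Helper551

/-- data of a penalised problem -/
structure Pen (U : Set E) (ρ : ℝ) (β : ℝ → ℝ) (K : ℝ) : Prop where
  mU : MeasurableSet U
  sub : U ⊆ ball 0 ρ
  hρ : 0 < ρ
  mono : Monotone β
  nn : ∀ t, 0 ≤ β t
  le1 : ∀ t, β t ≤ 1
  hK : 0 ≤ K
  lip : ∀ s t, |β s - β t| ≤ K * |s - t|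

/-- density attached to u -/
noncomputable def dens (U : Set E) (β : ℝ → ℝ) (u : E → ℝ) : E → ℝ := U.indicator (fun y => β (u y))

section
variable {U : Set E} {ρ : ℝ} {β : ℝ → ℝ} {K : ℝ}

lemma dens_nonneg (hP : Pen U ρ β K) (u : E → ℝ) (y : E) : 0 ≤ dens U β u y :=
  indicator_nonneg (fun _ _ => hP.nn _) y

lemma dens_le (hP : Pen U ρ β K) (u : E → ℝ) (y : E) : dens U β u y ≤ U.indicator (fun _ => (1:ℝ)) y :=
  indicator_le_indicator (hP.le1 _)

lemma dens_adm (hP : Pen U ρ β K) {u : E → ℝ} (hu : Measurable u) : Adm (dens U β u) := by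
  refine ⟨(hP.mono.measurable.comp hu).indicator hP.mU, ⟨1, fun y => ?_⟩, ⟨ρ, fun y hy => ?_⟩⟩
  · rw [abs_of_nonneg (dens_nonneg hP u y)]
    apply (dens_le hP u y).trans
    apply indicator_le_self' (fun _ _ => zero_le_one)
  · have : y ∉ U := fun h => by
      have := hP.sub h
      rw [mem_ball, dist_zero_right] at this
      linarith
    simp [dens, this]

lemma dens_diff (hP : Pen U ρ β K) (u w : E → ℝ) (D : ℝ) (hD : ∀ x, |u x - w x| ≤ D) (y : E) :
    |dens U β u y - dens U β w y| ≤ K * D * (ball (0:E) ρ).indicator (fun _ => (1:ℝ)) y := by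
  have hD0 : 0 ≤ D := (abs_nonneg _).trans (hD 0)
  by_cases hy : y ∈ U
  · rw [indicator_of_mem (hP.sub hy)]
    simp only [dens, indicator_of_mem hy]
    rw [mul_one]
    exact (hP.lip _ _).trans (mul_le_mul_of_nonneg_left (hD y) hP.hK)
  · simp only [dens, indicator_of_notMem hy, sub_zero, abs_zero]
    have : 0 ≤ (ball (0:E) ρ).indicator (fun _ => (1:ℝ)) y := indicator_nonneg (fun _ _ => zero_le_one) y
    have := hP.hK
    positivity

lemma pot_dens_diff (hP : Pen U ρ β K) {u w : E → ℝ} (hu : Measurable u) (hw : Measurable w) (D : ℝ)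
    (hD : ∀ x, |u x - w x| ≤ D) (x : E) :
    |pot (dens U β u) x - pot (dens U β w) x| ≤ K * D * (2 * Real.pi * ρ^2) := by
  rw [← pot_sub (dens_adm hP hu) (dens_adm hP hw)]
  refine (abs_pot_le ((dens_adm hP hu).sub (dens_adm hP hw)) ((adm_ball ρ).const_mul (K * D))
    (dens_diff hP u w D hD) x).trans ?_
  rw [pot_const_mul, pot_ball ρ hP.hρ.le]
  have hD0 : 0 ≤ D := (abs_nonneg _).trans (hD 0)
  exact mul_le_mul_of_nonneg_left (newt_le ρ _ hP.hρ) (mul_nonneg hP.hK hD0)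

/-- the nonlinear operator -/
noncomputable def NN (hP : Pen U ρ β K) (u : E →ᵇ ℝ) : E →ᵇ ℝ :=
  BoundedContinuousFunction.ofNormedAddCommGroup (pot (dens U β u))
    (dens_adm hP u.continuous.measurable).continuous_pot
    (dens_adm hP u.continuous.measurable).pot_bounded.choose
    (fun x => (dens_adm hP u.continuous.measurable).pot_bounded.choose_spec x)

lemma NN_apply (hP : Pen U ρ β K) (u : E →ᵇ ℝ) (x : E) : NN hP u x = pot (dens U β u) x := rfl

lemma NN_lip (hP : Pen U ρ β K) (u w : E →ᵇ ℝ) : ‖NN hP u - NN hP w‖ ≤ K * (2 * Real.pi * ρ^2) * ‖u - w‖ := by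
  have hpi := Real.pi_pos
  rw [BoundedContinuousFunction.norm_le (by have := hP.hK; positivity)]
  intro x
  rw [BoundedContinuousFunction.sub_apply, NN_apply, NN_apply, Real.norm_eq_abs]
  refine (pot_dens_diff hP u.continuous.measurable w.continuous.measurable ‖u - w‖ (fun x => ?_) x).trans ?_
  · rw [← Real.norm_eq_abs, ← BoundedContinuousFunction.sub_apply]
    exact (u - w).norm_coe_le_norm x
  · apply le_of_eq; ring

lemma one_side (hP : Pen U ρ β K) (θ : ℝ) (hθ : 0 ≤ θ) (u1 u2 b1 b2 : E →ᵇ ℝ)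
    (h1 : u1 + θ • NN hP u1 = b1) (h2 : u2 + θ • NN hP u2 = b2) (x : E) :
    θ * (pot (dens U β u1) x - pot (dens U β u2) x) ≤ ‖b1 - b2‖ := by
  have a1 := dens_adm hP u1.continuous.measurable
  have a2 := dens_adm hP u2.continuous.measurable
  have key := max_principle ((a1.sub a2).const_mul θ) (-‖b1 - b2‖) (by simp) univ isOpen_univ
    (by simp) ?_ x (mem_univ x)
  · rw [pot_const_mul, pot_sub a1 a2] at key
    linarith
  · filter_upwards with y _ hy
    rw [pot_const_mul, pot_sub a1 a2] at hy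
    have e1 : u1 y + θ * pot (dens U β u1) y = b1 y := by
      rw [← h1]; rfl
    have e2 : u2 y + θ * pot (dens U β u2) y = b2 y := by
      rw [← h2]; rfl
    have e3 : b1 y - b2 y ≤ ‖b1 - b2‖ := by
      have := (b1 - b2).norm_coe_le_norm y
      rw [BoundedContinuousFunction.sub_apply, Real.norm_eq_abs] at this
      exact (le_abs_self _).trans this
    have e4 : u1 y ≤ u2 y := by linarith
    have e5 : β (u1 y) ≤ β (u2 y) := hP.mono e4
    have e6 : dens U β u1 y ≤ dens U β u2 y := indicator_le_indicator e5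
    nlinarith

lemma stab (hP : Pen U ρ β K) (θ : ℝ) (hθ : 0 ≤ θ) (u1 u2 b1 b2 : E →ᵇ ℝ)
    (h1 : u1 + θ • NN hP u1 = b1) (h2 : u2 + θ • NN hP u2 = b2) : ‖u1 - u2‖ ≤ 2 * ‖b1 - b2‖ := by
  rw [BoundedContinuousFunction.norm_le (by positivity)]
  intro x
  have k1 := one_side hP θ hθ u1 u2 b1 b2 h1 h2 x
  have k2 := one_side hP θ hθ u2 u1 b2 b1 h2 h1 x
  rw [norm_sub_rev] at k2
  have e1 : u1 x + θ * pot (dens U β u1) x = b1 x := by
    rw [← h1]; rfl
  have e2 : u2 x + θ * pot (dens U β u2) x = b2 x := by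
    rw [← h2]; rfl
  have e3 : |b1 x - b2 x| ≤ ‖b1 - b2‖ := by
    have := (b1 - b2).norm_coe_le_norm x
    rwa [BoundedContinuousFunction.sub_apply, Real.norm_eq_abs] at this
  rw [BoundedContinuousFunction.sub_apply, Real.norm_eq_abs, abs_le]
  have e4 := abs_le.1 e3
  constructor <;> linarith [e4.1, e4.2]

lemma step (hP : Pen U ρ β K) (θ δ : ℝ) (hθ : 0 ≤ θ) (hδ : 0 ≤ δ)
    (hsmall : 2 * δ * (K * (2 * Real.pi * ρ^2)) < 1)
    (h : ∀ b : E →ᵇ ℝ, ∃ u : E →ᵇ ℝ, u + θ • NN hP u = b) :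
    ∀ b : E →ᵇ ℝ, ∃ u : E →ᵇ ℝ, u + (θ + δ) • NN hP u = b := by
  intro b
  choose S hS using h
  let Ψ : (E →ᵇ ℝ) → (E →ᵇ ℝ) := fun w => S (b - δ • NN hP w)
  have hpi := Real.pi_pos
  have hc0 : 0 ≤ 2 * δ * (K * (2 * Real.pi * ρ^2)) := by have := hP.hK; positivity
  have hlip : LipschitzWith ⟨2 * δ * (K * (2 * Real.pi * ρ^2)), hc0⟩ Ψ := by
    apply LipschitzWith.of_dist_le_mul
    intro w1 w2
    rw [dist_eq_norm, dist_eq_norm]
    refine (stab hP θ hθ _ _ _ _ (hS (b - δ • NN hP w1)) (hS (b - δ • NN hP w2))).trans ?_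
    have : b - δ • NN hP w1 - (b - δ • NN hP w2) = (-δ) • (NN hP w1 - NN hP w2) := by
      rw [smul_sub]; simp only [neg_smul]; abel
    rw [this, norm_smul, norm_neg, Real.norm_eq_abs, abs_of_nonneg hδ]
    have h3 := NN_lip hP w1 w2
    calc 2 * (δ * ‖NN hP w1 - NN hP w2‖) ≤ 2 * (δ * (K * (2 * Real.pi * ρ^2) * ‖w1 - w2‖)) := by gcongr
      _ = _ := by
        show _ = 2 * δ * (K * (2 * Real.pi * ρ^2)) * ‖w1 - w2‖
        ring
  have hcon : ContractingWith ⟨2 * δ * (K * (2 * Real.pi * ρ^2)), hc0⟩ Ψ := ⟨by exact_mod_cast hsmall, hlip⟩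
  obtain ⟨u, hu⟩ : ∃ u, Ψ u = u := ⟨hcon.fixedPoint Ψ, hcon.fixedPoint_isFixedPt⟩
  refine ⟨u, ?_⟩
  have h1 := hS (b - δ • NN hP u)
  have h2 : S (b - δ • NN hP u) = u := hu
  rw [h2] at h1
  rw [add_smul, ← add_assoc, h1]
  abel

theorem exists_pen (hP : Pen U ρ β K) (c : ℝ) : ∃ u : E → ℝ, Continuous u ∧
    ∀ x, u x = c - pot (dens U β u) x := by
  obtain ⟨n, hn⟩ := exists_nat_gt (2 * (K * (2 * Real.pi * ρ^2)))
  have hpi := Real.pi_pos
  have hc0 : 0 ≤ 2 * (K * (2 * Real.pi * ρ^2)) := by have := hP.hK; positivity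
  have hn0 : (0:ℝ) < n := lt_of_le_of_lt hc0 hn
  have hsmall : 2 * (1 / (n:ℝ)) * (K * (2 * Real.pi * ρ^2)) < 1 := by
    rw [show 2 * (1 / (n:ℝ)) * (K * (2 * Real.pi * ρ^2)) = 2 * (K * (2 * Real.pi * ρ^2)) / n by ring]
    rw [div_lt_one hn0]; exact hn
  have all : ∀ k : ℕ, ∀ b : E →ᵇ ℝ, ∃ u : E →ᵇ ℝ, u + ((k:ℝ) * (1 / (n:ℝ))) • NN hP u = b := by
    intro k
    induction k with
    | zero => intro b; exact ⟨b, by simp⟩
    | succ k ih =>
      have := step hP ((k:ℝ) * (1 / (n:ℝ))) (1/(n:ℝ)) (by positivity) (by positivity) hsmall ih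
      intro b
      obtain ⟨u, hu⟩ := this b
      refine ⟨u, ?_⟩
      rw [← hu]; push_cast; ring_nf
  obtain ⟨u, hu⟩ := all n (BoundedContinuousFunction.const E c)
  refine ⟨u, u.continuous, fun x => ?_⟩
  have h1 : (n:ℝ) * (1 / (n:ℝ)) = 1 := by field_simp
  rw [h1, one_smul] at hu
  have h2 : u x + NN hP u x = c := by
    have := congrArg (fun f : E →ᵇ ℝ => f x) hu
    simpa using this
  rw [NN_apply] at h2
  linarith

end

end Pool.Agent.Helper551
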