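import Mathlib
import Pool.Agent.Helper551.Exist

set_option autoImplicit false
open MeasureTheory Metric Set Filter Topology

namespace Pool.Agent.Helper551

/-! ### reflections -/

/-- reflection across the plane inner z w = l -/
noncomputable def sig (w : E) (l : ℝ) (z : E) : E := (2 * l) • w + (Submodule.span ℝ {w})ᗮ.reflection z

lemma sig_apply (w : E) (hw : ‖w‖ = 1) (l : ℝ) (z : E) :
    sig w l z = z + (2 * (l - inner ℝ w z)) • w := by
  unfold sig
  rw [Submodule.reflection_orthogonal_apply, Submodule.reflection_singleton_apply, hw]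
  simp only [one_pow, div_one, RCLike.ofReal_real_eq_id, id_eq]
  module

lemma sig_mp (w : E) (l : ℝ) : MeasurePreserving (sig w l) volume volume := by
  have h1 : MeasurePreserving ((Submodule.span ℝ {w})ᗮ.reflection : E → E) volume volume :=
    LinearIsometryEquiv.measurePreserving _
  have h2 : MeasurePreserving (fun z : E => (2 * l) • w + z) volume volume :=
    measurePreserving_add_left volume _
  exact h2.comp h1

lemma sig_emb (w : E) (l : ℝ) : MeasurableEmbedding (sig w l) := by
  have h1 : MeasurableEmbedding ((Submodule.span ℝ {w})ᗮ.reflection : E → E) :=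
    ((Submodule.span ℝ {w})ᗮ.reflection).toHomeomorph.measurableEmbedding
  have h2 : MeasurableEmbedding (fun z : E => (2 * l) • w + z) := (Homeomorph.addLeft _).measurableEmbedding
  exact h2.comp h1

lemma sig_dist (w : E) (l : ℝ) (x y : E) : ‖sig w l x - sig w l y‖ = ‖x - y‖ := by
  unfold sig
  rw [add_sub_add_left_eq_sub, ← map_sub, LinearIsometryEquiv.norm_map]

lemma pot_sig (w : E) (l : ℝ) (g : E → ℝ) (z : E) : pot (fun y => g (sig w l y)) z = pot g (sig w l z) := by
  unfold pot
  have := (sig_mp w l).integral_comp (sig_emb w l) (fun y => g y * ‖sig w l z - y‖⁻¹)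
  rw [← this]
  congr 1
  ext y
  rw [sig_dist]

lemma adm_sig (w : E) (l : ℝ) {g : E → ℝ} (hg : Adm g) : Adm (fun y => g (sig w l y)) := by
  obtain ⟨C, hC⟩ := hg.bdd
  obtain ⟨ρ, hρ⟩ := hg.supp
  refine ⟨hg.meas.comp (sig_mp w l).measurable, ⟨C, fun y => hC _⟩, ⟨ρ + ‖(2 * l) • w‖, fun y hy => hρ _ ?_⟩⟩
  unfold sig
  have h1 : ‖(Submodule.span ℝ {w})ᗮ.reflection y‖ = ‖y‖ := LinearIsometryEquiv.norm_map _ _
  have h2 := norm_sub_norm_le ((Submodule.span ℝ {w})ᗮ.reflection y) (-((2 * l) • w))
  rw [norm_neg, sub_neg_eq_add, add_comm ((Submodule.span ℝ {w})ᗮ.reflection y)] at h2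
  linarith

/-! ### the domain -/

/-- assumptions on the outer domain -/
structure Dom (U : Set E) : Prop where
  op : IsOpen U
  sub : U ⊆ ball 0 11
  sup : ball 0 9 ⊆ U
  round : ∀ x ∈ U, ∀ y, 2 * ‖x - y‖ ≤ ‖x‖^2 - ‖y‖^2 → y ∈ U

noncomputable def eps (n : ℕ) : ℝ := (1/2)^n

lemma eps_pos (n : ℕ) : 0 < eps n := by unfold eps; positivity

/-- penalisation function -/
noncomputable def beta (n : ℕ) (t : ℝ) : ℝ := max 0 (min 1 (t * 2^n))

lemma beta_of_nonpos (n : ℕ) (t : ℝ) (h : t ≤ 0) : beta n t = 0 := by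
  unfold beta
  have h1 : t * 2^n ≤ 0 := mul_nonpos_of_nonpos_of_nonneg h (by positivity)
  rw [min_eq_right (by linarith), max_eq_left h1]

lemma beta_of_ge (n : ℕ) (t : ℝ) (h : eps n ≤ t) : beta n t = 1 := by
  unfold beta
  have h1 : 1 ≤ t * 2^n := by
    have : eps n * 2^n = 1 := by unfold eps; rw [← mul_pow]; norm_num
    rw [← this]
    exact mul_le_mul_of_nonneg_right h (by positivity)
  rw [min_eq_left h1, max_eq_right (by norm_num)]

lemma beta_nonneg (n : ℕ) (t : ℝ) : 0 ≤ beta n t := le_max_left _ _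

lemma beta_le_one (n : ℕ) (t : ℝ) : beta n t ≤ 1 := max_le (by norm_num) (min_le_left _ _)

lemma beta_mono (n : ℕ) : Monotone (beta n) := by
  intro s t h
  unfold beta
  gcongr

lemma Dom.pen {U : Set E} (hU : Dom U) (n : ℕ) : Pen U 11 (beta n) (2^n) where
  mU := hU.op.measurableSet
  sub := hU.sub
  hρ := by norm_num
  mono := beta_mono n
  nn := beta_nonneg n
  le1 := beta_le_one n
  hK := by positivity
  lip := by
    intro s t
    unfold beta
    have h1 : |max 0 (min 1 (s * 2^n)) - max 0 (min 1 (t * 2^n))| ≤ |min 1 (s * 2^n) - min 1 (t * 2^n)| := by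
      have := abs_max_sub_max_le_max 0 (min 1 (s * 2^n)) 0 (min 1 (t * 2^n))
      simpa using this
    have h2 : |min 1 (s * 2^n) - min 1 (t * 2^n)| ≤ |s * 2^n - t * 2^n| := by
      have := abs_min_sub_min_le_max 1 (s * 2^n) 1 (t * 2^n)
      simpa using this
    refine h1.trans (h2.trans (le_of_eq ?_))
    rw [← sub_mul, abs_mul, abs_of_pos (by positivity : (0:ℝ) < 2^n)]
    ring

noncomputable def cc : ℝ := 144 * Real.pi

/-- the penalised solutions -/
noncomputable def uu {U : Set E} (hU : Dom U) (n : ℕ) : E → ℝ := (exists_pen (hU.pen n) cc).choose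

section
variable {U : Set E} (hU : Dom U)

lemma uu_cont (n : ℕ) : Continuous (uu hU n) := (exists_pen (hU.pen n) cc).choose_spec.1

noncomputable def gg (n : ℕ) : E → ℝ := dens U (beta n) (uu hU n)

lemma uu_eq (n : ℕ) (x : E) : uu hU n x = cc - pot (gg hU n) x := (exists_pen (hU.pen n) cc).choose_spec.2 x

lemma gg_adm (n : ℕ) : Adm (gg hU n) := dens_adm (hU.pen n) (uu_cont hU n).measurable

lemma gg_nonneg (n : ℕ) (x : E) : 0 ≤ gg hU n x := dens_nonneg (hU.pen n) _ x

lemma gg_le (n : ℕ) (x : E) : gg hU n x ≤ U.indicator (fun _ => (1:ℝ)) x := dens_le (hU.pen n) _ x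

lemma gg_of_le (n : ℕ) (x : E) (h : uu hU n x ≤ 0) : gg hU n x = 0 := by
  unfold gg dens
  by_cases hx : x ∈ U
  · rw [indicator_of_mem hx, beta_of_nonpos n _ h]
  · rw [indicator_of_notMem hx]

lemma gg_of_ge (n : ℕ) (x : E) (h : eps n ≤ uu hU n x) : gg hU n x = U.indicator (fun _ => (1:ℝ)) x := by
  unfold gg dens
  by_cases hx : x ∈ U
  · rw [indicator_of_mem hx, indicator_of_mem hx, beta_of_ge n _ h]
  · rw [indicator_of_notMem hx, indicator_of_notMem hx]

lemma cc_pos : 0 < cc := by unfold cc; have := Real.pi_pos; positivity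

lemma uu_nonneg (n : ℕ) (x : E) : 0 ≤ uu hU n x := by
  have key := max_principle (gg_adm hU n) (-cc) (by have := cc_pos; linarith) univ isOpen_univ
    (by simp) ?_ x (mem_univ x)
  · rw [uu_eq]; linarith
  · filter_upwards with y _ hy
    have : uu hU n y ≤ 0 := by rw [uu_eq]; linarith
    rw [gg_of_le hU n y this]

lemma uu_close (n m : ℕ) (x : E) : uu hU n x ≤ uu hU m x + eps n := by
  have key := max_principle ((gg_adm hU m).sub (gg_adm hU n)) (-eps n) (by have := eps_pos n; linarith) univ isOpen_univ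
    (by simp) ?_ x (mem_univ x)
  · rw [pot_sub (gg_adm hU m) (gg_adm hU n)] at key
    rw [uu_eq, uu_eq]; linarith
  · filter_upwards with y _ hy
    rw [pot_sub (gg_adm hU m) (gg_adm hU n)] at hy
    have h1 : uu hU m y + eps n < uu hU n y := by rw [uu_eq, uu_eq]; linarith
    have h2 := uu_nonneg hU m y
    rw [gg_of_ge hU n y (by linarith)]
    have := gg_le hU m y
    linarith

/-- inner barrier density -/
noncomputable def sh (R r : ℝ) (y : E) : ℝ :=
  (ball (0:E) R).indicator (fun _ => (1:ℝ)) y - (ball (0:E) r).indicator (fun _ => (1:ℝ)) y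

lemma sh_adm (R r : ℝ) : Adm (sh R r) := (adm_ball R).sub (adm_ball r)

lemma pot_sh (R r : ℝ) (hR : 0 ≤ R) (hr : 0 ≤ r) (x : E) : pot (sh R r) x = newt R ‖x‖ - newt r ‖x‖ := by
  unfold sh
  rw [pot_sub (adm_ball R) (adm_ball r), pot_ball R hR, pot_ball r hr]

lemma newt93_le (a : ℝ) (ha : 0 ≤ a) : newt 9 a - newt 3 a ≤ cc := by
  unfold newt cc
  have hpi := Real.pi_pos
  by_cases h1 : a ≤ 3
  · rw [if_pos (by linarith), if_pos h1]; nlinarith
  · push Not at h1
    have ha0 : 0 < a := by linarith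
    by_cases h2 : a ≤ 9
    · rw [if_pos h2, if_neg (by linarith)]
      have : 0 ≤ (2/3 * (a-3)^2 * (a+6)) / a := by positivity
      have e : 144 * Real.pi - (2 * Real.pi * 9^2 - 2 * Real.pi/3 * a^2 - 4 * Real.pi / 3 * 3^3 / a) = Real.pi * ((2/3 * (a-3)^2 * (a+6)) / a) := by
        field_simp; ring
      have : 0 ≤ Real.pi * ((2/3 * (a-3)^2 * (a+6)) / a) := by positivity
      linarith
    · push Not at h2
      rw [if_neg (by linarith), if_neg (by linarith)]
      rw [← sub_div, div_le_iff₀ ha0]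
      nlinarith

lemma newt93_eq (a : ℝ) (ha : 0 ≤ a) (h : a ≤ 3) : newt 9 a - newt 3 a = cc := by
  unfold newt cc
  rw [if_pos (by linarith), if_pos h]; ring

lemma newt117_eq (a : ℝ) (ha : 0 ≤ a) (h : a ≤ 7) : newt 11 a - newt 7 a = cc := by
  unfold newt cc
  rw [if_pos (by linarith), if_pos h]; ring

lemma newt117_lt (a : ℝ) (h : 7 < a) : newt 11 a - newt 7 a < cc := by
  unfold newt cc
  have hpi := Real.pi_pos
  have ha0 : 0 < a := by linarith
  by_cases h2 : a ≤ 11
  · rw [if_pos h2, if_neg (by linarith)]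
    have e : 144 * Real.pi - (2 * Real.pi * 11^2 - 2 * Real.pi/3 * a^2 - 4 * Real.pi / 3 * 7^3 / a) = Real.pi * ((2/3 * (a-7)^2 * (a+14)) / a) := by
      field_simp; ring
    have h7 : 0 < a - 7 := by linarith
    have : 0 < Real.pi * ((2/3 * (a-7)^2 * (a+14)) / a) := by positivity
    linarith
  · push Not at h2
    rw [if_neg (by linarith), if_neg (by linarith)]
    rw [← sub_div, div_lt_iff₀ ha0]
    nlinarith

lemma uu_small (n : ℕ) (x : E) (hx : ‖x‖ ≤ 3) : uu hU n x ≤ eps n := by
  have key := max_principle ((sh_adm 9 3).sub (gg_adm hU n)) (-eps n) (by have := eps_pos n; linarith) univ isOpen_univ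
    (by simp) ?_ x (mem_univ x)
  · rw [pot_sub (sh_adm 9 3) (gg_adm hU n), pot_sh _ _ (by norm_num) (by norm_num), newt93_eq _ (norm_nonneg _) hx] at key
    rw [uu_eq]; linarith
  · filter_upwards with y _ hy
    rw [pot_sub (sh_adm 9 3) (gg_adm hU n), pot_sh _ _ (by norm_num) (by norm_num)] at hy
    have h0 := newt93_le ‖y‖ (norm_nonneg _)
    have h1 : eps n < uu hU n y := by rw [uu_eq]; linarith
    rw [gg_of_ge hU n y h1.le]
    have h2 : (ball (0:E) 9).indicator (fun _ => (1:ℝ)) y ≤ U.indicator (fun _ => (1:ℝ)) y :=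
      indicator_le_indicator_of_subset hU.sup (fun _ => zero_le_one) y
    have h3 : 0 ≤ (ball (0:E) 3).indicator (fun _ => (1:ℝ)) y := indicator_nonneg (fun _ _ => zero_le_one) y
    unfold sh
    linarith

lemma uu_lower (n : ℕ) (x : E) : cc - (newt 11 ‖x‖ - newt 7 ‖x‖) ≤ uu hU n x := by
  have key := max_principle ((gg_adm hU n).sub (sh_adm 11 7)) 0 le_rfl univ isOpen_univ
    (by simp) ?_ x (mem_univ x)
  · rw [pot_sub (gg_adm hU n) (sh_adm 11 7), pot_sh _ _ (by norm_num) (by norm_num)] at key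
    rw [uu_eq]; linarith
  · filter_upwards with y _ hy
    rw [pot_sub (gg_adm hU n) (sh_adm 11 7), pot_sh _ _ (by norm_num) (by norm_num)] at hy
    have h0 := uu_nonneg hU n y
    rw [uu_eq] at h0
    have h1 : 7 < ‖y‖ := by
      by_contra hc
      push Not at hc
      have := newt117_eq ‖y‖ (norm_nonneg _) hc
      linarith
    have h2 := gg_le hU n y
    have h3 : U.indicator (fun _ => (1:ℝ)) y ≤ (ball (0:E) 11).indicator (fun _ => (1:ℝ)) y :=
      indicator_le_indicator_of_subset hU.sub (fun _ => zero_le_one) y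
    have h4 : (ball (0:E) 7).indicator (fun _ => (1:ℝ)) y = 0 := by
      apply indicator_of_notMem
      simp; linarith
    unfold sh
    linarith

/-- moving plane comparison -/
lemma uu_round (n : ℕ) (x y : E) (h : 2 * ‖x - y‖ ≤ ‖x‖^2 - ‖y‖^2) : uu hU n y ≤ uu hU n x := by
  rcases eq_or_ne x y with rfl | hxy
  · exact le_rfl
  have hd : 0 < ‖x - y‖ := norm_pos_iff.2 (sub_ne_zero.2 hxy)
  set d := ‖x - y‖ with hdd
  set w : E := d⁻¹ • (x - y) with hw
  have hw1 : ‖w‖ = 1 := by
    rw [hw, norm_smul, norm_inv, Real.norm_eq_abs, abs_of_pos hd, ← hdd]; field_simp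
  set l : ℝ := (‖x‖^2 - ‖y‖^2) / (2 * d) with hl
  have hl1 : 1 ≤ l := by
    rw [hl, le_div_iff₀ (by positivity)]; linarith
  have hdw : d • w = x - y := by rw [hw, smul_smul, mul_inv_cancel₀ hd.ne', one_smul]
  have hwy : inner ℝ w y = l - d / 2 := by
    have e1 : inner ℝ w y = d⁻¹ * inner ℝ (x - y) y := by rw [hw, real_inner_smul_left]
    have e2 : ‖x‖^2 = d^2 + 2 * inner ℝ (x - y) y + ‖y‖^2 := by
      have := norm_add_sq_real (x - y) y
      rw [sub_add_cancel] at this
      exact this
    rw [e1, hl, e2]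
    field_simp
    ring
  have hsy : sig w l y = x := by
    rw [sig_apply w hw1, hwy]
    have : 2 * (l - (l - d/2)) = d := by ring
    rw [this, hdw]; abel
  set O : Set E := {z | inner ℝ w z < l} with hO
  have hOopen : IsOpen O := isOpen_lt (by fun_prop) continuous_const
  have hyO : y ∈ O := by
    show inner ℝ w y < l
    rw [hwy]; linarith
  have hg := gg_adm hU n
  have hgs := adm_sig w l hg
  have key := max_principle (hgs.sub hg) 0 le_rfl O hOopen ?_ ?_ y hyO
  · rw [pot_sub hgs hg, pot_sig, hsy] at key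
    rw [uu_eq, uu_eq]; linarith
  · intro z hz
    have hz' : inner ℝ w z = l := by
      have := frontier_lt_subset_eq (by fun_prop) continuous_const hz
      exact this
    have : sig w l z = z := by
      rw [sig_apply w hw1, hz']; simp
    rw [pot_sub hgs hg, pot_sig, this]; simp
  · filter_upwards with z hzO hz
    rw [pot_sub hgs hg, pot_sig] at hz
    have hzO' : inner ℝ w z < l := hzO
    have h1 : uu hU n (sig w l z) ≤ uu hU n z := by rw [uu_eq, uu_eq]; linarith
    have h2 : beta n (uu hU n (sig w l z)) ≤ beta n (uu hU n z) := beta_mono n h1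
    by_cases hs : sig w l z ∈ U
    · have hzU : z ∈ U := by
        apply hU.round _ hs z
        rw [sig_apply w hw1]
        set k := 2 * (l - inner ℝ w z) with hk
        have hkpos : 0 < k := by rw [hk]; linarith
        rw [add_sub_cancel_left, norm_smul, hw1, norm_add_sq_real, norm_smul, hw1, Real.norm_eq_abs,
          abs_of_pos hkpos, real_inner_smul_right, real_inner_comm]
        have : inner ℝ w z = l - k / 2 := by rw [hk]; ring
        rw [this]
        nlinarith
      unfold gg dens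
      rw [indicator_of_mem hs, indicator_of_mem hzU]
      linarith
    · have h3 : gg hU n (sig w l z) = 0 := by unfold gg dens; rw [indicator_of_notMem hs]
      rw [h3]
      have := gg_nonneg hU n z
      linarith

end

end Pool.Agent.Helper551
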