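import Mathlib
import Pool.Agent.Helper551.Compare

set_option autoImplicit false
open MeasureTheory Metric Set Filter Topology
open scoped Pointwise

namespace Pool.Agent.Helper551

section
variable {U : Set E} (hU : Dom U)

/-- the contact set -/
noncomputable def Lam : Set E := {x | ∀ n, uu hU n x ≤ eps n}

lemma Lam_closed : IsClosed (Lam hU) := by
  have : Lam hU = ⋂ n, {x | uu hU n x ≤ eps n} := by
    ext x; simp [Lam]
  rw [this]
  exact isClosed_iInter fun n => isClosed_le (uu_cont hU n) continuous_const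

lemma Lam_round {x y : E} (hx : x ∈ Lam hU) (h : 2 * ‖x - y‖ ≤ ‖x‖^2 - ‖y‖^2) : y ∈ Lam hU :=
  fun n => (uu_round hU n x y h).trans (hx n)

lemma ball_sub_Lam : ball (0:E) 3 ⊆ Lam hU := fun x hx n => uu_small hU n x (by
  rw [mem_ball, dist_zero_right] at hx; exact hx.le)

lemma eps_tendsto : Tendsto eps atTop (𝓝 0) := by
  unfold eps
  exact tendsto_pow_atTop_nhds_zero_of_lt_one (by norm_num) (by norm_num)

lemma Lam_sub : Lam hU ⊆ closedBall (0:E) 7 := by
  intro x hx
  rw [mem_closedBall, dist_zero_right]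
  by_contra hc
  push Not at hc
  have h1 := newt117_lt ‖x‖ hc
  have h2 : ∀ n, cc - (newt 11 ‖x‖ - newt 7 ‖x‖) ≤ eps n := fun n => (uu_lower hU n x).trans (hx n)
  have h3 : cc - (newt 11 ‖x‖ - newt 7 ‖x‖) ≤ 0 := ge_of_tendsto' eps_tendsto h2
  linarith

/-- strict star-shapedness -/
lemma Lam_star {x : E} (hx : x ∈ Lam hU) {t : ℝ} (ht0 : 0 ≤ t) (ht1 : t < 1) : t • x ∈ interior (Lam hU) := by
  by_cases hx3 : ‖x‖ < 3
  · apply interior_mono (ball_sub_Lam hU)
    rw [isOpen_ball.interior_eq, mem_ball, dist_zero_right, norm_smul, Real.norm_eq_abs, abs_of_nonneg ht0]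
    nlinarith [norm_nonneg x]
  · push Not at hx3
    have hopen : IsOpen {y : E | 2 * ‖x - y‖ < ‖x‖^2 - ‖y‖^2} := isOpen_lt (by fun_prop) (by fun_prop)
    apply mem_interior.2
    refine ⟨_, fun y hy => Lam_round hU hx (le_of_lt hy), hopen, ?_⟩
    show 2 * ‖x - t • x‖ < ‖x‖^2 - ‖t • x‖^2
    have e : x - t • x = (1 - t) • x := by rw [sub_smul, one_smul]
    rw [e, norm_smul, norm_smul, Real.norm_eq_abs, Real.norm_eq_abs, abs_of_nonneg ht0, abs_of_pos (by linarith)]
    have h1 : 0 < (1 - t) * ‖x‖ := by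
      apply mul_pos (by linarith) (by linarith)
    have h2 : 3 ≤ (1 + t) * ‖x‖ := by nlinarith
    nlinarith [mul_le_mul_of_nonneg_left h2 h1.le]

lemma Lam_closure : closure (interior (Lam hU)) = Lam hU := by
  apply Subset.antisymm
  · exact (closure_mono interior_subset).trans (Lam_closed hU).closure_subset
  · intro x hx
    have h1 : Tendsto (fun t : ℝ => t • x) (𝓝[<] 1) (𝓝 x) := by
      have : Tendsto (fun t : ℝ => t • x) (𝓝 1) (𝓝 ((1:ℝ) • x)) := (continuous_id.smul continuous_const).tendsto 1
      rw [one_smul] at this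
      exact this.mono_left nhdsWithin_le_nhds
    apply mem_closure_of_tendsto h1
    have h2 : ∀ᶠ t : ℝ in 𝓝[<] 1, 0 < t := by
      apply mem_nhdsWithin_of_mem_nhds
      exact lt_mem_nhds (by norm_num)
    filter_upwards [h2, self_mem_nhdsWithin] with t ht0 ht1
    exact Lam_star hU hx ht0.le ht1

lemma Lam_null : volume (Lam hU \ interior (Lam hU)) = 0 := by
  have hfin : volume (Lam hU) ≠ ⊤ :=
    (measure_mono (Lam_sub hU)).trans_lt measure_closedBall_lt_top |>.ne
  have hle : ∀ t : ℝ, 0 < t → t < 1 → ENNReal.ofReal (t^3) * volume (Lam hU) ≤ volume (interior (Lam hU)) := by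
    intro t ht0 ht1
    have h1 : t • Lam hU ⊆ interior (Lam hU) := by
      rintro _ ⟨x, hx, rfl⟩
      exact Lam_star hU hx ht0.le ht1
    have h2 := measure_mono (μ := (volume : Measure E)) h1
    rw [Measure.addHaar_smul] at h2
    simpa [abs_of_pos (pow_pos ht0 3)] using h2
  have hlim : Tendsto (fun t : ℝ => ENNReal.ofReal (t^3) * volume (Lam hU)) (𝓝[<] 1) (𝓝 (1 * volume (Lam hU))) := by
    apply ENNReal.Tendsto.mul_const _ (Or.inr hfin)
    have : Tendsto (fun t : ℝ => ENNReal.ofReal (t^3)) (𝓝 1) (𝓝 (ENNReal.ofReal (1^3))) := by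
      apply (ENNReal.continuous_ofReal.comp (continuous_pow 3)).tendsto
    simp only [one_pow, ENNReal.ofReal_one] at this
    exact this.mono_left nhdsWithin_le_nhds
  have hge : volume (Lam hU) ≤ volume (interior (Lam hU)) := by
    rw [one_mul] at hlim
    apply le_of_tendsto hlim
    have h2 : ∀ᶠ t : ℝ in 𝓝[<] 1, 0 < t := by
      apply mem_nhdsWithin_of_mem_nhds
      exact lt_mem_nhds (by norm_num)
    filter_upwards [h2, self_mem_nhdsWithin] with t ht0 ht1
    exact hle t ht0 ht1
  rw [measure_sdiff interior_subset isOpen_interior.measurableSet.nullMeasurableSet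
    (ne_top_of_le_ne_top hfin (measure_mono interior_subset))]
  exact tsub_eq_zero_of_le hge

lemma uu_tendsto (x : E) (hx : x ∈ Lam hU) : Tendsto (fun n => uu hU n x) atTop (𝓝 0) :=
  squeeze_zero (fun n => uu_nonneg hU n x) (fun n => hx n) eps_tendsto

/-- off the contact set the densities are eventually full -/
lemma gg_off (y : E) (hy : y ∉ Lam hU) :
    Tendsto (fun n => gg hU n y) atTop (𝓝 (U.indicator (fun _ => (1:ℝ)) y)) := by
  simp only [Lam, mem_ofPred_eq, not_forall, not_le] at hy
  obtain ⟨n, hn⟩ := hy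
  have hpos : 0 < uu hU n y - eps n := by linarith
  have h1 : ∀ᶠ m in atTop, eps m < uu hU n y - eps n := eps_tendsto.eventually (gt_mem_nhds hpos)
  apply tendsto_const_nhds.congr'
  filter_upwards [h1] with m hm
  have h2 := uu_close hU n m y
  rw [gg_of_ge hU m y (by linarith)]

lemma gg_ball (x : E) (s : ℝ) (hs : 0 < s) (hb : ball x s ⊆ Lam hU) :
    ∀ᵐ y, y ∈ ball x s → Tendsto (fun n => gg hU n y) atTop (𝓝 0) := by
  have hI : ∀ n, ∫ z in ball x s, gg hU n z * kap s (z - x) ≤ vol3 s * eps n := by
    intro n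
    rw [← mean_defect (gg_adm hU n) x s hs]
    have e1 : pot (gg hU n) = fun y => cc - uu hU n y := by
      ext y; rw [uu_eq]; ring
    have hui : IntegrableOn (uu hU n) (ball x s) := by
      have : uu hU n = fun y => cc - pot (gg hU n) y := by ext y; rw [uu_eq]
      rw [this]
      exact (hcst x s _).sub ((gg_adm hU n).locInt_pot x s)
    rw [e1]
    simp only
    rw [integral_sub (hcst x s _) hui]
    simp only [integral_const, smul_eq_mul]
    rw [measureReal_restrict_apply_univ, vol3_eq x s hs.le]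
    have h2 : ∫ y in ball x s, uu hU n y ≤ ∫ y in ball x s, eps n := by
      apply setIntegral_mono_on hui (hcst x s _) measurableSet_ball
      intro y hy
      exact hb hy n
    simp only [integral_const, smul_eq_mul] at h2
    rw [measureReal_restrict_apply_univ, vol3_eq x s hs.le] at h2
    have h3 := uu_nonneg hU n x
    have h4 : 0 ≤ vol3 s := by unfold vol3; have := Real.pi_pos; positivity
    nlinarith [mul_nonneg h4 h3]
  have hnn : ∀ n, 0 ≤ᵐ[volume.restrict (ball x s)] fun z => gg hU n z * kap s (z - x) := by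
    intro n
    filter_upwards [ae_restrict_mem measurableSet_ball, ae_restrict_of_ae (ae_ne_E x)] with z hz hz3
    have h2 : 0 < kap s (z - x) := kap_pos s hs _ (sub_ne_zero.2 hz3) (by rw [← dist_eq_norm]; exact hz)
    exact mul_nonneg (gg_nonneg hU n z) h2.le
  have hint : ∀ n, Integrable (fun z => gg hU n z * kap s (z - x)) (volume.restrict (ball x s)) := fun n =>
    (kap_integrable (gg_adm hU n) x s hs).1.integrableOn
  have hL : ∀ n, ∫⁻ z in ball x s, ENNReal.ofReal (gg hU n z * kap s (z - x)) ≤ ENNReal.ofReal (vol3 s * eps n) := by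
    intro n
    rw [← ofReal_integral_eq_lintegral_ofReal (hint n) (hnn n)]
    exact ENNReal.ofReal_le_ofReal (hI n)
  have hsum : ∫⁻ z in ball x s, ∑' n, ENNReal.ofReal (gg hU n z * kap s (z - x)) ≠ ⊤ := by
    rw [lintegral_tsum (fun n => (hint n).aestronglyMeasurable.aemeasurable.ennreal_ofReal)]
    apply ne_top_of_le_ne_top _ (ENNReal.tsum_le_tsum hL)
    have hs2 : Summable (fun n => vol3 s * eps n) := by
      apply Summable.mul_left
      unfold eps
      exact summable_geometric_of_lt_one (by norm_num) (by norm_num)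
    have h4 : 0 ≤ vol3 s := by unfold vol3; have := Real.pi_pos; positivity
    rw [← ENNReal.ofReal_tsum_of_nonneg (fun n => mul_nonneg h4 (eps_pos n).le) hs2]
    exact ENNReal.ofReal_ne_top
  have hae := ae_lt_top' (by
    apply AEMeasurable.tsum
    exact fun n => (hint n).aestronglyMeasurable.aemeasurable.ennreal_ofReal) hsum
  rw [ae_restrict_iff' measurableSet_ball] at hae
  filter_upwards [hae, ae_ne_E x] with z hz hzx hzb
  have h1 := ENNReal.tendsto_atTop_zero_of_tsum_ne_top (hz hzb).ne
  have hk : 0 < kap s (z - x) := kap_pos s hs _ (sub_ne_zero.2 hzx) (by rw [← dist_eq_norm]; exact hzb)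
  have h2 : Tendsto (fun n => (ENNReal.ofReal (gg hU n z * kap s (z - x))).toReal) atTop (𝓝 0) := by
    have := (ENNReal.tendsto_toReal ENNReal.zero_ne_top).comp h1
    rw [ENNReal.toReal_zero] at this
    exact this
  have h3 : Tendsto (fun n => gg hU n z * kap s (z - x)) atTop (𝓝 0) := by
    refine h2.congr (fun n => ?_)
    rw [ENNReal.toReal_ofReal (mul_nonneg (gg_nonneg hU n z) hk.le)]
  have h4 := h3.mul_const (kap s (z - x))⁻¹
  rw [zero_mul] at h4
  refine h4.congr (fun n => ?_)
  field_simp

lemma gg_int : ∀ᵐ y, y ∈ interior (Lam hU) → Tendsto (fun n => gg hU n y) atTop (𝓝 0) := by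
  -- countable cover by balls
  set T := interior (Lam hU) with hT
  have hopen : IsOpen T := isOpen_interior
  have hcov : ∀ x ∈ T, ∃ s, 0 < s ∧ ball x s ⊆ T := fun x hx => by
    obtain ⟨s, hs, h⟩ := Metric.isOpen_iff.1 hopen x hx
    exact ⟨s, hs, h⟩
  choose! s hs hb using hcov
  obtain ⟨D, hDsub, hDc, hD⟩ := TopologicalSpace.countable_cover_nhdsWithin
    (f := fun x => ball x (s x)) (s := T) (fun x hx => mem_nhdsWithin_of_mem_nhds (ball_mem_nhds x (hs x hx)))
  have hall : ∀ᵐ y, ∀ x ∈ D, y ∈ ball x (s x) → Tendsto (fun n => gg hU n y) atTop (𝓝 0) := by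
    rw [ae_ball_iff hDc]
    intro x hx
    exact gg_ball hU x (s x) (hs x (hDsub hx)) ((hb x (hDsub hx)).trans interior_subset)
  filter_upwards [hall] with y hy hyT
  have := hD hyT
  simp only [mem_iUnion] at this
  obtain ⟨x, hx, hyx⟩ := this
  exact hy x hx hyx

/-- the shell has constant potential in the cavity -/
theorem shell_const (P : E) (hP : P ∈ interior (Lam hU)) :
    ∫ M in U \ Lam hU, (dist P M)⁻¹ = cc := by
  have h1 : Tendsto (fun n => pot (gg hU n) P) atTop (𝓝 cc) := by
    have h2 := uu_tendsto hU P (interior_subset hP)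
    have h3 : (fun n => pot (gg hU n) P) = fun n => cc - uu hU n P := by
      ext n; rw [uu_eq]; ring
    rw [h3]
    simpa using h2.const_sub cc
  have h2 : Tendsto (fun n => pot (gg hU n) P) atTop (𝓝 (∫ y, ((U \ Lam hU).indicator (fun _ => (1:ℝ)) y) * ‖P - y‖⁻¹)) := by
    unfold pot
    apply tendsto_integral_of_dominated_convergence (fun y => U.indicator (fun _ => (1:ℝ)) y * ‖P - y‖⁻¹)
    · intro n
      exact ((gg_adm hU n).integrable_mul P).aestronglyMeasurable
    · have : Adm (U.indicator (fun _ => (1:ℝ))) := by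
        refine ⟨measurable_const.indicator hU.op.measurableSet, ⟨1, fun y => ?_⟩, ⟨11, fun y hy => ?_⟩⟩
        · by_cases h : y ∈ U <;> simp [indicator, h]
        · apply indicator_of_notMem
          intro h
          have := hU.sub h
          rw [mem_ball, dist_zero_right] at this
          linarith
      exact this.integrable_mul P
    · intro n
      filter_upwards with y
      rw [norm_mul, norm_inv, norm_norm, Real.norm_eq_abs, abs_of_nonneg (gg_nonneg hU n y)]
      exact mul_le_mul_of_nonneg_right (gg_le hU n y) (by positivity)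
    · have hnull : ∀ᵐ y, y ∈ (Lam hU \ interior (Lam hU))ᶜ := compl_mem_ae_iff.2 (Lam_null hU)
      filter_upwards [gg_int hU, hnull] with y hy1 hy2
      apply Tendsto.mul_const
      by_cases hyL : y ∈ Lam hU
      · have hyi : y ∈ interior (Lam hU) := by
          by_contra hc; exact hy2 ⟨hyL, hc⟩
        have : (U \ Lam hU).indicator (fun _ => (1:ℝ)) y = 0 := indicator_of_notMem (fun h => h.2 hyL) _
        rw [this]
        exact hy1 hyi
      · have : (U \ Lam hU).indicator (fun _ => (1:ℝ)) y = U.indicator (fun _ => (1:ℝ)) y := by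
          by_cases hyU : y ∈ U
          · rw [indicator_of_mem hyU, indicator_of_mem (show y ∈ U \ Lam hU from ⟨hyU, hyL⟩)]
          · rw [indicator_of_notMem hyU, indicator_of_notMem (fun h => hyU h.1)]
        rw [this]
        exact gg_off hU y hyL
  have h3 := tendsto_nhds_unique h1 h2
  rw [h3, ← integral_indicator (hU.op.measurableSet.diff (Lam_closed hU).measurableSet)]
  congr 1
  ext y
  by_cases hy : y ∈ U \ Lam hU
  · rw [indicator_of_mem hy, indicator_of_mem hy, one_mul, dist_eq_norm]
  · rw [indicator_of_notMem hy, indicator_of_notMem hy, zero_mul]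

end

end Pool.Agent.Helper551
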