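import Pool.Agent.Helper551.NevDefs

set_option autoImplicit false

open Filter Topology

open scoped BigOperators

namespace NevT.J671

noncomputable section

theorem Ac_norm (q l : ℕ) : ‖Ac q l‖ = Real.exp ((l : ℝ) / (q : ℝ) ^ 2) := by
  unfold Ac
  rw [Complex.norm_exp]
  congr 1
  rw [Complex.add_re, Complex.ofReal_re, Complex.re_ofReal_mul, Complex.I_re, mul_zero, add_zero]

lemma one_sub_exp_ge (x : ℝ) (hx : 0 ≤ x) : min 1 x / 2 ≤ 1 - Real.exp (-x) := by
  have h1 : Real.exp (-x) ≤ 1 / (1 + x) := by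
    rw [Real.exp_neg, ← one_div]
    apply one_div_le_one_div_of_le (by linarith)
    have := Real.add_one_le_exp x
    linarith
  have h2 : 1 - 1 / (1 + x) = x / (1 + x) := by
    field_simp; ring
  have h3 : min 1 x / 2 ≤ x / (1 + x) := by
    rw [div_le_div_iff₀ (by norm_num) (by linarith)]
    rcases le_total 1 x with h | h
    · rw [min_eq_left h]; linarith
    · rw [min_eq_right h]; nlinarith
  linarith

lemma Ac_angular (q l k : ℕ) :
    ‖Ac q l‖ * |Real.sin (((l % q : ℕ) : ℝ) / q - ((k % q : ℕ) : ℝ) / q)| ≤ ‖Ac q l - Ac q k‖ := by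
  set t : ℝ := ((l % q : ℕ) : ℝ) / q with ht
  set s : ℝ := ((k % q : ℕ) : ℝ) / q with hs
  have h : (Ac q l - Ac q k) * Complex.exp (((-s : ℝ) : ℂ) * Complex.I)
      = ((Real.exp ((l : ℝ) / (q : ℝ) ^ 2) : ℝ) : ℂ) * Complex.exp (((t - s : ℝ) : ℂ) * Complex.I)
        - ((Real.exp ((k : ℝ) / (q : ℝ) ^ 2) : ℝ) : ℂ) := by
    unfold Ac
    rw [sub_mul, ← Complex.exp_add, ← Complex.exp_add, Complex.ofReal_exp, Complex.ofReal_exp,
      ← Complex.exp_add]
    congr 2
    · rw [← ht]; push_cast; ring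
    · rw [← hs]; push_cast; ring
  have h2 : ‖(Ac q l - Ac q k) * Complex.exp (((-s : ℝ) : ℂ) * Complex.I)‖ = ‖Ac q l - Ac q k‖ := by
    rw [norm_mul, Complex.norm_exp_ofReal_mul_I, mul_one]
  rw [← h2, h]
  refine le_trans ?_ (Complex.abs_im_le_norm _)
  rw [Complex.sub_im, Complex.ofReal_im, sub_zero, Complex.im_ofReal_mul,
    Complex.exp_ofReal_mul_I_im, abs_mul, abs_of_pos (Real.exp_pos _), Ac_norm]

/-- the size parameter -/
def DD (q l k : ℕ) : ℝ :=
  max (|(l : ℝ) - k| / (q : ℝ) ^ 2) (|((l % q : ℕ) : ℝ) - ((k % q : ℕ) : ℝ)| / q)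

/-- lower bound of the mutual distances -/
theorem Ac_dist (q : ℕ) (hq : 0 < q) (l k : ℕ) :
    (1 / 2) * max ‖Ac q l‖ ‖Ac q k‖ *
      min 1 (max (|(l : ℝ) - k| / (q : ℝ) ^ 2) (|((l % q : ℕ) : ℝ) - ((k % q : ℕ) : ℝ)| / q))
      ≤ ‖Ac q l - Ac q k‖ := by
  have hq' : (0 : ℝ) < q := by exact_mod_cast hq
  set x : ℝ := |(l : ℝ) - k| / (q : ℝ) ^ 2 with hx
  set y : ℝ := |((l % q : ℕ) : ℝ) - ((k % q : ℕ) : ℝ)| / q with hy
  have hx0 : 0 ≤ x := by positivity
  have hy0 : 0 ≤ y := by positivity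
  have hM0 : 0 ≤ max ‖Ac q l‖ ‖Ac q k‖ := le_max_of_le_left (norm_nonneg _)
  -- radial
  have hrad : max ‖Ac q l‖ ‖Ac q k‖ * (min 1 x / 2) ≤ ‖Ac q l - Ac q k‖ := by
    have h1 := one_sub_exp_ge x hx0
    refine (mul_le_mul_of_nonneg_left h1 hM0).trans ?_
    rcases le_total k l with h | h
    · have hkl : (k : ℝ) ≤ l := by exact_mod_cast h
      have e : ‖Ac q k‖ = ‖Ac q l‖ * Real.exp (-x) := by
        rw [Ac_norm, Ac_norm, ← Real.exp_add]; congr 1
        rw [hx, abs_of_nonneg (by linarith)]; ring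
      have hle : ‖Ac q k‖ ≤ ‖Ac q l‖ := by
        rw [Ac_norm, Ac_norm]; apply Real.exp_le_exp.mpr
        apply div_le_div_of_nonneg_right hkl (by positivity)
      rw [max_eq_left hle, mul_sub, mul_one, ← e]
      exact norm_sub_norm_le _ _
    · have hkl : (l : ℝ) ≤ k := by exact_mod_cast h
      have e : ‖Ac q l‖ = ‖Ac q k‖ * Real.exp (-x) := by
        rw [Ac_norm, Ac_norm, ← Real.exp_add]; congr 1
        rw [hx, abs_of_nonpos (by linarith)]; ring
      have hle : ‖Ac q l‖ ≤ ‖Ac q k‖ := by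
        rw [Ac_norm, Ac_norm]; apply Real.exp_le_exp.mpr
        apply div_le_div_of_nonneg_right hkl (by positivity)
      rw [max_eq_right hle, mul_sub, mul_one, ← e, norm_sub_rev]
      exact norm_sub_norm_le _ _
  have hang : max ‖Ac q l‖ ‖Ac q k‖ * (min 1 y / 2) ≤ ‖Ac q l - Ac q k‖ := by
    have hl1 : ((l % q : ℕ) : ℝ) < q := by exact_mod_cast Nat.mod_lt l hq
    have hk1 : ((k % q : ℕ) : ℝ) < q := by exact_mod_cast Nat.mod_lt k hq
    have hl0 : (0 : ℝ) ≤ ((l % q : ℕ) : ℝ) := Nat.cast_nonneg _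
    have hk0 : (0 : ℝ) ≤ ((k % q : ℕ) : ℝ) := Nat.cast_nonneg _
    have hy1 : y ≤ 1 := by
      rw [hy, div_le_one hq', abs_le]; constructor <;> linarith
    have hyt : |((l % q : ℕ) : ℝ) / q - ((k % q : ℕ) : ℝ) / q| = y := by
      rw [← sub_div, abs_div, abs_of_pos hq']
    have hsin : y / 2 ≤ |Real.sin (((l % q : ℕ) : ℝ) / q - ((k % q : ℕ) : ℝ) / q)| := by
      have h1 := Real.mul_abs_le_abs_sin (x := ((l % q : ℕ) : ℝ) / q - ((k % q : ℕ) : ℝ) / q) (by
        rw [hyt]; linarith [Real.pi_gt_three])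
      rw [hyt] at h1
      refine le_trans ?_ h1
      have : (1 : ℝ) / 2 ≤ 2 / Real.pi := by
        rw [div_le_div_iff₀ (by norm_num) Real.pi_pos]; linarith [Real.pi_lt_four]
      nlinarith
    have hA := Ac_angular q l k
    have hB := Ac_angular q k l
    rw [norm_sub_rev, show ((k % q : ℕ) : ℝ) / q - ((l % q : ℕ) : ℝ) / q
      = -(((l % q : ℕ) : ℝ) / q - ((k % q : ℕ) : ℝ) / q) by ring, Real.sin_neg, abs_neg] at hB
    have hmin : min 1 y / 2 ≤ |Real.sin (((l % q : ℕ) : ℝ) / q - ((k % q : ℕ) : ℝ) / q)| := by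
      rw [min_eq_right hy1]; exact hsin
    rcases max_choice ‖Ac q l‖ ‖Ac q k‖ with h | h
    · rw [h]; exact (mul_le_mul_of_nonneg_left hmin (norm_nonneg _)).trans hA
    · rw [h]; exact (mul_le_mul_of_nonneg_left hmin (norm_nonneg _)).trans hB
  rcases max_choice x y with h | h
  · rw [h]; linarith
  · rw [h]; linarith

/-- natural distance -/
def nd (a b : ℕ) : ℕ := (a - b) + (b - a)

lemma nd_cast (a b : ℕ) : ((nd a b : ℕ) : ℝ) = |(a : ℝ) - b| := by
  unfold nd
  rcases le_total a b with h | h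
  · rw [Nat.sub_eq_zero_of_le h, zero_add, Nat.cast_sub h, abs_of_nonpos]
    · ring
    · have : (a : ℝ) ≤ b := by exact_mod_cast h
      linarith
  · rw [Nat.sub_eq_zero_of_le h, add_zero, Nat.cast_sub h, abs_of_nonneg]
    have : (b : ℝ) ≤ a := by exact_mod_cast h
    linarith

lemma DD_ge (q : ℕ) (hq : 0 < q) (l k : ℕ) (h : k ≠ l) :
    ((max (nd (k / q) (l / q)) (nd (k % q) (l % q)) : ℕ) + 1 : ℝ) / (4 * q) ≤ DD q l k := by
  have hq' : (0 : ℝ) < q := by exact_mod_cast hq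
  set i := nd (k / q) (l / q) with hi
  set j := nd (k % q) (l % q) with hj
  have hk := Nat.div_add_mod k q
  have hl := Nat.div_add_mod l q
  have hkm := Nat.mod_lt k hq
  have hlm := Nat.mod_lt l hq
  -- natural number facts
  have hij : i ≠ 0 ∨ j ≠ 0 := by
    by_contra hcon
    rw [not_or, not_not, not_not] at hcon
    apply h
    have h1 : k / q = l / q := by have := hcon.1; rw [hi] at this; unfold nd at this; omega
    have h2 : k % q = l % q := by have := hcon.2; rw [hj] at this; unfold nd at this; omega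
    rw [← hk, ← hl, h1, h2]
  have hmax : 1 ≤ max i j := by
    rcases hij with h1 | h1
    · exact le_max_of_le_left (Nat.one_le_iff_ne_zero.mpr h1)
    · exact le_max_of_le_right (Nat.one_le_iff_ne_zero.mpr h1)
  have hjy : (j : ℝ) / q ≤ DD q l k := by
    unfold DD
    apply le_max_of_le_right
    rw [hj, nd_cast, abs_sub_comm]
  have hix : (i : ℝ) / (2 * q) ≤ DD q l k := by
    rcases Nat.lt_or_ge i 2 with h2 | h2
    · interval_cases hi2 : i
      · simp only [Nat.cast_zero, zero_div]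
        exact le_trans (by positivity) hjy
      · rcases Nat.eq_zero_or_pos j with h3 | h3
        · -- |l-k| = q
          unfold DD
          apply le_max_of_le_left
          have h4 : k % q = l % q := by rw [hj] at h3; unfold nd at h3; omega
          have h5 : nd k l = q := by
            have h6 : k / q = l / q + 1 ∨ l / q = k / q + 1 := by
              unfold nd at hi; omega
            rcases h6 with h6 | h6
            · have : k = l + q := by rw [← hk, ← hl, h4, h6]; ring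
              unfold nd; omega
            · have : l = k + q := by rw [← hk, ← hl, h4, h6]; ring
              unfold nd; omega
          have h7 : |(l : ℝ) - k| = q := by rw [abs_sub_comm, ← nd_cast, h5]
          rw [h7]
          rw [div_le_div_iff₀ (by positivity) (by positivity)]
          push_cast; nlinarith
        · refine le_trans ?_ hjy
          have : (1 : ℝ) ≤ j := by exact_mod_cast h3
          rw [div_le_div_iff₀ (by positivity) (by positivity)]
          push_cast; nlinarith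
    · unfold DD
      apply le_max_of_le_left
      have h3 : i * q ≤ 2 * nd k l := by
        have h6 : k / q = l / q + i ∨ l / q = k / q + i := by
          unfold nd at hi; omega
        rcases h6 with h6 | h6
        · have : k = l - l % q + i * q + k % q := by
            have h8 : q * (k / q) = q * (l / q) + i * q := by rw [h6]; ring
            omega
          have h9 : i * q ≥ 2 * q := Nat.mul_le_mul_right q h2
          unfold nd; omega
        · have : l = k - k % q + i * q + l % q := by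
            have h8 : q * (l / q) = q * (k / q) + i * q := by rw [h6]; ring
            omega
          have h9 : i * q ≥ 2 * q := Nat.mul_le_mul_right q h2
          unfold nd; omega
      have h4 : (i : ℝ) * q ≤ 2 * |(l : ℝ) - k| := by
        rw [abs_sub_comm, ← nd_cast]; exact_mod_cast h3
      rw [div_le_div_iff₀ (by positivity) (by positivity)]
      nlinarith
  have hm : ((max i j : ℕ) : ℝ) / (2 * q) ≤ DD q l k := by
    rcases max_choice i j with h1 | h1
    · rw [h1]; exact hix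
    · rw [h1]; refine le_trans ?_ hjy
      apply div_le_div_of_nonneg_left (by positivity) hq' (by linarith)
  refine le_trans ?_ hm
  have : (1 : ℝ) ≤ ((max i j : ℕ) : ℝ) := by exact_mod_cast hmax
  rw [div_le_div_iff₀ (by positivity) (by positivity)]
  nlinarith

lemma DD_nonneg (q l k : ℕ) : 0 ≤ DD q l k := le_max_of_le_left (by positivity)

theorem Ac_sep (q : ℕ) (hq : 0 < q) (l k : ℕ) (h : l ≠ k) :
    (‖Ac q l‖ + ‖Ac q k‖) / (4 * q) ≤ ‖Ac q l - Ac q k‖ := by
  have hq' : (0 : ℝ) < q := by exact_mod_cast hq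
  have hq1 : (1 : ℝ) ≤ q := by exact_mod_cast hq
  have h1 := Ac_dist q hq l k
  change (1 / 2) * max ‖Ac q l‖ ‖Ac q k‖ * min 1 (DD q l k) ≤ _ at h1
  have hk := Nat.div_add_mod k q
  have hl := Nat.div_add_mod l q
  have hD : 1 / (q : ℝ) ≤ DD q l k := by
    unfold DD
    by_cases hm : l % q = k % q
    · apply le_max_of_le_left
      have h3 : q ≤ nd l k := by
        have h4 : l / q ≠ k / q := by
          intro h5; apply h; rw [← hk, ← hl, h5, hm]
        rcases Nat.lt_or_gt_of_ne h4 with h5 | h5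
        · have h6 : q * (l / q) + q ≤ q * (k / q) := by
            have := Nat.mul_le_mul_left q (Nat.succ_le_of_lt h5)
            rw [Nat.mul_succ] at this; exact this
          unfold nd; omega
        · have h6 : q * (k / q) + q ≤ q * (l / q) := by
            have := Nat.mul_le_mul_left q (Nat.succ_le_of_lt h5)
            rw [Nat.mul_succ] at this; exact this
          unfold nd; omega
      have h4 : (q : ℝ) ≤ |(l : ℝ) - k| := by rw [← nd_cast]; exact_mod_cast h3
      rw [div_le_div_iff₀ hq' (by positivity)]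
      nlinarith
    · apply le_max_of_le_right
      apply div_le_div_of_nonneg_right _ hq'.le
      rw [← nd_cast]
      have : 1 ≤ nd (l % q) (k % q) := by unfold nd; omega
      exact_mod_cast this
  have h2 : 1 / (q : ℝ) ≤ min 1 (DD q l k) := by
    apply le_min _ hD
    rw [div_le_one hq']; exact hq1
  have h3 : (‖Ac q l‖ + ‖Ac q k‖) / 2 ≤ max ‖Ac q l‖ ‖Ac q k‖ := by
    have := le_max_left ‖Ac q l‖ ‖Ac q k‖
    have := le_max_right ‖Ac q l‖ ‖Ac q k‖
    linarith
  have hM0 : 0 ≤ max ‖Ac q l‖ ‖Ac q k‖ := le_max_of_le_left (norm_nonneg _)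
  calc (‖Ac q l‖ + ‖Ac q k‖) / (4 * q) = (1 / 2) * ((‖Ac q l‖ + ‖Ac q k‖) / 2) * (1 / q) := by
        field_simp; norm_num
    _ ≤ (1 / 2) * max ‖Ac q l‖ ‖Ac q k‖ * min 1 (DD q l k) := by
        apply mul_le_mul _ h2 (by positivity) (by positivity)
        linarith
    _ ≤ _ := h1

lemma sum_nd_le (S : Finset ℕ) (a n : ℕ) (h : ∀ x ∈ S, nd x a < n) (w : ℕ → ℝ) (hw : ∀ i, 0 ≤ w i) :
    ∑ x ∈ S, w (nd x a) ≤ 2 * ∑ i ∈ Finset.range n, w i := by
  rw [← Finset.sum_filter_add_sum_filter_not S (fun x => x ≤ a), two_mul]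
  apply add_le_add
  · have e : ∑ x ∈ S.filter (fun x => x ≤ a), w (nd x a)
        = ∑ i ∈ (S.filter (fun x => x ≤ a)).image (fun x => nd x a), w i := by
      rw [Finset.sum_image]
      intro x hx y hy hxy
      simp only [Finset.coe_filter, Set.mem_ofPred_eq] at hx hy
      simp only [nd] at hxy
      omega
    rw [e]
    apply Finset.sum_le_sum_of_subset_of_nonneg
    · intro i hi
      simp only [Finset.mem_image, Finset.mem_filter] at hi
      obtain ⟨x, ⟨hx, _⟩, rfl⟩ := hi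
      exact Finset.mem_range.mpr (h x hx)
    · intro i _ _; exact hw i
  · have e : ∑ x ∈ S.filter (fun x => ¬ x ≤ a), w (nd x a)
        = ∑ i ∈ (S.filter (fun x => ¬ x ≤ a)).image (fun x => nd x a), w i := by
      rw [Finset.sum_image]
      intro x hx y hy hxy
      simp only [Finset.coe_filter, Set.mem_ofPred_eq] at hx hy
      simp only [nd] at hxy
      omega
    rw [e]
    apply Finset.sum_le_sum_of_subset_of_nonneg
    · intro i hi
      simp only [Finset.mem_image, Finset.mem_filter] at hi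
      obtain ⟨x, ⟨hx, _⟩, rfl⟩ := hi
      exact Finset.mem_range.mpr (h x hx)
    · intro i _ _; exact hw i

/-- two-dimensional sum -/
lemma sum2_le (q : ℕ) (hq : 0 < q) (l M : ℕ) (K : Finset ℕ) (hK : ∀ k ∈ K, nd (k / q) (l / q) < M)
    (w1 w2 : ℕ → ℝ) (hw1 : ∀ i, 0 ≤ w1 i) (hw2 : ∀ i, 0 ≤ w2 i) :
    ∑ k ∈ K, w1 (nd (k / q) (l / q)) * w2 (nd (k % q) (l % q))
      ≤ (2 * ∑ i ∈ Finset.range M, w1 i) * (2 * ∑ i ∈ Finset.range q, w2 i) := by
  have e : ∑ k ∈ K, w1 (nd (k / q) (l / q)) * w2 (nd (k % q) (l % q))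
      = ∑ ab ∈ K.image (fun k => (k / q, k % q)), w1 (nd ab.1 (l / q)) * w2 (nd ab.2 (l % q)) := by
    rw [Finset.sum_image]
    intro x _ y _ hxy
    simp only [Prod.mk.injEq] at hxy
    rw [← Nat.div_add_mod x q, ← Nat.div_add_mod y q, hxy.1, hxy.2]
  rw [e]
  have h1 : ∑ ab ∈ K.image (fun k => (k / q, k % q)), w1 (nd ab.1 (l / q)) * w2 (nd ab.2 (l % q))
      ≤ ∑ ab ∈ (K.image (fun k => k / q)) ×ˢ (K.image (fun k => k % q)),
        w1 (nd ab.1 (l / q)) * w2 (nd ab.2 (l % q)) := by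
    apply Finset.sum_le_sum_of_subset_of_nonneg
    · intro ab hab
      simp only [Finset.mem_image] at hab
      obtain ⟨k, hk, rfl⟩ := hab
      rw [Finset.mem_product]
      exact ⟨Finset.mem_image_of_mem _ hk, Finset.mem_image_of_mem _ hk⟩
    · intro i _ _; exact mul_nonneg (hw1 _) (hw2 _)
  refine h1.trans ?_
  rw [Finset.sum_product]
  have h2 : ∑ x ∈ K.image (fun k => k / q), ∑ y ∈ K.image (fun k => k % q),
        w1 (nd (x, y).1 (l / q)) * w2 (nd (x, y).2 (l % q))
      = (∑ x ∈ K.image (fun k => k / q), w1 (nd x (l / q)))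
        * (∑ y ∈ K.image (fun k => k % q), w2 (nd y (l % q))) := by
    rw [Finset.sum_mul_sum]
  rw [h2]
  apply mul_le_mul
  · apply sum_nd_le _ _ _ _ _ hw1
    intro x hx
    simp only [Finset.mem_image] at hx
    obtain ⟨k, hk, rfl⟩ := hx
    exact hK k hk
  · apply sum_nd_le _ _ _ _ _ hw2
    intro x hx
    simp only [Finset.mem_image] at hx
    obtain ⟨k, hk, rfl⟩ := hx
    have := Nat.mod_lt k hq
    have := Nat.mod_lt l hq
    unfold nd; omega
  · exact Finset.sum_nonneg (fun _ _ => hw2 _)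
  · exact mul_nonneg (by norm_num) (Finset.sum_nonneg (fun _ _ => hw1 _))

lemma sum_inv_sqrt (n : ℕ) : ∑ i ∈ Finset.range n, 1 / Real.sqrt ((i : ℝ) + 1) ≤ 2 * Real.sqrt n := by
  induction n with
  | zero => simp
  | succ n ih =>
    rw [Finset.sum_range_succ]
    push_cast
    have h1 : 0 < Real.sqrt ((n : ℝ) + 1) := Real.sqrt_pos.mpr (by positivity)
    have h2 : Real.sqrt ((n : ℝ) + 1) ^ 2 = n + 1 := Real.sq_sqrt (by positivity)
    have h3 : Real.sqrt (n : ℝ) ^ 2 = n := Real.sq_sqrt (by positivity)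
    have h0 : 0 ≤ Real.sqrt (n : ℝ) := Real.sqrt_nonneg _
    have h4 : 1 / Real.sqrt ((n : ℝ) + 1) ≤ 2 * Real.sqrt ((n : ℝ) + 1) - 2 * Real.sqrt n := by
      rw [div_le_iff₀ h1]
      nlinarith [sq_nonneg (Real.sqrt ((n : ℝ) + 1) - Real.sqrt n)]
    linarith

lemma sum_inv (n : ℕ) : ∑ i ∈ Finset.range n, 1 / ((i : ℝ) + 1) ≤ 1 + Real.log n := by
  have h1 := harmonic_le_one_add_log n
  have h2 : ((harmonic n : ℚ) : ℝ) = ∑ i ∈ Finset.range n, (1 : ℝ) / ((i : ℝ) + 1) := by
    unfold harmonic; push_cast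
    apply Finset.sum_congr rfl; intro i _; rw [one_div]
  rw [h2] at h1; exact h1

lemma geo_sum (y : ℝ) (hy : 0 < y) (hy1 : y ≤ 1) (u : Finset ℕ) :
    ∑ j ∈ u, Real.exp (-(y * j)) ≤ 2 / y := by
  have hr0 : 0 ≤ Real.exp (-y) := (Real.exp_pos _).le
  have hr1 : Real.exp (-y) < 1 := by rw [Real.exp_lt_one_iff]; linarith
  have e : ∀ j : ℕ, Real.exp (-(y * j)) = Real.exp (-y) ^ j := by
    intro j; rw [← Real.exp_nat_mul]; congr 1; ring
  simp_rw [e]
  have h1 : ∑ j ∈ u, Real.exp (-y) ^ j ≤ ∑' j : ℕ, Real.exp (-y) ^ j :=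
    (summable_geometric_of_lt_one hr0 hr1).sum_le_tsum u (fun i _ => by positivity)
  refine h1.trans ?_
  rw [tsum_geometric_of_lt_one hr0 hr1]
  have h2 := one_sub_exp_ge y hy.le
  rw [min_eq_right hy1] at h2
  rw [← one_div]
  calc 1 / (1 - Real.exp (-y)) ≤ 1 / (y / 2) := one_div_le_one_div_of_le (by positivity) h2
    _ = 2 / y := by rw [one_div_div]

/-- geometric sum over `k > l` -/
lemma geo_sum_gt (q : ℕ) (hq : 0 < q) (c : ℝ) (hc : 0 < c) (hc1 : c ≤ 1) (l : ℕ) (u : Finset ℕ)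
    (hu : ∀ k ∈ u, l ≤ k) :
    ∑ k ∈ u, Real.exp (-(c * ((k : ℝ) - l) / (q : ℝ) ^ 2)) ≤ 2 * (q : ℝ) ^ 2 / c := by
  have hq' : (0 : ℝ) < q := by exact_mod_cast hq
  have hq1 : (1 : ℝ) ≤ q := by exact_mod_cast hq
  have e : ∑ k ∈ u, Real.exp (-(c * ((k : ℝ) - l) / (q : ℝ) ^ 2))
      = ∑ j ∈ u.image (fun k => k - l), Real.exp (-(c / (q : ℝ) ^ 2 * j)) := by
    rw [Finset.sum_image]
    · apply Finset.sum_congr rfl
      intro k hk
      rw [Nat.cast_sub (hu k hk)]; congr 1; ring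
    · intro x hx y hy hxy
      have := hu x hx
      have := hu y hy
      simp only at hxy
      omega
  rw [e]
  have h1 := geo_sum (c / (q : ℝ) ^ 2) (by positivity) (by
    rw [div_le_one (by positivity)]; nlinarith) (u.image (fun k => k - l))
  refine h1.trans (le_of_eq ?_)
  field_simp

/-- geometric sum over `k < l` -/
lemma geo_sum_lt (q : ℕ) (hq : 0 < q) (c : ℝ) (hc : 0 < c) (hc1 : c ≤ 1) (l : ℕ) (u : Finset ℕ)
    (hu : ∀ k ∈ u, k ≤ l) :
    ∑ k ∈ u, Real.exp (-(c * ((l : ℝ) - k) / (q : ℝ) ^ 2)) ≤ 2 * (q : ℝ) ^ 2 / c := by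
  have hq' : (0 : ℝ) < q := by exact_mod_cast hq
  have hq1 : (1 : ℝ) ≤ q := by exact_mod_cast hq
  have e : ∑ k ∈ u, Real.exp (-(c * ((l : ℝ) - k) / (q : ℝ) ^ 2))
      = ∑ j ∈ u.image (fun k => l - k), Real.exp (-(c / (q : ℝ) ^ 2 * j)) := by
    rw [Finset.sum_image]
    · apply Finset.sum_congr rfl
      intro k hk
      rw [Nat.cast_sub (hu k hk)]; congr 1; ring
    · intro x hx y hy hxy
      have := hu x hx
      have := hu y hy
      simp only at hxy
      omega
  rw [e]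
  have h1 := geo_sum (c / (q : ℝ) ^ 2) (by positivity) (by
    rw [div_le_one (by positivity)]; nlinarith) (u.image (fun k => l - k))
  refine h1.trans (le_of_eq ?_)
  field_simp

lemma div_range (q : ℕ) (hq : 0 < q) (T l k : ℕ) (h : nd k l ≤ T * q ^ 2) :
    nd (k / q) (l / q) < T * q + 2 := by
  have hk := Nat.div_add_mod k q
  have hl := Nat.div_add_mod l q
  have hkm := Nat.mod_lt k hq
  have hlm := Nat.mod_lt l hq
  by_contra hcon
  rw [not_lt] at hcon
  set i := nd (k / q) (l / q) with hi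
  have h6 : k / q = l / q + i ∨ l / q = k / q + i := by
    unfold nd at hi; omega
  have h9 : (T * q + 2) * q ≤ i * q := Nat.mul_le_mul_right q hcon
  have h10 : (T * q + 2) * q = T * q ^ 2 + 2 * q := by ring
  rcases h6 with h6 | h6
  · have h8 : q * (k / q) = q * (l / q) + i * q := by rw [h6]; ring
    unfold nd at h; omega
  · have h8 : q * (l / q) = q * (k / q) + i * q := by rw [h6]; ring
    unfold nd at h; omega

/-- first order near sum -/
lemma sum_invD (q : ℕ) (hq : 0 < q) (T l : ℕ) (K : Finset ℕ) (hK : ∀ k ∈ K, k ≠ l ∧ nd k l ≤ T * q ^ 2) :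
    ∑ k ∈ K, 1 / DD q l k ≤ 64 * Real.sqrt (T + 2) * (q : ℝ) ^ 2 := by
  have hq' : (0 : ℝ) < q := by exact_mod_cast hq
  have hq1 : (1 : ℝ) ≤ q := by exact_mod_cast hq
  set w : ℕ → ℝ := fun i => 1 / Real.sqrt ((i : ℝ) + 1) with hw
  have hw0 : ∀ i, 0 ≤ w i := fun i => by simp only [hw]; positivity
  have h1 : ∀ k ∈ K, 1 / DD q l k
      ≤ 4 * q * (w (nd (k / q) (l / q)) * w (nd (k % q) (l % q))) := by
    intro k hk
    have h2 := DD_ge q hq l k (hK k hk).1
    set i := nd (k / q) (l / q)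
    set j := nd (k % q) (l % q)
    have h3 : Real.sqrt ((i : ℝ) + 1) * Real.sqrt ((j : ℝ) + 1) ≤ ((max i j : ℕ) : ℝ) + 1 := by
      have hi : (i : ℝ) ≤ ((max i j : ℕ) : ℝ) := by exact_mod_cast le_max_left i j
      have hj : (j : ℝ) ≤ ((max i j : ℕ) : ℝ) := by exact_mod_cast le_max_right i j
      have h4 : Real.sqrt ((i : ℝ) + 1) ≤ Real.sqrt (((max i j : ℕ) : ℝ) + 1) :=
        Real.sqrt_le_sqrt (by linarith)
      have h5 : Real.sqrt ((j : ℝ) + 1) ≤ Real.sqrt (((max i j : ℕ) : ℝ) + 1) :=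
        Real.sqrt_le_sqrt (by linarith)
      calc Real.sqrt ((i : ℝ) + 1) * Real.sqrt ((j : ℝ) + 1)
          ≤ Real.sqrt (((max i j : ℕ) : ℝ) + 1) * Real.sqrt (((max i j : ℕ) : ℝ) + 1) :=
            mul_le_mul h4 h5 (Real.sqrt_nonneg _) (Real.sqrt_nonneg _)
        _ = _ := Real.mul_self_sqrt (by positivity)
    have h6 : 0 < Real.sqrt ((i : ℝ) + 1) * Real.sqrt ((j : ℝ) + 1) :=
      mul_pos (Real.sqrt_pos.mpr (by positivity)) (Real.sqrt_pos.mpr (by positivity))
    calc 1 / DD q l k ≤ 1 / ((((max i j : ℕ) : ℝ) + 1) / (4 * q)) :=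
          one_div_le_one_div_of_le (by positivity) h2
      _ = 4 * q * (1 / (((max i j : ℕ) : ℝ) + 1)) := by field_simp
      _ ≤ 4 * q * (1 / (Real.sqrt ((i : ℝ) + 1) * Real.sqrt ((j : ℝ) + 1))) := by
          apply mul_le_mul_of_nonneg_left _ (by positivity)
          exact one_div_le_one_div_of_le h6 h3
      _ = 4 * q * (w i * w j) := by simp only [hw]; field_simp
  refine (Finset.sum_le_sum h1).trans ?_
  rw [← Finset.mul_sum]
  have h2 := sum2_le q hq l (T * q + 2) K (fun k hk => div_range q hq T l k (hK k hk).2) w w hw0 hw0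
  have h3 := sum_inv_sqrt (T * q + 2)
  have h4 := sum_inv_sqrt q
  have h5 : Real.sqrt ((T * q + 2 : ℕ) : ℝ) ≤ Real.sqrt (T + 2) * Real.sqrt q := by
    rw [← Real.sqrt_mul (by positivity)]
    apply Real.sqrt_le_sqrt
    push_cast
    nlinarith [Nat.cast_nonneg (α := ℝ) T]
  have h6 : Real.sqrt (q : ℝ) * Real.sqrt q = q := Real.mul_self_sqrt hq'.le
  have h7 : (2 * ∑ i ∈ Finset.range (T * q + 2), w i) * (2 * ∑ i ∈ Finset.range q, w i)
      ≤ (4 * (Real.sqrt (T + 2) * Real.sqrt q)) * (4 * Real.sqrt q) := by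
    apply mul_le_mul
    · simp only [hw]; linarith
    · simp only [hw]; linarith
    · exact mul_nonneg (by norm_num) (Finset.sum_nonneg (fun _ _ => hw0 _))
    · positivity
  calc 4 * (q : ℝ) * ∑ k ∈ K, w (nd (k / q) (l / q)) * w (nd (k % q) (l % q))
      ≤ 4 * q * ((4 * (Real.sqrt (T + 2) * Real.sqrt q)) * (4 * Real.sqrt q)) :=
        mul_le_mul_of_nonneg_left (h2.trans h7) (by positivity)
    _ = 64 * Real.sqrt (T + 2) * q * (Real.sqrt q * Real.sqrt q) := by ring
    _ = 64 * Real.sqrt (T + 2) * (q : ℝ) ^ 2 := by rw [h6]; ring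

/-- second order near sum -/
lemma sum_invD2 (q : ℕ) (hq : 0 < q) (T l : ℕ) (K : Finset ℕ) (hK : ∀ k ∈ K, k ≠ l ∧ nd k l ≤ T * q ^ 2) :
    ∑ k ∈ K, 1 / DD q l k ^ 2
      ≤ 64 * (q : ℝ) ^ 2 * ((1 + Real.log ((T * q + 2 : ℕ) : ℝ)) * (1 + Real.log q)) := by
  have hq' : (0 : ℝ) < q := by exact_mod_cast hq
  have hq1 : (1 : ℝ) ≤ q := by exact_mod_cast hq
  set w : ℕ → ℝ := fun i => 1 / ((i : ℝ) + 1) with hw
  have hw0 : ∀ i, 0 ≤ w i := fun i => by simp only [hw]; positivity
  have h1 : ∀ k ∈ K, 1 / DD q l k ^ 2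
      ≤ 16 * (q : ℝ) ^ 2 * (w (nd (k / q) (l / q)) * w (nd (k % q) (l % q))) := by
    intro k hk
    have h2 := DD_ge q hq l k (hK k hk).1
    set i := nd (k / q) (l / q)
    set j := nd (k % q) (l % q)
    have hi : (i : ℝ) ≤ ((max i j : ℕ) : ℝ) := by exact_mod_cast le_max_left i j
    have hj : (j : ℝ) ≤ ((max i j : ℕ) : ℝ) := by exact_mod_cast le_max_right i j
    have h3 : ((i : ℝ) + 1) * ((j : ℝ) + 1) ≤ (((max i j : ℕ) : ℝ) + 1) ^ 2 := by
      rw [sq]
      apply mul_le_mul (by linarith) (by linarith) (by positivity) (by positivity)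
    have h6 : 0 < ((i : ℝ) + 1) * ((j : ℝ) + 1) := by positivity
    have h7 : ((((max i j : ℕ) : ℝ) + 1) / (4 * q)) ^ 2 ≤ DD q l k ^ 2 :=
      pow_le_pow_left₀ (by positivity) h2 2
    calc 1 / DD q l k ^ 2 ≤ 1 / ((((max i j : ℕ) : ℝ) + 1) / (4 * q)) ^ 2 :=
          one_div_le_one_div_of_le (by positivity) h7
      _ = 16 * (q : ℝ) ^ 2 * (1 / (((max i j : ℕ) : ℝ) + 1) ^ 2) := by field_simp; norm_num
      _ ≤ 16 * (q : ℝ) ^ 2 * (1 / (((i : ℝ) + 1) * ((j : ℝ) + 1))) := by
          apply mul_le_mul_of_nonneg_left _ (by positivity)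
          exact one_div_le_one_div_of_le h6 h3
      _ = 16 * (q : ℝ) ^ 2 * (w i * w j) := by simp only [hw]; field_simp
  refine (Finset.sum_le_sum h1).trans ?_
  rw [← Finset.mul_sum]
  have h2 := sum2_le q hq l (T * q + 2) K (fun k hk => div_range q hq T l k (hK k hk).2) w w hw0 hw0
  have h3 := sum_inv (T * q + 2)
  have h4 := sum_inv q
  have hl0 : 0 ≤ Real.log ((T * q + 2 : ℕ) : ℝ) := Real.log_natCast_nonneg _
  have h7 : (2 * ∑ i ∈ Finset.range (T * q + 2), w i) * (2 * ∑ i ∈ Finset.range q, w i)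
      ≤ (2 * (1 + Real.log ((T * q + 2 : ℕ) : ℝ))) * (2 * (1 + Real.log q)) := by
    apply mul_le_mul
    · simp only [hw]; linarith
    · simp only [hw]; linarith
    · exact mul_nonneg (by norm_num) (Finset.sum_nonneg (fun _ _ => hw0 _))
    · positivity
  calc 16 * (q : ℝ) ^ 2 * ∑ k ∈ K, w (nd (k / q) (l / q)) * w (nd (k % q) (l % q))
      ≤ 16 * (q : ℝ) ^ 2 * ((2 * (1 + Real.log ((T * q + 2 : ℕ) : ℝ))) * (2 * (1 + Real.log q))) :=
        mul_le_mul_of_nonneg_left (h2.trans h7) (by positivity)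
    _ = _ := by ring

lemma card_near (q : ℕ) (hq : 0 < q) (T l : ℕ) (hT : 1 ≤ T) (K : Finset ℕ)
    (hK : ∀ k ∈ K, nd k l ≤ T * q ^ 2) : (K.card : ℝ) ≤ 3 * T * (q : ℝ) ^ 2 := by
  have h1 : K ⊆ Finset.Icc (l - T * q ^ 2) (l + T * q ^ 2) := by
    intro k hk
    have := hK k hk
    rw [Finset.mem_Icc]
    unfold nd at this; omega
  have h2 := Finset.card_le_card h1
  rw [Nat.card_Icc] at h2
  have h3 : 1 ≤ T * q ^ 2 := Nat.one_le_iff_ne_zero.mpr (by positivity)
  have h4 : K.card ≤ 3 * (T * q ^ 2) := by omega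
  calc (K.card : ℝ) ≤ ((3 * (T * q ^ 2) : ℕ) : ℝ) := by exact_mod_cast h4
    _ = _ := by push_cast; ring

lemma Nc_pos (rho : ℝ) (q l : ℕ) : 0 < Nc rho q l := Real.exp_pos _

lemma DD_pos (q : ℕ) (hq : 0 < q) (l k : ℕ) (h : k ≠ l) : 0 < DD q l k := by
  have hq' : (0 : ℝ) < q := by exact_mod_cast hq
  exact lt_of_lt_of_le (by positivity) (DD_ge q hq l k h)

lemma An_pos (q l : ℕ) : 0 < ‖Ac q l‖ := by rw [Ac_norm]; exact Real.exp_pos _

lemma inv_min_le {D : ℝ} (hD : 0 < D) : 1 / min 1 D ≤ 1 + 1 / D := by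
  rcases le_total 1 D with h | h
  · rw [min_eq_left h]; have : 0 < 1 / D := by positivity
    linarith
  · rw [min_eq_right h]; linarith

lemma inv_min_sq_le {D : ℝ} (hD : 0 < D) : 1 / (min 1 D) ^ 2 ≤ 1 + 1 / D ^ 2 := by
  rcases le_total 1 D with h | h
  · rw [min_eq_left h]; have : 0 < 1 / D ^ 2 := by positivity
    linarith
  · rw [min_eq_right h]; linarith

lemma Nc_ratio (rho : ℝ) (q l k : ℕ) :
    Nc rho q k = Nc rho q l * Real.exp (rho * ((k : ℝ) - l) / (q : ℝ) ^ 2) := by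
  unfold Nc; rw [← Real.exp_add]; congr 1; ring

lemma nd_of_far {T q l k : ℕ} (h : l + T * q ^ 2 < k) (hT : 1 ≤ T) (hq : 0 < q) : 1 ≤ DD q l k := by
  have hq' : (0 : ℝ) < q := by exact_mod_cast hq
  unfold DD
  apply le_max_of_le_left
  rw [le_div_iff₀ (by positivity), one_mul, abs_sub_comm, ← nd_cast]
  have h1 : q ^ 2 ≤ T * q ^ 2 := Nat.le_mul_of_pos_left _ hT
  have : q ^ 2 ≤ nd k l := by unfold nd; omega
  exact_mod_cast this

lemma nd_of_far' {q l k : ℕ} (h : k + q ^ 2 < l) (hq : 0 < q) : 1 ≤ DD q l k := by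
  have hq' : (0 : ℝ) < q := by exact_mod_cast hq
  unfold DD
  apply le_max_of_le_left
  rw [le_div_iff₀ (by positivity), one_mul, ← nd_cast]
  have : q ^ 2 ≤ nd l k := by unfold nd; omega
  exact_mod_cast this

/-- first order sums over all blocks which are not much smaller (`l ≤ k + T q^2`). -/
theorem near_sum (T : ℕ) (hT : 1 ≤ T) : ∃ C : ℝ, 0 < C ∧ ∀ rho : ℝ, 0 < rho → rho ≤ 1 / 4 →
    ∀ q : ℕ, 0 < q → ∀ l : ℕ,
    Summable (fun k : ℕ => if l ≤ k + T * q ^ 2 ∧ k ≠ l then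
      Nc rho q k * ‖Ac q l‖ / ‖Ac q l - Ac q k‖ else 0) ∧
    ∑' k : ℕ, (if l ≤ k + T * q ^ 2 ∧ k ≠ l then
      Nc rho q k * ‖Ac q l‖ / ‖Ac q l - Ac q k‖ else 0) ≤ C * (q : ℝ) ^ 2 * Nc rho q l := by
  have hT' : (1 : ℝ) ≤ T := by exact_mod_cast hT
  set C : ℝ := 2 * Real.exp T * (3 * T + 64 * Real.sqrt (T + 2)) + 6 with hC
  refine ⟨C, by positivity, ?_⟩
  intro rho hr0 hr1 q hq l
  have hq' : (0 : ℝ) < q := by exact_mod_cast hq
  have hq1 : (1 : ℝ) ≤ q := by exact_mod_cast hq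
  set f : ℕ → ℝ := fun k : ℕ => if l ≤ k + T * q ^ 2 ∧ k ≠ l then
      Nc rho q k * ‖Ac q l‖ / ‖Ac q l - Ac q k‖ else 0 with hf
  have hN := Nc_pos rho q l
  have hf0 : ∀ k, 0 ≤ f k := by
    intro k
    simp only [hf]
    split_ifs
    · have := (Nc_pos rho q k).le
      positivity
    · exact le_rfl
  -- near terms
  have hnear : ∀ k, k ≠ l → nd k l ≤ T * q ^ 2 →
      f k ≤ 2 * Real.exp T * Nc rho q l * (1 + 1 / DD q l k) := by
    intro k hkl hk
    have hDpos := DD_pos q hq l k hkl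
    have h1 : f k ≤ Nc rho q k * ‖Ac q l‖ / ‖Ac q l - Ac q k‖ := by
      simp only [hf]
      split_ifs
      · exact le_rfl
      · have := (Nc_pos rho q k).le
        positivity
    refine h1.trans ?_
    have h2 : Nc rho q k ≤ Real.exp T * Nc rho q l := by
      rw [Nc_ratio rho q l k, mul_comm]
      apply mul_le_mul_of_nonneg_right _ hN.le
      apply Real.exp_le_exp.mpr
      have h3 : (k : ℝ) - l ≤ T * (q : ℝ) ^ 2 := by
        have h4 : ((nd k l : ℕ) : ℝ) ≤ ((T * q ^ 2 : ℕ) : ℝ) := by exact_mod_cast hk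
        rw [nd_cast] at h4
        push_cast at h4
        exact (le_abs_self _).trans h4
      rw [div_le_iff₀ (by positivity)]
      have h5 : (0 : ℝ) ≤ T * (q : ℝ) ^ 2 := by positivity
      nlinarith
    have h3 := Ac_dist q hq l k
    change (1 / 2) * max ‖Ac q l‖ ‖Ac q k‖ * min 1 (DD q l k) ≤ _ at h3
    have hmin : 0 < min 1 (DD q l k) := lt_min one_pos hDpos
    have h4 : (1 / 2) * ‖Ac q l‖ * min 1 (DD q l k) ≤ ‖Ac q l - Ac q k‖ := by
      refine le_trans ?_ h3
      apply mul_le_mul_of_nonneg_right _ hmin.le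
      have := le_max_left ‖Ac q l‖ ‖Ac q k‖
      linarith
    have hA := An_pos q l
    have h5 : ‖Ac q l‖ / ‖Ac q l - Ac q k‖ ≤ 2 * (1 / min 1 (DD q l k)) := by
      calc ‖Ac q l‖ / ‖Ac q l - Ac q k‖ ≤ ‖Ac q l‖ / ((1 / 2) * ‖Ac q l‖ * min 1 (DD q l k)) :=
            div_le_div_of_nonneg_left hA.le (by positivity) h4
        _ = 2 * (1 / min 1 (DD q l k)) := by field_simp
    have h6 := inv_min_le hDpos
    calc Nc rho q k * ‖Ac q l‖ / ‖Ac q l - Ac q k‖
        = Nc rho q k * (‖Ac q l‖ / ‖Ac q l - Ac q k‖) := by ring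
      _ ≤ (Real.exp T * Nc rho q l) * (2 * (1 + 1 / DD q l k)) := by
          apply mul_le_mul h2 _ (by positivity) (by positivity)
          linarith
      _ = _ := by ring
  -- far terms
  have hfar : ∀ k, l + T * q ^ 2 < k →
      f k ≤ 2 * Nc rho q l * Real.exp (-((3 / 4) * ((k : ℝ) - l) / (q : ℝ) ^ 2)) := by
    intro k hk
    have hD1 := nd_of_far hk hT hq
    have h1 : f k ≤ Nc rho q k * ‖Ac q l‖ / ‖Ac q l - Ac q k‖ := by
      simp only [hf]
      split_ifs
      · exact le_rfl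
      · have := (Nc_pos rho q k).le
        positivity
    refine h1.trans ?_
    have h3 := Ac_dist q hq l k
    change (1 / 2) * max ‖Ac q l‖ ‖Ac q k‖ * min 1 (DD q l k) ≤ _ at h3
    rw [min_eq_left hD1, mul_one] at h3
    have h4 : (1 / 2) * ‖Ac q k‖ ≤ ‖Ac q l - Ac q k‖ := by
      refine le_trans ?_ h3
      have := le_max_right ‖Ac q l‖ ‖Ac q k‖
      linarith
    have hA := An_pos q k
    have hNk := Nc_pos rho q k
    calc Nc rho q k * ‖Ac q l‖ / ‖Ac q l - Ac q k‖
        ≤ Nc rho q k * ‖Ac q l‖ / ((1 / 2) * ‖Ac q k‖) :=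
          div_le_div_of_nonneg_left (by positivity) (by positivity) h4
      _ = 2 * (Nc rho q k * (‖Ac q l‖ / ‖Ac q k‖)) := by field_simp
      _ = 2 * Nc rho q l * Real.exp ((rho - 1) * ((k : ℝ) - l) / (q : ℝ) ^ 2) := by
          rw [Nc_ratio rho q l k, Ac_norm, Ac_norm, ← Real.exp_sub, mul_assoc (Nc rho q l),
            ← Real.exp_add, mul_assoc 2]
          congr 3; ring
      _ ≤ _ := by
          apply mul_le_mul_of_nonneg_left _ (by positivity)
          apply Real.exp_le_exp.mpr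
          rw [← neg_div]
          apply div_le_div_of_nonneg_right _ (by positivity)
          have : (l : ℝ) < k := by
            have : l < k := by omega
            exact_mod_cast this
          nlinarith
  have hfin : ∀ u : Finset ℕ, ∑ k ∈ u, f k ≤ C * (q : ℝ) ^ 2 * Nc rho q l := by
    intro u
    set un := u.filter (fun k => k ≠ l ∧ nd k l ≤ T * q ^ 2) with hun
    set uf := u.filter (fun k => l + T * q ^ 2 < k) with huf
    have h1 : ∑ k ∈ u, f k ≤ ∑ k ∈ un, f k + ∑ k ∈ uf, f k := by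
      have hdis : Disjoint un uf := by
        rw [Finset.disjoint_left]
        intro k hk1 hk2
        rw [hun, Finset.mem_filter] at hk1
        rw [huf, Finset.mem_filter] at hk2
        have := hk1.2.2
        have := hk2.2
        simp only [nd] at *; omega
      rw [← Finset.sum_union hdis]
      have hsub : un ∪ uf ⊆ u := Finset.union_subset (Finset.filter_subset _ _) (Finset.filter_subset _ _)
      rw [← Finset.sum_subset hsub]
      intro k hk1 hk2
      simp only [hf]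
      rw [if_neg]
      rintro ⟨h3, h4⟩
      apply hk2
      rw [Finset.mem_union, hun, huf, Finset.mem_filter, Finset.mem_filter]
      by_cases h5 : l + T * q ^ 2 < k
      · right; exact ⟨hk1, h5⟩
      · left; refine ⟨hk1, h4, ?_⟩
        unfold nd; omega
    have h2 : ∑ k ∈ un, f k ≤ 2 * Real.exp T * Nc rho q l * (3 * T * (q : ℝ) ^ 2
        + 64 * Real.sqrt (T + 2) * (q : ℝ) ^ 2) := by
      have h3 : ∑ k ∈ un, f k ≤ ∑ k ∈ un, 2 * Real.exp T * Nc rho q l * (1 + 1 / DD q l k) := by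
        apply Finset.sum_le_sum
        intro k hk
        rw [hun, Finset.mem_filter] at hk
        exact hnear k hk.2.1 hk.2.2
      refine h3.trans ?_
      rw [← Finset.mul_sum]
      apply mul_le_mul_of_nonneg_left _ (by positivity)
      rw [Finset.sum_add_distrib]
      apply add_le_add
      · rw [Finset.sum_const, nsmul_eq_mul, mul_one]
        apply card_near q hq T l hT
        intro k hk
        rw [hun, Finset.mem_filter] at hk
        exact hk.2.2
      · apply sum_invD q hq T l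
        intro k hk
        rw [hun, Finset.mem_filter] at hk
        exact hk.2
    have h3 : ∑ k ∈ uf, f k ≤ 2 * Nc rho q l * (2 * (q : ℝ) ^ 2 / (3 / 4)) := by
      have h4 : ∑ k ∈ uf, f k
          ≤ ∑ k ∈ uf, 2 * Nc rho q l * Real.exp (-((3 / 4) * ((k : ℝ) - l) / (q : ℝ) ^ 2)) := by
        apply Finset.sum_le_sum
        intro k hk
        rw [huf, Finset.mem_filter] at hk
        exact hfar k hk.2
      refine h4.trans ?_
      rw [← Finset.mul_sum]
      apply mul_le_mul_of_nonneg_left _ (by positivity)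
      apply geo_sum_gt q hq (3 / 4) (by norm_num) (by norm_num) l
      intro k hk
      rw [huf, Finset.mem_filter] at hk
      omega
    have h4 : 2 * Nc rho q l * (2 * (q : ℝ) ^ 2 / (3 / 4)) ≤ 6 * (q : ℝ) ^ 2 * Nc rho q l := by
      have : 0 < (q : ℝ) ^ 2 * Nc rho q l := by positivity
      have e : 2 * Nc rho q l * (2 * (q : ℝ) ^ 2 / (3 / 4)) = (16 / 3) * ((q : ℝ) ^ 2 * Nc rho q l) := by
        ring
      rw [e]; nlinarith
    calc ∑ k ∈ u, f k ≤ _ := h1
      _ ≤ 2 * Real.exp T * Nc rho q l * (3 * T * (q : ℝ) ^ 2 + 64 * Real.sqrt (T + 2) * (q : ℝ) ^ 2)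
          + 6 * (q : ℝ) ^ 2 * Nc rho q l := add_le_add h2 (h3.trans h4)
      _ = C * (q : ℝ) ^ 2 * Nc rho q l := by rw [hC]; ring
  refine ⟨summable_of_sum_le hf0 hfin, ?_⟩
  exact Real.tsum_le_of_sum_le hf0 hfin

lemma log_bound (q : ℕ) (hq : 0 < q) :
    (1 + Real.log ((1 * q + 2 : ℕ) : ℝ)) * (1 + Real.log q) ≤ 49 * Real.sqrt q := by
  have hq' : (0 : ℝ) < q := by exact_mod_cast hq
  have hq1 : (1 : ℝ) ≤ q := by exact_mod_cast hq
  set v : ℝ := Real.sqrt (Real.sqrt q) with hv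
  have hs1 : 1 ≤ Real.sqrt q := Real.one_le_sqrt.mpr hq1
  have hv1 : 1 ≤ v := Real.one_le_sqrt.mpr hs1
  have hv2 : v ^ 2 = Real.sqrt q := Real.sq_sqrt (Real.sqrt_nonneg _)
  have hv4 : v ^ 4 = q := by
    have : v ^ 4 = (v ^ 2) ^ 2 := by ring
    rw [this, hv2, Real.sq_sqrt hq'.le]
  have hlog : Real.log q ≤ 4 * (v - 1) := by
    rw [← hv4, Real.log_pow]
    have := Real.log_le_sub_one_of_pos (show 0 < v by linarith)
    push_cast; linarith
  have hlog0 : 0 ≤ Real.log q := Real.log_nonneg hq1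
  have hlog3 : Real.log ((1 * q + 2 : ℕ) : ℝ) ≤ 2 + Real.log q := by
    have h1 : Real.log ((1 * q + 2 : ℕ) : ℝ) ≤ Real.log (3 * q) := by
      apply Real.log_le_log
      · positivity
      · push_cast; linarith
    rw [Real.log_mul (by norm_num) hq'.ne'] at h1
    have h2 : Real.log 3 ≤ 2 := by
      have := Real.log_le_sub_one_of_pos (show (0 : ℝ) < 3 by norm_num)
      linarith
    linarith
  have hlog30 : 0 ≤ Real.log ((1 * q + 2 : ℕ) : ℝ) := Real.log_natCast_nonneg _
  have ha : 1 + Real.log ((1 * q + 2 : ℕ) : ℝ) ≤ 7 * v := by linarith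
  have hb : 1 + Real.log q ≤ 7 * v := by linarith
  calc (1 + Real.log ((1 * q + 2 : ℕ) : ℝ)) * (1 + Real.log q) ≤ (7 * v) * (7 * v) :=
        mul_le_mul ha hb (by linarith) (by linarith)
    _ = 49 * v ^ 2 := by ring
    _ = 49 * Real.sqrt q := by rw [hv2]

/-- second order sums -/
theorem sq_sum : ∃ C : ℝ, 0 < C ∧ ∀ rho : ℝ, 0 < rho → rho ≤ 1 / 4 →
    ∀ q : ℕ, 0 < q → ∀ l : ℕ,
    Summable (fun k : ℕ => if k ≠ l then
      Nc rho q k * ‖Ac q l‖ * (‖Ac q l‖ + ‖Ac q k‖) / ‖Ac q l - Ac q k‖ ^ 2 else 0) ∧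
    ∑' k : ℕ, (if k ≠ l then
      Nc rho q k * ‖Ac q l‖ * (‖Ac q l‖ + ‖Ac q k‖) / ‖Ac q l - Ac q k‖ ^ 2 else 0)
      ≤ C / rho * (q : ℝ) ^ 2 * Real.sqrt q * Nc rho q l := by
  set C : ℝ := 8 * Real.exp 1 * (3 + 64 * 49) + 16 + 22 with hC
  refine ⟨C, by positivity, ?_⟩
  intro rho hr0 hr1 q hq l
  have hq' : (0 : ℝ) < q := by exact_mod_cast hq
  have hq1 : (1 : ℝ) ≤ q := by exact_mod_cast hq
  have hs1 : 1 ≤ Real.sqrt q := Real.one_le_sqrt.mpr hq1
  set g : ℕ → ℝ := fun k => Nc rho q k * ‖Ac q l‖ * (‖Ac q l‖ + ‖Ac q k‖) / ‖Ac q l - Ac q k‖ ^ 2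
    with hg
  set f : ℕ → ℝ := fun k : ℕ => if k ≠ l then
      Nc rho q k * ‖Ac q l‖ * (‖Ac q l‖ + ‖Ac q k‖) / ‖Ac q l - Ac q k‖ ^ 2 else 0 with hf
  have hN := Nc_pos rho q l
  have hg0 : ∀ k, 0 ≤ g k := by
    intro k
    simp only [hg]
    have := (Nc_pos rho q k).le
    positivity
  have hfg : ∀ k, f k ≤ g k := by
    intro k
    simp only [hf]
    split_ifs
    · exact le_rfl
    · exact hg0 k
  have hf0 : ∀ k, 0 ≤ f k := by
    intro k
    simp only [hf]
    split_ifs
    · exact hg0 k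
    · exact le_rfl
  have hA := An_pos q l
  -- near terms
  have hnear : ∀ k, k ≠ l → nd k l ≤ 1 * q ^ 2 →
      g k ≤ 8 * Real.exp 1 * Nc rho q l * (1 + 1 / DD q l k ^ 2) := by
    intro k hkl hk
    have hDpos := DD_pos q hq l k hkl
    have hAk := An_pos q k
    have h2 : Nc rho q k ≤ Real.exp 1 * Nc rho q l := by
      rw [Nc_ratio rho q l k, mul_comm]
      apply mul_le_mul_of_nonneg_right _ hN.le
      apply Real.exp_le_exp.mpr
      have h3 : (k : ℝ) - l ≤ (q : ℝ) ^ 2 := by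
        have h4 : ((nd k l : ℕ) : ℝ) ≤ ((1 * q ^ 2 : ℕ) : ℝ) := by exact_mod_cast hk
        rw [nd_cast] at h4
        push_cast at h4
        rw [one_mul] at h4
        exact (le_abs_self _).trans h4
      rw [div_le_iff₀ (by positivity)]
      have h5 : (0 : ℝ) < (q : ℝ) ^ 2 := by positivity
      nlinarith
    have h3 := Ac_dist q hq l k
    change (1 / 2) * max ‖Ac q l‖ ‖Ac q k‖ * min 1 (DD q l k) ≤ _ at h3
    set m := max ‖Ac q l‖ ‖Ac q k‖ with hm
    have hml : ‖Ac q l‖ ≤ m := le_max_left _ _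
    have hmk : ‖Ac q k‖ ≤ m := le_max_right _ _
    have hm0 : 0 < m := lt_of_lt_of_le hA hml
    have hmin : 0 < min 1 (DD q l k) := lt_min one_pos hDpos
    have h4 : ((1 / 2) * m * min 1 (DD q l k)) ^ 2 ≤ ‖Ac q l - Ac q k‖ ^ 2 :=
      pow_le_pow_left₀ (by positivity) h3 2
    have h5 : ‖Ac q l‖ * (‖Ac q l‖ + ‖Ac q k‖) / ‖Ac q l - Ac q k‖ ^ 2
        ≤ 8 * (1 / min 1 (DD q l k) ^ 2) := by
      calc ‖Ac q l‖ * (‖Ac q l‖ + ‖Ac q k‖) / ‖Ac q l - Ac q k‖ ^ 2
          ≤ (m * (m + m)) / ((1 / 2) * m * min 1 (DD q l k)) ^ 2 := by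
            apply div_le_div₀ (by positivity) _ (by positivity) h4
            apply mul_le_mul hml (by linarith) (by positivity) (by positivity)
        _ = 8 * (1 / min 1 (DD q l k) ^ 2) := by field_simp; norm_num
    have h6 := inv_min_sq_le hDpos
    calc g k = Nc rho q k * (‖Ac q l‖ * (‖Ac q l‖ + ‖Ac q k‖) / ‖Ac q l - Ac q k‖ ^ 2) := by
          simp only [hg]; ring
      _ ≤ (Real.exp 1 * Nc rho q l) * (8 * (1 + 1 / DD q l k ^ 2)) := by
          apply mul_le_mul h2 _ (by positivity) (by positivity)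
          linarith
      _ = _ := by ring
  -- far terms, k large
  have hfar : ∀ k, l + 1 * q ^ 2 < k →
      g k ≤ 8 * Nc rho q l * Real.exp (-((3 / 4) * ((k : ℝ) - l) / (q : ℝ) ^ 2)) := by
    intro k hk
    have hD1 := nd_of_far hk le_rfl hq
    have h3 := Ac_dist q hq l k
    change (1 / 2) * max ‖Ac q l‖ ‖Ac q k‖ * min 1 (DD q l k) ≤ _ at h3
    rw [min_eq_left hD1, mul_one] at h3
    have hAk := An_pos q k
    have hNk := Nc_pos rho q k
    have hlk : (l : ℝ) < k := by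
      have : l < k := by omega
      exact_mod_cast this
    have hle : ‖Ac q l‖ ≤ ‖Ac q k‖ := by
      rw [Ac_norm, Ac_norm]; apply Real.exp_le_exp.mpr
      apply div_le_div_of_nonneg_right hlk.le (by positivity)
    have h4 : ((1 / 2) * ‖Ac q k‖) ^ 2 ≤ ‖Ac q l - Ac q k‖ ^ 2 := by
      apply pow_le_pow_left₀ (by positivity)
      refine le_trans ?_ h3
      have := le_max_right ‖Ac q l‖ ‖Ac q k‖
      linarith
    calc g k ≤ Nc rho q k * ‖Ac q l‖ * (‖Ac q k‖ + ‖Ac q k‖) / ((1 / 2) * ‖Ac q k‖) ^ 2 := by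
          simp only [hg]
          apply div_le_div₀ (by positivity) _ (by positivity) h4
          apply mul_le_mul_of_nonneg_left (by linarith) (by positivity)
      _ = 8 * (Nc rho q k * (‖Ac q l‖ / ‖Ac q k‖)) := by field_simp; norm_num
      _ = 8 * Nc rho q l * Real.exp ((rho - 1) * ((k : ℝ) - l) / (q : ℝ) ^ 2) := by
          rw [Nc_ratio rho q l k, Ac_norm, Ac_norm, ← Real.exp_sub, mul_assoc (Nc rho q l),
            ← Real.exp_add, mul_assoc 8]
          congr 3; ring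
      _ ≤ _ := by
          apply mul_le_mul_of_nonneg_left _ (by positivity)
          apply Real.exp_le_exp.mpr
          rw [← neg_div]
          apply div_le_div_of_nonneg_right _ (by positivity)
          nlinarith
  -- far terms, k small
  have hsmall : ∀ k, k + q ^ 2 < l →
      g k ≤ 8 * Nc rho q l * Real.exp (-(rho * ((l : ℝ) - k) / (q : ℝ) ^ 2)) := by
    intro k hk
    have hD1 := nd_of_far' hk hq
    have h3 := Ac_dist q hq l k
    change (1 / 2) * max ‖Ac q l‖ ‖Ac q k‖ * min 1 (DD q l k) ≤ _ at h3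
    rw [min_eq_left hD1, mul_one] at h3
    have hAk := An_pos q k
    have hNk := Nc_pos rho q k
    have hlk : (k : ℝ) < l := by
      have : k < l := by omega
      exact_mod_cast this
    have hle : ‖Ac q k‖ ≤ ‖Ac q l‖ := by
      rw [Ac_norm, Ac_norm]; apply Real.exp_le_exp.mpr
      apply div_le_div_of_nonneg_right hlk.le (by positivity)
    have h4 : ((1 / 2) * ‖Ac q l‖) ^ 2 ≤ ‖Ac q l - Ac q k‖ ^ 2 := by
      apply pow_le_pow_left₀ (by positivity)
      refine le_trans ?_ h3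
      have := le_max_left ‖Ac q l‖ ‖Ac q k‖
      linarith
    calc g k ≤ Nc rho q k * ‖Ac q l‖ * (‖Ac q l‖ + ‖Ac q l‖) / ((1 / 2) * ‖Ac q l‖) ^ 2 := by
          simp only [hg]
          apply div_le_div₀ (by positivity) _ (by positivity) h4
          apply mul_le_mul_of_nonneg_left (by linarith) (by positivity)
      _ = 8 * Nc rho q k := by field_simp; norm_num
      _ = _ := by
          rw [Nc_ratio rho q l k, mul_assoc]
          congr 3; ring
  have hfin : ∀ u : Finset ℕ, ∑ k ∈ u, f k ≤ C / rho * (q : ℝ) ^ 2 * Real.sqrt q * Nc rho q l := by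
    intro u
    set un := u.filter (fun k => k ≠ l ∧ nd k l ≤ 1 * q ^ 2) with hun
    set uf := u.filter (fun k => l + 1 * q ^ 2 < k) with huf
    set us := u.filter (fun k => k + q ^ 2 < l) with hus
    have h1 : ∑ k ∈ u, f k ≤ ∑ k ∈ un, g k + ∑ k ∈ uf, g k + ∑ k ∈ us, g k := by
      have hp : ∀ k, f k ≤ (if k ≠ l ∧ nd k l ≤ 1 * q ^ 2 then g k else 0)
          + (if l + 1 * q ^ 2 < k then g k else 0) + (if k + q ^ 2 < l then g k else 0) := by
        intro k
        have e1 : 0 ≤ (if k ≠ l ∧ nd k l ≤ 1 * q ^ 2 then g k else 0) := by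
          split_ifs
          · exact hg0 k
          · exact le_rfl
        have e2 : 0 ≤ (if l + 1 * q ^ 2 < k then g k else 0) := by
          split_ifs
          · exact hg0 k
          · exact le_rfl
        have e3 : 0 ≤ (if k + q ^ 2 < l then g k else 0) := by
          split_ifs
          · exact hg0 k
          · exact le_rfl
        by_cases hkl : k ≠ l
        · have hfk := hfg k
          by_cases h2 : nd k l ≤ 1 * q ^ 2
          · rw [if_pos (⟨hkl, h2⟩ : k ≠ l ∧ nd k l ≤ 1 * q ^ 2)]; linarith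
          · rcases Nat.lt_or_gt_of_ne hkl with h3 | h3
            · have h4 : k + q ^ 2 < l := by unfold nd at h2; omega
              rw [if_pos h4]; linarith
            · have h4 : l + 1 * q ^ 2 < k := by unfold nd at h2; omega
              rw [if_pos h4]; linarith
        · have : f k = 0 := by simp only [hf]; rw [if_neg hkl]
          rw [this]; linarith
      refine (Finset.sum_le_sum (fun k _ => hp k)).trans ?_
      rw [Finset.sum_add_distrib, Finset.sum_add_distrib, ← Finset.sum_filter, ← Finset.sum_filter,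
        ← Finset.sum_filter]
    have h2 : ∑ k ∈ un, g k ≤ 8 * Real.exp 1 * Nc rho q l * (3 * (q : ℝ) ^ 2
        + 64 * (q : ℝ) ^ 2 * (49 * Real.sqrt q)) := by
      have h3 : ∑ k ∈ un, g k ≤ ∑ k ∈ un, 8 * Real.exp 1 * Nc rho q l * (1 + 1 / DD q l k ^ 2) := by
        apply Finset.sum_le_sum
        intro k hk
        rw [hun, Finset.mem_filter] at hk
        exact hnear k hk.2.1 hk.2.2
      refine h3.trans ?_
      rw [← Finset.mul_sum]
      apply mul_le_mul_of_nonneg_left _ (by positivity)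
      rw [Finset.sum_add_distrib]
      apply add_le_add
      · rw [Finset.sum_const, nsmul_eq_mul, mul_one]
        have := card_near q hq 1 l le_rfl un (by
          intro k hk
          rw [hun, Finset.mem_filter] at hk
          exact hk.2.2)
        rw [Nat.cast_one, mul_one] at this
        exact this
      · have h4 := sum_invD2 q hq 1 l un (by
          intro k hk
          rw [hun, Finset.mem_filter] at hk
          exact hk.2)
        refine h4.trans ?_
        apply mul_le_mul_of_nonneg_left (log_bound q hq) (by positivity)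
    have h3 : ∑ k ∈ uf, g k ≤ 8 * Nc rho q l * (2 * (q : ℝ) ^ 2 / (3 / 4)) := by
      have h4 : ∑ k ∈ uf, g k
          ≤ ∑ k ∈ uf, 8 * Nc rho q l * Real.exp (-((3 / 4) * ((k : ℝ) - l) / (q : ℝ) ^ 2)) := by
        apply Finset.sum_le_sum
        intro k hk
        rw [huf, Finset.mem_filter] at hk
        exact hfar k hk.2
      refine h4.trans ?_
      rw [← Finset.mul_sum]
      apply mul_le_mul_of_nonneg_left _ (by positivity)
      apply geo_sum_gt q hq (3 / 4) (by norm_num) (by norm_num) l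
      intro k hk
      rw [huf, Finset.mem_filter] at hk
      omega
    have h4 : ∑ k ∈ us, g k ≤ 8 * Nc rho q l * (2 * (q : ℝ) ^ 2 / rho) := by
      have h4 : ∑ k ∈ us, g k
          ≤ ∑ k ∈ us, 8 * Nc rho q l * Real.exp (-(rho * ((l : ℝ) - k) / (q : ℝ) ^ 2)) := by
        apply Finset.sum_le_sum
        intro k hk
        rw [hus, Finset.mem_filter] at hk
        exact hsmall k hk.2
      refine h4.trans ?_
      rw [← Finset.mul_sum]
      apply mul_le_mul_of_nonneg_left _ (by positivity)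
      apply geo_sum_lt q hq rho hr0 (by linarith) l
      intro k hk
      rw [hus, Finset.mem_filter] at hk
      omega
    set Q := (q : ℝ) ^ 2 * Real.sqrt q * Nc rho q l with hQ
    have hQ0 : 0 < Q := by positivity
    have hqQ : (q : ℝ) ^ 2 * Nc rho q l ≤ Q := by
      rw [hQ]
      have : 0 < (q : ℝ) ^ 2 * Nc rho q l := by positivity
      nlinarith
    have hrinv : 1 ≤ 1 / rho := by rw [le_div_iff₀ hr0]; linarith
    have hb2 : 8 * Real.exp 1 * Nc rho q l * (3 * (q : ℝ) ^ 2 + 64 * (q : ℝ) ^ 2 * (49 * Real.sqrt q))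
        ≤ 8 * Real.exp 1 * (3 + 64 * 49) * Q := by
      have e : 8 * Real.exp 1 * Nc rho q l * (3 * (q : ℝ) ^ 2 + 64 * (q : ℝ) ^ 2 * (49 * Real.sqrt q))
          = 8 * Real.exp 1 * (3 * ((q : ℝ) ^ 2 * Nc rho q l) + 64 * 49 * Q) := by rw [hQ]; ring
      rw [e]
      have he : 0 < 8 * Real.exp 1 := by positivity
      have : 3 * ((q : ℝ) ^ 2 * Nc rho q l) + 64 * 49 * Q ≤ (3 + 64 * 49) * Q := by linarith
      calc 8 * Real.exp 1 * (3 * ((q : ℝ) ^ 2 * Nc rho q l) + 64 * 49 * Q)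
          ≤ 8 * Real.exp 1 * ((3 + 64 * 49) * Q) := mul_le_mul_of_nonneg_left this he.le
        _ = _ := by ring
    have hb3 : 8 * Nc rho q l * (2 * (q : ℝ) ^ 2 / (3 / 4)) ≤ 22 * Q := by
      have e : 8 * Nc rho q l * (2 * (q : ℝ) ^ 2 / (3 / 4)) = (64 / 3) * ((q : ℝ) ^ 2 * Nc rho q l) := by
        ring
      rw [e]; linarith
    have hb4 : 8 * Nc rho q l * (2 * (q : ℝ) ^ 2 / rho) ≤ 16 * Q * (1 / rho) := by
      have e : 8 * Nc rho q l * (2 * (q : ℝ) ^ 2 / rho) = 16 * ((q : ℝ) ^ 2 * Nc rho q l) * (1 / rho) := by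
        ring
      rw [e]
      apply mul_le_mul_of_nonneg_right _ (by positivity)
      linarith
    have hfinal : C / rho * (q : ℝ) ^ 2 * Real.sqrt q * Nc rho q l = C * Q * (1 / rho) := by
      rw [hQ]; ring
    rw [hfinal, hC]
    have hE : 0 ≤ (8 * Real.exp 1 * (3 + 64 * 49) + 22) * Q := by positivity
    have hE2 : (8 * Real.exp 1 * (3 + 64 * 49) + 22) * Q
        ≤ (8 * Real.exp 1 * (3 + 64 * 49) + 22) * Q * (1 / rho) := by
      nlinarith
    calc ∑ k ∈ u, f k ≤ _ := h1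
      _ ≤ 8 * Real.exp 1 * (3 + 64 * 49) * Q + 22 * Q + 16 * Q * (1 / rho) := by linarith
      _ = (8 * Real.exp 1 * (3 + 64 * 49) + 22) * Q + 16 * Q * (1 / rho) := by ring
      _ ≤ (8 * Real.exp 1 * (3 + 64 * 49) + 22) * Q * (1 / rho) + 16 * Q * (1 / rho) := by linarith
      _ = _ := by ring
  refine ⟨summable_of_sum_le hf0 hfin, ?_⟩
  exact Real.tsum_le_of_sum_le hf0 hfin

end

end NevT.J671

namespace NevT

alias Ac_norm := J671.Ac_norm
alias Ac_dist := J671.Ac_dist
alias Ac_sep := J671.Ac_sep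
alias near_sum := J671.near_sum
alias sq_sum := J671.sq_sum

end NevT
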