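import Pool.Agent.Helper551.NevDefs
import Pool.Agent.Helper551.NevJ671

set_option autoImplicit false

open Filter Topology

open scoped BigOperators

namespace NevT.J672

noncomputable section

theorem Nc_pos (rho : ℝ) (q l : ℕ) : 0 < Nc rho q l := Real.exp_pos _

theorem Nc_eq (rho : ℝ) (q l : ℕ) : Nc rho q l = Real.exp (rho / (q : ℝ) ^ 2 * l) := by
  unfold Nc
  congr 1
  ring

/-- TARGET 1: mass of the smaller blocks, upper bound -/
theorem inner_upper (rho : ℝ) (hrho : 0 < rho) (hrho1 : rho ≤ 1 / 4) (q : ℕ) (hq : 0 < q) (l : ℕ) :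
    ∑ k ∈ Finset.range l, Nc rho q k ≤ (q : ℝ) ^ 2 / rho * Nc rho q l := by
  have hq' : (0 : ℝ) < (q : ℝ) ^ 2 := by positivity
  set x : ℝ := rho / (q : ℝ) ^ 2 with hx
  have hxpos : 0 < x := by positivity
  have hinv : (q : ℝ) ^ 2 / rho = 1 / x := by
    rw [hx]; field_simp
  rw [hinv]
  induction l with
  | zero => simp [Nc]; positivity
  | succ n ih =>
    rw [Finset.sum_range_succ]
    have h1 : Nc rho q (n + 1) = Nc rho q n * Real.exp x := by
      rw [Nc_eq, Nc_eq, ← Real.exp_add, ← hx]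
      congr 1
      push_cast
      ring
    have h2 : x + 1 ≤ Real.exp x := Real.add_one_le_exp x
    have h3 : 0 < Nc rho q n := Nc_pos _ _ _
    rw [h1]
    have h4 : 1 / x * (Nc rho q n * Real.exp x) ≥ 1 / x * (Nc rho q n * (x + 1)) := by
      gcongr
    have h5 : 1 / x * (Nc rho q n * (x + 1)) = 1 / x * Nc rho q n + Nc rho q n := by
      field_simp
      ring
    linarith

theorem filter_eq (T q l : ℕ) :
    (Finset.range l).filter (fun k => k + T * q ^ 2 < l) = Finset.range (l - T * q ^ 2) := by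
  ext k
  simp only [Finset.mem_filter, Finset.mem_range]
  omega

/-- TARGET 2: mass of the much smaller blocks, lower bound -/
theorem inner_lower (T : ℕ) : ∃ C : ℝ, 0 < C ∧ ∀ rho : ℝ, 0 < rho → rho ≤ 1 / 4 →
    ∀ q : ℕ, 0 < q → ∀ l : ℕ,
    (1 - C * rho - C * Real.exp (-(rho * l / (q : ℝ) ^ 2))) * ((q : ℝ) ^ 2 / rho * Nc rho q l) ≤
      ∑ k ∈ (Finset.range l).filter (fun k => k + T * q ^ 2 < l), Nc rho q k := by
  refine ⟨1 + T + Real.exp (T / 4), by positivity, ?_⟩
  intro rho hrho hrho1 q hq l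
  set C : ℝ := 1 + T + Real.exp (T / 4) with hC
  have hq' : (0 : ℝ) < (q : ℝ) ^ 2 := by positivity
  have hq1 : (1 : ℝ) ≤ (q : ℝ) ^ 2 := by
    have : (1 : ℝ) ≤ q := by exact_mod_cast hq
    nlinarith
  rw [filter_eq]
  have hN : 0 < Nc rho q l := Nc_pos _ _ _
  have hCpos : 0 < C := by positivity
  by_cases hl : l ≤ T * q ^ 2
  · have h0 : l - T * q ^ 2 = 0 := by omega
    rw [h0, Finset.range_zero, Finset.sum_empty]
    have h1 : rho * l / (q : ℝ) ^ 2 ≤ T / 4 := by
      rw [div_le_iff₀ hq']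
      have : (l : ℝ) ≤ T * (q : ℝ) ^ 2 := by exact_mod_cast hl
      have hT0 : (0 : ℝ) ≤ T * (q : ℝ) ^ 2 := by positivity
      nlinarith
    have h2 : Real.exp (-(T / 4 : ℝ)) ≤ Real.exp (-(rho * l / (q : ℝ) ^ 2)) :=
      Real.exp_le_exp.mpr (by linarith)
    have h3 : 1 ≤ C * Real.exp (-(T / 4 : ℝ)) := by
      have h4 : Real.exp (T / 4 : ℝ) * Real.exp (-(T / 4 : ℝ)) = 1 := by
        rw [← Real.exp_add]; simp
      have h5 : 0 < Real.exp (-(T / 4 : ℝ)) := Real.exp_pos _
      rw [hC]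
      have hT0 : (0 : ℝ) ≤ T := by positivity
      nlinarith [mul_nonneg hT0 h5.le]
    have h6 : 1 - C * rho - C * Real.exp (-(rho * l / (q : ℝ) ^ 2)) ≤ 0 := by
      have h7 : C * Real.exp (-(T / 4 : ℝ)) ≤ C * Real.exp (-(rho * l / (q : ℝ) ^ 2)) := by
        gcongr
      nlinarith
    have h8 : 0 ≤ (q : ℝ) ^ 2 / rho * Nc rho q l := by positivity
    exact mul_nonpos_of_nonpos_of_nonneg h6 h8
  · push Not at hl
    set x : ℝ := rho / (q : ℝ) ^ 2 with hx
    have hxpos : 0 < x := by positivity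
    have hxle : x ≤ rho := by
      rw [hx]
      exact div_le_self hrho.le hq1
    have hinv : (q : ℝ) ^ 2 / rho = 1 / x := by
      rw [hx]; field_simp
    -- lower bound of geometric sum
    have key : ∀ n : ℕ, Real.exp (-x) / x * (Real.exp (x * n) - 1) ≤
        ∑ k ∈ Finset.range n, Nc rho q k := by
      intro n
      induction n with
      | zero => simp
      | succ n ih =>
        rw [Finset.sum_range_succ]
        have h1 : Nc rho q n = Real.exp (x * n) := by rw [Nc_eq]
        have h2 : Real.exp (x * ((n + 1 : ℕ) : ℝ)) = Real.exp (x * n) * Real.exp x := by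
          rw [← Real.exp_add]
          congr 1
          push_cast
          ring
        rw [h1, h2]
        have h3 : Real.exp (-x) / x * (Real.exp (x * n) * Real.exp x - 1) =
            Real.exp (-x) / x * (Real.exp (x * n) - 1) +
              (1 - Real.exp (-x)) / x * Real.exp (x * n) := by
          have h4 : Real.exp (-x) * Real.exp x = 1 := by rw [← Real.exp_add]; simp
          field_simp
          linear_combination (Real.exp (x * n)) * h4
        rw [h3]
        have h5 : (1 - Real.exp (-x)) / x ≤ 1 := by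
          rw [div_le_one hxpos]
          have := Real.add_one_le_exp (-x)
          linarith
        have h6 : 0 < Real.exp (x * n) := Real.exp_pos _
        nlinarith
    refine le_trans ?_ (key (l - T * q ^ 2))
    have hcast : ((l - T * q ^ 2 : ℕ) : ℝ) = (l : ℝ) - T * (q : ℝ) ^ 2 := by
      rw [Nat.cast_sub hl.le]; push_cast; ring
    rw [hcast, hinv, Nc_eq, ← hx]
    have h1 : x * ((l : ℝ) - T * (q : ℝ) ^ 2) = x * l - rho * T := by
      rw [hx]; field_simp
    rw [h1]
    have h2 : rho * l / (q : ℝ) ^ 2 = x * l := by rw [hx]; ring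
    rw [h2]
    have h3 : Real.exp (-(x * l)) * Real.exp (x * l) = 1 := by rw [← Real.exp_add]; simp
    have h4 : Real.exp (x * l - rho * T) = Real.exp (x * l) * Real.exp (-(rho * T)) := by
      rw [← Real.exp_add]; congr 1
    rw [h4]
    have h5 : Real.exp (-x) * Real.exp (-(rho * T)) ≥ 1 - rho * (1 + T) := by
      rw [← Real.exp_add]
      have := Real.add_one_le_exp (-x + -(rho * T))
      nlinarith
    have h6 : Real.exp (-x) ≤ 1 := by
      rw [Real.exp_le_one_iff]; linarith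
    have h7 : 0 < Real.exp (x * l) := Real.exp_pos _
    have h8 : 1 + (T : ℝ) ≤ C := by
      rw [hC]; linarith [Real.exp_pos (T / 4 : ℝ)]
    have h9 : (1 : ℝ) ≤ C := by
      have : (0 : ℝ) ≤ T := by positivity
      linarith
    have h10 : (1 - C * rho - C * Real.exp (-(x * l))) * (1 / x * Real.exp (x * l)) =
        1 / x * ((1 - C * rho) * Real.exp (x * l) - C) := by
      have : C * Real.exp (-(x * l)) * (1 / x * Real.exp (x * l)) = 1 / x * C := by
        linear_combination (C / x) * h3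
      linear_combination -this
    rw [h10]
    have h11 : Real.exp (-x) / x * (Real.exp (x * l) * Real.exp (-(rho * T)) - 1) =
        1 / x * (Real.exp (-x) * Real.exp (-(rho * T)) * Real.exp (x * l) - Real.exp (-x)) := by
      ring
    rw [h11]
    apply mul_le_mul_of_nonneg_left _ (by positivity)
    have h12 : (1 - C * rho) * Real.exp (x * l) ≤ (1 - rho * (1 + T)) * Real.exp (x * l) := by
      apply mul_le_mul_of_nonneg_right _ h7.le
      nlinarith
    have h13 : (1 - rho * (1 + T)) * Real.exp (x * l) ≤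
        Real.exp (-x) * Real.exp (-(rho * T)) * Real.exp (x * l) :=
      mul_le_mul_of_nonneg_right h5 h7.le
    linarith

theorem norm_Ac (q l : ℕ) : ‖Ac q l‖ = Real.exp ((l : ℝ) / (q : ℝ) ^ 2) := by
  unfold Ac
  rw [Complex.norm_exp]
  congr 1
  rw [Complex.add_re, Complex.ofReal_re, Complex.re_ofReal_mul, Complex.I_re, mul_zero, add_zero]

theorem Ac_ne (q l : ℕ) : Ac q l ≠ 0 := Complex.exp_ne_zero _

/-- TARGET 3: the main term of the field of the other blocks. -/
theorem main_sum (T : ℕ) (hT : 1 ≤ T) : ∃ C : ℝ, 0 < C ∧ ∀ rho : ℝ, 0 < rho → rho ≤ 1 / 4 →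
    ∀ q : ℕ, 0 < q → ∀ l : ℕ,
    Summable (fun k : ℕ => if k ≠ l then (Nc rho q k : ℂ) / (1 - Ac q k / Ac q l) else 0) ∧
    ‖((rho / ((q : ℝ) ^ 2 * Nc rho q l) : ℝ) : ℂ) *
      (∑' k : ℕ, if k ≠ l then (Nc rho q k : ℂ) / (1 - Ac q k / Ac q l) else 0) - 1‖ ≤
      10 * Real.exp (-(T : ℝ)) + C * rho + C * Real.exp (-(rho * l / (q : ℝ) ^ 2)) := by
  obtain ⟨C1, hC1, hnear⟩ := near_sum T hT
  obtain ⟨C2, hC2, hlow⟩ := inner_lower T
  refine ⟨C1 + C2, by positivity, ?_⟩
  intro rho hrho hrho1 q hq l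
  have hq' : (0 : ℝ) < (q : ℝ) ^ 2 := by positivity
  have hN : 0 < Nc rho q l := Nc_pos _ _ _
  obtain ⟨hs, hb⟩ := hnear rho hrho hrho1 q hq l
  have hl2 := hlow rho hrho hrho1 q hq l
  set F : Finset ℕ := (Finset.range l).filter (fun k => k + T * q ^ 2 < l) with hF
  set g : ℕ → ℂ := fun k => if k ≠ l then (Nc rho q k : ℂ) / (1 - Ac q k / Ac q l) else 0 with hg
  set gn : ℕ → ℂ := fun k => if l ≤ k + T * q ^ 2 ∧ k ≠ l then
      (Nc rho q k : ℂ) / (1 - Ac q k / Ac q l) else 0 with hgn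
  set gf : ℕ → ℂ := fun k => if k ∈ F then
      (Nc rho q k : ℂ) / (1 - Ac q k / Ac q l) else 0 with hgf
  have hsplit : g = fun k => gn k + gf k := by
    funext k
    simp only [hg, hgn, hgf, hF, Finset.mem_filter, Finset.mem_range]
    by_cases h1 : k = l
    · subst h1
      simp
    · by_cases h2 : l ≤ k + T * q ^ 2
      · have h3 : ¬ (k + T * q ^ 2 < l) := by omega
        simp [h1, h2, h3]
      · have h3 : (k + T * q ^ 2 < l) := by omega
        have h4 : k < l := by omega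
        simp [h1, h2, h3, h4]
  have hnorm : ∀ k, ‖gn k‖ = (if l ≤ k + T * q ^ 2 ∧ k ≠ l then
      Nc rho q k * ‖Ac q l‖ / ‖Ac q l - Ac q k‖ else 0) := by
    intro k
    simp only [hgn]
    split_ifs with h
    · have h1 : (1 : ℂ) - Ac q k / Ac q l = (Ac q l - Ac q k) / Ac q l := by
        field_simp [Ac_ne q l]
      rw [h1, div_div_eq_mul_div, norm_div, norm_mul, Complex.norm_real,
        Real.norm_of_nonneg (Nc_pos _ _ _).le]
    · simp
  have hsn : Summable gn := by
    apply Summable.of_norm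
    simp_rw [hnorm]
    exact hs
  have hsf : Summable gf := by
    apply summable_of_ne_finset_zero (s := F)
    intro b hb
    simp [hgf, hb]
  have hsg : Summable g := by
    rw [hsplit]
    exact hsn.add hsf
  refine ⟨hsg, ?_⟩
  have ht : ∑' k, g k = ∑' k, gn k + ∑ k ∈ F, (Nc rho q k : ℂ) / (1 - Ac q k / Ac q l) := by
    rw [hsplit, hsn.tsum_add hsf]
    congr 1
    rw [tsum_eq_sum (s := F)]
    · apply Finset.sum_congr rfl
      intro k hk
      simp [hgf, hk]
    · intro b hb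
      simp [hgf, hb]
  rw [ht]
  set R : ℝ := rho / ((q : ℝ) ^ 2 * Nc rho q l) with hR
  have hRpos : 0 < R := by positivity
  have hnearb : ‖∑' k, gn k‖ ≤ C1 * (q : ℝ) ^ 2 * Nc rho q l := by
    refine le_trans (norm_tsum_le_tsum_norm ?_) ?_
    · simp_rw [hnorm]; exact hs
    · simp_rw [hnorm]; exact hb
  -- far part
  set S : ℝ := ∑ k ∈ F, Nc rho q k with hS
  have hSnn : 0 ≤ S := Finset.sum_nonneg (fun k _ => (Nc_pos _ _ _).le)
  have hSup : S ≤ (q : ℝ) ^ 2 / rho * Nc rho q l := by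
    refine le_trans ?_ (inner_upper rho hrho hrho1 q hq l)
    apply Finset.sum_le_sum_of_subset_of_nonneg (Finset.filter_subset _ _)
    intro k _ _
    exact (Nc_pos _ _ _).le
  have hfar : ‖∑ k ∈ F, (Nc rho q k : ℂ) / (1 - Ac q k / Ac q l) - (S : ℂ)‖ ≤
      2 * Real.exp (-(T : ℝ)) * S := by
    rw [hS]
    push_cast
    rw [← Finset.sum_sub_distrib, Finset.mul_sum]
    refine le_trans (norm_sum_le _ _) ?_
    apply Finset.sum_le_sum
    intro k hk
    have hk2 : k + T * q ^ 2 < l := by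
      rw [hF, Finset.mem_filter] at hk
      exact hk.2
    set t : ℂ := Ac q k / Ac q l with ht'
    have htn : ‖t‖ ≤ Real.exp (-(T : ℝ)) := by
      rw [ht', norm_div, norm_Ac, norm_Ac, ← Real.exp_sub]
      apply Real.exp_le_exp.mpr
      rw [← sub_div, div_le_iff₀ hq']
      have : (k : ℝ) + T * (q : ℝ) ^ 2 < l := by exact_mod_cast hk2
      nlinarith
    have he : Real.exp (-(T : ℝ)) ≤ 1 / 2 := by
      have h1 : Real.exp (-(T : ℝ)) ≤ Real.exp (-1) := by
        apply Real.exp_le_exp.mpr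
        have : (1 : ℝ) ≤ T := by exact_mod_cast hT
        linarith
      have h2 : Real.exp (-1) ≤ 1 / 2 := by
        rw [Real.exp_neg, inv_le_comm₀ (Real.exp_pos _) (by norm_num)]
        have := Real.add_one_le_exp (1 : ℝ)
        norm_num at this ⊢
        linarith
      linarith
    have h1t : (1 : ℂ) - t ≠ 0 := by
      intro h
      have : t = 1 := by linear_combination -h
      rw [this] at htn
      simp at htn
      linarith
    have h1tn : 1 / 2 ≤ ‖(1 : ℂ) - t‖ := by
      have := norm_sub_norm_le (1 : ℂ) t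
      simp only [norm_one] at this
      linarith
    have heq : (Nc rho q k : ℂ) / (1 - t) - (Nc rho q k : ℂ) = (Nc rho q k : ℂ) * (t / (1 - t)) := by
      field_simp
      ring
    rw [heq, norm_mul, norm_div, Complex.norm_real, Real.norm_of_nonneg (Nc_pos _ _ _).le]
    have h2 : ‖t‖ / ‖1 - t‖ ≤ 2 * Real.exp (-(T : ℝ)) := by
      rw [div_le_iff₀ (by linarith)]
      have h3 : 0 < Real.exp (-(T : ℝ)) := Real.exp_pos _
      nlinarith
    have h4 := Nc_pos rho q k
    nlinarith
  have hdecomp : ((R : ℝ) : ℂ) * (∑' k, gn k + ∑ k ∈ F, (Nc rho q k : ℂ) / (1 - Ac q k / Ac q l)) - 1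
      = (R : ℂ) * (∑' k, gn k) +
        (R : ℂ) * (∑ k ∈ F, (Nc rho q k : ℂ) / (1 - Ac q k / Ac q l) - (S : ℂ)) +
        (((R * S - 1 : ℝ)) : ℂ) := by
    push_cast
    ring
  rw [hdecomp]
  refine le_trans (norm_add₃_le) ?_
  have hb1 : ‖(R : ℂ) * (∑' k, gn k)‖ ≤ C1 * rho := by
    rw [norm_mul, Complex.norm_real, Real.norm_of_nonneg hRpos.le]
    calc R * ‖∑' k, gn k‖ ≤ R * (C1 * (q : ℝ) ^ 2 * Nc rho q l) := by gcongr
      _ = C1 * rho := by rw [hR]; field_simp
  have hRS : R * ((q : ℝ) ^ 2 / rho * Nc rho q l) = 1 := by rw [hR]; field_simp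
  have hb2 : ‖(R : ℂ) * (∑ k ∈ F, (Nc rho q k : ℂ) / (1 - Ac q k / Ac q l) - (S : ℂ))‖ ≤
      2 * Real.exp (-(T : ℝ)) := by
    rw [norm_mul, Complex.norm_real, Real.norm_of_nonneg hRpos.le]
    have h3 : 0 < Real.exp (-(T : ℝ)) := Real.exp_pos _
    calc R * ‖_‖ ≤ R * (2 * Real.exp (-(T : ℝ)) * S) := by gcongr
      _ ≤ R * (2 * Real.exp (-(T : ℝ)) * ((q : ℝ) ^ 2 / rho * Nc rho q l)) := by gcongr
      _ = 2 * Real.exp (-(T : ℝ)) * (R * ((q : ℝ) ^ 2 / rho * Nc rho q l)) := by ring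
      _ = 2 * Real.exp (-(T : ℝ)) := by rw [hRS, mul_one]
  have hb3 : ‖(((R * S - 1 : ℝ)) : ℂ)‖ ≤ C2 * rho + C2 * Real.exp (-(rho * l / (q : ℝ) ^ 2)) := by
    rw [Complex.norm_real, Real.norm_eq_abs, abs_le]
    constructor
    · have h1 : R * ((1 - C2 * rho - C2 * Real.exp (-(rho * l / (q : ℝ) ^ 2))) *
          ((q : ℝ) ^ 2 / rho * Nc rho q l)) ≤ R * S := by
        apply mul_le_mul_of_nonneg_left hl2 hRpos.le
      have h2 : R * ((1 - C2 * rho - C2 * Real.exp (-(rho * l / (q : ℝ) ^ 2))) *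
          ((q : ℝ) ^ 2 / rho * Nc rho q l)) =
          (1 - C2 * rho - C2 * Real.exp (-(rho * l / (q : ℝ) ^ 2))) := by
        linear_combination (1 - C2 * rho - C2 * Real.exp (-(rho * l / (q : ℝ) ^ 2))) * hRS
      linarith
    · have h1 : R * S ≤ R * ((q : ℝ) ^ 2 / rho * Nc rho q l) :=
        mul_le_mul_of_nonneg_left hSup hRpos.le
      have h2 : 0 < Real.exp (-(rho * l / (q : ℝ) ^ 2)) := Real.exp_pos _
      rw [hRS] at h1
      have h3 : 0 < C2 * rho := by positivity
      have h4 : 0 < C2 * Real.exp (-(rho * l / (q : ℝ) ^ 2)) := by positivity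
      linarith
  have h5 : 0 < Real.exp (-(T : ℝ)) := Real.exp_pos _
  have h6 : 0 < Real.exp (-(rho * l / (q : ℝ) ^ 2)) := Real.exp_pos _
  have h7 : 0 < C1 * Real.exp (-(rho * l / (q : ℝ) ^ 2)) := by positivity
  nlinarith

end

end NevT.J672

namespace NevT

alias inner_upper := J672.inner_upper
alias inner_lower := J672.inner_lower
alias main_sum := J672.main_sum

end NevT
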