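import Pool.Agent.Helper551.NevDefs
import Pool.Agent.Helper551.NevJ671

set_option autoImplicit false

open Filter Topology

open scoped BigOperators

namespace NevT.J842

noncomputable section

theorem Ac_pos (q l : ℕ) : 0 < ‖Ac q l‖ := by
  rw [Ac_norm]; exact Real.exp_pos _

theorem Ac_dist_pos (q : ℕ) (hq : 0 < q) (l k : ℕ) (h : l ≠ k) : 0 < ‖Ac q l - Ac q k‖ := by
  refine lt_of_lt_of_le ?_ (Ac_sep q hq l k h)
  have := Ac_pos q l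
  have := Ac_pos q k
  positivity

/-- TARGET -/
theorem geom (q : ℕ) (R1 : ℝ) (hR1 : 0 ≤ R1) (hq : 0 < q) (hqR : 8 * R1 ≤ q) {J : ℕ → Type}
    (P : ∀ l, J l → ℂ) (hP : ∀ l x, ‖P l x‖ ≤ R1) :
    (∀ p : Σ l, J l, ‖Ac q p.1‖ / 2 ≤ ‖aB q P p‖ ∧ ‖aB q P p‖ ≤ 2 * ‖Ac q p.1‖) ∧
    (∀ p p' : Σ l, J l, p.1 ≠ p'.1 →
      ‖Ac q p.1 - Ac q p'.1‖ / 2 ≤ ‖aB q P p - aB q P p'‖ ∧
      ‖aB q P p - aB q P p'‖ ≤ 2 * ‖Ac q p.1 - Ac q p'.1‖ ∧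
      ‖(aB q P p - aB q P p') - (Ac q p.1 - Ac q p'.1)‖ ≤
        R1 * (‖Ac q p.1‖ + ‖Ac q p'.1‖) / (q : ℝ) ^ 2) ∧
    (∀ l (x y : J l), aB q P ⟨l, x⟩ - aB q P ⟨l, y⟩ = Ac q l * (P l x - P l y) / (q : ℂ) ^ 2) := by
  have hq1 : (1 : ℝ) ≤ q := by exact_mod_cast hq
  have hq0 : (0 : ℝ) < q := by linarith
  have hsmall : ∀ l x, ‖P l x / (q : ℂ) ^ 2‖ ≤ R1 / (q : ℝ) ^ 2 := by
    intro l x
    rw [norm_div, norm_pow, Complex.norm_natCast]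
    exact div_le_div_of_nonneg_right (hP l x) (by positivity)
  have hR8 : R1 / (q : ℝ) ^ 2 ≤ 1 / 8 := by
    rw [div_le_iff₀ (by positivity)]
    nlinarith
  refine ⟨?_, ?_, ?_⟩
  · rintro ⟨l, x⟩
    have hA := Ac_pos q l
    have h1 := (hsmall l x).trans hR8
    have e : ‖aB q P ⟨l, x⟩‖ = ‖Ac q l‖ * ‖1 + P l x / (q : ℂ) ^ 2‖ := by
      simp only [aB, norm_mul]
    have hup : ‖(1 : ℂ) + P l x / (q : ℂ) ^ 2‖ ≤ 1 + 1 / 8 := by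
      calc ‖(1 : ℂ) + P l x / (q : ℂ) ^ 2‖ ≤ ‖(1 : ℂ)‖ + ‖P l x / (q : ℂ) ^ 2‖ := norm_add_le _ _
        _ ≤ 1 + 1 / 8 := by rw [norm_one]; linarith
    have hlo : 1 - 1 / 8 ≤ ‖(1 : ℂ) + P l x / (q : ℂ) ^ 2‖ := by
      have : ‖(1 : ℂ)‖ ≤ ‖(1 : ℂ) + P l x / (q : ℂ) ^ 2‖ + ‖P l x / (q : ℂ) ^ 2‖ := by
        have := norm_sub_le ((1 : ℂ) + P l x / (q : ℂ) ^ 2) (P l x / (q : ℂ) ^ 2)
        rwa [add_sub_cancel_right] at this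
      rw [norm_one] at this
      linarith
    simp only
    rw [e]
    constructor <;> nlinarith
  · rintro ⟨l, x⟩ ⟨k, y⟩ hlk
    simp only at hlk ⊢
    have hA := Ac_pos q l
    have hB := Ac_pos q k
    have hsep := Ac_sep q hq l k hlk
    have e : (aB q P ⟨l, x⟩ - aB q P ⟨k, y⟩) - (Ac q l - Ac q k) =
        Ac q l * (P l x / (q : ℂ) ^ 2) - Ac q k * (P k y / (q : ℂ) ^ 2) := by
      simp only [aB]; ring
    have h3 : ‖(aB q P ⟨l, x⟩ - aB q P ⟨k, y⟩) - (Ac q l - Ac q k)‖ ≤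
        R1 * (‖Ac q l‖ + ‖Ac q k‖) / (q : ℝ) ^ 2 := by
      rw [e]
      calc ‖Ac q l * (P l x / (q : ℂ) ^ 2) - Ac q k * (P k y / (q : ℂ) ^ 2)‖
          ≤ ‖Ac q l * (P l x / (q : ℂ) ^ 2)‖ + ‖Ac q k * (P k y / (q : ℂ) ^ 2)‖ := norm_sub_le _ _
        _ = ‖Ac q l‖ * ‖P l x / (q : ℂ) ^ 2‖ + ‖Ac q k‖ * ‖P k y / (q : ℂ) ^ 2‖ := by
            rw [norm_mul, norm_mul]
        _ ≤ ‖Ac q l‖ * (R1 / (q : ℝ) ^ 2) + ‖Ac q k‖ * (R1 / (q : ℝ) ^ 2) :=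
            add_le_add (mul_le_mul_of_nonneg_left (hsmall l x) hA.le)
              (mul_le_mul_of_nonneg_left (hsmall k y) hB.le)
        _ = R1 * (‖Ac q l‖ + ‖Ac q k‖) / (q : ℝ) ^ 2 := by ring
    have h4 : R1 * (‖Ac q l‖ + ‖Ac q k‖) / (q : ℝ) ^ 2 ≤ ‖Ac q l - Ac q k‖ / 2 := by
      rw [div_le_iff₀ (by positivity)] at hsep ⊢
      calc R1 * (‖Ac q l‖ + ‖Ac q k‖) ≤ R1 * (‖Ac q l - Ac q k‖ * (4 * q)) :=
            mul_le_mul_of_nonneg_left hsep hR1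
        _ = (8 * R1) * (‖Ac q l - Ac q k‖ * q) / 2 := by ring
        _ ≤ q * (‖Ac q l - Ac q k‖ * q) / 2 := by gcongr
        _ = ‖Ac q l - Ac q k‖ / 2 * (q : ℝ) ^ 2 := by ring
    have h5 : ‖aB q P ⟨l, x⟩ - aB q P ⟨k, y⟩‖ ≤ ‖Ac q l - Ac q k‖ +
        ‖(aB q P ⟨l, x⟩ - aB q P ⟨k, y⟩) - (Ac q l - Ac q k)‖ := by
      have := norm_add_le (Ac q l - Ac q k)
        ((aB q P ⟨l, x⟩ - aB q P ⟨k, y⟩) - (Ac q l - Ac q k))
      rwa [add_sub_cancel] at this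
    have h6 : ‖Ac q l - Ac q k‖ ≤ ‖aB q P ⟨l, x⟩ - aB q P ⟨k, y⟩‖ +
        ‖(aB q P ⟨l, x⟩ - aB q P ⟨k, y⟩) - (Ac q l - Ac q k)‖ := by
      have := norm_sub_le (aB q P ⟨l, x⟩ - aB q P ⟨k, y⟩)
        ((aB q P ⟨l, x⟩ - aB q P ⟨k, y⟩) - (Ac q l - Ac q k))
      rwa [sub_sub_cancel] at this
    refine ⟨by linarith, ?_, h3⟩
    have := norm_nonneg (Ac q l - Ac q k)
    linarith
  · intro l x y
    simp only [aB]; ring

theorem sigma_bound {J : ℕ → Type} [∀ l, Fintype (J l)] (F : (Σ l, J l) → ℝ)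
    (hF : ∀ p, 0 ≤ F p) (G : ℕ → ℝ) (hG : Summable G) (h : ∀ k, ∑ x, F ⟨k, x⟩ ≤ G k) :
    Summable F ∧ ∑' p, F p ≤ ∑' k, G k := by
  have h1 : ∀ k, Summable fun x => F ⟨k, x⟩ := fun k => (hasSum_fintype _).summable
  have h2 : Summable fun k => ∑' x, F ⟨k, x⟩ := by
    refine Summable.of_nonneg_of_le (fun k => tsum_nonneg fun x => hF _) (fun k => ?_) hG
    rw [tsum_fintype]
    exact h k
  have hS : Summable F := (summable_sigma_of_nonneg hF).2 ⟨h1, h2⟩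
  refine ⟨hS, ?_⟩
  rw [hS.tsum_sigma' h1]
  refine Summable.tsum_le_tsum (fun k => ?_) h2 hG
  rw [tsum_fintype]
  exact h k

/-- TARGET -/
theorem others_near (T : ℕ) (hT : 1 ≤ T) : ∃ C : ℝ, 0 < C ∧ ∀ rho : ℝ, 0 < rho → rho ≤ 1 / 4 →
    ∀ q : ℕ, 0 < q → ∀ (R1 sg : ℝ) (N1 : ℕ) (J : ℕ → Type) [∀ l, Fintype (J l)]
    (P : ∀ l, J l → ℂ) (ν : ∀ l, J l → ℕ), 0 ≤ R1 → 8 * R1 ≤ q → BlockSys rho q R1 sg N1 P ν →
    ∀ p : Σ l, J l,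
      Summable (fun p' : Σ l, J l => if p'.1 ≠ p.1 ∧ p.1 ≤ p'.1 + T * q ^ 2 then
        (nuB ν p' : ℝ) * ‖Ac q p.1‖ / ‖aB q P p - aB q P p'‖ else 0) ∧
      ∑' p' : Σ l, J l, (if p'.1 ≠ p.1 ∧ p.1 ≤ p'.1 + T * q ^ 2 then
        (nuB ν p' : ℝ) * ‖Ac q p.1‖ / ‖aB q P p - aB q P p'‖ else 0) ≤
          C * (q : ℝ) ^ 2 * Nc rho q p.1 := by
  obtain ⟨C0, hC0, hmain⟩ := near_sum T hT
  refine ⟨2 * C0, by positivity, ?_⟩
  intro rho hrho hrho4 q hq R1 sg N1 J _ P ν hR1 hqR hB p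
  obtain ⟨-, hg2, -⟩ := geom q R1 hR1 hq hqR P hB.bdd
  obtain ⟨hs, hle⟩ := hmain rho hrho hrho4 q hq p.1
  have hb := sigma_bound (fun p' : Σ l, J l => if p'.1 ≠ p.1 ∧ p.1 ≤ p'.1 + T * q ^ 2 then
        (nuB ν p' : ℝ) * ‖Ac q p.1‖ / ‖aB q P p - aB q P p'‖ else 0)
    (fun p' => by
      split_ifs
      · positivity
      · exact le_rfl)
    (fun k => 2 * (if p.1 ≤ k + T * q ^ 2 ∧ k ≠ p.1 then
      Nc rho q k * ‖Ac q p.1‖ / ‖Ac q p.1 - Ac q k‖ else 0)) (hs.mul_left 2) (by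
      intro k
      by_cases hk : p.1 ≤ k + T * q ^ 2 ∧ k ≠ p.1
      · have hk' : k ≠ p.1 ∧ p.1 ≤ k + T * q ^ 2 := ⟨hk.2, hk.1⟩
        simp only [if_pos hk, if_pos hk', nuB]
        have hd := Ac_dist_pos q hq p.1 k (Ne.symm hk.2)
        calc ∑ x, (ν k x : ℝ) * ‖Ac q p.1‖ / ‖aB q P p - aB q P ⟨k, x⟩‖
            ≤ ∑ x, (ν k x : ℝ) * ‖Ac q p.1‖ / (‖Ac q p.1 - Ac q k‖ / 2) := by
              refine Finset.sum_le_sum fun x _ => ?_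
              exact div_le_div_of_nonneg_left (by positivity) (by positivity)
                (hg2 p ⟨k, x⟩ (Ne.symm hk.2)).1
          _ = (∑ x, (ν k x : ℝ)) * (2 * ‖Ac q p.1‖ / ‖Ac q p.1 - Ac q k‖) := by
              rw [Finset.sum_mul]
              refine Finset.sum_congr rfl fun x _ => ?_
              field_simp
          _ ≤ Nc rho q k * (2 * ‖Ac q p.1‖ / ‖Ac q p.1 - Ac q k‖) :=
              mul_le_mul_of_nonneg_right (hB.mass_le k) (by positivity)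
          _ = 2 * (Nc rho q k * ‖Ac q p.1‖ / ‖Ac q p.1 - Ac q k‖) := by ring
      · have hk' : ¬ (k ≠ p.1 ∧ p.1 ≤ k + T * q ^ 2) := fun h => hk ⟨h.2, h.1⟩
        simp only [if_neg hk, if_neg hk']
        simp)
  refine ⟨hb.1, hb.2.trans ?_⟩
  rw [tsum_mul_left]
  calc _ ≤ 2 * (C0 * (q : ℝ) ^ 2 * Nc rho q p.1) := mul_le_mul_of_nonneg_left hle (by norm_num)
    _ = 2 * C0 * (q : ℝ) ^ 2 * Nc rho q p.1 := by ring

/-- TARGET -/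
theorem others_sq : ∃ C : ℝ, 0 < C ∧ ∀ rho : ℝ, 0 < rho → rho ≤ 1 / 4 →
    ∀ q : ℕ, 0 < q → ∀ (R1 sg : ℝ) (N1 : ℕ) (J : ℕ → Type) [∀ l, Fintype (J l)]
    (P : ∀ l, J l → ℂ) (ν : ∀ l, J l → ℕ), 0 ≤ R1 → 8 * R1 ≤ q → BlockSys rho q R1 sg N1 P ν →
    ∀ p : Σ l, J l,
      Summable (fun p' : Σ l, J l => if p'.1 ≠ p.1 then
        (nuB ν p' : ℝ) / ‖aB q P p - aB q P p'‖ ^ 2 else 0) ∧
      ∑' p' : Σ l, J l, (if p'.1 ≠ p.1 then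
        (nuB ν p' : ℝ) / ‖aB q P p - aB q P p'‖ ^ 2 else 0) ≤
          C / rho * (q : ℝ) ^ 2 * Real.sqrt q * Nc rho q p.1 / ‖Ac q p.1‖ ^ 2 := by
  obtain ⟨C0, hC0, hmain⟩ := sq_sum
  refine ⟨4 * C0, by positivity, ?_⟩
  intro rho hrho hrho4 q hq R1 sg N1 J _ P ν hR1 hqR hB p
  obtain ⟨-, hg2, -⟩ := geom q R1 hR1 hq hqR P hB.bdd
  obtain ⟨hs, hle⟩ := hmain rho hrho hrho4 q hq p.1
  have hAp := Ac_pos q p.1
  have hb := sigma_bound (fun p' : Σ l, J l => if p'.1 ≠ p.1 then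
        (nuB ν p' : ℝ) / ‖aB q P p - aB q P p'‖ ^ 2 else 0)
    (fun p' => by
      split_ifs
      · positivity
      · exact le_rfl)
    (fun k => (4 / ‖Ac q p.1‖ ^ 2) * (if k ≠ p.1 then
      Nc rho q k * ‖Ac q p.1‖ * (‖Ac q p.1‖ + ‖Ac q k‖) / ‖Ac q p.1 - Ac q k‖ ^ 2 else 0))
    (hs.mul_left _) (by
      intro k
      by_cases hk : k ≠ p.1
      · simp only [if_pos hk, nuB]
        have hd := Ac_dist_pos q hq p.1 k (Ne.symm hk)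
        have hAk := Ac_pos q k
        have hN : 0 < Nc rho q k := Real.exp_pos _
        calc ∑ x, (ν k x : ℝ) / ‖aB q P p - aB q P ⟨k, x⟩‖ ^ 2
            ≤ ∑ x, (ν k x : ℝ) / (‖Ac q p.1 - Ac q k‖ / 2) ^ 2 := by
              refine Finset.sum_le_sum fun x _ => ?_
              have := (hg2 p ⟨k, x⟩ (Ne.symm hk)).1
              simp only at this
              exact div_le_div_of_nonneg_left (by positivity) (by positivity)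
                (pow_le_pow_left₀ (by positivity) this 2)
          _ = (∑ x, (ν k x : ℝ)) * (4 / ‖Ac q p.1 - Ac q k‖ ^ 2) := by
              rw [Finset.sum_mul]
              refine Finset.sum_congr rfl fun x _ => ?_
              field_simp
              ring
          _ ≤ Nc rho q k * (4 / ‖Ac q p.1 - Ac q k‖ ^ 2) :=
              mul_le_mul_of_nonneg_right (hB.mass_le k) (by positivity)
          _ = (4 / ‖Ac q p.1‖ ^ 2) *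
              (Nc rho q k * ‖Ac q p.1‖ * ‖Ac q p.1‖ / ‖Ac q p.1 - Ac q k‖ ^ 2) := by
              field_simp
          _ ≤ (4 / ‖Ac q p.1‖ ^ 2) *
              (Nc rho q k * ‖Ac q p.1‖ * (‖Ac q p.1‖ + ‖Ac q k‖) / ‖Ac q p.1 - Ac q k‖ ^ 2) := by
              gcongr
              linarith
      · simp only [if_neg hk]
        simp)
  refine ⟨hb.1, hb.2.trans ?_⟩
  rw [tsum_mul_left]
  calc _ ≤ (4 / ‖Ac q p.1‖ ^ 2) * (C0 / rho * (q : ℝ) ^ 2 * Real.sqrt q * Nc rho q p.1) :=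
        mul_le_mul_of_nonneg_left hle (by positivity)
    _ = 4 * C0 / rho * (q : ℝ) ^ 2 * Real.sqrt q * Nc rho q p.1 / ‖Ac q p.1‖ ^ 2 := by ring

end

end NevT.J842

namespace NevT

alias geom := J842.geom
alias others_near := J842.others_near
alias others_sq := J842.others_sq

end NevT
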