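import Pool.Agent.Helper551.NevDefs
import Pool.Agent.Helper551.NevJ671
import Pool.Agent.Helper551.NevJ672
import Pool.Agent.Helper551.NevJ842

set_option autoImplicit false

open Filter Topology

open scoped BigOperators

namespace NevT.J843

noncomputable section

theorem Ac_ne (q l : ℕ) : Ac q l ≠ 0 := Complex.exp_ne_zero _

theorem Nc_pos (rho : ℝ) (q l : ℕ) : 0 < Nc rho q l := Real.exp_pos _

theorem norm_Ac_pos (q l : ℕ) : 0 < ‖Ac q l‖ := norm_pos_iff.mpr (Ac_ne q l)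

theorem Dk_pos (q : ℕ) (hq : 0 < q) (l k : ℕ) (h : k ≠ l) : 0 < ‖Ac q l - Ac q k‖ := by
  have h1 := Ac_sep q hq l k (Ne.symm h)
  have h2 := norm_Ac_pos q l
  have h3 := norm_Ac_pos q k
  have hq' : (0 : ℝ) < q := by exact_mod_cast hq
  have : 0 < (‖Ac q l‖ + ‖Ac q k‖) / (4 * q) := by positivity
  linarith

/-- pointwise estimate for one charge -/
theorem one_charge (z w : ℂ) (n D E : ℝ) (hn : 0 ≤ n) (hD : 0 < D) (hw : ‖w‖ = D)
    (hz : D / 2 ≤ ‖z‖) (hE : ‖z - w‖ ≤ E) :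
    ‖(n : ℂ) / z - (n : ℂ) / w‖ ≤ n * (2 * E / D ^ 2) := by
  have hz0 : z ≠ 0 := by
    intro h
    rw [h, norm_zero] at hz
    linarith
  have hw0 : w ≠ 0 := by
    intro h
    rw [h, norm_zero] at hw
    linarith
  have h1 : (n : ℂ) / z - (n : ℂ) / w = (n : ℂ) * ((w - z) / (z * w)) := by
    field_simp
  rw [h1, norm_mul, norm_div, norm_mul, hw, norm_sub_rev]
  have h2 : ‖(n : ℂ)‖ = n := by
    rw [Complex.norm_real, Real.norm_eq_abs, abs_of_nonneg hn]
  rw [h2]
  apply mul_le_mul_of_nonneg_left _ hn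
  have hzpos : 0 < ‖z‖ := norm_pos_iff.mpr hz0
  have hE0 : 0 ≤ E := le_trans (norm_nonneg _) hE
  calc ‖z - w‖ / (‖z‖ * D) ≤ E / ((D / 2) * D) := by
        apply div_le_div₀ hE0 hE (by positivity)
        exact mul_le_mul_of_nonneg_right hz hD.le
    _ = 2 * E / D ^ 2 := by
        field_simp

/-- the sum of `|A_l|/|A_l-A_k|`. -/
theorem plain_sum (C1 : ℝ) (hC1 : 0 < C1)
    (h1 : ∀ rho : ℝ, 0 < rho → rho ≤ 1 / 4 →
    ∀ q : ℕ, 0 < q → ∀ l : ℕ,
    Summable (fun k : ℕ => if l ≤ k + 1 * q ^ 2 ∧ k ≠ l then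
      Nc rho q k * ‖Ac q l‖ / ‖Ac q l - Ac q k‖ else 0) ∧
    ∑' k : ℕ, (if l ≤ k + 1 * q ^ 2 ∧ k ≠ l then
      Nc rho q k * ‖Ac q l‖ / ‖Ac q l - Ac q k‖ else 0) ≤ C1 * (q : ℝ) ^ 2 * Nc rho q l)
    (rho : ℝ) (hrho : 0 < rho) (hrho4 : rho ≤ 1 / 4) (q : ℕ) (hq : 0 < q) (l : ℕ) :
    Summable (fun k : ℕ => if k ≠ l then ‖Ac q l‖ / ‖Ac q l - Ac q k‖ else 0) ∧
    ∑' k : ℕ, (if k ≠ l then ‖Ac q l‖ / ‖Ac q l - Ac q k‖ else 0) ≤
      3 * C1 * (q : ℝ) ^ 2 + 2 * l := by
  obtain ⟨hs, hb⟩ := h1 rho hrho hrho4 q hq l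
  have hq' : (0 : ℝ) < q := by exact_mod_cast hq
  have hNl := Nc_pos rho q l
  set u : ℕ → ℝ := fun k => if l ≤ k + 1 * q ^ 2 ∧ k ≠ l then
      Nc rho q k * ‖Ac q l‖ / ‖Ac q l - Ac q k‖ else 0 with hu
  set v : ℕ → ℝ := fun k => if k < l then 2 else 0 with hv
  have hvs : HasSum v (2 * l) := by
    have h : HasSum v (∑ b ∈ Finset.range l, v b) := hasSum_sum_of_ne_finset_zero (by
      intro b hb'
      simp only [hv]
      rw [if_neg]
      simpa using hb')
    have h2 : ∑ b ∈ Finset.range l, v b = 2 * l := by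
      rw [Finset.sum_congr rfl (g := fun _ => (2 : ℝ))]
      · simp; ring
      · intro x hx
        simp only [hv]
        rw [if_pos (Finset.mem_range.mp hx)]
    rwa [h2] at h
  have hus : HasSum (fun k => 3 / Nc rho q l * u k) (3 / Nc rho q l * ∑' k, u k) :=
    hs.hasSum.mul_left _
  have huv := hus.add hvs
  have hle : ∀ k, (if k ≠ l then ‖Ac q l‖ / ‖Ac q l - Ac q k‖ else 0) ≤
      3 / Nc rho q l * u k + v k := by
    intro k
    have hu0 : 0 ≤ u k := by
      simp only [hu]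
      split_ifs
      · have := Nc_pos rho q k
        positivity
      · exact le_rfl
    have hv0 : 0 ≤ v k := by
      simp only [hv]
      split_ifs <;> norm_num
    by_cases hk : k ≠ l
    · rw [if_pos hk]
      by_cases hlk : l ≤ k + 1 * q ^ 2
      · have hexp : 1 ≤ 3 / Nc rho q l * Nc rho q k := by
          have e1 : Nc rho q l ≤ Real.exp 1 * Nc rho q k := by
            unfold Nc
            rw [← Real.exp_add]
            apply Real.exp_le_exp.mpr
            have hcast : (l : ℝ) ≤ k + (q : ℝ) ^ 2 := by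
              have : l ≤ k + q ^ 2 := by simpa using hlk
              exact_mod_cast this
            have h3 : rho * l / (q : ℝ) ^ 2 ≤ rho * (k + (q : ℝ) ^ 2) / (q : ℝ) ^ 2 := by
              gcongr
            have h4 : rho * (k + (q : ℝ) ^ 2) / (q : ℝ) ^ 2 = rho * k / (q : ℝ) ^ 2 + rho := by
              field_simp
            linarith
          have e2 : Real.exp 1 ≤ 3 := by
            have := Real.exp_one_lt_d9
            linarith
          have e3 : Nc rho q l ≤ 3 * Nc rho q k :=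
            e1.trans (mul_le_mul_of_nonneg_right e2 (Nc_pos rho q k).le)
          rw [div_mul_eq_mul_div, le_div_iff₀ hNl]
          linarith
        have huk : u k = Nc rho q k * (‖Ac q l‖ / ‖Ac q l - Ac q k‖) := by
          simp only [hu]
          rw [if_pos ⟨hlk, hk⟩]
          ring
        have h0 : 0 ≤ ‖Ac q l‖ / ‖Ac q l - Ac q k‖ := by positivity
        calc ‖Ac q l‖ / ‖Ac q l - Ac q k‖ = 1 * (‖Ac q l‖ / ‖Ac q l - Ac q k‖) := by ring
          _ ≤ (3 / Nc rho q l * Nc rho q k) * (‖Ac q l‖ / ‖Ac q l - Ac q k‖) :=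
              mul_le_mul_of_nonneg_right hexp h0
          _ = 3 / Nc rho q l * u k := by rw [huk]; ring
          _ ≤ 3 / Nc rho q l * u k + v k := by linarith
      · push Not at hlk
        have hkl : k < l := by
          have : k ≤ k + 1 * q ^ 2 := Nat.le_add_right _ _
          omega
        have hvk : v k = 2 := by
          simp only [hv]
          rw [if_pos hkl]
        have hAk : ‖Ac q k‖ ≤ ‖Ac q l‖ / 2 := by
          rw [Ac_norm, Ac_norm]
          have e1 : Real.exp ((k : ℝ) / (q : ℝ) ^ 2) * Real.exp 1 ≤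
              Real.exp ((l : ℝ) / (q : ℝ) ^ 2) := by
            rw [← Real.exp_add]
            apply Real.exp_le_exp.mpr
            have hcast : (k : ℝ) + (q : ℝ) ^ 2 ≤ l := by
              have : k + q ^ 2 ≤ l := by
                have := hlk.le
                simpa using this
              exact_mod_cast this
            calc (k : ℝ) / (q : ℝ) ^ 2 + 1 = (k + (q : ℝ) ^ 2) / (q : ℝ) ^ 2 := by field_simp
              _ ≤ l / (q : ℝ) ^ 2 := by gcongr
          have e2 : 2 ≤ Real.exp 1 := by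
            have := Real.add_one_le_exp (1 : ℝ)
            linarith
          have e3 : Real.exp ((k : ℝ) / (q : ℝ) ^ 2) * 2 ≤
              Real.exp ((k : ℝ) / (q : ℝ) ^ 2) * Real.exp 1 :=
            mul_le_mul_of_nonneg_left e2 (Real.exp_pos _).le
          linarith
        have hd : ‖Ac q l‖ / 2 ≤ ‖Ac q l - Ac q k‖ := by
          have := norm_sub_norm_le (Ac q l) (Ac q k)
          linarith
        have hl := norm_Ac_pos q l
        have hq2 : ‖Ac q l‖ / ‖Ac q l - Ac q k‖ ≤ 2 := by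
          rw [div_le_iff₀ (by linarith)]
          linarith
        rw [hvk]
        have : 0 ≤ 3 / Nc rho q l * u k := by positivity
        linarith
    · rw [if_neg hk]
      have : 0 ≤ 3 / Nc rho q l * u k := by positivity
      linarith
  have hnn : ∀ k, 0 ≤ (if k ≠ l then ‖Ac q l‖ / ‖Ac q l - Ac q k‖ else 0) := by
    intro k
    split_ifs
    · positivity
    · exact le_rfl
  have hsum : Summable (fun k : ℕ => if k ≠ l then ‖Ac q l‖ / ‖Ac q l - Ac q k‖ else 0) :=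
    Summable.of_nonneg_of_le hnn hle huv.summable
  refine ⟨hsum, ?_⟩
  have hle2 := hasSum_le hle hsum.hasSum huv
  refine hle2.trans ?_
  have h5 : 3 / Nc rho q l * ∑' k, u k ≤ 3 / Nc rho q l * (C1 * (q : ℝ) ^ 2 * Nc rho q l) :=
    mul_le_mul_of_nonneg_left hb (by positivity)
  have h6 : 3 / Nc rho q l * (C1 * (q : ℝ) ^ 2 * Nc rho q l) = 3 * C1 * (q : ℝ) ^ 2 := by
    field_simp
  linarith

/-- TARGET -/
theorem others_field : ∃ C : ℝ, 0 < C ∧ ∀ rho : ℝ, 0 < rho → rho ≤ 1 / 4 →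
    ∀ q : ℕ, 0 < q → ∀ (R1 sg : ℝ) (N1 : ℕ) (J : ℕ → Type) [∀ l, Fintype (J l)]
    (P : ∀ l, J l → ℂ) (ν : ∀ l, J l → ℕ), 0 ≤ R1 → 8 * R1 ≤ q → BlockSys rho q R1 sg N1 P ν →
    ∀ p : Σ l, J l,
      Summable (fun p' : Σ l, J l => if p'.1 ≠ p.1 then
        (nuB ν p' : ℂ) / (aB q P p - aB q P p') else 0) ∧
      ‖(Ac q p.1 / (q : ℂ) ^ 2) * (∑' p' : Σ l, J l, if p'.1 ≠ p.1 then
        (nuB ν p' : ℂ) / (aB q P p - aB q P p') else 0) - Bf rho q p.1‖ ≤
          C * R1 / (rho * Real.sqrt q) * Nc rho q p.1 +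
            C * N1 * (1 + (p.1 : ℝ) / (q : ℝ) ^ 2) := by
  obtain ⟨C0, hC0, h0⟩ := sq_sum
  obtain ⟨C1, hC1, h1⟩ := near_sum 1 le_rfl
  refine ⟨2 * C0 + 3 * C1 + 2, by positivity, ?_⟩
  intro rho hrho hrho4 q hq R1 sg N1 J _ P ν hR1 hqR hB p
  obtain ⟨l, x0⟩ := p
  obtain ⟨hg1, hg2, hg3⟩ := geom q R1 hR1 hq hqR P hB.bdd
  have hq' : (0 : ℝ) < q := by exact_mod_cast hq
  have hq1 : (1 : ℝ) ≤ q := by exact_mod_cast hq
  obtain ⟨hps, hpb⟩ := plain_sum C1 hC1 h1 rho hrho hrho4 q hq l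
  obtain ⟨hsqs, hsqb⟩ := h0 rho hrho hrho4 q hq l
  obtain ⟨C2, hC2, h2⟩ := near_sum (l + 1) (Nat.le_add_left _ _)
  obtain ⟨hfs, -⟩ := h2 rho hrho hrho4 q hq l
  obtain ⟨C3, hC3, h3⟩ := main_sum 1 le_rfl
  obtain ⟨hms, -⟩ := h3 rho hrho hrho4 q hq l
  have hDp := Dk_pos q hq l
  have hAl := norm_Ac_pos q l
  set a : ℂ := aB q P ⟨l, x0⟩ with ha
  simp only
  set F : (Σ l, J l) → ℂ := fun p' => if p'.1 ≠ l then
        (nuB ν p' : ℂ) / (a - aB q P p') else 0 with hF
  -- norm bound of one term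
  have hterm : ∀ (k : ℕ) (x : J k), k ≠ l →
      ‖F ⟨k, x⟩‖ ≤ (ν k x : ℝ) * (2 / ‖Ac q l - Ac q k‖) := by
    intro k x hk
    obtain ⟨g1, g2, g3⟩ := hg2 ⟨l, x0⟩ ⟨k, x⟩ (Ne.symm hk)
    simp only at g1 g2 g3
    have hD := hDp k hk
    have : F ⟨k, x⟩ = (ν k x : ℂ) / (a - aB q P ⟨k, x⟩) := by
      simp only [hF, nuB]
      rw [if_pos hk]
    rw [this, norm_div, Complex.norm_natCast, div_eq_mul_inv]
    apply mul_le_mul_of_nonneg_left _ (Nat.cast_nonneg _)
    rw [inv_le_comm₀ (by linarith) (by positivity), inv_div]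
    exact g1
  -- summability of the block bounds
  have hblk : Summable (fun k : ℕ => if k ≠ l then
      Nc rho q k * (2 / ‖Ac q l - Ac q k‖) else 0) := by
    have := hfs.mul_left (2 / ‖Ac q l‖)
    refine this.congr ?_
    intro k
    by_cases hk : k ≠ l
    · rw [if_pos hk, if_pos]
      · have hD := hDp k hk
        field_simp
      · refine ⟨?_, hk⟩
        have : 1 ≤ q ^ 2 := Nat.one_le_pow _ _ hq
        nlinarith [Nat.zero_le k]
    · rw [if_neg hk, if_neg (by tauto), mul_zero]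
  have hsumN : Summable (fun p' => ‖F p'‖) := by
    rw [summable_sigma_of_nonneg (fun p' => norm_nonneg _)]
    refine ⟨fun k => (hasSum_fintype _).summable, ?_⟩
    refine Summable.of_nonneg_of_le (fun k => tsum_nonneg (fun x => norm_nonneg _)) ?_ hblk
    intro k
    rw [tsum_fintype]
    by_cases hk : k ≠ l
    · rw [if_pos hk]
      calc ∑ x : J k, ‖F ⟨k, x⟩‖ ≤ ∑ x : J k, (ν k x : ℝ) * (2 / ‖Ac q l - Ac q k‖) :=
            Finset.sum_le_sum (fun x _ => hterm k x hk)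
        _ = (∑ x : J k, (ν k x : ℝ)) * (2 / ‖Ac q l - Ac q k‖) := by rw [Finset.sum_mul]
        _ ≤ Nc rho q k * (2 / ‖Ac q l - Ac q k‖) :=
            mul_le_mul_of_nonneg_right (hB.mass_le k) (by positivity)
    · rw [if_neg hk]
      apply le_of_eq
      apply Finset.sum_eq_zero
      intro x _
      simp only [hF]
      rw [if_neg hk, norm_zero]
  have hFs : Summable F := hsumN.of_norm
  refine ⟨hFs, ?_⟩
  have hts : ∑' p', F p' = ∑' k, ∑ x : J k, F ⟨k, x⟩ := by
    rw [Summable.tsum_sigma' (fun k => (hasSum_fintype _).summable) hFs]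
    congr 1
    ext k
    rw [tsum_fintype]
  have hSs : Summable (fun k => ∑ x : J k, F ⟨k, x⟩) := by
    have := hFs.sigma' (fun k => (hasSum_fintype _).summable)
    refine this.congr ?_
    intro k
    rw [tsum_fintype]
  set b : ℕ → ℂ := fun k : ℕ => if k ≠ l then (Nc rho q k : ℂ) / (1 - Ac q k / Ac q l) else 0
    with hb
  have hdiff : (Ac q l / (q : ℂ) ^ 2) * (∑' p', F p') - Bf rho q l =
      ∑' k, ((Ac q l / (q : ℂ) ^ 2) * (∑ x : J k, F ⟨k, x⟩) - (1 / (q : ℂ) ^ 2) * b k) := by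
    rw [hts, Summable.tsum_sub (hSs.mul_left _) (hms.mul_left _), tsum_mul_left, tsum_mul_left]
    rfl
  rw [hdiff]
  set sq : ℕ → ℝ := fun k : ℕ => if k ≠ l then
      Nc rho q k * ‖Ac q l‖ * (‖Ac q l‖ + ‖Ac q k‖) / ‖Ac q l - Ac q k‖ ^ 2 else 0 with hsq
  set t : ℕ → ℝ := fun k : ℕ => if k ≠ l then ‖Ac q l‖ / ‖Ac q l - Ac q k‖ else 0 with ht
  have hgs : HasSum (fun k => (2 * R1 / (q : ℝ) ^ 4) * sq k + (N1 / (q : ℝ) ^ 2) * t k)
      ((2 * R1 / (q : ℝ) ^ 4) * (∑' k, sq k) + (N1 / (q : ℝ) ^ 2) * (∑' k, t k)) :=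
    (hsqs.hasSum.mul_left _).add (hps.hasSum.mul_left _)
  have hbd : ∀ k, ‖(Ac q l / (q : ℂ) ^ 2) * (∑ x : J k, F ⟨k, x⟩) - (1 / (q : ℂ) ^ 2) * b k‖ ≤
      (2 * R1 / (q : ℝ) ^ 4) * sq k + (N1 / (q : ℝ) ^ 2) * t k := by
    intro k
    by_cases hk : k ≠ l
    · have hD := hDp k hk
      have hAl0 := Ac_ne q l
      have hw0 : Ac q l - Ac q k ≠ 0 := norm_pos_iff.mp hD
      have e1 : (1 / (q : ℂ) ^ 2) * b k =
          (Ac q l / (q : ℂ) ^ 2) * ((Nc rho q k : ℂ) / (Ac q l - Ac q k)) := by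
        simp only [hb]
        rw [if_pos hk]
        have : 1 - Ac q k / Ac q l = (Ac q l - Ac q k) / Ac q l := by
          field_simp
        rw [this, div_div_eq_mul_div]
        ring
      rw [e1, ← mul_sub, norm_mul]
      have e2 : ‖Ac q l / (q : ℂ) ^ 2‖ = ‖Ac q l‖ / (q : ℝ) ^ 2 := by
        rw [norm_div, norm_pow, Complex.norm_natCast]
      rw [e2]
      set m : ℝ := ∑ x : J k, (ν k x : ℝ) with hm
      have hm1 : m ≤ Nc rho q k := hB.mass_le k
      have hm2 : Nc rho q k - N1 ≤ m := hB.mass_ge k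
      have hm0 : 0 ≤ m := Finset.sum_nonneg (fun x _ => Nat.cast_nonneg _)
      have e3 : (∑ x : J k, F ⟨k, x⟩) - (Nc rho q k : ℂ) / (Ac q l - Ac q k) =
          (∑ x : J k, (((ν k x : ℝ) : ℂ) / (a - aB q P ⟨k, x⟩) -
            ((ν k x : ℝ) : ℂ) / (Ac q l - Ac q k))) +
          ((m - Nc rho q k : ℝ) : ℂ) / (Ac q l - Ac q k) := by
        rw [Finset.sum_sub_distrib, ← Finset.sum_div]
        have e4 : (∑ x : J k, F ⟨k, x⟩) =
            ∑ x : J k, ((ν k x : ℝ) : ℂ) / (a - aB q P ⟨k, x⟩) := by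
          apply Finset.sum_congr rfl
          intro x _
          simp only [hF, nuB]
          rw [if_pos hk]
          simp
        have e5 : (∑ x : J k, ((ν k x : ℝ) : ℂ)) = (m : ℂ) := by
          rw [hm]; push_cast; rfl
        rw [e4, e5]
        push_cast
        ring
      have e6 : ‖(∑ x : J k, F ⟨k, x⟩) - (Nc rho q k : ℂ) / (Ac q l - Ac q k)‖ ≤
          Nc rho q k * (2 * (R1 * (‖Ac q l‖ + ‖Ac q k‖) / (q : ℝ) ^ 2) /
            ‖Ac q l - Ac q k‖ ^ 2) + N1 / ‖Ac q l - Ac q k‖ := by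
        rw [e3]
        refine (norm_add_le _ _).trans (add_le_add ?_ ?_)
        · refine (norm_sum_le _ _).trans ?_
          calc ∑ x : J k, ‖((ν k x : ℝ) : ℂ) / (a - aB q P ⟨k, x⟩) -
                ((ν k x : ℝ) : ℂ) / (Ac q l - Ac q k)‖
              ≤ ∑ x : J k, (ν k x : ℝ) * (2 * (R1 * (‖Ac q l‖ + ‖Ac q k‖) / (q : ℝ) ^ 2) /
                ‖Ac q l - Ac q k‖ ^ 2) := by
                apply Finset.sum_le_sum
                intro x _
                obtain ⟨g1, g2, g3⟩ := hg2 ⟨l, x0⟩ ⟨k, x⟩ (Ne.symm hk)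
                exact one_charge _ _ _ _ _ (Nat.cast_nonneg _) hD rfl g1 g3
            _ = m * (2 * (R1 * (‖Ac q l‖ + ‖Ac q k‖) / (q : ℝ) ^ 2) /
                ‖Ac q l - Ac q k‖ ^ 2) := by rw [hm, Finset.sum_mul]
            _ ≤ _ := mul_le_mul_of_nonneg_right hm1 (by positivity)
        · rw [norm_div, Complex.norm_real, Real.norm_eq_abs]
          apply div_le_div_of_nonneg_right _ hD.le
          rw [abs_le]
          constructor <;> linarith
      refine (mul_le_mul_of_nonneg_left e6 (by positivity)).trans ?_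
      apply le_of_eq
      simp only [hsq, ht]
      rw [if_pos hk, if_pos hk]
      field_simp
    · have hz : (∑ x : J k, F ⟨k, x⟩) = 0 := by
        apply Finset.sum_eq_zero
        intro x _
        simp only [hF]
        rw [if_neg hk]
      have hb0 : b k = 0 := by
        simp only [hb]
        rw [if_neg hk]
      have hs0 : sq k = 0 := by
        simp only [hsq]
        rw [if_neg hk]
      have ht0 : t k = 0 := by
        simp only [ht]
        rw [if_neg hk]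
      rw [hz, hb0, hs0, ht0]
      simp
  refine (tsum_of_norm_bounded hgs hbd).trans ?_
  have hNl := Nc_pos rho q l
  have hsqrt1 : 1 ≤ Real.sqrt q := by
    rw [Real.one_le_sqrt]; exact hq1
  have hsqrt2 : Real.sqrt q * Real.sqrt q = q := Real.mul_self_sqrt hq'.le
  have p1 : (2 * R1 / (q : ℝ) ^ 4) * (∑' k, sq k) ≤
      (2 * C0 + 3 * C1 + 2) * R1 / (rho * Real.sqrt q) * Nc rho q l := by
    calc (2 * R1 / (q : ℝ) ^ 4) * (∑' k, sq k)
        ≤ (2 * R1 / (q : ℝ) ^ 4) * (C0 / rho * (q : ℝ) ^ 2 * Real.sqrt q * Nc rho q l) :=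
          mul_le_mul_of_nonneg_left hsqb (by positivity)
      _ = (2 * C0) * R1 / rho * (Real.sqrt q / (q : ℝ) ^ 2) * Nc rho q l := by
          field_simp
      _ ≤ (2 * C0 + 3 * C1 + 2) * R1 / rho * (1 / Real.sqrt q) * Nc rho q l := by
          have r1 : Real.sqrt q / (q : ℝ) ^ 2 ≤ 1 / Real.sqrt q := by
            rw [div_le_div_iff₀ (by positivity) (by positivity), hsqrt2]
            nlinarith
          have r2 : (2 * C0) * R1 / rho ≤ (2 * C0 + 3 * C1 + 2) * R1 / rho := by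
            apply div_le_div_of_nonneg_right _ hrho.le
            apply mul_le_mul_of_nonneg_right _ hR1
            linarith
          apply mul_le_mul_of_nonneg_right _ hNl.le
          exact mul_le_mul r2 r1 (by positivity) (by positivity)
      _ = (2 * C0 + 3 * C1 + 2) * R1 / (rho * Real.sqrt q) * Nc rho q l := by
          field_simp
  have p2 : (N1 / (q : ℝ) ^ 2) * (∑' k, t k) ≤
      (2 * C0 + 3 * C1 + 2) * N1 * (1 + (l : ℝ) / (q : ℝ) ^ 2) := by
    calc (N1 / (q : ℝ) ^ 2) * (∑' k, t k)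
        ≤ (N1 / (q : ℝ) ^ 2) * (3 * C1 * (q : ℝ) ^ 2 + 2 * l) :=
          mul_le_mul_of_nonneg_left hpb (by positivity)
      _ = N1 * (3 * C1 + 2 * (l / (q : ℝ) ^ 2)) := by
          field_simp
      _ ≤ N1 * ((2 * C0 + 3 * C1 + 2) * (1 + (l : ℝ) / (q : ℝ) ^ 2)) := by
          apply mul_le_mul_of_nonneg_left _ (Nat.cast_nonneg _)
          have : 0 ≤ (l : ℝ) / (q : ℝ) ^ 2 := by positivity
          nlinarith
      _ = _ := by ring
  linarith

end

end NevT.J843

namespace NevT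

alias others_field := J843.others_field

end NevT
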