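import Pool.Agent.Helper551.NevDefs
import Pool.Agent.Helper551.NevJ671
import Pool.Agent.Helper551.NevJ842

set_option autoImplicit false

open Filter Topology

open scoped BigOperators

namespace NevT.J845

noncomputable section

theorem log_bound_large {e y : ℝ} (he : 0 < e) (hy : 1 ≤ y) :
    Real.log (1 + 2 * y) ≤ (3 : ℝ) ^ e / e * y ^ e := by
  have h1 : Real.log (1 + 2 * y) ≤ (1 + 2 * y) ^ e / e := Real.log_le_rpow_div (by linarith) he
  have h2 : (1 + 2 * y) ^ e ≤ (3 * y) ^ e :=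
    Real.rpow_le_rpow (by linarith) (by linarith) he.le
  rw [Real.mul_rpow (by norm_num) (by linarith)] at h2
  calc Real.log (1 + 2 * y) ≤ (1 + 2 * y) ^ e / e := h1
    _ ≤ ((3 : ℝ) ^ e * y ^ e) / e := by gcongr
    _ = _ := by ring

theorem log_bound_small {y : ℝ} (hy : 0 ≤ y) : Real.log (1 + 2 * y) ≤ 2 * y := by
  have := Real.log_le_sub_one_of_pos (show (0 : ℝ) < 1 + 2 * y by linarith)
  linarith

/-- TARGET -/
theorem block_growth (rho : ℝ) (hrho : 0 < rho) (hrho1 : rho ≤ 1 / 4)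
    (q : ℕ) (hq : 0 < q) (R1 sg : ℝ) (N1 : ℕ) (J : ℕ → Type) [∀ l, Fintype (J l)]
    (P : ∀ l, J l → ℂ) (ν : ∀ l, J l → ℕ) (hR1 : 0 ≤ R1) (hqR : 8 * R1 ≤ q)
    (hB : BlockSys rho q R1 sg N1 P ν) :
    Summable (fun p : Σ l, J l => (nuB ν p : ℝ) / ‖aB q P p‖) ∧
    ∃ C : ℝ, ∀ r : ℝ, 1 ≤ r →
      ∑' p : Σ l, J l, (nuB ν p : ℝ) * Real.log (1 + r / ‖aB q P p‖) ≤ C * r ^ rho := by
  have hq' : (0 : ℝ) < q := by exact_mod_cast hq
  set δ : ℝ := 1 / (q : ℝ) ^ 2 with hδ
  have hδ0 : 0 < δ := by positivity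
  have hgeom := (geom q R1 hR1 hq hqR P hB.bdd).1
  have hE : ∀ l : ℕ, ‖Ac q l‖ = Real.exp (δ * l) := by
    intro l; rw [Ac_norm, hδ]; congr 1; ring
  have hN : ∀ l : ℕ, Nc rho q l = Real.exp (rho * (δ * l)) := by
    intro l; rw [Nc, hδ]; congr 1; ring
  have haB : ∀ p : Σ l, J l, Real.exp (δ * p.1) / 2 ≤ ‖aB q P p‖ := by
    intro p; rw [← hE]; exact (hgeom p).1
  have haB0 : ∀ p : Σ l, J l, 0 < ‖aB q P p‖ := fun p =>
    lt_of_lt_of_le (by positivity) (haB p)
  have hmass : ∀ l, ∑ x, (ν l x : ℝ) ≤ Real.exp (rho * (δ * l)) := by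
    intro l; rw [← hN]; exact hB.mass_le l
  have hmass0 : ∀ l, 0 ≤ ∑ x, (ν l x : ℝ) := fun l => Finset.sum_nonneg fun x _ => Nat.cast_nonneg _
  -- summability
  have hsum : Summable (fun p : Σ l, J l => (nuB ν p : ℝ) / ‖aB q P p‖) := by
    rw [summable_sigma_of_nonneg (fun p => div_nonneg (Nat.cast_nonneg _) (norm_nonneg _))]
    refine ⟨fun l => Summable.of_finite, ?_⟩
    have hg1 : Real.exp (-((1 - rho) * δ)) < 1 := by
      rw [Real.exp_lt_one_iff]
      have : 0 < (1 - rho) * δ := mul_pos (by linarith) hδ0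
      linarith
    refine Summable.of_nonneg_of_le (fun l => tsum_nonneg fun x =>
      div_nonneg (Nat.cast_nonneg _) (norm_nonneg _)) (fun l => ?_)
      ((summable_geometric_of_lt_one (Real.exp_pos _).le hg1).mul_left 2)
    rw [tsum_fintype]
    have h1 : ∀ x : J l, (nuB ν ⟨l, x⟩ : ℝ) / ‖aB q P ⟨l, x⟩‖ ≤ (ν l x : ℝ) * (2 * Real.exp (-(δ * l))) := by
      intro x
      rw [div_le_iff₀ (haB0 _)]
      have h2 := haB ⟨l, x⟩
      simp only at h2
      have h3 : Real.exp (-(δ * l)) * Real.exp (δ * l) = 1 := by rw [← Real.exp_add]; simp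
      have h4 : (1 : ℝ) ≤ 2 * Real.exp (-(δ * l)) * ‖aB q P ⟨l, x⟩‖ := by
        have := Real.exp_pos (-(δ * l))
        nlinarith
      have h5 : (0 : ℝ) ≤ (ν l x : ℝ) := Nat.cast_nonneg _
      show (ν l x : ℝ) ≤ _
      nlinarith
    refine (Finset.sum_le_sum fun x _ => h1 x).trans ?_
    rw [← Finset.sum_mul]
    have h6 : Real.exp (rho * (δ * l)) * (2 * Real.exp (-(δ * l))) = 2 * Real.exp (-((1 - rho) * δ)) ^ l := by
      rw [← Real.exp_nat_mul, mul_left_comm, ← Real.exp_add]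
      congr 2; ring
    rw [← h6]
    exact mul_le_mul_of_nonneg_right (hmass l) (by positivity)
  refine ⟨hsum, ?_⟩
  set g1 : ℝ := Real.exp (-(rho * δ / 2)) with hg1d
  set g2 : ℝ := Real.exp (-((1 - rho) * δ)) with hg2d
  have hg10 : 0 ≤ g1 := (Real.exp_pos _).le
  have hg20 : 0 ≤ g2 := (Real.exp_pos _).le
  have hg1 : g1 < 1 := by
    rw [hg1d, Real.exp_lt_one_iff]
    have : 0 < rho * δ / 2 := by positivity
    linarith
  have hg2 : g2 < 1 := by
    rw [hg2d, Real.exp_lt_one_iff]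
    have : 0 < (1 - rho) * δ := mul_pos (by linarith) hδ0
    linarith
  set C1 : ℝ := (3 : ℝ) ^ (rho / 2) / (rho / 2) with hC1
  have hC10 : 0 ≤ C1 := by positivity
  refine ⟨C1 * (1 - g1)⁻¹ + 2 * (1 - g2)⁻¹, fun r hr => ?_⟩
  set s := Real.log r with hs
  have hs0 : 0 ≤ s := Real.log_nonneg hr
  have hr0 : 0 < r := by linarith
  have hrs : r = Real.exp s := (Real.exp_log hr0).symm
  have hrr : r ^ rho = Real.exp (rho * s) := by
    rw [Real.rpow_def_of_pos hr0, mul_comm]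
  have hnn : ∀ p : Σ l, J l, 0 ≤ (nuB ν p : ℝ) * Real.log (1 + r / ‖aB q P p‖) := fun p =>
    mul_nonneg (Nat.cast_nonneg _) (Real.log_nonneg (by
      have : 0 ≤ r / ‖aB q P p‖ := div_nonneg hr0.le (norm_nonneg _)
      linarith))
  have hsum2 : Summable (fun p : Σ l, J l => (nuB ν p : ℝ) * Real.log (1 + r / ‖aB q P p‖)) := by
    refine Summable.of_nonneg_of_le hnn (fun p => ?_) (hsum.mul_left r)
    have h1 : Real.log (1 + r / ‖aB q P p‖) ≤ r / ‖aB q P p‖ := by
      have h2 : 0 < 1 + r / ‖aB q P p‖ := by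
        have : 0 ≤ r / ‖aB q P p‖ := div_nonneg hr0.le (norm_nonneg _)
        linarith
      have := Real.log_le_sub_one_of_pos h2
      linarith
    calc (nuB ν p : ℝ) * Real.log (1 + r / ‖aB q P p‖) ≤ (nuB ν p : ℝ) * (r / ‖aB q P p‖) :=
          mul_le_mul_of_nonneg_left h1 (Nat.cast_nonneg _)
      _ = r * ((nuB ν p : ℝ) / ‖aB q P p‖) := by ring
  have hfin : ∀ l, Summable (fun x : J l => (nuB ν ⟨l, x⟩ : ℝ) * Real.log (1 + r / ‖aB q P ⟨l, x⟩‖)) :=
    fun l => Summable.of_finite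
  rw [Summable.tsum_sigma' hfin hsum2]
  set S : ℕ → ℝ := fun l => ∑' x : J l, (nuB ν ⟨l, x⟩ : ℝ) * Real.log (1 + r / ‖aB q P ⟨l, x⟩‖) with hS
  have hSsum : Summable S := ((summable_sigma_of_nonneg hnn).1 hsum2).2
  -- bound of one block
  have hSle : ∀ l : ℕ, S l ≤ Real.exp (rho * (δ * l)) * Real.log (1 + 2 * Real.exp (s - δ * l)) := by
    intro l
    have hlog0 : 0 ≤ Real.log (1 + 2 * Real.exp (s - δ * l)) :=
      Real.log_nonneg (by have := Real.exp_pos (s - δ * l); linarith)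
    simp only [hS]
    rw [tsum_fintype]
    have h1 : ∀ x : J l, (nuB ν ⟨l, x⟩ : ℝ) * Real.log (1 + r / ‖aB q P ⟨l, x⟩‖) ≤
        (ν l x : ℝ) * Real.log (1 + 2 * Real.exp (s - δ * l)) := by
      intro x
      show (ν l x : ℝ) * _ ≤ _
      refine mul_le_mul_of_nonneg_left ?_ (Nat.cast_nonneg _)
      have h2 := haB ⟨l, x⟩
      simp only at h2
      have h3 : r / ‖aB q P ⟨l, x⟩‖ ≤ 2 * Real.exp (s - δ * l) := by
        rw [div_le_iff₀ (haB0 _), hrs]
        have h4 : Real.exp (s - δ * l) * Real.exp (δ * l) = Real.exp s := by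
          rw [← Real.exp_add]; congr 1; ring
        have := Real.exp_pos (s - δ * l)
        nlinarith
      apply Real.log_le_log
      · have : 0 ≤ r / ‖aB q P ⟨l, x⟩‖ := div_nonneg hr0.le (norm_nonneg _)
        linarith
      · linarith
    refine (Finset.sum_le_sum fun x _ => h1 x).trans ?_
    rw [← Finset.sum_mul]
    exact mul_le_mul_of_nonneg_right (hmass l) hlog0
  set L : ℕ := ⌊s / δ⌋₊ with hL
  have hL1 : δ * L ≤ s := by
    have h1 : (L : ℝ) ≤ s / δ := Nat.floor_le (by positivity)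
    rw [le_div_iff₀ hδ0] at h1
    linarith
  have hL2 : s < δ * (L + 1) := by
    have h1 : s / δ < L + 1 := Nat.lt_floor_add_one _
    rw [div_lt_iff₀ hδ0] at h1
    linarith
  have hlow : ∀ l : ℕ, l < L + 1 → S l ≤ r ^ rho * (C1 * g1 ^ (L - l)) := by
    intro l hl
    have hlL : (l : ℝ) ≤ L := by exact_mod_cast (Nat.lt_succ_iff.1 hl)
    have h1 : δ * l ≤ s := (mul_le_mul_of_nonneg_left hlL hδ0.le).trans hL1
    have h2 := log_bound_large (e := rho / 2) (y := Real.exp (s - δ * l)) (by positivity)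
      (Real.one_le_exp (by linarith))
    rw [← Real.exp_mul] at h2
    calc S l ≤ Real.exp (rho * (δ * l)) * Real.log (1 + 2 * Real.exp (s - δ * l)) := hSle l
      _ ≤ Real.exp (rho * (δ * l)) * (C1 * Real.exp ((s - δ * l) * (rho / 2))) :=
          mul_le_mul_of_nonneg_left h2 (Real.exp_pos _).le
      _ = C1 * Real.exp (rho * (δ * l) + (s - δ * l) * (rho / 2)) := by rw [Real.exp_add]; ring
      _ ≤ C1 * Real.exp (rho * s + (L - l) * (-(rho * δ / 2))) := by
          refine mul_le_mul_of_nonneg_left (Real.exp_le_exp.2 ?_) hC10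
          nlinarith
      _ = r ^ rho * (C1 * g1 ^ (L - l)) := by
          rw [hrr, hg1d, ← Real.exp_nat_mul, Nat.cast_sub (Nat.lt_succ_iff.1 hl), Real.exp_add]
          ring
  have hhigh : ∀ i : ℕ, S (i + (L + 1)) ≤ r ^ rho * (2 * g2 ^ i) := by
    intro i
    have h2 := log_bound_small (y := Real.exp (s - δ * ((i + (L + 1) : ℕ) : ℝ))) (Real.exp_pos _).le
    calc S (i + (L + 1)) ≤ _ := hSle _
      _ ≤ Real.exp (rho * (δ * ((i + (L + 1) : ℕ) : ℝ))) * (2 * Real.exp (s - δ * ((i + (L + 1) : ℕ) : ℝ))) :=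
          mul_le_mul_of_nonneg_left h2 (Real.exp_pos _).le
      _ = 2 * Real.exp (rho * (δ * ((i + (L + 1) : ℕ) : ℝ)) + (s - δ * ((i + (L + 1) : ℕ) : ℝ))) := by
          rw [Real.exp_add]; ring
      _ ≤ 2 * Real.exp (rho * s + i * (-((1 - rho) * δ))) := by
          refine mul_le_mul_of_nonneg_left (Real.exp_le_exp.2 ?_) (by norm_num)
          push_cast
          nlinarith
      _ = r ^ rho * (2 * g2 ^ i) := by
          rw [hrr, hg2d, ← Real.exp_nat_mul, Real.exp_add]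
          ring
  rw [← hSsum.sum_add_tsum_nat_add (L + 1)]
  have hrr0 : 0 ≤ r ^ rho := by positivity
  have hA : ∑ l ∈ Finset.range (L + 1), S l ≤ r ^ rho * (C1 * (1 - g1)⁻¹) := by
    calc ∑ l ∈ Finset.range (L + 1), S l ≤ ∑ l ∈ Finset.range (L + 1), r ^ rho * (C1 * g1 ^ (L - l)) :=
          Finset.sum_le_sum fun l hl => hlow l (Finset.mem_range.1 hl)
      _ = r ^ rho * (C1 * ∑ l ∈ Finset.range (L + 1), g1 ^ (L - l)) := by
          rw [← Finset.mul_sum, ← Finset.mul_sum]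
      _ = r ^ rho * (C1 * ∑ l ∈ Finset.range (L + 1), g1 ^ l) := by
          congr 2
          have := Finset.sum_range_reflect (fun i => g1 ^ i) (L + 1)
          rw [← this]
          exact Finset.sum_congr rfl fun l _ => by congr 1
      _ ≤ r ^ rho * (C1 * (1 - g1)⁻¹) := by
          gcongr
          rw [← tsum_geometric_of_lt_one hg10 hg1]
          exact (summable_geometric_of_lt_one hg10 hg1).sum_le_tsum _ fun i _ => pow_nonneg hg10 i
  have hBd : ∑' i, S (i + (L + 1)) ≤ r ^ rho * (2 * (1 - g2)⁻¹) := by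
    rw [← tsum_geometric_of_lt_one hg20 hg2, ← tsum_mul_left, ← tsum_mul_left]
    refine Summable.tsum_le_tsum hhigh ((summable_nat_add_iff (L + 1)).2 hSsum) ?_
    exact ((summable_geometric_of_lt_one hg20 hg2).mul_left 2).mul_left _
  calc _ ≤ r ^ rho * (C1 * (1 - g1)⁻¹) + r ^ rho * (2 * (1 - g2)⁻¹) := add_le_add hA hBd
    _ = _ := by ring

end

end NevT.J845

namespace NevT

alias block_growth := J845.block_growth

end NevT
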