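import Pool.Agent.Helper551.NevDefs
import Pool.Agent.Helper551.NevJ671
import Pool.Agent.Helper551.NevJ842

set_option autoImplicit false

open MeasureTheory Filter Topology

open scoped BigOperators

namespace NevT.J887

noncomputable section

/-! ## finite configurations -/

/-- TARGET -/
theorem fz_small {rho : ℝ} {q : ℕ} {R Rd sg : ℝ} {N1 : ℕ} {I : ℕ → Type} [∀ l, Fintype (I l)]
    {α : ∀ l, I l → ℂ} {μ : ∀ l, I l → ℝ} {e : ℕ → ℂ} {ν : ∀ l, Option (I l) → ℕ}
    (hc : Ctx rho q R Rd sg N1 α μ e ν) (l : ℕ) (j : I l) (E1 : ℝ)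
    (hsum : Summable (fun p' : Σ l, Option (I l) => if p'.1 ≠ l then
        (nuB ν p' : ℂ) / (aB q (PO Rd α) ⟨l, some j⟩ - aB q (PO Rd α) p') else 0))
    (hE1 : ‖(Ac q l / (q : ℂ) ^ 2) * (∑' p' : Σ l, Option (I l), if p'.1 ≠ l then
        (nuB ν p' : ℂ) / (aB q (PO Rd α) ⟨l, some j⟩ - aB q (PO Rd α) p') else 0) -
          Bf rho q l‖ ≤ E1)
    (L : ℝ) (hL : 0 ≤ L) (hLs : 8 * (q : ℝ) * L ≤ ‖Ac q l‖) :
    ‖(Ac q l / (q : ℂ) ^ 2) * Fz (aB q (PO Rd α)) (nuB ν) ⟨l, some j⟩ L -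
      (‖Bf rho q l‖ : ℂ) * fld (α l) (μ l) (e l) j (L / (‖Ac q l‖ / (q : ℝ) ^ 2))‖ ≤
      N1 / sg + Nc rho q l / (Rd - R) + E1 := by
  classical
  have hq0 : 0 < q := hc.q_pos
  have hqR : (0:ℝ) < q := by exact_mod_cast hq0
  have hRd0 : 0 ≤ Rd := by have := hc.Rd_ge; have := hc.R_nonneg; linarith
  have h8 : 8 * Rd ≤ q := by have := hc.q_ge; linarith
  obtain ⟨_, hg2, hg3⟩ := geom q Rd hRd0 hq0 h8 (PO Rd α) hc.sys.bdd
  set a := aB q (PO Rd α) with ha
  set p0 : Σ l, Option (I l) := ⟨l, some j⟩ with hp0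
  set c : ℂ := Ac q l / (q:ℂ)^2 with hcdef
  have hAc0 : 0 < ‖Ac q l‖ := by rw [Ac_norm]; positivity
  have hAcne : Ac q l ≠ 0 := norm_pos_iff.1 hAc0
  have hqC : (q:ℂ) ≠ 0 := by exact_mod_cast hq0.ne'
  have hcne : c ≠ 0 := div_ne_zero hAcne (pow_ne_zero _ hqC)
  have hD : ‖c‖ = ‖Ac q l‖ / (q:ℝ)^2 := by
    rw [hcdef, norm_div, norm_pow, Complex.norm_natCast]
  set D : ℝ := ‖Ac q l‖ / (q:ℝ)^2 with hDdef
  have hD0 : 0 < D := by positivity
  set f : (Σ l, Option (I l)) → ℂ := fun p' =>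
    if L < ‖a p' - a p0‖ then (nuB ν p' : ℂ) / (a p0 - a p') else 0 with hf
  set g : (Σ l, Option (I l)) → ℂ := fun p' =>
    if p'.1 ≠ l then (nuB ν p' : ℂ) / (a p0 - a p') else 0 with hg
  set f1 : (Σ l, Option (I l)) → ℂ := fun p' => if p'.1 = l then f p' else 0 with hf1
  have hfsum : ∀ p', f p' = f1 p' + g p' := by
    intro p'
    by_cases hp : p'.1 = l
    · simp only [hf1, hg, hp, if_true, ne_eq, not_true_eq_false, if_false, add_zero]
    · have h1 := (hg2 p' p0 hp).1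
      have h2 := Ac_sep q hq0 p'.1 l hp
      have h3 : 0 < ‖Ac q p'.1‖ := by rw [Ac_norm]; positivity
      have h4 : L < ‖a p' - a p0‖ := by
        have h5 : L ≤ ‖Ac q l‖ / (8 * q) := by
          rw [le_div_iff₀ (by positivity)]
          linarith
        have h6 : (‖Ac q p'.1‖ + ‖Ac q l‖) / (4 * q) / 2 ≤ ‖a p' - a p0‖ := by
          refine le_trans ?_ h1
          show (‖Ac q p'.1‖ + ‖Ac q l‖) / (4 * q) / 2 ≤ ‖Ac q p'.1 - Ac q l‖ / 2
          linarith
        have h7 : (‖Ac q p'.1‖ + ‖Ac q l‖) / (4 * q) / 2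
            = ‖Ac q l‖ / (8 * q) + ‖Ac q p'.1‖ / (8 * q) := by
          field_simp
          ring
        have h8 : 0 < ‖Ac q p'.1‖ / (8 * q) := by positivity
        linarith
      simp only [hf1, hg, hf, hp, if_false, ne_eq, not_false_eq_true, if_true, h4, zero_add]
  have hs1 : HasSum f1 (∑ x : Option (I l), f ⟨l, x⟩) := by
    have h1 : HasSum f1 (∑ p' ∈ (Finset.univ : Finset (Option (I l))).map
        (Function.Embedding.sigmaMk l), f1 p') := by
      apply hasSum_sum_of_ne_finset_zero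
      intro p' hp'
      simp only [hf1]
      rw [if_neg]
      intro h
      apply hp'
      rw [Finset.mem_map]
      obtain ⟨k, x⟩ := p'
      simp only at h
      subst h
      exact ⟨x, Finset.mem_univ _, rfl⟩
    rw [Finset.sum_map] at h1
    convert h1 using 1
    apply Finset.sum_congr rfl
    intro x _
    simp [hf1]
  have hFz : Fz a (nuB ν) p0 L = ∑ x : Option (I l), f ⟨l, x⟩ + ∑' p', g p' := by
    have h1 := hs1.add hsum.hasSum
    have h2 : (fun p' => f1 p' + g p') = f := by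
      funext p'
      exact (hfsum p').symm
    rw [h2] at h1
    exact h1.tsum_eq
  -- own block differences
  have hown : ∀ x : Option (I l), a ⟨l, x⟩ - a p0 = c * (PO Rd α l x - α l j) := by
    intro x
    rw [hp0, hg3 l x (some j), hcdef]
    show Ac q l * (PO Rd α l x - α l j) / (q:ℂ)^2 = _
    ring
  have hcf : ∀ x : Option (I l), c * f ⟨l, x⟩ =
      if L / D < ‖PO Rd α l x - α l j‖ then (ν l x : ℂ) / (α l j - PO Rd α l x) else 0 := by
    intro x
    simp only [hf]
    have h1 : a p0 - a ⟨l, x⟩ = c * (α l j - PO Rd α l x) := by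
      rw [← neg_sub, hown x]; ring
    rw [hown x, h1, norm_mul, hD]
    have h2 : L < D * ‖PO Rd α l x - α l j‖ ↔ L / D < ‖PO Rd α l x - α l j‖ := by
      rw [div_lt_iff₀ hD0, mul_comm]
    by_cases h3 : L / D < ‖PO Rd α l x - α l j‖
    · rw [if_pos h3, if_pos (h2.2 h3)]
      show c * ((ν l x : ℂ) / (c * (α l j - PO Rd α l x))) = _
      rw [← mul_div_assoc, mul_div_mul_left _ _ hcne]
    · rw [if_neg h3, if_neg (fun h => h3 (h2.1 h)), mul_zero]
  have hexp : c * Fz a (nuB ν) p0 L - (‖Bf rho q l‖ : ℂ) * fld (α l) (μ l) (e l) j (L / D)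
      = c * f ⟨l, none⟩
        + ∑ i : I l, (if L / D < ‖α l i - α l j‖ then
            ((ν l (some i) : ℂ) - (‖Bf rho q l‖ : ℂ) * (μ l i : ℂ)) / (α l j - α l i) else 0)
        + (c * (∑' p', g p') - Bf rho q l) := by
    rw [hFz, Fintype.sum_option, mul_add, mul_add, Finset.mul_sum]
    unfold fld
    rw [mul_add, ← hc.e_eq l, Finset.mul_sum]
    have h1 : ∑ i : I l, c * f ⟨l, some i⟩
        - ∑ i : I l, (‖Bf rho q l‖ : ℂ) *
          (if L / D < ‖α l i - α l j‖ then (μ l i : ℂ) / (α l j - α l i) else 0)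
        = ∑ i : I l, (if L / D < ‖α l i - α l j‖ then
            ((ν l (some i) : ℂ) - (‖Bf rho q l‖ : ℂ) * (μ l i : ℂ)) / (α l j - α l i) else 0) := by
      rw [← Finset.sum_sub_distrib]
      apply Finset.sum_congr rfl
      intro i _
      rw [hcf (some i)]
      show (if L / D < ‖α l i - α l j‖ then (ν l (some i) : ℂ) / (α l j - α l i) else 0) - _ = _
      split_ifs
      · ring
      · ring
    rw [← h1]
    ring
  rw [hexp]
  have hn1 : ‖c * f ⟨l, none⟩‖ ≤ Nc rho q l / (Rd - R) := by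
    rw [hcf none]
    have h1 : Rd - R ≤ ‖α l j - (Rd:ℂ)‖ := by
      have h2 := hc.bdd l j
      have h3 : ‖(Rd:ℂ)‖ ≤ ‖α l j‖ + ‖α l j - (Rd:ℂ)‖ := by
        calc ‖(Rd:ℂ)‖ = ‖α l j - (α l j - (Rd:ℂ))‖ := by rw [sub_sub_cancel]
          _ ≤ _ := norm_sub_le _ _
      rw [Complex.norm_real, Real.norm_eq_abs, abs_of_nonneg hRd0] at h3
      linarith
    have hRR : 0 < Rd - R := by have := hc.Rd_ge; linarith
    have h4 : (ν l none : ℝ) ≤ Nc rho q l := by
      refine le_trans ?_ (hc.sys.mass_le l)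
      exact Finset.single_le_sum (f := fun x => (ν l x : ℝ)) (fun x _ => Nat.cast_nonneg _)
        (Finset.mem_univ none)
    have hN0 : 0 ≤ Nc rho q l := (Real.exp_pos _).le
    split_ifs
    · show ‖(ν l none : ℂ) / (α l j - (Rd:ℂ))‖ ≤ _
      rw [norm_div, Complex.norm_natCast]
      exact div_le_div₀ hN0 h4 hRR h1
    · rw [norm_zero]; positivity
  have hn2 : ‖∑ i : I l, (if L / D < ‖α l i - α l j‖ then
            ((ν l (some i) : ℂ) - (‖Bf rho q l‖ : ℂ) * (μ l i : ℂ)) / (α l j - α l i) else 0)‖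
      ≤ N1 / sg := by
    have hsg := hc.sg_pos
    have h1 : ∀ i ∈ (Finset.univ : Finset (I l)), ‖(if L / D < ‖α l i - α l j‖ then
            ((ν l (some i) : ℂ) - (‖Bf rho q l‖ : ℂ) * (μ l i : ℂ)) / (α l j - α l i) else 0)‖
        ≤ 1 / sg := by
      intro i _
      split_ifs with h2
      · have hij : i ≠ j := by
          rintro rfl
          rw [sub_self, norm_zero] at h2
          have : 0 ≤ L / D := by positivity
          linarith
        have h3 : sg ≤ ‖α l j - α l i‖ := by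
          have := hc.sys.sep l (some j) (some i) (by
            intro h
            exact hij (Option.some.inj h).symm)
          exact this
        have h4 : ‖(ν l (some i) : ℂ) - (‖Bf rho q l‖ : ℂ) * (μ l i : ℂ)‖ ≤ 1 := by
          have h5 : (ν l (some i) : ℂ) - (‖Bf rho q l‖ : ℂ) * (μ l i : ℂ)
              = (((ν l (some i) : ℝ) - ‖Bf rho q l‖ * μ l i : ℝ) : ℂ) := by
            push_cast; ring
          rw [h5, Complex.norm_real, Real.norm_eq_abs, hc.nu_some l i, abs_le]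
          have h6 : 0 ≤ ‖Bf rho q l‖ * μ l i := mul_nonneg (norm_nonneg _) (hc.mu_nonneg l i)
          have h7 := Nat.floor_le h6
          have h8 := Nat.lt_floor_add_one (‖Bf rho q l‖ * μ l i)
          constructor <;> linarith
        rw [norm_div]
        exact div_le_div₀ zero_le_one h4 hsg h3
      · rw [norm_zero]; positivity
    have h2 := norm_sum_le_of_le _ h1
    refine h2.trans ?_
    rw [Finset.sum_const, Finset.card_univ, nsmul_eq_mul, mul_one_div]
    have h3 : Fintype.card (I l) ≤ N1 := by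
      have h4 := hc.sys.card_le l
      rw [Fintype.card_option] at h4
      omega
    have h5 : (Fintype.card (I l) : ℝ) ≤ N1 := by exact_mod_cast h3
    gcongr
  calc _ ≤ ‖c * f ⟨l, none⟩‖ + ‖∑ i : I l, (if L / D < ‖α l i - α l j‖ then
            ((ν l (some i) : ℂ) - (‖Bf rho q l‖ : ℂ) * (μ l i : ℂ)) / (α l j - α l i) else 0)‖
        + ‖c * (∑' p', g p') - Bf rho q l‖ := norm_add₃_le
    _ ≤ _ := by
      linarith

end

end NevT.J887

namespace NevT

alias fz_small := J887.fz_small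

end NevT
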