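import Pool.Agent.Helper551.NevDefs
import Pool.Agent.Helper551.NevJ671
import Pool.Agent.Helper551.NevJ842

set_option autoImplicit false

open MeasureTheory Filter Topology

open scoped BigOperators

namespace NevT.J888

noncomputable section

/-! ## finite configurations -/

/-- TARGET -/
theorem fz_large {rho : ℝ} {q : ℕ} {R Rd sg : ℝ} {N1 : ℕ} {I : ℕ → Type} [∀ l, Fintype (I l)]
    {α : ∀ l, I l → ℂ} {μ : ∀ l, I l → ℝ} {e : ℕ → ℂ} {ν : ∀ l, Option (I l) → ℕ}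
    (hc : Ctx rho q R Rd sg N1 α μ e ν) (l : ℕ) (j : I l) (E1 Cn : ℝ)
    (hsum : Summable (fun p' : Σ l, Option (I l) => if p'.1 ≠ l then
        (nuB ν p' : ℂ) / (aB q (PO Rd α) ⟨l, some j⟩ - aB q (PO Rd α) p') else 0))
    (hE1 : ‖(Ac q l / (q : ℂ) ^ 2) * (∑' p' : Σ l, Option (I l), if p'.1 ≠ l then
        (nuB ν p' : ℂ) / (aB q (PO Rd α) ⟨l, some j⟩ - aB q (PO Rd α) p') else 0) -
          Bf rho q l‖ ≤ E1)
    (hsumn : Summable (fun p' : Σ l, Option (I l) => if p'.1 ≠ l ∧ l ≤ p'.1 + 20 * q ^ 2 then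
        (nuB ν p' : ℝ) * ‖Ac q l‖ / ‖aB q (PO Rd α) ⟨l, some j⟩ - aB q (PO Rd α) p'‖ else 0))
    (hCn : ∑' p' : Σ l, Option (I l), (if p'.1 ≠ l ∧ l ≤ p'.1 + 20 * q ^ 2 then
        (nuB ν p' : ℝ) * ‖Ac q l‖ / ‖aB q (PO Rd α) ⟨l, some j⟩ - aB q (PO Rd α) p'‖ else 0) ≤
        Cn * (q : ℝ) ^ 2 * Nc rho q l)
    (L : ℝ) (hL : ‖Ac q l‖ ≤ 8 * (q : ℝ) * L)
    (hLe : L ≤ eta * ‖aB q (PO Rd α) ⟨l, some j⟩‖) :
    ‖(Ac q l / (q : ℂ) ^ 2) * Fz (aB q (PO Rd α)) (nuB ν) ⟨l, some j⟩ L - Bf rho q l‖ ≤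
      Cn * Nc rho q l + E1 := by
  have hq : 0 < q := hc.q_pos
  have hqR : (0 : ℝ) < q := by exact_mod_cast hq
  have hq1 : (1 : ℝ) ≤ q := by exact_mod_cast hq
  have hRd : 1 ≤ Rd := by linarith [hc.Rd_ge, hc.R_nonneg]
  have hqge := hc.q_ge
  have hbd : ∀ k (x : Option (I k)), ‖PO Rd α k x‖ ≤ Rd := hc.sys.bdd
  obtain ⟨g1, g2, g3⟩ := geom q Rd (by linarith) hq (by linarith) (PO Rd α) hbd
  have hA : 0 < ‖Ac q l‖ := by rw [Ac_norm]; positivity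
  have hL0 : 0 < L := by
    by_contra h
    have : 8 * (q : ℝ) * L ≤ 0 := by
      have : L ≤ 0 := not_lt.1 h
      have h2 : (0 : ℝ) ≤ 8 * q := by positivity
      nlinarith
    linarith
  obtain ⟨a, ha⟩ : ∃ a : (Σ l, Option (I l)) → ℂ, a = aB q (PO Rd α) := ⟨_, rfl⟩
  obtain ⟨p, hp⟩ : ∃ p : Σ l, Option (I l), p = ⟨l, some j⟩ := ⟨_, rfl⟩
  rw [← ha] at g1 g2 g3 hsum hE1 hsumn hCn hLe ⊢
  rw [← hp] at hsum hE1 hsumn hCn hLe ⊢
  have hp1 : p.1 = l := by rw [hp]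
  -- own block
  have hown : ∀ p' : Σ l, Option (I l), p'.1 = l → ¬ (L < ‖a p' - a p‖) := by
    rintro ⟨k, y⟩ hk
    simp only at hk
    subst hk
    rw [hp]
    have h3 := g3 k y (some j)
    rw [h3, norm_div, norm_mul, norm_pow, Complex.norm_natCast]
    have h4 : ‖PO Rd α k y - PO Rd α k (some j)‖ ≤ 2 * Rd := by
      refine (norm_sub_le _ _).trans ?_
      have := hbd k y
      have := hbd k (some j)
      linarith
    have h5 : ‖Ac q k‖ * ‖PO Rd α k y - PO Rd α k (some j)‖ / (q : ℝ) ^ 2 ≤ L / 2 := by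
      rw [div_le_iff₀ (by positivity)]
      calc ‖Ac q k‖ * ‖PO Rd α k y - PO Rd α k (some j)‖ ≤ (8 * q * L) * (2 * Rd) := by
            gcongr
        _ ≤ (8 * q * L) * (q / 16) := by
            gcongr
            linarith
        _ = L / 2 * q ^ 2 := by ring
    intro h6
    linarith
  -- excluded charges of other blocks are not much smaller
  have hexc : ∀ p' : Σ l, Option (I l), p'.1 ≠ l → ¬ (L < ‖a p' - a p‖) →
      l ≤ p'.1 + 20 * q ^ 2 := by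
    intro p' hne hdist
    by_contra hlt
    have hlt' : p'.1 + 20 * q ^ 2 < l := not_le.1 hlt
    have h1 := (g2 p' p (by rw [hp1]; exact hne)).1
    rw [hp1] at h1
    have h2 : ‖Ac q l‖ - ‖Ac q p'.1‖ ≤ ‖Ac q p'.1 - Ac q l‖ := by
      rw [norm_sub_rev]
      exact norm_sub_norm_le _ _
    have h3 : ‖Ac q p'.1‖ ≤ ‖Ac q l‖ / 100 := by
      rw [Ac_norm, Ac_norm]
      have h4 : ((p'.1 : ℕ) : ℝ) + 20 * (q : ℝ) ^ 2 ≤ l := by exact_mod_cast hlt'.le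
      have h5 : ((p'.1 : ℕ) : ℝ) / (q : ℝ) ^ 2 ≤ (l : ℝ) / (q : ℝ) ^ 2 - 20 := by
        rw [le_sub_iff_add_le, div_add' _ _ _ (by positivity)]
        gcongr
      have h6 : Real.exp (((p'.1 : ℕ) : ℝ) / (q : ℝ) ^ 2) ≤
          Real.exp ((l : ℝ) / (q : ℝ) ^ 2 - 20) := Real.exp_le_exp.2 h5
      refine h6.trans ?_
      rw [Real.exp_sub]
      have h7 : (100 : ℝ) ≤ Real.exp 20 := by
        have h8 : (1 + 1 : ℝ) ^ 20 ≤ (Real.exp 1) ^ 20 := by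
          gcongr
          exact Real.add_one_le_exp 1
        rw [← Real.exp_nat_mul] at h8
        norm_num at h8
        linarith
      have h9 := Real.exp_pos ((l : ℝ) / (q : ℝ) ^ 2)
      gcongr
    have h4 := (g1 p).2
    rw [hp1] at h4
    have h5 : L ≤ 1 / 100000 * (2 * ‖Ac q l‖) := by
      refine hLe.trans ?_
      unfold eta
      gcongr
    apply hdist
    linarith
  -- the three families
  obtain ⟨t, ht⟩ : ∃ t : (Σ l, Option (I l)) → ℂ, ∀ p', t p' = (nuB ν p' : ℂ) / (a p - a p') :=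
    ⟨_, fun _ => rfl⟩
  simp_rw [← ht] at hsum hE1
  have hAC : Ac q l ≠ 0 := norm_pos_iff.1 hA
  -- H
  have hHle : ∀ p' : Σ l, Option (I l),
      ‖(if p'.1 ≠ l ∧ ¬ (L < ‖a p' - a p‖) then t p' else 0)‖ ≤
      ‖Ac q l‖⁻¹ * (if p'.1 ≠ l ∧ l ≤ p'.1 + 20 * q ^ 2 then
        (nuB ν p' : ℝ) * ‖Ac q l‖ / ‖a p - a p'‖ else 0) := by
    intro p'
    by_cases h : p'.1 ≠ l ∧ ¬ (L < ‖a p' - a p‖)
    · rw [if_pos h, if_pos ⟨h.1, hexc p' h.1 h.2⟩, ht, norm_div, Complex.norm_natCast]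
      apply le_of_eq
      field_simp
    · rw [if_neg h, norm_zero]
      apply mul_nonneg (by positivity)
      split_ifs
      · positivity
      · exact le_rfl
  have hHs : Summable (fun p' : Σ l, Option (I l) =>
      ‖(if p'.1 ≠ l ∧ ¬ (L < ‖a p' - a p‖) then t p' else 0)‖) :=
    Summable.of_nonneg_of_le (fun _ => norm_nonneg _) hHle (hsumn.mul_left _)
  have hHsum : Summable (fun p' : Σ l, Option (I l) =>
      (if p'.1 ≠ l ∧ ¬ (L < ‖a p' - a p‖) then t p' else 0)) := hHs.of_norm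
  have hHnorm : ‖∑' p' : Σ l, Option (I l),
      (if p'.1 ≠ l ∧ ¬ (L < ‖a p' - a p‖) then t p' else 0)‖ ≤
      ‖Ac q l‖⁻¹ * (Cn * (q : ℝ) ^ 2 * Nc rho q l) := by
    refine (norm_tsum_le_tsum_norm hHs).trans ?_
    refine (hHs.tsum_le_tsum hHle (hsumn.mul_left _)).trans ?_
    rw [tsum_mul_left]
    gcongr
  have hFz : Fz a (nuB ν) p L =
      (∑' p' : Σ l, Option (I l), if p'.1 ≠ l then t p' else 0) -
      ∑' p' : Σ l, Option (I l), (if p'.1 ≠ l ∧ ¬ (L < ‖a p' - a p‖) then t p' else 0) := by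
    unfold Fz
    rw [← hsum.tsum_sub hHsum]
    refine tsum_congr fun p' => ?_
    by_cases h1 : p'.1 = l
    · rw [if_neg (hown p' h1), if_neg (not_not.2 h1), if_neg (fun h => h.1 h1), sub_zero]
    · by_cases h2 : L < ‖a p' - a p‖
      · rw [if_pos h2, if_pos h1, if_neg (fun h => h.2 h2), sub_zero, ht]
      · rw [if_neg h2, if_pos h1, if_pos ⟨h1, h2⟩, sub_self]
  rw [hFz]
  have e1 : (Ac q l / (q : ℂ) ^ 2) * ((∑' p' : Σ l, Option (I l), if p'.1 ≠ l then t p' else 0) -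
      ∑' p' : Σ l, Option (I l), (if p'.1 ≠ l ∧ ¬ (L < ‖a p' - a p‖) then t p' else 0)) -
      Bf rho q l = ((Ac q l / (q : ℂ) ^ 2) * (∑' p' : Σ l, Option (I l), if p'.1 ≠ l then t p'
        else 0) - Bf rho q l) - (Ac q l / (q : ℂ) ^ 2) *
      ∑' p' : Σ l, Option (I l), (if p'.1 ≠ l ∧ ¬ (L < ‖a p' - a p‖) then t p' else 0) := by
    ring
  rw [e1]
  refine (norm_sub_le _ _).trans ?_
  have h5 : ‖(Ac q l / (q : ℂ) ^ 2) *
      ∑' p' : Σ l, Option (I l), (if p'.1 ≠ l ∧ ¬ (L < ‖a p' - a p‖) then t p' else 0)‖ ≤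
      Cn * Nc rho q l := by
    rw [norm_mul, norm_div, norm_pow, Complex.norm_natCast]
    calc ‖Ac q l‖ / (q : ℝ) ^ 2 * _ ≤ ‖Ac q l‖ / (q : ℝ) ^ 2 *
          (‖Ac q l‖⁻¹ * (Cn * (q : ℝ) ^ 2 * Nc rho q l)) := by gcongr
      _ = Cn * Nc rho q l := by field_simp
  linarith

end

end NevT.J888

namespace NevT

alias fz_large := J888.fz_large

end NevT
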