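import Pool.Agent.Helper551.NevDefs
import Pool.Agent.Helper551.NevJ671
import Pool.Agent.Helper551.NevJ842

set_option autoImplicit false

open MeasureTheory Filter Topology

open scoped BigOperators

namespace NevT.J889

noncomputable section

/-! ## finite configurations -/

lemma K_nonneg (L x : ℝ) : 0 ≤ K L x := le_min (Real.sqrt_nonneg _) (sq_nonneg _)

lemma K_zero (L : ℝ) : K L 0 = 0 := by simp [K]

lemma K_le_sq (L x : ℝ) : K L x ≤ (L / x) ^ 2 := min_le_right _ _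

lemma K_le_div {L x : ℝ} (hL : 0 < L) (hx : 0 < x) : K L x ≤ L / x := by
  have ht : 0 < L / x := div_pos hL hx
  rcases le_total (L / x) 1 with h | h
  · refine (min_le_right _ _).trans ?_
    rw [sq]; exact mul_le_of_le_one_left ht.le h
  · refine (min_le_left _ _).trans ?_
    rw [Real.sqrt_le_left ht.le]
    rw [sq]; exact le_mul_of_one_le_left ht.le h

lemma K_scale (L D x : ℝ) : K L (D * x) = K (L / D) x := by
  unfold K; rw [div_div]

/-- TARGET -/
theorem sz_small {rho : ℝ} {q : ℕ} {R Rd sg : ℝ} {N1 : ℕ} {I : ℕ → Type} [∀ l, Fintype (I l)]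
    {α : ∀ l, I l → ℂ} {μ : ∀ l, I l → ℝ} {e : ℕ → ℂ} {ν : ∀ l, Option (I l) → ℕ}
    (hc : Ctx rho q R Rd sg N1 α μ e ν) (l : ℕ) (j : I l) (Q : ℝ)
    (hsum : Summable (fun p' : Σ l, Option (I l) => if p'.1 ≠ l then
        (nuB ν p' : ℝ) / ‖aB q (PO Rd α) ⟨l, some j⟩ - aB q (PO Rd α) p'‖ ^ 2 else 0))
    (hQ : (∑' p' : Σ l, Option (I l), if p'.1 ≠ l then
        (nuB ν p' : ℝ) / ‖aB q (PO Rd α) ⟨l, some j⟩ - aB q (PO Rd α) p'‖ ^ 2 else 0) ≤ Q)
    (L : ℝ) (hL : 0 < L) (hLs : 8 * (q : ℝ) * L ≤ ‖Ac q l‖) :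
    Sz (aB q (PO Rd α)) (nuB ν) ⟨l, some j⟩ L ≤
      ‖Bf rho q l‖ * nearS (α l) (μ l) j (L / (‖Ac q l‖ / (q : ℝ) ^ 2)) +
      L * Nc rho q l / ((‖Ac q l‖ / (q : ℝ) ^ 2) * (Rd - R)) + L * (‖Ac q l‖ / (8 * q)) * Q := by
  classical
  obtain ⟨hrho, hrho4, hq, hR, hRd, hqRd, hsg, hsg1, hsys, hbdd, hmu, hnu, hen, hee⟩ := hc
  have hAn : 0 < ‖Ac q l‖ := by rw [Ac_norm]; exact Real.exp_pos _
  have hqR : (0 : ℝ) < q := by exact_mod_cast hq
  set D : ℝ := ‖Ac q l‖ / (q : ℝ) ^ 2 with hD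
  have hD0 : 0 < D := by positivity
  have hg := geom q Rd (by linarith) hq (by linarith) (PO Rd α) hsys.bdd
  obtain ⟨-, -, hg3⟩ := hg
  set a := aB q (PO Rd α) with ha
  set i0 : Σ l, Option (I l) := ⟨l, some j⟩ with hi0
  set f : (Σ l, Option (I l)) → ℝ := fun p' => (nuB ν p' : ℝ) * K L ‖a p' - a i0‖ with hf
  set f1 : (Σ l, Option (I l)) → ℝ := fun p' => if p'.1 = l then f p' else 0 with hf1
  set f2 : (Σ l, Option (I l)) → ℝ := fun p' => if p'.1 ≠ l then f p' else 0 with hf2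
  set h2 : (Σ l, Option (I l)) → ℝ := fun p' => if p'.1 ≠ l then
        (nuB ν p' : ℝ) / ‖a i0 - a p'‖ ^ 2 else 0 with hh2
  have hfn : ∀ p, 0 ≤ f p := fun p => mul_nonneg (Nat.cast_nonneg _) (K_nonneg _ _)
  have hsplit : ∀ p, f p = f1 p + f2 p := by
    intro p
    simp only [hf1, hf2]
    by_cases h : p.1 = l <;> simp [h]
  -- the own block
  let g : Option (I l) → (Σ l, Option (I l)) := fun x => ⟨l, x⟩
  have hinj : Function.Injective g := by
    intro x y h
    simp only [g, Sigma.mk.injEq, heq_eq_eq, true_and] at h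
    exact h
  have hsupp : ∀ p, p ∉ Set.range g → f1 p = 0 := by
    intro p hp
    simp only [hf1]
    rw [if_neg]
    intro h
    apply hp
    obtain ⟨l', x⟩ := p
    simp only at h
    subst h
    exact ⟨x, rfl⟩
  have hs1 : Summable f1 := by
    rw [← Function.Injective.summable_iff hinj hsupp]
    exact Summable.of_finite
  have ht1 : ∑' p, f1 p = ∑ x : Option (I l), f ⟨l, x⟩ := by
    have h1 : Function.support f1 ⊆ Set.range g := by
      intro p hp
      by_contra hcon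
      exact hp (hsupp p hcon)
    rw [← hinj.tsum_eq h1, tsum_fintype]
    apply Finset.sum_congr rfl
    intro x _
    simp [hf1, g]
  -- the other blocks
  have hle2 : ∀ p, f2 p ≤ L ^ 2 * h2 p := by
    intro p
    simp only [hf2, hh2]
    by_cases h : p.1 ≠ l
    · rw [if_pos h, if_pos h]
      simp only [hf]
      have e : L ^ 2 * ((nuB ν p : ℝ) / ‖a i0 - a p‖ ^ 2)
          = (nuB ν p : ℝ) * (L / ‖a p - a i0‖) ^ 2 := by
        rw [norm_sub_rev (a i0) (a p), div_pow]; ring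
      rw [e]
      exact mul_le_mul_of_nonneg_left (K_le_sq _ _) (Nat.cast_nonneg _)
    · rw [if_neg h, if_neg h]; simp
  have h2nn : ∀ p, 0 ≤ h2 p := by
    intro p
    simp only [hh2]
    split_ifs
    · positivity
    · exact le_rfl
  have hf2n : ∀ p, 0 ≤ f2 p := by
    intro p
    simp only [hf2]
    split_ifs
    · exact hfn p
    · exact le_rfl
  have hs2 : Summable f2 := Summable.of_nonneg_of_le hf2n hle2 (hsum.mul_left _)
  have ht2 : ∑' p, f2 p ≤ L ^ 2 * Q := by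
    calc ∑' p, f2 p ≤ ∑' p, L ^ 2 * h2 p := hs2.tsum_le_tsum hle2 (hsum.mul_left _)
      _ = L ^ 2 * ∑' p, h2 p := tsum_mul_left
      _ ≤ L ^ 2 * Q := by gcongr
  have hQ0 : 0 ≤ Q := (tsum_nonneg h2nn).trans hQ
  have hLA : L ≤ ‖Ac q l‖ / (8 * q) := by
    rw [le_div_iff₀ (by positivity)]
    linarith
  have hL2 : L ^ 2 * Q ≤ L * (‖Ac q l‖ / (8 * q)) * Q := by
    rw [sq]; gcongr
  have hSz : Sz a (nuB ν) i0 L = ∑' p, f1 p + ∑' p, f2 p := by
    unfold Sz
    rw [← hs1.tsum_add hs2]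
    exact tsum_congr hsplit
  rw [hSz, ht1, Fintype.sum_option]
  -- distances in the own block
  have hdist : ∀ x : Option (I l), ‖a ⟨l, x⟩ - a i0‖ = D * ‖PO Rd α l x - α l j‖ := by
    intro x
    rw [ha, hi0, hg3 l x (some j), norm_div, norm_mul, hD]
    have e1 : ‖((q : ℂ) ^ 2)‖ = (q : ℝ) ^ 2 := by
      rw [norm_pow, Complex.norm_natCast]
    rw [e1]
    have e2 : PO Rd α l (some j) = α l j := rfl
    rw [e2]; ring
  have hown : ∑ i : I l, f ⟨l, some i⟩ ≤ ‖Bf rho q l‖ * nearS (α l) (μ l) j (L / D) := by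
    unfold nearS
    rw [Finset.mul_sum]
    apply Finset.sum_le_sum
    intro i _
    simp only [hf]
    rw [hdist, K_scale]
    have e2 : PO Rd α l (some i) = α l i := rfl
    rw [e2, ← mul_assoc]
    apply mul_le_mul_of_nonneg_right _ (K_nonneg _ _)
    unfold nuB
    simp only
    rw [hnu]
    exact Nat.floor_le (mul_nonneg (norm_nonneg _) (hmu _ _))
  have hdummy : f ⟨l, none⟩ ≤ L * Nc rho q l / (D * (Rd - R)) := by
    simp only [hf]
    rw [hdist]
    have e2 : PO Rd α l none = (Rd : ℂ) := rfl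
    rw [e2]
    have hdpos : Rd - R ≤ ‖(Rd : ℂ) - α l j‖ := by
      have h1 : ‖(Rd : ℂ)‖ = Rd := by
        rw [Complex.norm_real, Real.norm_eq_abs, abs_of_nonneg (by linarith)]
      have h2 := norm_sub_norm_le (Rd : ℂ) (α l j)
      have h3 := hbdd l j
      linarith
    have hRR : 0 < Rd - R := by linarith
    have hx0 : 0 < ‖(Rd : ℂ) - α l j‖ := lt_of_lt_of_le hRR hdpos
    have hk : K L (D * ‖(Rd : ℂ) - α l j‖) ≤ L / (D * (Rd - R)) := by
      refine (K_le_div hL (by positivity)).trans ?_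
      gcongr
    have hnuN : ((nuB ν ⟨l, none⟩ : ℕ) : ℝ) ≤ Nc rho q l := by
      refine le_trans ?_ (hsys.mass_le l)
      exact Finset.single_le_sum (f := fun x => (ν l x : ℝ)) (fun x _ => Nat.cast_nonneg _)
        (Finset.mem_univ none)
    have hN0 : 0 ≤ Nc rho q l := (Real.exp_pos _).le
    calc ((nuB ν ⟨l, none⟩ : ℕ) : ℝ) * K L (D * ‖(Rd : ℂ) - α l j‖)
        ≤ Nc rho q l * (L / (D * (Rd - R))) := by
          apply mul_le_mul hnuN hk (K_nonneg _ _) hN0
      _ = L * Nc rho q l / (D * (Rd - R)) := by ring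
  linarith

end

end NevT.J889

namespace NevT

alias sz_small := J889.sz_small

end NevT
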