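import Pool.Agent.Helper551.NevDefs
import Pool.Agent.Helper551.NevJ671
import Pool.Agent.Helper551.NevJ672
import Pool.Agent.Helper551.NevJ842

set_option autoImplicit false

open MeasureTheory Filter Topology

open scoped BigOperators

namespace NevT.J890

noncomputable section

/-! ## finite configurations -/

theorem K_le_sqrt (L x : ℝ) : K L x ≤ Real.sqrt (L / x) := min_le_left _ _

theorem K_le_sq (L x : ℝ) : K L x ≤ (L / x) ^ 2 := min_le_right _ _

theorem K_nonneg (L x : ℝ) : 0 ≤ K L x := le_min (Real.sqrt_nonneg _) (sq_nonneg _)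

theorem K_zero (L : ℝ) : K L 0 = 0 := by simp [K]

theorem K_le_lin (L x : ℝ) (h : 0 ≤ L / x) : K L x ≤ L / x := by
  rcases le_total (L / x) 1 with h1 | h1
  · refine (K_le_sq L x).trans ?_
    nlinarith
  · refine (K_le_sqrt L x).trans ?_
    rw [Real.sqrt_le_left h]
    nlinarith

theorem Ac_pos (q l : ℕ) : 0 < ‖Ac q l‖ := by
  rw [Ac_norm]; exact Real.exp_pos _

theorem far_dist (q : ℕ) (hq : 0 < q) (k l : ℕ) (h : k + 20 * q ^ 2 < l) :
    (49 / 50 : ℝ) * ‖Ac q l‖ ≤ ‖Ac q l - Ac q k‖ := by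
  have hq2 : (0 : ℝ) < (q : ℝ) ^ 2 := by positivity
  have h1 : ‖Ac q k‖ ≤ Real.exp (-20) * ‖Ac q l‖ := by
    rw [Ac_norm, Ac_norm, ← Real.exp_add]
    apply Real.exp_le_exp.mpr
    have : ((k : ℝ) + 20 * (q : ℝ) ^ 2) ≤ (l : ℝ) := by exact_mod_cast h.le
    have h3 : (k : ℝ) / (q : ℝ) ^ 2 + 20 ≤ (l : ℝ) / (q : ℝ) ^ 2 := by
      rw [le_div_iff₀ hq2]
      have : ((k : ℝ) / (q : ℝ) ^ 2 + 20) * (q : ℝ) ^ 2 = (k : ℝ) + 20 * (q : ℝ) ^ 2 := by
        field_simp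
      rw [this]; assumption
    linarith
  have h2 : Real.exp (-20) ≤ 1 / 50 := by
    rw [Real.exp_neg]
    have h3 : (50 : ℝ) ≤ Real.exp 20 := by
      have h4 : (20 : ℝ) + 1 ≤ Real.exp 20 := Real.add_one_le_exp 20
      have h5 : (10 : ℝ) + 1 ≤ Real.exp 10 := Real.add_one_le_exp 10
      have h6 : Real.exp 20 = Real.exp 10 * Real.exp 10 := by
        rw [← Real.exp_add]; norm_num
      nlinarith
    rw [inv_eq_one_div]
    exact one_div_le_one_div_of_le (by norm_num) h3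
  have h3 : ‖Ac q l‖ - ‖Ac q k‖ ≤ ‖Ac q l - Ac q k‖ := norm_sub_norm_le _ _
  have h4 := Ac_pos q l
  nlinarith

/-- TARGET -/
theorem sz_large {rho : ℝ} {q : ℕ} {R Rd sg : ℝ} {N1 : ℕ} {I : ℕ → Type} [∀ l, Fintype (I l)]
    {α : ∀ l, I l → ℂ} {μ : ∀ l, I l → ℝ} {e : ℕ → ℂ} {ν : ∀ l, Option (I l) → ℕ}
    (hc : Ctx rho q R Rd sg N1 α μ e ν) (l : ℕ) (j : I l) (Cn : ℝ)
    (hsumn : Summable (fun p' : Σ l, Option (I l) => if p'.1 ≠ l ∧ l ≤ p'.1 + 20 * q ^ 2 then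
        (nuB ν p' : ℝ) * ‖Ac q l‖ / ‖aB q (PO Rd α) ⟨l, some j⟩ - aB q (PO Rd α) p'‖ else 0))
    (hCn : ∑' p' : Σ l, Option (I l), (if p'.1 ≠ l ∧ l ≤ p'.1 + 20 * q ^ 2 then
        (nuB ν p' : ℝ) * ‖Ac q l‖ / ‖aB q (PO Rd α) ⟨l, some j⟩ - aB q (PO Rd α) p'‖ else 0) ≤
        Cn * (q : ℝ) ^ 2 * Nc rho q l)
    (L : ℝ) (hL : 0 < L) :
    Sz (aB q (PO Rd α)) (nuB ν) ⟨l, some j⟩ L ≤
      ‖Bf rho q l‖ * (∑ i, μ l i) * Real.sqrt (L / ((‖Ac q l‖ / (q : ℝ) ^ 2) * sg)) +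
      L * Nc rho q l / ((‖Ac q l‖ / (q : ℝ) ^ 2) * (Rd - R)) +
      (L / ‖Ac q l‖) * (Cn * (q : ℝ) ^ 2 * Nc rho q l) +
      5 * (L / ‖Ac q l‖) ^ 2 * ((q : ℝ) ^ 2 / rho * Nc rho q l) := by
  classical
  have hq : 0 < q := hc.q_pos
  have hqR : (0 : ℝ) < (q : ℝ) := by exact_mod_cast hq
  have hq2 : (0 : ℝ) < (q : ℝ) ^ 2 := by positivity
  have hA : 0 < ‖Ac q l‖ := Ac_pos q l
  have hRd0 : 0 ≤ Rd := by linarith [hc.Rd_ge, hc.R_nonneg]
  have hg := geom q Rd hRd0 hq (by have := hc.q_ge; linarith) (PO Rd α) hc.sys.bdd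
  obtain ⟨hg1, hg2, hg3⟩ := hg
  set a := aB q (PO Rd α) with ha
  set p : Σ l, Option (I l) := ⟨l, some j⟩ with hp
  set D : ℝ := ‖Ac q l‖ / (q : ℝ) ^ 2 with hD
  have hDpos : 0 < D := by positivity
  set g : (Σ l, Option (I l)) → ℝ := fun p' => if p'.1 ≠ l ∧ l ≤ p'.1 + 20 * q ^ 2 then
        (nuB ν p' : ℝ) * ‖Ac q l‖ / ‖a p - a p'‖ else 0 with hgdef
  set f : (Σ l, Option (I l)) → ℝ := fun p' => (nuB ν p' : ℝ) * K L ‖a p' - a p‖ with hf
  set h : (Σ l, Option (I l)) → ℝ := fun p' => if p'.1 ≠ l ∧ l ≤ p'.1 + 20 * q ^ 2 then 0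
    else if p'.1 ≤ l then f p' else 0 with hh
  have hf0 : ∀ p', 0 ≤ f p' := fun p' => mul_nonneg (Nat.cast_nonneg _) (K_nonneg _ _)
  have hLA : 0 ≤ L / ‖Ac q l‖ := by positivity
  have hpt : ∀ p', f p' ≤ (L / ‖Ac q l‖) * g p' + h p' := by
    intro p'
    simp only [hgdef, hh]
    split_ifs with h1 h2
    · have hk : K L ‖a p' - a p‖ ≤ L / ‖a p' - a p‖ := K_le_lin _ _ (by positivity)
      have e1 : (L / ‖Ac q l‖) * ((nuB ν p' : ℝ) * ‖Ac q l‖ / ‖a p - a p'‖) + 0 =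
          (nuB ν p' : ℝ) * (L / ‖a p' - a p‖) := by
        rw [norm_sub_rev (a p) (a p')]
        field_simp
        ring
      rw [e1]
      exact mul_le_mul_of_nonneg_left hk (Nat.cast_nonneg _)
    · simp
    · exfalso
      apply h1
      push Not at h2
      refine ⟨by omega, by omega⟩
  set s : Finset (Σ l, Option (I l)) := (Finset.range (l + 1)).sigma (fun _ => Finset.univ) with hs
  have hh0 : ∀ p' ∉ s, h p' = 0 := by
    intro p' hp'
    simp only [hs, Finset.mem_sigma, Finset.mem_range, Finset.mem_univ, and_true] at hp'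
    simp only [hh]
    split_ifs with h1 h2
    · rfl
    · omega
    · rfl
  have hhs : Summable h := summable_of_ne_finset_zero hh0
  have hgs : Summable g := hsumn
  have hRs : Summable (fun p' => (L / ‖Ac q l‖) * g p' + h p') := (hgs.mul_left _).add hhs
  have hfs : Summable f := Summable.of_nonneg_of_le hf0 hpt hRs
  have hSz : Sz a (nuB ν) p L = ∑' p', f p' := rfl
  rw [hSz]
  have h1 : ∑' p', f p' ≤ ∑' p', ((L / ‖Ac q l‖) * g p' + h p') := hfs.tsum_le_tsum hpt hRs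
  have h2 : ∑' p', ((L / ‖Ac q l‖) * g p' + h p') = (L / ‖Ac q l‖) * ∑' p', g p' + ∑' p', h p' := by
    rw [(hgs.mul_left _).tsum_add hhs, tsum_mul_left]
  have h3 : ∑' p', h p' = ∑ p' ∈ s, h p' := tsum_eq_sum hh0
  have h4 : ∑ p' ∈ s, h p' = ∑ k ∈ Finset.range l, ∑ x, h ⟨k, x⟩ + ∑ x, h ⟨l, x⟩ := by
    rw [hs, Finset.sum_sigma, Finset.sum_range_succ]
  -- inner blocks
  have hNn : ∀ k, 0 ≤ Nc rho q k := fun k => (Real.exp_pos _).le
  have h5 : ∀ k ∈ Finset.range l, ∑ x, h ⟨k, x⟩ ≤ 5 * (L / ‖Ac q l‖) ^ 2 * Nc rho q k := by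
    intro k hk
    rw [Finset.mem_range] at hk
    have h6 : ∀ x, h ⟨k, x⟩ ≤ (5 * (L / ‖Ac q l‖) ^ 2) * (ν k x : ℝ) := by
      intro x
      simp only [hh]
      split_ifs with h7 h8
      · positivity
      · have hkl : k + 20 * q ^ 2 < l := by
          by_contra hcon
          apply h7
          exact ⟨by omega, by omega⟩
        have hd1 := (hg2 ⟨l, some j⟩ ⟨k, x⟩ (by simpa using (by omega : l ≠ k))).1
        have hd2 := far_dist q hq k l hkl
        have hx : (49 / 100 : ℝ) * ‖Ac q l‖ ≤ ‖a ⟨k, x⟩ - a p‖ := by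
          rw [norm_sub_rev]
          have : ‖Ac q l - Ac q k‖ / 2 ≤ ‖a p - a ⟨k, x⟩‖ := hd1
          linarith
        have hxpos : 0 < ‖a ⟨k, x⟩ - a p‖ := by linarith
        have hLx : L / ‖a ⟨k, x⟩ - a p‖ ≤ (100 / 49) * (L / ‖Ac q l‖) := by
          rw [div_le_iff₀ hxpos]
          have : L = (100 / 49) * (L / ‖Ac q l‖) * ((49 / 100) * ‖Ac q l‖) := by
            field_simp
          calc L = (100 / 49) * (L / ‖Ac q l‖) * ((49 / 100) * ‖Ac q l‖) := this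
            _ ≤ _ := by
              apply mul_le_mul_of_nonneg_left hx
              positivity
        have hKx : K L ‖a ⟨k, x⟩ - a p‖ ≤ 5 * (L / ‖Ac q l‖) ^ 2 := by
          refine (K_le_sq _ _).trans ?_
          have h0 : 0 ≤ L / ‖a ⟨k, x⟩ - a p‖ := by positivity
          nlinarith
        have : f ⟨k, x⟩ = (ν k x : ℝ) * K L ‖a ⟨k, x⟩ - a p‖ := rfl
        rw [this, mul_comm (5 * (L / ‖Ac q l‖) ^ 2)]
        exact mul_le_mul_of_nonneg_left hKx (Nat.cast_nonneg _)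
      · positivity
    calc ∑ x, h ⟨k, x⟩ ≤ ∑ x, (5 * (L / ‖Ac q l‖) ^ 2) * (ν k x : ℝ) :=
          Finset.sum_le_sum (fun x _ => h6 x)
      _ = (5 * (L / ‖Ac q l‖) ^ 2) * ∑ x, (ν k x : ℝ) := by rw [Finset.mul_sum]
      _ ≤ _ := mul_le_mul_of_nonneg_left (hc.sys.mass_le k) (by positivity)
  have h6 : ∑ k ∈ Finset.range l, ∑ x, h ⟨k, x⟩ ≤
      5 * (L / ‖Ac q l‖) ^ 2 * ((q : ℝ) ^ 2 / rho * Nc rho q l) := by
    calc _ ≤ ∑ k ∈ Finset.range l, 5 * (L / ‖Ac q l‖) ^ 2 * Nc rho q k := Finset.sum_le_sum h5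
      _ = 5 * (L / ‖Ac q l‖) ^ 2 * ∑ k ∈ Finset.range l, Nc rho q k := by rw [Finset.mul_sum]
      _ ≤ _ := mul_le_mul_of_nonneg_left (inner_upper rho hc.rho_pos hc.rho_le q hq l)
        (by positivity)
  -- own block
  have hpos3 := hg3 l
  have hnone : h ⟨l, none⟩ ≤ L * Nc rho q l / (D * (Rd - R)) := by
    simp only [hh]
    rw [if_neg (by simp), if_pos le_rfl]
    have e1 : a ⟨l, none⟩ - a p = Ac q l * ((Rd : ℂ) - α l j) / (q : ℂ) ^ 2 := by
      have := hpos3 none (some j)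
      simpa [PO] using this
    have e2 : ‖a ⟨l, none⟩ - a p‖ = D * ‖(Rd : ℂ) - α l j‖ := by
      rw [e1, norm_div, norm_mul, norm_pow]
      simp [hD]
      ring
    have hdR : Rd - R ≤ ‖(Rd : ℂ) - α l j‖ := by
      have h7 := norm_sub_norm_le (Rd : ℂ) (α l j)
      have h8 : ‖(Rd : ℂ)‖ = Rd := by
        rw [Complex.norm_real, Real.norm_of_nonneg hRd0]
      have := hc.bdd l j
      rw [h8] at h7
      linarith
    have hRR : 0 < Rd - R := by linarith [hc.Rd_ge]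
    have hx : D * (Rd - R) ≤ ‖a ⟨l, none⟩ - a p‖ := by
      rw [e2]; exact mul_le_mul_of_nonneg_left hdR hDpos.le
    have hx0 : 0 < D * (Rd - R) := by positivity
    have hKx : K L ‖a ⟨l, none⟩ - a p‖ ≤ L / (D * (Rd - R)) := by
      refine (K_le_lin _ _ (by positivity)).trans ?_
      exact div_le_div_of_nonneg_left hL.le hx0 hx
    have hnu : (ν l none : ℝ) ≤ Nc rho q l := by
      refine le_trans ?_ (hc.sys.mass_le l)
      exact Finset.single_le_sum (f := fun x => (ν l x : ℝ)) (fun _ _ => Nat.cast_nonneg _)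
        (Finset.mem_univ _)
    have : f ⟨l, none⟩ = (ν l none : ℝ) * K L ‖a ⟨l, none⟩ - a p‖ := rfl
    rw [this]
    calc _ ≤ Nc rho q l * (L / (D * (Rd - R))) :=
          mul_le_mul hnu hKx (K_nonneg _ _) (hNn l)
      _ = _ := by ring
  have hsome : ∑ i, h ⟨l, some i⟩ ≤ ‖Bf rho q l‖ * (∑ i, μ l i) * Real.sqrt (L / (D * sg)) := by
    have h7 : ∀ i, h ⟨l, some i⟩ ≤ ‖Bf rho q l‖ * μ l i * Real.sqrt (L / (D * sg)) := by
      intro i
      have hmu := hc.mu_nonneg l i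
      simp only [hh]
      rw [if_neg (by simp), if_pos le_rfl]
      have : f ⟨l, some i⟩ = (ν l (some i) : ℝ) * K L ‖a ⟨l, some i⟩ - a p‖ := rfl
      rw [this]
      have hnu : (ν l (some i) : ℝ) ≤ ‖Bf rho q l‖ * μ l i := by
        rw [hc.nu_some]
        exact Nat.floor_le (by positivity)
      by_cases hij : i = j
      · subst hij
        simp [hp, K_zero]
        positivity
      · have e1 : a ⟨l, some i⟩ - a p = Ac q l * (α l i - α l j) / (q : ℂ) ^ 2 := by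
          have := hpos3 (some i) (some j)
          simpa [PO] using this
        have e2 : ‖a ⟨l, some i⟩ - a p‖ = D * ‖α l i - α l j‖ := by
          rw [e1, norm_div, norm_mul, norm_pow]
          simp [hD]
          ring
        have hsep : sg ≤ ‖α l i - α l j‖ := by
          have := hc.sys.sep l (some i) (some j) (by simpa using hij)
          simpa [PO] using this
        have hsg := hc.sg_pos
        have hx : D * sg ≤ ‖a ⟨l, some i⟩ - a p‖ := by
          rw [e2]; exact mul_le_mul_of_nonneg_left hsep hDpos.le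
        have hKx : K L ‖a ⟨l, some i⟩ - a p‖ ≤ Real.sqrt (L / (D * sg)) := by
          refine (K_le_sqrt _ _).trans ?_
          apply Real.sqrt_le_sqrt
          exact div_le_div_of_nonneg_left hL.le (by positivity) hx
        exact mul_le_mul hnu hKx (K_nonneg _ _) (by positivity)
    calc _ ≤ ∑ i, ‖Bf rho q l‖ * μ l i * Real.sqrt (L / (D * sg)) :=
          Finset.sum_le_sum (fun i _ => h7 i)
      _ = _ := by rw [Finset.mul_sum, Finset.sum_mul]
  have h7 : ∑ x, h ⟨l, x⟩ = h ⟨l, none⟩ + ∑ i, h ⟨l, some i⟩ := Fintype.sum_option _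
  have h8 : (L / ‖Ac q l‖) * ∑' p', g p' ≤ (L / ‖Ac q l‖) * (Cn * (q : ℝ) ^ 2 * Nc rho q l) :=
    mul_le_mul_of_nonneg_left hCn hLA
  linarith

end

end NevT.J890

namespace NevT

alias sz_large := J890.sz_large

end NevT
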