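import Pool.Agent.Helper551.NevDefs
import Pool.Agent.Helper551.NevJ671
import Pool.Agent.Helper551.NevJ842

set_option autoImplicit false

open MeasureTheory Filter Topology

open scoped BigOperators

namespace NevT.J891

noncomputable section

/-! ## finite configurations -/

/-- TARGET -/
theorem inner_beta {rho : ℝ} {q : ℕ} {R Rd sg : ℝ} {N1 : ℕ} {I : ℕ → Type} [∀ l, Fintype (I l)]
    {α : ∀ l, I l → ℂ} {μ : ∀ l, I l → ℝ} {e : ℕ → ℂ} {ν : ∀ l, Option (I l) → ℕ}
    (hc : Ctx rho q R Rd sg N1 α μ e ν) (l : ℕ) (j : I l) (Cn : ℝ)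
    (hsumn : Summable (fun p' : Σ l, Option (I l) => if p'.1 ≠ l ∧ l ≤ p'.1 + 20 * q ^ 2 then
        (nuB ν p' : ℝ) * ‖Ac q l‖ / ‖aB q (PO Rd α) ⟨l, some j⟩ - aB q (PO Rd α) p'‖ else 0))
    (hCn : ∑' p' : Σ l, Option (I l), (if p'.1 ≠ l ∧ l ≤ p'.1 + 20 * q ^ 2 then
        (nuB ν p' : ℝ) * ‖Ac q l‖ / ‖aB q (PO Rd α) ⟨l, some j⟩ - aB q (PO Rd α) p'‖ else 0) ≤
        Cn * (q : ℝ) ^ 2 * Nc rho q l) :
    ∃ β : (Σ l, Option (I l)) → ℝ, Summable (fun p => (nuB ν p : ℝ) * β p) ∧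
      (∀ w : ℂ, ‖w‖ ≤ (1 - eta / 4) * ‖aB q (PO Rd α) ⟨l, some j⟩‖ →
        ∀ p : Σ l, Option (I l), p ≠ ⟨l, some j⟩ →
        ‖w - aB q (PO Rd α) p‖ ≤
          ‖aB q (PO Rd α) ⟨l, some j⟩ - aB q (PO Rd α) p‖ * Real.exp (β p)) ∧
      (∑' p : Σ l, Option (I l),
        (open Classical in if p = ⟨l, some j⟩ then 0 else (nuB ν p : ℝ) * β p)) ≤
        -(eta / 16) * ((∑ k ∈ (Finset.range l).filter (fun k => k + 20 * q ^ 2 < l), Nc rho q k)
          - N1 * l) + (9 / 4) * (Cn * (q : ℝ) ^ 2 * Nc rho q l) +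
          Nc rho q l * Real.log (1 + 3 * (q : ℝ) ^ 2 / sg) := by
  classical
  have hq0 : 0 < q := hc.q_pos
  have hRd1 : 1 ≤ Rd := by have := hc.Rd_ge; have := hc.R_nonneg; linarith
  have hRd0 : 0 ≤ Rd := by linarith
  have hqR32 : 32 * Rd ≤ (q : ℝ) := hc.q_ge
  have hq32 : (32 : ℝ) ≤ q := by linarith
  have hqpos : (0 : ℝ) < q := by linarith
  have hq2pos : (0 : ℝ) < (q : ℝ) ^ 2 := by positivity
  have hqR8 : 8 * Rd ≤ (q : ℝ) := by linarith
  obtain ⟨g1, g2, g3⟩ := geom q Rd hRd0 hq0 hqR8 (PO Rd α) hc.sys.bdd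
  set P := PO Rd α with hP
  set a : ℂ := aB q P ⟨l, some j⟩ with ha
  have hAl : 0 < ‖Ac q l‖ := by rw [Ac_norm]; exact Real.exp_pos _
  have hAn : ∀ k, 0 < ‖Ac q k‖ := fun k => by rw [Ac_norm]; exact Real.exp_pos _
  -- size of a
  have haeq : a = Ac q l * (1 + α l j / (q : ℂ) ^ 2) := rfl
  have hsm : ‖α l j / (q : ℂ) ^ 2‖ ≤ 1 / 32 := by
    rw [norm_div, norm_pow, Complex.norm_natCast, div_le_div_iff₀ hq2pos (by norm_num)]
    have h1 := hc.bdd l j
    have h2 : R ≤ (q : ℝ) / 32 := by have := hc.Rd_ge; linarith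
    nlinarith
  have hau : ‖a‖ ≤ (33 / 32) * ‖Ac q l‖ := by
    rw [haeq, norm_mul]
    have h1 : ‖1 + α l j / (q : ℂ) ^ 2‖ ≤ 33 / 32 := by
      refine (norm_add_le _ _).trans ?_
      rw [norm_one]; linarith
    nlinarith
  have hal : (31 / 32) * ‖Ac q l‖ ≤ ‖a‖ := by
    rw [haeq, norm_mul]
    have h1 : 31 / 32 ≤ ‖1 + α l j / (q : ℂ) ^ 2‖ := by
      have h2 := norm_sub_le (1 + α l j / (q : ℂ) ^ 2) (α l j / (q : ℂ) ^ 2)
      rw [add_sub_cancel_right, norm_one] at h2
      linarith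
    nlinarith
  have ha0 : 0 < ‖a‖ := by nlinarith
  -- deep
  have hdeep : ∀ p : Σ l, Option (I l), p.1 + 20 * q ^ 2 < l →
      ‖aB q P p‖ ≤ (1 / 100000000) * ‖a‖ := by
    intro p hp
    have h1 := (g1 p).2
    have h2 : ‖Ac q p.1‖ ≤ Real.exp (-20) * ‖Ac q l‖ := by
      rw [Ac_norm, Ac_norm, ← Real.exp_add]
      apply Real.exp_le_exp.mpr
      have h3 : ((p.1 : ℝ) + 20 * (q : ℝ) ^ 2) ≤ l := by exact_mod_cast hp.le
      rw [div_le_iff₀ hq2pos, add_mul, div_mul_cancel₀ _ hq2pos.ne']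
      linarith
    have h4 : Real.exp (-20) ≤ 1 / 400000000 := by
      rw [Real.exp_neg, inv_eq_one_div]
      apply one_div_le_one_div_of_le (by norm_num)
      have h5 : Real.exp 20 = (Real.exp 1) ^ 20 := by
        rw [← Real.exp_nat_mul]; norm_num
      rw [h5]
      have h6 : (2.7 : ℝ) ≤ Real.exp 1 := by
        have := Real.exp_one_gt_d9; linarith
      calc (400000000 : ℝ) ≤ 2.7 ^ 20 := by norm_num
        _ ≤ _ := pow_le_pow_left₀ (by norm_num) h6 20
    nlinarith
  have hsep : ∀ p : Σ l, Option (I l), p.1 ≠ l → 0 < ‖a - aB q P p‖ := by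
    intro p hp
    have h1 := (g2 ⟨l, some j⟩ p (fun h => hp h.symm)).1
    have h2 := Ac_sep q hq0 l p.1 (fun h => hp h.symm)
    have h3 : 0 < (‖Ac q l‖ + ‖Ac q p.1‖) / (4 * q) := by
      have := hAn p.1
      positivity
    simp only at h1
    rw [← ha] at h1
    linarith
  have hown : ∀ x : Option (I l), x ≠ some j → ‖Ac q l‖ * sg / (q : ℝ) ^ 2 ≤ ‖a - aB q P ⟨l, x⟩‖ := by
    intro x hx
    have h1 := g3 l (some j) x
    rw [← ha] at h1
    rw [h1, norm_div, norm_mul, norm_pow, Complex.norm_natCast]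
    have h2 := hc.sys.sep l (some j) x (fun h => hx h.symm)
    apply div_le_div_of_nonneg_right _ hq2pos.le
    exact mul_le_mul_of_nonneg_left h2 hAl.le
  have hsgp : 0 < sg := hc.sg_pos
  -- definition of beta
  let β : (Σ l, Option (I l)) → ℝ := fun p =>
    if p = ⟨l, some j⟩ then 0 else if p.1 + 20 * q ^ 2 < l then -(eta / 16) else
      if p.1 = l then Real.log (1 + 2 * ‖a‖ / ‖a - aB q P p‖) else 2 * ‖a‖ / ‖a - aB q P p‖
  -- decomposition
  let fd : (Σ l, Option (I l)) → ℝ := fun p =>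
    if p.1 + 20 * q ^ 2 < l then -(eta / 16) * (nuB ν p : ℝ) else 0
  let fo : (Σ l, Option (I l)) → ℝ := fun p =>
    if p.1 = l ∧ p ≠ ⟨l, some j⟩ then (nuB ν p : ℝ) * Real.log (1 + 2 * ‖a‖ / ‖a - aB q P p‖) else 0
  let fn : (Σ l, Option (I l)) → ℝ := fun p =>
    (2 * ‖a‖ / ‖Ac q l‖) * (if p.1 ≠ l ∧ l ≤ p.1 + 20 * q ^ 2 then
        (nuB ν p : ℝ) * ‖Ac q l‖ / ‖a - aB q P p‖ else 0)
  have hdec : ∀ p, (nuB ν p : ℝ) * β p = fd p + (fo p + fn p) := by
    intro p
    by_cases h1 : p = ⟨l, some j⟩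
    · have h2 : p.1 = l := by rw [h1]
      have h3 : ¬ (p.1 + 20 * q ^ 2 < l) := by omega
      simp only [β, fd, fo, fn, if_pos h1, if_neg h3]
      simp [h1]
    · by_cases h3 : p.1 + 20 * q ^ 2 < l
      · have h2 : p.1 ≠ l := by
          intro h; rw [h] at h3; omega
        have h4 : ¬ (p.1 ≠ l ∧ l ≤ p.1 + 20 * q ^ 2) := by
          rintro ⟨_, h⟩; omega
        simp only [β, fd, fo, fn, if_neg h1, if_pos h3, if_neg h4, h2, false_and, if_false]
        ring
      · by_cases h2 : p.1 = l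
        · have h4 : ¬ (p.1 ≠ l ∧ l ≤ p.1 + 20 * q ^ 2) := by
            rintro ⟨h, _⟩; exact h h2
          have h5 : p.1 = l ∧ p ≠ ⟨l, some j⟩ := ⟨h2, h1⟩
          simp only [β, fd, fo, fn, if_neg h1, if_neg h3, if_neg h4, if_pos h2, if_pos h5]
          ring
        · have h4 : (p.1 ≠ l ∧ l ≤ p.1 + 20 * q ^ 2) := ⟨h2, by omega⟩
          have h5 : ¬ (p.1 = l ∧ p ≠ ⟨l, some j⟩) := fun h => h2 h.1
          simp only [β, fd, fo, fn, if_neg h1, if_neg h3, if_pos h4, if_neg h2, if_neg h5]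
          have := hAl.ne'
          field_simp
          ring
  -- summability of the three parts
  have hfd_supp : ∀ p ∉ (((Finset.range l).filter (fun k => k + 20 * q ^ 2 < l)).sigma
      (fun k => (Finset.univ : Finset (Option (I k))))), fd p = 0 := by
    intro p hp
    simp only [fd]
    apply if_neg
    intro h
    apply hp
    simp only [Finset.mem_sigma, Finset.mem_filter, Finset.mem_range, Finset.mem_univ, and_true]
    exact ⟨by omega, h⟩
  have hfo_supp : ∀ p ∉ (({l} : Finset ℕ).sigma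
      (fun k => (Finset.univ : Finset (Option (I k))))), fo p = 0 := by
    intro p hp
    simp only [fo]
    apply if_neg
    rintro ⟨h, _⟩
    apply hp
    simp [h]
  have hsd : Summable fd := summable_of_ne_finset_zero hfd_supp
  have hso : Summable fo := summable_of_ne_finset_zero hfo_supp
  have hsn : Summable fn := hsumn.mul_left _
  have htd : ∑' p, fd p ≤ -(eta / 16) * ((∑ k ∈ (Finset.range l).filter (fun k => k + 20 * q ^ 2 < l),
      Nc rho q k) - N1 * l) := by
    rw [tsum_eq_sum hfd_supp, Finset.sum_sigma]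
    have h1 : ∀ k ∈ (Finset.range l).filter (fun k => k + 20 * q ^ 2 < l),
        ∑ x : Option (I k), fd ⟨k, x⟩ ≤ -(eta / 16) * (Nc rho q k - N1) := by
      intro k hk
      have hk2 : k + 20 * q ^ 2 < l := (Finset.mem_filter.mp hk).2
      simp only [fd, if_pos hk2]
      rw [← Finset.mul_sum]
      have h2 := hc.sys.mass_ge k
      have h3 : (0 : ℝ) < eta / 16 := by unfold eta; norm_num
      have h4 : ∑ x : Option (I k), (nuB ν ⟨k, x⟩ : ℝ) = ∑ x, (ν k x : ℝ) := rfl
      rw [h4]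
      nlinarith
    refine (Finset.sum_le_sum h1).trans ?_
    rw [← Finset.mul_sum, Finset.sum_sub_distrib, Finset.sum_const, nsmul_eq_mul]
    have h3 : (0 : ℝ) < eta / 16 := by unfold eta; norm_num
    have h5 : ((((Finset.range l).filter (fun k => k + 20 * q ^ 2 < l)).card : ℕ) : ℝ) ≤ l := by
      have := Finset.card_filter_le (Finset.range l) (fun k => k + 20 * q ^ 2 < l)
      rw [Finset.card_range] at this
      exact_mod_cast this
    have h6 : (0 : ℝ) ≤ N1 := Nat.cast_nonneg _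
    have h7 := mul_le_mul_of_nonneg_right h5 h6
    nlinarith
  have hto : ∑' p, fo p ≤ Nc rho q l * Real.log (1 + 3 * (q : ℝ) ^ 2 / sg) := by
    rw [tsum_eq_sum hfo_supp, Finset.sum_sigma, Finset.sum_singleton]
    have hlog0 : 0 ≤ Real.log (1 + 3 * (q : ℝ) ^ 2 / sg) := by
      apply Real.log_nonneg
      have : 0 ≤ 3 * (q : ℝ) ^ 2 / sg := by positivity
      linarith
    have h1 : ∀ x : Option (I l), fo ⟨l, x⟩ ≤ (ν l x : ℝ) * Real.log (1 + 3 * (q : ℝ) ^ 2 / sg) := by
      intro x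
      by_cases hx : x = some j
      · simp only [fo, hx]
        simp only [ne_eq, not_true_eq_false, and_false, if_false]
        positivity
      · have h2 : ((⟨l, x⟩ : Σ l, Option (I l)).1 = l ∧ (⟨l, x⟩ : Σ l, Option (I l)) ≠ ⟨l, some j⟩) := by
          refine ⟨rfl, ?_⟩
          intro h
          apply hx
          simpa using h
        simp only [fo, if_pos h2]
        have h3 : (nuB ν ⟨l, x⟩ : ℝ) = (ν l x : ℝ) := rfl
        rw [h3]
        apply mul_le_mul_of_nonneg_left _ (Nat.cast_nonneg _)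
        have h4 := hown x hx
        have h5 : 0 < ‖Ac q l‖ * sg / (q : ℝ) ^ 2 := by positivity
        have h6 : 0 < ‖a - aB q P ⟨l, x⟩‖ := lt_of_lt_of_le h5 h4
        apply Real.log_le_log (by positivity)
        have h7 : 2 * ‖a‖ / ‖a - aB q P ⟨l, x⟩‖ ≤ 3 * (q : ℝ) ^ 2 / sg := by
          rw [div_le_div_iff₀ h6 hsgp]
          have h8 : ‖Ac q l‖ * sg ≤ ‖a - aB q P ⟨l, x⟩‖ * (q : ℝ) ^ 2 := by
            rwa [div_le_iff₀ hq2pos] at h4
          nlinarith
        linarith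
    refine (Finset.sum_le_sum (fun x _ => h1 x)).trans ?_
    rw [← Finset.sum_mul]
    exact mul_le_mul_of_nonneg_right (hc.sys.mass_le l) hlog0
  have htn : ∑' p, fn p ≤ (9 / 4) * (Cn * (q : ℝ) ^ 2 * Nc rho q l) := by
    rw [tsum_mul_left]
    set S := ∑' p : Σ l, Option (I l), (if p.1 ≠ l ∧ l ≤ p.1 + 20 * q ^ 2 then
        (nuB ν p : ℝ) * ‖Ac q l‖ / ‖a - aB q P p‖ else 0) with hS
    have hS0 : 0 ≤ S := by
      apply tsum_nonneg
      intro p
      split_ifs
      · positivity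
      · exact le_refl _
    have h1 : 2 * ‖a‖ / ‖Ac q l‖ ≤ 9 / 4 := by
      rw [div_le_iff₀ hAl]
      linarith
    have h2 : S ≤ Cn * (q : ℝ) ^ 2 * Nc rho q l := hCn
    have h3 : 0 ≤ 2 * ‖a‖ / ‖Ac q l‖ := by positivity
    nlinarith
  refine ⟨β, ?_, ?_, ?_⟩
  · have : (fun p => (nuB ν p : ℝ) * β p) = fun p => fd p + (fo p + fn p) := funext hdec
    rw [this]
    exact hsd.add (hso.add hsn)
  · intro w hw p hp
    by_cases h3 : p.1 + 20 * q ^ 2 < l
    · have h1 := hdeep p h3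
      have hβ : β p = -(eta / 16) := by simp only [β, if_neg hp, if_pos h3]
      rw [hβ]
      have h4 : 1 - eta / 16 ≤ Real.exp (-(eta / 16)) := by
        have := Real.add_one_le_exp (-(eta / 16))
        linarith
      have h5 : ‖w - aB q P p‖ ≤ ‖w‖ + ‖aB q P p‖ := norm_sub_le _ _
      have h6 : ‖a‖ - ‖aB q P p‖ ≤ ‖a - aB q P p‖ := norm_sub_norm_le _ _
      have h7 : (1 - 1 / 100000000) * ‖a‖ ≤ ‖a - aB q P p‖ := by linarith
      have h8 : ‖w - aB q P p‖ ≤ (1 - eta / 4 + 1 / 100000000) * ‖a‖ := by linarith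
      have h9 : (1 - 1 / 100000000) * ‖a‖ * (1 - eta / 16) ≤
          ‖a - aB q P p‖ * Real.exp (-(eta / 16)) := by
        apply mul_le_mul h7 h4
        · unfold eta; norm_num
        · exact norm_nonneg _
      have h10 : (1 - eta / 4 + 1 / 100000000) * ‖a‖ ≤ (1 - 1 / 100000000) * ‖a‖ * (1 - eta / 16) := by
        have h11 : (1 - eta / 4 + 1 / 100000000) ≤ (1 - 1 / 100000000) * (1 - eta / 16) := by
          unfold eta; norm_num
        nlinarith
      linarith
    · have hw2 : ‖w‖ ≤ ‖a‖ := by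
        refine hw.trans ?_
        have : (0 : ℝ) < eta := by unfold eta; norm_num
        nlinarith
      have htri : ‖w - aB q P p‖ ≤ 2 * ‖a‖ + ‖a - aB q P p‖ := by
        have h1 : w - aB q P p = w - a + (a - aB q P p) := by ring
        rw [h1]
        refine (norm_add_le _ _).trans ?_
        have h2 := norm_sub_le w a
        linarith
      by_cases h2 : p.1 = l
      · have hβ : β p = Real.log (1 + 2 * ‖a‖ / ‖a - aB q P p‖) := by
          simp only [β, if_neg hp, if_neg h3, if_pos h2]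
        have hpos : 0 < ‖a - aB q P p‖ := by
          obtain ⟨k, x⟩ := p
          simp only at h2
          subst h2
          have hx : x ≠ some j := by
            intro h; exact hp (by rw [h])
          refine lt_of_lt_of_le ?_ (hown x hx)
          positivity
        rw [hβ, Real.exp_log (by positivity), mul_add, mul_div_cancel₀ _ hpos.ne']
        linarith
      · have hβ : β p = 2 * ‖a‖ / ‖a - aB q P p‖ := by
          simp only [β, if_neg hp, if_neg h3, if_neg h2]
        have hpos := hsep p h2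
        rw [hβ]
        have h4 := Real.add_one_le_exp (2 * ‖a‖ / ‖a - aB q P p‖)
        have h5 := mul_le_mul_of_nonneg_left h4 hpos.le
        have h6 : ‖a - aB q P p‖ * (2 * ‖a‖ / ‖a - aB q P p‖ + 1) = 2 * ‖a‖ + ‖a - aB q P p‖ := by
          rw [mul_add, mul_div_cancel₀ _ hpos.ne', mul_one]
        linarith
  · have h1 : ∀ p : Σ l, Option (I l),
        (if p = ⟨l, some j⟩ then 0 else (nuB ν p : ℝ) * β p) = fd p + (fo p + fn p) := by
      intro p
      rw [← hdec p]
      by_cases h : p = ⟨l, some j⟩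
      · simp only [β, if_pos h, mul_zero]
      · rw [if_neg h]
    have h2 : (∑' p : Σ l, Option (I l),
        (open Classical in if p = ⟨l, some j⟩ then 0 else (nuB ν p : ℝ) * β p)) =
        ∑' p, fd p + (∑' p, fo p + ∑' p, fn p) := by
      rw [← hso.tsum_add hsn, ← hsd.tsum_add (hso.add hsn)]
      apply tsum_congr
      intro p
      rw [← h1 p]
    rw [h2]
    linarith

end

end NevT.J891

namespace NevT

alias inner_beta := J891.inner_beta

end NevT
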