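import Pool.Agent.Helper551.NevDefs
import Pool.Agent.Helper551.NevJ671
import Pool.Agent.Helper551.NevJ672
import Pool.Agent.Helper551.NevJ842
import Pool.Agent.Helper551.NevJ843
import Pool.Agent.Helper551.NevJ845
import Pool.Agent.Helper551.NevJ887
import Pool.Agent.Helper551.NevJ888
import Pool.Agent.Helper551.NevJ889
import Pool.Agent.Helper551.NevJ890
import Pool.Agent.Helper551.NevJ891

set_option autoImplicit false

set_option maxHeartbeats 4000000

open MeasureTheory Filter Topology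

open scoped BigOperators

namespace NevT.Top

noncomputable section

/-! ## finite configurations -/

theorem K_nonneg (L x : ℝ) : 0 ≤ K L x := le_min (Real.sqrt_nonneg _) (sq_nonneg _)

theorem nearS_nonneg {ι : Type} [Fintype ι] (α : ι → ℂ) (μ : ι → ℝ) (hμ : ∀ i, 0 ≤ μ i) (j : ι)
    (L : ℝ) : 0 ≤ nearS α μ j L :=
  Finset.sum_nonneg fun i _ => mul_nonneg (hμ i) (K_nonneg _ _)

theorem fld_lower {ι : Type} [Fintype ι] {la eps sg : ℝ} (hla : 0 < la) {α : ι → ℂ} {μ : ι → ℝ}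
    (hμ : ∀ i, 0 ≤ μ i) {e : ℂ} {j : ι} (hsg : 0 < sg) (hsep : ∀ i, i ≠ j → sg ≤ ‖α i - α j‖)
    (hg : GoodPt la eps α μ e j) : eps ≤ ‖fld α μ e j 0‖ := by
  have h1 := hg.1 (sg / 2) (by positivity)
  have h2 := nearS_nonneg α μ hμ j (sg / 2)
  have h3 : fld α μ e j (sg / 2) = fld α μ e j 0 := by
    unfold fld
    congr 1
    refine Finset.sum_congr rfl fun i _ => ?_
    by_cases h : i = j
    · subst h
      simp
    · have h4 := hsep i h
      have h5 : sg / 2 < ‖α i - α j‖ := by linarith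
      have h6 : 0 < ‖α i - α j‖ := by linarith
      simp [h5, h6]
  rw [h3] at h1
  have h4 : 0 ≤ la * (‖fld α μ e j 0‖ - eps) * (sg / 2) := h2.trans h1
  by_contra hcon
  push Not at hcon
  have : la * (‖fld α μ e j 0‖ - eps) * (sg / 2) < 0 := by
    apply mul_neg_of_neg_of_pos _ (by positivity)
    exact mul_neg_of_pos_of_neg hla (by linarith)
  linarith

theorem fld_upper {ι : Type} [Fintype ι] {sg : ℝ} {α : ι → ℂ} {μ : ι → ℝ}
    (hμ : ∀ i, 0 ≤ μ i) {e : ℂ} (he : ‖e‖ = 1) {j : ι} (hsg : 0 < sg)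
    (hsep : ∀ i, i ≠ j → sg ≤ ‖α i - α j‖) (L : ℝ) (hL : 0 ≤ L) :
    ‖fld α μ e j L‖ ≤ 1 + (∑ i, μ i) / sg := by
  unfold fld
  refine (norm_add_le _ _).trans ?_
  rw [he, Finset.sum_div]
  apply add_le_add_right
  refine norm_sum_le_of_le _ fun i _ => ?_
  split_ifs with h
  · by_cases hij : i = j
    · subst hij
      simp at h
      linarith
    · rw [norm_div, Complex.norm_real, Real.norm_of_nonneg (hμ i), norm_sub_rev]
      have := hsep i hij
      gcongr
      exact hμ i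
  · simp
    exact div_nonneg (hμ i) hsg.le

/-- a complex number which is nearly positive -/
theorem near_pos (X : ℝ) (hX : 0 < X) (z : ℂ) (h : ‖z - X‖ ≤ X * (8 / 100)) :
    ‖z - ((‖z‖ : ℝ) : ℂ)‖ ≤ (1 / 5) * ‖z‖ := by
  have h1 : |‖z‖ - X| ≤ X * (8 / 100) := by
    have := abs_norm_sub_norm_le z (X : ℂ)
    rw [Complex.norm_real, Real.norm_of_nonneg hX.le] at this
    exact this.trans h
  have h2 : ‖z - ((‖z‖ : ℝ) : ℂ)‖ ≤ ‖z - X‖ + ‖(X : ℂ) - ((‖z‖ : ℝ) : ℂ)‖ := by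
    have := norm_add_le (z - X) ((X : ℂ) - ((‖z‖ : ℝ) : ℂ))
    simpa using this
  have h3 : ‖(X : ℂ) - ((‖z‖ : ℝ) : ℂ)‖ ≤ X * (8 / 100) := by
    rw [← Complex.ofReal_sub, Complex.norm_real, Real.norm_eq_abs, abs_sub_comm]
    exact h1
  rw [abs_le] at h1
  linarith [h1.1]

theorem good_zero {rho : ℝ} {q : ℕ} {R Rd sg : ℝ} {N1 : ℕ} {I : ℕ → Type} [∀ l, Fintype (I l)]
    {α : ∀ l, I l → ℂ} {μ : ∀ l, I l → ℝ} {e : ℕ → ℂ} {ν : ∀ l, Option (I l) → ℕ}
    (hc : Ctx rho q R Rd sg N1 α μ e ν) (l : ℕ) (j : I l) (E1 Cn Q eps m s0 : ℝ)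
    (hsum : Summable (fun p' : Σ l, Option (I l) => if p'.1 ≠ l then
        (nuB ν p' : ℂ) / (aB q (PO Rd α) ⟨l, some j⟩ - aB q (PO Rd α) p') else 0))
    (hE1 : ‖(Ac q l / (q : ℂ) ^ 2) * (∑' p' : Σ l, Option (I l), if p'.1 ≠ l then
        (nuB ν p' : ℂ) / (aB q (PO Rd α) ⟨l, some j⟩ - aB q (PO Rd α) p') else 0) -
          Bf rho q l‖ ≤ E1)
    (hsumn : Summable (fun p' : Σ l, Option (I l) => if p'.1 ≠ l ∧ l ≤ p'.1 + 20 * q ^ 2 then
        (nuB ν p' : ℝ) * ‖Ac q l‖ / ‖aB q (PO Rd α) ⟨l, some j⟩ - aB q (PO Rd α) p'‖ else 0))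
    (hCn : ∑' p' : Σ l, Option (I l), (if p'.1 ≠ l ∧ l ≤ p'.1 + 20 * q ^ 2 then
        (nuB ν p' : ℝ) * ‖Ac q l‖ / ‖aB q (PO Rd α) ⟨l, some j⟩ - aB q (PO Rd α) p'‖ else 0) ≤
        Cn * (q : ℝ) ^ 2 * Nc rho q l)
    (hsumq : Summable (fun p' : Σ l, Option (I l) => if p'.1 ≠ l then
        (nuB ν p' : ℝ) / ‖aB q (PO Rd α) ⟨l, some j⟩ - aB q (PO Rd α) p'‖ ^ 2 else 0))
    (hQ : (∑' p' : Σ l, Option (I l), if p'.1 ≠ l then
        (nuB ν p' : ℝ) / ‖aB q (PO Rd α) ⟨l, some j⟩ - aB q (PO Rd α) p'‖ ^ 2 else 0) ≤ Q)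
    (hCn0 : 0 < Cn)
    (hm : ∑ i, μ l i = m) (hm1 : m ≤ 1)
    (heps : 0 < eps) (heps1 : eps ≤ 1) (hs0 : 0 < s0)
    (hgood : GoodPt lam eps (α l) (μ l) (e l) j) (hμj : s0 ≤ μ l j)
    (n0 : ‖Bf rho q l * ((rho / Nc rho q l : ℝ) : ℂ) - 1‖ ≤ 1 / 50)
    (n1 : 2 ≤ ‖Bf rho q l‖ * s0)
    (n3 : N1 / sg + Nc rho q l / (Rd - R) + E1 ≤ ‖Bf rho q l‖ * eps / 4)
    (n4 : Cn * Nc rho q l + E1 ≤ ‖Bf rho q l‖ / 50)
    (n5 : Nc rho q l / (Rd - R) + (‖Ac q l‖ / (8 * q)) * Q * (‖Ac q l‖ / (q : ℝ) ^ 2) ≤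
      lam * ‖Bf rho q l‖ * eps / 2)
    (n6a : m * Real.sqrt (8 / (q * sg)) ≤ lam / 10)
    (n6b : Nc rho q l / (Rd - R) ≤ lam / 10 * ‖Bf rho q l‖)
    (n6c : Cn * Nc rho q l ≤ lam / 10 * ‖Bf rho q l‖)
    (n7b : 14 * m ≤ 3 * eps / 4 * (Rd - R))
    (n7c : 150 * m ≤ q * eps)
    (n8 : 18 * m ≤ eps * eta * (q : ℝ) ^ 2 * (9 / 10))
    (n9 : 100000 ≤ q)
    (n10a : (q : ℝ) ^ 2 * Nc rho q l / (2 * rho) ≤
      (∑ k ∈ (Finset.range l).filter (fun k => k + 20 * q ^ 2 < l), Nc rho q k) - N1 * l)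
    (n10b : (9 / 4) * Cn * (q : ℝ) ^ 2 + Real.log (1 + 3 * (q : ℝ) ^ 2 / sg) +
      (Real.log (5 * (q : ℝ) ^ 2 * (2 + m / sg) / s0) + 3) ≤ (eta / 32) * (q : ℝ) ^ 2 / rho) :
    GoodZ (aB q (PO Rd α)) (nuB ν) ⟨l, some j⟩ ∧
      (‖Bf rho q l‖ * μ l j - 1) * (‖Ac q l‖ / (q : ℝ) ^ 2) ≤
        sz (aB q (PO Rd α)) (nuB ν) ⟨l, some j⟩ *
          (‖Bf rho q l‖ * (‖fld (α l) (μ l) (e l) j 0‖ + eps / 4)) := by
  have hlam : (0 : ℝ) < lam := by unfold lam; norm_num
  have hq0 : (0 : ℝ) < (q : ℝ) := by exact_mod_cast hc.q_pos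
  have hqC : (q : ℂ) ≠ 0 := by exact_mod_cast hc.q_pos.ne'
  have hrho := hc.rho_pos
  have hR0 := hc.R_nonneg
  have hRd := hc.Rd_ge
  have hq32 := hc.q_ge
  have hsg := hc.sg_pos
  have hsg1 := hc.sg_le
  have hN : 0 < Nc rho q l := Real.exp_pos _
  have hA0 : 0 < ‖Ac q l‖ := by rw [Ac_norm]; exact Real.exp_pos _
  have hAne : Ac q l ≠ 0 := norm_pos_iff.1 hA0
  have hgeo := geom q Rd (by linarith) hc.q_pos (by linarith) (PO Rd α) hc.sys.bdd
  -- abbreviations
  obtain ⟨N, hNdef⟩ : ∃ N, N = Nc rho q l := ⟨_, rfl⟩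
  obtain ⟨A0, hA0def⟩ : ∃ A0, A0 = ‖Ac q l‖ := ⟨_, rfl⟩
  obtain ⟨b, hbdef⟩ : ∃ b, b = ‖Bf rho q l‖ := ⟨_, rfl⟩
  obtain ⟨D, hDdef⟩ : ∃ D, D = A0 / (q : ℝ) ^ 2 := ⟨_, rfl⟩
  obtain ⟨F0, hF0def⟩ : ∃ F0, F0 = ‖fld (α l) (μ l) (e l) j 0‖ := ⟨_, rfl⟩
  obtain ⟨p0, hp0⟩ : ∃ p0 : Σ l, Option (I l), p0 = ⟨l, some j⟩ := ⟨_, rfl⟩
  obtain ⟨G0, hG0def⟩ : ∃ G0, G0 = ‖Fz (aB q (PO Rd α)) (nuB ν) p0 0‖ := ⟨_, rfl⟩
  obtain ⟨c, hcdef⟩ : ∃ c : ℂ, c = Ac q l / (q : ℂ) ^ 2 := ⟨_, rfl⟩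
  have hcn : ‖c‖ = D := by
    rw [hcdef, norm_div, norm_pow, Complex.norm_natCast, hDdef, hA0def]
  rw [← hNdef] at n0 n3 n4 n5 n6b n6c n10a hN
  rw [← hA0def] at n5 hA0
  rw [← hbdef] at n1 n3 n4 n5 n6b n6c
  have hD : 0 < D := by rw [hDdef]; positivity
  rw [← hDdef] at n5
  -- size of b
  have hb1 : 49 / 50 * (N / rho) ≤ b ∧ b ≤ 51 / 50 * (N / rho) := by
    have h1 : ‖Bf rho q l * ((rho / N : ℝ) : ℂ)‖ = b * (rho / N) := by
      rw [norm_mul, Complex.norm_real, Real.norm_of_nonneg (by positivity), hbdef]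
    have h2 := abs_norm_sub_norm_le (Bf rho q l * ((rho / N : ℝ) : ℂ)) 1
    rw [h1, norm_one] at h2
    have h3 := abs_le.1 (h2.trans n0)
    have h4 : b = b * (rho / N) * (N / rho) := by field_simp
    have h5 : 0 < N / rho := by positivity
    constructor
    · rw [h4]; exact mul_le_mul_of_nonneg_right (by linarith [h3.1]) h5.le
    · calc b = b * (rho / N) * (N / rho) := h4
        _ ≤ 51 / 50 * (N / rho) := mul_le_mul_of_nonneg_right (by linarith [h3.2]) h5.le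
  have hb : 0 < b := by
    have : 0 < 49 / 50 * (N / rho) := by positivity
    linarith [hb1.1]
  -- local data
  have hsepα : ∀ i, i ≠ j → sg ≤ ‖α l i - α l j‖ := fun i hij =>
    hc.sys.sep l (some i) (some j) (by simpa using hij)
  have hF0 : eps ≤ F0 := by
    rw [hF0def]; exact fld_lower hlam (hc.mu_nonneg l) hsg hsepα hgood
  have hF0u : F0 ≤ 1 + m / sg := by
    rw [hF0def, ← hm]; exact fld_upper (hc.mu_nonneg l) (hc.e_norm l) hsg hsepα 0 le_rfl
  have hμjm : μ l j ≤ m := by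
    rw [← hm]; exact Finset.single_le_sum (fun i _ => hc.mu_nonneg l i) (Finset.mem_univ j)
  have hm0 : 0 < m := lt_of_lt_of_le hs0 (hμj.trans hμjm)
  have hνval : nuB ν p0 = ⌊b * μ l j⌋₊ := by
    rw [hp0, hbdef]; exact hc.nu_some l j
  have hνle : (nuB ν p0 : ℝ) ≤ b * μ l j := by
    rw [hνval]; exact Nat.floor_le (mul_nonneg hb.le (hc.mu_nonneg l j))
  have hνge : b * μ l j - 1 ≤ (nuB ν p0 : ℝ) := by
    rw [hνval]; exact (Nat.sub_one_lt_floor _).le
  have hνN : (nuB ν p0 : ℝ) ≤ N := by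
    rw [hNdef]
    refine le_trans ?_ (hc.sys.mass_le l)
    rw [hp0]
    exact Finset.single_le_sum (f := fun x => (ν l x : ℝ)) (fun i _ => by positivity)
      (Finset.mem_univ (some j))
  have hνpos : 1 ≤ (nuB ν p0 : ℝ) := by
    have : b * s0 ≤ b * μ l j := mul_le_mul_of_nonneg_left hμj hb.le
    linarith
  -- the norm of a
  have hαn : ‖α l j / (q : ℂ) ^ 2‖ ≤ 1 / 100000 := by
    rw [norm_div, norm_pow, Complex.norm_natCast, div_le_div_iff₀ (by positivity) (by norm_num)]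
    have h1 := hc.bdd l j
    have h2 : (100000 : ℝ) ≤ q := by exact_mod_cast n9
    have h3 : ‖α l j‖ ≤ q := by linarith
    calc ‖α l j‖ * 100000 ≤ q * q := mul_le_mul h3 h2 (by norm_num) (by positivity)
      _ = 1 * (q : ℝ) ^ 2 := by ring
  have haeq : aB q (PO Rd α) p0 = Ac q l * (1 + α l j / (q : ℂ) ^ 2) := by
    rw [hp0]; rfl
  have hanorm : (31 / 32) * A0 ≤ ‖aB q (PO Rd α) p0‖ ∧ ‖aB q (PO Rd α) p0‖ ≤ (33 / 32) * A0 := by
    rw [haeq, norm_mul, ← hA0def]
    have h1 := norm_add_le (1 : ℂ) (α l j / (q : ℂ) ^ 2)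
    have h2 := norm_sub_norm_le (1 : ℂ) (-(α l j / (q : ℂ) ^ 2))
    rw [norm_neg, sub_neg_eq_add] at h2
    rw [norm_one] at h1 h2
    have h3 : 31 / 32 ≤ ‖1 + α l j / (q : ℂ) ^ 2‖ := by linarith
    have h4 : ‖1 + α l j / (q : ℂ) ^ 2‖ ≤ 33 / 32 := by linarith
    have h5 := mul_le_mul_of_nonneg_left h3 hA0.le
    have h6 := mul_le_mul_of_nonneg_left h4 hA0.le
    constructor <;> linarith
  -- the field at distance 0
  have hFz : ∀ L : ℝ, 0 ≤ L → 8 * (q : ℝ) * L ≤ A0 →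
      ‖c * Fz (aB q (PO Rd α)) (nuB ν) p0 L -
        (b : ℂ) * fld (α l) (μ l) (e l) j (L / D)‖ ≤ b * eps / 4 := by
    intro L hL hLs
    have h1 := fz_small hc l j E1 hsum hE1 L hL (by rw [← hA0def]; exact hLs)
    rw [← hcdef, ← hp0, ← hbdef, ← hA0def, ← hDdef, ← hNdef] at h1
    exact h1.trans n3
  have hFlow : ∀ L : ℝ, 0 ≤ L → 8 * (q : ℝ) * L ≤ A0 →
      b * (‖fld (α l) (μ l) (e l) j (L / D)‖ - eps / 4) ≤
        D * ‖Fz (aB q (PO Rd α)) (nuB ν) p0 L‖ ∧
      D * ‖Fz (aB q (PO Rd α)) (nuB ν) p0 L‖ ≤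
        b * (‖fld (α l) (μ l) (e l) j (L / D)‖ + eps / 4) := by
    intro L hL hLs
    have h1 := (abs_norm_sub_norm_le _ _).trans (hFz L hL hLs)
    rw [norm_mul, norm_mul, hcn, Complex.norm_real, Real.norm_of_nonneg hb.le, abs_le] at h1
    constructor <;> linarith [h1.1, h1.2]
  have hG0 : b * (F0 - eps / 4) ≤ D * G0 ∧ D * G0 ≤ b * (F0 + eps / 4) := by
    have := hFlow 0 le_rfl (by simpa using hA0.le)
    rw [zero_div, ← hF0def, ← hG0def] at this
    exact this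
  have hG0pos : 0 < G0 := by
    have h1 : 0 < b * (F0 - eps / 4) := mul_pos hb (by linarith)
    have h2 : 0 < D * G0 := lt_of_lt_of_le h1 hG0.1
    exact (pos_iff_pos_of_mul_pos h2).1 hD
  have hszdef : sz (aB q (PO Rd α)) (nuB ν) p0 = (nuB ν p0 : ℝ) / G0 := by
    unfold sz; rw [hG0def]
  obtain ⟨s, hsdef⟩ : ∃ s, s = sz (aB q (PO Rd α)) (nuB ν) p0 := ⟨_, rfl⟩
  have hs : s = (nuB ν p0 : ℝ) / G0 := by rw [hsdef, hszdef]
  have hspos : 0 < s := by rw [hs]; positivity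
  have hsG : s * G0 = (nuB ν p0 : ℝ) := by rw [hs]; field_simp
  -- upper bound of s
  have hsle : s * (F0 - eps / 4) ≤ D * μ l j := by
    have h1 : s * (b * (F0 - eps / 4)) ≤ s * (D * G0) := mul_le_mul_of_nonneg_left hG0.1 hspos.le
    have h2 : s * (D * G0) = D * (nuB ν p0 : ℝ) := by rw [← hsG]; ring
    have h3 : D * (nuB ν p0 : ℝ) ≤ D * (b * μ l j) := mul_le_mul_of_nonneg_left hνle hD.le
    have h4 : b * (s * (F0 - eps / 4)) ≤ b * (D * μ l j) := by linarith
    exact le_of_mul_le_mul_left h4 hb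
  have hsle2 : s * (3 * eps / 4) ≤ D * m := by
    have h1 : s * (3 * eps / 4) ≤ s * (F0 - eps / 4) :=
      mul_le_mul_of_nonneg_left (by linarith) hspos.le
    have h2 : D * μ l j ≤ D * m := mul_le_mul_of_nonneg_left hμjm hD.le
    linarith
  -- lower bound of s
  have hsge : (b * μ l j - 1) * D ≤ s * (b * (F0 + eps / 4)) := by
    have h1 : s * (D * G0) ≤ s * (b * (F0 + eps / 4)) := mul_le_mul_of_nonneg_left hG0.2 hspos.le
    have h2 : s * (D * G0) = D * (nuB ν p0 : ℝ) := by rw [← hsG]; ring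
    have h3 : D * (b * μ l j - 1) ≤ D * (nuB ν p0 : ℝ) := mul_le_mul_of_nonneg_left hνge hD.le
    linarith
  have hDq : D * (q : ℝ) ^ 2 = A0 := by rw [hDdef]; field_simp
  have hsmall : 13 * s ≤ eta * ‖aB q (PO Rd α) p0‖ := by
    have h1 : 18 * (D * m) ≤ eps * eta * (9 / 10) * A0 := by
      calc 18 * (D * m) = D * (18 * m) := by ring
        _ ≤ D * (eps * eta * (q : ℝ) ^ 2 * (9 / 10)) := mul_le_mul_of_nonneg_left n8 hD.le
        _ = eps * eta * (9 / 10) * (D * (q : ℝ) ^ 2) := by ring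
        _ = _ := by rw [hDq]
    have heta : (0 : ℝ) < eta := by unfold eta; norm_num
    have h2 : eps * (13 * s) ≤ eps * (eta * (9 / 10) * A0) := by
      linarith [mul_pos hD hm0]
    have h3 := le_of_mul_le_mul_left h2 heps
    have h4 : eta * ((31 / 32) * A0) ≤ eta * ‖aB q (PO Rd α) p0‖ :=
      mul_le_mul_of_nonneg_left hanorm.1 heta.le
    linarith [mul_pos heta hA0]
  refine ⟨?_, ?_⟩
  swap
  · rw [← hp0, ← hbdef, ← hF0def, ← hA0def, ← hDdef, ← hsdef]
    exact hsge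
  rw [← hp0]
  -- large L
  have hFzL : ∀ L : ℝ, A0 ≤ 8 * (q : ℝ) * L → L ≤ eta * ‖aB q (PO Rd α) p0‖ →
      ‖c * Fz (aB q (PO Rd α)) (nuB ν) p0 L - Bf rho q l‖ ≤ b / 50 := by
    intro L hL hLe
    have h1 := fz_large hc l j E1 Cn hsum hE1 hsumn hCn L (by rw [← hA0def]; exact hL)
      (by rw [← hp0]; exact hLe)
    rw [← hcdef, ← hp0, ← hNdef] at h1
    exact h1.trans n4
  have heta : eta = 1 / 100000 := rfl
  have hlameq : lam = 1 / 2000 := rfl
  refine ⟨?_, ?_, ?_, ?_, ?_, ?_⟩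
  · -- pos
    rw [← hG0def]; exact hG0pos
  · -- small
    rw [← hsdef]; exact hsmall
  · -- near
    intro L hL hLe
    rcases le_total (8 * (q : ℝ) * L) A0 with hLs | hLs
    · have h1 := sz_small hc l j Q hsumq hQ L hL (by rw [← hA0def]; exact hLs)
      rw [← hp0, ← hbdef, ← hA0def, ← hDdef, ← hNdef] at h1
      have h2 := hgood.1 (L / D) (by positivity)
      have h3 := (hFlow L hL.le hLs).1
      obtain ⟨f, hf⟩ : ∃ f, f = ‖fld (α l) (μ l) (e l) j (L / D)‖ := ⟨_, rfl⟩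
      rw [← hf] at h2 h3
      have h4 : b * nearS (α l) (μ l) j (L / D) ≤ b * (lam * (f - eps) * (L / D)) :=
        mul_le_mul_of_nonneg_left h2 hb.le
      have h5 : L * N / (D * (Rd - R)) + L * (A0 / (8 * q)) * Q =
          (L / D) * (N / (Rd - R) + (A0 / (8 * q)) * Q * D) := by
        have : Rd - R ≠ 0 := by linarith
        field_simp
      have h6 : (L / D) * (N / (Rd - R) + (A0 / (8 * q)) * Q * D) ≤
          (L / D) * (lam * b * eps / 2) := mul_le_mul_of_nonneg_left n5 (by positivity)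
      have h7 : lam * (L / D) * (b * (f - eps / 4)) ≤
          lam * (L / D) * (D * ‖Fz (aB q (PO Rd α)) (nuB ν) p0 L‖) :=
        mul_le_mul_of_nonneg_left h3 (by positivity)
      have h8 : lam * (L / D) * (D * ‖Fz (aB q (PO Rd α)) (nuB ν) p0 L‖) =
          lam * ‖Fz (aB q (PO Rd α)) (nuB ν) p0 L‖ * L := by field_simp
      have h9 : 0 ≤ (L / D) * (lam * b * eps / 4) := by positivity
      calc Sz (aB q (PO Rd α)) (nuB ν) p0 L
          ≤ b * nearS (α l) (μ l) j (L / D) + (L * N / (D * (Rd - R)) + L * (A0 / (8 * q)) * Q) := by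
            linarith
        _ ≤ b * (lam * (f - eps) * (L / D)) + (L / D) * (lam * b * eps / 2) := by
            rw [h5]; linarith
        _ = lam * (L / D) * (b * (f - eps / 4)) - (L / D) * (lam * b * eps / 4) := by ring
        _ ≤ lam * ‖Fz (aB q (PO Rd α)) (nuB ν) p0 L‖ * L := by
            rw [← h8]; linarith
    · have h1 := sz_large hc l j Cn hsumn hCn L hL
      rw [← hp0, ← hbdef, ← hA0def, ← hDdef, ← hNdef, hm] at h1
      have h3 : 49 / 50 * b ≤ D * ‖Fz (aB q (PO Rd α)) (nuB ν) p0 L‖ := by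
        have := (abs_norm_sub_norm_le _ _).trans (hFzL L hLs hLe)
        rw [norm_mul, hcn, ← hbdef, abs_le] at this
        linarith [this.1]
      -- the four terms
      have t1 : b * m * Real.sqrt (L / (D * sg)) ≤ lam / 10 * (b * (L / D)) := by
        have e1 : L / (D * sg) ≤ (L / D) ^ 2 * (8 / (q * sg)) := by
          rw [div_pow, div_mul_div_comm, div_le_div_iff₀ (by positivity) (by positivity)]
          have e2 : D * q ≤ 8 * L := by
            rw [hDdef]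
            rw [div_mul_eq_mul_div, div_le_iff₀ (by positivity)]
            calc A0 * (q : ℝ) ≤ (8 * (q : ℝ) * L) * q := mul_le_mul_of_nonneg_right hLs hq0.le
              _ = 8 * L * (q : ℝ) ^ 2 := by ring
          have e3 : 0 ≤ L * D * sg := by positivity
          calc L * (D ^ 2 * (q * sg)) = (L * D * sg) * (D * q) := by ring
            _ ≤ (L * D * sg) * (8 * L) := mul_le_mul_of_nonneg_left e2 e3
            _ = L ^ 2 * 8 * (D * sg) := by ring
        have e4 : Real.sqrt (L / (D * sg)) ≤ (L / D) * Real.sqrt (8 / (q * sg)) := by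
          rw [← Real.sqrt_sq (by positivity : (0 : ℝ) ≤ L / D), ← Real.sqrt_mul (by positivity)]
          apply Real.sqrt_le_sqrt
          exact e1
        calc b * m * Real.sqrt (L / (D * sg)) ≤ b * m * ((L / D) * Real.sqrt (8 / (q * sg))) :=
              mul_le_mul_of_nonneg_left e4 (by positivity)
          _ = b * (L / D) * (m * Real.sqrt (8 / (q * sg))) := by ring
          _ ≤ b * (L / D) * (lam / 10) := mul_le_mul_of_nonneg_left n6a (by positivity)
          _ = _ := by ring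
      have t2 : L * N / (D * (Rd - R)) ≤ lam / 10 * (b * (L / D)) := by
        have e1 : L * N / (D * (Rd - R)) = (L / D) * (N / (Rd - R)) := by
          have : Rd - R ≠ 0 := by linarith
          field_simp
        rw [e1]
        calc (L / D) * (N / (Rd - R)) ≤ (L / D) * (lam / 10 * b) :=
              mul_le_mul_of_nonneg_left n6b (by positivity)
          _ = _ := by ring
      have t3 : (L / A0) * (Cn * (q : ℝ) ^ 2 * N) ≤ lam / 10 * (b * (L / D)) := by
        have e1 : (L / A0) * (Cn * (q : ℝ) ^ 2 * N) = (L / D) * (Cn * N) := by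
          rw [hDdef]; field_simp
        rw [e1]
        calc (L / D) * (Cn * N) ≤ (L / D) * (lam / 10 * b) :=
              mul_le_mul_of_nonneg_left n6c (by positivity)
          _ = _ := by ring
      have t4 : 5 * (L / A0) ^ 2 * ((q : ℝ) ^ 2 / rho * N) ≤ lam * (2 / 10) * (b * (L / D)) := by
        have e1 : 5 * (L / A0) ^ 2 * ((q : ℝ) ^ 2 / rho * N) =
            5 * (L / A0) * (N / rho) * (L / D) := by
          rw [hDdef]; field_simp
        have e2 : L / A0 ≤ (33 / 32) / 100000 := by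
          rw [div_le_iff₀ hA0]
          rw [heta] at hLe
          linarith [hanorm.2]
        have e3 : N / rho ≤ 50 / 49 * b := by linarith [hb1.1]
        rw [e1]
        have e4 : 5 * (L / A0) * (N / rho) ≤ 5 * ((33 / 32) / 100000) * (50 / 49 * b) := by
          apply mul_le_mul _ e3 (by positivity) (by positivity)
          linarith
        calc 5 * (L / A0) * (N / rho) * (L / D) ≤
              5 * ((33 / 32) / 100000) * (50 / 49 * b) * (L / D) :=
              mul_le_mul_of_nonneg_right e4 (by positivity)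
          _ = (5 * ((33 / 32) / 100000) * (50 / 49)) * (b * (L / D)) := by ring
          _ ≤ lam * (2 / 10) * (b * (L / D)) := by
              apply mul_le_mul_of_nonneg_right _ (by positivity)
              rw [hlameq]
              norm_num
      have h8 : lam * (L / D) * (D * ‖Fz (aB q (PO Rd α)) (nuB ν) p0 L‖) =
          lam * ‖Fz (aB q (PO Rd α)) (nuB ν) p0 L‖ * L := by field_simp
      have h7 : lam * (L / D) * (49 / 50 * b) ≤
          lam * (L / D) * (D * ‖Fz (aB q (PO Rd α)) (nuB ν) p0 L‖) :=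
        mul_le_mul_of_nonneg_left h3 (by positivity)
      have h9 : 0 ≤ b * (L / D) := by positivity
      rw [← h8]
      refine le_trans ?_ h7
      rw [hlameq] at t1 t2 t3 t4 ⊢
      linarith
  · -- sep
    intro p hp
    rw [← hsdef]
    obtain ⟨k, x⟩ := p
    by_cases hk : k = l
    · subst hk
      have h1 : ‖aB q (PO Rd α) ⟨k, x⟩ - aB q (PO Rd α) p0‖ = D * ‖PO Rd α k x - α k j‖ := by
        rw [hp0, hgeo.2.2 k x (some j), norm_div, norm_mul, norm_pow, Complex.norm_natCast,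
          ← hA0def, hDdef]
        simp only [PO, Option.elim]
        ring
      rw [h1]
      cases x with
      | none =>
        have h2 : Rd - R ≤ ‖PO Rd α k none - α k j‖ := by
          have h3 := norm_sub_norm_le (PO Rd α k none) (α k j)
          have h4 : ‖PO Rd α k none‖ = Rd := by
            simp only [PO, Option.elim]
            rw [Complex.norm_real, Real.norm_of_nonneg (by linarith)]
          rw [h4] at h3
          linarith [hc.bdd k j]
        have h5 : 14 * s * (3 * eps / 4) ≤ D * (Rd - R) * (3 * eps / 4) := by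
          have := mul_le_mul_of_nonneg_left n7b hD.le
          linarith
        have h6 := le_of_mul_le_mul_right h5 (by positivity)
        exact h6.trans (mul_le_mul_of_nonneg_left h2 hD.le)
      | some i =>
        have hij : i ≠ j := by
          intro h
          apply hp
          rw [hp0, h]
        have h2 := hgood.2 i hij
        have h3 : PO Rd α k (some i) = α k i := rfl
        rw [h3]
        rw [← hF0def] at h2
        have h4 : 0 < F0 - eps / 4 := by linarith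
        have h5 : 14 * s * (F0 - eps / 4) ≤ D * ‖α k i - α k j‖ * (F0 - eps / 4) := by
          have h6 : ‖α k i - α k j‖ * (F0 - eps) ≤ ‖α k i - α k j‖ * (F0 - eps / 4) :=
            mul_le_mul_of_nonneg_left (by linarith) (norm_nonneg _)
          have h7 := mul_le_mul_of_nonneg_left (h2.trans h6) hD.le
          linarith
        exact le_of_mul_le_mul_right h5 h4
    · have hne : (⟨k, x⟩ : Σ l, Option (I l)).1 ≠ p0.1 := by rw [hp0]; exact hk
      have h1 := (hgeo.2.1 ⟨k, x⟩ p0 hne).1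
      have h2 := Ac_sep q hc.q_pos k l hk
      have h3 : p0.1 = l := by rw [hp0]
      rw [h3] at h1
      have h4 : A0 / (8 * q) ≤ ‖aB q (PO Rd α) ⟨k, x⟩ - aB q (PO Rd α) p0‖ := by
        refine le_trans ?_ h1
        rw [← hA0def] at h2
        have h5 : A0 / (4 * q) ≤ (‖Ac q k‖ + A0) / (4 * q) := by
          gcongr
          linarith [norm_nonneg (Ac q k)]
        have h6 : A0 / (8 * q) = A0 / (4 * q) / 2 := by ring
        rw [h6]
        simp only at h1 ⊢
        linarith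
      refine le_trans ?_ h4
      rw [le_div_iff₀ (by positivity)]
      have h5 : 14 * s * (8 * q) * (3 * eps / 4) ≤ A0 * (3 * eps / 4) := by
        have h6 : 14 * s * (8 * q) * (3 * eps / 4) ≤ 14 * (8 * q) * (D * m) := by
          have := mul_le_mul_of_nonneg_left hsle2 (by positivity : (0 : ℝ) ≤ 14 * (8 * q))
          linarith
        have h7 : 14 * (8 * q) * (D * m) = 112 * m * (D * q) := by ring
        have h8 : 150 * m * (D * q) ≤ eps * A0 := by
          calc 150 * m * (D * q) ≤ q * eps * (D * q) := mul_le_mul_of_nonneg_right n7c (by positivity)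
            _ = eps * (D * (q : ℝ) ^ 2) := by ring
            _ = eps * A0 := by rw [hDq]
        linarith [mul_pos heps hA0]
      exact le_of_mul_le_mul_right h5 (by positivity)
  · -- inner
    obtain ⟨β, hβ1, hβ2, hβ3⟩ := inner_beta hc l j Cn hsumn hCn
    rw [← hp0] at hβ2 hβ3
    refine ⟨β, hβ1, hβ2, ?_⟩
    rw [← hNdef] at hβ3
    rw [← hsdef]
    -- bound of the logarithm
    have hX : 2 * ‖aB q (PO Rd α) p0‖ / s ≤ 5 * (q : ℝ) ^ 2 * (2 + m / sg) / s0 := by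
      rw [div_le_div_iff₀ hspos hs0]
      have h1 : b * s0 / 2 ≤ b * μ l j - 1 := by
        have : b * s0 ≤ b * μ l j := mul_le_mul_of_nonneg_left hμj hb.le
        linarith
      have h2 : b * (s0 / 2 * D) ≤ b * (s * (2 + m / sg)) := by
        have h3 : (b * s0 / 2) * D ≤ (b * μ l j - 1) * D := mul_le_mul_of_nonneg_right h1 hD.le
        have h4 : s * (b * (F0 + eps / 4)) ≤ s * (b * (2 + m / sg)) := by
          apply mul_le_mul_of_nonneg_left _ hspos.le
          apply mul_le_mul_of_nonneg_left _ hb.le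
          linarith
        linarith
      have h5 := le_of_mul_le_mul_left h2 hb
      have h6 : 2 * ‖aB q (PO Rd α) p0‖ * s0 ≤ (33 / 16) * (D * (q : ℝ) ^ 2) * s0 := by
        rw [hDq]
        have := mul_le_mul_of_nonneg_right hanorm.2 hs0.le
        linarith
      have h7 : (33 / 16) * (D * (q : ℝ) ^ 2) * s0 = (33 / 8) * (q : ℝ) ^ 2 * (s0 / 2 * D) := by ring
      have h8 : (33 / 8) * (q : ℝ) ^ 2 * (s0 / 2 * D) ≤ (33 / 8) * (q : ℝ) ^ 2 * (s * (2 + m / sg)) :=
        mul_le_mul_of_nonneg_left h5 (by positivity)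
      have h9 : 0 ≤ (q : ℝ) ^ 2 * (s * (2 + m / sg)) := by positivity
      linarith
    have hX0 : 1 ≤ 2 * ‖aB q (PO Rd α) p0‖ / s := by
      rw [le_div_iff₀ hspos]
      rw [heta] at hsmall
      linarith [norm_nonneg (aB q (PO Rd α) p0)]
    have hlog : Real.log (2 * ‖aB q (PO Rd α) p0‖ / s) ≤
        Real.log (5 * (q : ℝ) ^ 2 * (2 + m / sg) / s0) := Real.log_le_log (by linarith) hX
    have hlog0 : 0 ≤ Real.log (2 * ‖aB q (PO Rd α) p0‖ / s) := Real.log_nonneg hX0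
    have h1 : (nuB ν p0 : ℝ) * (Real.log (2 * ‖aB q (PO Rd α) p0‖ / s) + 3) ≤
        N * (Real.log (5 * (q : ℝ) ^ 2 * (2 + m / sg) / s0) + 3) := by
      apply mul_le_mul hνN (by linarith) (by linarith) hN.le
    have h2 : N * ((9 / 4) * Cn * (q : ℝ) ^ 2 + Real.log (1 + 3 * (q : ℝ) ^ 2 / sg) +
      (Real.log (5 * (q : ℝ) ^ 2 * (2 + m / sg) / s0) + 3)) ≤ N * ((eta / 32) * (q : ℝ) ^ 2 / rho) :=
      mul_le_mul_of_nonneg_left n10b hN.le
    have heta0 : (0 : ℝ) < eta := by rw [heta]; norm_num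
    have h3 : (eta / 16) * ((q : ℝ) ^ 2 * N / (2 * rho)) ≤ (eta / 16) *
        ((∑ k ∈ (Finset.range l).filter (fun k => k + 20 * q ^ 2 < l), Nc rho q k) - N1 * l) :=
      mul_le_mul_of_nonneg_left n10a (by positivity)
    have h4 : (eta / 16) * ((q : ℝ) ^ 2 * N / (2 * rho)) = N * ((eta / 32) * (q : ℝ) ^ 2 / rho) := by
      field_simp
      ring
    rw [h4] at h3
    have h5 : -(nuB ν p0 : ℝ) * (Real.log (2 * ‖aB q (PO Rd α) p0‖ / s) + 3) =
        -((nuB ν p0 : ℝ) * (Real.log (2 * ‖aB q (PO Rd α) p0‖ / s) + 3)) := by ring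
    rw [h5]
    refine (le_of_eq (tsum_congr fun p => ?_)).trans (hβ3.trans ?_)
    · by_cases hpp : p = p0 <;> simp [hpp]
    have h6 : (9 / 4) * (Cn * (q : ℝ) ^ 2 * N) + N * Real.log (1 + 3 * (q : ℝ) ^ 2 / sg) +
        N * (Real.log (5 * (q : ℝ) ^ 2 * (2 + m / sg) / s0) + 3) =
        N * ((9 / 4) * Cn * (q : ℝ) ^ 2 + Real.log (1 + 3 * (q : ℝ) ^ 2 / sg) +
        (Real.log (5 * (q : ℝ) ^ 2 * (2 + m / sg) / s0) + 3)) := by ring
    linarith
  · -- dir
    intro L hL1 hL2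
    have hqR : (100000 : ℝ) ≤ q := by exact_mod_cast n9
    have hLs : A0 ≤ 8 * (q : ℝ) * L := by
      have h1 : eta * ((31 / 32) * A0) / 2 ≤ L := by
        refine le_trans ?_ hL1
        have := mul_le_mul_of_nonneg_left hanorm.1 (by rw [heta]; norm_num : (0 : ℝ) ≤ eta)
        linarith
      rw [heta] at h1
      have h2 : 8 * 100000 * L ≤ 8 * (q : ℝ) * L := by
        apply mul_le_mul_of_nonneg_right _ (by linarith)
        linarith
      linarith
    have h1 := hFzL L hLs hL2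
    set z : ℂ := Fz (aB q (PO Rd α)) (nuB ν) p0 L * aB q (PO Rd α) p0 with hz
    have hX : 0 < (q : ℝ) ^ 2 * (N / rho) := by positivity
    have hzX : ‖z - (((q : ℝ) ^ 2 * (N / rho) : ℝ) : ℂ)‖ ≤ ((q : ℝ) ^ 2 * (N / rho)) * (8 / 100) := by
      obtain ⟨δ1, hδ1⟩ : ∃ δ1 : ℂ, δ1 = c * Fz (aB q (PO Rd α)) (nuB ν) p0 L - Bf rho q l := ⟨_, rfl⟩
      rw [← hδ1] at h1
      obtain ⟨δ2, hδ2⟩ : ∃ δ2 : ℂ, δ2 = Bf rho q l * ((rho / N : ℝ) : ℂ) - 1 := ⟨_, rfl⟩
      rw [← hδ2] at n0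
      obtain ⟨δ3, hδ3⟩ : ∃ δ3 : ℂ, δ3 = α l j / (q : ℂ) ^ 2 := ⟨_, rfl⟩
      rw [← hδ3] at hαn
      have hNC : ((N : ℝ) : ℂ) ≠ 0 := by exact_mod_cast hN.ne'
      have hrhoC : ((rho : ℝ) : ℂ) ≠ 0 := by exact_mod_cast hrho.ne'
      have hBfeq : Bf rho q l = ((N / rho : ℝ) : ℂ) * (1 + δ2) := by
        rw [hδ2]
        push_cast
        field_simp
        ring
      have hFeq : Fz (aB q (PO Rd α)) (nuB ν) p0 L =
          ((q : ℂ) ^ 2 / Ac q l) * (((N / rho : ℝ) : ℂ) * (1 + δ2) + δ1) := by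
        rw [← hBfeq, hδ1, hcdef]
        field_simp
        ring
      have hzeq : z - (((q : ℝ) ^ 2 * (N / rho) : ℝ) : ℂ) =
          (q : ℂ) ^ 2 * (((N / rho : ℝ) : ℂ) * (δ2 + δ3 + δ2 * δ3) + δ1 * (1 + δ3)) := by
        rw [hz, hFeq, haeq, ← hδ3]
        push_cast
        field_simp
        ring
      rw [hzeq, norm_mul, norm_pow, Complex.norm_natCast, mul_assoc]
      apply mul_le_mul_of_nonneg_left _ (by positivity)
      have hNr : 0 < N / rho := by positivity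
      have k1 : ‖δ2 + δ3 + δ2 * δ3‖ ≤ 3 / 100 := by
        have := norm_add_le (δ2 + δ3) (δ2 * δ3)
        have h2 := norm_add_le δ2 δ3
        rw [norm_mul] at this
        have h3 := mul_le_mul n0 hαn (norm_nonneg _) (by norm_num)
        linarith
      have k2 : ‖1 + δ3‖ ≤ 101 / 100 := by
        have := norm_add_le (1 : ℂ) δ3
        rw [norm_one] at this
        linarith
      have k3 : ‖δ1‖ ≤ (N / rho) * (21 / 1000) := by linarith [hb1.2]
      calc ‖((N / rho : ℝ) : ℂ) * (δ2 + δ3 + δ2 * δ3) + δ1 * (1 + δ3)‖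
          ≤ ‖((N / rho : ℝ) : ℂ) * (δ2 + δ3 + δ2 * δ3)‖ + ‖δ1 * (1 + δ3)‖ := norm_add_le _ _
        _ ≤ (N / rho) * (3 / 100) + (N / rho) * (21 / 1000) * (101 / 100) := by
            rw [norm_mul, norm_mul, Complex.norm_real, Real.norm_of_nonneg hNr.le]
            apply add_le_add
            · exact mul_le_mul_of_nonneg_left k1 hNr.le
            · exact mul_le_mul k3 k2 (norm_nonneg _) (by positivity)
        _ ≤ (N / rho) * (8 / 100) := by linarith
    have h2 := near_pos _ hX z hzX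
    have h3 : ‖z‖ = ‖Fz (aB q (PO Rd α)) (nuB ν) p0 L‖ * ‖aB q (PO Rd α) p0‖ := by
      rw [hz, norm_mul]
    rw [h3] at h2
    exact h2

end

end NevT.Top

namespace NevT

alias good_zero := Top.good_zero

end NevT
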