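import Pool.Agent.Helper551.NevDefs
import Pool.Agent.Helper551.NevTop

set_option autoImplicit false
open Filter Topology
open scoped BigOperators

namespace NevT

noncomputable section

theorem lin_le_exp (a b c : ℝ) (hc : 0 < c) : ∀ᶠ x : ℝ in atTop, a + b * x ≤ c * Real.exp x := by
  filter_upwards [eventually_ge_atTop (max 1 (2 * (|a| + |b|) / c))] with x hx
  have h1 : 1 ≤ x := (le_max_left _ _).trans hx
  have h2 : 2 * (|a| + |b|) / c ≤ x := (le_max_right _ _).trans hx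
  rw [div_le_iff₀ hc] at h2
  have h3 := Real.quadratic_le_exp_of_nonneg (by linarith : 0 ≤ x)
  have h4 : x ^ 2 / 2 ≤ Real.exp x := by linarith
  have h5 : c * (x ^ 2 / 2) ≤ c * Real.exp x := mul_le_mul_of_nonneg_left h4 hc.le
  have h6 : 2 * (|a| + |b|) * x ≤ x * c * x := mul_le_mul_of_nonneg_right h2 (by linarith)
  have h7 : |a| * 1 ≤ |a| * x := mul_le_mul_of_nonneg_left h1 (abs_nonneg a)
  have h8 : b * x ≤ |b| * x := mul_le_mul_of_nonneg_right (le_abs_self b) (by linarith)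
  have h9 := le_abs_self a
  linarith

theorem tendsto_lq (rho : ℝ) (hrho : 0 < rho) (q : ℕ) (hq : 0 < q) :
    Tendsto (fun l : ℕ => rho * (l : ℝ) / (q : ℝ) ^ 2) atTop atTop := by
  have hq0 : (0 : ℝ) < (q : ℝ) := by exact_mod_cast hq
  have h1 : (fun l : ℕ => rho * (l : ℝ) / (q : ℝ) ^ 2) = fun l : ℕ => (rho / (q : ℝ) ^ 2) * (l : ℝ) := by
    funext l; ring
  rw [h1]
  exact Tendsto.const_mul_atTop (by positivity) tendsto_natCast_atTop_atTop

theorem log_cond (sg m s0 : ℝ) (hsg : 0 < sg) (hm : 0 < m) (hs0 : 0 < s0) :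
    ∀ᶠ q : ℕ in atTop, Real.log (1 + 3 * (q : ℝ) ^ 2 / sg) +
      (Real.log (5 * (q : ℝ) ^ 2 * (2 + m / sg) / s0) + 3) ≤ (q : ℝ) ^ 2 := by
  obtain ⟨c1, hc1⟩ : ∃ c1, c1 = Real.log (1 + 3 / sg) := ⟨_, rfl⟩
  obtain ⟨c2, hc2⟩ : ∃ c2, c2 = Real.log (5 * (2 + m / sg) / s0) := ⟨_, rfl⟩
  have hq : ∀ᶠ q : ℕ in atTop, max 1 (|c1| + |c2| + 7) ≤ (q : ℝ) :=
    tendsto_natCast_atTop_atTop.eventually (eventually_ge_atTop _)
  filter_upwards [hq] with q hq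
  have h1 : (1 : ℝ) ≤ q := (le_max_left _ _).trans hq
  have h2 : |c1| + |c2| + 7 ≤ (q : ℝ) := (le_max_right _ _).trans hq
  have hq0 : (0 : ℝ) < q := by linarith
  have hlog : Real.log q ≤ q := by
    have := Real.log_le_sub_one_of_pos hq0
    linarith
  have e1 : Real.log (1 + 3 * (q : ℝ) ^ 2 / sg) ≤ c1 + 2 * q := by
    have h3 : 1 + 3 * (q : ℝ) ^ 2 / sg ≤ (1 + 3 / sg) * (q : ℝ) ^ 2 := by
      have : 1 ≤ (q : ℝ) ^ 2 := one_le_pow₀ h1
      have h4 : (1 + 3 / sg) * (q : ℝ) ^ 2 = (q : ℝ) ^ 2 + 3 * (q : ℝ) ^ 2 / sg := by ring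
      linarith
    have h4 := Real.log_le_log (by positivity) h3
    rw [Real.log_mul (by positivity) (by positivity), Real.log_pow, ← hc1] at h4
    push_cast at h4
    linarith
  have e2 : Real.log (5 * (q : ℝ) ^ 2 * (2 + m / sg) / s0) ≤ c2 + 2 * q := by
    have h3 : 5 * (q : ℝ) ^ 2 * (2 + m / sg) / s0 = (5 * (2 + m / sg) / s0) * (q : ℝ) ^ 2 := by ring
    rw [h3, Real.log_mul (by positivity) (by positivity), Real.log_pow, ← hc2]
    push_cast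
    linarith
  have h5 : (|c1| + |c2| + 7) * (q : ℝ) ≤ (q : ℝ) * q := mul_le_mul_of_nonneg_right h2 hq0.le
  have h6 : (|c1| + |c2| + 3) * 1 ≤ (|c1| + |c2| + 3) * (q : ℝ) :=
    mul_le_mul_of_nonneg_left h1 (by positivity)
  have h7 := le_abs_self c1
  have h8 := le_abs_self c2
  have h9 : (q : ℝ) ^ 2 = q * q := sq _
  linarith

theorem exp_neg_twenty : Real.exp (-((20 : ℕ) : ℝ)) ≤ 1 / 3000 := by
  have h1 := Real.quadratic_le_exp_of_nonneg (by norm_num : (0 : ℝ) ≤ 10)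
  have h2 : (60 : ℝ) ≤ Real.exp 10 := by linarith
  have h3 : Real.exp 20 = Real.exp 10 * Real.exp 10 := by rw [← Real.exp_add]; norm_num
  have h4 : (3600 : ℝ) ≤ Real.exp 20 := by rw [h3]; nlinarith
  push_cast
  rw [Real.exp_neg, inv_eq_one_div]
  apply one_div_le_one_div_of_le (by norm_num)
  linarith

theorem Bf_main (Cm rho : ℝ) (q : ℕ) (l : ℕ)
    (h : ‖((rho / ((q : ℝ) ^ 2 * Nc rho q l) : ℝ) : ℂ) *
      (∑' k : ℕ, if k ≠ l then (Nc rho q k : ℂ) / (1 - Ac q k / Ac q l) else 0) - 1‖ ≤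
      10 * Real.exp (-((20 : ℕ) : ℝ)) + Cm * rho + Cm * Real.exp (-(rho * l / (q : ℝ) ^ 2))) :
    ‖Bf rho q l * ((rho / Nc rho q l : ℝ) : ℂ) - 1‖ ≤
      1 / 300 + Cm * rho + Cm * Real.exp (-(rho * l / (q : ℝ) ^ 2)) := by
  have h1 : Bf rho q l * ((rho / Nc rho q l : ℝ) : ℂ) = ((rho / ((q : ℝ) ^ 2 * Nc rho q l) : ℝ) : ℂ) *
      (∑' k : ℕ, if k ≠ l then (Nc rho q k : ℂ) / (1 - Ac q k / Ac q l) else 0) := by
    unfold Bf
    push_cast
    rw [div_mul_eq_div_div_swap]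
    ring
  rw [h1]
  have := exp_neg_twenty
  linarith

/-- comparison of the norm and the real part -/
theorem norm_one_add_re (z : ℂ) (hz : ‖z‖ ≤ 1 / 2) : |‖1 + z‖ - (1 + z.re)| ≤ ‖z‖ ^ 2 := by
  have hre := Complex.abs_re_le_norm z
  have him := Complex.abs_im_le_norm z
  have h1 : (1 : ℝ) / 2 ≤ 1 + z.re := by
    have := (abs_le.1 (hre.trans hz)).1
    linarith
  have h2 : (1 : ℝ) / 2 ≤ ‖1 + z‖ := by
    have h3 := norm_sub_norm_le (1 : ℂ) (-z)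
    rw [norm_neg, norm_one, sub_neg_eq_add] at h3
    linarith
  have h3 : ‖1 + z‖ ^ 2 = (1 + z.re) ^ 2 + z.im ^ 2 := by
    rw [← Complex.normSq_eq_norm_sq, Complex.normSq_apply]
    simp
    ring
  have h4 : (‖1 + z‖ - (1 + z.re)) * (‖1 + z‖ + (1 + z.re)) = z.im ^ 2 := by
    have : (‖1 + z‖ - (1 + z.re)) * (‖1 + z‖ + (1 + z.re)) = ‖1 + z‖ ^ 2 - (1 + z.re) ^ 2 := by ring
    rw [this, h3]
    ring
  have h5 : 0 ≤ ‖1 + z‖ - (1 + z.re) := by
    by_contra hcon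
    push Not at hcon
    have : (‖1 + z‖ - (1 + z.re)) * (‖1 + z‖ + (1 + z.re)) < 0 :=
      mul_neg_of_neg_of_pos hcon (by linarith)
    rw [h4] at this
    linarith [sq_nonneg z.im]
  rw [abs_of_nonneg h5]
  have h6 : z.im ^ 2 ≤ ‖z‖ ^ 2 := by
    rw [← sq_abs z.im]
    exact pow_le_pow_left₀ (abs_nonneg _) him 2
  have h7 : (‖1 + z‖ - (1 + z.re)) * 1 ≤ (‖1 + z‖ - (1 + z.re)) * (‖1 + z‖ + (1 + z.re)) :=
    mul_le_mul_of_nonneg_left (by linarith) h5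
  linarith

theorem exp_sub_lin (x : ℝ) (h0 : 0 ≤ x) (h1 : x ≤ 1) : |Real.exp x - (1 + x)| ≤ x ^ 2 := by
  have := Real.abs_exp_sub_one_sub_id_le (x := x) (by rw [abs_of_nonneg h0]; exact h1)
  have h2 : Real.exp x - (1 + x) = Real.exp x - 1 - x := by ring
  rw [h2]
  exact this

end

end NevT
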