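import Pool.Agent.Helper551.NevDefs
import Pool.Agent.Helper551.NevTop

set_option autoImplicit false
open Filter Topology
open scoped BigOperators

namespace NevT

noncomputable section

theorem b_lower (N rho b : ℝ) (hN : 0 < N) (hrho : 0 < rho) (z : ℂ) (hb : b = ‖z‖)
    (n0 : ‖z * ((rho / N : ℝ) : ℂ) - 1‖ ≤ 1 / 50) : 49 / 50 * (N / rho) ≤ b := by
  have h1 : ‖z * ((rho / N : ℝ) : ℂ)‖ = b * (rho / N) := by
    rw [norm_mul, Complex.norm_real, Real.norm_of_nonneg (by positivity), hb]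
  have h2 := abs_norm_sub_norm_le (z * ((rho / N : ℝ) : ℂ)) 1
  rw [h1, norm_one] at h2
  have h3 := abs_le.1 (h2.trans n0)
  have h4 : b = b * (rho / N) * (N / rho) := by field_simp
  have h5 : 0 < N / rho := by positivity
  rw [h4]
  exact mul_le_mul_of_nonneg_right (by linarith [h3.1]) h5.le

theorem good_l {rho : ℝ} {q : ℕ} {R Rd sg : ℝ} {N1 : ℕ} {I : ℕ → Type} [∀ l, Fintype (I l)]
    {α : ∀ l, I l → ℂ} {μ : ∀ l, I l → ℝ} {e : ℕ → ℂ} {ν : ∀ l, Option (I l) → ℕ}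
    (hc : Ctx rho q R Rd sg N1 α μ e ν) (l : ℕ) (j : I l) (Cn Cs Cf Ci eps m s0 : ℝ)
    (hCn0 : 0 < Cn) (hCs0 : 0 < Cs) (hCf0 : 0 < Cf)
    (hnear : Summable (fun p' : Σ l, Option (I l) => if p'.1 ≠ l ∧ l ≤ p'.1 + 20 * q ^ 2 then
        (nuB ν p' : ℝ) * ‖Ac q l‖ / ‖aB q (PO Rd α) ⟨l, some j⟩ - aB q (PO Rd α) p'‖ else 0) ∧
      ∑' p' : Σ l, Option (I l), (if p'.1 ≠ l ∧ l ≤ p'.1 + 20 * q ^ 2 then
        (nuB ν p' : ℝ) * ‖Ac q l‖ / ‖aB q (PO Rd α) ⟨l, some j⟩ - aB q (PO Rd α) p'‖ else 0) ≤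
        Cn * (q : ℝ) ^ 2 * Nc rho q l)
    (hsq : Summable (fun p' : Σ l, Option (I l) => if p'.1 ≠ l then
        (nuB ν p' : ℝ) / ‖aB q (PO Rd α) ⟨l, some j⟩ - aB q (PO Rd α) p'‖ ^ 2 else 0) ∧
      ∑' p' : Σ l, Option (I l), (if p'.1 ≠ l then
        (nuB ν p' : ℝ) / ‖aB q (PO Rd α) ⟨l, some j⟩ - aB q (PO Rd α) p'‖ ^ 2 else 0) ≤
        Cs / rho * (q : ℝ) ^ 2 * Real.sqrt q * Nc rho q l / ‖Ac q l‖ ^ 2)
    (hfield : Summable (fun p' : Σ l, Option (I l) => if p'.1 ≠ l then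
        (nuB ν p' : ℂ) / (aB q (PO Rd α) ⟨l, some j⟩ - aB q (PO Rd α) p') else 0) ∧
      ‖(Ac q l / (q : ℂ) ^ 2) * (∑' p' : Σ l, Option (I l), if p'.1 ≠ l then
        (nuB ν p' : ℂ) / (aB q (PO Rd α) ⟨l, some j⟩ - aB q (PO Rd α) p') else 0) -
          Bf rho q l‖ ≤ Cf * Rd / (rho * Real.sqrt q) * Nc rho q l +
            Cf * N1 * (1 + (l : ℝ) / (q : ℝ) ^ 2))
    (hinner : (1 - Ci * rho - Ci * Real.exp (-(rho * l / (q : ℝ) ^ 2))) *
        ((q : ℝ) ^ 2 / rho * Nc rho q l) ≤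
      ∑ k ∈ (Finset.range l).filter (fun k => k + 20 * q ^ 2 < l), Nc rho q k)
    (hm : ∑ i, μ l i = m) (hm0 : 0 < m) (hm1 : m ≤ 1)
    (heps : 0 < eps) (heps1 : eps ≤ 1) (hs0 : 0 < s0)
    (hgood : GoodPt lam eps (α l) (μ l) (e l) j) (hμj : s0 ≤ μ l j)
    (r1 : Cn * rho ≤ lam / 20) (r2 : ((9 / 4) * Cn + 1) * rho ≤ eta / 32) (r3 : Ci * rho ≤ 1 / 8)
    (hRd : Rd = R + 1 + (20 + 28 * m) / (lam * eps))
    (q2 : 100000 ≤ q)
    (q3 : Cf * Rd / Real.sqrt q ≤ eps / 400)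
    (q4 : Cs / (8 * Real.sqrt q) ≤ lam * eps / 5)
    (q5 : m * Real.sqrt (8 / (q * sg)) ≤ lam / 10)
    (q6 : 150 * m ≤ q * eps)
    (q7 : 18 * m ≤ eps * eta * (q : ℝ) ^ 2 * (9 / 10))
    (q8 : Real.log (1 + 3 * (q : ℝ) ^ 2 / sg) +
      (Real.log (5 * (q : ℝ) ^ 2 * (2 + m / sg) / s0) + 3) ≤ (q : ℝ) ^ 2)
    (n0 : ‖Bf rho q l * ((rho / Nc rho q l : ℝ) : ℂ) - 1‖ ≤ 1 / 50)
    (l2 : Ci * Real.exp (-(rho * l / (q : ℝ) ^ 2)) ≤ 1 / 8)
    (l3 : 12 ≤ (49 / 50) * (Nc rho q l / rho) * s0)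
    (l4 : N1 / sg + Cf * N1 * (1 + (l : ℝ) / (q : ℝ) ^ 2) ≤
      (49 / 50) * (Nc rho q l / rho) * (eps / 400))
    (l5 : (N1 : ℝ) * l ≤ (1 / 4) * ((q : ℝ) ^ 2 / rho * Nc rho q l)) :
    GoodZ (aB q (PO Rd α)) (nuB ν) ⟨l, some j⟩ ∧
      49 / 50 * (Nc rho q l / rho) ≤ ‖Bf rho q l‖ ∧
      (‖Bf rho q l‖ * μ l j - 1) * (‖Ac q l‖ / (q : ℝ) ^ 2) ≤
        sz (aB q (PO Rd α)) (nuB ν) ⟨l, some j⟩ *
          (‖Bf rho q l‖ * (‖fld (α l) (μ l) (e l) j 0‖ + eps / 4)) := by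
  have hlam : (0 : ℝ) < lam := by unfold lam; norm_num
  have hlam1 : lam ≤ 1 := by unfold lam; norm_num
  have heta : (0 : ℝ) < eta := by unfold eta; norm_num
  have hq0 : (0 : ℝ) < (q : ℝ) := by exact_mod_cast hc.q_pos
  have hsq0 : 0 < Real.sqrt q := Real.sqrt_pos.2 hq0
  have hsqq : Real.sqrt q * Real.sqrt q = q := Real.mul_self_sqrt hq0.le
  have hrho := hc.rho_pos
  have hrho4 := hc.rho_le
  have hR0 := hc.R_nonneg
  have hsg := hc.sg_pos
  have hN : 0 < Nc rho q l := Real.exp_pos _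
  have hA0 : 0 < ‖Ac q l‖ := by rw [Ac_norm]; exact Real.exp_pos _
  obtain ⟨N, hNdef⟩ : ∃ N, N = Nc rho q l := ⟨_, rfl⟩
  obtain ⟨A0, hA0def⟩ : ∃ A0, A0 = ‖Ac q l‖ := ⟨_, rfl⟩
  obtain ⟨b, hbdef⟩ : ∃ b, b = ‖Bf rho q l‖ := ⟨_, rfl⟩
  have hb : 49 / 50 * (N / rho) ≤ b := by
    apply b_lower N rho b (by rw [hNdef]; exact hN) hrho _ hbdef
    rw [hNdef]; exact n0
  obtain ⟨W, hW⟩ : ∃ W, W = Rd - R := ⟨_, rfl⟩
  have hle : 0 < lam * eps := by positivity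
  have hWge1 : 20 / (lam * eps) ≤ W := by
    rw [hW, hRd]
    have : (20 + 28 * m) / (lam * eps) = 20 / (lam * eps) + 28 * m / (lam * eps) := by ring
    have h2 : 0 ≤ 28 * m / (lam * eps) := by positivity
    linarith
  have hWge2 : 28 * m / (lam * eps) ≤ W := by
    rw [hW, hRd]
    have : (20 + 28 * m) / (lam * eps) = 20 / (lam * eps) + 28 * m / (lam * eps) := by ring
    have h2 : 0 ≤ 20 / (lam * eps) := by positivity
    linarith
  have hWpos : 0 < W := lt_of_lt_of_le (by positivity) hWge1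
  have hNpos : 0 < N := by rw [hNdef]; exact hN
  have hNr : 0 < N / rho := by positivity
  have hNb : N ≤ 50 / 49 * rho * b := by
    have h1 : N = (N / rho) * rho := by field_simp
    have h2 : N / rho ≤ 50 / 49 * b := by linarith
    calc N = (N / rho) * rho := h1
      _ ≤ 50 / 49 * b * rho := mul_le_mul_of_nonneg_right h2 hrho.le
      _ = 50 / 49 * rho * b := by ring
  have hbpos : 0 < b := lt_of_lt_of_le (by positivity) hb
  -- dummy charge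
  have hdum : N / W ≤ lam * eps * b / 70 := by
    rw [div_le_iff₀ hWpos]
    have h1 : 20 ≤ W * (lam * eps) := by rwa [div_le_iff₀ hle] at hWge1
    have h2 : b * 20 ≤ b * (W * (lam * eps)) := mul_le_mul_of_nonneg_left h1 hbpos.le
    have h3 : rho * b ≤ 1 / 4 * b := mul_le_mul_of_nonneg_right hrho4 hbpos.le
    linarith
  -- the error of the field
  obtain ⟨E1, hE1⟩ : ∃ E1, E1 = Cf * Rd / (rho * Real.sqrt q) * Nc rho q l +
            Cf * N1 * (1 + (l : ℝ) / (q : ℝ) ^ 2) := ⟨_, rfl⟩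
  obtain ⟨X2, hX2⟩ : ∃ X2, X2 = Cf * N1 * (1 + (l : ℝ) / (q : ℝ) ^ 2) := ⟨_, rfl⟩
  obtain ⟨X1, hX1⟩ : ∃ X1, X1 = (N1 : ℝ) / sg := ⟨_, rfl⟩
  have hX1n : 0 ≤ X1 := by rw [hX1]; positivity
  have hX2n : 0 ≤ X2 := by rw [hX2]; positivity
  have hX : X1 + X2 ≤ b * (eps / 400) := by
    rw [hX1, hX2]
    refine l4.trans ?_
    rw [← hNdef]
    have := mul_le_mul_of_nonneg_right hb (by positivity : 0 ≤ eps / 400)
    linarith
  have hX3 : Cf * Rd / (rho * Real.sqrt q) * N ≤ eps / 392 * b := by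
    have h1 : Cf * Rd / (rho * Real.sqrt q) * N = (Cf * Rd / Real.sqrt q) * (N / rho) := by
      field_simp
    rw [h1]
    have h2 := mul_le_mul_of_nonneg_right q3 hNr.le
    have h3 : eps / 400 * (N / rho) ≤ eps / 400 * (50 / 49 * b) :=
      mul_le_mul_of_nonneg_left (by linarith) (by positivity)
    linarith
  have hE1' : E1 ≤ eps / 392 * b + X2 := by
    rw [hE1, ← hX2, ← hNdef]
    linarith
  have hepsb : eps * b ≤ 1 * b := mul_le_mul_of_nonneg_right heps1 hbpos.le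
  have hlamb : lam * (eps * b) ≤ 1 * (eps * b) :=
    mul_le_mul_of_nonneg_right hlam1 (by positivity)
  have hepsbpos : 0 < eps * b := by positivity
  have hCnN : Cn * N ≤ lam * b * (5 / 98) := by
    have h1 : Cn * N ≤ Cn * (50 / 49 * rho * b) := mul_le_mul_of_nonneg_left hNb hCn0.le
    have h2 : (Cn * rho) * b ≤ lam / 20 * b := mul_le_mul_of_nonneg_right r1 hbpos.le
    linarith
  obtain ⟨Q, hQ⟩ : ∃ Q, Q = Cs / rho * (q : ℝ) ^ 2 * Real.sqrt q * Nc rho q l / ‖Ac q l‖ ^ 2 :=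
    ⟨_, rfl⟩
  have hmain := good_zero hc l j E1 Cn Q eps m s0 hfield.1 (by rw [hE1]; exact hfield.2)
    hnear.1 hnear.2 hsq.1 (by rw [hQ]; exact hsq.2) hCn0 hm hm1 heps heps1 hs0 hgood hμj n0
    (by
      rw [← hbdef]
      rw [← hNdef] at l3
      have := mul_le_mul_of_nonneg_right hb hs0.le
      linarith)
    (by
      rw [← hX1, ← hNdef, ← hW, ← hbdef]
      have h1 : lam * eps * b / 70 ≤ eps * b / 70 := by linarith
      linarith)
    (by
      rw [← hNdef, ← hbdef]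
      have h1 : lam = 1 / 2000 := rfl
      rw [h1] at hCnN
      linarith)
    (by
      rw [← hNdef, ← hbdef, ← hA0def, ← hW, hQ, ← hNdef, ← hA0def]
      have h1 : A0 / (8 * q) * (Cs / rho * (q : ℝ) ^ 2 * Real.sqrt q * N / A0 ^ 2) *
          (A0 / (q : ℝ) ^ 2) = (Cs / (8 * Real.sqrt q)) * (N / rho) := by
        have hA0' : A0 ≠ 0 := by rw [hA0def]; exact hA0.ne'
        have h2 : (q : ℝ) = Real.sqrt q * Real.sqrt q := hsqq.symm
        have h3 : A0 / (8 * q) * (Cs / rho * (q : ℝ) ^ 2 * Real.sqrt q * N / A0 ^ 2) *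
          (A0 / (q : ℝ) ^ 2) = (Cs / 8) * (Real.sqrt q / q) * (N / rho) := by
          field_simp
        have h4 : Real.sqrt q / q = 1 / Real.sqrt q := by
          rw [div_eq_div_iff hq0.ne' hsq0.ne']
          linarith
        rw [h3, h4]
        field_simp
      rw [h1]
      have h2 := mul_le_mul_of_nonneg_right q4 hNr.le
      have h3 : lam * eps / 5 * (N / rho) ≤ lam * eps / 5 * (50 / 49 * b) :=
        mul_le_mul_of_nonneg_left (by linarith) (by positivity)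
      have h4 : 0 < lam * (eps * b) := by positivity
      linarith)
    q5
    (by
      rw [← hNdef, ← hW, ← hbdef]
      have h4 : lam * (eps * b) ≤ lam * (1 * b) := mul_le_mul_of_nonneg_left hepsb hlam.le
      have h5 : 0 < lam * b := by positivity
      linarith)
    (by
      rw [← hNdef, ← hbdef]
      have h5 : 0 < lam * b := by positivity
      linarith)
    (by
      rw [← hW]
      rw [div_le_iff₀ hle] at hWge2
      have h1 : W * (lam * eps) ≤ W * (1 * eps) := by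
        apply mul_le_mul_of_nonneg_left _ hWpos.le
        exact mul_le_mul_of_nonneg_right hlam1 heps.le
      linarith)
    q6 q7 q2
    (by
      rw [← hNdef] at hinner l5 ⊢
      have h1 : 0 < (q : ℝ) ^ 2 / rho * N := by positivity
      have h2 : (3 / 4) * ((q : ℝ) ^ 2 / rho * N) ≤
          (1 - Ci * rho - Ci * Real.exp (-(rho * l / (q : ℝ) ^ 2))) * ((q : ℝ) ^ 2 / rho * N) :=
        mul_le_mul_of_nonneg_right (by linarith) h1.le
      have h3 : (q : ℝ) ^ 2 * N / (2 * rho) = (1 / 2) * ((q : ℝ) ^ 2 / rho * N) := by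
        field_simp
      rw [h3]
      linarith)
    (by
      have h1 : ((9 / 4) * Cn + 1) * (q : ℝ) ^ 2 ≤ (eta / 32) * (q : ℝ) ^ 2 / rho := by
        rw [le_div_iff₀ hrho]
        have := mul_le_mul_of_nonneg_right r2 (by positivity : 0 ≤ (q : ℝ) ^ 2)
        linarith
      linarith)
  exact ⟨hmain.1, by rw [← hNdef, ← hbdef]; exact hb, hmain.2⟩

end

end NevT
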