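import Pool.Agent.Helper551.NevDefs
import Pool.Agent.Helper551.NevAux
import Pool.Agent.Helper551.NevGood

set_option autoImplicit false
open Filter Topology
open scoped BigOperators

namespace NevT

noncomputable section

theorem cover_arith (b D s F0 G eps mu tp re R q m0 s0 X : ℝ) (hb : 0 < b) (hD : 0 < D)
    (hF0 : 0 ≤ F0) (heps : 0 < eps) (hG : F0 + eps / 4 ≤ G)
    (hs : (b * mu - 1) * D ≤ s * (b * (F0 + eps / 4)))
    (hcov : |tp - re| * (F0 + eps) ≤ (1 / 20) * mu)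
    (hq9 : (R ^ 2 + 1) / q ^ 2 * G ≤ s0 / 200) (hbs : 12 ≤ b * s0) (hs0 : 0 < s0) (hmu : s0 ≤ mu)
    (hX : X ≤ D * (|tp - re| + (R ^ 2 + 1) / q ^ 2)) :
    X ≤ (3 / 50) * s ∧ s0 * D / (2 * G) ≤ s := by
  have hbmu : b * s0 ≤ b * mu := mul_le_mul_of_nonneg_left hmu hb.le
  have hY : 0 < b * (F0 + eps / 4) := by positivity
  have hGpos : 0 < G := lt_of_lt_of_le (by positivity) hG
  have h1 : |tp - re| * (b * (F0 + eps / 4)) ≤ b * ((1 / 20) * mu) := by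
    have h2 : |tp - re| * (F0 + eps / 4) ≤ |tp - re| * (F0 + eps) :=
      mul_le_mul_of_nonneg_left (by linarith) (abs_nonneg _)
    have h3 := mul_le_mul_of_nonneg_left (h2.trans hcov) hb.le
    linarith
  have h4 : (R ^ 2 + 1) / q ^ 2 * (b * (F0 + eps / 4)) ≤ b * (mu / 200) := by
    have h5 : (R ^ 2 + 1) / q ^ 2 * (F0 + eps / 4) ≤ (R ^ 2 + 1) / q ^ 2 * G :=
      mul_le_mul_of_nonneg_left hG (by positivity)
    have h6 : (R ^ 2 + 1) / q ^ 2 * (F0 + eps / 4) ≤ mu / 200 := by linarith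
    have h3 := mul_le_mul_of_nonneg_left h6 hb.le
    linarith
  constructor
  · refine hX.trans ?_
    have h7 : D * (|tp - re| + (R ^ 2 + 1) / q ^ 2) * (b * (F0 + eps / 4)) ≤
        (3 / 50) * s * (b * (F0 + eps / 4)) := by
      have h8 : (|tp - re| + (R ^ 2 + 1) / q ^ 2) * (b * (F0 + eps / 4)) ≤ (3 / 50) * (b * mu - 1) := by
        linarith
      have h9 := mul_le_mul_of_nonneg_left h8 hD.le
      linarith
    exact le_of_mul_le_mul_right h7 hY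
  · rw [div_le_iff₀ (by positivity)]
    have h7 : s0 * D * b ≤ s * (2 * G) * b := by
      have h8 : (b * s0 / 2) * D ≤ (b * mu - 1) * D := mul_le_mul_of_nonneg_right (by linarith) hD.le
      have hspos : 0 < s := by
        have h9 : 0 < (b * mu - 1) * D := mul_pos (by linarith) hD
        exact (pos_iff_pos_of_mul_pos (lt_of_lt_of_le h9 hs)).2 hY
      have h9 : s * (b * (F0 + eps / 4)) ≤ s * (b * G) := by
        apply mul_le_mul_of_nonneg_left _ hspos.le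
        exact mul_le_mul_of_nonneg_left hG hb.le
      linarith
    exact le_of_mul_le_mul_right h7 hb

theorem geo_cover (q l : ℕ) (hq : 0 < q) (R : ℝ) (hR : 0 ≤ R) (hRq : 2 * R ≤ q) (al : ℂ)
    (hal : ‖al‖ ≤ R) (tp : ℝ) (h0 : 0 ≤ tp) (h1 : tp ≤ 1) :
    |‖Ac q l * (1 + al / (q : ℂ) ^ 2)‖ - ‖Ac q l‖ * Real.exp (tp / (q : ℝ) ^ 2)| ≤
      (‖Ac q l‖ / (q : ℝ) ^ 2) * (|tp - al.re| + (R ^ 2 + 1) / (q : ℝ) ^ 2) := by
  have hq1 : (1 : ℝ) ≤ q := by exact_mod_cast hq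
  have hq0 : (0 : ℝ) < q := by linarith
  have hqq : (q : ℝ) ≤ (q : ℝ) ^ 2 := by nlinarith
  have hA0 : 0 < ‖Ac q l‖ := by rw [Ac_norm]; exact Real.exp_pos _
  obtain ⟨z, hz⟩ : ∃ z : ℂ, z = al / (q : ℂ) ^ 2 := ⟨_, rfl⟩
  obtain ⟨x, hx⟩ : ∃ x : ℝ, x = tp / (q : ℝ) ^ 2 := ⟨_, rfl⟩
  rw [← hz, ← hx, norm_mul, ← mul_sub, abs_mul, abs_of_pos hA0]
  have hzn : ‖z‖ = ‖al‖ / (q : ℝ) ^ 2 := by
    rw [hz, norm_div, norm_pow, Complex.norm_natCast]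
  have hzR : ‖z‖ ≤ R / (q : ℝ) ^ 2 := by
    rw [hzn]; gcongr
  have hz2 : ‖z‖ ≤ 1 / 2 := by
    refine hzR.trans ?_
    rw [div_le_div_iff₀ (by positivity) (by norm_num)]
    linarith
  have hzre : z.re = al.re / (q : ℝ) ^ 2 := by
    rw [hz]
    have : ((q : ℂ) ^ 2) = (((q : ℝ) ^ 2 : ℝ) : ℂ) := by push_cast; ring
    rw [this, Complex.div_ofReal_re]
  have hx0 : 0 ≤ x := by rw [hx]; positivity
  have hx1' : x ≤ 1 / (q : ℝ) ^ 2 := by rw [hx]; gcongr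
  have hx1 : x ≤ 1 := by
    refine hx1'.trans ?_
    rw [div_le_one (by positivity)]
    linarith
  have e1 := norm_one_add_re z hz2
  have e2 := exp_sub_lin x hx0 hx1
  have e3 : |‖1 + z‖ - Real.exp x| ≤ |‖1 + z‖ - (1 + z.re)| + |z.re - x| + |Real.exp x - (1 + x)| := by
    have h2 : ‖1 + z‖ - Real.exp x =
        (‖1 + z‖ - (1 + z.re)) + (z.re - x) - (Real.exp x - (1 + x)) := by ring
    rw [h2]
    refine (abs_sub _ _).trans ?_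
    linarith [abs_add_le (‖1 + z‖ - (1 + z.re)) (z.re - x)]
  have e4 : |z.re - x| = |tp - al.re| / (q : ℝ) ^ 2 := by
    rw [hzre, hx, ← sub_div, abs_div, abs_of_pos (by positivity : (0 : ℝ) < (q : ℝ) ^ 2),
      abs_sub_comm]
  have e5 : ‖z‖ ^ 2 ≤ R ^ 2 / ((q : ℝ) ^ 2 * (q : ℝ) ^ 2) := by
    calc ‖z‖ ^ 2 ≤ (R / (q : ℝ) ^ 2) ^ 2 := pow_le_pow_left₀ (norm_nonneg _) hzR 2
      _ = _ := by rw [div_pow]; ring
  have e6 : x ^ 2 ≤ 1 / ((q : ℝ) ^ 2 * (q : ℝ) ^ 2) := by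
    calc x ^ 2 ≤ (1 / (q : ℝ) ^ 2) ^ 2 := pow_le_pow_left₀ hx0 hx1' 2
      _ = _ := by rw [div_pow]; ring
  have e7 : |‖1 + z‖ - Real.exp x| ≤ (1 / (q : ℝ) ^ 2) * (|tp - al.re| + (R ^ 2 + 1) / (q : ℝ) ^ 2) := by
    have h3 : (1 / (q : ℝ) ^ 2) * (|tp - al.re| + (R ^ 2 + 1) / (q : ℝ) ^ 2) =
        R ^ 2 / ((q : ℝ) ^ 2 * (q : ℝ) ^ 2) + |tp - al.re| / (q : ℝ) ^ 2 +
          1 / ((q : ℝ) ^ 2 * (q : ℝ) ^ 2) := by
      field_simp
      ring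
    rw [h3]
    linarith
  calc ‖Ac q l‖ * |‖1 + z‖ - Real.exp x| ≤
      ‖Ac q l‖ * ((1 / (q : ℝ) ^ 2) * (|tp - al.re| + (R ^ 2 + 1) / (q : ℝ) ^ 2)) :=
        mul_le_mul_of_nonneg_left e7 hA0.le
    _ = _ := by ring

end

end NevT
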