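import Mathlib

set_option autoImplicit false
open MeasureTheory Filter Topology
open scoped BigOperators

namespace NevT

noncomputable section

/-- Nevanlinna characteristic of an entire function. -/
def T (r : ℝ) (f : ℂ → ℂ) : ℝ :=
  (1 / (2 * Real.pi)) *
    intervalIntegral (fun θ : ℝ => max 0 (Real.log ‖f (circleMap 0 r θ)‖)) 0 (2 * Real.pi)
      MeasureTheory.volume

/-- two sided scale kernel: sqrt(L/x) for x ≤ L and (L/x)^2 for x ≥ L.  Note `K L 0 = 0`. -/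
def K (L x : ℝ) : ℝ := min (Real.sqrt (L / x)) ((L / x) ^ 2)

/-- truncated field at the point `a i` of the zeros `a j` (multiplicity `ν j`) at distance `> L`. -/
def Fz {ι : Type} (a : ι → ℂ) (ν : ι → ℕ) (i : ι) (L : ℝ) : ℂ :=
  ∑' j, if L < ‖a j - a i‖ then (ν j : ℂ) / (a i - a j) else 0

/-- kernel sum at the point `a i`. -/
def Sz {ι : Type} (a : ι → ℂ) (ν : ι → ℕ) (i : ι) (L : ℝ) : ℝ :=
  ∑' j, (ν j : ℝ) * K L ‖a j - a i‖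

/-- natural size of the basin at `a i`. -/
def sz {ι : Type} (a : ι → ℂ) (ν : ι → ℕ) (i : ι) : ℝ := (ν i : ℝ) / ‖Fz a ν i 0‖

def lam : ℝ := 1 / 2000
def eta : ℝ := 1 / 100000

/-- A good zero. -/
structure GoodZ {ι : Type} (a : ι → ℂ) (ν : ι → ℕ) (i : ι) : Prop where
  pos : 0 < ‖Fz a ν i 0‖
  small : 13 * sz a ν i ≤ eta * ‖a i‖
  near : ∀ L : ℝ, 0 < L → L ≤ eta * ‖a i‖ → Sz a ν i L ≤ lam * ‖Fz a ν i L‖ * L
  sep : ∀ j, j ≠ i → 14 * sz a ν i ≤ ‖a j - a i‖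
  inner : ∃ β : ι → ℝ, Summable (fun j => (ν j : ℝ) * β j) ∧
    (∀ w : ℂ, ‖w‖ ≤ (1 - eta / 4) * ‖a i‖ → ∀ j, j ≠ i →
      ‖w - a j‖ ≤ ‖a i - a j‖ * Real.exp (β j)) ∧
    (∑' j, (open Classical in if j = i then 0 else (ν j : ℝ) * β j)) ≤
      -(ν i : ℝ) * (Real.log (2 * ‖a i‖ / sz a ν i) + 3)
  dir : ∀ L : ℝ, eta * ‖a i‖ / 2 ≤ L → L ≤ eta * ‖a i‖ →
    ‖Fz a ν i L * a i - ((‖Fz a ν i L‖ * ‖a i‖ : ℝ) : ℂ)‖ ≤ (1 / 5) * (‖Fz a ν i L‖ * ‖a i‖)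

/-- Zero data: the input of the analytic part. -/
structure ZData (rho : ℝ) {ι : Type} (a : ι → ℂ) (ν : ι → ℕ) : Prop where
  ne : ∀ i, a i ≠ 0
  inj : Function.Injective a
  summ : Summable (fun i => (ν i : ℝ) / ‖a i‖)
  growth : ∃ C : ℝ, ∀ r : ℝ, 1 ≤ r → ∑' i, (ν i : ℝ) * Real.log (1 + r / ‖a i‖) ≤ C * r ^ rho
  cover : ∃ c > 0, ∃ R0 : ℝ, ∀ r ≥ R0, ∃ i, GoodZ a ν i ∧ c * r ^ rho ≤ (ν i : ℝ) ∧
    c * r ≤ sz a ν i ∧ |‖a i‖ - r| ≤ (3 / 50) * sz a ν i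

/-! ## finite configurations -/

/-- truncated field of a finite charge configuration in the background `e`, at the point `j` -/
def fld {ι : Type} [Fintype ι] (α : ι → ℂ) (μ : ι → ℝ) (e : ℂ) (j : ι) (L : ℝ) : ℂ :=
  e + ∑ i, if L < ‖α i - α j‖ then (μ i : ℂ) / (α j - α i) else 0

def nearS {ι : Type} [Fintype ι] (α : ι → ℂ) (μ : ι → ℝ) (j : ι) (L : ℝ) : ℝ :=
  ∑ i, μ i * K L ‖α i - α j‖

def GoodPt {ι : Type} [Fintype ι] (la eps : ℝ) (α : ι → ℂ) (μ : ι → ℝ) (e : ℂ) (j : ι) : Prop :=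
  (∀ L : ℝ, 0 < L → nearS α μ j L ≤ la * (‖fld α μ e j L‖ - eps) * L) ∧
  (∀ i, i ≠ j → 14 * μ j ≤ ‖α i - α j‖ * (‖fld α μ e j 0‖ - eps))

structure Cfg (la tau eps R sig s0 m : ℝ) (N : ℕ) (e : ℂ) {ι : Type} [Fintype ι]
    (α : ι → ℂ) (μ : ι → ℝ) : Prop where
  card_le : Fintype.card ι ≤ N
  nonneg : ∀ i, 0 ≤ μ i
  total : ∑ i, μ i = m
  bdd : ∀ i, ‖α i‖ ≤ R
  sep : ∀ i j, i ≠ j → sig ≤ ‖α i - α j‖
  cover : ∀ t ∈ Set.Icc (0 : ℝ) 1, ∃ j, GoodPt la eps α μ e j ∧ s0 ≤ μ j ∧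
    |t - (α j).re| * (‖fld α μ e j 0‖ + eps) ≤ tau * μ j

/-- `A la tau m`: uniformly in the unit background field `e`, the unit interval can be covered with
total charge `m`. -/
def A (la tau m : ℝ) : Prop :=
  ∃ eps > 0, ∃ R > 0, ∃ sig > 0, ∃ s0 > 0, ∃ N : ℕ, ∀ e : ℂ, ‖e‖ = 1 →
    ∃ (ι : Type) (_ : Fintype ι) (α : ι → ℂ) (μ : ι → ℝ), Cfg la tau eps R sig s0 m N e α μ

/-- the pattern: `q^2` points, with real parts the multiples of `1/q^2`, spread over the height `H`. -/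
def Wp (q : ℕ) (H : ℝ) (k : Fin q × Fin q) : ℂ :=
  (((k.1 : ℝ) * q + (k.2 : ℝ)) / (q : ℝ) ^ 2 : ℝ) + ((H * (k.2 : ℝ) / q : ℝ) : ℂ) * Complex.I

/-- centre of the block number `l`: modulus `exp (l/q^2)`, argument `(l mod q)/q`. -/
def Ac (q l : ℕ) : ℂ :=
  Complex.exp (((l : ℝ) / (q : ℝ) ^ 2 : ℝ) + ((((l % q : ℕ) : ℝ) / (q : ℝ) : ℝ) : ℂ) * Complex.I)

/-- mass of the block number `l`. -/
def Nc (rho : ℝ) (q l : ℕ) : ℝ := Real.exp (rho * l / (q : ℝ) ^ 2)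

/-- a system of blocks of charges: block `l` is centred at `Ac q l`, the charge `x` of the block `l`
has multiplicity `ν l x` and local coordinate `P l x`. -/
structure BlockSys (rho : ℝ) (q : ℕ) (R1 sg : ℝ) (N1 : ℕ) {J : ℕ → Type} [∀ l, Fintype (J l)]
    (P : ∀ l, J l → ℂ) (ν : ∀ l, J l → ℕ) : Prop where
  card_le : ∀ l, Fintype.card (J l) ≤ N1
  bdd : ∀ l x, ‖P l x‖ ≤ R1
  sep : ∀ l x y, x ≠ y → sg ≤ ‖P l x - P l y‖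
  mass_le : ∀ l, (∑ x, (ν l x : ℝ)) ≤ Nc rho q l
  mass_ge : ∀ l, Nc rho q l - N1 ≤ ∑ x, (ν l x : ℝ)

/-- position of a charge -/
def aB (q : ℕ) {J : ℕ → Type} (P : ∀ l, J l → ℂ) (p : Σ l, J l) : ℂ :=
  Ac q p.1 * (1 + P p.1 p.2 / (q : ℂ) ^ 2)

/-- multiplicity of a charge -/
def nuB {J : ℕ → Type} (ν : ∀ l, J l → ℕ) (p : Σ l, J l) : ℕ := ν p.1 p.2

/-- normalised field of the other blocks at the centre of the block `l` -/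
def Bf (rho : ℝ) (q l : ℕ) : ℂ :=
  (1 / (q : ℂ) ^ 2) * ∑' k : ℕ, if k ≠ l then (Nc rho q k : ℂ) / (1 - Ac q k / Ac q l) else 0

/-- local coordinates of a block: a configuration together with a dummy charge at `Rd`. -/
def PO {I : ℕ → Type} (Rd : ℝ) (α : ∀ l, I l → ℂ) (l : ℕ) (x : Option (I l)) : ℂ :=
  x.elim (Rd : ℂ) (α l)

/-- data of the top level: block `l` consists of the configuration `α l, μ l` (for the unit background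
field `e l`), scaled by the field `Bf`, and of a dummy charge. -/
structure Ctx (rho : ℝ) (q : ℕ) (R Rd sg : ℝ) (N1 : ℕ) {I : ℕ → Type} [∀ l, Fintype (I l)]
    (α : ∀ l, I l → ℂ) (μ : ∀ l, I l → ℝ) (e : ℕ → ℂ) (ν : ∀ l, Option (I l) → ℕ) : Prop where
  rho_pos : 0 < rho
  rho_le : rho ≤ 1 / 4
  q_pos : 0 < q
  R_nonneg : 0 ≤ R
  Rd_ge : R + 1 ≤ Rd
  q_ge : 32 * Rd ≤ q
  sg_pos : 0 < sg
  sg_le : sg ≤ 1
  sys : BlockSys rho q Rd sg N1 (PO Rd α) ν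
  bdd : ∀ l i, ‖α l i‖ ≤ R
  mu_nonneg : ∀ l i, 0 ≤ μ l i
  nu_some : ∀ l i, ν l (some i) = ⌊‖Bf rho q l‖ * μ l i⌋₊
  e_norm : ∀ l, ‖e l‖ = 1
  e_eq : ∀ l, Bf rho q l = (‖Bf rho q l‖ : ℂ) * e l

end

end NevT
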