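import Pool.Agent.Helper551.NevPartII

set_option autoImplicit false
set_option maxHeartbeats 1000000
open Filter Topology
open scoped BigOperators

namespace NevT

noncomputable section

theorem floor_sum_ge {I : Type} [Fintype I] (f : I → ℝ) :
    (∑ i, f i) - Fintype.card I ≤ ∑ i, ((⌊f i⌋₊ : ℕ) : ℝ) := by
  have h1 : ∑ i : I, (f i - 1) ≤ ∑ i, ((⌊f i⌋₊ : ℕ) : ℝ) :=
    Finset.sum_le_sum fun i _ => (Nat.sub_one_lt_floor (f i)).le
  rw [Finset.sum_sub_distrib] at h1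
  simpa using h1

/-- construction of the context -/
theorem mk_ctx (rho : ℝ) (q : ℕ) (R Rd sig eps m s0 : ℝ) (N : ℕ) (Cm : ℝ)
    (hrho : 0 < rho) (hrho4 : rho ≤ 1 / 4) (hq : 0 < q) (hR : 0 < R) (hRd : R + 1 ≤ Rd)
    (hq32 : 32 * Rd ≤ q) (hsig : 0 < sig) (hCm0 : 0 < Cm) (hm0 : 0 < m)
    (hmrho : m * (8 * (1 + Cm)) ≤ rho)
    (hmain : ∀ l : ℕ, ‖Bf rho q l * ((rho / Nc rho q l : ℝ) : ℂ) - 1‖ ≤
      1 / 300 + Cm * rho + Cm * Real.exp (-(rho * l / (q : ℝ) ^ 2)))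
    (e : ℕ → ℂ) (he1 : ∀ l, ‖e l‖ = 1) (he2 : ∀ l, Bf rho q l = (‖Bf rho q l‖ : ℂ) * e l)
    {I : ℕ → Type} [∀ l, Fintype (I l)] (α : ∀ l, I l → ℂ) (μ : ∀ l, I l → ℝ)
    (hcfg : ∀ l, Cfg lam (1 / 20) eps R sig s0 m N (e l) (α l) (μ l)) :
    Ctx rho q R Rd (min sig 1) (N + 1) α μ e
      (fun l x => x.elim ⌊Nc rho q l - ‖Bf rho q l‖ * m⌋₊ (fun i => ⌊‖Bf rho q l‖ * μ l i⌋₊)) := by
  have hbm : ∀ l, ‖Bf rho q l‖ * m ≤ Nc rho q l := by
    intro l
    have hN : 0 < Nc rho q l := Real.exp_pos _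
    have h0 : Real.exp (-(rho * l / (q : ℝ) ^ 2)) ≤ 1 := by
      rw [Real.exp_le_one_iff]
      have : 0 ≤ rho * l / (q : ℝ) ^ 2 := by positivity
      linarith
    have h1 : ‖Bf rho q l * ((rho / Nc rho q l : ℝ) : ℂ)‖ = ‖Bf rho q l‖ * (rho / Nc rho q l) := by
      rw [norm_mul, Complex.norm_real, Real.norm_of_nonneg (by positivity)]
    have h2 := norm_le_norm_add_norm_sub' (Bf rho q l * ((rho / Nc rho q l : ℝ) : ℂ)) 1
    rw [h1, norm_one] at h2
    have h3 := hmain l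
    have h4 : Cm * rho ≤ Cm * (1 / 4) := mul_le_mul_of_nonneg_left hrho4 hCm0.le
    have h5 : Cm * Real.exp (-(rho * l / (q : ℝ) ^ 2)) ≤ Cm * 1 :=
      mul_le_mul_of_nonneg_left h0 hCm0.le
    have h6 : ‖Bf rho q l‖ * (rho / Nc rho q l) ≤ 8 * (1 + Cm) := by linarith
    have h7 : ‖Bf rho q l‖ * rho ≤ 8 * (1 + Cm) * Nc rho q l := by
      rw [mul_div_assoc', div_le_iff₀ hN] at h6
      exact h6
    have h8 : 0 < 8 * (1 + Cm) := by positivity
    have h9 : (‖Bf rho q l‖ * m) * (8 * (1 + Cm)) ≤ Nc rho q l * (8 * (1 + Cm)) := by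
      have h10 := mul_le_mul_of_nonneg_left hmrho (norm_nonneg (Bf rho q l))
      linarith
    exact le_of_mul_le_mul_right h9 h8
  refine ⟨hrho, hrho4, hq, hR.le, hRd, hq32, lt_min hsig one_pos, min_le_right _ _, ?_,
    fun l => (hcfg l).bdd, fun l => (hcfg l).nonneg, fun l i => rfl, he1, he2⟩
  refine ⟨?_, ?_, ?_, ?_, ?_⟩
  · intro l
    rw [Fintype.card_option]
    have := (hcfg l).card_le
    omega
  · intro l x
    cases x with
    | none =>
      simp only [PO, Option.elim]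
      rw [Complex.norm_real, Real.norm_of_nonneg (by linarith)]
    | some i =>
      simp only [PO, Option.elim]
      have := (hcfg l).bdd i
      linarith
  · intro l x y hxy
    have hdummy : ∀ i : I l, min sig 1 ≤ ‖((Rd : ℝ) : ℂ) - α l i‖ := by
      intro i
      have h1 := norm_sub_norm_le ((Rd : ℝ) : ℂ) (α l i)
      rw [Complex.norm_real, Real.norm_of_nonneg (by linarith : 0 ≤ Rd)] at h1
      have h2 := (hcfg l).bdd i
      refine (min_le_right _ _).trans ?_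
      linarith
    cases x with
    | none =>
      cases y with
      | none => exact absurd rfl hxy
      | some j => exact hdummy j
    | some i =>
      cases y with
      | none =>
        have := hdummy i
        rw [norm_sub_rev] at this
        exact this
      | some j =>
        refine (min_le_left _ _).trans ?_
        exact (hcfg l).sep i j (fun h => hxy (by rw [h]))
  · intro l
    rw [Fintype.sum_option]
    simp only [Option.elim]
    have h1 : ∑ i : I l, ((⌊‖Bf rho q l‖ * μ l i⌋₊ : ℕ) : ℝ) ≤ ‖Bf rho q l‖ * m := by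
      rw [← (hcfg l).total, Finset.mul_sum]
      exact Finset.sum_le_sum fun i _ =>
        Nat.floor_le (mul_nonneg (norm_nonneg _) ((hcfg l).nonneg i))
    have h2 : ((⌊Nc rho q l - ‖Bf rho q l‖ * m⌋₊ : ℕ) : ℝ) ≤ Nc rho q l - ‖Bf rho q l‖ * m :=
      Nat.floor_le (by linarith [hbm l])
    linarith
  · intro l
    rw [Fintype.sum_option]
    simp only [Option.elim]
    have h1 := floor_sum_ge (fun i : I l => ‖Bf rho q l‖ * μ l i)
    rw [← Finset.mul_sum, (hcfg l).total] at h1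
    have h2 := (Nat.sub_one_lt_floor (Nc rho q l - ‖Bf rho q l‖ * m)).le
    have h3 : ((Fintype.card (I l) : ℕ) : ℝ) ≤ N := by exact_mod_cast (hcfg l).card_le
    push_cast
    linarith

theorem partII (d : ℝ) (hd : 0 < d) : ∃ rho : ℝ, 0 < rho ∧ rho < d ∧ rho < 1 ∧
    ∃ (ι : Type) (_ : Countable ι) (a : ι → ℂ) (ν : ι → ℕ), ZData rho a ν := by
  have hlam : (0 : ℝ) < lam := by unfold lam; norm_num
  have hlam1 : lam ≤ 1 := by unfold lam; norm_num
  obtain ⟨Cn, hCn0, hCn⟩ := others_near 20 (by norm_num)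
  obtain ⟨Cs, hCs0, hCs⟩ := others_sq
  obtain ⟨Cf, hCf0, hCf⟩ := others_field
  obtain ⟨Cm, hCm0, hCm⟩ := main_sum 20 (by norm_num)
  obtain ⟨Ci, hCi0, hCi⟩ := inner_lower 20
  obtain ⟨rho, hrho, hrho4, hrhod, rCm, r1, r2, r3⟩ := exists_rho d Cn Cm Ci hd hCn0 hCm0 hCi0
  refine ⟨rho, hrho, hrhod, by linarith, ?_⟩
  obtain ⟨m, hm0, hmle, eps0, heps0, R, hR, sig, hsig, s0, hs0, N, hA⟩ :=
    A_small lam (1 / 20) (min (rho / (8 * (1 + Cm))) 1) hlam hlam1 (by norm_num)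
      (lt_min (by positivity) one_pos)
  have hm1 : m ≤ 1 := hmle.trans (min_le_right _ _)
  have hmrho : m * (8 * (1 + Cm)) ≤ rho := by
    have := hmle.trans (min_le_left _ _)
    rwa [le_div_iff₀ (by positivity)] at this
  obtain ⟨eps, hepsdef⟩ : ∃ eps, eps = min eps0 1 := ⟨_, rfl⟩
  have heps : 0 < eps := by rw [hepsdef]; exact lt_min heps0 one_pos
  have heps1 : eps ≤ 1 := by rw [hepsdef]; exact min_le_right _ _
  obtain ⟨sg, hsgdef⟩ : ∃ sg, sg = min sig 1 := ⟨_, rfl⟩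
  have hsg : 0 < sg := by rw [hsgdef]; exact lt_min hsig one_pos
  obtain ⟨Rd, hRd⟩ : ∃ Rd, Rd = R + 1 + (20 + 28 * m) / (lam * eps) := ⟨_, rfl⟩
  have hRd1 : R + 1 ≤ Rd := by
    have : 0 ≤ (20 + 28 * m) / (lam * eps) := by positivity
    linarith
  obtain ⟨G, hG⟩ : ∃ G, G = 2 + m / sg := ⟨_, rfl⟩
  have hGpos : 0 < G := by rw [hG]; positivity
  obtain ⟨q, q1, q2, q3, q4, q5, q6, q7, q8, q9⟩ :=
    exists_q Rd Cf Cs eps m sg s0 R G heps hm0 hsg hs0
  have hq : 0 < q := by omega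
  have hq0 : (0 : ℝ) < (q : ℝ) := by exact_mod_cast hq
  have hq1 : (1 : ℝ) ≤ (q : ℝ) := by exact_mod_cast hq
  have hmain : ∀ l : ℕ, ‖Bf rho q l * ((rho / Nc rho q l : ℝ) : ℂ) - 1‖ ≤
      1 / 300 + Cm * rho + Cm * Real.exp (-(rho * l / (q : ℝ) ^ 2)) := fun l =>
    Bf_main Cm rho q l (hCm rho hrho hrho4 q hq l).2
  have he : ∀ l : ℕ, ∃ e : ℂ, ‖e‖ = 1 ∧ Bf rho q l = (‖Bf rho q l‖ : ℂ) * e := by
    intro l
    by_cases h : Bf rho q l = 0
    · exact ⟨1, norm_one, by rw [h]; simp⟩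
    · have hn : ‖Bf rho q l‖ ≠ 0 := norm_ne_zero_iff.2 h
      refine ⟨Bf rho q l / (‖Bf rho q l‖ : ℂ), ?_, ?_⟩
      · rw [norm_div, Complex.norm_real, norm_norm, div_self hn]
      · have hn' : ((‖Bf rho q l‖ : ℝ) : ℂ) ≠ 0 := by exact_mod_cast hn
        field_simp
  choose e he1 he2 using he
  choose I instI α μ hcfg0 using fun l => hA (e l) (he1 l)
  have hcfg : ∀ l, Cfg lam (1 / 20) eps R sig s0 m N (e l) (α l) (μ l) := fun l =>
    J670.Cfg_mono hlam.le (by rw [hepsdef]; exact min_le_left _ _) (hcfg0 l)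
  obtain ⟨ν, hν⟩ : ∃ ν : ∀ l, Option (I l) → ℕ, ν = (fun l x =>
    x.elim ⌊Nc rho q l - ‖Bf rho q l‖ * m⌋₊ (fun i => ⌊‖Bf rho q l‖ * μ l i⌋₊)) := ⟨_, rfl⟩
  have hctx : Ctx rho q R Rd sg (N + 1) α μ e ν := by
    rw [hν, hsgdef]
    exact mk_ctx rho q R Rd sig eps m s0 N Cm hrho hrho4 hq hR hRd1 q1 hsig hCm0 hm0 hmrho hmain
      e he1 he2 α μ hcfg
  have hRd0 : 0 ≤ Rd := by linarith
  have hq8 : 8 * Rd ≤ q := by linarith
  have hgeo := geom q Rd hRd0 hq hq8 (PO Rd α) hctx.sys.bdd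
  have hgrow := block_growth rho hrho hrho4 q hq Rd sg (N + 1) (fun l => Option (I l)) (PO Rd α) ν
    hRd0 hq8 hctx.sys
  have hAn : ∀ l, 0 < ‖Ac q l‖ := fun l => by rw [Ac_norm]; exact Real.exp_pos _
  refine ⟨Σ l, Option (I l), inferInstance, aB q (PO Rd α), nuB ν, ?_⟩
  refine ⟨?_, ?_, hgrow.1, hgrow.2, ?_⟩
  · intro p hp
    have h1 := (hgeo.1 p).1
    rw [hp, norm_zero] at h1
    linarith [hAn p.1]
  · intro p p' hpp
    by_contra hne
    by_cases h1 : p.1 = p'.1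
    · obtain ⟨l, x⟩ := p
      obtain ⟨l', y⟩ := p'
      simp only at h1
      subst h1
      have hxy : x ≠ y := fun h => hne (by rw [h])
      have h2 := hgeo.2.2 l x y
      rw [hpp, sub_self] at h2
      have h3 := hctx.sys.sep l x y hxy
      have h4 : PO Rd α l x - PO Rd α l y ≠ 0 := by
        intro h
        rw [h, norm_zero] at h3
        linarith
      have h5 : Ac q l ≠ 0 := norm_pos_iff.1 (hAn l)
      have h6 : ((q : ℂ)) ^ 2 ≠ 0 := by
        have : (q : ℂ) ≠ 0 := by exact_mod_cast hq.ne'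
        exact pow_ne_zero 2 this
      exact absurd h2.symm (div_ne_zero (mul_ne_zero h5 h4) h6)
    · have h2 := (hgeo.2.1 p p' h1).1
      rw [hpp, sub_self, norm_zero] at h2
      have h3 := Ac_sep q hq p.1 p'.1 h1
      have h4 : 0 < (‖Ac q p.1‖ + ‖Ac q p'.1‖) / (4 * q) := by
        have := hAn p.1
        have := hAn p'.1
        positivity
      linarith
  · -- cover
    obtain ⟨l0, hl0⟩ := (exists_l rho Cm Ci Cf eps s0 sg (N + 1) q hq hrho heps hs0).exists_forall_of_atTop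
    refine ⟨min (s0 / (6 * rho)) (s0 / (6 * G * (q : ℝ) ^ 2)), by positivity,
      Real.exp ((l0 : ℝ) / (q : ℝ) ^ 2), ?_⟩
    intro r hr
    have hr1 : 1 ≤ r := by
      refine le_trans ?_ hr
      rw [← Real.exp_zero]
      exact Real.exp_le_exp.2 (by positivity)
    have hr0 : 0 < r := by linarith
    have hlog0 : 0 ≤ Real.log r := Real.log_nonneg hr1
    have hlogl : (l0 : ℝ) / (q : ℝ) ^ 2 ≤ Real.log r := by
      rw [Real.le_log_iff_exp_le hr0]; exact hr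
    obtain ⟨t, ht⟩ : ∃ t, t = (q : ℝ) ^ 2 * Real.log r := ⟨_, rfl⟩
    have ht0 : 0 ≤ t := by rw [ht]; positivity
    obtain ⟨l, hl⟩ : ∃ l, l = ⌊t⌋₊ := ⟨_, rfl⟩
    have hlt : (l : ℝ) ≤ t := by rw [hl]; exact Nat.floor_le ht0
    have hlt2 : t < l + 1 := by rw [hl]; exact Nat.lt_floor_add_one t
    have hll0 : l0 ≤ l := by
      rw [hl]
      apply Nat.le_floor
      rw [ht]
      rw [div_le_iff₀ (by positivity)] at hlogl
      linarith
    obtain ⟨tp, htp⟩ : ∃ tp, tp = t - l := ⟨_, rfl⟩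
    have htp0 : 0 ≤ tp := by rw [htp]; linarith
    have htp1 : tp ≤ 1 := by rw [htp]; linarith
    have hrexp : r = ‖Ac q l‖ * Real.exp (tp / (q : ℝ) ^ 2) := by
      rw [Ac_norm, ← Real.exp_add, ← add_div, htp]
      have h1 : ((l : ℝ) + (t - l)) / (q : ℝ) ^ 2 = Real.log r := by
        rw [ht]; field_simp; ring
      rw [h1, Real.exp_log hr0]
    obtain ⟨l1, l2, l3, l4, l5⟩ := hl0 l hll0
    obtain ⟨j, hgood, hμj, hcov⟩ := (hcfg l).cover tp ⟨htp0, htp1⟩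
    have hn0 : ‖Bf rho q l * ((rho / Nc rho q l : ℝ) : ℂ) - 1‖ ≤ 1 / 50 := by
      have := hmain l
      linarith
    have hgl := good_l hctx l j Cn Cs Cf Ci eps m s0 hCn0 hCs0 hCf0
      (hCn rho hrho hrho4 q hq Rd sg (N + 1) (fun l => Option (I l)) (PO Rd α) ν hRd0 hq8
        hctx.sys ⟨l, some j⟩)
      (hCs rho hrho hrho4 q hq Rd sg (N + 1) (fun l => Option (I l)) (PO Rd α) ν hRd0 hq8
        hctx.sys ⟨l, some j⟩)
      (hCf rho hrho hrho4 q hq Rd sg (N + 1) (fun l => Option (I l)) (PO Rd α) ν hRd0 hq8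
        hctx.sys ⟨l, some j⟩)
      (hCi rho hrho hrho4 q hq l) (hcfg l).total hm0 hm1 heps heps1 hs0 hgood hμj r1 r2 r3 hRd q2
      q3 q4 q5 q6 q7 q8 hn0 l2 l3 l4 l5
    obtain ⟨hG1, hblow, hslow⟩ := hgl
    obtain ⟨b, hbdef⟩ : ∃ b, b = ‖Bf rho q l‖ := ⟨_, rfl⟩
    obtain ⟨Nl, hNl⟩ : ∃ Nl, Nl = Nc rho q l := ⟨_, rfl⟩
    obtain ⟨A0, hA0⟩ : ∃ A0, A0 = ‖Ac q l‖ := ⟨_, rfl⟩
    obtain ⟨F0, hF0⟩ : ∃ F0, F0 = ‖fld (α l) (μ l) (e l) j 0‖ := ⟨_, rfl⟩
    obtain ⟨s, hs⟩ : ∃ s, s = sz (aB q (PO Rd α)) (nuB ν) ⟨l, some j⟩ := ⟨_, rfl⟩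
    have hA0pos : 0 < A0 := by rw [hA0]; exact hAn l
    have hNlpos : 0 < Nl := by rw [hNl]; exact Real.exp_pos _
    rw [← hbdef, ← hNl] at hblow
    rw [← hbdef, ← hA0, ← hF0, ← hs] at hslow
    rw [← hNl] at l3
    have hNr : 0 < Nl / rho := by positivity
    have hbpos : 0 < b := lt_of_lt_of_le (by positivity) hblow
    have hbs : 12 ≤ b * s0 := by
      have := mul_le_mul_of_nonneg_right hblow hs0.le
      linarith
    have hbμ : b * s0 ≤ b * μ l j := mul_le_mul_of_nonneg_left hμj hbpos.le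
    have hq2pos : (0 : ℝ) < (q : ℝ) ^ 2 := by positivity
    have hq2ge : (1 : ℝ) ≤ (q : ℝ) ^ 2 := one_le_pow₀ hq1
    have hx1 : tp / (q : ℝ) ^ 2 ≤ 1 := by
      rw [div_le_one hq2pos]; linarith
    have hexp1 : Real.exp 1 ≤ 3 := by
      have := Real.exp_one_lt_d9
      linarith
    have hsepα : ∀ i, i ≠ j → sg ≤ ‖α l i - α l j‖ := fun i hij =>
      hctx.sys.sep l (some i) (some j) (by simpa using hij)
    have hF0u : F0 ≤ 1 + m / sg := by
      rw [hF0, ← (hcfg l).total]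
      exact Top.fld_upper (hcfg l).nonneg (he1 l) hsg hsepα 0 le_rfl
    have hF0n : 0 ≤ F0 := by rw [hF0]; exact norm_nonneg _
    have hFG : F0 + eps / 4 ≤ G := by rw [hG]; linarith
    have hgc := geo_cover q l hq R hR.le (by linarith) (α l j) ((hcfg l).bdd j) tp htp0 htp1
    rw [← hrexp, ← hA0] at hgc
    rw [← hF0] at hcov
    have harith := cover_arith b (A0 / (q : ℝ) ^ 2) s F0 G eps (μ l j) tp (α l j).re R q m s0
      |‖Ac q l * (1 + α l j / (q : ℂ) ^ 2)‖ - r| hbpos (by positivity) hF0n heps hFG hslow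
      (by linarith) q9 hbs hs0 hμj hgc
    have hrA : r ≤ 3 * A0 := by
      rw [hrexp, ← hA0]
      have h1 : Real.exp (tp / (q : ℝ) ^ 2) ≤ 3 := (Real.exp_le_exp.2 hx1).trans hexp1
      have h2 := mul_le_mul_of_nonneg_left h1 hA0pos.le
      linarith
    refine ⟨⟨l, some j⟩, hG1, ?_, ?_, ?_⟩
    · -- multiplicity
      have hν1 : b * μ l j - 1 ≤ (nuB ν ⟨l, some j⟩ : ℝ) := by
        have h1 : nuB ν ⟨l, some j⟩ = ⌊b * μ l j⌋₊ := by
          rw [hbdef]; exact hctx.nu_some l j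
        rw [h1]
        exact (Nat.sub_one_lt_floor _).le
      have hrN : r ^ rho ≤ 3 * Nl := by
        rw [hrexp, Ac_norm, ← Real.exp_add, ← Real.exp_mul, hNl]
        unfold Nc
        have h1 : ((l : ℝ) / (q : ℝ) ^ 2 + tp / (q : ℝ) ^ 2) * rho =
            rho * l / (q : ℝ) ^ 2 + tp / (q : ℝ) ^ 2 * rho := by ring
        rw [h1, Real.exp_add]
        have h2 : tp / (q : ℝ) ^ 2 * rho ≤ 1 := by
          have h3 : tp / (q : ℝ) ^ 2 * rho ≤ 1 * 1 :=
            mul_le_mul hx1 (by linarith) hrho.le (by norm_num)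
          linarith
        have h3 : Real.exp (tp / (q : ℝ) ^ 2 * rho) ≤ 3 := (Real.exp_le_exp.2 h2).trans hexp1
        have h4 := mul_le_mul_of_nonneg_left h3 (Real.exp_pos (rho * l / (q : ℝ) ^ 2)).le
        linarith
      have h1 : min (s0 / (6 * rho)) (s0 / (6 * G * (q : ℝ) ^ 2)) * r ^ rho ≤
          s0 / (6 * rho) * (3 * Nl) := by
        apply mul_le_mul (min_le_left _ _) hrN (by positivity) (by positivity)
      have h2 : s0 / (6 * rho) * (3 * Nl) = (1 / 2) * ((Nl / rho) * s0) := by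
        field_simp
        ring
      have h3 := mul_le_mul_of_nonneg_right hblow hs0.le
      linarith
    · -- size
      rw [← hs]
      refine le_trans ?_ harith.2
      have h1 : min (s0 / (6 * rho)) (s0 / (6 * G * (q : ℝ) ^ 2)) * r ≤
          s0 / (6 * G * (q : ℝ) ^ 2) * (3 * A0) := by
        apply mul_le_mul (min_le_right _ _) hrA hr0.le (by positivity)
      have h2 : s0 / (6 * G * (q : ℝ) ^ 2) * (3 * A0) = s0 * (A0 / (q : ℝ) ^ 2) / (2 * G) := by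
        field_simp
        ring
      linarith
    · rw [← hs]
      exact harith.1

end

end NevT
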