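import Pool.Agent.Helper551.NevDefs

set_option autoImplicit false

open MeasureTheory Filter Topology

open scoped BigOperators

namespace NevT.J664

noncomputable section

open Function.locallyFinsuppWithin in
theorem logCounting_repr (D : Function.locallyFinsupp ℂ ℤ) (R' ρ : ℝ) (hρ : 0 < ρ)
    (hρR : ρ ≤ R') (S : Finset ℂ) (hS : ∀ z, z ∈ S ↔ D z ≠ 0 ∧ z ∈ Metric.closedBall (0 : ℂ) R') :
    logCounting D ρ = ∑ z ∈ S, (D z : ℝ) * max 0 (Real.log (ρ * ‖z‖⁻¹)) + (D 0) * Real.log ρ := by
  simp only [logCounting, AddMonoidHom.coe_mk, ZeroHom.coe_mk]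
  congr 1
  rw [finsum_eq_sum_of_support_subset (s := S)]
  · refine Finset.sum_congr rfl fun z hz => ?_
    by_cases h : z ∈ Metric.closedBall (0 : ℂ) |ρ|
    · rw [toClosedBall_eval_within _ h]
      by_cases h0 : z = 0
      · subst h0; simp
      · rw [max_eq_right]
        apply Real.log_nonneg
        have hz0 : 0 < ‖z‖ := norm_pos_iff.mpr h0
        rw [le_mul_inv_iff₀ hz0, one_mul]
        rw [abs_of_pos hρ] at h
        simpa using h
    · have h1 : toClosedBall ρ D z = 0 := Function.locallyFinsuppWithin.apply_eq_zero_of_notMem _ h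
      rw [h1]
      have h0 : z ≠ 0 := by
        rintro rfl
        apply h; simp
      have hz0 : 0 < ‖z‖ := norm_pos_iff.mpr h0
      rw [max_eq_left]
      · simp
      · apply Real.log_nonpos
        · positivity
        · rw [mul_inv_le_iff₀ hz0, one_mul]
          rw [abs_of_pos hρ] at h
          have : ρ < ‖z‖ := by simpa using h
          exact this.le
  · intro z hz
    rw [Function.mem_support] at hz
    have h1 : toClosedBall ρ D z ≠ 0 := by
      intro h; apply hz; rw [h]; simp
    have h2 : z ∈ Metric.closedBall (0 : ℂ) |ρ| := by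
      by_contra h
      exact h1 (Function.locallyFinsuppWithin.apply_eq_zero_of_notMem _ h)
    rw [Finset.mem_coe, hS]
    refine ⟨?_, ?_⟩
    · rw [toClosedBall_eval_within _ h2] at h1; exact h1
    · rw [abs_of_pos hρ] at h2
      simp only [Metric.mem_closedBall, dist_zero_right] at h2 ⊢
      linarith

theorem max_log_convex (r R R' t : ℝ) (hr : 0 < r) (hrR : r ≤ R) (hRR : R ≤ R') (ht : 0 ≤ t) :
    (max 0 (Real.log (R * t⁻¹)) - max 0 (Real.log (r * t⁻¹))) * Real.log (R' / R) ≤
      Real.log (R / r) * (max 0 (Real.log (R' * t⁻¹)) - max 0 (Real.log (R * t⁻¹))) := by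
  have hR : 0 < R := by linarith
  have hR' : 0 < R' := by linarith
  rcases ht.eq_or_lt with h0 | h0
  · subst h0; simp
  have e : ∀ x, 0 < x → Real.log (x * t⁻¹) = Real.log x - Real.log t := by
    intro x hx
    rw [← div_eq_mul_inv, Real.log_div hx.ne' h0.ne']
  rw [e r hr, e R hR, e R' hR', Real.log_div hR'.ne' hR.ne', Real.log_div hR.ne' hr.ne']
  have h1 : Real.log r ≤ Real.log R := Real.log_le_log hr hrR
  have h2 : Real.log R ≤ Real.log R' := Real.log_le_log hR hRR
  set a := Real.log r
  set b := Real.log R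
  set c := Real.log R'
  set τ := Real.log t
  rcases le_total b τ with h | h
  · rw [max_eq_left (by linarith : b - τ ≤ 0), max_eq_left (by linarith : a - τ ≤ 0)]
    have : 0 ≤ max 0 (c - τ) := le_max_left _ _
    nlinarith
  · rw [max_eq_right (by linarith : 0 ≤ b - τ), max_eq_right (by linarith : 0 ≤ c - τ)]
    have : a - τ ≤ max 0 (a - τ) := le_max_right _ _
    nlinarith

open Function.locallyFinsuppWithin in
theorem logCounting_convex (D : Function.locallyFinsupp ℂ ℤ) (hD : 0 ≤ D) (r R R' : ℝ) (hr : 0 < r)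
    (hrR : r ≤ R) (hRR : R ≤ R') :
    (logCounting D R - logCounting D r) * Real.log (R' / R) ≤
      Real.log (R / r) * (logCounting D R' - logCounting D R) := by
  have hR : 0 < R := by linarith
  have hR' : 0 < R' := by linarith
  have hfin : (toClosedBall R' D).support.Finite :=
    (toClosedBall R' D).finiteSupport (isCompact_closedBall 0 |R'|)
  have hS : ∀ z, z ∈ hfin.toFinset ↔ D z ≠ 0 ∧ z ∈ Metric.closedBall (0 : ℂ) R' := by
    intro z
    rw [Set.Finite.mem_toFinset, Function.mem_support]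
    constructor
    · intro h
      have h2 : z ∈ Metric.closedBall (0 : ℂ) |R'| := by
        by_contra hz
        exact h (Function.locallyFinsuppWithin.apply_eq_zero_of_notMem _ hz)
      rw [toClosedBall_eval_within _ h2] at h
      rw [abs_of_pos hR'] at h2
      exact ⟨h, h2⟩
    · rintro ⟨h, h2⟩
      rw [← abs_of_pos hR'] at h2
      rw [toClosedBall_eval_within _ h2]
      exact h
  rw [logCounting_repr D R' r hr (hrR.trans hRR) _ hS, logCounting_repr D R' R hR hRR _ hS,
    logCounting_repr D R' R' hR' le_rfl _ hS]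
  have e1 : (∑ z ∈ hfin.toFinset, (D z : ℝ) * max 0 (Real.log (R * ‖z‖⁻¹)) + (D 0) * Real.log R -
      (∑ z ∈ hfin.toFinset, (D z : ℝ) * max 0 (Real.log (r * ‖z‖⁻¹)) + (D 0) * Real.log r)) *
      Real.log (R' / R) = ∑ z ∈ hfin.toFinset, (D z : ℝ) *
        ((max 0 (Real.log (R * ‖z‖⁻¹)) - max 0 (Real.log (r * ‖z‖⁻¹))) * Real.log (R' / R)) +
        D 0 * (Real.log (R / r) * Real.log (R' / R)) := by
    rw [Real.log_div hR.ne' hr.ne']
    rw [show ∀ a b c d : ℝ, a + b - (c + d) = (a - c) + (b - d) by intros; ring]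
    rw [← Finset.sum_sub_distrib, add_mul, Finset.sum_mul]
    congr 1
    · refine Finset.sum_congr rfl fun z _ => by ring
    · ring
  have e2 : Real.log (R / r) * (∑ z ∈ hfin.toFinset, (D z : ℝ) * max 0 (Real.log (R' * ‖z‖⁻¹)) +
      (D 0) * Real.log R' -
      (∑ z ∈ hfin.toFinset, (D z : ℝ) * max 0 (Real.log (R * ‖z‖⁻¹)) + (D 0) * Real.log R)) =
      ∑ z ∈ hfin.toFinset, (D z : ℝ) *
        (Real.log (R / r) * (max 0 (Real.log (R' * ‖z‖⁻¹)) - max 0 (Real.log (R * ‖z‖⁻¹)))) +
        D 0 * (Real.log (R / r) * Real.log (R' / R)) := by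
    rw [Real.log_div hR'.ne' hR.ne']
    rw [show ∀ a b c d : ℝ, a + b - (c + d) = (a - c) + (b - d) by intros; ring]
    rw [← Finset.sum_sub_distrib, mul_add, Finset.mul_sum]
    congr 1
    · refine Finset.sum_congr rfl fun z _ => by ring
    · ring
  rw [e1, e2]
  refine add_le_add (Finset.sum_le_sum fun z _ => mul_le_mul_of_nonneg_left
    (max_log_convex r R R' _ hr hrR hRR (norm_nonneg z)) (Int.cast_nonneg (hD z))) le_rfl

theorem T_eq_circleAverage (r : ℝ) (f : ℂ → ℂ) :
    T r f = Real.circleAverage (fun z => Real.posLog ‖f z‖) 0 r := by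
  unfold T Real.circleAverage
  rw [smul_eq_mul, one_div]
  rfl

open ValueDistribution in
theorem T_eq_characteristic (f : ℂ → ℂ) (hf : Differentiable ℂ f) (r : ℝ) :
    T r f = characteristic f ⊤ r := by
  rw [T_eq_circleAverage]
  unfold characteristic
  rw [Pi.add_apply, proximity_top]
  have h1 : logCounting f ⊤ = 0 := by
    rw [logCounting_top]
    have : (MeromorphicOn.divisor f Set.univ)⁻ = 0 := by
      rw [negPart_eq_zero]
      exact MeromorphicOn.AnalyticOnNhd.divisor_nonneg (fun z _ => hf.analyticAt z)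
    rw [this, map_zero]
  rw [h1]
  simp

open ValueDistribution in
theorem T_convex (f : ℂ → ℂ) (hf : Differentiable ℂ f) (r R R' : ℝ) (hr : 0 < r) (hrR : r ≤ R)
    (hRR : R ≤ R') :
    (T R f - T r f) * Real.log (R' / R) ≤ Real.log (R / r) * (T R' f - T R f) := by
  have hR : 0 < R := by linarith
  have hR' : 0 < R' := by linarith
  have hm : Meromorphic f := fun z => (hf.analyticAt z).meromorphicAt
  rw [T_eq_characteristic f hf, T_eq_characteristic f hf, T_eq_characteristic f hf]
  obtain ⟨K, hK⟩ := characteristic_top_eq_circleAverage_add_const hm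
  rw [hK r hr.ne', hK R hR.ne', hK R' hR'.ne']
  have hi : ∀ ρ, CircleIntegrable (logCounting f · ρ) 0 1 := fun ρ => circleIntegrable_logCounting hm
  have e1 : (Real.circleAverage (logCounting f · R) 0 1 + K -
      (Real.circleAverage (logCounting f · r) 0 1 + K)) * Real.log (R' / R) =
      Real.circleAverage (fun a : ℂ => Real.log (R' / R) • (logCounting f a R - logCounting f a r))
        0 1 := by
    rw [Real.circleAverage_fun_smul, Real.circleAverage_fun_sub (hi R) (hi r), smul_eq_mul]
    ring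
  have e2 : Real.log (R / r) * (Real.circleAverage (logCounting f · R') 0 1 + K -
      (Real.circleAverage (logCounting f · R) 0 1 + K)) =
      Real.circleAverage (fun a : ℂ => Real.log (R / r) • (logCounting f a R' - logCounting f a R))
        0 1 := by
    rw [Real.circleAverage_fun_smul, Real.circleAverage_fun_sub (hi R') (hi R), smul_eq_mul]
    ring
  rw [e1, e2]
  refine Real.circleAverage_mono ?_ ?_ ?_
  · exact CircleIntegrable.const_fun_smul ((hi R).sub (hi r))
  · exact CircleIntegrable.const_fun_smul ((hi R').sub (hi R))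
  · intro a _
    rw [logCounting_coe, smul_eq_mul, smul_eq_mul, mul_comm]
    exact logCounting_convex _ (posPart_nonneg _) r R R' hr hrR hRR

theorem T_mono (f : ℂ → ℂ) (hf : Differentiable ℂ f) (r R : ℝ) (hr : 0 < r) (hrR : r ≤ R) :
    T r f ≤ T R f := by
  have hm : Meromorphic f := fun z => (hf.analyticAt z).meromorphicAt
  rw [T_eq_characteristic f hf, T_eq_characteristic f hf]
  exact ValueDistribution.characteristic_monotoneOn hm hr (lt_of_lt_of_le hr hrR) hrR

/-- sub mean value property -/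
theorem submean (f : ℂ → ℂ) (hf : Differentiable ℂ f) (w : ℂ) (x : ℝ) :
    Real.posLog ‖f w‖ ≤ Real.circleAverage (fun z => Real.posLog ‖f z‖) w x := by
  rcases eq_or_ne x 0 with h0 | h0
  · subst h0
    rw [Real.circleAverage_zero]
  have hcont : Continuous (fun z => Real.posLog ‖f z‖) :=
    Real.continuous_posLog.comp (hf.continuous.norm)
  have hci : CircleIntegrable (fun z => Real.posLog ‖f z‖) w x :=
    hcont.continuousOn.circleIntegrable'
  have hnn : 0 ≤ Real.circleAverage (fun z => Real.posLog ‖f z‖) w x :=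
    Real.circleAverage_nonneg_of_nonneg (fun z _ => Real.posLog_nonneg)
  by_cases hw : f w = 0
  · rw [hw]; simpa using hnn
  have hA : AnalyticOnNhd ℂ f (Metric.closedBall w |x|) := fun z _ => hf.analyticAt z
  have h1 := AnalyticOnNhd.circleAverage_log_norm h0 hA hw
  have h2 : 0 ≤ ∑ᶠ u, (MeromorphicOn.divisor f (Metric.closedBall w |x|) u : ℝ) *
      Real.log (x * ‖w - u‖⁻¹) := by
    refine finsum_nonneg fun u => ?_
    by_cases hu : u ∈ Metric.closedBall w |x|
    · have hd : (0 : ℝ) ≤ MeromorphicOn.divisor f (Metric.closedBall w |x|) u := by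
        exact_mod_cast MeromorphicOn.AnalyticOnNhd.divisor_nonneg hA u
      refine mul_nonneg hd ?_
      rw [← Real.log_abs, abs_mul, abs_inv, abs_norm]
      by_cases hwu : w = u
      · subst hwu; simp
      · have : 0 < ‖w - u‖ := norm_pos_iff.2 (sub_ne_zero.2 hwu)
        apply Real.log_nonneg
        rw [le_mul_inv_iff₀ this, one_mul]
        rw [Metric.mem_closedBall, dist_comm, dist_eq_norm] at hu
        exact hu
    · rw [Function.locallyFinsuppWithin.apply_eq_zero_of_notMem _ hu]
      simp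
  have h3 : Real.log ‖f w‖ ≤ Real.circleAverage (fun z => Real.log ‖f z‖) w x := by
    have h1' : Real.circleAverage (fun z => Real.log ‖f z‖) w x = _ := h1
    rw [h1']
    linarith
  have h4 : Real.circleAverage (fun z => Real.log ‖f z‖) w x ≤
      Real.circleAverage (fun z => Real.posLog ‖f z‖) w x := by
    refine Real.circleAverage_mono ?_ hci (fun z _ => le_max_right _ _)
    exact (hA.meromorphicOn.mono_set Metric.sphere_subset_closedBall).circleIntegrable_log_norm
  exact max_le hnn (h3.trans h4)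

theorem circleAverage_rot (g : ℂ → ℝ) (c ζ : ℂ) :
    Real.circleAverage (fun z => g (c + z)) 0 ‖ζ‖ =
      (2 * Real.pi)⁻¹ * ∫ α in (0 : ℝ)..(2 * Real.pi), g (c + Complex.exp (α * Complex.I) * ζ) := by
  rw [Real.circleAverage_eq_integral_add (Complex.arg ζ), smul_eq_mul]
  congr 2
  funext α
  congr 2
  rw [circleMap_zero]
  conv_rhs => rw [← Complex.norm_mul_exp_arg_mul_I ζ]
  push_cast
  rw [add_mul, Complex.exp_add]
  ring

theorem setIntegral_rot (g : ℂ → ℝ) (a : ℂ) (s α : ℝ) :
    ∫ ζ in Metric.ball a s, g (Complex.exp (α * Complex.I) * ζ) =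
      ∫ ζ in Metric.ball (Complex.exp (α * Complex.I) * a) s, g ζ := by
  let R := rotation (Circle.exp α)
  have hR : ∀ z, R z = Complex.exp (α * Complex.I) * z := by
    intro z
    rw [rotation_apply, Circle.coe_exp]
  have hmp : MeasurePreserving R volume volume := R.measurePreserving
  have h := hmp.setIntegral_preimage_emb R.toHomeomorph.measurableEmbedding g
    (Metric.ball (Complex.exp (α * Complex.I) * a) s)
  rw [← h]
  have hb : R ⁻¹' (Metric.ball (Complex.exp (α * Complex.I) * a) s) = Metric.ball a s := by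
    rw [← hR a]
    ext z
    simp only [Set.mem_preimage, Metric.mem_ball, R.dist_map]
  rw [hb]
  refine integral_congr_ae (Eventually.of_forall fun z => ?_)
  simp only [hR]

theorem integrable_prod_ball (h : ℝ → ℂ → ℝ) (hh : Continuous (Function.uncurry h)) (a : ℂ)
    (s L : ℝ) :
    Integrable (Function.uncurry h)
      ((volume.restrict (Set.Ioc 0 L)).prod (volume.restrict (Metric.ball a s))) := by
  rw [Measure.prod_restrict]
  have : IntegrableOn (Function.uncurry h) (Set.Icc 0 L ×ˢ Metric.closedBall a s)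
      (volume.prod volume) :=
    hh.continuousOn.integrableOn_compact (isCompact_Icc.prod (isCompact_closedBall a s))
  exact this.mono_set (Set.prod_mono Set.Ioc_subset_Icc_self Metric.ball_subset_closedBall)

theorem swap_ball (h : ℝ → ℂ → ℝ) (hh : Continuous (Function.uncurry h)) (a : ℂ) (s : ℝ) :
    ∫ α in (0 : ℝ)..(2 * Real.pi), ∫ u in Metric.ball a s, h α u =
      ∫ u in Metric.ball a s, ∫ α in (0 : ℝ)..(2 * Real.pi), h α u := by
  rw [intervalIntegral.integral_of_le (by positivity)]
  simp_rw [intervalIntegral.integral_of_le (show (0 : ℝ) ≤ 2 * Real.pi by positivity)]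
  exact MeasureTheory.integral_integral_swap (integrable_prod_ball h hh a s _)

theorem ball_avg (g : ℂ → ℝ) (hg : Continuous g) (c : ℂ) (s : ℝ) :
    ∫ ζ in Metric.ball (0 : ℂ) s, g (c + ζ) =
      ∫ ζ in Metric.ball (0 : ℂ) s, Real.circleAverage (fun z => g (c + z)) 0 ‖ζ‖ := by
  simp_rw [circleAverage_rot]
  rw [MeasureTheory.integral_const_mul, ← swap_ball (fun α ζ => g (c + Complex.exp (α * Complex.I) * ζ))
    (by unfold Function.uncurry; fun_prop)]
  have : ∀ α : ℝ, ∫ u in Metric.ball (0 : ℂ) s, g (c + Complex.exp (α * Complex.I) * u) =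
      ∫ ζ in Metric.ball (0 : ℂ) s, g (c + ζ) := by
    intro α
    rw [setIntegral_rot (fun z => g (c + z)) 0 s α, mul_zero]
  simp_rw [this]
  rw [intervalIntegral.integral_const, smul_eq_mul, sub_zero, ← mul_assoc, inv_mul_cancel₀, one_mul]
  positivity

/-- area version of the sub mean value property -/
theorem submean_area (f : ℂ → ℂ) (hf : Differentiable ℂ f) (w : ℂ) (s : ℝ) (hs : 0 < s) :
    (Real.pi * s ^ 2) * Real.posLog ‖f w‖ ≤ ∫ z in Metric.ball w s, Real.posLog ‖f z‖ := by
  have hcont : Continuous (fun z => Real.posLog ‖f z‖) :=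
    Real.continuous_posLog.comp (hf.continuous.norm)
  have h1 : ∫ z in Metric.ball w s, Real.posLog ‖f z‖ =
      ∫ ζ in Metric.ball (0 : ℂ) s, Real.posLog ‖f (w + ζ)‖ := by
    have hmp : MeasurePreserving (fun z : ℂ => w + z) volume volume :=
      measurePreserving_add_left volume w
    have h := hmp.setIntegral_preimage_emb (Homeomorph.addLeft w).measurableEmbedding
      (fun z => Real.posLog ‖f z‖) (Metric.ball w s)
    rw [← h]
    congr 2
    ext z
    simp [Metric.mem_ball, dist_eq_norm]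
  rw [h1, ball_avg (fun z => Real.posLog ‖f z‖) hcont w s]
  have hvol : (volume (Metric.ball (0 : ℂ) s)).toReal = Real.pi * s ^ 2 := by
    rw [Complex.volume_ball]
    simp [hs.le]
    ring
  have h2 : ∫ ζ in Metric.ball (0 : ℂ) s, Real.posLog ‖f w‖ = (Real.pi * s ^ 2) * Real.posLog ‖f w‖ := by
    rw [setIntegral_const, smul_eq_mul, Measure.real, hvol]
  rw [← h2]
  refine setIntegral_mono_on ?_ ?_ measurableSet_ball ?_
  · exact (continuous_const.continuousOn.integrableOn_compact
      (isCompact_closedBall (0 : ℂ) s)).mono_set Metric.ball_subset_closedBall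
  · have hc : Continuous (fun ζ : ℂ =>
        Real.circleAverage (fun z => Real.posLog ‖f (w + z)‖) 0 ‖ζ‖) := by
      have h3 : Continuous (fun x : ℝ =>
          Real.circleAverage (fun z => Real.posLog ‖f (w + z)‖) 0 x) := by
        have h5 : Continuous (fun z : ℂ => Real.posLog ‖f (w + z)‖) :=
          hcont.comp (continuous_const.add continuous_id)
        exact Real.Continuous.circleAverage h5
      exact h3.comp continuous_norm
    exact (hc.continuousOn.integrableOn_compact
      (isCompact_closedBall (0 : ℂ) s)).mono_set Metric.ball_subset_closedBall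
  · intro ζ _
    have h4 := submean f hf w ‖ζ‖
    have h6 := Real.circleAverage_map_add_const (f := fun z => Real.posLog ‖f z‖) (c := w) (R := ‖ζ‖)
    simp only [add_comm w]
    rw [h6]
    exact h4

theorem setIntegral_rot' (g : ℂ → ℝ) (a : ℂ) (s α : ℝ) :
    ∫ ζ in Metric.closedBall a s, g (Complex.exp (α * Complex.I) * ζ) =
      ∫ ζ in Metric.closedBall (Complex.exp (α * Complex.I) * a) s, g ζ := by
  let R := rotation (Circle.exp α)
  have hR : ∀ z, R z = Complex.exp (α * Complex.I) * z := by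
    intro z
    rw [rotation_apply, Circle.coe_exp]
  have hmp : MeasurePreserving R volume volume := R.measurePreserving
  have h := hmp.setIntegral_preimage_emb R.toHomeomorph.measurableEmbedding g
    (Metric.closedBall (Complex.exp (α * Complex.I) * a) s)
  rw [← h]
  have hb : R ⁻¹' (Metric.closedBall (Complex.exp (α * Complex.I) * a) s) =
      Metric.closedBall a s := by
    rw [← hR a]
    ext z
    simp only [Set.mem_preimage, Metric.mem_closedBall, R.dist_map]
  rw [hb]
  refine integral_congr_ae (Eventually.of_forall fun z => ?_)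
  simp only [hR]

theorem swap_ball' (h : ℝ → ℂ → ℝ) (hh : Continuous (Function.uncurry h)) (a : ℂ) (s : ℝ) :
    ∫ α in (0 : ℝ)..(2 * Real.pi), ∫ u in Metric.closedBall a s, h α u =
      ∫ u in Metric.closedBall a s, ∫ α in (0 : ℝ)..(2 * Real.pi), h α u := by
  have hint : Integrable (Function.uncurry h)
      ((volume.restrict (Set.Ioc 0 (2 * Real.pi))).prod
        (volume.restrict (Metric.closedBall a s))) := by
    rw [Measure.prod_restrict]
    have : IntegrableOn (Function.uncurry h) (Set.Icc 0 (2 * Real.pi) ×ˢ Metric.closedBall a s)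
        (volume.prod volume) :=
      hh.continuousOn.integrableOn_compact (isCompact_Icc.prod (isCompact_closedBall a s))
    exact this.mono_set (Set.prod_mono Set.Ioc_subset_Icc_self subset_rfl)
  rw [intervalIntegral.integral_of_le (by positivity)]
  simp_rw [intervalIntegral.integral_of_le (show (0 : ℝ) ≤ 2 * Real.pi by positivity)]
  exact MeasureTheory.integral_integral_swap hint

/-- the averaged majorant -/
def A (f : ℂ → ℂ) (r s t θ : ℝ) : ℝ :=
  (Real.pi * s ^ 2)⁻¹ *
    ∫ u in Metric.closedBall (r : ℂ) t, Real.posLog ‖f (Complex.exp (θ * Complex.I) * u)‖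

theorem cont_pl (f : ℂ → ℂ) (hf : Differentiable ℂ f) : Continuous (fun z => Real.posLog ‖f z‖) :=
  Real.continuous_posLog.comp (hf.continuous.norm)

theorem A_cont (f : ℂ → ℂ) (hf : Differentiable ℂ f) (r s t : ℝ) :
    Continuous (A f r s t) := by
  unfold A
  refine continuous_const.mul ?_
  refine continuous_parametric_integral_of_continuous
    (f := fun (θ : ℝ) (u : ℂ) => Real.posLog ‖f (Complex.exp (θ * Complex.I) * u)‖) ?_
    (isCompact_closedBall (r : ℂ) t)
  have h := cont_pl f hf
  exact h.comp (by fun_prop : Continuous fun p : ℝ × ℂ => Complex.exp (p.1 * Complex.I) * p.2)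

theorem A_nonneg (f : ℂ → ℂ) (r s t θ : ℝ) : 0 ≤ A f r s t θ := by
  unfold A
  refine mul_nonneg (by positivity) ?_
  exact integral_nonneg fun u => Real.posLog_nonneg

theorem A_ge (f : ℂ → ℂ) (hf : Differentiable ℂ f) (r s d θ : ℝ) (hs : 0 < s) (w : ℂ)
    (hw : ‖w - Complex.exp (θ * Complex.I) * r‖ ≤ d) :
    Real.posLog ‖f w‖ ≤ A f r s (s + d) θ := by
  have hc := cont_pl f hf
  have h1 := submean_area f hf w s hs
  have h2 : ∫ z in Metric.ball w s, Real.posLog ‖f z‖ ≤
      ∫ z in Metric.closedBall (Complex.exp (θ * Complex.I) * r) (s + d), Real.posLog ‖f z‖ := by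
    refine setIntegral_mono_set ?_ ?_ ?_
    · exact hc.continuousOn.integrableOn_compact (isCompact_closedBall _ _)
    · exact Eventually.of_forall fun u => Real.posLog_nonneg
    · refine (Metric.ball_subset_ball' (ε₂ := s + d) ?_).trans
        Metric.ball_subset_closedBall |>.eventuallyLE
      rw [dist_eq_norm]
      linarith
  have h3 := setIntegral_rot' (fun z => Real.posLog ‖f z‖) (r : ℂ) (s + d) θ
  unfold A
  rw [h3, ← mul_le_mul_iff_right₀ (show 0 < Real.pi * s ^ 2 by positivity), ← mul_assoc,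
    mul_inv_cancel₀ (by positivity), one_mul]
  exact h1.trans h2

theorem deriv_le_A (f : ℂ → ℂ) (hf : Differentiable ℂ f) (r s d θ : ℝ) (hs : 0 < s)
    (hd : 0 < d) (hd1 : d ≤ 1) :
    Real.posLog ‖deriv f (circleMap 0 r θ)‖ ≤ Real.log (1 / d) + A f r s (s + d) θ := by
  have hz : circleMap 0 r θ = Complex.exp (θ * Complex.I) * r := by
    rw [circleMap_zero, mul_comm]
  have h1 : ∀ w ∈ Metric.sphere (circleMap 0 r θ) d, ‖f w‖ ≤ Real.exp (A f r s (s + d) θ) := by
    intro w hw
    have h2 := A_ge f hf r s d θ hs w (by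
      rw [mem_sphere_iff_norm, hz] at hw
      exact hw.le)
    rcases eq_or_ne (‖f w‖) 0 with h0 | h0
    · rw [h0]; positivity
    · have h3 : Real.log ‖f w‖ ≤ A f r s (s + d) θ := le_trans (le_max_right _ _) h2
      have h4 : 0 < ‖f w‖ := lt_of_le_of_ne (norm_nonneg _) (Ne.symm h0)
      calc ‖f w‖ = Real.exp (Real.log ‖f w‖) := (Real.exp_log h4).symm
        _ ≤ _ := Real.exp_le_exp.2 h3
  have h5 := Complex.norm_deriv_le_of_forall_mem_sphere_norm_le hd hf.diffContOnCl h1
  have h6 := A_nonneg f r s (s + d) θ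
  have h7 : 0 ≤ Real.log (1 / d) := Real.log_nonneg (by rw [le_div_iff₀ hd]; linarith)
  unfold Real.posLog
  refine max_le (by positivity) ?_
  rcases eq_or_ne (‖deriv f (circleMap 0 r θ)‖) 0 with h0 | h0
  · rw [h0, Real.log_zero]; positivity
  · have h4 : 0 < ‖deriv f (circleMap 0 r θ)‖ := lt_of_le_of_ne (norm_nonneg _) (Ne.symm h0)
    refine (Real.log_le_log h4 h5).trans ?_
    rw [Real.log_div (Real.exp_pos _).ne' hd.ne', Real.log_exp, one_div, Real.log_inv]
    linarith

theorem A_int (f : ℂ → ℂ) (hf : Differentiable ℂ f) (r s t : ℝ) (hs : 0 < s) (ht : 0 ≤ t)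
    (hr : t < r) :
    ∫ θ in (0 : ℝ)..(2 * Real.pi), A f r s t θ ≤ (t / s) ^ 2 * (2 * Real.pi * T (r + t) f) := by
  have hc := cont_pl f hf
  unfold A
  rw [intervalIntegral.integral_const_mul,
    swap_ball' (fun (θ : ℝ) (u : ℂ) => Real.posLog ‖f (Complex.exp (θ * Complex.I) * u)‖)
      (hc.comp (by fun_prop : Continuous fun p : ℝ × ℂ => Complex.exp (p.1 * Complex.I) * p.2))]
  have h1 : ∀ u : ℂ, ∫ α in (0 : ℝ)..(2 * Real.pi),
      Real.posLog ‖f (Complex.exp (α * Complex.I) * u)‖ = 2 * Real.pi * T ‖u‖ f := by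
    intro u
    have h := circleAverage_rot (fun z => Real.posLog ‖f z‖) 0 u
    simp only [zero_add] at h
    rw [T_eq_circleAverage, h, ← mul_assoc, mul_inv_cancel₀ (by positivity), one_mul]
  simp_rw [h1]
  have hvol : (volume (Metric.closedBall (r : ℂ) t)).toReal = Real.pi * t ^ 2 := by
    rw [Complex.volume_closedBall]
    simp [ht]
    ring
  have h2 : ∫ u in Metric.closedBall (r : ℂ) t, (2 * Real.pi * T (r + t) f) =
      (Real.pi * t ^ 2) * (2 * Real.pi * T (r + t) f) := by
    rw [setIntegral_const, smul_eq_mul, Measure.real, hvol]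
  have hTc : Continuous (fun x => T x f) := by
    simp_rw [T_eq_circleAverage]
    exact Real.Continuous.circleAverage hc
  have h3 : ∫ u in Metric.closedBall (r : ℂ) t, (2 * Real.pi * T ‖u‖ f) ≤
      ∫ u in Metric.closedBall (r : ℂ) t, (2 * Real.pi * T (r + t) f) := by
    refine setIntegral_mono_on ?_ ?_ measurableSet_closedBall ?_
    · exact ((continuous_const.mul (hTc.comp continuous_norm)).continuousOn.integrableOn_compact
        (isCompact_closedBall (r : ℂ) t))
    · exact (continuous_const.continuousOn.integrableOn_compact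
        (isCompact_closedBall (r : ℂ) t))
    · intro u hu
      rw [mem_closedBall_iff_norm] at hu
      have h4 : ‖u‖ ≤ r + t := by
        have : ‖u‖ ≤ ‖(r : ℂ)‖ + ‖u - r‖ := by
          calc ‖u‖ = ‖(r : ℂ) + (u - r)‖ := by ring_nf
            _ ≤ _ := norm_add_le _ _
        rw [Complex.norm_real, Real.norm_of_nonneg (by linarith)] at this
        linarith
      have h5 : 0 < ‖u‖ := by
        have : ‖(r : ℂ)‖ ≤ ‖u‖ + ‖u - r‖ := by
          calc ‖(r : ℂ)‖ = ‖u - (u - r)‖ := by ring_nf
            _ ≤ _ := norm_sub_le _ _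
        rw [Complex.norm_real, Real.norm_of_nonneg (by linarith)] at this
        linarith
      have := T_mono f hf ‖u‖ (r + t) h5 h4
      gcongr
  calc (Real.pi * s ^ 2)⁻¹ * ∫ u in Metric.closedBall (r : ℂ) t, (2 * Real.pi * T ‖u‖ f)
      ≤ (Real.pi * s ^ 2)⁻¹ * ((Real.pi * t ^ 2) * (2 * Real.pi * T (r + t) f)) := by
        rw [← h2]
        gcongr
    _ = (t / s) ^ 2 * (2 * Real.pi * T (r + t) f) := by
        have := Real.pi_pos
        field_simp

theorem A_periodic (f : ℂ → ℂ) (r s t : ℝ) : Function.Periodic (A f r s t) (2 * Real.pi) := by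
  intro θ
  unfold A
  have : Complex.exp (((θ + 2 * Real.pi : ℝ) : ℂ) * Complex.I) = Complex.exp (θ * Complex.I) := by
    push_cast
    rw [add_mul, Complex.exp_add, Complex.exp_two_pi_mul_I, mul_one]
  rw [this]

theorem T_deriv_le (f : ℂ → ℂ) (hf : Differentiable ℂ f) (r s d δ G θ0 : ℝ) (hs : 0 < s)
    (hd : 0 < d) (hd1 : d ≤ 1) (hr : s + d < r) (hδ : 0 < δ) (hδ1 : δ ≤ 1)
    (hgood : ∀ θ ∈ Set.Icc θ0 (θ0 + δ),
      max 0 (Real.log ‖deriv f (circleMap 0 r θ)‖) + G
        ≤ max 0 (Real.log ‖f (circleMap 0 r θ)‖)) :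
    T r (deriv f) + δ * G / (2 * Real.pi) ≤
      ((s + d) / s) ^ 2 * T (r + (s + d)) f + Real.log (1 / d) := by
  have hpi := Real.pi_gt_three
  have hdc : Continuous (deriv f) := (hf.contDiff (n := 1)).continuous_deriv le_rfl
  set P : ℝ → ℝ := fun θ => max 0 (Real.log ‖deriv f (circleMap 0 r θ)‖) with hP
  have hPc : Continuous P := by
    have h1 : Continuous (fun z => Real.posLog ‖deriv f z‖) :=
      Real.continuous_posLog.comp hdc.norm
    exact h1.comp (continuous_circleMap 0 r)
  have hPp : Function.Periodic P (2 * Real.pi) := by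
    intro θ
    simp only [hP, (periodic_circleMap 0 r) θ]
  have hAc := A_cont f hf r s (s + d)
  set L := Real.log (1 / d) with hL
  have hL0 : 0 ≤ L := Real.log_nonneg (by rw [le_div_iff₀ hd]; linarith)
  have hPi : ∀ a b, IntervalIntegrable P volume a b := fun a b => hPc.intervalIntegrable a b
  have hAi : ∀ a b, IntervalIntegrable (A f r s (s + d)) volume a b :=
    fun a b => hAc.intervalIntegrable a b
  have e1 : ∫ θ in (0 : ℝ)..(2 * Real.pi), P θ = ∫ θ in θ0..(θ0 + 2 * Real.pi), P θ := by
    have := hPp.intervalIntegral_add_eq 0 θ0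
    rw [zero_add] at this
    exact this
  have e2 : ∫ θ in (0 : ℝ)..(2 * Real.pi), A f r s (s + d) θ =
      ∫ θ in θ0..(θ0 + 2 * Real.pi), A f r s (s + d) θ := by
    have := (A_periodic f r s (s + d)).intervalIntegral_add_eq 0 θ0
    rw [zero_add] at this
    exact this
  have e3 := intervalIntegral.integral_add_adjacent_intervals (hPi θ0 (θ0 + δ))
    (hPi (θ0 + δ) (θ0 + 2 * Real.pi))
  have e4 := intervalIntegral.integral_add_adjacent_intervals (hAi θ0 (θ0 + δ))
    (hAi (θ0 + δ) (θ0 + 2 * Real.pi))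
  have i1 : ∫ θ in θ0..(θ0 + δ), P θ ≤ ∫ θ in θ0..(θ0 + δ), (A f r s (s + d) θ - G) := by
    refine intervalIntegral.integral_mono_on (by linarith) (hPi _ _)
      ((hAi _ _).sub (intervalIntegrable_const)) ?_
    intro θ hθ
    have h1 := hgood θ hθ
    have h2 := A_ge f hf r s d θ hs (circleMap 0 r θ) (by
      rw [circleMap_zero, mul_comm, sub_self, norm_zero]; exact hd.le)
    have h3 : max 0 (Real.log ‖f (circleMap 0 r θ)‖) ≤ A f r s (s + d) θ := h2
    simp only [hP]
    linarith
  have i2 : ∫ θ in (θ0 + δ)..(θ0 + 2 * Real.pi), P θ ≤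
      ∫ θ in (θ0 + δ)..(θ0 + 2 * Real.pi), (A f r s (s + d) θ + L) := by
    refine intervalIntegral.integral_mono_on (by linarith) (hPi _ _)
      ((hAi _ _).add (intervalIntegrable_const)) ?_
    intro θ _
    have h1 : P θ ≤ L + A f r s (s + d) θ := deriv_le_A f hf r s d θ hs hd hd1
    linarith
  rw [intervalIntegral.integral_sub (hAi _ _) (intervalIntegrable_const),
    intervalIntegral.integral_const, smul_eq_mul] at i1
  rw [intervalIntegral.integral_add (hAi _ _) (intervalIntegrable_const),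
    intervalIntegral.integral_const, smul_eq_mul] at i2
  have i3 := A_int f hf r s (s + d) hs (by linarith) hr
  have i4 : (∫ θ in (0 : ℝ)..(2 * Real.pi), P θ) + δ * G ≤
      ((s + d) / s) ^ 2 * (2 * Real.pi * T (r + (s + d)) f) + 2 * Real.pi * L := by
    have j1 : (θ0 + 2 * Real.pi - (θ0 + δ)) * L ≤ 2 * Real.pi * L := by
      gcongr; linarith
    have j2 : (θ0 + δ - θ0) * G = δ * G := by ring
    rw [j2] at i1
    rw [e1, ← e3]
    rw [e2, ← e4] at i3
    linarith
  have e5 : T r (deriv f) = (1 / (2 * Real.pi)) * ∫ θ in (0 : ℝ)..(2 * Real.pi), P θ := rfl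
  rw [e5]
  have : 0 < 2 * Real.pi := by positivity
  rw [← mul_le_mul_iff_right₀ this]
  calc 2 * Real.pi * (1 / (2 * Real.pi) * (∫ θ in (0 : ℝ)..(2 * Real.pi), P θ) + δ * G / (2 * Real.pi))
      = (∫ θ in (0 : ℝ)..(2 * Real.pi), P θ) + δ * G := by field_simp
    _ ≤ _ := i4
    _ = 2 * Real.pi * (((s + d) / s) ^ 2 * T (r + (s + d)) f + L) := by ring

theorem T_le (f : ℂ → ℂ) (hf : Differentiable ℂ f) (C σ : ℝ)
    (hgrowth : ∀ z : ℂ, ‖f z‖ ≤ Real.exp (C + ‖z‖ ^ σ)) (x : ℝ) (hx : 1 ≤ x) (hσ1 : σ < 1) :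
    T x f ≤ |C| + x := by
  rw [T_eq_circleAverage]
  refine Real.circleAverage_mono_on_of_le_circle ?_ ?_
  · exact (cont_pl f hf).continuousOn.circleIntegrable'
  · intro z hz
    rw [mem_sphere_iff_norm, sub_zero, abs_of_nonneg (by linarith)] at hz
    have h1 : x ^ σ ≤ x := by
      calc x ^ σ ≤ x ^ (1 : ℝ) := Real.rpow_le_rpow_of_exponent_le hx hσ1.le
        _ = x := Real.rpow_one x
    refine max_le (by positivity) ?_
    rcases eq_or_ne (‖f z‖) 0 with h0 | h0
    · rw [h0, Real.log_zero]; positivity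
    · have h4 : 0 < ‖f z‖ := lt_of_le_of_ne (norm_nonneg _) (Ne.symm h0)
      have := Real.log_le_log h4 (hgrowth z)
      rw [Real.log_exp, hz] at this
      linarith [le_abs_self C]

theorem err_bound (f : ℂ → ℂ) (hf : Differentiable ℂ f) (C σ : ℝ)
    (hσ1 : σ < 1) (hgrowth : ∀ z : ℂ, ‖f z‖ ≤ Real.exp (C + ‖z‖ ^ σ)) (r : ℝ) (hr3 : 2 ≤ r) :
    (1 + 1 / r) ^ 2 * T (r + (1 / r + 1 / r ^ 2)) f ≤
      T r f + (3 * |C| + 6 + (2 * |C| + 8) / Real.log 2) := by
  have hlog2 : 0 < Real.log 2 := Real.log_pos one_lt_two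
  have hrpos : 0 < r := by linarith
  have hinv : 1 / r ≤ 1 / 2 := one_div_le_one_div_of_le (by norm_num) hr3
  have hinv0 : 0 < 1 / r := by positivity
  have hinv2 : 1 / r ^ 2 = (1 / r) * (1 / r) := by field_simp
  have hrx : r * (1 / r) = 1 := by field_simp
  rw [hinv2]
  set x := 1 / r with hx
  have hxx : x * x ≤ x / 2 := by nlinarith
  have hxxx : x * x * x ≤ x / 4 := by nlinarith [mul_pos hinv0 hinv0]
  have hxx0 : 0 < x * x := by positivity
  set R := r + (x + x * x) with hR
  have hRr : r ≤ R := by rw [hR]; linarith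
  have hRpos : 0 < R := by linarith
  have hR2r : R ≤ 2 * r := by rw [hR]; linarith
  have hC := abs_nonneg C
  have hTR : T R f ≤ |C| + 2 * r := by
    have := T_le f hf C σ hgrowth R (by linarith) hσ1
    linarith
  have hTR2 : T (2 * R) f ≤ |C| + 4 * r := by
    have := T_le f hf C σ hgrowth (2 * R) (by linarith) hσ1
    linarith
  have hTR0 : 0 ≤ T R f := by
    rw [T_eq_circleAverage]
    refine Real.circleAverage_nonneg_of_nonneg ?_
    intro z _
    exact Real.posLog_nonneg
  -- first error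
  have err1 : (1 + x) ^ 2 * T R f ≤ T R f + (3 * |C| + 6) := by
    have h1 : (1 + x) ^ 2 ≤ 1 + 3 * x := by nlinarith
    have h2 : (1 + x) ^ 2 * T R f ≤ (1 + 3 * x) * T R f := by gcongr
    have h3 : 3 * x * T R f ≤ 3 * x * (|C| + 2 * r) := by gcongr
    have h4 : 3 * x * (|C| + 2 * r) = 3 * (x * |C|) + 6 * (r * x) := by ring
    rw [hrx] at h4
    have h5 : x * |C| ≤ 1 * |C| := by gcongr; linarith
    have h6 : (1 + 3 * x) * T R f = T R f + 3 * x * T R f := by ring
    linarith
  have err2 : T R f ≤ T r f + (2 * |C| + 8) / Real.log 2 := by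
    have h1 := T_convex f hf r R (2 * R) hrpos hRr (by linarith)
    have h2 : 2 * R / R = 2 := by rw [mul_div_assoc, div_self hRpos.ne', mul_one]
    rw [h2] at h1
    have h5 : R / r = 1 + x * x + x * x * x := by
      rw [div_eq_iff hrpos.ne', hR]
      have e1 : (1 + x * x + x * x * x) * r = r + x * (r * x) + x * x * (r * x) := by ring
      rw [e1, hrx]; ring
    have h3 : Real.log (R / r) ≤ 2 * x := by
      have h4 := Real.log_le_sub_one_of_pos (show 0 < R / r by positivity)
      rw [h5] at h4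
      rw [h5]
      linarith
    have h3' : 0 ≤ Real.log (R / r) := Real.log_nonneg (by rw [le_div_iff₀ hrpos]; linarith)
    have h6 : T (2 * R) f - T R f ≤ |C| + 4 * r := by linarith
    have h7 : Real.log (R / r) * (T (2 * R) f - T R f) ≤ 2 * |C| + 8 := by
      calc Real.log (R / r) * (T (2 * R) f - T R f) ≤ Real.log (R / r) * (|C| + 4 * r) := by gcongr
        _ ≤ 2 * x * (|C| + 4 * r) := by gcongr
        _ = 2 * (x * |C|) + 8 * (r * x) := by ring
        _ ≤ 2 * |C| + 8 := by
          have h8 : x * |C| ≤ 1 * |C| := by gcongr; linarith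
          rw [hrx]; linarith
    have h8 : (T R f - T r f) * Real.log 2 ≤ 2 * |C| + 8 := h1.trans h7
    have h9 : T R f - T r f ≤ (2 * |C| + 8) / Real.log 2 := by
      rw [le_div_iff₀ hlog2]; exact h8
    linarith
  linarith

theorem char_gain (f : ℂ → ℂ) (hf : Differentiable ℂ f) (C σ rho c δ R0 : ℝ)
    (hσ0 : 0 ≤ σ) (hσ1 : σ < 1) (hgrowth : ∀ z : ℂ, ‖f z‖ ≤ Real.exp (C + ‖z‖ ^ σ))
    (hrho : 0 < rho) (hc : 0 < c) (hδ : 0 < δ) (hδ1 : δ ≤ 1)
    (hgood : ∀ r ≥ R0, ∃ θ0 : ℝ, ∀ θ ∈ Set.Icc θ0 (θ0 + δ),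
      max 0 (Real.log ‖deriv f (circleMap 0 r θ)‖) + c * r ^ rho
        ≤ max 0 (Real.log ‖f (circleMap 0 r θ)‖)) :
    ∃ c' > 0, ∃ R1 : ℝ, ∀ r ≥ R1, T r (deriv f) + c' * r ^ rho ≤ T r f := by
  have hpi := Real.pi_gt_three
  set K : ℝ := 3 * |C| + 6 + (2 * |C| + 8) / Real.log 2 with hK
  set c' : ℝ := c * δ / (4 * Real.pi) with hc'
  have hc'0 : 0 < c' := by positivity
  have ev : ∀ᶠ r : ℝ in atTop, K + 2 * Real.log r ≤ c' * r ^ rho := by
    have h1 : (fun r : ℝ => K + 2 * Real.log r) =o[atTop] fun r : ℝ => r ^ rho := by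
      refine Asymptotics.IsLittleO.add ?_ ?_
      · refine Asymptotics.isLittleO_const_left.2 (Or.inr ?_)
        exact tendsto_norm_atTop_atTop.comp (tendsto_rpow_atTop hrho)
      · exact (isLittleO_log_rpow_atTop hrho).const_mul_left 2
    have h2 := h1.bound hc'0
    filter_upwards [h2, eventually_ge_atTop (1 : ℝ)] with r hr hr1
    have h3 : 0 ≤ r ^ rho := Real.rpow_nonneg (by linarith) _
    rw [Real.norm_of_nonneg h3] at hr
    exact (le_abs_self _).trans hr
  obtain ⟨R2, hR2⟩ := eventually_atTop.1 ev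
  refine ⟨c', hc'0, max (max R0 R2) 2, fun r hr => ?_⟩
  have hr0 : R0 ≤ r := le_trans (le_trans (le_max_left _ _) (le_max_left _ _)) hr
  have hr2 : R2 ≤ r := le_trans (le_trans (le_max_right _ _) (le_max_left _ _)) hr
  have hr3 : 2 ≤ r := le_trans (le_max_right _ _) hr
  have hrpos : 0 < r := by linarith
  obtain ⟨θ0, hθ⟩ := hgood r hr0
  have hkey := T_deriv_le f hf r (1 / r) (1 / r ^ 2) δ (c * r ^ rho) θ0 (by positivity)
    (by positivity) (by rw [div_le_one (by positivity)]; nlinarith)
    (by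
      have h1 : 1 / r ≤ 1 / 2 := one_div_le_one_div_of_le (by norm_num) hr3
      have h2 : 1 / r ^ 2 ≤ 1 / 4 := one_div_le_one_div_of_le (by norm_num) (by nlinarith)
      linarith) hδ hδ1 hθ
  have hq := hR2 r hr2
  have e1 : Real.log (1 / (1 / r ^ 2)) = 2 * Real.log r := by
    rw [one_div_one_div, Real.log_pow]; norm_num
  have e2 : (1 / r + 1 / r ^ 2) / (1 / r) = 1 + 1 / r := by
    field_simp
  rw [e1, e2] at hkey
  have herr := err_bound f hf C σ hσ1 hgrowth r hr3
  have e3 : δ * (c * r ^ rho) / (2 * Real.pi) = 2 * (c' * r ^ rho) := by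
    rw [hc']; field_simp; ring
  rw [e3] at hkey
  linarith

end

end NevT.J664

namespace NevT

alias char_gain := J664.char_gain

end NevT
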