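import Pool.Agent.Helper551.NevDefs

set_option autoImplicit false

open Filter Topology

open scoped BigOperators

namespace NevT.J665

noncomputable def pp (n : ℕ) (C : ℂ) (η : ℂ → ℂ) (ζ : ℂ) : ℂ :=
  C * ζ ^ n * Complex.exp (n * (ζ + η ζ))

theorem norm_pp (n : ℕ) (C : ℂ) (η : ℂ → ℂ) (w : ℂ) :
    ‖pp n C η w‖ = ‖C‖ * ‖w‖ ^ n * Real.exp (n * (w.re + (η w).re)) := by
  simp [pp, Complex.norm_exp]

theorem lip {η : ℂ → ℂ} (hη : DifferentiableOn ℂ η (Metric.ball 0 7))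
    (hη' : ∀ ζ ∈ Metric.ball (0 : ℂ) 7, ‖deriv η ζ‖ ≤ 1 / 1000)
    {w z : ℂ} (hw : w ∈ Metric.ball (0:ℂ) 7) (hz : z ∈ Metric.ball (0:ℂ) 7) :
    ‖η w - η z‖ ≤ 1 / 1000 * ‖w - z‖ :=
  (convex_ball (0:ℂ) 7).norm_image_sub_le_of_norm_deriv_le
    (fun _ hx => hη.differentiableAt (Metric.isOpen_ball.mem_nhds hx)) hη' hz hw

theorem L0 (n : ℕ) (C : ℂ) {η : ℂ → ℂ} (hη : DifferentiableOn ℂ η (Metric.ball 0 7))
    (hη' : ∀ ζ ∈ Metric.ball (0 : ℂ) 7, ‖deriv η ζ‖ ≤ 1 / 1000)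
    {w z : ℂ} (hw : w ∈ Metric.ball (0:ℂ) 7) (hz : z ∈ Metric.ball (0:ℂ) 7) {u δ : ℝ}
    (h1 : ‖w‖ ≤ ‖z‖ * Real.exp u) (h2 : u + (w.re - z.re) + ‖w - z‖ / 1000 ≤ -δ) :
    ‖pp n C η w‖ ≤ ‖pp n C η z‖ * Real.exp (-(n * δ)) := by
  rw [norm_pp, norm_pp]
  have h3 : (η w).re ≤ (η z).re + ‖w - z‖ / 1000 := by
    have h4 := lip hη hη' hw hz
    have h5 := Complex.re_le_norm (η w - η z)
    rw [Complex.sub_re] at h5
    linarith
  have hn0 : (0:ℝ) ≤ n := Nat.cast_nonneg n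
  calc ‖C‖ * ‖w‖ ^ n * Real.exp (n * (w.re + (η w).re))
      ≤ ‖C‖ * (‖z‖ * Real.exp u) ^ n * Real.exp (n * (w.re + (η w).re)) := by
        gcongr
    _ = ‖C‖ * ‖z‖ ^ n * Real.exp (n * u + n * (w.re + (η w).re)) := by
        rw [mul_pow, ← Real.exp_nat_mul, Real.exp_add]; ring
    _ ≤ ‖C‖ * ‖z‖ ^ n * Real.exp (n * (z.re + (η z).re) + -(n * δ)) := by
        apply mul_le_mul_of_nonneg_left (Real.exp_le_exp.2 _) (by positivity)
        have := mul_le_mul_of_nonneg_left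
          (show u + (w.re + (η w).re) ≤ (z.re + (η z).re) - δ by linarith) hn0
        linarith
    _ = _ := by rw [Real.exp_add]; ring

theorem L1 {n : ℕ} (hn : 0 < n) (C : ℂ) {η h : ℂ → ℂ}
    (hh : ∀ ζ ∈ Metric.ball (0 : ℂ) 7, HasDerivAt h (pp n C η ζ) ζ)
    {w z : ℂ} (hw : w ∈ Metric.ball (0:ℂ) 7) (hz : z ∈ Metric.ball (0:ℂ) 7) {κ : ℝ} (hκ : 0 < κ)
    (hb : ∀ t ∈ Set.Ico (0:ℝ) 1, ‖pp n C η (w + t * (z - w))‖
      ≤ ‖pp n C η z‖ * Real.exp (-(n * (κ * ((1 - t) * ‖z - w‖))))) :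
    ‖h z - h w‖ ≤ ‖pp n C η z‖ / (n * κ) := by
  have hn0 : (0:ℝ) < n := by exact_mod_cast hn
  have hmem : ∀ t ∈ Set.Icc (0:ℝ) 1, w + t * (z - w) ∈ Metric.ball (0:ℂ) 7 := by
    intro t ht
    have := (convex_ball (0:ℂ) 7).add_smul_sub_mem hw hz ht
    simpa using this
  have hd : ∀ t ∈ Set.Icc (0:ℝ) 1, HasDerivAt (fun t : ℝ => h (w + t * (z - w)) - h w)
      (pp n C η (w + t * (z - w)) * (z - w)) t := by
    intro t ht
    have h1 : HasDerivAt (fun t : ℝ => w + (t:ℂ) * (z - w)) (z - w) t := by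
      have h2 : HasDerivAt (fun t : ℝ => (t:ℂ)) 1 t := Complex.ofRealCLM.hasDerivAt
      simpa using (h2.mul_const (z - w)).const_add w
    exact ((hh _ (hmem t ht)).comp_of_eq t h1 rfl).sub_const _
  set L := ‖z - w‖ with hL
  have key := image_norm_le_of_norm_deriv_right_le_deriv_boundary'
    (f := fun t : ℝ => h (w + t * (z - w)) - h w)
    (f' := fun t : ℝ => pp n C η (w + t * (z - w)) * (z - w)) (a := 0) (b := 1)
    (B := fun t : ℝ => ‖pp n C η z‖ * Real.exp (-(n * (κ * ((1 - t) * L)))) / (n * κ))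
    (B' := fun t : ℝ => ‖pp n C η z‖ * Real.exp (-(n * (κ * ((1 - t) * L)))) * L)
    (fun t ht => (hd t ht).continuousAt.continuousWithinAt)
    (fun t ht => (hd t ⟨ht.1, ht.2.le⟩).hasDerivWithinAt)
    (by simp; positivity)
    (by fun_prop)
    (by
      intro t _
      apply HasDerivAt.hasDerivWithinAt
      have h1 : HasDerivAt (fun t : ℝ => -(n * (κ * ((1 - t) * L)))) (n * κ * L) t := by
        have h2 : HasDerivAt (fun t : ℝ => (1:ℝ) - t) (-1) t := by
          simpa using (hasDerivAt_id t).const_sub 1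
        have h3 : HasDerivAt (fun t : ℝ => -(n * (κ * ((1 - t) * L)))) (-(n * (κ * (-1 * L)))) t :=
          (((h2.mul_const L).const_mul κ).const_mul (n:ℝ)).fun_neg
        exact h3.congr_deriv (by ring)
      have h4 := ((h1.exp).const_mul ‖pp n C η z‖).div_const (n * κ)
      exact h4.congr_deriv (by field_simp))
    (by
      intro t ht
      rw [norm_mul]
      exact mul_le_mul_of_nonneg_right (hb t ht) (norm_nonneg _))
    (x := 1) (by simp)
  simpa using key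

theorem gam_facts {z : ℂ} (hz : ‖z + 1‖ = 1 / 2) :
    (z.re + 1)^2 + z.im^2 = 1/4 ∧ ‖z‖^2 = -3/4 - 2 * z.re ∧ -3/2 ≤ z.re ∧ z.re ≤ -1/2 ∧
      ‖z‖ ≤ 3/2 ∧ 0 < ‖z‖ := by
  have h1 : (z.re + 1)^2 + z.im^2 = 1/4 := by
    have h2 : ‖z + 1‖^2 = 1/4 := by rw [hz]; norm_num
    rw [Complex.sq_norm, Complex.normSq_apply] at h2
    simp only [Complex.add_re, Complex.one_re, Complex.add_im, Complex.one_im, add_zero] at h2
    linarith
  have h3 : ‖z‖^2 = -3/4 - 2 * z.re := by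
    rw [Complex.sq_norm, Complex.normSq_apply]
    linarith
  have h4 : -3/2 ≤ z.re := by nlinarith [sq_nonneg z.im]
  have h5 : z.re ≤ -1/2 := by nlinarith [sq_nonneg z.im]
  have h6 : ‖z‖ ≤ 3/2 := by
    apply abs_le_of_sq_le_sq' _ (by norm_num) |>.2
    linarith
  refine ⟨h1, h3, h4, h5, h6, ?_⟩
  rcases (norm_nonneg z).lt_or_eq with h | h
  · exact h
  · rw [← h] at h3
    linarith

theorem right_case {n : ℕ} (hn : 0 < n) (C : ℂ) {η h : ℂ → ℂ}
    (hη : DifferentiableOn ℂ η (Metric.ball 0 7))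
    (hη' : ∀ ζ ∈ Metric.ball (0 : ℂ) 7, ‖deriv η ζ‖ ≤ 1 / 1000)
    (hh : ∀ ζ ∈ Metric.ball (0 : ℂ) 7, HasDerivAt h (pp n C η ζ) ζ)
    {z : ℂ} (hz : ‖z + 1‖ = 1 / 2) (hx : -4/5 ≤ z.re) :
    ‖h z - h 0‖ ≤ ‖pp n C η z‖ / (n * (1/12)) := by
  obtain ⟨h1, h2, h3, h4, h5, h6⟩ := gam_facts hz
  have h0 : (0:ℂ) ∈ Metric.ball (0:ℂ) 7 := Metric.mem_ball_self (by norm_num)
  have hzb : z ∈ Metric.ball (0:ℂ) 7 := by
    rw [mem_ball_zero_iff]; linarith
  apply L1 hn C hh h0 hzb (by norm_num)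
  intro t ht
  apply L0 n C hη hη' _ hzb (u := t - 1)
  · have h7 := Real.add_one_le_exp (t - 1)
    simp only [zero_add, sub_zero, norm_mul, Complex.norm_real, Real.norm_eq_abs,
      abs_of_nonneg ht.1]
    nlinarith [norm_nonneg z]
  · have h8 : (0:ℂ) + t * (z - 0) - z = ((t - 1 : ℝ) : ℂ) * z := by push_cast; ring
    rw [h8]
    simp only [zero_add, sub_zero, norm_mul, Complex.norm_real, Real.norm_eq_abs,
      Complex.re_ofReal_mul]
    rw [abs_of_nonpos (by linarith [ht.2])]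
    nlinarith [ht.2, mul_nonneg (sub_nonneg.2 ht.2.le) (sub_nonneg.2 h5),
      mul_nonneg (sub_nonneg.2 ht.2.le) (sub_nonneg.2 hx)]
  · rw [mem_ball_zero_iff]
    simp only [zero_add, sub_zero, norm_mul, Complex.norm_real, Real.norm_eq_abs,
      abs_of_nonneg ht.1]
    nlinarith [ht.2, ht.1]

theorem left_case {n : ℕ} (hn : 0 < n) (C : ℂ) {η h : ℂ → ℂ}
    (hη : DifferentiableOn ℂ η (Metric.ball 0 7))
    (hη' : ∀ ζ ∈ Metric.ball (0 : ℂ) 7, ‖deriv η ζ‖ ≤ 1 / 1000)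
    (hh : ∀ ζ ∈ Metric.ball (0 : ℂ) 7, HasDerivAt h (pp n C η ζ) ζ)
    {z : ℂ} (hz : ‖z + 1‖ = 1 / 2) (hx : z.re ≤ -4/5) :
    ‖h z - h (-6)‖ ≤ ‖pp n C η z‖ / (n * (1/12)) := by
  obtain ⟨h1, h2, h3, h4, h5, h6⟩ := gam_facts hz
  have h0 : (-6:ℂ) ∈ Metric.ball (0:ℂ) 7 := by
    rw [mem_ball_zero_iff]; simp; norm_num
  have hzb : z ∈ Metric.ball (0:ℂ) 7 := by
    rw [mem_ball_zero_iff]; linarith
  apply L1 hn C hh h0 hzb (by norm_num)
  intro t ht
  set τ : ℝ := 1 - t with hτ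
  have hτ0 : 0 ≤ τ := by rw [hτ]; linarith [ht.2]
  have hyabs : z.im^2 ≤ 1/4 := by nlinarith [sq_nonneg (z.re + 1)]
  have hL : ‖z + 6‖ ≤ 53/10 := by
    apply abs_le_of_sq_le_sq' _ (by norm_num) |>.2
    rw [Complex.sq_norm, Complex.normSq_apply]
    simp only [Complex.add_re, Complex.add_im]
    norm_num
    nlinarith
  set N := ‖z‖^2 with hN
  have hN0 : 0 < N := by positivity
  set U : ℝ := 6 * (-z.re) / N - 1 with hU
  have hUN : U * N = -6 * z.re - N := by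
    rw [hU]; field_simp
  have hU1 : 1 ≤ U := by
    rw [hU, le_sub_iff_add_le, le_div_iff₀ hN0, h2]
    linarith
  apply L0 n C hη hη' _ hzb (u := τ * U)
  · have h7 : ‖(-6:ℂ) + t * (z - -6)‖^2 = ((1 - τ) * z.re - 6 * τ)^2 + ((1-τ) * z.im)^2 := by
      rw [Complex.sq_norm, Complex.normSq_apply]
      simp only [Complex.add_re, Complex.add_im, Complex.mul_re, Complex.mul_im, Complex.sub_re,
        Complex.sub_im, Complex.ofReal_re, Complex.ofReal_im]
      norm_num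
      rw [hτ]
      ring
    have h8 : z.re^2 + z.im^2 = N := by
      rw [hN, Complex.sq_norm, Complex.normSq_apply]; ring
    have h9 : N * (((1 - τ) * z.re - 6 * τ)^2 + ((1-τ) * z.im)^2)
        = (N * (1 + τ * U))^2 + 36 * τ^2 * z.im^2 := by
      have h10 : N * (1 + τ * U) = N * (1 - τ) - 6 * τ * z.re := by
        have : N * (1 + τ * U) = N + τ * (U * N) := by ring
        rw [this, hUN]; ring
      rw [h10, ← h8]
      ring
    have h13 : 36 * z.im^2 ≤ (U * N)^2 := by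
      have h14 : 6 * |z.im| ≤ U * N := by
        have : |z.im| ≤ 1/2 := by
          apply abs_le_of_sq_le_sq _ (by norm_num)
          linarith
        rw [hUN, h2]
        linarith
      calc 36 * z.im^2 = (6 * |z.im|)^2 := by rw [mul_pow, sq_abs]; norm_num
        _ ≤ _ := pow_le_pow_left₀ (by positivity) h14 2
    have h15 : (1 + τ * U)^2 + (τ * U)^2 ≤ Real.exp (2 * (τ * U)) := by
      have := Real.quadratic_le_exp_of_nonneg (show 0 ≤ 2 * (τ * U) by positivity)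
      linarith
    have h16 : N * ‖(-6:ℂ) + t * (z - -6)‖^2 ≤ N^2 * Real.exp (2 * (τ * U)) := by
      rw [h7, h9]
      calc (N * (1 + τ * U))^2 + 36 * τ^2 * z.im^2
          = (N * (1 + τ * U))^2 + τ^2 * (36 * z.im^2) := by ring
        _ ≤ (N * (1 + τ * U))^2 + τ^2 * (U * N)^2 := by
            gcongr
        _ = N^2 * ((1 + τ * U)^2 + (τ * U)^2) := by ring
        _ ≤ _ := by gcongr
    have h17 : ‖(-6:ℂ) + t * (z - -6)‖^2 ≤ N * Real.exp (2 * (τ * U)) := by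
      have : N * ‖(-6:ℂ) + t * (z - -6)‖^2 ≤ N * (N * Real.exp (2 * (τ * U))) := by
        rw [← mul_assoc, ← sq]; exact h16
      exact le_of_mul_le_mul_left this hN0
    apply abs_le_of_sq_le_sq' _ (by positivity) |>.2
    rw [mul_pow, ← hN]
    refine h17.trans (le_of_eq ?_)
    rw [← Real.exp_nat_mul]
    norm_num
  · have h8 : (-6:ℂ) + t * (z - -6) - z = ((-τ : ℝ) : ℂ) * (z + 6) := by
      rw [hτ]; push_cast; ring
    have h9 : ((-6:ℂ) + t * (z - -6)).re - z.re = -τ * (z.re + 6) := by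
      rw [← Complex.sub_re, h8, Complex.re_ofReal_mul]
      simp
    rw [h9, h8, norm_mul, Complex.norm_real, Real.norm_eq_abs, abs_neg, abs_of_nonneg hτ0,
      sub_neg_eq_add]
    have hUle : U ≤ z.re + 6 - 1/2 := by
      rw [hU, sub_le_iff_le_add, div_le_iff₀ hN0, h2]
      nlinarith
    have h10 : U + -(z.re + 6) + ‖z + 6‖ * (1/1000 + 1/12) ≤ 0 := by
      linarith
    nlinarith [mul_nonneg hτ0 (neg_nonneg.2 h10)]
  · have hseg := (convex_ball (0:ℂ) 7).add_smul_sub_mem h0 hzb (t := t) ⟨ht.1, ht.2.le⟩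
    rw [Complex.real_smul] at hseg
    exact hseg

theorem exp_le_lin {s : ℝ} (h0 : 0 ≤ s) (h2 : s ≤ 2) : Real.exp s ≤ 1 + 4 * s := by
  have hc := convexOn_exp.2 (Set.mem_univ (0:ℝ)) (Set.mem_univ (2:ℝ))
    (show (0:ℝ) ≤ 1 - s/2 by linarith) (show (0:ℝ) ≤ s/2 by linarith) (by ring)
  simp only [smul_eq_mul, mul_zero, zero_add, Real.exp_zero, mul_one] at hc
  have h3 : s / 2 * 2 = s := by ring
  rw [h3] at hc
  have h4 : Real.exp 2 ≤ 9 := by
    have h5 : Real.exp 2 = Real.exp 1 * Real.exp 1 := by rw [← Real.exp_add]; norm_num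
    rw [h5]
    have := Real.exp_one_lt_d9
    nlinarith [Real.exp_pos 1]
  nlinarith

theorem gam_lower (n : ℕ) (C : ℂ) {η : ℂ → ℂ}
    (hη : DifferentiableOn ℂ η (Metric.ball 0 7)) (hη0 : η 0 = 0)
    (hη' : ∀ ζ ∈ Metric.ball (0 : ℂ) 7, ‖deriv η ζ‖ ≤ 1 / 1000)
    {z : ℂ} (hz : ‖z + 1‖ = 1 / 2) :
    ‖C‖ * Real.exp (-(6/5) * n) ≤ ‖pp n C η z‖ := by
  obtain ⟨h1, h2, h3, h4, h5, h6⟩ := gam_facts hz
  have h0 : (0:ℂ) ∈ Metric.ball (0:ℂ) 7 := Metric.mem_ball_self (by norm_num)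
  have hzb : z ∈ Metric.ball (0:ℂ) 7 := by
    rw [mem_ball_zero_iff]; linarith
  have h7 : |(η z).re| ≤ 3/2000 := by
    have h8 := lip hη hη' hzb h0
    rw [hη0, sub_zero, sub_zero] at h8
    have h9 := Complex.abs_re_le_norm (η z)
    linarith
  have h10 : (1/2 * Real.exp (-z.re - 1/2))^2 ≤ ‖z‖^2 := by
    have h11 := exp_le_lin (s := -2 * z.re - 1) (by linarith) (by linarith)
    rw [h2, mul_pow, ← Real.exp_nat_mul]
    have h12 : ((2:ℕ):ℝ) * (-z.re - 1/2) = -2 * z.re - 1 := by push_cast; ring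
    rw [h12]
    linarith
  have h13 : 1/2 * Real.exp (-z.re - 1/2) ≤ ‖z‖ :=
    (abs_le_of_sq_le_sq' h10 (norm_nonneg _)).2
  have h14 : Real.exp (-(6/5)) ≤ ‖z‖ * Real.exp (z.re + (η z).re) := by
    calc Real.exp (-(6/5)) ≤ Real.exp (-Real.log 2 + (-1/2 + (η z).re)) := by
          apply Real.exp_le_exp.2
          have := Real.log_two_lt_d9
          linarith [(abs_le.1 h7).1]
      _ = 1/2 * Real.exp (-z.re - 1/2) * Real.exp (z.re + (η z).re) := by
          rw [Real.exp_add, Real.exp_neg, Real.exp_log (by norm_num), mul_assoc, ← Real.exp_add]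
          norm_num
          ring
      _ ≤ _ := by gcongr
  rw [norm_pp, mul_assoc]
  apply mul_le_mul_of_nonneg_left _ (norm_nonneg C)
  have h15 := pow_le_pow_left₀ (Real.exp_pos _).le h14 n
  rw [mul_pow, ← Real.exp_nat_mul, ← Real.exp_nat_mul] at h15
  convert h15 using 2
  ring

theorem hasDeriv_pp {n : ℕ} (hn : 0 < n) (C : ℂ) {η : ℂ → ℂ} {η' : ℂ}
    (hη : HasDerivAt η η' (-1)) :
    HasDerivAt (pp n C η) (pp n C η (-1) * (n * η')) (-1) := by
  have h1 : HasDerivAt (fun ζ : ℂ => C * ζ ^ n) (C * (n * (-1) ^ (n-1))) (-1) :=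
    (hasDerivAt_pow n (-1)).const_mul C
  have h2 : HasDerivAt (fun ζ : ℂ => (n:ℂ) * (ζ + η ζ)) (n * (1 + η')) (-1) :=
    ((hasDerivAt_id (-1:ℂ)).add hη).const_mul (n:ℂ)
  have h3 := h1.mul h2.cexp
  refine h3.congr_deriv ?_
  obtain ⟨m, rfl⟩ : ∃ m, n = m + 1 := ⟨n - 1, by omega⟩
  simp only [pp, Nat.add_sub_cancel, pow_succ]
  ring

theorem local_basin (n : ℕ) (hn : 100 ≤ n) (C : ℂ) (hC : C ≠ 0) (η h : ℂ → ℂ)
    (hη : DifferentiableOn ℂ η (Metric.ball 0 7)) (hη0 : η 0 = 0)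
    (hη' : ∀ ζ ∈ Metric.ball (0 : ℂ) 7, ‖deriv η ζ‖ ≤ 1 / 1000)
    (hh : ∀ ζ ∈ Metric.ball (0 : ℂ) 7,
      HasDerivAt h (C * ζ ^ n * Complex.exp (n * (ζ + η ζ))) ζ)
    (hneg : ‖h (-6)‖ ≤ ‖C‖ * Real.exp (-(13 / 10) * n)) :
    ∀ ζ : ℂ, ‖ζ‖ ≤ 1 / 10 → ‖C‖ * Real.exp (-(13 / 10) * n) / 2 ≤ ‖h ζ‖ := by
  have hn0 : 0 < n := by omega
  have hnR : (100:ℝ) ≤ n := by exact_mod_cast hn
  have hnR0 : (0:ℝ) < n := by linarith
  have hC0 : 0 < ‖C‖ := norm_pos_iff.2 hC
  change ∀ ζ ∈ Metric.ball (0 : ℂ) 7, HasDerivAt h (pp n C η ζ) ζ at hh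
  have hb0 : (0:ℂ) ∈ Metric.ball (0:ℂ) 7 := Metric.mem_ball_self (by norm_num)
  -- lower bound at 0
  have hmain : ‖C‖ * Real.exp (-(13 / 10) * n) ≤ ‖h 0‖ := by
    by_contra hcon
    push Not at hcon
    set M : ℝ := Real.exp (-(n/10)) + 12 / n with hM
    have hE : Real.exp (-(n/10:ℝ)) ≤ 10 / n := by
      rw [Real.exp_neg, ← one_div, div_le_div_iff₀ (Real.exp_pos _) hnR0]
      have := Real.add_one_le_exp (n/10:ℝ)
      linarith
    have hM0 : 0 < M := by positivity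
    have hM1 : M ≤ 22 / n := by
      rw [hM]
      have : (22:ℝ)/n = 10/n + 12/n := by ring
      linarith
    have hp0 : ∀ z : ℂ, z ≠ 0 → pp n C η z ≠ 0 := by
      intro z hz
      exact mul_ne_zero (mul_ne_zero hC (pow_ne_zero _ hz)) (Complex.exp_ne_zero _)
    have hgam : ∀ z ∈ Metric.sphere (-1:ℂ) (1/2), ‖h z / pp n C η z‖ ≤ M := by
      intro z hz
      rw [mem_sphere_iff_norm, sub_neg_eq_add] at hz
      have hlow := gam_lower n C hη hη0 hη' hz
      have hz0 : z ≠ 0 := norm_pos_iff.1 (gam_facts hz).2.2.2.2.2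
      have hpz : 0 < ‖pp n C η z‖ := norm_pos_iff.2 (hp0 z hz0)
      have hK : ‖h z‖ ≤ ‖C‖ * Real.exp (-(13 / 10) * n) + ‖pp n C η z‖ / (n * (1/12)) := by
        rcases le_total (-4/5) z.re with hx | hx
        · have h1 := right_case hn0 C hη hη' hh hz hx
          have h2 : ‖h z‖ ≤ ‖h z - h 0‖ + ‖h 0‖ := by
            calc ‖h z‖ = ‖(h z - h 0) + h 0‖ := by rw [sub_add_cancel]
              _ ≤ _ := norm_add_le _ _
          linarith
        · have h1 := left_case hn0 C hη hη' hh hz hx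
          have h2 : ‖h z‖ ≤ ‖h z - h (-6)‖ + ‖h (-6)‖ := by
            calc ‖h z‖ = ‖(h z - h (-6)) + h (-6)‖ := by rw [sub_add_cancel]
              _ ≤ _ := norm_add_le _ _
          linarith
      rw [norm_div, div_le_iff₀ hpz, hM, add_mul]
      have h3 : ‖C‖ * Real.exp (-(13 / 10) * n) ≤ Real.exp (-(n/10)) * ‖pp n C η z‖ := by
        calc ‖C‖ * Real.exp (-(13 / 10) * n)
            = Real.exp (-(n/10)) * (‖C‖ * Real.exp (-(6/5) * n)) := by
              have : -(13/10) * (n:ℝ) = -(n/10) + -(6/5) * n := by ring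
              rw [this, Real.exp_add]; ring
          _ ≤ _ := by gcongr
      have h4 : ‖pp n C η z‖ / (n * (1/12)) = 12 / n * ‖pp n C η z‖ := by
        field_simp
      linarith
    have hdiff : DifferentiableOn ℂ (fun z => h z / pp n C η z) (Metric.closedBall (-1) (1/2)) := by
      intro z hz
      rw [mem_closedBall_iff_norm, sub_neg_eq_add] at hz
      have hz0 : z ≠ 0 := by
        rintro rfl
        rw [zero_add, norm_one] at hz
        norm_num at hz
      have hzb : z ∈ Metric.ball (0:ℂ) 7 := by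
        rw [mem_ball_zero_iff]
        have : ‖z‖ ≤ ‖z + 1‖ + ‖(1:ℂ)‖ := by
          calc ‖z‖ = ‖(z + 1) - 1‖ := by rw [add_sub_cancel_right]
            _ ≤ _ := norm_sub_le _ _
        rw [norm_one] at this
        linarith
      have hηz : DifferentiableAt ℂ η z := hη.differentiableAt (Metric.isOpen_ball.mem_nhds hzb)
      have hpz : DifferentiableAt ℂ (pp n C η) z := by
        unfold pp
        fun_prop
      exact ((hh z hzb).differentiableAt.div hpz (hp0 z hz0)).differentiableWithinAt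
    have hdc : DiffContOnCl ℂ (fun z => h z / pp n C η z) (Metric.ball (-1) (1/2)) := by
      apply DifferentiableOn.diffContOnCl
      rw [closure_ball _ (by norm_num)]
      exact hdiff
    have hderiv := Complex.norm_deriv_le_of_forall_mem_sphere_norm_le (by norm_num) hdc hgam
    have hval : ‖h (-1) / pp n C η (-1)‖ ≤ M := by
      apply Complex.norm_le_of_forall_mem_frontier_norm_le Metric.isBounded_ball hdc _
        (subset_closure (Metric.mem_ball_self (by norm_num)))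
      rw [frontier_ball _ (by norm_num)]
      exact hgam
    have hm1 : (-1:ℂ) ∈ Metric.ball (0:ℂ) 7 := by
      rw [mem_ball_zero_iff]; simp
    have hη1 : HasDerivAt η (deriv η (-1)) (-1) :=
      (hη.differentiableAt (Metric.isOpen_ball.mem_nhds hm1)).hasDerivAt
    have hp1 := hp0 (-1) (by norm_num)
    have hg := (hh (-1) hm1).fun_div (hasDeriv_pp hn0 C hη1) hp1
    have hg' : deriv (fun z => h z / pp n C η z) (-1)
        = 1 - h (-1) / pp n C η (-1) * (n * deriv η (-1)) := by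
      rw [hg.deriv]
      field_simp
    rw [hg'] at hderiv
    have h5 : (1:ℝ) ≤ M / (1/2) + M * (n * (1/1000)) := by
      calc (1:ℝ) = ‖(1:ℂ)‖ := by simp
        _ = ‖(1 - h (-1) / pp n C η (-1) * (n * deriv η (-1)))
              + h (-1) / pp n C η (-1) * (n * deriv η (-1))‖ := by rw [sub_add_cancel]
        _ ≤ ‖1 - h (-1) / pp n C η (-1) * (n * deriv η (-1))‖
              + ‖h (-1) / pp n C η (-1) * (n * deriv η (-1))‖ := norm_add_le _ _
        _ ≤ _ := by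
          apply add_le_add hderiv
          rw [norm_mul, norm_mul, Complex.norm_natCast]
          have := hη' (-1) hm1
          gcongr
    have h6 : (22:ℝ)/n ≤ 22/100 := by gcongr
    have h7 : M * n ≤ 22 := by
      calc M * n ≤ 22 / n * n := by gcongr
        _ = 22 := by field_simp
    linarith
  intro ζ hζ
  have hbound : ∀ w ∈ Metric.closedBall (0:ℂ) (1/10),
      ‖pp n C η w‖ ≤ ‖C‖ * Real.exp (-(13 / 10) * n) := by
    intro w hw
    rw [mem_closedBall_zero_iff] at hw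
    have hwb : w ∈ Metric.ball (0:ℂ) 7 := by
      rw [mem_ball_zero_iff]; linarith
    have h1 := lip hη hη' hwb hb0
    rw [hη0, sub_zero, sub_zero] at h1
    have h2 : w.re + (η w).re ≤ 1/10 + 1/10000 := by
      have h3 := Complex.re_le_norm w
      have h4 := Complex.re_le_norm (η w)
      linarith
    rw [norm_pp, mul_assoc]
    apply mul_le_mul_of_nonneg_left _ hC0.le
    calc ‖w‖^n * Real.exp (n * (w.re + (η w).re))
        ≤ (1/10)^n * Real.exp (n * (1/10 + 1/10000)) := by gcongr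
      _ = (1/10 * Real.exp (1/10 + 1/10000))^n := by
          rw [mul_pow, ← Real.exp_nat_mul]
      _ ≤ (Real.exp (-(13/10)))^n := by
          apply pow_le_pow_left₀ (by positivity)
          have h5 : Real.exp (1/10 + 1/10000 + 13/10) ≤ 10 := by
            calc Real.exp (1/10 + 1/10000 + 13/10) ≤ Real.exp 2 :=
                  Real.exp_le_exp.2 (by norm_num)
              _ ≤ 1 + 4 * 2 := exp_le_lin (by norm_num) (by norm_num)
              _ ≤ 10 := by norm_num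
          rw [Real.exp_add] at h5
          rw [Real.exp_neg, ← one_div (Real.exp (13/10)), le_div_iff₀ (Real.exp_pos _)]
          linarith
      _ = _ := by rw [← Real.exp_nat_mul]; ring_nf
  have hdiff : ‖h ζ - h 0‖ ≤ ‖C‖ * Real.exp (-(13 / 10) * n) * ‖ζ - 0‖ := by
    apply (convex_closedBall (0:ℂ) (1/10)).norm_image_sub_le_of_norm_hasDerivWithin_le
      (f' := pp n C η) _ hbound
    · exact Metric.mem_closedBall_self (by norm_num)
    · rw [mem_closedBall_zero_iff]; exact hζ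
    · intro w hw
      rw [mem_closedBall_zero_iff] at hw
      exact (hh w (by rw [mem_ball_zero_iff]; linarith)).hasDerivWithinAt
  rw [sub_zero] at hdiff
  have hE0 : 0 < ‖C‖ * Real.exp (-(13 / 10) * n) := by positivity
  have h8 : ‖h 0‖ ≤ ‖h ζ‖ + ‖h ζ - h 0‖ := by
    calc ‖h 0‖ = ‖h ζ - (h ζ - h 0)‖ := by rw [sub_sub_cancel]
      _ ≤ _ := norm_sub_le _ _
  nlinarith

end NevT.J665

namespace NevT

alias local_basin := J665.local_basin

end NevT
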