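import Pool.Agent.Helper551.NevDefs

set_option autoImplicit false

open Filter Topology

open scoped BigOperators

namespace NevT.J666

section Aux

variable {ι : Type} (a : ι → ℂ) (e : ι → ℕ)

/-- canonical product -/
noncomputable def QQ (z : ℂ) : ℂ := ∏' j, (1 - z / a j) ^ e j

theorem pow_sub_one_le (z b : ℂ) (n : ℕ) : ‖(1 - z / b) ^ n - 1‖ ≤ Real.exp (n * (‖z‖ / ‖b‖)) - 1 := by
  have h := Finset.norm_prod_one_add_sub_one_le (Finset.range n) (fun _ => - (z / b))
  simp only [Finset.prod_const, Finset.card_range, Finset.sum_const, nsmul_eq_mul, norm_neg, norm_div] at h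
  rw [sub_eq_add_neg 1 (z / b)]
  exact h

theorem bound_exp (hs : Summable (fun i => (e i : ℝ) / ‖a i‖)) (r : ℝ) (hr : 0 ≤ r) (z : ℂ) (hz : ‖z‖ ≤ r) (j : ι) :
    ‖(1 - z / a j) ^ e j - 1‖ ≤ ((e j : ℝ) / ‖a j‖ * r) * Real.exp ((∑' i, (e i : ℝ) / ‖a i‖) * r) := by
  refine (pow_sub_one_le z (a j) (e j)).trans ?_
  have h0 : 0 ≤ (e j : ℝ) / ‖a j‖ := by positivity
  have h1 : (e j : ℝ) * (‖z‖ / ‖a j‖) ≤ (e j : ℝ) / ‖a j‖ * r := by
    have : (e j : ℝ) * (‖z‖ / ‖a j‖) = (e j : ℝ) / ‖a j‖ * ‖z‖ := by ring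
    rw [this]
    exact mul_le_mul_of_nonneg_left hz h0
  have h2 : (e j : ℝ) / ‖a j‖ ≤ ∑' i, (e i : ℝ) / ‖a i‖ := hs.le_tsum j (fun i _ => by positivity)
  set x : ℝ := (e j : ℝ) / ‖a j‖ * r with hx
  have hx0 : 0 ≤ x := by positivity
  have h3 : x ≤ (∑' i, (e i : ℝ) / ‖a i‖) * r := mul_le_mul_of_nonneg_right h2 hr
  calc Real.exp ((e j : ℝ) * (‖z‖ / ‖a j‖)) - 1 ≤ Real.exp x - 1 := by
        have := Real.exp_le_exp.mpr h1
        linarith
    _ ≤ x * Real.exp x := by
        have h4 := Real.add_one_le_exp (-x)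
        have h5 : Real.exp x * Real.exp (-x) = 1 := by rw [← Real.exp_add, add_neg_cancel, Real.exp_zero]
        nlinarith [Real.exp_pos x]
    _ ≤ x * Real.exp ((∑' i, (e i : ℝ) / ‖a i‖) * r) := by
        apply mul_le_mul_of_nonneg_left (Real.exp_le_exp.mpr h3) hx0

theorem summ_bound (hs : Summable (fun i => (e i : ℝ) / ‖a i‖)) (r : ℝ) :
    Summable (fun j => ((e j : ℝ) / ‖a j‖ * r) * Real.exp ((∑' i, (e i : ℝ) / ‖a i‖) * r)) :=
  (hs.mul_right r).mul_right _

theorem summ_norm (hs : Summable (fun i => (e i : ℝ) / ‖a i‖)) (z : ℂ) :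
    Summable (fun j => ‖(1 - z / a j) ^ e j - 1‖) :=
  Summable.of_nonneg_of_le (fun _ => norm_nonneg _) (bound_exp a e hs ‖z‖ (norm_nonneg z) z le_rfl) (summ_bound a e hs ‖z‖)

theorem mult (hs : Summable (fun i => (e i : ℝ) / ‖a i‖)) (z : ℂ) : Multipliable (fun j => (1 - z / a j) ^ e j) := by
  have h := multipliable_one_add_of_summable (f := fun j => (1 - z / a j) ^ e j - 1) (summ_norm a e hs z)
  refine h.congr (fun j => ?_)
  ring

theorem locunif (hs : Summable (fun i => (e i : ℝ) / ‖a i‖)) (r : ℝ) (hr : 0 ≤ r) :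
    HasProdLocallyUniformlyOn (fun j z => (1 - z / a j) ^ e j) (QQ a e) (Metric.ball 0 r) := by
  have h := Summable.hasProdLocallyUniformlyOn_one_add (K := Metric.ball (0 : ℂ) r) Metric.isOpen_ball
    (f := fun j z => (1 - z / a j) ^ e j - 1) (summ_bound a e hs r)
    (Eventually.of_forall fun j z hz => bound_exp a e hs r hr z (by
      rw [Metric.mem_ball, dist_zero_right] at hz
      exact hz.le) j) (fun j => by fun_prop)
  have e1 : (fun j z => 1 + ((1 - z / a j) ^ e j - 1)) = (fun j (z : ℂ) => (1 - z / a j) ^ e j) := by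
    funext j z
    ring
  have e2 : (fun z => ∏' j, (1 + ((1 - z / a j) ^ e j - 1))) = QQ a e := by
    funext z
    unfold QQ
    congr 1
    funext j
    ring
  rw [e1, e2] at h
  exact h

theorem QQ_diff (hs : Summable (fun i => (e i : ℝ) / ‖a i‖)) : Differentiable ℂ (QQ a e) := by
  intro z
  have h := locunif a e hs (‖z‖ + 1) (by positivity)
  rw [hasProdLocallyUniformlyOn_iff_tendstoLocallyUniformlyOn] at h
  have h2 := h.differentiableOn (Eventually.of_forall fun s => by fun_prop) Metric.isOpen_ball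
  exact (h2 z (by rw [Metric.mem_ball, dist_zero_right]; linarith)).differentiableAt
    (Metric.isOpen_ball.mem_nhds (by rw [Metric.mem_ball, dist_zero_right]; linarith))

theorem QQ_zero : QQ a e 0 = 1 := by
  unfold QQ
  simp

theorem QQ_bound (ha : ∀ i, a i ≠ 0) (hs : Summable (fun i => (e i : ℝ) / ‖a i‖)) (z : ℂ) :
    ‖QQ a e z‖ ≤ Real.exp (∑' i, (e i : ℝ) * Real.log (1 + ‖z‖ / ‖a i‖)) := by
  have hnn : ∀ i, 0 ≤ (e i : ℝ) * Real.log (1 + ‖z‖ / ‖a i‖) := by
    intro i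
    apply mul_nonneg (by positivity)
    apply Real.log_nonneg
    have : 0 ≤ ‖z‖ / ‖a i‖ := by positivity
    linarith
  have hsum : Summable (fun i => (e i : ℝ) * Real.log (1 + ‖z‖ / ‖a i‖)) := by
    refine Summable.of_nonneg_of_le hnn (fun i => ?_) (hs.mul_right ‖z‖)
    have h0 : 0 ≤ ‖z‖ / ‖a i‖ := by positivity
    have h1 : Real.log (1 + ‖z‖ / ‖a i‖) ≤ ‖z‖ / ‖a i‖ := by
      have := Real.log_le_sub_one_of_pos (x := 1 + ‖z‖ / ‖a i‖) (by linarith)
      linarith
    calc (e i : ℝ) * Real.log (1 + ‖z‖ / ‖a i‖) ≤ (e i : ℝ) * (‖z‖ / ‖a i‖) :=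
          mul_le_mul_of_nonneg_left h1 (by positivity)
      _ = (e i : ℝ) / ‖a i‖ * ‖z‖ := by ring
  have h := (mult a e hs z).hasProd
  have h2 : Tendsto (fun s : Finset ι => ‖∏ j ∈ s, (1 - z / a j) ^ e j‖) atTop (𝓝 ‖QQ a e z‖) :=
    (continuous_norm.tendsto _).comp h
  apply le_of_tendsto' h2
  intro s
  rw [norm_prod]
  calc ∏ j ∈ s, ‖(1 - z / a j) ^ e j‖ ≤ ∏ j ∈ s, Real.exp ((e j : ℝ) * Real.log (1 + ‖z‖ / ‖a j‖)) := by
        apply Finset.prod_le_prod (fun _ _ => norm_nonneg _)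
        intro j _
        have h0 : 0 ≤ ‖z‖ / ‖a j‖ := by positivity
        rw [norm_pow, mul_comm, Real.exp_mul, Real.exp_log (by linarith), Real.rpow_natCast]
        apply pow_le_pow_left₀ (norm_nonneg _)
        calc ‖1 - z / a j‖ ≤ ‖(1 : ℂ)‖ + ‖z / a j‖ := norm_sub_le _ _
          _ = 1 + ‖z‖ / ‖a j‖ := by rw [norm_one, norm_div]
    _ = Real.exp (∑ j ∈ s, (e j : ℝ) * Real.log (1 + ‖z‖ / ‖a j‖)) := (Real.exp_sum _ _).symm
    _ ≤ Real.exp (∑' i, (e i : ℝ) * Real.log (1 + ‖z‖ / ‖a i‖)) := by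
        apply Real.exp_le_exp.mpr
        exact hsum.sum_le_tsum s (fun i _ => hnn i)

theorem QQ_compare (ha : ∀ i, a i ≠ 0) (hs : Summable (fun i => (e i : ℝ) / ‖a i‖)) (w w0 : ℂ) (β : ι → ℝ)
    (h : ∀ j, e j ≠ 0 → ‖w - a j‖ ≤ ‖w0 - a j‖ * Real.exp (β j)) (hβ : Summable (fun j => (e j : ℝ) * β j)) :
    ‖QQ a e w‖ ≤ ‖QQ a e w0‖ * Real.exp (∑' j, (e j : ℝ) * β j) := by
  have h1 : Tendsto (fun s : Finset ι => ‖∏ j ∈ s, (1 - w / a j) ^ e j‖) atTop (𝓝 ‖QQ a e w‖) :=
    (continuous_norm.tendsto _).comp (mult a e hs w).hasProd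
  have h2 : Tendsto (fun s : Finset ι => ‖∏ j ∈ s, (1 - w0 / a j) ^ e j‖) atTop (𝓝 ‖QQ a e w0‖) :=
    (continuous_norm.tendsto _).comp (mult a e hs w0).hasProd
  have h3 : Tendsto (fun s : Finset ι => Real.exp (∑ j ∈ s, (e j : ℝ) * β j)) atTop (𝓝 (Real.exp (∑' j, (e j : ℝ) * β j))) :=
    (Real.continuous_exp.tendsto _).comp hβ.hasSum
  refine le_of_tendsto_of_tendsto' h1 (h2.mul h3) (fun s => ?_)
  rw [norm_prod, norm_prod, Real.exp_sum, ← Finset.prod_mul_distrib]
  apply Finset.prod_le_prod (fun _ _ => norm_nonneg _)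
  intro j _
  by_cases hj : e j = 0
  · simp [hj]
  have h4 := h j hj
  have haj : 0 < ‖a j‖ := norm_pos_iff.mpr (ha j)
  have h5 : ∀ u : ℂ, ‖1 - u / a j‖ = ‖u - a j‖ / ‖a j‖ := by
    intro u
    rw [← norm_div, sub_div, div_self (ha j), norm_sub_rev]
  rw [norm_pow, norm_pow, h5, h5, mul_comm (e j : ℝ) (β j), Real.exp_mul, Real.rpow_natCast, ← mul_pow]
  apply pow_le_pow_left₀ (by positivity)
  rw [div_mul_eq_mul_div]
  exact div_le_div_of_nonneg_right h4 haj.le

theorem QQ_log (ha : ∀ i, a i ≠ 0) (hs : Summable (fun i => (e i : ℝ) / ‖a i‖)) (z : ℂ)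
    (hz : ∀ j, e j ≠ 0 → z ≠ a j) :
    QQ a e z ≠ 0 ∧ deriv (QQ a e) z = QQ a e z * ∑' j, (e j : ℂ) / (z - a j) := by
  have hne : ∀ j, (1 - z / a j) ^ e j ≠ 0 := by
    intro j
    by_cases hj : e j = 0
    · simp [hj]
    · apply pow_ne_zero
      intro h
      apply hz j hj
      have h1 : z / a j = 1 := (sub_eq_zero.mp h).symm
      exact (div_eq_one_iff_eq (ha j)).mp h1
  have hQ : QQ a e z ≠ 0 := by
    have h := tprod_one_add_ne_zero_of_summable (f := fun j => (1 - z / a j) ^ e j - 1)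
      (fun j => by rw [add_sub_cancel]; exact hne j) (summ_norm a e hs z)
    unfold QQ
    intro h'
    apply h
    rw [← h']
    congr 1
    funext j
    ring
  refine ⟨hQ, ?_⟩
  have hld : ∀ j, logDeriv (fun w => (1 - w / a j) ^ e j) z = (e j : ℂ) / (z - a j) := by
    intro j
    rw [logDeriv_fun_pow (by fun_prop)]
    by_cases hj : e j = 0
    · simp [hj]
    have h1 : deriv (fun w : ℂ => 1 - w / a j) z = - (1 / a j) := by
      simp [deriv_const_sub]
    have h2 : z - a j ≠ 0 := sub_ne_zero.mpr (hz j hj)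
    have h3 := ha j
    have h4 : 1 - z / a j ≠ 0 := by
      intro h
      apply hz j hj
      exact (div_eq_one_iff_eq (ha j)).mp (sub_eq_zero.mp h).symm
    have h5 : a j - z ≠ 0 := by
      intro h
      apply h2
      linear_combination - h
    rw [logDeriv_apply, h1]
    field_simp
    ring
  have hsum : Summable (fun j => logDeriv (fun w => (1 - w / a j) ^ e j) z) := by
    simp only [hld]
    refine Summable.of_norm_bounded_eventually (g := fun j => 2 * ((e j : ℝ) / ‖a j‖)) (hs.mul_left 2) ?_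
    have h1 := hs.tendsto_cofinite_zero.eventually_lt_const (u := 1 / (2 * ‖z‖ + 1)) (by positivity)
    filter_upwards [h1] with j hj
    by_cases hj0 : e j = 0
    · simp [hj0]
    have haj : 0 < ‖a j‖ := norm_pos_iff.mpr (ha j)
    have hej : (1 : ℝ) ≤ e j := by exact_mod_cast Nat.one_le_iff_ne_zero.mpr hj0
    have h2 : 2 * ‖z‖ + 1 < ‖a j‖ := by
      rw [div_lt_div_iff₀ haj (by positivity)] at hj
      nlinarith [norm_nonneg z]
    have h3 : ‖a j‖ / 2 ≤ ‖z - a j‖ := by
      have := norm_sub_norm_le (a j) z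
      rw [norm_sub_rev] at this
      linarith
    rw [norm_div, Complex.norm_natCast]
    calc (e j : ℝ) / ‖z - a j‖ ≤ (e j : ℝ) / (‖a j‖ / 2) := by
          apply div_le_div_of_nonneg_left (by positivity) (by positivity) h3
      _ = 2 * ((e j : ℝ) / ‖a j‖) := by
          field_simp
  have h := logDeriv_tprod_eq_tsum (s := Metric.ball (0 : ℂ) (‖z‖ + 1)) Metric.isOpen_ball
    (x := z) (by rw [Metric.mem_ball, dist_zero_right]; linarith) (f := fun j w => (1 - w / a j) ^ e j)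
    hne (fun j => by fun_prop) hsum ⟨_, locunif a e hs (‖z‖ + 1) (by positivity)⟩ hQ
  have h' : logDeriv (QQ a e) z = ∑' j, (e j : ℂ) / (z - a j) := by
    have h6 : logDeriv (fun w => ∏' j, (1 - w / a j) ^ e j) z = ∑' j, logDeriv (fun w => (1 - w / a j) ^ e j) z := h
    simp only [hld] at h6
    exact h6
  rw [← h', logDeriv_apply, mul_div_cancel₀ _ hQ]

end Aux

theorem exists_product {ι : Type} [Countable ι] (a : ι → ℂ) (ν : ι → ℕ) (ha : ∀ i, a i ≠ 0)
    (hinj : Function.Injective a) (hs : Summable (fun i => (ν i : ℝ) / ‖a i‖)) :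
    ∃ (P : ℂ → ℂ) (G : ι → ℂ → ℂ), Differentiable ℂ P ∧ (∀ i, Differentiable ℂ (G i)) ∧
      (∀ i z, P z = (1 - z / a i) ^ ν i * G i z) ∧
      (∀ i, G i 0 = 1) ∧
      (∀ z, ‖P z‖ ≤ Real.exp (∑' i, (ν i : ℝ) * Real.log (1 + ‖z‖ / ‖a i‖))) ∧
      (∀ i z, (∀ j, j ≠ i → z ≠ a j) → G i z ≠ 0 ∧
        deriv (G i) z =
          G i z * ∑' j, (open Classical in if j = i then 0 else (ν j : ℂ) / (z - a j))) ∧
      (∀ i w (β : ι → ℝ), (∀ j, j ≠ i → ‖w - a j‖ ≤ ‖a i - a j‖ * Real.exp (β j)) →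
        Summable (fun j => (ν j : ℝ) * β j) →
        ‖G i w‖ ≤ ‖G i (a i)‖ *
          Real.exp (∑' j, (open Classical in if j = i then 0 else (ν j : ℝ) * β j))) := by
  classical
  let ν' : ι → ι → ℕ := fun i j => if j = i then 0 else ν j
  have hs' : ∀ i, Summable (fun j => (ν' i j : ℝ) / ‖a j‖) := by
    intro i
    refine Summable.of_nonneg_of_le (fun j => by positivity) (fun j => ?_) hs
    simp only [ν']
    split_ifs with h
    · simp only [Nat.cast_zero, zero_div]
      positivity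
    · exact le_rfl
  refine ⟨QQ a ν, fun i => QQ a (ν' i), QQ_diff a ν hs, fun i => QQ_diff a (ν' i) (hs' i), ?_,
    fun i => QQ_zero a _, QQ_bound a ν ha hs, ?_, ?_⟩
  · intro i z
    unfold QQ
    have hm : Multipliable (fun j => (1 - z / a j) ^ ν' i j) := mult a (ν' i) (hs' i) z
    have h1 : (fun j => (1 - z / a j) ^ ν' i j) = Function.update (fun j => (1 - z / a j) ^ ν j) i 1 := by
      funext j
      by_cases hj : j = i
      · subst hj
        simp [ν']
      · simp [ν', hj]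
    rw [h1] at hm
    rw [Multipliable.tprod_eq_mul_tprod_ite' i hm]
    congr 2
    funext j
    simp only [ν']
    split_ifs with h <;> simp
  · intro i z hz
    have h := QQ_log a (ν' i) ha (hs' i) z (by
      intro j hj
      apply hz
      intro h
      apply hj
      simp [ν', h])
    refine ⟨h.1, ?_⟩
    rw [h.2]
    congr 2
    funext j
    simp only [ν']
    split_ifs with h' <;> simp
  · intro i w β hw hβ
    have hβ' : Summable (fun j => (ν' i j : ℝ) * β j) := by
      have h1 : (fun j => (ν' i j : ℝ) * β j) = Function.update (fun j => (ν j : ℝ) * β j) i 0 := by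
        funext j
        by_cases hj : j = i
        · subst hj
          simp [ν']
        · simp [ν', hj]
      rw [h1]
      exact hβ.update i 0
    have h := QQ_compare a (ν' i) ha (hs' i) w (a i) β (by
      intro j hj
      apply hw
      intro h
      apply hj
      simp [ν', h]) hβ'
    have h2 : (∑' j, (ν' i j : ℝ) * β j) = ∑' j, (if j = i then 0 else (ν j : ℝ) * β j) := by
      congr 1
      funext j
      simp only [ν']
      split_ifs with h' <;> simp
    rw [h2] at h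
    exact h

end NevT.J666

namespace NevT

alias exists_product := J666.exists_product

end NevT
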