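import Pool.Agent.Helper551.NevDefs

set_option autoImplicit false

open MeasureTheory Filter Topology

open scoped BigOperators

namespace NevT.J667

noncomputable section

/-! ## finite configurations -/

theorem K_nonneg (L x : ℝ) : 0 ≤ K L x := le_min (Real.sqrt_nonneg _) (sq_nonneg _)

theorem K_zero (L : ℝ) : K L 0 = 0 := by simp [K]

theorem K_far {L x : ℝ} (hL : 0 ≤ L) (h : L < x) : K L x = (L / x) ^ 2 := by
  have hx : 0 < x := lt_of_le_of_lt hL h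
  have h1 : L / x ≤ 1 := (div_le_one hx).mpr h.le
  have h0 : 0 ≤ L / x := by positivity
  refine min_eq_right ?_
  have h2 : (L/x)^2 ≤ L/x := by nlinarith
  exact h2.trans (Real.le_sqrt_of_sq_le h2)

theorem K_near {L x : ℝ} (hx : 0 < x) (h : x ≤ L) : K L x = Real.sqrt (L / x) := by
  have h1 : 1 ≤ L / x := (one_le_div hx).mpr h
  refine min_eq_left ?_
  have h2 : Real.sqrt (L/x) ≤ L/x := by
    rw [Real.sqrt_le_left (by positivity)]; nlinarith
  nlinarith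

theorem K_le {L x : ℝ} (hL : 0 ≤ L) (hx : 0 ≤ x) : K L x ≤ L / x := by
  rcases hx.eq_or_lt with h | h
  · rw [← h, K_zero]; simp
  · rcases lt_or_ge L x with h1 | h1
    · rw [K_far hL h1]
      have h2 : L / x ≤ 1 := (div_le_one h).mpr h1.le
      have h0 : 0 ≤ L / x := by positivity
      nlinarith
    · rw [K_near h h1]
      have h2 : 1 ≤ L / x := (one_le_div h).mpr h1
      rw [Real.sqrt_le_left (by positivity)]; nlinarith

theorem summ_dist {ι : Type} (a : ι → ℂ) (ν : ι → ℕ) (ha : ∀ j, a j ≠ 0)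
    (hs : Summable (fun j => (ν j : ℝ) / ‖a j‖)) (i : ι) :
    Summable (fun j => (ν j : ℝ) / ‖a j - a i‖) := by
  have h0 : Tendsto (fun j => (ν j : ℝ) / ‖a j‖) cofinite (𝓝 0) := hs.tendsto_cofinite_zero
  have hA : 0 < ‖a i‖ := norm_pos_iff.mpr (ha i)
  have h1 : ∀ᶠ j in cofinite, (ν j : ℝ) / ‖a j‖ < 1 / (2 * ‖a i‖) :=
    h0.eventually (gt_mem_nhds (by positivity))
  refine Summable.of_norm_bounded_eventually (hs.mul_left 2) ?_
  filter_upwards [h1] with j hj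
  rw [Real.norm_of_nonneg (by positivity)]
  rcases Nat.eq_zero_or_pos (ν j) with h | h
  · simp [h]
  · have hν : (1:ℝ) ≤ ν j := by exact_mod_cast h
    have hj0 : 0 < ‖a j‖ := norm_pos_iff.mpr (ha j)
    have h2 : 2 * ‖a i‖ < ‖a j‖ := by
      rw [div_lt_div_iff₀ hj0 (by positivity)] at hj
      nlinarith
    have h3 : ‖a j‖ / 2 ≤ ‖a j - a i‖ := by
      have := norm_sub_norm_le (a j) (a i)
      linarith
    have h4 : (ν j : ℝ) / ‖a j - a i‖ ≤ (ν j : ℝ) / (‖a j‖ / 2) :=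
      div_le_div_of_nonneg_left (by positivity) (by positivity) h3
    calc (ν j : ℝ) / ‖a j - a i‖ ≤ (ν j : ℝ) / (‖a j‖ / 2) := h4
      _ = 2 * ((ν j : ℝ) / ‖a j‖) := by field_simp

theorem summ_F {ι : Type} (a : ι → ℂ) (ν : ι → ℕ) (i : ι)
    (h : Summable (fun j => (ν j : ℝ) / ‖a j - a i‖)) (L : ℝ) :
    Summable (fun j => if L < ‖a j - a i‖ then (ν j : ℂ) / (a i - a j) else 0) := by
  refine Summable.of_norm_bounded h ?_
  intro j
  split_ifs
  · rw [norm_div, norm_sub_rev]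
    simp
  · simp; positivity

theorem summ_S {ι : Type} (a : ι → ℂ) (ν : ι → ℕ) (i : ι)
    (h : Summable (fun j => (ν j : ℝ) / ‖a j - a i‖)) {L : ℝ} (hL : 0 ≤ L) :
    Summable (fun j => (ν j : ℝ) * K L ‖a j - a i‖) := by
  refine Summable.of_norm_bounded (h.mul_left L) ?_
  intro j
  have h1 := K_le hL (norm_nonneg (a j - a i))
  have h2 := K_nonneg L ‖a j - a i‖
  rw [Real.norm_of_nonneg (by positivity)]
  calc (ν j : ℝ) * K L ‖a j - a i‖ ≤ (ν j : ℝ) * (L / ‖a j - a i‖) := by gcongr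
    _ = L * ((ν j : ℝ) / ‖a j - a i‖) := by ring

/-- slow variation -/
theorem F_slow {ι : Type} (a : ι → ℂ) (ν : ι → ℕ) (i : ι)
    (h : Summable (fun j => (ν j : ℝ) / ‖a j - a i‖)) {L : ℝ} (hL : 0 < L) :
    ‖Fz a ν i L - Fz a ν i (2 * L)‖ ≤ Sz a ν i (2 * L) / L := by
  have h1 := summ_F a ν i h L
  have h2 := summ_F a ν i h (2 * L)
  have h3 := summ_S a ν i h (L := 2 * L) (by positivity)
  unfold Fz Sz
  rw [← Summable.tsum_sub h1 h2, ← tsum_div_const]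
  refine tsum_of_norm_bounded (h3.div_const L).hasSum ?_
  intro j
  have hK := K_nonneg (2 * L) ‖a j - a i‖
  by_cases hc : L < ‖a j - a i‖
  · by_cases hd : 2 * L < ‖a j - a i‖
    · simp only [hc, hd, if_true, sub_self, norm_zero]
      positivity
    · simp only [hc, hd, if_true, if_false, sub_zero]
      have hx : 0 < ‖a j - a i‖ := hL.trans hc
      rw [norm_div, norm_sub_rev, K_near hx (not_lt.mp hd)]
      have h5 : (1:ℝ) ≤ Real.sqrt (2 * L / ‖a j - a i‖) := by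
        rw [Real.one_le_sqrt, one_le_div hx]
        exact not_lt.mp hd
      have h6 : ‖(ν j : ℂ)‖ = (ν j : ℝ) := by simp
      rw [h6, mul_div_assoc]
      calc (ν j : ℝ) / ‖a j - a i‖ ≤ (ν j : ℝ) / L := by gcongr
        _ = (ν j : ℝ) * (1 / L) := by ring
        _ ≤ (ν j : ℝ) * (Real.sqrt (2 * L / ‖a j - a i‖) / L) := by gcongr
  · have hd : ¬ (2 * L < ‖a j - a i‖) := by
      intro h'; apply hc; linarith
    simp only [hc, hd, if_false, sub_zero, norm_zero]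
    positivity

theorem F_const {ι : Type} (a : ι → ℂ) (ν : ι → ℕ) (i : ι) {R : ℝ}
    (hsep : ∀ j, j ≠ i → R ≤ ‖a j - a i‖) {L : ℝ} (h0 : 0 ≤ L) (hL : L < R) :
    Fz a ν i L = Fz a ν i 0 := by
  unfold Fz
  refine tsum_congr ?_
  intro j
  by_cases hj : j = i
  · subst hj; simp
  · have h1 : L < ‖a j - a i‖ := hL.trans_le (hsep j hj)
    have h2 : 0 < ‖a j - a i‖ := h0.trans_lt h1
    simp [h1, h2]

/-- the pointwise bound of the exponents -/
theorem beta_bound {A b v : ℂ} {L : ℝ} (hL : 0 < L) (hb : b ≠ A) (hv : ‖v‖ ≤ 2 * L) :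
    ‖(A - v) - b‖ ≤ ‖A - b‖ * Real.exp ((if L < ‖b - A‖ then -(v / (A - b)).re else 0)
      + 2 * K L ‖b - A‖) := by
  have hAb : A - b ≠ 0 := sub_ne_zero.mpr (Ne.symm hb)
  have hx : 0 < ‖b - A‖ := norm_pos_iff.mpr (sub_ne_zero.mpr hb)
  have hx' : ‖A - b‖ = ‖b - A‖ := norm_sub_rev _ _
  set t : ℂ := v / (A - b) with ht
  have h1 : (A - v) - b = (A - b) * (1 - t) := by
    rw [ht]; field_simp; ring
  have h2 : ‖t‖ ≤ 2 * L / ‖b - A‖ := by
    rw [ht, norm_div, hx']; gcongr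
  rw [h1, norm_mul]
  gcongr
  by_cases hc : L < ‖b - A‖
  · simp only [hc, if_true]
    rw [K_far hL.le hc]
    have h3 : ‖1 - t‖ ^ 2 = 1 - 2 * t.re + ‖t‖ ^ 2 := by
      rw [← Complex.normSq_eq_norm_sq, ← Complex.normSq_eq_norm_sq, Complex.normSq_apply,
        Complex.normSq_apply]
      simp; ring
    have h4 : ‖t‖ ^ 2 ≤ 4 * (L / ‖b - A‖) ^ 2 := by
      have : ‖t‖ ^ 2 ≤ (2 * L / ‖b - A‖) ^ 2 := by gcongr
      calc ‖t‖ ^ 2 ≤ (2 * L / ‖b - A‖) ^ 2 := this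
        _ = 4 * (L / ‖b - A‖) ^ 2 := by ring
    have h5 : ‖1 - t‖ ^ 2 ≤ (Real.exp (-t.re + 2 * (L / ‖b - A‖) ^ 2)) ^ 2 := by
      rw [← Real.exp_nat_mul]
      push_cast
      have := Real.add_one_le_exp (2 * (-t.re + 2 * (L / ‖b - A‖) ^ 2))
      nlinarith
    exact (pow_le_pow_iff_left₀ (norm_nonneg _) (Real.exp_pos _).le two_ne_zero).mp h5
  · simp only [hc, if_false, zero_add]
    rw [K_near hx (not_lt.mp hc)]
    have h3 : ‖1 - t‖ ≤ 1 + 2 * (L / ‖b - A‖) := by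
      calc ‖1 - t‖ ≤ ‖(1:ℂ)‖ + ‖t‖ := norm_sub_le _ _
        _ ≤ 1 + 2 * L / ‖b - A‖ := by simp; exact h2
        _ = 1 + 2 * (L / ‖b - A‖) := by ring
    have h4 : 0 ≤ L / ‖b - A‖ := by positivity
    have h5 : L / ‖b - A‖ = Real.sqrt (L / ‖b - A‖) ^ 2 := (Real.sq_sqrt h4).symm
    have h6 := Real.quadratic_le_exp_of_nonneg (x := 2 * Real.sqrt (L / ‖b - A‖)) (by positivity)
    have h7 := Real.sqrt_nonneg (L / ‖b - A‖)
    nlinarith

theorem G_bound {ι : Type} (a : ι → ℂ) (ν : ι → ℕ) (i : ι) (hinj : Function.Injective a)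
    (h : Summable (fun j => (ν j : ℝ) / ‖a j - a i‖)) (G : ℂ → ℂ)
    (hG : ∀ (w : ℂ) (β : ι → ℝ), (∀ j, j ≠ i → ‖w - a j‖ ≤ ‖a i - a j‖ * Real.exp (β j)) →
        Summable (fun j => (ν j : ℝ) * β j) →
        ‖G w‖ ≤ ‖G (a i)‖ *
          Real.exp (∑' j, (open Classical in if j = i then 0 else (ν j : ℝ) * β j)))
    {L : ℝ} (hL : 0 < L) {v : ℂ} (hv : ‖v‖ ≤ 2 * L) :
    ‖G (a i - v)‖ ≤ ‖G (a i)‖ * Real.exp (-(v * Fz a ν i L).re + 2 * Sz a ν i L) := by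
  set β : ι → ℝ := fun j => (if L < ‖a j - a i‖ then -(v / (a i - a j)).re else 0)
      + 2 * K L ‖a j - a i‖ with hβ
  have h1 := (summ_F a ν i h L).hasSum
  have h2 := (summ_S a ν i h hL.le).hasSum
  have h3 := ((Complex.reCLM.hasSum (h1.mul_left v)).neg).add (h2.mul_left 2)
  have h4 : HasSum (fun j => (ν j : ℝ) * β j) (-(v * Fz a ν i L).re + 2 * Sz a ν i L) := by
    have hfun : (fun j => (ν j : ℝ) * β j) = fun b => -Complex.reCLM
        (v * if L < ‖a b - a i‖ then (ν b : ℂ) / (a i - a b) else 0) +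
          2 * ((ν b : ℝ) * K L ‖a b - a i‖) := ?_
    · rw [hfun]; exact h3
    funext j
    simp only [hβ, Complex.reCLM_apply]
    split_ifs
    · have e1 : v * ((ν j : ℂ) / (a i - a j)) = ((ν j : ℝ) : ℂ) * (v / (a i - a j)) := by
        push_cast; ring
      rw [e1, Complex.re_ofReal_mul]; ring
    · simp; ring
  have h5 := hG (a i - v) β (fun j hj => beta_bound hL (fun e => hj (hinj e)) hv) h4.summable
  have h6 : (∑' j, (open Classical in if j = i then 0 else (ν j : ℝ) * β j))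
      = -(v * Fz a ν i L).re + 2 * Sz a ν i L := by
    rw [← h4.tsum_eq]
    refine tsum_congr ?_
    intro j
    split_ifs with hj
    · subst hj
      have : ¬ (L < 0) := not_lt.mpr hL.le
      simp [hβ, K_zero, this]
    · rfl
  rwa [h6] at h5

theorem num_bound (l : ℕ) {X s L : ℝ} (hs : 0 < s) (hL : L = 6 * s * 2 ^ l)
    (hX : (999/1000) * (6 * 2 ^ l / (1 + 2 * lam) ^ l) ≤ X) :
    2 * L / s * Real.exp (-X) ≤ Real.exp (-3) := by
  have hq : (1:ℝ) + 0.99 * l ≤ 2 ^ l / (1 + 2 * lam) ^ l := by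
    have e1 : (2:ℝ) ^ l / (1 + 2 * lam) ^ l = (1 + (2 / (1 + 2 * lam) - 1)) ^ l := by
      rw [← div_pow]; congr 1; ring
    rw [e1]
    have h1 := one_add_mul_le_pow (a := (2 / (1 + 2 * lam) - 1)) (by unfold lam; norm_num) l
    refine le_trans ?_ h1
    have : (0.99:ℝ) ≤ (2 / (1 + 2 * lam) - 1) := by unfold lam; norm_num
    nlinarith [(Nat.cast_nonneg l : (0:ℝ) ≤ l)]
  have h2 : (2.99 : ℝ) + 5.9 * l ≤ X - 3 := by
    have : 6 * 2 ^ l / (1 + 2 * lam) ^ l = 6 * (2 ^ l / (1 + 2 * lam) ^ l) := by ring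
    rw [this] at hX
    have hl : (0:ℝ) ≤ l := Nat.cast_nonneg l
    nlinarith
  have h3 : (12:ℝ) ≤ Real.exp 2.99 := by
    have := Real.sum_le_exp_of_nonneg (x := (2.99:ℝ)) (by norm_num) 4
    refine le_trans ?_ this
    norm_num [Finset.sum_range_succ, Nat.factorial]
  have h4 : (2:ℝ) ^ l ≤ Real.exp (5.9 * l) := by
    have : (2:ℝ) ≤ Real.exp 5.9 := by
      have := Real.add_one_le_exp (5.9:ℝ); linarith
    calc (2:ℝ) ^ l ≤ (Real.exp 5.9) ^ l := by gcongr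
      _ = Real.exp (5.9 * l) := by rw [← Real.exp_nat_mul]; ring_nf
  have h5 : 2 * L / s = 12 * 2 ^ l := by
    rw [hL]; field_simp; ring
  rw [h5]
  have h6 : (12:ℝ) * 2 ^ l ≤ Real.exp (X - 3) := by
    calc (12:ℝ) * 2 ^ l ≤ Real.exp 2.99 * Real.exp (5.9 * l) := by gcongr
      _ = Real.exp (2.99 + 5.9 * l) := by rw [Real.exp_add]
      _ ≤ Real.exp (X - 3) := Real.exp_le_exp.mpr h2
  calc (12:ℝ) * 2 ^ l * Real.exp (-X) ≤ Real.exp (X - 3) * Real.exp (-X) := by gcongr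
    _ = Real.exp (-3) := by rw [← Real.exp_add]; ring_nf

theorem F_growth {ι : Type} (a : ι → ℂ) (ν : ι → ℕ) (i : ι)
    (h : Summable (fun j => (ν j : ℝ) / ‖a j - a i‖)) (hgood : GoodZ a ν i)
    {L0 : ℝ} (hL0 : 0 < L0) (hF0 : Fz a ν i L0 = Fz a ν i 0) (l : ℕ) :
    L0 * 2 ^ l ≤ eta * ‖a i‖ →
      ‖Fz a ν i 0‖ ≤ (1 + 2 * lam) ^ l * ‖Fz a ν i (L0 * 2 ^ l)‖ := by
  induction l with
  | zero => intro _; simp [hF0]
  | succ l ih =>
    intro hl
    have hp : 0 < L0 * 2 ^ l := by positivity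
    have e : L0 * 2 ^ (l + 1) = 2 * (L0 * 2 ^ l) := by ring
    rw [e] at hl ⊢
    have h1 := ih (by linarith)
    have h2 := F_slow a ν i h hp
    have h3 := hgood.near (2 * (L0 * 2 ^ l)) (by positivity) hl
    have h4 : ‖Fz a ν i (L0 * 2 ^ l)‖ ≤ (1 + 2 * lam) * ‖Fz a ν i (2 * (L0 * 2 ^ l))‖ := by
      have h5 : Sz a ν i (2 * (L0 * 2 ^ l)) / (L0 * 2 ^ l) ≤
          2 * lam * ‖Fz a ν i (2 * (L0 * 2 ^ l))‖ := by
        rw [div_le_iff₀ hp]; linarith
      have h6 : ‖Fz a ν i (L0 * 2 ^ l)‖ ≤ ‖Fz a ν i (L0 * 2 ^ l) - Fz a ν i (2 * (L0 * 2 ^ l))‖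
          + ‖Fz a ν i (2 * (L0 * 2 ^ l))‖ := by
        have := norm_add_le (Fz a ν i (L0 * 2 ^ l) - Fz a ν i (2 * (L0 * 2 ^ l)))
          (Fz a ν i (2 * (L0 * 2 ^ l)))
        simpa using this
      linarith
    have hlam : (0:ℝ) ≤ 1 + 2 * lam := by unfold lam; norm_num
    calc ‖Fz a ν i 0‖ ≤ (1 + 2 * lam) ^ l * ‖Fz a ν i (L0 * 2 ^ l)‖ := h1
      _ ≤ (1 + 2 * lam) ^ l * ((1 + 2 * lam) * ‖Fz a ν i (2 * (L0 * 2 ^ l))‖) := by gcongr
      _ = (1 + 2 * lam) ^ (l + 1) * ‖Fz a ν i (2 * (L0 * 2 ^ l))‖ := by ring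

/-- conjugate unit direction -/
def uz {ι : Type} (a : ι → ℂ) (ν : ι → ℕ) (i : ι) (L : ℝ) : ℂ :=
  (starRingEnd ℂ) (Fz a ν i L) / (‖Fz a ν i L‖ : ℂ)

theorem uz_mul {ι : Type} (a : ι → ℂ) (ν : ι → ℕ) (i : ι) (L : ℝ) :
    uz a ν i L * Fz a ν i L = (‖Fz a ν i L‖ : ℂ) := by
  unfold uz
  by_cases h : Fz a ν i L = 0
  · simp [h]
  · have h1 : (‖Fz a ν i L‖ : ℂ) ≠ 0 := by
      simpa using h
    rw [div_mul_eq_mul_div, div_eq_iff h1, mul_comm, Complex.mul_conj, Complex.normSq_eq_norm_sq]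
    push_cast; ring

theorem uz_norm {ι : Type} (a : ι → ℂ) (ν : ι → ℕ) (i : ι) (L : ℝ) :
    ‖uz a ν i L‖ ≤ 1 := by
  unfold uz
  rw [norm_div]
  simp only [RCLike.norm_conj, Complex.norm_real, norm_norm]
  exact div_self_le_one _

theorem seg_bound {ι : Type} (a : ι → ℂ) (ν : ι → ℕ) (ha : ∀ j, a j ≠ 0)
    (hinj : Function.Injective a) (i : ι)
    (h : Summable (fun j => (ν j : ℝ) / ‖a j - a i‖)) (hgood : GoodZ a ν i) (hn : 0 < ν i)
    (G : ℂ → ℂ)
    (hG : ∀ (w : ℂ) (β : ι → ℝ), (∀ j, j ≠ i → ‖w - a j‖ ≤ ‖a i - a j‖ * Real.exp (β j)) →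
        Summable (fun j => (ν j : ℝ) * β j) →
        ‖G w‖ ≤ ‖G (a i)‖ *
          Real.exp (∑' j, (open Classical in if j = i then 0 else (ν j : ℝ) * β j)))
    (l : ℕ) {L : ℝ} (hLdef : L = 6 * sz a ν i * 2 ^ l) (hL2 : 2 * L ≤ eta * ‖a i‖)
    (hF0 : Fz a ν i (6 * sz a ν i) = Fz a ν i 0)
    (t : ℝ) (ht0 : 0 ≤ t) (ht1 : t ≤ 1) {v : ℂ}
    (hv : v = ((1 - t : ℝ) : ℂ) * ((L : ℂ) * uz a ν i L)
      + ((t * (2 * L) : ℝ) : ℂ) * uz a ν i (2 * L)) :
    ‖(1 - (a i - v) / a i) ^ ν i * G (a i - v)‖ ≤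
      (sz a ν i / ‖a i‖) ^ ν i * ‖G (a i)‖ * Real.exp (-3) ^ ν i := by
  have hA : 0 < ‖a i‖ := norm_pos_iff.mpr (ha i)
  have hnR : (0:ℝ) < ν i := by exact_mod_cast hn
  have hF := hgood.pos
  have hs : 0 < sz a ν i := div_pos hnR hF
  have hsF : sz a ν i * ‖Fz a ν i 0‖ = ν i := by
    unfold sz; rw [div_mul_cancel₀ _ hF.ne']
  have hL : 0 < L := by rw [hLdef]; positivity
  have hu1 := uz_norm a ν i L
  have hu2 := uz_norm a ν i (2 * L)
  have hv2 : ‖v‖ ≤ 2 * L := by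
    rw [hv]
    have e1 : ‖((1 - t : ℝ) : ℂ) * ((L : ℂ) * uz a ν i L)‖ ≤ (1 - t) * L := by
      rw [norm_mul, norm_mul, Complex.norm_real, Complex.norm_real,
        Real.norm_of_nonneg (by linarith), Real.norm_of_nonneg hL.le]
      have ht : 0 ≤ 1 - t := by linarith
      have : (1 - t) * (L * ‖uz a ν i L‖) ≤ (1 - t) * (L * 1) := by
        gcongr
      linarith
    have e2 : ‖((t * (2 * L) : ℝ) : ℂ) * uz a ν i (2 * L)‖ ≤ t * (2 * L) := by
      rw [norm_mul, Complex.norm_real, Real.norm_of_nonneg (by positivity)]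
      have : t * (2 * L) * ‖uz a ν i (2 * L)‖ ≤ t * (2 * L) * 1 := by gcongr
      linarith
    have := norm_add_le (((1 - t : ℝ) : ℂ) * ((L : ℂ) * uz a ν i L))
      (((t * (2 * L) : ℝ) : ℂ) * uz a ν i (2 * L))
    nlinarith
  have hslow := F_slow a ν i h hL
  have hnear2 := hgood.near (2 * L) (by positivity) hL2
  have hnear1 := hgood.near L hL (by linarith)
  have hd : ‖Fz a ν i L - Fz a ν i (2 * L)‖ ≤ 2 * lam * ‖Fz a ν i (2 * L)‖ := by
    refine hslow.trans ?_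
    rw [div_le_iff₀ hL]; linarith
  have hlam : lam = 1 / 2000 := rfl
  have hre : L * ‖Fz a ν i L‖ ≤ (v * Fz a ν i L).re := by
    have e1 : v * Fz a ν i L = (((1 - t) * (L * ‖Fz a ν i L‖) : ℝ) : ℂ)
        + ((t * (2 * L) : ℝ) : ℂ) * (uz a ν i (2 * L) * Fz a ν i L) := by
      have := uz_mul a ν i L
      rw [hv, add_mul]
      have e3 : ((1 - t : ℝ) : ℂ) * ((L : ℂ) * uz a ν i L) * Fz a ν i L
          = ((1 - t : ℝ) : ℂ) * ((L : ℂ) * (uz a ν i L * Fz a ν i L)) := by ring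
      rw [e3, this]
      push_cast; ring
    have e2 : uz a ν i (2 * L) * Fz a ν i L = ((‖Fz a ν i (2 * L)‖ : ℝ) : ℂ)
        + uz a ν i (2 * L) * (Fz a ν i L - Fz a ν i (2 * L)) := by
      rw [mul_sub, uz_mul a ν i (2 * L)]; ring
    have e4 : (1 - 2 * lam) * ‖Fz a ν i (2 * L)‖ ≤ (uz a ν i (2 * L) * Fz a ν i L).re := by
      rw [e2, Complex.add_re, Complex.ofReal_re]
      have e5 : -‖uz a ν i (2 * L) * (Fz a ν i L - Fz a ν i (2 * L))‖ ≤
          (uz a ν i (2 * L) * (Fz a ν i L - Fz a ν i (2 * L))).re := by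
        have := Complex.abs_re_le_norm (uz a ν i (2 * L) * (Fz a ν i L - Fz a ν i (2 * L)))
        exact (abs_le.mp this).1
      have e6 : ‖uz a ν i (2 * L) * (Fz a ν i L - Fz a ν i (2 * L))‖ ≤
          2 * lam * ‖Fz a ν i (2 * L)‖ := by
        rw [norm_mul]
        calc ‖uz a ν i (2 * L)‖ * ‖Fz a ν i L - Fz a ν i (2 * L)‖
            ≤ 1 * ‖Fz a ν i L - Fz a ν i (2 * L)‖ := by gcongr
          _ ≤ _ := by rw [one_mul]; exact hd
      linarith
    have e7 : ‖Fz a ν i L‖ ≤ (1 + 2 * lam) * ‖Fz a ν i (2 * L)‖ := by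
      have := norm_add_le (Fz a ν i L - Fz a ν i (2 * L)) (Fz a ν i (2 * L))
      rw [sub_add_cancel] at this
      linarith
    have e8 : (1/2) * ‖Fz a ν i L‖ ≤ (uz a ν i (2 * L) * Fz a ν i L).re := by
      rw [hlam] at e4 e7
      have := norm_nonneg (Fz a ν i (2 * L))
      linarith
    rw [e1, Complex.add_re, Complex.ofReal_re, Complex.re_ofReal_mul]
    have e9 : t * (2 * L) * ((1/2) * ‖Fz a ν i L‖) ≤
        t * (2 * L) * (uz a ν i (2 * L) * Fz a ν i L).re := by gcongr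
    linarith
  have hGb := G_bound a ν i hinj h G hG hL hv2
  set X : ℝ := (999/1000) * (L * ‖Fz a ν i L‖) / ν i with hXdef
  have hexp : -(v * Fz a ν i L).re + 2 * Sz a ν i L ≤ (ν i : ℝ) * (-X) := by
    have : (ν i : ℝ) * (-X) = -((999/1000) * (L * ‖Fz a ν i L‖)) := by
      rw [hXdef]; field_simp
    rw [this]
    rw [hlam] at hnear1
    linarith
  have hgrow := F_growth a ν i h hgood (L0 := 6 * sz a ν i) (by positivity) hF0 l
    (by rw [← hLdef]; linarith)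
  rw [← hLdef] at hgrow
  have hpl : (0:ℝ) < (1 + 2 * lam) ^ l := by rw [hlam]; positivity
  have hX : (999/1000) * (6 * 2 ^ l / (1 + 2 * lam) ^ l) ≤ X := by
    have hX' : X = (999/1000) * ((L * ‖Fz a ν i L‖) / ν i) := by rw [hXdef]; ring
    rw [hX']
    refine mul_le_mul_of_nonneg_left ?_ (by norm_num)
    rw [div_le_div_iff₀ hpl hnR, ← hsF]
    have e1 : 6 * 2 ^ l * (sz a ν i * ‖Fz a ν i 0‖) = L * ‖Fz a ν i 0‖ := by
      rw [hLdef]; ring
    rw [e1]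
    calc L * ‖Fz a ν i 0‖ ≤ L * ((1 + 2 * lam) ^ l * ‖Fz a ν i L‖) := by gcongr
      _ = L * ‖Fz a ν i L‖ * (1 + 2 * lam) ^ l := by ring
  have hnum := num_bound l hs hLdef hX
  rw [norm_mul, norm_pow]
  have e0 : ‖1 - (a i - v) / a i‖ ≤ 2 * L / ‖a i‖ := by
    have : 1 - (a i - v) / a i = v / a i := by
      have := ha i
      field_simp; ring
    rw [this, norm_div]; gcongr
  calc ‖1 - (a i - v) / a i‖ ^ ν i * ‖G (a i - v)‖
      ≤ (2 * L / ‖a i‖) ^ ν i * (‖G (a i)‖ * Real.exp ((ν i : ℝ) * (-X))) := by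
        gcongr
        exact hGb.trans (by gcongr)
    _ = (sz a ν i / ‖a i‖) ^ ν i * ‖G (a i)‖ *
        (2 * L / sz a ν i * Real.exp (-X)) ^ ν i := by
        rw [Real.exp_nat_mul, mul_pow, div_pow, div_pow, div_pow]
        field_simp
    _ ≤ (sz a ν i / ‖a i‖) ^ ν i * ‖G (a i)‖ * Real.exp (-3) ^ ν i := by
        gcongr

theorem path_lemma {ι : Type} [Countable ι] (a : ι → ℂ) (ν : ι → ℕ) (ha : ∀ j, a j ≠ 0)
    (hinj : Function.Injective a) (hs : Summable (fun j => (ν j : ℝ) / ‖a j‖))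
    (i : ι) (hgood : GoodZ a ν i) (hn : 100 ≤ ν i)
    (hsize : 100 * ‖a i‖ ≤ sz a ν i * Real.exp ((ν i : ℝ) / 10))
    (f G : ℂ → ℂ) (hf : ∀ z : ℂ, HasDerivAt f ((1 - z / a i) ^ ν i * G z) z) (hf0 : f 0 = 0)
    (hG : ∀ (w : ℂ) (β : ι → ℝ), (∀ j, j ≠ i → ‖w - a j‖ ≤ ‖a i - a j‖ * Real.exp (β j)) →
        Summable (fun j => (ν j : ℝ) * β j) →
        ‖G w‖ ≤ ‖G (a i)‖ *
          Real.exp (∑' j, (open Classical in if j = i then 0 else (ν j : ℝ) * β j))) :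
    ‖f (a i - 6 * (sz a ν i : ℂ) *
        ((starRingEnd ℂ) (Fz a ν i 0) / (‖Fz a ν i 0‖ : ℂ)))‖ ≤
      sz a ν i * ((sz a ν i / ‖a i‖) ^ ν i * ‖G (a i)‖) * Real.exp (-(13 / 10) * (ν i : ℝ)) := by
  have hA : 0 < ‖a i‖ := norm_pos_iff.mpr (ha i)
  have hn0 : 0 < ν i := by omega
  have hnR : (0:ℝ) < ν i := by exact_mod_cast hn0
  have hF := hgood.pos
  have hs0 : 0 < sz a ν i := div_pos hnR hF
  have h := summ_dist a ν ha hs i
  set s : ℝ := sz a ν i with hsdef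
  have hF0 : Fz a ν i (6 * s) = Fz a ν i 0 :=
    F_const a ν i hgood.sep (by positivity) (by linarith)
  have hsmall := hgood.small
  rw [← hsdef] at hsmall
  set C : ℝ := (s / ‖a i‖) ^ ν i * ‖G (a i)‖ * Real.exp (-3) ^ ν i with hC
  have hC0 : 0 ≤ C := by positivity
  have heta : eta = 1 / 100000 := rfl
  have heta0 : 0 < eta * ‖a i‖ := by rw [heta]; positivity
  obtain ⟨N, hN1, hN2⟩ := exists_nat_pow_near (x := eta * ‖a i‖ / (6 * s)) (y := 2)
    (by rw [one_le_div (by positivity)]; linarith) one_lt_two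
  rw [le_div_iff₀ (by positivity)] at hN1
  rw [div_lt_iff₀ (by positivity)] at hN2
  have hN1' : 6 * s * 2 ^ N ≤ eta * ‖a i‖ := by linarith
  have hN2' : eta * ‖a i‖ / 2 < 6 * s * 2 ^ N := by
    rw [pow_succ] at hN2; linarith
  set w : ℕ → ℂ := fun l => a i - ((6 * s * 2 ^ l : ℝ) : ℂ) * uz a ν i (6 * s * 2 ^ l) with hw
  -- derivative of f
  have hchain : ∀ l : ℕ, l ≤ N → ‖f (w 0) - f (w l)‖ ≤ 3 * (6 * s) * (2 ^ l - 1) * C := by
    intro l
    induction l with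
    | zero => intro _; simp
    | succ l ih =>
      intro hl
      have h1 := ih (by omega)
      have hpow : (2:ℝ) ^ (l + 1) ≤ 2 ^ N := pow_le_pow_right₀ (by norm_num) hl
      have hLl : 2 * (6 * s * 2 ^ l) ≤ eta * ‖a i‖ := by
        have : 6 * s * 2 ^ (l + 1) ≤ 6 * s * 2 ^ N := by gcongr
        rw [pow_succ] at this
        linarith
      have e2 : 6 * s * 2 ^ (l + 1) = 2 * (6 * s * 2 ^ l) := by ring
      have hseg : ‖f (w (l + 1)) - f (w l)‖ ≤ C * ‖w (l + 1) - w l‖ := by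
        refine Convex.norm_image_sub_le_of_norm_hasDerivWithin_le
          (f' := fun z => (1 - z / a i) ^ ν i * G z) (s := segment ℝ (w l) (w (l + 1)))
          (fun z _ => (hf z).hasDerivWithinAt) ?_ (convex_segment _ _)
          (left_mem_segment _ _ _) (right_mem_segment _ _ _)
        intro z hz
        rw [segment_eq_image] at hz
        obtain ⟨t, ⟨ht0, ht1⟩, rfl⟩ := hz
        have key := seg_bound a ν ha hinj i h hgood hn0 G hG l (L := 6 * s * 2 ^ l) rfl hLl hF0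
          t ht0 ht1 rfl
        have e3 : (1 - t) • w l + t • w (l + 1) =
            a i - (((1 - t : ℝ) : ℂ) * (((6 * s * 2 ^ l : ℝ) : ℂ) * uz a ν i (6 * s * 2 ^ l))
              + ((t * (2 * (6 * s * 2 ^ l)) : ℝ) : ℂ) * uz a ν i (2 * (6 * s * 2 ^ l))) := by
          simp only [hw, e2, Complex.real_smul]
          push_cast
          ring
        change ‖(1 - ((1 - t) • w l + t • w (l + 1)) / a i) ^ ν i *
          G ((1 - t) • w l + t • w (l + 1))‖ ≤ C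
        rw [e3]
        exact key
      have hdist : ‖w (l + 1) - w l‖ ≤ 3 * (6 * s * 2 ^ l) := by
        simp only [hw, e2]
        have e4 : a i - ((2 * (6 * s * 2 ^ l) : ℝ) : ℂ) * uz a ν i (2 * (6 * s * 2 ^ l)) -
            (a i - ((6 * s * 2 ^ l : ℝ) : ℂ) * uz a ν i (6 * s * 2 ^ l)) =
            ((6 * s * 2 ^ l : ℝ) : ℂ) * uz a ν i (6 * s * 2 ^ l) -
            ((2 * (6 * s * 2 ^ l) : ℝ) : ℂ) * uz a ν i (2 * (6 * s * 2 ^ l)) := by ring
        rw [e4]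
        refine (norm_sub_le _ _).trans ?_
        rw [norm_mul, norm_mul, Complex.norm_real, Complex.norm_real,
          Real.norm_of_nonneg (by positivity), Real.norm_of_nonneg (by positivity)]
        have u1 := uz_norm a ν i (6 * s * 2 ^ l)
        have u2 := uz_norm a ν i (2 * (6 * s * 2 ^ l))
        have p1 : 6 * s * 2 ^ l * ‖uz a ν i (6 * s * 2 ^ l)‖ ≤ 6 * s * 2 ^ l * 1 := by gcongr
        have p2 : 2 * (6 * s * 2 ^ l) * ‖uz a ν i (2 * (6 * s * 2 ^ l))‖ ≤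
            2 * (6 * s * 2 ^ l) * 1 := by gcongr
        linarith
      have h2 : ‖f (w 0) - f (w (l + 1))‖ ≤ ‖f (w 0) - f (w l)‖ + ‖f (w (l + 1)) - f (w l)‖ := by
        have := norm_sub_le (f (w 0) - f (w l)) (f (w (l + 1)) - f (w l))
        simpa using this
      have h3 : C * ‖w (l + 1) - w l‖ ≤ C * (3 * (6 * s * 2 ^ l)) := by gcongr
      calc ‖f (w 0) - f (w (l + 1))‖ ≤ 3 * (6 * s) * (2 ^ l - 1) * C + C * (3 * (6 * s * 2 ^ l)) := by
            linarith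
        _ = 3 * (6 * s) * (2 ^ (l + 1) - 1) * C := by ring
  have hNch := hchain N le_rfl
  -- the last segment
  set L : ℝ := 6 * s * 2 ^ N with hL
  have hLpos : 0 < L := by positivity
  have hFN : 0 < ‖Fz a ν i L‖ := by
    have h1 := F_growth a ν i h hgood (L0 := 6 * s) (by positivity) hF0 N hN1'
    have hpl : (0:ℝ) < (1 + 2 * lam) ^ N := by unfold lam; positivity
    by_contra hcon
    have h2 : ‖Fz a ν i (6 * s * 2 ^ N)‖ = 0 := le_antisymm (not_lt.mp hcon) (norm_nonneg _)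
    rw [h2, mul_zero] at h1
    linarith
  have hwN : ‖w N‖ ≤ (1 - eta / 4) * ‖a i‖ := by
    have hdir := hgood.dir L (by linarith) hN1'
    have hre : (4 / 5) * (‖Fz a ν i L‖ * ‖a i‖) ≤ (Fz a ν i L * a i).re := by
      have h1 := Complex.abs_re_le_norm
        (Fz a ν i L * a i - ((‖Fz a ν i L‖ * ‖a i‖ : ℝ) : ℂ))
      have h2 := (abs_le.mp h1).1
      rw [Complex.sub_re, Complex.ofReal_re] at h2
      linarith
    have hu : ((starRingEnd ℂ) (a i) * uz a ν i L).re = (Fz a ν i L * a i).re / ‖Fz a ν i L‖ := by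
      unfold uz
      rw [← mul_div_assoc, ← map_mul, Complex.div_ofReal_re, Complex.conj_re, mul_comm]
    have hu' : (4 / 5) * ‖a i‖ ≤ ((starRingEnd ℂ) (a i) * uz a ν i L).re := by
      rw [hu, le_div_iff₀ hFN]; linarith
    have hsq : ‖w N‖ ^ 2 ≤ ‖a i‖ ^ 2 - 2 * L * ((starRingEnd ℂ) (a i) * uz a ν i L).re + L ^ 2 := by
      have e1 : ‖w N‖ ^ 2 = ‖a i‖ ^ 2 - 2 * L * ((starRingEnd ℂ) (a i) * uz a ν i L).re
          + L ^ 2 * ‖uz a ν i L‖ ^ 2 := by
        simp only [hw, ← hL]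
        rw [← Complex.normSq_eq_norm_sq, ← Complex.normSq_eq_norm_sq,
          ← Complex.normSq_eq_norm_sq, Complex.normSq_apply,
          Complex.normSq_apply, Complex.normSq_apply]
        simp only [Complex.sub_re, Complex.sub_im, Complex.mul_re, Complex.mul_im,
          Complex.ofReal_re, Complex.ofReal_im, Complex.conj_re, Complex.conj_im]
        ring
      rw [e1]
      have := uz_norm a ν i L
      have h2 : ‖uz a ν i L‖ ^ 2 ≤ 1 := pow_le_one₀ (norm_nonneg _) this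
      have h3 : L ^ 2 * ‖uz a ν i L‖ ^ 2 ≤ L ^ 2 * 1 := by gcongr
      linarith
    have h4 : 2 * L * ((4 / 5) * ‖a i‖) ≤ 2 * L * ((starRingEnd ℂ) (a i) * uz a ν i L).re := by
      gcongr
    have h5 : L ^ 2 ≤ (1/10) * (L * ‖a i‖) := by
      have : L ≤ (1/10) * ‖a i‖ := by rw [heta] at hN1'; linarith
      nlinarith
    have h6 : eta * ‖a i‖ / 2 * ‖a i‖ ≤ L * ‖a i‖ := by gcongr
    have h7 : ‖w N‖ ^ 2 ≤ ((1 - eta / 4) * ‖a i‖) ^ 2 := by
      have : ((1 - eta / 4) * ‖a i‖) ^ 2 = ‖a i‖ ^ 2 - (eta * ‖a i‖ / 2) * ‖a i‖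
          + (eta * ‖a i‖ / 4) ^ 2 := by ring
      rw [this]
      nlinarith [sq_nonneg (eta * ‖a i‖ / 4)]
    exact (pow_le_pow_iff_left₀ (norm_nonneg _)
      (by rw [heta]; positivity) two_ne_zero).mp h7
  have hlast : ‖f (w N) - f 0‖ ≤ C * ‖w N - 0‖ := by
    refine Convex.norm_image_sub_le_of_norm_hasDerivWithin_le
      (f' := fun z => (1 - z / a i) ^ ν i * G z) (s := segment ℝ 0 (w N))
      (fun z _ => (hf z).hasDerivWithinAt) ?_ (convex_segment _ _)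
      (left_mem_segment _ _ _) (right_mem_segment _ _ _)
    intro z hz
    rw [segment_eq_image] at hz
    obtain ⟨t, ⟨ht0, ht1⟩, rfl⟩ := hz
    have hz2 : ‖(1 - t) • (0:ℂ) + t • w N‖ ≤ (1 - eta / 4) * ‖a i‖ := by
      rw [smul_zero, zero_add, norm_smul, Real.norm_of_nonneg ht0]
      calc t * ‖w N‖ ≤ 1 * ‖w N‖ := by gcongr
        _ ≤ _ := by rw [one_mul]; exact hwN
    set z : ℂ := (1 - t) • (0:ℂ) + t • w N with hz
    obtain ⟨β, hβs, hβw, hβsum⟩ := hgood.inner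
    have h1 := hG z β (hβw z hz2) hβs
    rw [norm_mul, norm_pow]
    have e0 : ‖1 - z / a i‖ ≤ 2 := by
      refine (norm_sub_le _ _).trans ?_
      rw [norm_one, norm_div]
      have : ‖z‖ / ‖a i‖ ≤ 1 := by
        rw [div_le_one hA]
        refine hz2.trans ?_
        rw [heta]
        linarith
      linarith
    have e1 : Real.exp (∑' j, (open Classical in if j = i then 0 else (ν j : ℝ) * β j)) ≤
        (s / (2 * ‖a i‖)) ^ ν i * Real.exp (-3) ^ ν i := by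
      refine (Real.exp_le_exp.mpr hβsum).trans ?_
      rw [← hsdef]
      have e2 : -(ν i : ℝ) * (Real.log (2 * ‖a i‖ / s) + 3) =
          (ν i : ℝ) * (-Real.log (2 * ‖a i‖ / s) + (-3)) := by ring
      rw [e2, Real.exp_nat_mul, Real.exp_add, Real.exp_neg, Real.exp_log (by positivity),
        inv_div, mul_pow]
    calc ‖1 - z / a i‖ ^ ν i * ‖G z‖
        ≤ 2 ^ ν i * (‖G (a i)‖ * ((s / (2 * ‖a i‖)) ^ ν i * Real.exp (-3) ^ ν i)) := by
          gcongr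
          exact h1.trans (by gcongr)
      _ = C := by
          rw [hC]
          have : (s / ‖a i‖) ^ ν i = 2 ^ ν i * (s / (2 * ‖a i‖)) ^ ν i := by
            rw [← mul_pow]; congr 1; field_simp
          rw [this]; ring
  rw [sub_zero] at hlast
  have hw0 : w 0 = a i - 6 * (s : ℂ) *
        ((starRingEnd ℂ) (Fz a ν i 0) / (‖Fz a ν i 0‖ : ℂ)) := by
    simp only [hw, pow_zero, mul_one]
    unfold uz
    rw [hF0]
    push_cast
    ring
  rw [← hw0]
  have hwN1 : ‖w N‖ ≤ ‖a i‖ := by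
    refine hwN.trans ?_
    rw [heta]
    linarith
  have htot : ‖f (w 0)‖ ≤ 2 * ‖a i‖ * C := by
    have h1 : ‖f (w 0)‖ ≤ ‖f (w 0) - f (w N)‖ + ‖f (w N) - f 0‖ := by
      have := norm_add_le (f (w 0) - f (w N)) (f (w N) - f 0)
      rw [hf0] at this ⊢
      simpa using this
    have h2 : 3 * (6 * s) * (2 ^ N - 1) * C ≤ ‖a i‖ * C := by
      gcongr
      have : 3 * (6 * s * 2 ^ N) ≤ ‖a i‖ := by rw [heta] at hN1'; linarith
      linarith
    have h3 : C * ‖w N‖ ≤ C * ‖a i‖ := by gcongr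
    linarith
  refine htot.trans ?_
  have hexp1 : Real.exp (-3) ^ ν i * Real.exp ((ν i : ℝ) / 10) ≤
      Real.exp (-(13 / 10) * (ν i : ℝ)) := by
    rw [← Real.exp_nat_mul, ← Real.exp_add]
    apply Real.exp_le_exp.mpr
    linarith
  have h2A : 2 * ‖a i‖ ≤ s * Real.exp ((ν i : ℝ) / 10) := by
    linarith
  calc 2 * ‖a i‖ * C ≤ s * Real.exp ((ν i : ℝ) / 10) * C := by gcongr
    _ = s * ((s / ‖a i‖) ^ ν i * ‖G (a i)‖) *
        (Real.exp (-3) ^ ν i * Real.exp ((ν i : ℝ) / 10)) := by rw [hC]; ring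
    _ ≤ s * ((s / ‖a i‖) ^ ν i * ‖G (a i)‖) * Real.exp (-(13 / 10) * (ν i : ℝ)) := by
        gcongr

end

end NevT.J667

namespace NevT

alias path_lemma := J667.path_lemma

end NevT
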