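import Pool.Agent.Helper551.NevDefs
import Pool.Agent.Helper551.NevJ664
import Pool.Agent.Helper551.NevJ665
import Pool.Agent.Helper551.NevJ666
import Pool.Agent.Helper551.NevJ667

set_option autoImplicit false

open MeasureTheory Filter Topology

open scoped BigOperators

namespace NevT.Glue1

noncomputable section

/-! ## finite configurations -/

section basin

variable {ι : Type} (a : ι → ℂ) (ν : ι → ℕ)

/-- logarithmic derivative of the product without the factor `i`. -/
def Phi (i : ι) (z : ℂ) : ℂ := ∑' j, (open Classical in if j = i then 0 else (ν j : ℂ) / (z - a j))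

/-- finitely many charged zeros in a ball -/
theorem finite_charged (ha : ∀ j, a j ≠ 0) (hs : Summable (fun j => (ν j : ℝ) / ‖a j‖)) (R : ℝ) :
    {j | 1 ≤ ν j ∧ ‖a j‖ ≤ R}.Finite := by
  rcases le_or_gt R 0 with hR | hR
  · convert Set.finite_empty
    ext j
    simp only [Set.mem_ofPred_eq, Set.mem_empty_iff_false, iff_false, not_and, not_le]
    intro _
    exact lt_of_le_of_lt hR (norm_pos_iff.2 (ha j))
  · have h1 := hs.tendsto_cofinite_zero
    have h2 : ∀ᶠ j in Filter.cofinite, (ν j : ℝ) / ‖a j‖ < 1 / R :=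
      h1.eventually_lt_const (by positivity)
    rw [Filter.eventually_cofinite] at h2
    refine h2.subset ?_
    intro j hj
    simp only [Set.mem_ofPred_eq, not_lt] at hj ⊢
    obtain ⟨h3, h4⟩ := hj
    have h5 : 0 < ‖a j‖ := norm_pos_iff.2 (ha j)
    have h6 : (1 : ℝ) ≤ ν j := by exact_mod_cast h3
    exact div_le_div₀ (by positivity) h6 h5 h4

/-- the sum of `ν/x^2` over the other zeros -/
theorem sum_sq (ha : ∀ j, a j ≠ 0) (hs : Summable (fun j => (ν j : ℝ) / ‖a j‖))
    (i : ι) (δ : ℝ) (hδ : 0 < δ) (hsep : ∀ j, j ≠ i → δ ≤ ‖a j - a i‖) :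
    Summable (fun j => (ν j : ℝ) / ‖a j - a i‖ ^ 2) := by
  have hfin := finite_charged a ν ha hs (2 * ‖a i‖ + 2)
  refine Summable.of_norm_bounded_eventually (g := fun j => 4 * ((ν j : ℝ) / ‖a j‖))
    (hs.mul_left 4) ?_
  rw [Filter.eventually_cofinite]
  refine hfin.subset ?_
  intro j hj
  by_contra hcon
  apply hj
  simp only [Set.mem_ofPred_eq, not_and, not_le] at hcon
  have h5 : 0 < ‖a j‖ := norm_pos_iff.2 (ha j)
  rw [Real.norm_of_nonneg (by positivity)]
  by_cases hν : 1 ≤ ν j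
  · have h1 := hcon hν
    have h2 : ‖a j‖ / 2 ≤ ‖a j - a i‖ := by
      have := norm_sub_norm_le (a j) (a i)
      have h0 := norm_nonneg (a i)
      linarith
    have h3 : (1 : ℝ) ≤ ‖a j‖ := by
      have h0 := norm_nonneg (a i)
      linarith
    have h4 : ‖a j‖ ≤ 4 * ‖a j - a i‖ ^ 2 := by nlinarith
    have h6 : 0 < ‖a j - a i‖ := by linarith
    rw [← mul_div_assoc, div_le_div_iff₀ (by positivity) h5]
    have h7 : (0 : ℝ) ≤ ν j := by positivity
    nlinarith
  · have : ν j = 0 := by omega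
    simp [this]

theorem Fz_zero_eq (hinj : Function.Injective a) (i : ι) : Fz a ν i 0 = Phi a ν i (a i) := by
  unfold Fz Phi
  refine tsum_congr fun j => ?_
  by_cases h : j = i
  · simp [h]
  · have h1 : 0 < ‖a j - a i‖ := norm_pos_iff.2 (sub_ne_zero.2 (fun hh => h (hinj hh)))
    simp [h, h1]

/-- the kernel for large arguments -/
theorem K_eq_sq {L x : ℝ} (hL : 0 ≤ L) (hx : L ≤ x) : K L x = (L / x) ^ 2 := by
  unfold K
  rcases hL.eq_or_lt with h | h
  · simp [← h]
  have hx0 : 0 < x := lt_of_lt_of_le h hx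
  have h1 : 0 ≤ L / x := by positivity
  have h2 : L / x ≤ 1 := (div_le_one hx0).2 hx
  apply min_eq_right
  apply Real.le_sqrt_of_sq_le
  have h3 : (L / x) ^ 2 ≤ L / x := by nlinarith
  have h4 : ((L / x) ^ 2) ^ 2 ≤ (L / x) ^ 2 := by
    have : (L / x) ^ 2 ≤ 1 := by nlinarith
    nlinarith [sq_nonneg (L / x)]
  linarith

theorem sum_sq_le (hinj : Function.Injective a) (ha : ∀ j, a j ≠ 0)
    (hs : Summable (fun j => (ν j : ℝ) / ‖a j‖))
    (i : ι) (hg : GoodZ a ν i) (hn : 0 < ν i) :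
    ∑' j, (ν j : ℝ) / ‖a j - a i‖ ^ 2 ≤ lam * ‖Fz a ν i 0‖ / (13 * sz a ν i) := by
  have hs0 : 0 < sz a ν i := by
    unfold sz
    have := hg.pos
    positivity
  set L := 13 * sz a ν i with hL
  have hL0 : 0 < L := by positivity
  have h1 := hg.near L hL0 hg.small
  have h2 : Fz a ν i L = Fz a ν i 0 := by
    unfold Fz
    refine tsum_congr fun j => ?_
    by_cases h : j = i
    · subst h
      simp [hL0.not_gt]
    · have h3 : L < ‖a j - a i‖ := by
        have := hg.sep j h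
        rw [hL]
        linarith
      have h4 : 0 < ‖a j - a i‖ := by linarith
      simp [h3, h4]
  rw [h2] at h1
  have h3 : Sz a ν i L = L ^ 2 * ∑' j, (ν j : ℝ) / ‖a j - a i‖ ^ 2 := by
    unfold Sz
    rw [← tsum_mul_left]
    refine tsum_congr fun j => ?_
    by_cases h : j = i
    · subst h
      simp [K]
    · have h3 : L ≤ ‖a j - a i‖ := by
        have := hg.sep j h
        rw [hL]
        linarith
      rw [K_eq_sq hL0.le h3]
      ring
  rw [h3] at h1
  rw [le_div_iff₀ hL0]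
  have h5 : L * (L * ∑' j, (ν j : ℝ) / ‖a j - a i‖ ^ 2) ≤ L * (lam * ‖Fz a ν i 0‖) := by
    calc L * (L * ∑' j, (ν j : ℝ) / ‖a j - a i‖ ^ 2)
        = L ^ 2 * ∑' j, (ν j : ℝ) / ‖a j - a i‖ ^ 2 := by ring
      _ ≤ lam * ‖Fz a ν i 0‖ * L := h1
      _ = L * (lam * ‖Fz a ν i 0‖) := by ring
  have h6 := le_of_mul_le_mul_left h5 hL0
  linarith

/-- the field of the others is nearly constant on the disc of radius `7 s`. -/
theorem Phi_var (hinj : Function.Injective a) (ha : ∀ j, a j ≠ 0)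
    (hs : Summable (fun j => (ν j : ℝ) / ‖a j‖))
    (i : ι) (hg : GoodZ a ν i) (hn : 0 < ν i) (z : ℂ) (hz : ‖z - a i‖ < 7 * sz a ν i) :
    ‖Phi a ν i z - Phi a ν i (a i)‖ ≤ (1 / 1000) * ‖Fz a ν i 0‖ := by
  have hs0 : 0 < sz a ν i := by
    unfold sz
    have := hg.pos
    positivity
  have hsq := sum_sq a ν ha hs i (14 * sz a ν i) (by positivity) hg.sep
  -- termwise bound
  have hterm : ∀ j, j ≠ i → ‖(ν j : ℂ) / (z - a j) - (ν j : ℂ) / (a i - a j)‖ ≤
      14 * sz a ν i * ((ν j : ℝ) / ‖a j - a i‖ ^ 2) := by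
    intro j hj
    have hx := hg.sep j hj
    have hx0 : 0 < ‖a j - a i‖ := by linarith
    have h1 : a i - a j ≠ 0 := by
      rw [← norm_pos_iff, norm_sub_rev]; exact hx0
    have h2 : ‖a j - a i‖ / 2 ≤ ‖z - a j‖ := by
      have h3 : ‖a j - a i‖ ≤ ‖z - a j‖ + ‖z - a i‖ := by
        calc ‖a j - a i‖ = ‖(z - a i) - (z - a j)‖ := by congr 1; ring
          _ ≤ ‖z - a i‖ + ‖z - a j‖ := norm_sub_le _ _
          _ = _ := by ring
      linarith
    have h3 : z - a j ≠ 0 := by
      rw [← norm_pos_iff]; linarith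
    have h4 : (ν j : ℂ) / (z - a j) - (ν j : ℂ) / (a i - a j) =
        (ν j : ℂ) * ((a i - z) / ((z - a j) * (a i - a j))) := by
      field_simp
      ring
    rw [h4, norm_mul, norm_div, norm_mul, Complex.norm_natCast, norm_sub_rev (a i) z,
      norm_sub_rev (a i) (a j)]
    have h5 : ‖z - a i‖ / (‖z - a j‖ * ‖a j - a i‖) ≤
        (7 * sz a ν i) / (‖a j - a i‖ / 2 * ‖a j - a i‖) := by
      apply div_le_div₀ (by positivity) hz.le (by positivity)
      exact mul_le_mul_of_nonneg_right h2 hx0.le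
    calc (ν j : ℝ) * (‖z - a i‖ / (‖z - a j‖ * ‖a j - a i‖))
        ≤ (ν j : ℝ) * ((7 * sz a ν i) / (‖a j - a i‖ / 2 * ‖a j - a i‖)) := by
          apply mul_le_mul_of_nonneg_left h5 (by positivity)
      _ = 14 * sz a ν i * ((ν j : ℝ) / ‖a j - a i‖ ^ 2) := by
          field_simp
          ring
  -- summability of the two families
  have hsumA : Summable (fun j => (open Classical in if j = i then 0 else (ν j : ℂ) / (a i - a j))) := by
    have hfin := finite_charged a ν ha hs (2 * ‖a i‖)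
    refine Summable.of_norm_bounded_eventually (g := fun j => 2 * ((ν j : ℝ) / ‖a j‖))
      (hs.mul_left 2) ?_
    rw [Filter.eventually_cofinite]
    refine hfin.subset ?_
    intro j hj
    by_contra hcon
    apply hj
    simp only [Set.mem_ofPred_eq, not_and, not_le] at hcon
    have h5 : 0 < ‖a j‖ := norm_pos_iff.2 (ha j)
    by_cases hji : j = i
    · simp [hji]; positivity
    simp only [hji, if_false]
    by_cases hν : 1 ≤ ν j
    · have h1 := hcon hν
      have h2 : ‖a j‖ / 2 ≤ ‖a i - a j‖ := by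
        have := norm_sub_norm_le (a j) (a i)
        rw [norm_sub_rev (a i)]
        linarith
      have h7 : 0 < ‖a i - a j‖ := by linarith
      rw [norm_div, Complex.norm_natCast, ← mul_div_assoc, div_le_div_iff₀ h7 h5]
      have h8 : (0 : ℝ) ≤ ν j := by positivity
      nlinarith
    · have : ν j = 0 := by omega
      simp [this]
  have hsumD : Summable (fun j => (open Classical in if j = i then 0 else
      ((ν j : ℂ) / (z - a j) - (ν j : ℂ) / (a i - a j)))) := by
    refine Summable.of_norm_bounded (g := fun j => 14 * sz a ν i * ((ν j : ℝ) / ‖a j - a i‖ ^ 2))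
      (hsq.mul_left _) ?_
    intro j
    by_cases hji : j = i
    · simp [hji]
    · simp only [hji, if_false]
      exact hterm j hji
  have hsumZ : Summable (fun j => (open Classical in if j = i then 0 else (ν j : ℂ) / (z - a j))) := by
    convert hsumA.add hsumD using 2 with j
    by_cases hji : j = i
    · simp [hji]
    · simp [hji]
  have hdiff : Phi a ν i z - Phi a ν i (a i) = ∑' j, (open Classical in if j = i then 0 else
      ((ν j : ℂ) / (z - a j) - (ν j : ℂ) / (a i - a j))) := by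
    unfold Phi
    rw [← hsumZ.tsum_sub hsumA]
    refine tsum_congr fun j => ?_
    by_cases hji : j = i
    · simp [hji]
    · simp [hji]
  rw [hdiff]
  have hb : ‖∑' j, (open Classical in if j = i then 0 else
      ((ν j : ℂ) / (z - a j) - (ν j : ℂ) / (a i - a j)))‖ ≤
      ∑' j, 14 * sz a ν i * ((ν j : ℝ) / ‖a j - a i‖ ^ 2) := by
    refine tsum_of_norm_bounded (hsq.mul_left _).hasSum ?_
    intro j
    by_cases hji : j = i
    · simp [hji]
    · simp only [hji, if_false]
      exact hterm j hji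
  refine hb.trans ?_
  rw [tsum_mul_left]
  have h1 := sum_sq_le a ν hinj ha hs i hg hn
  have h2 : 14 * sz a ν i * ∑' j, (ν j : ℝ) / ‖a j - a i‖ ^ 2 ≤
      14 * sz a ν i * (lam * ‖Fz a ν i 0‖ / (13 * sz a ν i)) :=
    mul_le_mul_of_nonneg_left h1 (by positivity)
  refine h2.trans ?_
  have h3 : 14 * sz a ν i * (lam * ‖Fz a ν i 0‖ / (13 * sz a ν i)) =
      (14 / 13) * lam * ‖Fz a ν i 0‖ := by
    field_simp
  rw [h3]
  have := hg.pos
  unfold lam
  nlinarith

/-- holomorphic logarithm near the zero -/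
theorem log_form (G : ℂ → ℂ) (hGd : Differentiable ℂ G)
    (hinj : Function.Injective a) (ha : ∀ j, a j ≠ 0)
    (hs : Summable (fun j => (ν j : ℝ) / ‖a j‖))
    (i : ι) (hg : GoodZ a ν i) (hn : 0 < ν i)
    (hG : ∀ z, (∀ j, j ≠ i → z ≠ a j) → G z ≠ 0 ∧ deriv G z = G z * Phi a ν i z)
    (u : ℂ) (hu : u = (starRingEnd ℂ) (Fz a ν i 0) / (‖Fz a ν i 0‖ : ℂ)) :
    ∃ η : ℂ → ℂ, DifferentiableOn ℂ η (Metric.ball 0 7) ∧ η 0 = 0 ∧
      (∀ ζ ∈ Metric.ball (0 : ℂ) 7, ‖deriv η ζ‖ ≤ 1 / 1000) ∧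
      (∀ ζ ∈ Metric.ball (0 : ℂ) 7, G (a i + sz a ν i * u * ζ) =
        G (a i) * Complex.exp (ν i * (ζ + η ζ))) := by
  have hs0 : 0 < sz a ν i := by
    unfold sz
    have := hg.pos
    positivity
  have hF0 : Fz a ν i 0 ≠ 0 := norm_pos_iff.1 hg.pos
  have hnC : ((ν i : ℕ) : ℂ) ≠ 0 := by exact_mod_cast hn.ne'
  have hunorm : ‖u‖ = 1 := by
    rw [hu, norm_div]
    simpa using hF0
  have huF : (sz a ν i : ℂ) * u * Fz a ν i 0 = (ν i : ℂ) := by
    have h1 : (starRingEnd ℂ) (Fz a ν i 0) * Fz a ν i 0 = (‖Fz a ν i 0‖ : ℂ) ^ 2 := by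
      rw [mul_comm, Complex.mul_conj, Complex.normSq_eq_norm_sq]
      push_cast
      ring
    have h2 : (‖Fz a ν i 0‖ : ℂ) ≠ 0 := by exact_mod_cast hg.pos.ne'
    rw [hu]
    unfold sz
    push_cast
    field_simp
    linear_combination h1
  -- the map into the plane
  set Z : ℂ → ℂ := fun ζ => a i + sz a ν i * u * ζ with hZ
  have hZball : ∀ ζ ∈ Metric.ball (0 : ℂ) 7, ‖Z ζ - a i‖ < 7 * sz a ν i := by
    intro ζ hζ
    rw [Metric.mem_ball, dist_zero_right] at hζ
    have : Z ζ - a i = sz a ν i * u * ζ := by rw [hZ]; ring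
    rw [this, norm_mul, norm_mul, hunorm, Complex.norm_real, Real.norm_of_nonneg hs0.le]
    nlinarith
  have hZne : ∀ ζ ∈ Metric.ball (0 : ℂ) 7, ∀ j, j ≠ i → Z ζ ≠ a j := by
    intro ζ hζ j hj h
    have h1 := hZball ζ hζ
    rw [h] at h1
    have := hg.sep j hj
    linarith
  have hZd : ∀ ζ, HasDerivAt Z (sz a ν i * u) ζ := by
    intro ζ
    have := ((hasDerivAt_id ζ).const_mul ((sz a ν i : ℂ) * u)).const_add (a i)
    rw [mul_one] at this
    exact this
  set ε : ℂ → ℂ := fun ζ => (sz a ν i * u / ν i) * (deriv G (Z ζ) / G (Z ζ)) - 1 with hε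
  have hGZ : ∀ ζ ∈ Metric.ball (0 : ℂ) 7, G (Z ζ) ≠ 0 := fun ζ hζ => (hG _ (hZne ζ hζ)).1
  have hε1 : ∀ ζ ∈ Metric.ball (0 : ℂ) 7, ε ζ = (sz a ν i * u / ν i) *
      (Phi a ν i (Z ζ) - Phi a ν i (a i)) := by
    intro ζ hζ
    have h1 := (hG _ (hZne ζ hζ)).2
    have h2 := hGZ ζ hζ
    rw [hε]
    simp only
    rw [h1, mul_div_cancel_left₀ _ h2, mul_sub, ← Fz_zero_eq a ν hinj i]
    congr 1
    rw [div_mul_eq_mul_div, huF, div_self hnC]
  have hεb : ∀ ζ ∈ Metric.ball (0 : ℂ) 7, ‖ε ζ‖ ≤ 1 / 1000 := by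
    intro ζ hζ
    rw [hε1 ζ hζ, norm_mul, norm_div, norm_mul, hunorm, Complex.norm_real,
      Real.norm_of_nonneg hs0.le, Complex.norm_natCast]
    have h1 := Phi_var a ν hinj ha hs i hg hn (Z ζ) (hZball ζ hζ)
    have h2 : sz a ν i * 1 / (ν i : ℝ) = 1 / ‖Fz a ν i 0‖ := by
      unfold sz
      have h3 : (ν i : ℝ) ≠ 0 := by exact_mod_cast hn.ne'
      field_simp
    rw [h2]
    have h3 := hg.pos
    calc 1 / ‖Fz a ν i 0‖ * ‖Phi a ν i (Z ζ) - Phi a ν i (a i)‖
        ≤ 1 / ‖Fz a ν i 0‖ * ((1 / 1000) * ‖Fz a ν i 0‖) :=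
          mul_le_mul_of_nonneg_left h1 (by positivity)
      _ = 1 / 1000 := by field_simp
  have hεd : DifferentiableOn ℂ ε (Metric.ball 0 7) := by
    have hdG : Differentiable ℂ (deriv G) := by
      intro z
      exact (hGd.analyticAt z).deriv.differentiableAt
    intro ζ hζ
    have hZdd : DifferentiableAt ℂ Z ζ := (hZd ζ).differentiableAt
    have h1 : DifferentiableAt ℂ (fun ζ => deriv G (Z ζ)) ζ :=
      (hdG (Z ζ)).comp ζ hZdd
    have h2 : DifferentiableAt ℂ (fun ζ => G (Z ζ)) ζ := (hGd (Z ζ)).comp ζ hZdd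
    have h3 : DifferentiableAt ℂ ε ζ := by
      rw [hε]
      exact ((h1.div h2 (hGZ ζ hζ)).const_mul _).sub_const 1
    exact h3.differentiableWithinAt
  obtain ⟨η, hη0, hη⟩ := hεd.isExactOn_ball.with_val_at 0 0
  refine ⟨η, fun ζ hζ => (hη ζ hζ).differentiableAt.differentiableWithinAt, hη0, ?_, ?_⟩
  · intro ζ hζ
    rw [(hη ζ hζ).deriv]
    exact hεb ζ hζ
  · -- the quotient has zero derivative
    set Q : ℂ → ℂ := fun ζ => G (Z ζ) * Complex.exp (-(ν i * (ζ + η ζ))) with hQ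
    have hQd : ∀ ζ ∈ Metric.ball (0 : ℂ) 7, HasDerivAt Q 0 ζ := by
      intro ζ hζ
      have h1 : HasDerivAt (fun ζ => G (Z ζ)) (deriv G (Z ζ) * (sz a ν i * u)) ζ :=
        (hGd (Z ζ)).hasDerivAt.comp ζ (hZd ζ)
      have h2 : HasDerivAt (fun ζ => -((ν i : ℂ) * (ζ + η ζ))) (-((ν i : ℂ) * (1 + ε ζ))) ζ :=
        (((hasDerivAt_id ζ).add (hη ζ hζ)).const_mul _).neg
      have h3 := h1.mul h2.cexp
      have h4 := hGZ ζ hζ
      have h5 : deriv G (Z ζ) * (sz a ν i * u) * Complex.exp (-((ν i : ℂ) * (ζ + η ζ))) +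
          G (Z ζ) * (Complex.exp (-((ν i : ℂ) * (ζ + η ζ))) * -((ν i : ℂ) * (1 + ε ζ))) = 0 := by
        have h6 : (ν i : ℂ) * (1 + ε ζ) = sz a ν i * u * (deriv G (Z ζ) / G (Z ζ)) := by
          rw [hε]
          simp only
          field_simp
          ring
        rw [h6]
        field_simp
        ring
      rw [h5] at h3
      exact h3
    intro ζ hζ
    have hconst : Q ζ = Q 0 := by
      have hopen : IsOpen (Metric.ball (0 : ℂ) 7) := Metric.isOpen_ball
      have hconn : IsPreconnected (Metric.ball (0 : ℂ) 7) := (convex_ball 0 7).isPreconnected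
      exact hopen.is_const_of_deriv_eq_zero hconn
        (fun z hz => (hQd z hz).differentiableAt.differentiableWithinAt)
        (fun z hz => (hQd z hz).deriv) hζ (Metric.mem_ball_self (by norm_num))
    rw [hQ] at hconst
    simp only at hconst
    have h5 : Z 0 = a i := by rw [hZ]; simp
    rw [h5, hη0] at hconst
    simp only [add_zero, mul_zero, neg_zero, Complex.exp_zero, mul_one] at hconst
    have h6 : G (Z ζ) * Complex.exp (-(ν i * (ζ + η ζ))) * Complex.exp (ν i * (ζ + η ζ)) =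
        G (Z ζ) := by
      rw [mul_assoc, ← Complex.exp_add]
      simp
    rw [← hconst, h6]

/-- the gain in the basin of a good zero -/
theorem basin_gain [Countable ι] (G f : ℂ → ℂ) (hGd : Differentiable ℂ G)
    (hinj : Function.Injective a) (ha : ∀ j, a j ≠ 0)
    (hs : Summable (fun j => (ν j : ℝ) / ‖a j‖))
    (i : ι) (hg : GoodZ a ν i) (hn : 100 ≤ ν i)
    (hG : ∀ z, (∀ j, j ≠ i → z ≠ a j) → G z ≠ 0 ∧ deriv G z = G z * Phi a ν i z)
    (hG0 : G 0 = 1)
    (hGle : ∀ (w : ℂ) (β : ι → ℝ), (∀ j, j ≠ i → ‖w - a j‖ ≤ ‖a i - a j‖ * Real.exp (β j)) →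
        Summable (fun j => (ν j : ℝ) * β j) →
        ‖G w‖ ≤ ‖G (a i)‖ *
          Real.exp (∑' j, (open Classical in if j = i then 0 else (ν j : ℝ) * β j)))
    (hsize : 100 * ‖a i‖ ≤ sz a ν i * Real.exp ((ν i : ℝ) / 10))
    (hsz2 : 2 ≤ sz a ν i)
    (hf : ∀ z : ℂ, HasDerivAt f ((1 - z / a i) ^ ν i * G z) z) (hf0 : f 0 = 0)
    (z : ℂ) (hz : ‖z - a i‖ ≤ sz a ν i / 10) :
    max 0 (Real.log ‖(1 - z / a i) ^ ν i * G z‖) + (ν i : ℝ) / 2 ≤ max 0 (Real.log ‖f z‖) := by
  have hn0 : 0 < ν i := by omega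
  have hs0 : 0 < sz a ν i := by linarith
  have hF0 : Fz a ν i 0 ≠ 0 := norm_pos_iff.1 hg.pos
  have hai : 0 < ‖a i‖ := norm_pos_iff.2 (ha i)
  have hnR : (100 : ℝ) ≤ (ν i : ℝ) := by exact_mod_cast hn
  set n : ℕ := ν i with hnn
  set s : ℝ := sz a ν i with hss
  set u : ℂ := (starRingEnd ℂ) (Fz a ν i 0) / (‖Fz a ν i 0‖ : ℂ) with hu
  have hunorm : ‖u‖ = 1 := by
    rw [hu, norm_div]
    simpa using hF0
  have hune : u ≠ 0 := by
    rw [← norm_pos_iff, hunorm]; norm_num
  obtain ⟨η, hηd, hη0, hη', hηG⟩ := log_form a ν G hGd hinj ha hs i hg hn0 hG u hu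
  have hpath := path_lemma a ν ha hinj hs i hg hn hsize f G hf hf0 hGle
  rw [← hnn, ← hss, ← hu] at hpath
  clear_value u
  -- lower bound of C0
  have hGA : Real.exp ((n : ℝ) * (Real.log (2 * ‖a i‖ / s) + 3)) ≤ ‖G (a i)‖ := by
    obtain ⟨β, hβ1, hβ2, hβ3⟩ := hg.inner
    have h1 := hGle 0 β (hβ2 0 (by simp; unfold eta; nlinarith)) hβ1
    rw [hG0, norm_one] at h1
    have h2 : Real.exp (∑' j, (open Classical in if j = i then 0 else (ν j : ℝ) * β j)) ≤
        Real.exp (-(n : ℝ) * (Real.log (2 * ‖a i‖ / s) + 3)) := Real.exp_le_exp.2 hβ3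
    have h3 : (1 : ℝ) ≤ ‖G (a i)‖ * Real.exp (-(n : ℝ) * (Real.log (2 * ‖a i‖ / s) + 3)) :=
      h1.trans (mul_le_mul_of_nonneg_left h2 (norm_nonneg _))
    have h4 : Real.exp (-(n : ℝ) * (Real.log (2 * ‖a i‖ / s) + 3)) =
        (Real.exp ((n : ℝ) * (Real.log (2 * ‖a i‖ / s) + 3)))⁻¹ := by
      rw [← Real.exp_neg]; congr 1; ring
    rw [h4, ← div_eq_mul_inv, le_div_iff₀ (Real.exp_pos _), one_mul] at h3
    exact h3
  have hratio : 0 < 2 * ‖a i‖ / s := by positivity
  set C0 : ℝ := (s / ‖a i‖) ^ n * ‖G (a i)‖ with hC0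
  have hC0le : Real.exp (3 * (n : ℝ)) ≤ C0 := by
    have h1 : Real.exp ((n : ℝ) * (Real.log (2 * ‖a i‖ / s) + 3)) =
        (2 * ‖a i‖ / s) ^ n * Real.exp (3 * n) := by
      rw [mul_add, Real.exp_add, mul_comm (n : ℝ) (Real.log _), Real.exp_mul, Real.exp_log hratio,
        Real.rpow_natCast, mul_comm (n : ℝ) 3]
    rw [h1] at hGA
    have h2 : (s / ‖a i‖) ^ n * ((2 * ‖a i‖ / s) ^ n * Real.exp (3 * n)) ≤ C0 :=
      mul_le_mul_of_nonneg_left hGA (by positivity)
    have h3 : (s / ‖a i‖) ^ n * ((2 * ‖a i‖ / s) ^ n * Real.exp (3 * n)) =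
        2 ^ n * Real.exp (3 * n) := by
      rw [← mul_assoc, ← mul_pow]
      congr 2
      field_simp
    rw [h3] at h2
    have h4 : (1 : ℝ) ≤ 2 ^ n := one_le_pow₀ (by norm_num)
    nlinarith [Real.exp_pos (3 * (n : ℝ))]
  have hC0pos : 0 < C0 := lt_of_lt_of_le (Real.exp_pos _) hC0le
  have hGAne : G (a i) ≠ 0 := by
    rw [← norm_pos_iff]
    exact lt_of_lt_of_le (Real.exp_pos _) hGA
  -- local coordinates
  set C : ℂ := s * u * ((-(s * u / a i)) ^ n * G (a i)) with hC
  have hCnorm : ‖C‖ = s * C0 := by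
    rw [hC, norm_mul, norm_mul, norm_mul, norm_pow, norm_neg, norm_div, norm_mul, hunorm,
      Complex.norm_real, Real.norm_of_nonneg hs0.le, hC0]
    ring
  have hCne : C ≠ 0 := by
    rw [← norm_pos_iff, hCnorm]; positivity
  set h : ℂ → ℂ := fun ζ => f (a i + s * u * ζ) with hh
  have hPform : ∀ ζ ∈ Metric.ball (0 : ℂ) 7,
      (1 - (a i + s * u * ζ) / a i) ^ n * G (a i + s * u * ζ) =
        (-(s * u / a i)) ^ n * G (a i) * (ζ ^ n * Complex.exp (n * (ζ + η ζ))) := by
    intro ζ hζ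
    rw [hηG ζ hζ]
    have h1 : 1 - (a i + s * u * ζ) / a i = -(s * u / a i) * ζ := by
      have := ha i
      field_simp
      ring
    rw [h1, mul_pow]
    ring
  have hhd : ∀ ζ ∈ Metric.ball (0 : ℂ) 7,
      HasDerivAt h (C * ζ ^ n * Complex.exp (n * (ζ + η ζ))) ζ := by
    intro ζ hζ
    have h1 : HasDerivAt (fun ζ : ℂ => a i + s * u * ζ) (s * u) ζ := by
      have := ((hasDerivAt_id ζ).const_mul ((s : ℂ) * u)).const_add (a i)
      rw [mul_one] at this
      exact this
    have h2 := (hf (a i + s * u * ζ)).comp ζ h1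
    rw [hPform ζ hζ] at h2
    have h3 : (-(s * u / a i)) ^ n * G (a i) * (ζ ^ n * Complex.exp (n * (ζ + η ζ))) * (s * u) =
        C * ζ ^ n * Complex.exp (n * (ζ + η ζ)) := by
      rw [hC]; ring
    rw [h3] at h2
    exact h2
  have hneg : ‖h (-6)‖ ≤ ‖C‖ * Real.exp (-(13 / 10) * n) := by
    rw [hCnorm, hh]
    simp only
    have h1 : a i + s * u * (-6) = a i - 6 * (s : ℂ) * u := by ring
    rw [h1]
    exact hpath
  have hlow := local_basin n hn C hCne η h hηd hη0 hη' hhd hneg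
  -- the point z
  set ζ : ℂ := (z - a i) / (s * u) with hζ
  have hsC : (s : ℂ) ≠ 0 := by exact_mod_cast hs0.ne'
  have hzζ : a i + s * u * ζ = z := by
    rw [hζ]
    field_simp
    ring
  have hζn : ‖ζ‖ ≤ 1 / 10 := by
    rw [hζ, norm_div, norm_mul, hunorm, Complex.norm_real, Real.norm_of_nonneg hs0.le, mul_one,
      div_le_iff₀ hs0]
    linarith
  have hζball : ζ ∈ Metric.ball (0 : ℂ) 7 := by
    rw [Metric.mem_ball, dist_zero_right]; linarith
  have hfz : s * C0 * Real.exp (-(13 / 10) * n) / 2 ≤ ‖f z‖ := by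
    have := hlow ζ hζn
    rw [hCnorm, hh] at this
    simp only at this
    rw [hzζ] at this
    exact this
  -- upper bound of P
  have hηle : ‖η ζ‖ ≤ 1 / 1000 * ‖ζ‖ := by
    have h1 := (convex_ball (0 : ℂ) 7).norm_image_sub_le_of_norm_deriv_le (𝕜 := ℂ) (f := η)
      (C := 1 / 1000) (x := 0) (y := ζ)
      (fun x hx => (hηd x hx).differentiableAt (Metric.isOpen_ball.mem_nhds hx)) hη'
      (Metric.mem_ball_self (by norm_num)) hζball
    rw [hη0, sub_zero, sub_zero] at h1
    exact h1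
  have hPz : ‖(1 - z / a i) ^ n * G z‖ ≤ C0 * Real.exp (-2 * (n : ℝ)) := by
    have h1 := hPform ζ hζball
    rw [hzζ] at h1
    rw [h1, norm_mul, norm_mul, norm_pow, norm_neg, norm_div, norm_mul, hunorm,
      Complex.norm_real, Real.norm_of_nonneg hs0.le, mul_one, ← hC0, norm_mul, norm_pow,
      Complex.norm_exp]
    apply mul_le_mul_of_nonneg_left _ hC0pos.le
    have h2 : ((n : ℂ) * (ζ + η ζ)).re ≤ (n : ℝ) * (2 / 10) := by
      have h3 : ((n : ℂ) * (ζ + η ζ)).re = (n : ℝ) * (ζ + η ζ).re := by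
        simp
      rw [h3]
      apply mul_le_mul_of_nonneg_left _ (by positivity)
      have h4 := Complex.re_le_norm (ζ + η ζ)
      have h5 := norm_add_le ζ (η ζ)
      linarith
    have h3 : ‖ζ‖ ^ n ≤ Real.exp (-(22 / 10) * (n : ℝ)) := by
      have h4 : ‖ζ‖ ≤ Real.exp (-(22 / 10)) := by
        refine hζn.trans ?_
        rw [Real.exp_neg, one_div]
        apply inv_anti₀ (Real.exp_pos _)
        have h5 : Real.exp (22 / 10) = Real.exp 1 * Real.exp 1 * Real.exp (2 / 10) := by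
          rw [← Real.exp_add, ← Real.exp_add]; norm_num
        rw [h5]
        have h6 := Real.exp_one_lt_d9
        have h7 : Real.exp (2 / 10) ≤ 1.25 := by
          have := Real.exp_bound' (x := 2 / 10) (by norm_num) (by norm_num) (n := 3) (by norm_num)
          refine this.trans ?_
          norm_num [Finset.sum_range_succ, Nat.factorial]
        have h8 := Real.exp_pos 1
        have h9 := Real.exp_pos (2 / 10)
        nlinarith
      calc ‖ζ‖ ^ n ≤ (Real.exp (-(22 / 10))) ^ n := by gcongr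
        _ = Real.exp (-(22 / 10) * (n : ℝ)) := by rw [← Real.exp_nat_mul]; ring_nf
    calc ‖ζ‖ ^ n * Real.exp ((n : ℂ) * (ζ + η ζ)).re
        ≤ Real.exp (-(22 / 10) * (n : ℝ)) * Real.exp ((n : ℝ) * (2 / 10)) := by gcongr
      _ = Real.exp (-2 * (n : ℝ)) := by rw [← Real.exp_add]; ring_nf
  -- conclusion
  have hfz2 : C0 * Real.exp (-(13 / 10) * n) ≤ ‖f z‖ := by
    refine le_trans ?_ hfz
    have : 0 < C0 * Real.exp (-(13 / 10) * n) := by positivity
    nlinarith
  have hfpos : 0 < ‖f z‖ := lt_of_lt_of_le (by positivity) hfz2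
  have hlogf : Real.log C0 - (13 / 10) * n ≤ Real.log ‖f z‖ := by
    have := Real.log_le_log (by positivity) hfz2
    rw [Real.log_mul hC0pos.ne' (Real.exp_pos _).ne', Real.log_exp] at this
    linarith
  have hlogC0 : 3 * (n : ℝ) ≤ Real.log C0 := by
    rw [Real.le_log_iff_exp_le hC0pos]; exact hC0le
  have hlogP : Real.log ‖(1 - z / a i) ^ n * G z‖ ≤ Real.log C0 - 2 * n ∨
      Real.log ‖(1 - z / a i) ^ n * G z‖ ≤ 0 := by
    rcases (norm_nonneg ((1 - z / a i) ^ n * G z)).eq_or_lt with h0 | h0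
    · right; rw [← h0]; simp
    · left
      have := Real.log_le_log h0 hPz
      rw [Real.log_mul hC0pos.ne' (Real.exp_pos _).ne', Real.log_exp] at this
      linarith
  have h1 : Real.log ‖f z‖ ≤ max 0 (Real.log ‖f z‖) := le_max_right _ _
  rcases le_total (Real.log ‖(1 - z / a i) ^ n * G z‖) 0 with h2 | h2
  · rw [max_eq_left h2]; linarith
  · rw [max_eq_right h2]
    rcases hlogP with h3 | h3 <;> linarith

end basin

/-- elementary growth comparison -/
theorem growth_cmp (C rho σ : ℝ) (hrho : 0 < rho) (hσ : rho < σ) :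
    ∃ D : ℝ, ∀ t : ℝ, 0 ≤ t → Real.log (1 + t) + C * (max 1 t) ^ rho ≤ D + t ^ σ := by
  have h1 : Filter.Tendsto (fun t : ℝ => (Real.log (1 + t) + C * (max 1 t) ^ rho) / t ^ σ)
      Filter.atTop (nhds 0) := by
    have hσ0 : 0 < σ := hrho.trans hσ
    have hA : Filter.Tendsto (fun t : ℝ => Real.log (1 + t) / t ^ σ) Filter.atTop (nhds 0) := by
      have h := (isLittleO_log_rpow_atTop hσ0)
      have h2 : Filter.Tendsto (fun t : ℝ => Real.log (1 + t) / (1 + t) ^ σ) Filter.atTop (nhds 0) := by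
        have h3 := h.tendsto_div_nhds_zero
        exact h3.comp (Filter.tendsto_atTop_add_const_left _ 1 Filter.tendsto_id)
      have h4 : Filter.Tendsto (fun t : ℝ => (2 : ℝ) ^ σ * (Real.log (1 + t) / (1 + t) ^ σ))
          Filter.atTop (nhds 0) := by
        simpa using h2.const_mul ((2 : ℝ) ^ σ)
      refine squeeze_zero' ?_ ?_ h4
      · filter_upwards [Filter.eventually_ge_atTop (1 : ℝ)] with t ht
        have : 0 ≤ Real.log (1 + t) := Real.log_nonneg (by linarith)
        positivity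
      · filter_upwards [Filter.eventually_ge_atTop (1 : ℝ)] with t ht
        have h5 : 0 ≤ Real.log (1 + t) := Real.log_nonneg (by linarith)
        have h6 : (1 + t) ^ σ ≤ 2 ^ σ * t ^ σ := by
          rw [← Real.mul_rpow (by norm_num) (by linarith)]
          exact Real.rpow_le_rpow (by linarith) (by linarith) hσ0.le
        have h7 : 0 < t ^ σ := by positivity
        have h8 : 0 < (1 + t) ^ σ := by positivity
        rw [← mul_div_assoc, div_le_div_iff₀ h7 h8]
        nlinarith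
    have hB : Filter.Tendsto (fun t : ℝ => C * (max 1 t) ^ rho / t ^ σ) Filter.atTop (nhds 0) := by
      have h2 : Filter.Tendsto (fun t : ℝ => C * t ^ (rho - σ)) Filter.atTop (nhds 0) := by
        have h3 : Filter.Tendsto (fun t : ℝ => t ^ (-(σ - rho))) Filter.atTop (nhds 0) :=
          tendsto_rpow_neg_atTop (by linarith)
        have h4 := h3.const_mul C
        simpa [neg_sub] using h4
      refine h2.congr' ?_
      filter_upwards [Filter.eventually_ge_atTop (1 : ℝ)] with t ht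
      rw [max_eq_right ht, Real.rpow_sub (by linarith)]
      ring
    have := hA.add hB
    rw [add_zero] at this
    refine this.congr fun t => ?_
    rw [add_div]
  have h2 := h1.eventually_lt_const (u := 1) one_pos
  rw [Filter.eventually_atTop] at h2
  obtain ⟨M, hM⟩ := h2
  set M' := max M 1 with hM'
  refine ⟨Real.log (1 + M') + |C| * M' ^ rho, fun t ht => ?_⟩
  have hM1 : 1 ≤ M' := le_max_right _ _
  rcases le_total t M' with h | h
  · have h3 : Real.log (1 + t) ≤ Real.log (1 + M') :=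
      Real.log_le_log (by linarith) (by linarith)
    have h4 : (max 1 t) ^ rho ≤ M' ^ rho :=
      Real.rpow_le_rpow (by positivity) (max_le hM1 h) hrho.le
    have h5 : C * (max 1 t) ^ rho ≤ |C| * M' ^ rho := by
      have h6 : C * (max 1 t) ^ rho ≤ |C| * (max 1 t) ^ rho :=
        mul_le_mul_of_nonneg_right (le_abs_self C) (by positivity)
      exact h6.trans (mul_le_mul_of_nonneg_left h4 (abs_nonneg _))
    have h6 : 0 ≤ t ^ σ := Real.rpow_nonneg ht _
    linarith
  · have h3 := hM t ((le_max_left _ _).trans h)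
    have ht1 : 1 ≤ t := hM1.trans h
    have h4 : 0 < t ^ σ := by positivity
    rw [div_lt_one h4] at h3
    have h5 : 0 ≤ Real.log (1 + M') := Real.log_nonneg (by linarith)
    have h6 : 0 ≤ |C| * M' ^ rho := by positivity
    linarith

/-- Part I -/
theorem partI {rho : ℝ} (h0 : 0 < rho) (h1 : rho < 1) {ι : Type} [Countable ι] (a : ι → ℂ)
    (ν : ι → ℕ) (hZ : ZData rho a ν) :
    ∃ f : ℂ → ℂ, Differentiable ℂ f ∧ (¬ ∃ p : Polynomial ℂ, ∀ z : ℂ, f z = p.eval z) ∧
      (∀ σ : ℝ, rho < σ → ∃ C : ℝ, ∀ z : ℂ, ‖f z‖ ≤ Real.exp (C + ‖z‖ ^ σ)) ∧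
      ∃ ε > 0, ∃ R : ℝ, ∀ r ≥ R, (1 + ε) * T r (deriv f) < T r f := by
  classical
  obtain ⟨P, G, hPd, hGd, hPG, hG0, hPle, hGlog, hGle⟩ :=
    exists_product a ν hZ.ne hZ.inj hZ.summ
  obtain ⟨f, hf0, hf⟩ := hPd.isExactOn_univ.with_val_at 0 0
  have hf' : ∀ z, HasDerivAt f (P z) z := fun z => hf z (Set.mem_univ z)
  have hfd : Differentiable ℂ f := fun z => (hf' z).differentiableAt
  have hderiv : deriv f = P := funext fun z => (hf' z).deriv
  obtain ⟨C, hC⟩ := hZ.growth
  obtain ⟨c, hc, R0, hcov⟩ := hZ.cover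
  -- growth of P
  have hmono : ∀ z : ℂ, ‖P z‖ ≤ Real.exp (|C| * (max 1 ‖z‖) ^ rho) := by
    intro z
    refine (hPle z).trans (Real.exp_le_exp.2 ?_)
    have hsum : ∀ r : ℝ, 0 ≤ r → Summable (fun i => (ν i : ℝ) * Real.log (1 + r / ‖a i‖)) := by
      intro r hr
      refine Summable.of_nonneg_of_le (fun i => ?_) (fun i => ?_) (hZ.summ.mul_left r)
      · have : 0 ≤ Real.log (1 + r / ‖a i‖) := Real.log_nonneg (by
          have : 0 ≤ r / ‖a i‖ := by positivity
          linarith)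
        positivity
      · have h2 : Real.log (1 + r / ‖a i‖) ≤ r / ‖a i‖ := by
          have h3 : 0 ≤ r / ‖a i‖ := by positivity
          have := Real.log_le_sub_one_of_pos (x := 1 + r / ‖a i‖) (by linarith)
          linarith
        calc (ν i : ℝ) * Real.log (1 + r / ‖a i‖) ≤ (ν i : ℝ) * (r / ‖a i‖) :=
              mul_le_mul_of_nonneg_left h2 (by positivity)
          _ = r * ((ν i : ℝ) / ‖a i‖) := by ring
    have h2 : ∑' i, (ν i : ℝ) * Real.log (1 + ‖z‖ / ‖a i‖) ≤
        ∑' i, (ν i : ℝ) * Real.log (1 + (max 1 ‖z‖) / ‖a i‖) := by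
      refine (hsum _ (norm_nonneg z)).tsum_le_tsum (fun i => ?_) (hsum _ (by positivity))
      have hai : 0 < ‖a i‖ := norm_pos_iff.2 (hZ.ne i)
      apply mul_le_mul_of_nonneg_left _ (by positivity)
      apply Real.log_le_log (by positivity)
      gcongr
      exact le_max_right _ _
    refine h2.trans ((hC _ (le_max_left _ _)).trans ?_)
    exact mul_le_mul_of_nonneg_right (le_abs_self C) (by positivity)
  -- growth of f
  have hfle : ∀ z : ℂ, ‖f z‖ ≤ Real.exp (Real.log (1 + ‖z‖) + |C| * (max 1 ‖z‖) ^ rho) := by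
    intro z
    have h2 : ‖f z - f 0‖ ≤ Real.exp (|C| * (max 1 ‖z‖) ^ rho) * ‖z - 0‖ := by
      refine (convex_closedBall (0 : ℂ) ‖z‖).norm_image_sub_le_of_norm_deriv_le (𝕜 := ℂ)
        (fun x _ => hfd x) (fun x hx => ?_) (Metric.mem_closedBall_self (norm_nonneg _)) (by simp)
      rw [hderiv]
      refine (hmono x).trans (Real.exp_le_exp.2 ?_)
      have hx' : ‖x‖ ≤ ‖z‖ := by simpa using hx
      gcongr
    rw [hf0, sub_zero, sub_zero] at h2
    rw [Real.exp_add, Real.exp_log (by positivity)]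
    nlinarith [Real.exp_pos (|C| * (max 1 ‖z‖) ^ rho), norm_nonneg z]
  have hgrowth : ∀ σ : ℝ, rho < σ → ∃ D : ℝ, ∀ z : ℂ, ‖f z‖ ≤ Real.exp (D + ‖z‖ ^ σ) := by
    intro σ hσ
    obtain ⟨D, hD⟩ := growth_cmp |C| rho σ h0 hσ
    exact ⟨D, fun z => (hfle z).trans (Real.exp_le_exp.2 (hD ‖z‖ (norm_nonneg z)))⟩
  -- thresholds
  have hpow : Filter.Tendsto (fun r : ℝ => r ^ rho) Filter.atTop Filter.atTop :=
    tendsto_rpow_atTop h0
  have hev : ∀ᶠ r : ℝ in Filter.atTop, 1 ≤ r ∧ R0 ≤ r ∧ 100 ≤ c * r ^ rho ∧ 2 ≤ c * r ∧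
      200 / c ≤ Real.exp (c * r ^ rho / 10) := by
    have e1 := Filter.eventually_ge_atTop (1 : ℝ)
    have e2 := Filter.eventually_ge_atTop R0
    have e3 := (hpow.const_mul_atTop hc).eventually_ge_atTop 100
    have e4 := (Filter.tendsto_id.const_mul_atTop hc).eventually_ge_atTop (2 : ℝ)
    have e5 := (Real.tendsto_exp_atTop.comp ((hpow.const_mul_atTop hc).atTop_div_const
      (by norm_num : (0 : ℝ) < 10))).eventually_ge_atTop (200 / c)
    filter_upwards [e1, e2, e3, e4, e5] with r a1 a2 a3 a4 a5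
    exact ⟨a1, a2, a3, a4, a5⟩
  rw [Filter.eventually_atTop] at hev
  obtain ⟨R2, hR2⟩ := hev
  -- good zero for each r
  have hzero : ∀ r ≥ R2, ∃ i, GoodZ a ν i ∧ c * r ^ rho ≤ (ν i : ℝ) ∧ 100 ≤ ν i ∧
      c * r ≤ sz a ν i ∧ |‖a i‖ - r| ≤ (3 / 50) * sz a ν i ∧ ‖a i‖ ≤ 2 * r ∧ r ≤ 2 * ‖a i‖ ∧
      2 ≤ sz a ν i ∧ 100 * ‖a i‖ ≤ sz a ν i * Real.exp ((ν i : ℝ) / 10) := by
    intro r hr
    obtain ⟨b1, b2, b3, b4, b5⟩ := hR2 r hr
    obtain ⟨i, g1, g2, g3, g4⟩ := hcov r b2
    have hνR : (100 : ℝ) ≤ (ν i : ℝ) := b3.trans g2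
    have hνn : 100 ≤ ν i := by exact_mod_cast hνR
    have hs1 : 13 * sz a ν i ≤ eta * ‖a i‖ := g1.small
    have hai : 0 < ‖a i‖ := norm_pos_iff.2 (hZ.ne i)
    unfold eta at hs1
    rw [abs_le] at g4
    have hs2 : 0 < sz a ν i := by nlinarith
    have c1 : ‖a i‖ ≤ 2 * r := by linarith [g4.2]
    have c2 : r ≤ 2 * ‖a i‖ := by linarith [g4.1]
    refine ⟨i, g1, g2, hνn, g3, abs_le.2 g4, c1, c2, b4.trans g3, ?_⟩
    have h5 : Real.exp (c * r ^ rho / 10) ≤ Real.exp ((ν i : ℝ) / 10) :=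
      Real.exp_le_exp.2 (by linarith)
    have h6 : 200 / c ≤ Real.exp ((ν i : ℝ) / 10) := b5.trans h5
    rw [div_le_iff₀ hc] at h6
    have h7 : 0 < r := by linarith
    calc 100 * ‖a i‖ ≤ 200 * r := by linarith
      _ ≤ (Real.exp ((ν i : ℝ) / 10) * c) * r := mul_le_mul_of_nonneg_right h6 h7.le
      _ = (c * r) * Real.exp ((ν i : ℝ) / 10) := by ring
      _ ≤ sz a ν i * Real.exp ((ν i : ℝ) / 10) :=
        mul_le_mul_of_nonneg_right g3 (Real.exp_pos _).le
  -- the gain on arcs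
  set δ : ℝ := min 1 (c / 50) with hδ
  have hδ0 : 0 < δ := lt_min one_pos (by positivity)
  have hδ1 : δ ≤ 1 := min_le_left _ _
  have hδc : δ ≤ c / 50 := min_le_right _ _
  have hgood : ∀ r ≥ R2, ∃ θ0 : ℝ, ∀ θ ∈ Set.Icc θ0 (θ0 + δ),
      max 0 (Real.log ‖deriv f (circleMap 0 r θ)‖) + (c / 2) * r ^ rho
        ≤ max 0 (Real.log ‖f (circleMap 0 r θ)‖) := by
    intro r hr
    obtain ⟨i, g1, g2, g3, g4, g5, g6, g7, g8, g9⟩ := hzero r hr
    have hr1 : 1 ≤ r := (hR2 r hr).1
    refine ⟨Complex.arg (a i), fun θ hθ => ?_⟩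
    have hz : ‖circleMap 0 r θ - a i‖ ≤ sz a ν i / 10 := by
      have e1 : circleMap 0 r θ = (r : ℂ) * Complex.exp (θ * Complex.I) := by
        simp [circleMap]
      have e2 : a i = (‖a i‖ : ℂ) * Complex.exp (Complex.arg (a i) * Complex.I) :=
        (Complex.norm_mul_exp_arg_mul_I (a i)).symm
      have e3 : circleMap 0 r θ - a i =
          ((r - ‖a i‖ : ℝ) : ℂ) * Complex.exp (Complex.arg (a i) * Complex.I) +
          (r : ℂ) * (Complex.exp (θ * Complex.I) - Complex.exp (Complex.arg (a i) * Complex.I)) := by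
        rw [e1]
        calc (r : ℂ) * Complex.exp (θ * Complex.I) - a i
            = (r : ℂ) * Complex.exp (θ * Complex.I) -
              (‖a i‖ : ℂ) * Complex.exp (Complex.arg (a i) * Complex.I) := by rw [← e2]
          _ = _ := by
              push_cast
              ring
      rw [e3]
      refine (norm_add_le _ _).trans ?_
      rw [norm_mul, norm_mul, Complex.norm_exp_ofReal_mul_I, mul_one, Complex.norm_real,
        Complex.norm_real, Real.norm_eq_abs, Real.norm_of_nonneg (by linarith : (0 : ℝ) ≤ r)]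
      have e4 : ‖Complex.exp (θ * Complex.I) - Complex.exp (Complex.arg (a i) * Complex.I)‖ ≤ δ := by
        have e5 : Complex.exp (θ * Complex.I) - Complex.exp (Complex.arg (a i) * Complex.I) =
            Complex.exp (Complex.arg (a i) * Complex.I) *
              (Complex.exp (Complex.I * ((θ - Complex.arg (a i) : ℝ) : ℂ)) - 1) := by
          rw [mul_sub, ← Complex.exp_add, mul_one]
          congr 2
          push_cast
          ring
        rw [e5, norm_mul, Complex.norm_exp_ofReal_mul_I, one_mul]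
        refine (Real.norm_exp_I_mul_ofReal_sub_one_le).trans ?_
        rw [Real.norm_eq_abs, abs_of_nonneg (by linarith [hθ.1])]
        linarith [hθ.2]
      have e6 : |r - ‖a i‖| ≤ (3 / 50) * sz a ν i := by rw [abs_sub_comm]; exact g5
      have e7 : r * ‖Complex.exp (θ * Complex.I) - Complex.exp (Complex.arg (a i) * Complex.I)‖ ≤
          r * (c / 50) := mul_le_mul_of_nonneg_left (e4.trans hδc) (by linarith)
      nlinarith
    have hgain := basin_gain a ν (G i) f (hGd i) hZ.inj hZ.ne hZ.summ i g1 g3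
      (fun z hz => hGlog i z hz) (hG0 i) (fun w β hβ hβs => hGle i w β hβ hβs) g9 g8
      (fun z => by rw [← hPG i z]; exact hf' z) hf0 _ hz
    rw [← hPG i] at hgain
    rw [hderiv]
    linarith
  obtain ⟨D, hD⟩ := hgrowth ((rho + 1) / 2) (by linarith)
  obtain ⟨c', hc', R1, hR1⟩ := char_gain f hfd D ((rho + 1) / 2) rho (c / 2) δ R2 (by linarith)
    (by linarith) hD h0 (by positivity) hδ0 hδ1 hgood
  refine ⟨f, hfd, ?_, hgrowth, ?_⟩
  · -- not a polynomial
    rintro ⟨p, hp⟩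
    have hpd : ∀ z, P z = p.derivative.eval z := by
      intro z
      have h2 : f = fun z => p.eval z := funext hp
      rw [← hderiv, h2]
      exact p.deriv
    have hne : p.derivative ≠ 0 := by
      intro h
      have h3 := hpd 0
      rw [h, Polynomial.eval_zero] at h3
      obtain ⟨i, -⟩ := hzero R2 le_rfl
      have h4 := hPG i 0
      rw [h3, hG0 i] at h4
      simp at h4
    have hfin := (Polynomial.rootSet_finite p.derivative ℂ)
    obtain ⟨B, hB⟩ := hfin.isBounded.subset_closedBall 0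
    obtain ⟨i, g1, g2, g3, g4, g5, g6, g7, g8, g9⟩ := hzero (max R2 (2 * |B| + 2)) (le_max_left _ _)
    have hroot : a i ∈ p.derivative.rootSet ℂ := by
      rw [Polynomial.mem_rootSet]
      refine ⟨hne, ?_⟩
      have h5 := hpd (a i)
      rw [hPG i (a i), div_self (hZ.ne i), sub_self, zero_pow (by omega), zero_mul] at h5
      simpa using h5.symm
    have h6 := hB hroot
    rw [Metric.mem_closedBall, dist_zero_right] at h6
    have h7 : 2 * |B| + 2 ≤ max R2 (2 * |B| + 2) := le_max_right _ _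
    have h8 := le_abs_self B
    linarith
  · -- the characteristic
    have hTle : ∀ r : ℝ, 1 ≤ r → T r (deriv f) ≤ |C| * r ^ rho := by
      intro r hr
      unfold T
      rw [hderiv]
      have h2 : ∀ θ : ℝ, max 0 (Real.log ‖P (circleMap 0 r θ)‖) ≤ |C| * r ^ rho := by
        intro θ
        have h3 : ‖circleMap 0 r θ‖ = r := by
          simp [circleMap, abs_of_nonneg (by linarith : (0 : ℝ) ≤ r)]
        have h4 := hmono (circleMap 0 r θ)
        rw [h3, max_eq_right hr] at h4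
        apply max_le (by positivity)
        rcases (norm_nonneg (P (circleMap 0 r θ))).eq_or_lt with h5 | h5
        · rw [← h5, Real.log_zero]; positivity
        · rw [Real.log_le_iff_le_exp h5]; exact h4
      have hcont : Continuous (fun θ : ℝ => max 0 (Real.log ‖P (circleMap 0 r θ)‖)) ∨ True :=
        Or.inr trivial
      have h3 : (∫ θ in (0 : ℝ)..(2 * Real.pi), max 0 (Real.log ‖P (circleMap 0 r θ)‖)) ≤
          ∫ θ in (0 : ℝ)..(2 * Real.pi), |C| * r ^ rho := by
        by_cases hint : IntervalIntegrable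
            (fun θ : ℝ => max 0 (Real.log ‖P (circleMap 0 r θ)‖)) MeasureTheory.volume 0 (2 * Real.pi)
        · exact intervalIntegral.integral_mono (by positivity) hint
            intervalIntegrable_const h2
        · rw [intervalIntegral.integral_undef hint]
          exact intervalIntegral.integral_nonneg (by positivity) (fun _ _ => by positivity)
      calc (1 / (2 * Real.pi)) * ∫ θ in (0 : ℝ)..(2 * Real.pi), max 0 (Real.log ‖P (circleMap 0 r θ)‖)
          ≤ (1 / (2 * Real.pi)) * ∫ θ in (0 : ℝ)..(2 * Real.pi), |C| * r ^ rho :=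
            mul_le_mul_of_nonneg_left h3 (by positivity)
        _ = |C| * r ^ rho := by
            rw [intervalIntegral.integral_const]
            have := Real.pi_pos
            simp only [sub_zero, smul_eq_mul]
            field_simp
    refine ⟨c' / (2 * (|C| + 1)), by positivity, max 1 R1, fun r hr => ?_⟩
    have hr1 : 1 ≤ r := (le_max_left _ _).trans hr
    have h2 := hR1 r ((le_max_right _ _).trans hr)
    have h3 := hTle r hr1
    have h4 : 0 < r ^ rho := by positivity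
    have h5 : c' / (2 * (|C| + 1)) * T r (deriv f) ≤ c' / (2 * (|C| + 1)) * (|C| * r ^ rho) :=
      mul_le_mul_of_nonneg_left h3 (by positivity)
    have h6 : c' / (2 * (|C| + 1)) * (|C| * r ^ rho) < c' * r ^ rho := by
      have h7 : c' / (2 * (|C| + 1)) * |C| < c' := by
        rw [div_mul_eq_mul_div, div_lt_iff₀ (by positivity)]
        nlinarith [abs_nonneg C]
      calc c' / (2 * (|C| + 1)) * (|C| * r ^ rho) = (c' / (2 * (|C| + 1)) * |C|) * r ^ rho := by ring
        _ < c' * r ^ rho := mul_lt_mul_of_pos_right h7 h4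
    linarith

end

end NevT.Glue1

namespace NevT

alias partI := Glue1.partI

end NevT
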