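import Pool.Agent.Helper551.NevDefs

set_option autoImplicit false

open Filter Topology

open scoped BigOperators

namespace NevT.J668

noncomputable section

theorem Wp_re (q : ℕ) (H : ℝ) (k : Fin q × Fin q) :
    (Wp q H k).re = ((k.1 : ℝ) * q + (k.2 : ℝ)) / (q : ℝ) ^ 2 := by
  unfold Wp
  simp only [Complex.add_re, Complex.ofReal_re, Complex.re_ofReal_mul, Complex.I_re, mul_zero,
    add_zero]

theorem Wp_im (q : ℕ) (H : ℝ) (k : Fin q × Fin q) :
    (Wp q H k).im = H * (k.2 : ℝ) / q := by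
  unfold Wp
  simp only [Complex.add_im, Complex.ofReal_im, Complex.im_ofReal_mul, Complex.I_im, mul_one,
    zero_add]

/-- lower bound by the imaginary part -/
theorem low_im (q : ℕ) (hq : 0 < q) (H : ℝ) (hH : 1 ≤ H) (k l : Fin q × Fin q) :
    H * (((k.2 : ℤ) - (l.2 : ℤ)).natAbs : ℝ) / q ≤ ‖Wp q H k - Wp q H l‖ := by
  have hq' : (0 : ℝ) < q := by exact_mod_cast hq
  have h1 := Complex.abs_im_le_norm (Wp q H k - Wp q H l)
  rw [Complex.sub_im, Wp_im, Wp_im] at h1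
  refine le_trans (le_of_eq ?_) h1
  have h2 : H * (k.2 : ℝ) / q - H * (l.2 : ℝ) / q = H / q * (((k.2 : ℤ) - (l.2 : ℤ) : ℤ) : ℝ) := by
    push_cast; ring
  rw [h2, abs_mul, abs_of_nonneg (by positivity), ← Int.cast_abs, Nat.cast_natAbs]
  ring

theorem low_re (q : ℕ) (hq : 0 < q) (H : ℝ) (hH : 1 ≤ H) (k l : Fin q × Fin q) :
    (((k.1 : ℤ) - (l.1 : ℤ)).natAbs : ℝ) / (2 * q) ≤ ‖Wp q H k - Wp q H l‖ := by
  have hq' : (0 : ℝ) < q := by exact_mod_cast hq
  set i := ((k.1 : ℤ) - (l.1 : ℤ)).natAbs with hi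
  set j := ((k.2 : ℤ) - (l.2 : ℤ)).natAbs with hj
  have hk2 := k.2.isLt
  have hl2 := l.2.isLt
  have hjq : j < q := by omega
  have h1 := Complex.abs_re_le_norm (Wp q H k - Wp q H l)
  rw [Complex.sub_re, Wp_re, Wp_re] at h1
  have h2 : ((k.1 : ℝ) * q + (k.2 : ℝ)) / (q : ℝ) ^ 2 - ((l.1 : ℝ) * q + (l.2 : ℝ)) / (q : ℝ) ^ 2 =
      ((((k.1 : ℤ) - (l.1 : ℤ) : ℤ) : ℝ) * q + (((k.2 : ℤ) - (l.2 : ℤ) : ℤ) : ℝ)) / (q : ℝ) ^ 2 := by
    push_cast; ring
  rw [h2, abs_div, abs_of_pos (show (0 : ℝ) < (q : ℝ) ^ 2 by positivity)] at h1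
  have h3 : (i : ℝ) * q - j ≤
      |(((k.1 : ℤ) - (l.1 : ℤ) : ℤ) : ℝ) * q + (((k.2 : ℤ) - (l.2 : ℤ) : ℤ) : ℝ)| := by
    have h4 := abs_sub_abs_le_abs_sub ((((k.1 : ℤ) - (l.1 : ℤ) : ℤ) : ℝ) * q)
      (-(((k.2 : ℤ) - (l.2 : ℤ) : ℤ) : ℝ))
    rw [abs_neg, sub_neg_eq_add, abs_mul, abs_of_pos hq', ← Int.cast_abs, ← Int.cast_abs] at h4
    rw [hi, hj, Nat.cast_natAbs, Nat.cast_natAbs]
    exact h4
  have h5 : ((i : ℝ) * q - j) / (q : ℝ) ^ 2 ≤ ‖Wp q H k - Wp q H l‖ :=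
    (div_le_div_of_nonneg_right h3 (by positivity)).trans h1
  have him := low_im q hq H hH k l
  rw [← hj] at him
  rcases Nat.lt_or_ge i 2 with h | h
  · -- i ≤ 1
    rcases Nat.eq_zero_or_pos j with hj0 | hj0
    · rw [hj0] at h5
      refine le_trans ?_ h5
      have : ((i : ℝ) * q - ((0 : ℕ) : ℝ)) / (q : ℝ) ^ 2 = i / q := by
        push_cast; field_simp; ring
      rw [this]
      apply div_le_div_of_nonneg_left (by positivity) hq' (by linarith)
    · refine le_trans ?_ him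
      rw [div_le_div_iff₀ (by positivity) hq']
      have hi1 : (i : ℝ) ≤ 1 := by exact_mod_cast Nat.lt_succ_iff.1 h
      have hj1 : (1 : ℝ) ≤ j := by exact_mod_cast hj0
      have : (1 : ℝ) ≤ H * j := by nlinarith
      nlinarith
  · refine le_trans ?_ h5
    rw [div_le_div_iff₀ (by positivity) (by positivity)]
    have hi2 : (2 : ℝ) ≤ i := by exact_mod_cast h
    have hj2 : (j : ℝ) + 1 ≤ q := by exact_mod_cast hjq
    have h6 : (i : ℝ) * q / 2 ≤ i * q - j := by nlinarith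
    nlinarith

theorem pattern_sep (q : ℕ) (hq : 0 < q) (H : ℝ) (hH : 1 ≤ H) (k l : Fin q × Fin q) (h : k ≠ l) :
    1 / (q : ℝ) ≤ ‖Wp q H k - Wp q H l‖ := by
  have hq' : (0 : ℝ) < q := by exact_mod_cast hq
  by_cases hb : k.2 = l.2
  · have ha : k.1 ≠ l.1 := fun ha => h (Prod.ext ha hb)
    have h1 := Complex.abs_re_le_norm (Wp q H k - Wp q H l)
    rw [Complex.sub_re, Wp_re, Wp_re, hb] at h1
    have h2 : ((k.1 : ℝ) * q + (l.2 : ℝ)) / (q : ℝ) ^ 2 - ((l.1 : ℝ) * q + (l.2 : ℝ)) / (q : ℝ) ^ 2 =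
        (((k.1 : ℤ) - (l.1 : ℤ) : ℤ) : ℝ) / q := by
      push_cast; field_simp; ring
    rw [h2, abs_div, abs_of_pos hq', ← Int.cast_abs] at h1
    refine le_trans ?_ h1
    apply div_le_div_of_nonneg_right _ hq'.le
    have h3 : (1 : ℤ) ≤ |(k.1 : ℤ) - (l.1 : ℤ)| := by
      apply Int.one_le_abs
      intro h4
      apply ha
      ext
      omega
    exact_mod_cast h3
  · refine le_trans ?_ (low_im q hq H hH k l)
    apply div_le_div_of_nonneg_right _ hq'.le
    have h3 : 1 ≤ ((k.2 : ℤ) - (l.2 : ℤ)).natAbs := by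
      by_contra h4
      apply hb
      ext
      omega
    have h4 : (1 : ℝ) ≤ (((k.2 : ℤ) - (l.2 : ℤ)).natAbs : ℝ) := by exact_mod_cast h3
    nlinarith

theorem sum_absdiff_le (q : ℕ) (a : Fin q) (F : ℕ → ℝ) (hF : ∀ n, 0 ≤ F n) :
    ∑ a' : Fin q, F ((a : ℤ) - (a' : ℤ)).natAbs ≤ 2 * ∑ i ∈ Finset.range q, F i := by
  have ha := a.isLt
  rw [Fin.sum_univ_eq_sum_range (fun n => F ((a : ℤ) - (n : ℤ)).natAbs) q]
  have h1 : ∀ n ∈ Finset.range q, F ((a : ℤ) - (n : ℤ)).natAbs ≤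
      (if n ≤ (a : ℕ) then F ((a : ℕ) - n) else 0) + (if (a : ℕ) < n then F (n - (a : ℕ)) else 0) := by
    intro n _
    rcases Nat.lt_or_ge (a : ℕ) n with h | h
    · rw [if_neg (by omega), if_pos h, zero_add]
      apply le_of_eq; congr 1; omega
    · rw [if_pos h, if_neg (by omega), add_zero]
      apply le_of_eq; congr 1; omega
  refine (Finset.sum_le_sum h1).trans ?_
  rw [Finset.sum_add_distrib, two_mul]
  apply add_le_add
  · rw [← Finset.sum_filter]
    have hinj : Set.InjOn (fun n => (a : ℕ) - n) (Finset.filter (fun n => n ≤ (a : ℕ)) (Finset.range q)) := by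
      intro x hx y hy hxy
      simp only [Finset.coe_filter, Set.mem_ofPred_eq] at hx hy
      simp only at hxy
      omega
    rw [← Finset.sum_image (f := F) hinj]
    apply Finset.sum_le_sum_of_subset_of_nonneg
    · intro x hx
      simp only [Finset.mem_image, Finset.mem_filter, Finset.mem_range] at hx ⊢
      obtain ⟨y, hy, rfl⟩ := hx
      omega
    · intro i _ _; exact hF i
  · rw [← Finset.sum_filter]
    have hinj : Set.InjOn (fun n => n - (a : ℕ)) (Finset.filter (fun n => (a : ℕ) < n) (Finset.range q)) := by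
      intro x hx y hy hxy
      simp only [Finset.coe_filter, Set.mem_ofPred_eq] at hx hy
      simp only at hxy
      omega
    rw [← Finset.sum_image (f := F) hinj]
    apply Finset.sum_le_sum_of_subset_of_nonneg
    · intro x hx
      simp only [Finset.mem_image, Finset.mem_filter, Finset.mem_range] at hx ⊢
      obtain ⟨y, hy, rfl⟩ := hx
      omega
    · intro i _ _; exact hF i

theorem sum_prod_le (q : ℕ) (k : Fin q × Fin q) (F G : ℕ → ℝ) (hF : ∀ n, 0 ≤ F n)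
    (hG : ∀ n, 0 ≤ G n) :
    ∑ l : Fin q × Fin q, F ((k.1 : ℤ) - (l.1 : ℤ)).natAbs * G ((k.2 : ℤ) - (l.2 : ℤ)).natAbs ≤
      (2 * ∑ i ∈ Finset.range q, F i) * (2 * ∑ i ∈ Finset.range q, G i) := by
  rw [Fintype.sum_prod_type]
  simp only
  rw [← Finset.sum_mul_sum]
  apply mul_le_mul (sum_absdiff_le q k.1 F hF) (sum_absdiff_le q k.2 G hG)
  · exact Finset.sum_nonneg fun _ _ => hG _
  · exact mul_nonneg zero_le_two (Finset.sum_nonneg fun _ _ => hF _)

theorem sum_inv_sqrt (q : ℕ) : ∑ i ∈ Finset.range q, 1 / Real.sqrt i ≤ 2 * Real.sqrt q := by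
  have key : ∀ n : ℕ, ∑ i ∈ Finset.range (n + 1), 1 / Real.sqrt i ≤ 2 * Real.sqrt n := by
    intro n
    induction n with
    | zero => simp
    | succ n ih =>
      rw [Finset.sum_range_succ]
      have h1 : 0 < Real.sqrt ((n + 1 : ℕ) : ℝ) := Real.sqrt_pos.2 (by positivity)
      have h2 : 0 ≤ Real.sqrt (n : ℝ) := Real.sqrt_nonneg _
      have h3 : Real.sqrt ((n + 1 : ℕ) : ℝ) ^ 2 = n + 1 := by
        rw [Real.sq_sqrt (by positivity)]; push_cast; ring
      have h4 : Real.sqrt (n : ℝ) ^ 2 = n := Real.sq_sqrt (by positivity)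
      have h5 : 1 / Real.sqrt ((n + 1 : ℕ) : ℝ) ≤
          2 * Real.sqrt ((n + 1 : ℕ) : ℝ) - 2 * Real.sqrt (n : ℝ) := by
        rw [div_le_iff₀ h1]
        nlinarith [sq_nonneg (Real.sqrt ((n + 1 : ℕ) : ℝ) - Real.sqrt (n : ℝ))]
      linarith
  cases q with
  | zero => simp
  | succ n =>
    refine (key n).trans ?_
    apply mul_le_mul_of_nonneg_left _ zero_le_two
    apply Real.sqrt_le_sqrt
    push_cast; linarith

theorem inv_le_inv_sqrt (i : ℕ) : 1 / (i : ℝ) ≤ 1 / Real.sqrt i := by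
  rcases Nat.eq_zero_or_pos i with h | h
  · subst h; simp
  · have hi : (1 : ℝ) ≤ i := by exact_mod_cast h
    apply one_div_le_one_div_of_le (Real.sqrt_pos.2 (by linarith))
    rw [Real.sqrt_le_left (by linarith)]
    nlinarith

theorem inv_sq_le_inv_sqrt (i : ℕ) : 1 / (i : ℝ) ^ 2 ≤ 1 / Real.sqrt i := by
  rcases Nat.eq_zero_or_pos i with h | h
  · subst h; simp
  · have hi : (1 : ℝ) ≤ i := by exact_mod_cast h
    refine le_trans ?_ (inv_le_inv_sqrt i)
    apply one_div_le_one_div_of_le (by linarith)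
    nlinarith

theorem sum_inv (q : ℕ) : ∑ i ∈ Finset.range q, 1 / (i : ℝ) ≤ 2 * Real.sqrt q :=
  (Finset.sum_le_sum fun i _ => inv_le_inv_sqrt i).trans (sum_inv_sqrt q)

theorem sum_inv_sq (q : ℕ) : ∑ i ∈ Finset.range q, 1 / (i : ℝ) ^ 2 ≤ 2 * Real.sqrt q :=
  (Finset.sum_le_sum fun i _ => inv_sq_le_inv_sqrt i).trans (sum_inv_sqrt q)

theorem sum_ind (q : ℕ) : ∑ i ∈ Finset.range q, (if i = 0 then (1 : ℝ) else 0) ≤ 1 := by
  rw [Finset.sum_ite_eq' (Finset.range q) 0 (fun _ => (1 : ℝ))]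
  split_ifs <;> norm_num

/-- harmonic sums are at most `4 q^{1/4}` -/
theorem sum_inv' (q : ℕ) (hq : 0 < q) :
    (∑ i ∈ Finset.range q, 1 / (i : ℝ)) ^ 2 ≤ 16 * Real.sqrt q := by
  have hq1 : (1 : ℝ) ≤ q := by exact_mod_cast hq
  have h1 : ∑ i ∈ Finset.range q, 1 / (i : ℝ) ≤ 1 + Real.log q := by
    have h2 := harmonic_le_one_add_log q
    rw [harmonic] at h2
    push_cast at h2
    refine le_trans ?_ h2
    cases q with
    | zero => simp
    | succ n =>
      rw [Finset.sum_range_succ']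
      simp only [Nat.cast_zero, div_zero, add_zero]
      rw [Finset.sum_range_succ]
      have : ∀ i ∈ Finset.range n, 1 / (((i + 1 : ℕ)) : ℝ) = ((i : ℝ) + 1)⁻¹ := by
        intro i _; push_cast; rw [one_div]
      rw [Finset.sum_congr rfl this]
      have : (0 : ℝ) ≤ ((n : ℝ) + 1)⁻¹ := by positivity
      linarith
  set s := Real.sqrt (Real.sqrt q) with hs
  have hs1 : 1 ≤ s := by
    rw [hs, Real.one_le_sqrt, Real.one_le_sqrt]; exact hq1
  have hs2 : s ^ 2 = Real.sqrt q := Real.sq_sqrt (Real.sqrt_nonneg _)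
  have hs4 : s ^ 4 = q := by
    have : s ^ 4 = (s ^ 2) ^ 2 := by ring
    rw [this, hs2, Real.sq_sqrt (by positivity)]
  have hlog : Real.log q = 4 * Real.log s := by
    rw [← hs4, Real.log_pow]; norm_num
  have hlog2 := Real.log_le_sub_one_of_pos (show 0 < s by linarith)
  have h0 : 0 ≤ ∑ i ∈ Finset.range q, 1 / (i : ℝ) := Finset.sum_nonneg fun i _ => by positivity
  have h3 : ∑ i ∈ Finset.range q, 1 / (i : ℝ) ≤ 4 * s := by linarith
  rw [← hs2]
  nlinarith

/-- pointwise bound -/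
theorem term1 (q : ℕ) (hq : 0 < q) (H : ℝ) (hH : 1 ≤ H) (k l : Fin q × Fin q) :
    1 / ‖Wp q H k - Wp q H l‖ ≤ q * (
      2 * ((1 / (((k.1 : ℤ) - (l.1 : ℤ)).natAbs : ℝ)) *
        (if ((k.2 : ℤ) - (l.2 : ℤ)).natAbs = 0 then (1 : ℝ) else 0)) +
      ((if ((k.1 : ℤ) - (l.1 : ℤ)).natAbs = 0 then (1 : ℝ) else 0) *
        (1 / (((k.2 : ℤ) - (l.2 : ℤ)).natAbs : ℝ))) +
      2 / Real.sqrt H * ((1 / Real.sqrt (((k.1 : ℤ) - (l.1 : ℤ)).natAbs : ℝ)) *
        (1 / Real.sqrt (((k.2 : ℤ) - (l.2 : ℤ)).natAbs : ℝ)))) := by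
  have hq' : (0 : ℝ) < q := by exact_mod_cast hq
  have hre := low_re q hq H hH k l
  have him := low_im q hq H hH k l
  by_cases hkl : k = l
  · subst hkl
    simp
  · have hsep := pattern_sep q hq H hH k l hkl
    have hne : ¬ (((k.1 : ℤ) - (l.1 : ℤ)).natAbs = 0 ∧ ((k.2 : ℤ) - (l.2 : ℤ)).natAbs = 0) := by
      rintro ⟨h1, h2⟩
      apply hkl
      ext
      · omega
      · omega
    set i := ((k.1 : ℤ) - (l.1 : ℤ)).natAbs with hi
    set j := ((k.2 : ℤ) - (l.2 : ℤ)).natAbs with hj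
    set D := ‖Wp q H k - Wp q H l‖ with hD
    have hDpos : 0 < D := lt_of_lt_of_le (by positivity) hsep
    have hsH : 0 < Real.sqrt H := Real.sqrt_pos.2 (by linarith)
    rcases Nat.eq_zero_or_pos i with hi0 | hi0
    · have hj0 : 0 < j := by
        rcases Nat.eq_zero_or_pos j with h | h
        · exact absurd ⟨hi0, h⟩ hne
        · exact h
      have hj1 : (0 : ℝ) < j := by exact_mod_cast hj0
      rw [if_neg hj0.ne', if_pos hi0, hi0]
      simp only [Nat.cast_zero, Real.sqrt_zero, div_zero, mul_zero, zero_mul, add_zero, zero_add,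
        one_mul]
      rw [div_le_iff₀ hDpos]
      have : (q : ℝ) * (1 / j) * D = (q * D) / j := by ring
      rw [this, le_div_iff₀ hj1, one_mul]
      rw [div_le_iff₀ hq'] at him
      nlinarith
    · have hi1 : (0 : ℝ) < i := by exact_mod_cast hi0
      rcases Nat.eq_zero_or_pos j with hj0 | hj0
      · rw [if_pos hj0, if_neg hi0.ne', hj0]
        simp only [Nat.cast_zero, Real.sqrt_zero, div_zero, mul_zero, zero_mul, add_zero, mul_one]
        rw [div_le_iff₀ hDpos]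
        have : (q : ℝ) * (2 * (1 / i)) * D = (2 * q * D) / i := by ring
        rw [this, le_div_iff₀ hi1, one_mul]
        rw [div_le_iff₀ (by positivity)] at hre
        linarith
      · have hj1 : (0 : ℝ) < j := by exact_mod_cast hj0
        rw [if_neg hj0.ne', if_neg hi0.ne']
        simp only [mul_zero, zero_mul, zero_add]
        have hsi : 0 < Real.sqrt i := Real.sqrt_pos.2 hi1
        have hsj : 0 < Real.sqrt j := Real.sqrt_pos.2 hj1
        have h1 : (q : ℝ) * (2 / Real.sqrt H * (1 / Real.sqrt i * (1 / Real.sqrt j))) =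
            2 * q / (Real.sqrt H * Real.sqrt i * Real.sqrt j) := by
          field_simp
        rw [h1, div_le_div_iff₀ hDpos (by positivity), one_mul]
        -- sqrt(H i j) ≤ 2 q D
        rw [← Real.sqrt_mul (by linarith), ← Real.sqrt_mul (by positivity)]
        apply Real.sqrt_le_iff.2
        refine ⟨by positivity, ?_⟩
        rw [div_le_iff₀ (by positivity)] at hre
        rw [div_le_iff₀ hq'] at him
        have h2 : (H * j) * i ≤ (D * q) * (D * (2 * q)) :=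
          mul_le_mul him hre hi1.le (by positivity)
        nlinarith [mul_pos hq' hDpos, sq_nonneg ((q : ℝ) * D)]

theorem term2 (q : ℕ) (hq : 0 < q) (H : ℝ) (hH : 1 ≤ H) (k l : Fin q × Fin q) :
    1 / ‖Wp q H k - Wp q H l‖ ^ 2 ≤ q ^ 2 * (
      4 * ((1 / (((k.1 : ℤ) - (l.1 : ℤ)).natAbs : ℝ) ^ 2) *
        (if ((k.2 : ℤ) - (l.2 : ℤ)).natAbs = 0 then (1 : ℝ) else 0)) +
      ((if ((k.1 : ℤ) - (l.1 : ℤ)).natAbs = 0 then (1 : ℝ) else 0) *
        (1 / (((k.2 : ℤ) - (l.2 : ℤ)).natAbs : ℝ) ^ 2)) +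
      2 * ((1 / (((k.1 : ℤ) - (l.1 : ℤ)).natAbs : ℝ)) *
        (1 / (((k.2 : ℤ) - (l.2 : ℤ)).natAbs : ℝ)))) := by
  have hq' : (0 : ℝ) < q := by exact_mod_cast hq
  have hre := low_re q hq H hH k l
  have him := low_im q hq H hH k l
  by_cases hkl : k = l
  · subst hkl
    simp
  · have hsep := pattern_sep q hq H hH k l hkl
    have hne : ¬ (((k.1 : ℤ) - (l.1 : ℤ)).natAbs = 0 ∧ ((k.2 : ℤ) - (l.2 : ℤ)).natAbs = 0) := by
      rintro ⟨h1, h2⟩
      apply hkl
      ext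
      · omega
      · omega
    set i := ((k.1 : ℤ) - (l.1 : ℤ)).natAbs with hi
    set j := ((k.2 : ℤ) - (l.2 : ℤ)).natAbs with hj
    set D := ‖Wp q H k - Wp q H l‖ with hD
    have hDpos : 0 < D := lt_of_lt_of_le (by positivity) hsep
    rw [div_le_iff₀ (by positivity)] at hre
    rw [div_le_iff₀ hq'] at him
    have hDq : 0 < D * q := by positivity
    rcases Nat.eq_zero_or_pos i with hi0 | hi0
    · have hj0 : 0 < j := by
        rcases Nat.eq_zero_or_pos j with h | h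
        · exact absurd ⟨hi0, h⟩ hne
        · exact h
      have hj1 : (0 : ℝ) < j := by exact_mod_cast hj0
      rw [if_neg hj0.ne', if_pos hi0, hi0]
      simp only [Nat.cast_zero, div_zero, mul_zero, zero_mul, add_zero, zero_add,
        one_mul]
      rw [div_le_iff₀ (by positivity)]
      have : (q : ℝ) ^ 2 * (1 / j ^ 2) * D ^ 2 = (D * q) ^ 2 / j ^ 2 := by ring
      rw [this, le_div_iff₀ (by positivity), one_mul]
      have : (j : ℝ) ≤ D * q := by nlinarith
      exact pow_le_pow_left₀ hj1.le this 2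
    · have hi1 : (0 : ℝ) < i := by exact_mod_cast hi0
      rcases Nat.eq_zero_or_pos j with hj0 | hj0
      · rw [if_pos hj0, if_neg hi0.ne', hj0]
        simp only [Nat.cast_zero, div_zero, mul_zero, zero_mul, add_zero, mul_one]
        rw [div_le_iff₀ (by positivity)]
        have : (q : ℝ) ^ 2 * (4 * (1 / i ^ 2)) * D ^ 2 = (D * (2 * q)) ^ 2 / i ^ 2 := by ring
        rw [this, le_div_iff₀ (by positivity), one_mul]
        exact pow_le_pow_left₀ hi1.le hre 2
      · have hj1 : (0 : ℝ) < j := by exact_mod_cast hj0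
        rw [if_neg hj0.ne', if_neg hi0.ne']
        simp only [mul_zero, zero_mul, zero_add]
        have h1 : (q : ℝ) ^ 2 * (2 * (1 / i * (1 / j))) = 2 * q ^ 2 / (i * j) := by
          field_simp
        rw [h1, div_le_div_iff₀ (by positivity) (by positivity), one_mul]
        have him' : (j : ℝ) ≤ D * q := by nlinarith
        have h2 : (i : ℝ) * j ≤ (D * (2 * q)) * (D * q) :=
          mul_le_mul hre him' hj1.le (by positivity)
        nlinarith

/-- note `1 / 0 = 0`, so the diagonal term vanishes. -/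
theorem pattern_sum1 : ∃ C : ℝ, 0 < C ∧ ∀ (q : ℕ) (_ : 0 < q) (H : ℝ) (_ : 1 ≤ H)
    (k : Fin q × Fin q),
    (1 / (q : ℝ) ^ 2) * ∑ l, 1 / ‖Wp q H k - Wp q H l‖ ≤ C / Real.sqrt H + C / Real.sqrt q := by
  refine ⟨32, by norm_num, ?_⟩
  intro q hq H hH k
  have hq' : (0 : ℝ) < q := by exact_mod_cast hq
  have hsq : 0 < Real.sqrt q := Real.sqrt_pos.2 hq'
  have hsH : 0 < Real.sqrt H := Real.sqrt_pos.2 (by linarith)
  have hsq2 : Real.sqrt q * Real.sqrt q = q := Real.mul_self_sqrt hq'.le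
  have h1 : ∑ l, 1 / ‖Wp q H k - Wp q H l‖ ≤ q * (2 * ((2 * (2 * Real.sqrt q)) * (2 * 1)) +
      (2 * 1) * (2 * (2 * Real.sqrt q)) +
      2 / Real.sqrt H * ((2 * (2 * Real.sqrt q)) * (2 * (2 * Real.sqrt q)))) := by
    refine (Finset.sum_le_sum fun l _ => term1 q hq H hH k l).trans ?_
    rw [← Finset.mul_sum]
    apply mul_le_mul_of_nonneg_left _ hq'.le
    rw [Finset.sum_add_distrib, Finset.sum_add_distrib, ← Finset.mul_sum, ← Finset.mul_sum]
    have nn1 : ∀ n : ℕ, (0 : ℝ) ≤ 1 / (n : ℝ) := fun n => by positivity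
    have nn2 : ∀ n : ℕ, (0 : ℝ) ≤ (if n = 0 then (1 : ℝ) else 0) := fun n => by
      split_ifs <;> norm_num
    have nn3 : ∀ n : ℕ, (0 : ℝ) ≤ 1 / Real.sqrt n := fun n => by positivity
    have s1 := sum_prod_le q k (fun n => 1 / (n : ℝ)) (fun n => if n = 0 then (1 : ℝ) else 0) nn1 nn2
    have s2 := sum_prod_le q k (fun n => if n = 0 then (1 : ℝ) else 0) (fun n => 1 / (n : ℝ)) nn2 nn1
    have s3 := sum_prod_le q k (fun n => 1 / Real.sqrt n) (fun n => 1 / Real.sqrt n) nn3 nn3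
    have b1 := sum_inv q
    have b2 := sum_ind q
    have b3 := sum_inv_sqrt q
    have c1 : 0 ≤ ∑ i ∈ Finset.range q, 1 / (i : ℝ) := Finset.sum_nonneg fun i _ => nn1 i
    have c2 : 0 ≤ ∑ i ∈ Finset.range q, (if i = 0 then (1 : ℝ) else 0) :=
      Finset.sum_nonneg fun i _ => nn2 i
    have c3 : 0 ≤ ∑ i ∈ Finset.range q, 1 / Real.sqrt i := Finset.sum_nonneg fun i _ => nn3 i
    have t1 := s1.trans (mul_le_mul (mul_le_mul_of_nonneg_left b1 zero_le_two)
      (mul_le_mul_of_nonneg_left b2 zero_le_two) (by positivity) (by positivity))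
    have t2 := s2.trans (mul_le_mul (mul_le_mul_of_nonneg_left b2 zero_le_two)
      (mul_le_mul_of_nonneg_left b1 zero_le_two) (by positivity) (by positivity))
    have t3 := s3.trans (mul_le_mul (mul_le_mul_of_nonneg_left b3 zero_le_two)
      (mul_le_mul_of_nonneg_left b3 zero_le_two) (by positivity) (by positivity))
    exact add_le_add (add_le_add (mul_le_mul_of_nonneg_left t1 zero_le_two) t2)
      (mul_le_mul_of_nonneg_left t3 (by positivity))
  calc (1 / (q : ℝ) ^ 2) * ∑ l, 1 / ‖Wp q H k - Wp q H l‖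
      ≤ (1 / (q : ℝ) ^ 2) * (q * (2 * ((2 * (2 * Real.sqrt q)) * (2 * 1)) +
      (2 * 1) * (2 * (2 * Real.sqrt q)) +
      2 / Real.sqrt H * ((2 * (2 * Real.sqrt q)) * (2 * (2 * Real.sqrt q))))) :=
        mul_le_mul_of_nonneg_left h1 (by positivity)
    _ = 32 / Real.sqrt H * (Real.sqrt q * Real.sqrt q / q) + 24 * (Real.sqrt q / q) := by
        field_simp
        ring
    _ = 32 / Real.sqrt H + 24 / Real.sqrt q := by
        rw [hsq2, div_self hq'.ne', mul_one, Real.sqrt_div_self, ← div_eq_mul_inv]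
    _ ≤ 32 / Real.sqrt H + 32 / Real.sqrt q := by
        gcongr
        norm_num

theorem pattern_sum2 : ∃ C : ℝ, 0 < C ∧ ∀ (q : ℕ) (_ : 0 < q) (H : ℝ) (_ : 1 ≤ H)
    (k : Fin q × Fin q),
    (1 / (q : ℝ) ^ 2) * ∑ l, 1 / ‖Wp q H k - Wp q H l‖ ^ 2 ≤ C * Real.sqrt q := by
  refine ⟨168, by norm_num, ?_⟩
  intro q hq H hH k
  have hq' : (0 : ℝ) < q := by exact_mod_cast hq
  have hsq : 0 < Real.sqrt q := Real.sqrt_pos.2 hq'
  have h1 : ∑ l, 1 / ‖Wp q H k - Wp q H l‖ ^ 2 ≤ q ^ 2 * (168 * Real.sqrt q) := by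
    refine (Finset.sum_le_sum fun l _ => term2 q hq H hH k l).trans ?_
    rw [← Finset.mul_sum]
    apply mul_le_mul_of_nonneg_left _ (by positivity)
    rw [Finset.sum_add_distrib, Finset.sum_add_distrib, ← Finset.mul_sum, ← Finset.mul_sum]
    have nn1 : ∀ n : ℕ, (0 : ℝ) ≤ 1 / (n : ℝ) := fun n => by positivity
    have nn2 : ∀ n : ℕ, (0 : ℝ) ≤ (if n = 0 then (1 : ℝ) else 0) := fun n => by
      split_ifs <;> norm_num
    have nn3 : ∀ n : ℕ, (0 : ℝ) ≤ 1 / (n : ℝ) ^ 2 := fun n => by positivity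
    have s1 := sum_prod_le q k (fun n => 1 / (n : ℝ) ^ 2) (fun n => if n = 0 then (1 : ℝ) else 0)
      nn3 nn2
    have s2 := sum_prod_le q k (fun n => if n = 0 then (1 : ℝ) else 0) (fun n => 1 / (n : ℝ) ^ 2)
      nn2 nn3
    have s3 := sum_prod_le q k (fun n => 1 / (n : ℝ)) (fun n => 1 / (n : ℝ)) nn1 nn1
    have b1 := sum_inv_sq q
    have b2 := sum_ind q
    have b3 := sum_inv' q hq
    have c1 : 0 ≤ ∑ i ∈ Finset.range q, 1 / (i : ℝ) ^ 2 := Finset.sum_nonneg fun i _ => nn3 i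
    have c2 : 0 ≤ ∑ i ∈ Finset.range q, (if i = 0 then (1 : ℝ) else 0) :=
      Finset.sum_nonneg fun i _ => nn2 i
    have t1 := s1.trans (mul_le_mul (mul_le_mul_of_nonneg_left b1 zero_le_two)
      (mul_le_mul_of_nonneg_left b2 zero_le_two) (by positivity) (by positivity))
    have t2 := s2.trans (mul_le_mul (mul_le_mul_of_nonneg_left b2 zero_le_two)
      (mul_le_mul_of_nonneg_left b1 zero_le_two) (by positivity) (by positivity))
    have t3 : ∑ l : Fin q × Fin q, (1 / (((k.1 : ℤ) - (l.1 : ℤ)).natAbs : ℝ)) *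
        (1 / (((k.2 : ℤ) - (l.2 : ℤ)).natAbs : ℝ)) ≤ 64 * Real.sqrt q := by
      refine s3.trans ?_
      nlinarith
    have := add_le_add (add_le_add (mul_le_mul_of_nonneg_left t1 (show (0 : ℝ) ≤ 4 by norm_num)) t2)
      (mul_le_mul_of_nonneg_left t3 zero_le_two)
    refine this.trans ?_
    nlinarith
  calc (1 / (q : ℝ) ^ 2) * ∑ l, 1 / ‖Wp q H k - Wp q H l‖ ^ 2
      ≤ (1 / (q : ℝ) ^ 2) * (q ^ 2 * (168 * Real.sqrt q)) :=
        mul_le_mul_of_nonneg_left h1 (by positivity)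
    _ = 168 * Real.sqrt q := by field_simp

end

end NevT.J668

namespace NevT

alias pattern_sep := J668.pattern_sep
alias pattern_sum1 := J668.pattern_sum1
alias pattern_sum2 := J668.pattern_sum2

end NevT
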