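import Pool.Agent.Helper551.NevDefs

set_option autoImplicit false

open Filter Topology

open scoped BigOperators

namespace NevT.J669

noncomputable section

/-- pointwise second order inequality -/
theorem point_ineq (g k x : ℝ) (hx : 0 ≤ x) (hxx : x ^ 2 = (1 + g) ^ 2 + k ^ 2)
    (hu : g ^ 2 + k ^ 2 ≤ (1 / 49) ^ 2) :
    x - 1 - x * g ≤ -(3 / 4) * (x * (g ^ 2 - k ^ 2)) - (1 / 10) * (g ^ 2 + k ^ 2) := by
  have hg : g ^ 2 ≤ (1/49)^2 := by nlinarith [sq_nonneg k]
  have hk : k ^ 2 ≤ (1/49)^2 := by nlinarith [sq_nonneg g]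
  have hg1 : |g| ≤ 1/49 := abs_le_of_sq_le_sq hg (by norm_num)
  obtain ⟨hg2, hg3⟩ := abs_le.1 hg1
  have key : x * (1 - g + 3/4 * (g^2 - k^2)) ≤ 1 - 1/10 * (g^2 + k^2) := by
    apply le_of_sq_le_sq _ (by nlinarith)
    rw [mul_pow, hxx]
    set u := g^2 with hu'
    set v := k^2 with hv'
    have hu0 : 0 ≤ u := sq_nonneg g
    have hv0 : 0 ≤ v := sq_nonneg k
    have h1 : ((1 + g)^2 + v) * (1 - g + 3/4 * (u - v))^2 = (1 - u + 3/4 * (u - v) * (1 + g))^2 + v * (1 - g + 3/4 * (u - v))^2 := by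
      rw [hu']; ring
    rw [h1]
    have h2 : |3/4 * (u - v) * g| ≤ 3/4 * (u + v) * (1/49) := by
      rw [abs_mul, abs_mul]
      have : |u - v| ≤ u + v := by rw [abs_le]; constructor <;> linarith
      have h3 : |(3/4:ℝ)| = 3/4 := by norm_num
      rw [h3]
      gcongr
    have hA : 1 - u + 3/4 * (u - v) * (1 + g) ≤ 1 - 0.25 * u - 0.75 * v + 3/4 * (u + v) * (1/49) := by
      have := (abs_le.1 h2).2
      nlinarith
    have hA0 : 0 ≤ 1 - u + 3/4 * (u - v) * (1 + g) := by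
      have := (abs_le.1 h2).1
      nlinarith
    have hB : |1 - g + 3/4 * (u - v)| ≤ 1 + 2/49 := by
      rw [abs_le]; constructor <;> nlinarith
    have hB2 : (1 - g + 3/4 * (u - v))^2 ≤ (1 + 2/49)^2 := by
      rw [← sq_abs]; gcongr
    have hA2 : (1 - u + 3/4 * (u - v) * (1 + g))^2 ≤ (1 - 0.25 * u - 0.75 * v + 3/4 * (u + v) * (1/49))^2 := by
      gcongr
    have hB3 : v * (1 - g + 3/4 * (u - v))^2 ≤ v * (1 + 2/49)^2 := by gcongr
    have hP0 : 0 ≤ 0.25 * u + 0.75 * v - 3/4 * (u + v) * (1/49) := by nlinarith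
    have hP1 : 0.25 * u + 0.75 * v - 3/4 * (u + v) * (1/49) ≤ u + v := by nlinarith
    have hP2 : (0.25 * u + 0.75 * v - 3/4 * (u + v) * (1/49))^2 ≤ (u + v) * (1/49)^2 := by
      have h5 : (0.25 * u + 0.75 * v - 3/4 * (u + v) * (1/49))^2 ≤ (u + v)^2 := by gcongr
      have h6 : (u + v) * (u + v) ≤ (u + v) * (1/49)^2 := by gcongr
      nlinarith
    have : (1 - 0.25 * u - 0.75 * v + 3/4 * (u + v) * (1/49))^2 + v * (1 + 2/49)^2 ≤ (1 - 1/10 * (u + v))^2 := by
      have h7 : (1 - 0.25 * u - 0.75 * v + 3/4 * (u + v) * (1/49))^2 = 1 - 2 * (0.25 * u + 0.75 * v - 3/4 * (u + v) * (1/49)) + (0.25 * u + 0.75 * v - 3/4 * (u + v) * (1/49))^2 := by ring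
      have h8 : (1 - 1/10 * (u + v))^2 = 1 - 1/5 * (u + v) + (1/10 * (u + v))^2 := by ring
      rw [h7, h8]
      have h9 : 0 ≤ (1/10 * (u + v))^2 := sq_nonneg _
      linarith
    linarith
  nlinarith

theorem fix_exists {ι : Type} [Fintype ι] (W : ι → ℂ) (c : ℝ) (hc : 0 < c)
    (hrow : ∀ k, c * ∑ l, 1 / ‖W k - W l‖ ≤ 1 / 50) (e : ℂ) (he : ‖e‖ = 1) :
    ∃ y : ι → ℂ, (∀ k, y k = e + ∑ l, ((c * ‖y l‖ : ℝ) : ℂ) / (W k - W l)) ∧
      (∀ k, ‖y k - e‖ ≤ 1 / 49) := by
  let T : (ι → ℂ) → (ι → ℂ) := fun y k => e + ∑ l, ((c * ‖y l‖ : ℝ) : ℂ) / (W k - W l)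
  have hlip : ContractingWith (1/50) T := by
    refine ⟨by rw [← NNReal.coe_lt_coe]; norm_num, LipschitzWith.of_dist_le_mul fun y y' => ?_⟩
    have h50 : ((1/50 : NNReal) : ℝ) = 1/50 := by norm_num
    rw [h50, dist_pi_le_iff (by positivity)]
    intro k
    rw [dist_eq_norm]
    have h1 : T y k - T y' k = ∑ l, ((c * (‖y l‖ - ‖y' l‖) : ℝ) : ℂ) / (W k - W l) := by
      simp only [T, add_sub_add_left_eq_sub, ← Finset.sum_sub_distrib]
      apply Finset.sum_congr rfl
      intro l _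
      rw [← sub_div]
      push_cast
      ring
    rw [h1]
    calc ‖∑ l, ((c * (‖y l‖ - ‖y' l‖) : ℝ) : ℂ) / (W k - W l)‖
        ≤ ∑ l, ‖((c * (‖y l‖ - ‖y' l‖) : ℝ) : ℂ) / (W k - W l)‖ := norm_sum_le _ _
      _ ≤ ∑ l, c * dist y y' * (1 / ‖W k - W l‖) := by
          apply Finset.sum_le_sum
          intro l _
          rw [norm_div, Complex.norm_real, div_eq_mul_one_div, norm_mul, Real.norm_of_nonneg hc.le]
          gcongr
          calc ‖‖y l‖ - ‖y' l‖‖ ≤ ‖y l - y' l‖ := abs_norm_sub_norm_le _ _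
            _ = dist (y l) (y' l) := (dist_eq_norm _ _).symm
            _ ≤ dist y y' := dist_le_pi_dist _ _ _
      _ = (c * ∑ l, 1 / ‖W k - W l‖) * dist y y' := by rw [← Finset.mul_sum]; ring
      _ ≤ 1 / 50 * dist y y' := by gcongr; exact hrow k
  obtain ⟨y, hy⟩ : ∃ y, T y = y := ⟨ContractingWith.fixedPoint T hlip, hlip.fixedPoint_isFixedPt⟩
  have hyk : ∀ k, y k = e + ∑ l, ((c * ‖y l‖ : ℝ) : ℂ) / (W k - W l) := fun k => (congrFun hy k).symm
  have hb : ∀ k, ‖y k - e‖ ≤ 1 / 50 * ‖y‖ := by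
    intro k
    have h1 : y k - e = ∑ l, ((c * ‖y l‖ : ℝ) : ℂ) / (W k - W l) := by
      have := hyk k
      exact sub_eq_of_eq_add' this
    rw [h1]
    calc ‖∑ l, ((c * ‖y l‖ : ℝ) : ℂ) / (W k - W l)‖
        ≤ ∑ l, ‖((c * ‖y l‖ : ℝ) : ℂ) / (W k - W l)‖ := norm_sum_le _ _
      _ ≤ ∑ l, c * ‖y‖ * (1 / ‖W k - W l‖) := by
          apply Finset.sum_le_sum
          intro l _
          rw [norm_div, Complex.norm_real, div_eq_mul_one_div, norm_mul, Real.norm_of_nonneg hc.le]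
          gcongr
          rw [norm_norm]
          exact norm_le_pi_norm y l
      _ = (c * ∑ l, 1 / ‖W k - W l‖) * ‖y‖ := by rw [← Finset.mul_sum]; ring
      _ ≤ 1 / 50 * ‖y‖ := by gcongr; exact hrow k
  have hn : ‖y‖ ≤ 50 / 49 := by
    have : ‖y‖ ≤ 1 + 1 / 50 * ‖y‖ := by
      rw [pi_norm_le_iff_of_nonneg (by positivity)]
      intro k
      calc ‖y k‖ = ‖e + (y k - e)‖ := by ring_nf
        _ ≤ ‖e‖ + ‖y k - e‖ := norm_add_le _ _
        _ ≤ 1 + 1 / 50 * ‖y‖ := by rw [he]; gcongr; exact hb k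
    linarith
  refine ⟨y, hyk, fun k => (hb k).trans (by linarith)⟩

theorem triple_pt {ι : Type} [DecidableEq ι] (W : ι → ℂ) (hW : Function.Injective W) (k l p : ι) :
    1 / (W k - W l) * (1 / (W k - W p)) + 1 / (W l - W k) * (1 / (W l - W p)) +
      1 / (W p - W k) * (1 / (W p - W l)) =
    (if l = p then (1 / (W k - W l)) ^ 2 else 0) + (if k = p then (1 / (W l - W k)) ^ 2 else 0) +
      (if k = l then (1 / (W p - W k)) ^ 2 else 0) := by
  by_cases h1 : k = l
  · subst h1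
    by_cases h2 : k = p
    · subst h2; simp
    · simp [h2, sq]
  · by_cases h2 : l = p
    · subst h2
      simp [h1, sq]
    · by_cases h3 : k = p
      · subst h3
        simp [h1, h2, sq]
      · simp only [h1, h2, h3, if_false]
        have e1 : W k - W l ≠ 0 := sub_ne_zero.2 (hW.ne h1)
        have e2 : W l - W p ≠ 0 := sub_ne_zero.2 (hW.ne h2)
        have e3 : W k - W p ≠ 0 := sub_ne_zero.2 (hW.ne h3)
        have e4 : W l - W k ≠ 0 := sub_ne_zero.2 (hW.ne (Ne.symm h1))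
        have e5 : W p - W l ≠ 0 := sub_ne_zero.2 (hW.ne (Ne.symm h2))
        have e6 : W p - W k ≠ 0 := sub_ne_zero.2 (hW.ne (Ne.symm h3))
        field_simp
        ring

theorem triple_sum {ι : Type} [Fintype ι] [DecidableEq ι] (W : ι → ℂ) (hW : Function.Injective W)
    (x : ι → ℂ) :
    ∑ k, x k * (∑ l, x l * (1 / (W k - W l))) ^ 2 =
      ∑ k, ∑ l, x k * x l ^ 2 * (1 / (W k - W l)) ^ 2 := by
  set F : ι → ι → ι → ℂ := fun k l p => x k * x l * x p * (1 / (W k - W l) * (1 / (W k - W p))) with hF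
  have h0 : ∑ k, x k * (∑ l, x l * (1 / (W k - W l))) ^ 2 = ∑ k, ∑ l, ∑ p, F k l p := by
    apply Finset.sum_congr rfl
    intro k _
    rw [sq, Finset.sum_mul_sum, Finset.mul_sum]
    apply Finset.sum_congr rfl
    intro l _
    rw [Finset.mul_sum]
    apply Finset.sum_congr rfl
    intro p _
    simp only [hF]
    ring
  have h1 : ∑ k, ∑ l, ∑ p, F k l p = ∑ k, ∑ l, ∑ p, F l k p := Finset.sum_comm
  have h2 : ∑ k, ∑ l, ∑ p, F k l p = ∑ k, ∑ l, ∑ p, F p k l := by
    calc ∑ k, ∑ l, ∑ p, F k l p = ∑ l, ∑ k, ∑ p, F k l p := Finset.sum_comm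
      _ = ∑ l, ∑ p, ∑ k, F k l p := by
          apply Finset.sum_congr rfl
          intro l _
          exact Finset.sum_comm
  set R := ∑ k, ∑ l, x k * x l ^ 2 * (1 / (W k - W l)) ^ 2 with hR
  have h3 : (∑ k, ∑ l, ∑ p, F k l p) + (∑ k, ∑ l, ∑ p, F l k p) + (∑ k, ∑ l, ∑ p, F p k l) = R + R + R := by
    simp only [← Finset.sum_add_distrib]
    have h4 : ∀ k l p, F k l p + F l k p + F p k l =
        (if l = p then x k * x l * x p * (1 / (W k - W l)) ^ 2 else 0) + (if k = p then x k * x l * x p * (1 / (W l - W k)) ^ 2 else 0) +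
      (if k = l then x k * x l * x p * (1 / (W p - W k)) ^ 2 else 0) := by
      intro k l p
      have := triple_pt W hW k l p
      have h5 : F k l p + F l k p + F p k l = x k * x l * x p * (1 / (W k - W l) * (1 / (W k - W p)) + 1 / (W l - W k) * (1 / (W l - W p)) +
      1 / (W p - W k) * (1 / (W p - W l))) := by
        simp only [hF]; ring
      rw [h5, this]
      simp only [mul_add, mul_ite, mul_zero]
    simp only [h4]
    simp only [Finset.sum_add_distrib]
    congr 1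
    · congr 1
      · rw [hR]
        apply Finset.sum_congr rfl
        intro k _
        apply Finset.sum_congr rfl
        intro l _
        rw [Finset.sum_ite_eq]
        simp only [Finset.mem_univ, if_true]
        ring
      · rw [hR, Finset.sum_comm]
        apply Finset.sum_congr rfl
        intro k _
        apply Finset.sum_congr rfl
        intro l _
        rw [Finset.sum_ite_eq]
        simp only [Finset.mem_univ, if_true]
        ring
    · rw [hR]
      rw [Finset.sum_comm' (t' := Finset.univ) (s' := fun _ => Finset.univ) (by simp)]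
      calc ∑ l, ∑ k, ∑ p, (if k = l then x k * x l * x p * (1 / (W p - W k)) ^ 2 else 0)
          = ∑ l, ∑ p, ∑ k, (if k = l then x k * x l * x p * (1 / (W p - W k)) ^ 2 else 0) := by
            apply Finset.sum_congr rfl
            intro l _
            exact Finset.sum_comm
        _ = ∑ l, ∑ p, x l * x l * x p * (1 / (W p - W l)) ^ 2 := by
            apply Finset.sum_congr rfl
            intro l _
            apply Finset.sum_congr rfl
            intro p _
            rw [Finset.sum_ite_eq']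
            simp
        _ = ∑ p, ∑ l, x l * x l * x p * (1 / (W p - W l)) ^ 2 := Finset.sum_comm
        _ = _ := by
            apply Finset.sum_congr rfl
            intro l _
            apply Finset.sum_congr rfl
            intro p _
            ring
  rw [← h1, ← h2] at h3
  rw [h0]
  linear_combination h3 / 3

theorem anti_sum {ι : Type} [Fintype ι] (W : ι → ℂ) (x : ι → ℂ) :
    ∑ k, x k * (∑ l, x l * (1 / (W k - W l))) = 0 := by
  have h0 : ∑ k, x k * (∑ l, x l * (1 / (W k - W l))) = ∑ k, ∑ l, x k * x l * (1 / (W k - W l)) := by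
    apply Finset.sum_congr rfl
    intro k _
    rw [Finset.mul_sum]
    apply Finset.sum_congr rfl
    intro l _
    ring
  have h1 : ∑ k, ∑ l, x k * x l * (1 / (W k - W l)) = ∑ k, ∑ l, x l * x k * (1 / (W l - W k)) := Finset.sum_comm
  have h2 : ∑ k, ∑ l, x l * x k * (1 / (W l - W k)) = - ∑ k, ∑ l, x k * x l * (1 / (W k - W l)) := by
    rw [← Finset.sum_neg_distrib]
    apply Finset.sum_congr rfl
    intro k _
    rw [← Finset.sum_neg_distrib]
    apply Finset.sum_congr rfl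
    intro l _
    rw [← neg_sub (W k) (W l)]
    rw [one_div_neg_eq_neg_one_div]
    ring
  rw [h0]
  linear_combination (h1 + h2) / 2

theorem W_sum {ι : Type} [Fintype ι] [DecidableEq ι] (W : ι → ℂ) (hW : Function.Injective W) (x : ι → ℂ) :
    ∑ k, x k * W k * (∑ l, x l * (1 / (W k - W l))) = (∑ k, ∑ l, if k = l then 0 else x k * x l) / 2 := by
  have h0 : ∑ k, x k * W k * (∑ l, x l * (1 / (W k - W l))) = ∑ k, ∑ l, x k * x l * W k * (1 / (W k - W l)) := by
    apply Finset.sum_congr rfl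
    intro k _
    rw [Finset.mul_sum]
    apply Finset.sum_congr rfl
    intro l _
    ring
  have h1 : ∑ k, ∑ l, x k * x l * W k * (1 / (W k - W l)) = ∑ k, ∑ l, x l * x k * W l * (1 / (W l - W k)) := Finset.sum_comm
  have h2 : (∑ k, ∑ l, x k * x l * W k * (1 / (W k - W l))) + (∑ k, ∑ l, x l * x k * W l * (1 / (W l - W k))) = ∑ k, ∑ l, if k = l then 0 else x k * x l := by
    rw [← Finset.sum_add_distrib]
    apply Finset.sum_congr rfl
    intro k _
    rw [← Finset.sum_add_distrib]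
    apply Finset.sum_congr rfl
    intro l _
    by_cases h : k = l
    · subst h; simp
    · rw [if_neg h, ← neg_sub (W k) (W l), one_div_neg_eq_neg_one_div]
      have : W k - W l ≠ 0 := sub_ne_zero.2 (hW.ne h)
      field_simp
      ring
  rw [h0]
  linear_combination (h1 + h2) / 2

/-- Improvement inequality (abstract form).  `κ` bounds the row sums of `1/|W k - W l|`. -/
theorem improvement {ι : Type} [Fintype ι] [DecidableEq ι] (W : ι → ℂ)
    (hW : Function.Injective W) (m B D : ℝ) (hm : 0 < m) (hB : 0 < B)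
    (hcard : 2 ≤ Fintype.card ι)
    (hWB : ∀ k, ‖W k‖ ≤ B)
    (hrow : ∀ k, (m / Fintype.card ι) * ∑ l, 1 / ‖W k - W l‖ ≤ 1 / 50)
    (hsq : ∀ k, (1 / (Fintype.card ι : ℝ)) * ∑ l, 1 / ‖W k - W l‖ ^ 2 ≤ D)
    (e : ℂ) (he : ‖e‖ = 1) :
    ∃ y : ι → ℂ,
      (∀ k, y k = e + ∑ l, ((m / Fintype.card ι * ‖y l‖ : ℝ) : ℂ) / (W k - W l)) ∧
      (∀ k, ‖y k - e‖ ≤ 1 / 20) ∧
      (m / Fintype.card ι) * ∑ k, ‖y k‖ ≤
        m * (1 - m ^ 2 / (1000 * B ^ 2) + 10 * m ^ 2 * D / Fintype.card ι) := by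
  have hJ2 : (2:ℝ) ≤ (Fintype.card ι : ℝ) := by exact_mod_cast hcard
  set J : ℝ := (Fintype.card ι : ℝ) with hJ
  have hJ0 : 0 < J := by linarith
  have hmJ : 0 < m / J := by positivity
  obtain ⟨y, hy, hye⟩ := fix_exists W (m / J) hmJ hrow e he
  refine ⟨y, hy, fun k => (hye k).trans (by norm_num), ?_⟩
  obtain ⟨c, hc⟩ : ∃ c, c = m / J := ⟨_, rfl⟩
  have hc0 : 0 < c := hc ▸ hmJ
  have hcJ : c * J = m := by rw [hc]; field_simp
  rw [← hc] at hy hrow ⊢
  obtain ⟨x, hx⟩ : ∃ x : ι → ℝ, ∀ k, x k = ‖y k‖ := ⟨fun k => ‖y k‖, fun _ => rfl⟩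
  have hxu : ∀ k, x k ≤ 50 / 49 := by
    intro k
    have h1 : ‖y k‖ ≤ ‖y k - e‖ + ‖e‖ := by
      simpa using norm_add_le (y k - e) e
    rw [hx]; rw [he] at h1
    linarith [hye k]
  have hxl : ∀ k, 48 / 49 ≤ x k := by
    intro k
    have h1 : ‖e‖ ≤ ‖y k‖ + ‖y k - e‖ := by
      have := norm_sub_le (y k) (y k - e)
      simpa using this
    rw [hx]; rw [he] at h1
    linarith [hye k]
  have hx0 : ∀ k, 0 ≤ x k := fun k => by linarith [hxl k]
  obtain ⟨e', he'⟩ : ∃ e' : ℂ, e' = (starRingEnd ℂ) e := ⟨_, rfl⟩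
  have hen : ‖e'‖ = 1 := by rw [he', RCLike.norm_conj, he]
  have hee : e' * e = 1 := by
    rw [he', Complex.conj_mul', he]; simp
  obtain ⟨δ, hδdef⟩ : ∃ δ : ι → ℂ, ∀ k, δ k = e' * y k - 1 := ⟨fun k => e' * y k - 1, fun _ => rfl⟩
  have hδ : ∀ k, δ k = e' * c * ∑ l, (x l : ℂ) * (1 / (W k - W l)) := by
    intro k
    have h1 := hy k
    have h2 : ∑ l, ((c * ‖y l‖ : ℝ) : ℂ) / (W k - W l) = c * ∑ l, (x l : ℂ) * (1 / (W k - W l)) := by
      rw [Finset.mul_sum]
      apply Finset.sum_congr rfl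
      intro l _
      rw [← hx]
      push_cast
      ring
    rw [h2] at h1
    rw [hδdef, h1]
    linear_combination hee
  have hδn : ∀ k, ‖δ k‖ ≤ 1 / 49 := by
    intro k
    have : δ k = e' * (y k - e) := by rw [hδdef]; linear_combination hee
    rw [this, norm_mul, hen, one_mul]
    exact hye k
  have hs1 : ∑ k, (x k : ℂ) * δ k = 0 := by
    have h := anti_sum W (fun k => (x k : ℂ))
    calc ∑ k, (x k : ℂ) * δ k = e' * c * ∑ k, (x k : ℂ) * (∑ l, (x l : ℂ) * (1 / (W k - W l))) := by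
          rw [Finset.mul_sum]
          apply Finset.sum_congr rfl
          intro k _
          rw [hδ k]; ring
      _ = 0 := by rw [h, mul_zero]
  have hs2 : ‖∑ k, (x k : ℂ) * δ k ^ 2‖ ≤ 1.07 * m ^ 2 * D := by
    have h := triple_sum W hW (fun k => (x k : ℂ))
    have h1 : ∑ k, (x k : ℂ) * δ k ^ 2 = (e' * c) ^ 2 * ∑ k, ∑ l, (x k : ℂ) * (x l : ℂ) ^ 2 * (1 / (W k - W l)) ^ 2 := by
      rw [← h, Finset.mul_sum]
      apply Finset.sum_congr rfl
      intro k _
      rw [hδ k]; ring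
    rw [h1, norm_mul, norm_pow, norm_mul, hen, one_mul, Complex.norm_real, Real.norm_of_nonneg hc0.le]
    have h2 : ‖∑ k, ∑ l, (x k : ℂ) * (x l : ℂ) ^ 2 * (1 / (W k - W l)) ^ 2‖ ≤ J * ((50/49)^3 * (J * D)) := by
      calc ‖∑ k, ∑ l, (x k : ℂ) * (x l : ℂ) ^ 2 * (1 / (W k - W l)) ^ 2‖
          ≤ ∑ k, ‖∑ l, (x k : ℂ) * (x l : ℂ) ^ 2 * (1 / (W k - W l)) ^ 2‖ := norm_sum_le _ _
        _ ≤ ∑ k : ι, ((50/49)^3 * (J * D)) := by
            apply Finset.sum_le_sum
            intro k _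
            calc ‖∑ l, (x k : ℂ) * (x l : ℂ) ^ 2 * (1 / (W k - W l)) ^ 2‖
                ≤ ∑ l, ‖(x k : ℂ) * (x l : ℂ) ^ 2 * (1 / (W k - W l)) ^ 2‖ := norm_sum_le _ _
              _ ≤ ∑ l, (50/49)^3 * (1 / ‖W k - W l‖ ^ 2) := by
                  apply Finset.sum_le_sum
                  intro l _
                  rw [norm_mul, norm_mul, norm_pow, norm_pow, norm_div, norm_one, div_pow, one_pow,
                    Complex.norm_real, Complex.norm_real, Real.norm_of_nonneg (hx0 k), Real.norm_of_nonneg (hx0 l)]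
                  have : x k * x l ^ 2 ≤ (50/49)^3 := by
                    calc x k * x l ^ 2 ≤ (50/49) * (50/49)^2 := by
                          have h1 := hxu k
                          have h2 := hxu l
                          have h3 := hx0 k
                          have h4 := hx0 l
                          gcongr
                      _ = (50/49)^3 := by norm_num
                  gcongr
              _ = (50/49)^3 * ∑ l, 1 / ‖W k - W l‖ ^ 2 := by rw [Finset.mul_sum]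
              _ ≤ (50/49)^3 * (J * D) := by
                  have h3 := hsq k
                  have h4 : ∑ l, 1 / ‖W k - W l‖ ^ 2 ≤ J * D := by
                    calc ∑ l, 1 / ‖W k - W l‖ ^ 2 = J * (1 / J * ∑ l, 1 / ‖W k - W l‖ ^ 2) := by field_simp
                      _ ≤ J * D := by gcongr
                  gcongr
        _ = J * ((50/49)^3 * (J * D)) := by simp [hJ]
    have hD0 : 0 ≤ D := by
      obtain ⟨k⟩ : Nonempty ι := Fintype.card_pos_iff.1 (by omega)
      exact le_trans (by positivity) (hsq k)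
    calc c ^ 2 * ‖∑ k, ∑ l, (x k : ℂ) * (x l : ℂ) ^ 2 * (1 / (W k - W l)) ^ 2‖ ≤ c ^ 2 * (J * ((50/49)^3 * (J * D))) := by gcongr
      _ = (50/49)^3 * (c * J) ^ 2 * D := by ring
      _ = (50/49)^3 * m ^ 2 * D := by rw [hcJ]
      _ ≤ 1.07 * m ^ 2 * D := by gcongr; norm_num
  have hD0 : 0 ≤ D := by
    obtain ⟨k⟩ : Nonempty ι := Fintype.card_pos_iff.1 (by omega)
    exact le_trans (by positivity) (hsq k)
  have hpt : ∀ k, x k - 1 - ((x k : ℂ) * δ k).re ≤ -(3/4) * ((x k : ℂ) * δ k ^ 2).re - 1/10 * ‖δ k‖^2 := by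
    intro k
    have h1 : x k ^ 2 = (1 + (δ k).re) ^ 2 + (δ k).im ^ 2 := by
      have h2 : e' * y k = 1 + δ k := by rw [hδdef]; ring
      have h3 : ‖e' * y k‖ = x k := by rw [norm_mul, hen, one_mul, hx]
      rw [← h3, h2, Complex.sq_norm, Complex.normSq_apply]
      simp
      ring
    have h2 : ‖δ k‖ ^ 2 = (δ k).re ^ 2 + (δ k).im ^ 2 := by
      rw [Complex.sq_norm, Complex.normSq_apply]; ring
    have h3 : (δ k).re ^ 2 + (δ k).im ^ 2 ≤ (1/49)^2 := by
      rw [← h2]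
      have := hδn k
      gcongr
    have h4 := point_ineq (δ k).re (δ k).im (x k) (hx0 k) h1 h3
    rw [Complex.re_ofReal_mul, Complex.re_ofReal_mul, h2]
    have h5 : (δ k ^ 2).re = (δ k).re ^ 2 - (δ k).im ^ 2 := by
      rw [sq, Complex.mul_re]; ring
    rw [h5]
    exact h4
  have hsum : ∑ k, x k - J ≤ 3/4 * (1.07 * m ^ 2 * D) - 1/10 * ∑ k, ‖δ k‖ ^ 2 := by
    have h1 := Finset.sum_le_sum (fun k (_ : k ∈ (Finset.univ : Finset ι)) => hpt k)
    have h2 : ∑ k, (x k - 1 - ((x k : ℂ) * δ k).re) = ∑ k, x k - J - (∑ k, (x k : ℂ) * δ k).re := by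
      rw [Complex.re_sum, Finset.sum_sub_distrib, Finset.sum_sub_distrib]
      simp [hJ]
    have h3 : ∑ k, (-(3/4) * ((x k : ℂ) * δ k ^ 2).re - 1/10 * ‖δ k‖^2) = -(3/4) * (∑ k, (x k : ℂ) * δ k ^ 2).re - 1/10 * ∑ k, ‖δ k‖ ^ 2 := by
      rw [Complex.re_sum, Finset.sum_sub_distrib, Finset.mul_sum, Finset.mul_sum]
    rw [h2, h3, hs1] at h1
    have h4 : -(∑ k, (x k : ℂ) * δ k ^ 2).re ≤ 1.07 * m ^ 2 * D := by
      have h5 := Complex.abs_re_le_norm (∑ k, (x k : ℂ) * δ k ^ 2)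
      have h6 := neg_abs_le (∑ k, (x k : ℂ) * δ k ^ 2).re
      linarith
    simp only [Complex.zero_re, sub_zero] at h1
    linarith
  have hlow : 0.05 * m ^ 2 * J / B ^ 2 ≤ ∑ k, ‖δ k‖ ^ 2 := by
    have h := W_sum W hW (fun k => (x k : ℂ))
    have h1 : ∑ k, (x k : ℂ) * W k * δ k = e' * c * ((∑ k, ∑ l, if k = l then 0 else (x k : ℂ) * x l) / 2) := by
      rw [← h, Finset.mul_sum]
      apply Finset.sum_congr rfl
      intro k _
      rw [hδ k]; ring
    have h2 : ‖∑ k, ∑ l, if k = l then 0 else (x k : ℂ) * x l‖ = ∑ k, ∑ l, if k = l then 0 else x k * x l := by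
      have h3 : (∑ k, ∑ l, if k = l then 0 else (x k : ℂ) * x l) = ((∑ k, ∑ l, if k = l then 0 else x k * x l : ℝ) : ℂ) := by
        push_cast
        apply Finset.sum_congr rfl
        intro k _
        apply Finset.sum_congr rfl
        intro l _
        split_ifs <;> simp
      rw [h3, Complex.norm_real, Real.norm_of_nonneg]
      apply Finset.sum_nonneg
      intro k _
      apply Finset.sum_nonneg
      intro l _
      split_ifs
      · exact le_rfl
      · exact mul_nonneg (hx0 k) (hx0 l)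
    have h3 : (48/49)^2 * (J * (J - 1)) ≤ ∑ k, ∑ l, if k = l then 0 else x k * x l := by
      have h4 : ∑ k : ι, ∑ l : ι, (if k = l then (0:ℝ) else (48/49)^2) = (48/49)^2 * (J * (J - 1)) := by
        have h5 : ∀ k : ι, ∑ l : ι, (if k = l then (0:ℝ) else (48/49)^2) = (48/49)^2 * (J - 1) := by
          intro k
          have : ∀ l : ι, (if k = l then (0:ℝ) else (48/49)^2) = (48/49)^2 - (if k = l then (48/49)^2 else 0) := by
            intro l; split_ifs <;> ring
          simp only [this]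
          rw [Finset.sum_sub_distrib, Finset.sum_ite_eq]
          simp [← hJ]
          ring
        simp only [h5]
        simp [← hJ]
        ring
      rw [← h4]
      apply Finset.sum_le_sum
      intro k _
      apply Finset.sum_le_sum
      intro l _
      split_ifs
      · exact le_rfl
      · have h1 := hxl k
        have h2 := hxl l
        nlinarith
    have h4 : ‖∑ k, (x k : ℂ) * W k * δ k‖ ≤ 50/49 * B * ∑ k, ‖δ k‖ := by
      calc ‖∑ k, (x k : ℂ) * W k * δ k‖ ≤ ∑ k, ‖(x k : ℂ) * W k * δ k‖ := norm_sum_le _ _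
        _ ≤ ∑ k, 50/49 * B * ‖δ k‖ := by
            apply Finset.sum_le_sum
            intro k _
            rw [norm_mul, norm_mul, Complex.norm_real, Real.norm_of_nonneg (hx0 k)]
            have h1 := hxu k
            have h2 := hWB k
            gcongr
        _ = _ := by rw [Finset.mul_sum]
    rw [h1, norm_mul, norm_mul, hen, one_mul, Complex.norm_real, Real.norm_of_nonneg hc0.le, norm_div, h2] at h4
    have h5 : 0.23 * m * J ≤ 50/49 * B * ∑ k, ‖δ k‖ := by
      refine le_trans ?_ h4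
      have h6 : ‖(2:ℂ)‖ = 2 := by simp
      rw [h6]
      calc 0.23 * m * J ≤ c * ((48/49)^2 * (J * (J - 1)) / 2) := by
            have h7 : c * ((48/49)^2 * (J * (J - 1)) / 2) = (c * J) * ((48/49)^2 / 2 * (J - 1)) := by ring
            rw [h7, hcJ]
            have h8 : 0.23 * J ≤ (48/49)^2 / 2 * (J - 1) := by
              nlinarith
            calc 0.23 * m * J = m * (0.23 * J) := by ring
              _ ≤ m * ((48/49)^2 / 2 * (J - 1)) := by gcongr
        _ ≤ _ := by gcongr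
    have h6 : (∑ k, ‖δ k‖) ^ 2 ≤ J * ∑ k, ‖δ k‖ ^ 2 := by
      have := sq_sum_le_card_mul_sum_sq (s := (Finset.univ : Finset ι)) (f := fun k => ‖δ k‖)
      simpa [← hJ] using this
    have h7 : (0.23 * m * J) ^ 2 ≤ (50/49 * B) ^ 2 * (J * ∑ k, ‖δ k‖ ^ 2) := by
      calc (0.23 * m * J) ^ 2 ≤ (50/49 * B * ∑ k, ‖δ k‖) ^ 2 := by gcongr
        _ = (50/49 * B) ^ 2 * (∑ k, ‖δ k‖) ^ 2 := by ring
        _ ≤ _ := by gcongr
    rw [div_le_iff₀ (by positivity)]
    have h8 : (0.23 * m) ^ 2 * J ≤ (50/49 * B) ^ 2 * ∑ k, ‖δ k‖ ^ 2 := by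
      have : J * ((0.23 * m) ^ 2 * J) ≤ J * ((50/49 * B) ^ 2 * ∑ k, ‖δ k‖ ^ 2) := by linarith
      exact le_of_mul_le_mul_left this hJ0
    have h9 : 0 ≤ B ^ 2 * ∑ k, ‖δ k‖ ^ 2 := by positivity
    nlinarith [mul_pos (pow_pos hm 2) hJ0]
  have hfin : ∑ k, ‖y k‖ = ∑ k, x k := by simp only [hx]
  rw [hfin]
  have h1 : ∑ k, x k ≤ J + 10 * m ^ 2 * D - 0.005 * (m ^ 2 * J / B ^ 2) := by
    have h2 : 0 ≤ m ^ 2 * D := by positivity
    have h3 : 0.05 * m ^ 2 * J / B ^ 2 = 0.05 * (m ^ 2 * J / B ^ 2) := by ring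
    rw [h3] at hlow
    linarith
  calc c * ∑ k, x k ≤ c * (J + 10 * m ^ 2 * D - 0.005 * (m ^ 2 * J / B ^ 2)) := by gcongr
    _ = (c * J) * (1 - 0.005 * (m ^ 2 / B ^ 2) + 10 * m ^ 2 * D / J) := by field_simp; ring
    _ = m * (1 - 0.005 * (m ^ 2 / B ^ 2) + 10 * m ^ 2 * D / J) := by rw [hcJ]
    _ ≤ m * (1 - m ^ 2 / (1000 * B ^ 2) + 10 * m ^ 2 * D / J) := by
        have h4 : m ^ 2 / (1000 * B ^ 2) = 0.001 * (m ^ 2 / B ^ 2) := by
          field_simp; norm_num
        rw [h4]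
        have h5 : 0 ≤ m ^ 2 / B ^ 2 := by positivity
        have h6 : 1 - 0.005 * (m ^ 2 / B ^ 2) + 10 * m ^ 2 * D / J ≤ 1 - 0.001 * (m ^ 2 / B ^ 2) + 10 * m ^ 2 * D / J := by linarith
        gcongr

end

end NevT.J669

namespace NevT

alias improvement := J669.improvement

end NevT
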