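import Pool.Agent.Helper551.NevDefs
import Pool.Agent.Helper551.NevJ668
import Pool.Agent.Helper551.NevJ669

set_option autoImplicit false

open MeasureTheory Filter Topology

open scoped BigOperators

namespace NevT.J670

noncomputable section

/-! ## finite configurations -/

theorem K_nonneg (L x : ℝ) : 0 ≤ K L x := le_min (Real.sqrt_nonneg _) (sq_nonneg _)

theorem K_zero (L : ℝ) : K L 0 = 0 := by
  unfold K; simp

theorem K_scale (L x l : ℝ) : K L (l * x) = K (L / l) x := by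
  unfold K
  rw [← div_div]

theorem K_le_sqrt (L x : ℝ) : K L x ≤ Real.sqrt (L / x) := min_le_left _ _

theorem K_le_sq (L x : ℝ) : K L x ≤ (L / x) ^ 2 := min_le_right _ _

theorem K_le_div (L x : ℝ) (hL : 0 ≤ L) (hx : 0 ≤ x) : K L x ≤ L / x := by
  have hs : 0 ≤ L / x := div_nonneg hL hx
  rcases le_total (L / x) 1 with h | h
  · refine (K_le_sq L x).trans ?_
    nlinarith
  · refine (K_le_sqrt L x).trans ?_
    rw [Real.sqrt_le_left hs]
    nlinarith

theorem inv_diff (x w : ℂ) (d : ℝ) (hd : ‖x - w‖ ≤ d) (hw : 0 < ‖w‖) (h2 : d ≤ ‖w‖ / 2) :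
    ‖1 / x - 1 / w‖ ≤ 2 * d / ‖w‖ ^ 2 := by
  have hw0 : w ≠ 0 := norm_pos_iff.mp hw
  have hxl : ‖w‖ / 2 ≤ ‖x‖ := by
    have := norm_sub_norm_le w x
    rw [norm_sub_rev] at this
    linarith
  have hx : 0 < ‖x‖ := by linarith
  have hx0 : x ≠ 0 := norm_pos_iff.mp hx
  have : 1 / x - 1 / w = (w - x) / (x * w) := by field_simp
  rw [this, norm_div, norm_mul, norm_sub_rev w x]
  rw [div_le_div_iff₀ (by positivity) (by positivity)]
  have h0 : 0 ≤ ‖x - w‖ := norm_nonneg _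
  calc ‖x - w‖ * ‖w‖ ^ 2 ≤ d * ‖w‖ ^ 2 := by gcongr
    _ = 2 * d * (‖w‖ / 2 * ‖w‖) := by ring
    _ ≤ 2 * d * (‖x‖ * ‖w‖) := by
        have : 0 ≤ d := h0.trans hd
        gcongr

/-- field of a far block -/
theorem far_field {ι : Type} [Fintype ι] (β : ι → ℂ) (ν : ι → ℝ) (P w : ℂ) (d M : ℝ)
    (hν : ∀ i, 0 ≤ ν i) (hM : ∑ i, ν i = M) (hw : 0 < ‖w‖) (h2 : d ≤ ‖w‖ / 2)
    (hd : ∀ i, ‖(P - β i) - w‖ ≤ d) :
    ‖(∑ i, (ν i : ℂ) / (P - β i)) - (M : ℂ) / w‖ ≤ M * (2 * d / ‖w‖ ^ 2) := by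
  have h1 : (∑ i, (ν i : ℂ) / (P - β i)) - (M : ℂ) / w
      = ∑ i, (ν i : ℂ) * (1 / (P - β i) - 1 / w) := by
    rw [← hM]
    push_cast
    rw [Finset.sum_div, ← Finset.sum_sub_distrib]
    refine Finset.sum_congr rfl fun i _ => ?_
    ring
  rw [h1]
  refine (norm_sum_le _ _).trans ?_
  rw [← hM, Finset.sum_mul]
  refine Finset.sum_le_sum fun i _ => ?_
  rw [norm_mul, Complex.norm_real, Real.norm_of_nonneg (hν i)]
  exact mul_le_mul_of_nonneg_left (inv_diff _ _ d (hd i) hw h2) (hν i)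

theorem far_dist (x w : ℂ) (d : ℝ) (hd : ‖x - w‖ ≤ d) (h2 : d ≤ ‖w‖ / 2) : ‖w‖ / 2 ≤ ‖x‖ := by
  have := norm_sub_norm_le w x
  rw [norm_sub_rev] at this
  linarith

section Block

variable {κ : Type} [Fintype κ] {ι : κ → Type} [∀ k, Fintype (ι k)]

def aN (W : κ → ℂ) (α : ∀ k, ι k → ℂ) (l Z : ℝ) : Option (Σ k, ι k) → ℂ
  | none => (Z : ℂ)
  | some p => W p.1 + (l : ℂ) * α p.1 p.2

def mN (y : κ → ℂ) (μ : ∀ k, ι k → ℝ) (l μ0 : ℝ) : Option (Σ k, ι k) → ℝ
  | none => μ0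
  | some p => l * ‖y p.1‖ * μ p.1 p.2

/-- contribution of block `b` to the field at `P` -/
def G (W : κ → ℂ) (α : ∀ k, ι k → ℂ) (y : κ → ℂ) (μ : ∀ k, ι k → ℝ) (l : ℝ) (P : ℂ) (L : ℝ)
    (b : κ) : ℂ :=
  ∑ i, if L < ‖(W b + (l : ℂ) * α b i) - P‖ then
    ((l * ‖y b‖ * μ b i : ℝ) : ℂ) / (P - (W b + (l : ℂ) * α b i)) else 0

def NB (W : κ → ℂ) (α : ∀ k, ι k → ℂ) (y : κ → ℂ) (μ : ∀ k, ι k → ℝ) (l : ℝ) (P : ℂ) (L : ℝ)
    (b : κ) : ℝ :=
  ∑ i, (l * ‖y b‖ * μ b i) * K L ‖(W b + (l : ℂ) * α b i) - P‖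

theorem fld_split (W : κ → ℂ) (α : ∀ k, ι k → ℂ) (y : κ → ℂ) (μ : ∀ k, ι k → ℝ)
    (l Z μ0 : ℝ) (e : ℂ) (k : κ) (j : ι k) (L : ℝ) :
    fld (aN W α l Z) (mN y μ l μ0) e (some ⟨k, j⟩) L =
      e + ((if L < ‖(Z : ℂ) - (W k + (l : ℂ) * α k j)‖ then
        (μ0 : ℂ) / ((W k + (l : ℂ) * α k j) - (Z : ℂ)) else 0) +
      ∑ b, G W α y μ l (W k + (l : ℂ) * α k j) L b) := by
  unfold fld
  rw [Fintype.sum_option, Fintype.sum_sigma]
  rfl

theorem nearS_split (W : κ → ℂ) (α : ∀ k, ι k → ℂ) (y : κ → ℂ) (μ : ∀ k, ι k → ℝ)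
    (l Z μ0 : ℝ) (k : κ) (j : ι k) (L : ℝ) :
    nearS (aN W α l Z) (mN y μ l μ0) (some ⟨k, j⟩) L =
      μ0 * K L ‖(Z : ℂ) - (W k + (l : ℂ) * α k j)‖ +
      ∑ b, NB W α y μ l (W k + (l : ℂ) * α k j) L b := by
  unfold nearS
  rw [Fintype.sum_option, Fintype.sum_sigma]
  rfl

omit [Fintype κ] in
theorem own_field (W : κ → ℂ) (α : ∀ k, ι k → ℂ) (y : κ → ℂ) (μ : ∀ k, ι k → ℝ)
    (l : ℝ) (hl : 0 < l) (k : κ) (hy : 0 < ‖y k‖) (j : ι k) (L : ℝ) :
    G W α y μ l (W k + (l : ℂ) * α k j) L k =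
      (‖y k‖ : ℂ) * fld (α k) (μ k) (y k / (‖y k‖ : ℂ)) j (L / l) - y k := by
  have hyc : ((‖y k‖ : ℝ) : ℂ) ≠ 0 := by exact_mod_cast hy.ne'
  have hlc : (l : ℂ) ≠ 0 := by exact_mod_cast hl.ne'
  unfold fld G
  rw [mul_add, mul_div_cancel₀ _ hyc, add_sub_cancel_left, Finset.mul_sum]
  refine Finset.sum_congr rfl fun i _ => ?_
  have h1 : (W k + (l : ℂ) * α k i) - (W k + (l : ℂ) * α k j) = (l : ℂ) * (α k i - α k j) := by
    ring
  have h2 : (W k + (l : ℂ) * α k j) - (W k + (l : ℂ) * α k i) = (l : ℂ) * (α k j - α k i) := by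
    ring
  rw [h1, h2, norm_mul, Complex.norm_real, Real.norm_of_nonneg hl.le]
  have h3 : (L < l * ‖α k i - α k j‖) ↔ (L / l < ‖α k i - α k j‖) := by
    rw [div_lt_iff₀ hl, mul_comm]
  by_cases h : L / l < ‖α k i - α k j‖
  · rw [if_pos (h3.mpr h), if_pos h]
    push_cast
    rw [mul_assoc, mul_div_mul_left _ _ hlc]
    ring
  · rw [if_neg (fun hh => h (h3.mp hh)), if_neg h, mul_zero]

omit [Fintype κ] in
theorem own_near (W : κ → ℂ) (α : ∀ k, ι k → ℂ) (y : κ → ℂ) (μ : ∀ k, ι k → ℝ)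
    (l : ℝ) (hl : 0 < l) (k : κ) (j : ι k) (L : ℝ) :
    NB W α y μ l (W k + (l : ℂ) * α k j) L k =
      l * ‖y k‖ * nearS (α k) (μ k) j (L / l) := by
  unfold nearS NB
  rw [Finset.mul_sum]
  refine Finset.sum_congr rfl fun i _ => ?_
  have h1 : (W k + (l : ℂ) * α k i) - (W k + (l : ℂ) * α k j) = (l : ℂ) * (α k i - α k j) := by
    ring
  rw [h1, norm_mul, Complex.norm_real, Real.norm_of_nonneg hl.le, K_scale]
  ring

omit [Fintype κ] in
theorem far_pt (W : κ → ℂ) (α : ∀ k, ι k → ℂ) (l R g : ℝ) (hl : 0 < l)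
    (k b : κ) (j : ι k) (i : ι b) (hj : ‖α k j‖ ≤ R) (hi : ‖α b i‖ ≤ R)
    (hw : g ≤ ‖W k - W b‖) (hd : 2 * R * l ≤ g / 2) :
    ‖((W k + (l : ℂ) * α k j) - (W b + (l : ℂ) * α b i)) - (W k - W b)‖ ≤ 2 * R * l ∧
    ‖W k - W b‖ / 2 ≤ ‖(W b + (l : ℂ) * α b i) - (W k + (l : ℂ) * α k j)‖ := by
  have h1 : ‖((W k + (l : ℂ) * α k j) - (W b + (l : ℂ) * α b i)) - (W k - W b)‖ ≤ 2 * R * l := by
    have : ((W k + (l : ℂ) * α k j) - (W b + (l : ℂ) * α b i)) - (W k - W b)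
        = (l : ℂ) * (α k j - α b i) := by ring
    rw [this, norm_mul, Complex.norm_real, Real.norm_of_nonneg hl.le]
    have := norm_sub_le (α k j) (α b i)
    nlinarith
  refine ⟨h1, ?_⟩
  rw [norm_sub_rev (W b + (l : ℂ) * α b i) (W k + (l : ℂ) * α k j)]
  exact far_dist _ _ _ h1 (by linarith)

omit [Fintype κ] in
theorem far_G_all (W : κ → ℂ) (α : ∀ k, ι k → ℂ) (y : κ → ℂ) (μ : ∀ k, ι k → ℝ)
    (l R g m L : ℝ) (hl : 0 < l) (hg : 0 < g)
    (k b : κ) (j : ι k) (hj : ‖α k j‖ ≤ R) (hi : ∀ i, ‖α b i‖ ≤ R)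
    (hμ : ∀ i, 0 ≤ μ b i) (hm : ∑ i, μ b i = m)
    (hw : g ≤ ‖W k - W b‖) (hd : 2 * R * l ≤ g / 2) (hL : L < g / 2) :
    ‖G W α y μ l (W k + (l : ℂ) * α k j) L b - ((m * l * ‖y b‖ : ℝ) : ℂ) / (W k - W b)‖ ≤
      (l * ‖y b‖ * m) * (2 * (2 * R * l) / ‖W k - W b‖ ^ 2) := by
  have hG : G W α y μ l (W k + (l : ℂ) * α k j) L b =
      ∑ i, ((l * ‖y b‖ * μ b i : ℝ) : ℂ) / ((W k + (l : ℂ) * α k j) - (W b + (l : ℂ) * α b i)) := by
    unfold G
    refine Finset.sum_congr rfl fun i _ => ?_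
    rw [if_pos]
    have := (far_pt W α l R g hl k b j i hj (hi i) hw hd).2
    linarith
  rw [hG]
  have e1 : ((m * l * ‖y b‖ : ℝ) : ℂ) = ((l * ‖y b‖ * m : ℝ) : ℂ) := by
    congr 1; ring
  rw [e1]
  refine far_field (fun i => W b + (l : ℂ) * α b i) (fun i => l * ‖y b‖ * μ b i) _ _
    (2 * R * l) _ (fun i => ?_) ?_ (by linarith) (by linarith) (fun i => ?_)
  · have := hμ i; positivity
  · rw [← Finset.mul_sum, hm]
  · exact (far_pt W α l R g hl k b j i hj (hi i) hw hd).1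

omit [Fintype κ] in
theorem far_G_bound (W : κ → ℂ) (α : ∀ k, ι k → ℂ) (y : κ → ℂ) (μ : ∀ k, ι k → ℝ)
    (l R g m L : ℝ) (hl : 0 < l) (hg : 0 < g)
    (k b : κ) (j : ι k) (hj : ‖α k j‖ ≤ R) (hi : ∀ i, ‖α b i‖ ≤ R)
    (hμ : ∀ i, 0 ≤ μ b i) (hm : ∑ i, μ b i = m)
    (hw : g ≤ ‖W k - W b‖) (hd : 2 * R * l ≤ g / 2) :
    ‖G W α y μ l (W k + (l : ℂ) * α k j) L b‖ ≤ (l * ‖y b‖ * m) * (2 / ‖W k - W b‖) := by
  unfold G
  refine (norm_sum_le _ _).trans ?_
  rw [← hm, Finset.mul_sum, Finset.sum_mul]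
  refine Finset.sum_le_sum fun i _ => ?_
  have h2 := (far_pt W α l R g hl k b j i hj (hi i) hw hd).2
  have hw0 : 0 < ‖W k - W b‖ := by linarith
  have hn : 0 ≤ l * ‖y b‖ * μ b i := by have := hμ i; positivity
  split_ifs with hc
  · rw [norm_div, Complex.norm_real, Real.norm_of_nonneg hn, div_eq_mul_inv]
    refine mul_le_mul_of_nonneg_left ?_ hn
    rw [norm_sub_rev (W b + (l : ℂ) * α b i) (W k + (l : ℂ) * α k j)] at h2
    rw [inv_eq_one_div, div_le_div_iff₀ (by linarith) hw0]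
    linarith
  · rw [norm_zero]; positivity

omit [Fintype κ] in
theorem far_N1 (W : κ → ℂ) (α : ∀ k, ι k → ℂ) (y : κ → ℂ) (μ : ∀ k, ι k → ℝ)
    (l R g m L : ℝ) (hl : 0 < l) (hg : 0 < g) (hL : 0 ≤ L)
    (k b : κ) (j : ι k) (hj : ‖α k j‖ ≤ R) (hi : ∀ i, ‖α b i‖ ≤ R)
    (hμ : ∀ i, 0 ≤ μ b i) (hm : ∑ i, μ b i = m)
    (hw : g ≤ ‖W k - W b‖) (hd : 2 * R * l ≤ g / 2) :
    NB W α y μ l (W k + (l : ℂ) * α k j) L b ≤ (l * ‖y b‖ * m) * (2 * L / ‖W k - W b‖) := by
  unfold NB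
  rw [← hm, Finset.mul_sum, Finset.sum_mul]
  refine Finset.sum_le_sum fun i _ => ?_
  have h2 := (far_pt W α l R g hl k b j i hj (hi i) hw hd).2
  have hw0 : 0 < ‖W k - W b‖ := by linarith
  have hn : 0 ≤ l * ‖y b‖ * μ b i := by have := hμ i; positivity
  refine mul_le_mul_of_nonneg_left ?_ hn
  refine (K_le_div _ _ hL (norm_nonneg _)).trans ?_
  rw [div_le_div_iff₀ (by linarith) hw0]
  nlinarith

omit [Fintype κ] in
theorem far_N2 (W : κ → ℂ) (α : ∀ k, ι k → ℂ) (y : κ → ℂ) (μ : ∀ k, ι k → ℝ)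
    (l R g m L : ℝ) (hl : 0 < l) (hg : 0 < g) (hL : 0 ≤ L)
    (k b : κ) (j : ι k) (hj : ‖α k j‖ ≤ R) (hi : ∀ i, ‖α b i‖ ≤ R)
    (hμ : ∀ i, 0 ≤ μ b i) (hm : ∑ i, μ b i = m)
    (hw : g ≤ ‖W k - W b‖) (hd : 2 * R * l ≤ g / 2) :
    NB W α y μ l (W k + (l : ℂ) * α k j) L b ≤
      (l * ‖y b‖ * m) * (4 * L ^ 2 / ‖W k - W b‖ ^ 2) := by
  unfold NB
  rw [← hm, Finset.mul_sum, Finset.sum_mul]
  refine Finset.sum_le_sum fun i _ => ?_
  have h2 := (far_pt W α l R g hl k b j i hj (hi i) hw hd).2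
  have hw0 : 0 < ‖W k - W b‖ := by linarith
  have hn : 0 ≤ l * ‖y b‖ * μ b i := by have := hμ i; positivity
  refine mul_le_mul_of_nonneg_left ?_ hn
  refine (K_le_sq _ _).trans ?_
  rw [div_pow, div_le_div_iff₀ (by have : 0 < ‖(W b + (l : ℂ) * α b i) - (W k + (l : ℂ) * α k j)‖ := by linarith
                                   positivity) (by positivity)]
  have : ‖W k - W b‖ ^ 2 ≤ 4 * ‖(W b + (l : ℂ) * α b i) - (W k + (l : ℂ) * α k j)‖ ^ 2 := by
    nlinarith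
  nlinarith [sq_nonneg L]

omit [Fintype κ] in
theorem F_zero_eq {κ' : Type} [Fintype κ'] (α : κ' → ℂ) (μ : κ' → ℝ) (e : ℂ) (j : κ') (sig L : ℝ)
    (hsep : ∀ i j, i ≠ j → sig ≤ ‖α i - α j‖) (hsig : 0 < sig) (hL0 : 0 ≤ L) (hL : L < sig) :
    fld α μ e j L = fld α μ e j 0 := by
  unfold fld
  congr 1
  refine Finset.sum_congr rfl fun i _ => ?_
  by_cases h : i = j
  · subst h
    simp [hL0]
  · have := hsep i j h
    rw [if_pos (by linarith), if_pos (by linarith)]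

theorem block_good [DecidableEq κ] (W : κ → ℂ) (α : ∀ k, ι k → ℂ) (y : κ → ℂ)
    (μ : ∀ k, ι k → ℝ) (l Z μ0 : ℝ) (e : ℂ)
    (la eps R sig s0 m g s1 s2 Zd tau : ℝ) (N : ℕ)
    (hla : 0 < la) (hla1 : la ≤ 1) (heps : 0 < eps) (heps1 : eps ≤ 1) (hR : 0 < R)
    (hsig : 0 < sig) (hm : 0 < m) (hl : 0 < l) (hg : 0 < g) (hg1 : g ≤ 1) (hZd : 1 ≤ Zd)
    (hμ0 : 0 ≤ μ0) (he : ‖e‖ = 1)
    (hy1 : ∀ k, 19 / 20 ≤ ‖y k‖) (hy2 : ∀ k, ‖y k‖ ≤ 21 / 20)
    (hfix : ∀ k, y k = e + ∑ b, ((m * l * ‖y b‖ : ℝ) : ℂ) / (W k - W b))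
    (hC : ∀ k, Cfg la tau eps R sig s0 m N (y k / (‖y k‖ : ℂ)) (α k) (μ k))
    (hsep : ∀ k b, k ≠ b → g ≤ ‖W k - W b‖)
    (hd : 2 * R * l ≤ g / 2)
    (hs1 : ∀ k, l * ∑ b, 1 / ‖W k - W b‖ ≤ s1)
    (hs2 : ∀ k, l * ∑ b, 1 / ‖W k - W b‖ ^ 2 ≤ s2)
    (hZ : ∀ k (j : ι k), Zd ≤ ‖(Z : ℂ) - (W k + (l : ℂ) * α k j)‖)
    (hdum : μ0 ≤ la * eps / 64 * Zd)
    (n1 : (21 / 5) * R * m * l * s2 ≤ eps / 16)
    (n2 : (21 / 10) * m * g * s2 ≤ la * eps / 64)
    (n3 : (21 / 10) * m * s1 ≤ la / 100)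
    (n4 : ((21 / 20) * m) ^ 2 * l / sig ≤ (la / 8) ^ 2 * (g / 2))
    (n5 : 14 * l * (21 / 20) * m ≤ (g / 2) * ((7 / 10) * eps))
    (k : κ) (j : ι k) (hgood : GoodPt la eps (α k) (μ k) (y k / (‖y k‖ : ℂ)) j) :
    GoodPt la (eps / 8) (aN W α l Z) (mN y μ l μ0) e (some ⟨k, j⟩) ∧
    ‖fld (aN W α l Z) (mN y μ l μ0) e (some ⟨k, j⟩) 0‖ + eps / 8 ≤
      ‖y k‖ * (‖fld (α k) (μ k) (y k / (‖y k‖ : ℂ)) j 0‖ + eps) := by
  have hyp : ∀ k, 0 < ‖y k‖ := fun k => by have := hy1 k; linarith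
  set F : ℝ → ℂ := fun L => fld (α k) (μ k) (y k / (‖y k‖ : ℂ)) j L with hF
  set P : ℂ := W k + (l : ℂ) * α k j with hP
  have hlaeps0 : la * eps ≤ 1 * eps := by gcongr
  have hlaeps : la * eps / 64 ≤ eps / 64 := by linarith
  -- dummy field
  have hDfield : ∀ L : ℝ, ‖(if L < ‖(Z : ℂ) - P‖ then (μ0 : ℂ) / (P - (Z : ℂ)) else 0)‖ ≤ eps / 64 := by
    intro L
    split_ifs with h
    · have h1 : Zd ≤ ‖P - (Z : ℂ)‖ := by rw [norm_sub_rev]; exact hZ k j
      rw [norm_div, Complex.norm_real, Real.norm_of_nonneg hμ0, div_le_iff₀ (by linarith)]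
      calc μ0 ≤ la * eps / 64 * Zd := hdum
        _ ≤ eps / 64 * Zd := by gcongr
        _ ≤ eps / 64 * ‖P - (Z : ℂ)‖ := by gcongr
    · rw [norm_zero]; positivity
  have hDnear : ∀ L : ℝ, 0 < L → μ0 * K L ‖(Z : ℂ) - P‖ ≤ la * eps / 64 * L := by
    intro L hL
    have h1 : Zd ≤ ‖(Z : ℂ) - P‖ := hZ k j
    have h2 : K L ‖(Z : ℂ) - P‖ ≤ L / Zd := by
      refine (K_le_div _ _ hL.le (norm_nonneg _)).trans ?_
      gcongr
    calc μ0 * K L ‖(Z : ℂ) - P‖ ≤ (la * eps / 64 * Zd) * (L / Zd) :=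
          mul_le_mul hdum h2 (K_nonneg _ _) (by positivity)
      _ = la * eps / 64 * L := by field_simp
  -- sums over other blocks
  have hsum1 : ∑ b ∈ Finset.univ.erase k, (l * ‖y b‖ * m) * (2 / ‖W k - W b‖) ≤
      (21 / 10) * m * s1 := by
    calc ∑ b ∈ Finset.univ.erase k, (l * ‖y b‖ * m) * (2 / ‖W k - W b‖)
        ≤ ∑ b ∈ Finset.univ.erase k, (21 / 10) * m * (l * (1 / ‖W k - W b‖)) := by
          refine Finset.sum_le_sum fun b _ => ?_
          have h1 := hy2 b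
          have h2 : 0 ≤ 1 / ‖W k - W b‖ := by positivity
          have : (l * ‖y b‖ * m) * (2 / ‖W k - W b‖) = ‖y b‖ * (2 * m * l * (1 / ‖W k - W b‖)) := by
            ring
          rw [this]
          calc ‖y b‖ * (2 * m * l * (1 / ‖W k - W b‖)) ≤
              (21 / 20) * (2 * m * l * (1 / ‖W k - W b‖)) := by gcongr
            _ = _ := by ring
      _ ≤ ∑ b, (21 / 10) * m * (l * (1 / ‖W k - W b‖)) := by
          refine Finset.sum_le_sum_of_subset_of_nonneg (Finset.erase_subset _ _) fun b _ _ => ?_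
          positivity
      _ = (21 / 10) * m * (l * ∑ b, 1 / ‖W k - W b‖) := by
          rw [← Finset.mul_sum, ← Finset.mul_sum]
      _ ≤ _ := by gcongr; exact hs1 k
  have hsum2 : ∀ c : ℝ, 0 ≤ c →
      ∑ b ∈ Finset.univ.erase k, (l * ‖y b‖ * m) * (c / ‖W k - W b‖ ^ 2) ≤
      (21 / 20) * m * c * s2 := by
    intro c hc
    calc ∑ b ∈ Finset.univ.erase k, (l * ‖y b‖ * m) * (c / ‖W k - W b‖ ^ 2)
        ≤ ∑ b ∈ Finset.univ.erase k, (21 / 20) * m * c * (l * (1 / ‖W k - W b‖ ^ 2)) := by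
          refine Finset.sum_le_sum fun b _ => ?_
          have h1 := hy2 b
          have h2 : 0 ≤ 1 / ‖W k - W b‖ ^ 2 := by positivity
          have : (l * ‖y b‖ * m) * (c / ‖W k - W b‖ ^ 2) =
              ‖y b‖ * (m * c * l * (1 / ‖W k - W b‖ ^ 2)) := by
            ring
          rw [this]
          calc ‖y b‖ * (m * c * l * (1 / ‖W k - W b‖ ^ 2)) ≤
              (21 / 20) * (m * c * l * (1 / ‖W k - W b‖ ^ 2)) := by gcongr
            _ = _ := by ring
      _ ≤ ∑ b, (21 / 20) * m * c * (l * (1 / ‖W k - W b‖ ^ 2)) := by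
          refine Finset.sum_le_sum_of_subset_of_nonneg (Finset.erase_subset _ _) fun b _ _ => ?_
          positivity
      _ = (21 / 20) * m * c * (l * ∑ b, 1 / ‖W k - W b‖ ^ 2) := by
          rw [← Finset.mul_sum, ← Finset.mul_sum]
      _ ≤ _ := by gcongr; exact hs2 k
  -- fixed point
  have hfixk : y k - e = ∑ b ∈ Finset.univ.erase k, ((m * l * ‖y b‖ : ℝ) : ℂ) / (W k - W b) := by
    have h1 := hfix k
    rw [← Finset.add_sum_erase _ _ (Finset.mem_univ k), sub_self, div_zero, zero_add] at h1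
    rw [h1]
    ring
  -- small scales
  have hsmall : ∀ L : ℝ, L < g / 2 →
      ‖fld (aN W α l Z) (mN y μ l μ0) e (some ⟨k, j⟩) L - (‖y k‖ : ℂ) * F (L / l)‖ ≤ eps / 8 := by
    intro L hL
    rw [fld_split, ← Finset.add_sum_erase _ _ (Finset.mem_univ k), own_field W α y μ l hl k (hyp k) j L]
    have h1 : e + ((if L < ‖(Z : ℂ) - (W k + (l : ℂ) * α k j)‖ then
        (μ0 : ℂ) / ((W k + (l : ℂ) * α k j) - (Z : ℂ)) else 0) +
        ((‖y k‖ : ℂ) * fld (α k) (μ k) (y k / (‖y k‖ : ℂ)) j (L / l) - y k +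
          ∑ b ∈ Finset.univ.erase k, G W α y μ l (W k + (l : ℂ) * α k j) L b)) -
        (‖y k‖ : ℂ) * F (L / l) =
        (if L < ‖(Z : ℂ) - P‖ then (μ0 : ℂ) / (P - (Z : ℂ)) else 0) +
        ∑ b ∈ Finset.univ.erase k, (G W α y μ l P L b -
          ((m * l * ‖y b‖ : ℝ) : ℂ) / (W k - W b)) := by
      rw [Finset.sum_sub_distrib, ← hfixk]
      simp only [hF, hP]
      ring
    rw [h1]
    refine (norm_add_le _ _).trans ?_
    have h2 := hDfield L
    have h3 : ‖∑ b ∈ Finset.univ.erase k, (G W α y μ l P L b -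
          ((m * l * ‖y b‖ : ℝ) : ℂ) / (W k - W b))‖ ≤ (21 / 20) * m * (2 * (2 * R * l)) * s2 := by
      refine (norm_sum_le _ _).trans (le_trans ?_ (hsum2 (2 * (2 * R * l)) (by positivity)))
      refine Finset.sum_le_sum fun b hb => ?_
      have hb' : k ≠ b := (Finset.ne_of_mem_erase hb).symm
      exact far_G_all W α y μ l R g m L hl hg k b j ((hC k).bdd j) (hC b).bdd (hC b).nonneg
        (hC b).total (hsep k b hb') hd hL
    have h4 : (21 / 20) * m * (2 * (2 * R * l)) * s2 = (21 / 5) * R * m * l * s2 := by ring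
    linarith
  -- large scales
  have hlarge : ∀ L : ℝ, g / 2 ≤ L →
      9 / 10 ≤ ‖fld (aN W α l Z) (mN y μ l μ0) e (some ⟨k, j⟩) L‖ := by
    intro L hL
    rw [fld_split, ← Finset.add_sum_erase _ _ (Finset.mem_univ k)]
    have h0 : G W α y μ l (W k + (l : ℂ) * α k j) L k = 0 := by
      unfold G
      refine Finset.sum_eq_zero fun i _ => ?_
      rw [if_neg]
      rw [not_lt]
      have h1 : (W k + (l : ℂ) * α k i) - (W k + (l : ℂ) * α k j) = (l : ℂ) * (α k i - α k j) := by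
        ring
      rw [h1, norm_mul, Complex.norm_real, Real.norm_of_nonneg hl.le]
      have h2 := norm_sub_le (α k i) (α k j)
      have h3 := (hC k).bdd i
      have h4 := (hC k).bdd j
      have h5 : ‖α k i - α k j‖ ≤ 2 * R := by linarith
      calc l * ‖α k i - α k j‖ ≤ l * (2 * R) := by gcongr
        _ = 2 * R * l := by ring
        _ ≤ g / 2 := hd
        _ ≤ L := hL
    rw [h0, zero_add]
    have h2 := hDfield L
    have h3 : ‖∑ b ∈ Finset.univ.erase k, G W α y μ l (W k + (l : ℂ) * α k j) L b‖ ≤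
        (21 / 10) * m * s1 := by
      refine (norm_sum_le _ _).trans (le_trans ?_ hsum1)
      refine Finset.sum_le_sum fun b hb => ?_
      have hb' : k ≠ b := (Finset.ne_of_mem_erase hb).symm
      exact far_G_bound W α y μ l R g m L hl hg k b j ((hC k).bdd j) (hC b).bdd (hC b).nonneg
        (hC b).total (hsep k b hb') hd
    have h5 := norm_add_le ((if L < ‖(Z : ℂ) - (W k + (l : ℂ) * α k j)‖ then
        (μ0 : ℂ) / ((W k + (l : ℂ) * α k j) - (Z : ℂ)) else 0))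
        (∑ b ∈ Finset.univ.erase k, G W α y μ l (W k + (l : ℂ) * α k j) L b)
    set X := ((if L < ‖(Z : ℂ) - (W k + (l : ℂ) * α k j)‖ then
        (μ0 : ℂ) / ((W k + (l : ℂ) * α k j) - (Z : ℂ)) else 0)) +
        (∑ b ∈ Finset.univ.erase k, G W α y μ l (W k + (l : ℂ) * α k j) L b) with hX
    have h6 : ‖e‖ ≤ ‖e + X‖ + ‖X‖ := by
      have := norm_sub_le (e + X) X
      rwa [add_sub_cancel_right] at this
    rw [he] at h6
    linarith
  -- value at scale zero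
  have hF0 : eps ≤ ‖F 0‖ := by
    have h1 := hgood.1 (sig / 2) (by linarith)
    have h2 : 0 ≤ nearS (α k) (μ k) j (sig / 2) := by
      unfold nearS
      exact Finset.sum_nonneg fun i _ => mul_nonneg ((hC k).nonneg i) (K_nonneg _ _)
    have h3 : fld (α k) (μ k) (y k / (‖y k‖ : ℂ)) j (sig / 2) = F 0 :=
      F_zero_eq _ _ _ _ sig (sig / 2) (hC k).sep hsig (by linarith) (by linarith)
    rw [h3] at h1
    by_contra h4
    push Not at h4
    have : la * (‖F 0‖ - eps) * (sig / 2) < 0 := by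
      have h5 : ‖F 0‖ - eps < 0 := by linarith
      exact mul_neg_of_neg_of_pos (mul_neg_of_pos_of_neg hla h5) (by positivity)
    linarith
  have hsm0 := hsmall 0 (by linarith)
  rw [zero_div] at hsm0
  have hnF0 : ‖(‖y k‖ : ℂ) * F 0‖ = ‖y k‖ * ‖F 0‖ := by
    rw [norm_mul, Complex.norm_real, norm_norm]
  have hlow0 : ‖y k‖ * ‖F 0‖ - eps / 8 ≤ ‖fld (aN W α l Z) (mN y μ l μ0) e (some ⟨k, j⟩) 0‖ := by
    have := norm_sub_norm_le ((‖y k‖ : ℂ) * F 0) (fld (aN W α l Z) (mN y μ l μ0) e (some ⟨k, j⟩) 0)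
    rw [norm_sub_rev, hnF0] at this
    linarith
  have hup0 : ‖fld (aN W α l Z) (mN y μ l μ0) e (some ⟨k, j⟩) 0‖ ≤ ‖y k‖ * ‖F 0‖ + eps / 8 := by
    have := norm_sub_norm_le (fld (aN W α l Z) (mN y μ l μ0) e (some ⟨k, j⟩) 0) ((‖y k‖ : ℂ) * F 0)
    rw [hnF0] at this
    linarith
  have hyk1 := hy1 k
  have hyk2 := hy2 k
  have hyeps : 19 / 20 * eps ≤ ‖y k‖ * eps := by gcongr
  have h7eps : 7 / 10 * eps ≤ ‖fld (aN W α l Z) (mN y μ l μ0) e (some ⟨k, j⟩) 0‖ - eps / 8 := by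
    have : ‖y k‖ * eps ≤ ‖y k‖ * ‖F 0‖ := by gcongr
    linarith
  refine ⟨⟨?_, ?_⟩, ?_⟩
  · -- near condition
    intro L hL
    rw [nearS_split, ← Finset.add_sum_erase _ _ (Finset.mem_univ k)]
    have hdn := hDnear L hL
    rw [hP] at hdn
    rcases lt_or_ge L (g / 2) with hLg | hLg
    · -- small L
      rw [own_near W α y μ l hl k j L]
      have h1 := hgood.1 (L / l) (by positivity)
      have h2 : ∑ b ∈ Finset.univ.erase k, NB W α y μ l (W k + (l : ℂ) * α k j) L b ≤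
          la * eps / 64 * L := by
        have h3 : ∑ b ∈ Finset.univ.erase k, NB W α y μ l (W k + (l : ℂ) * α k j) L b ≤
            (21 / 20) * m * (4 * L ^ 2) * s2 := by
          refine le_trans ?_ (hsum2 (4 * L ^ 2) (by positivity))
          refine Finset.sum_le_sum fun b hb => ?_
          have hb' : k ≠ b := (Finset.ne_of_mem_erase hb).symm
          exact far_N2 W α y μ l R g m L hl hg hL.le k b j ((hC k).bdd j) (hC b).bdd (hC b).nonneg
            (hC b).total (hsep k b hb') hd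
        have hs2n : 0 ≤ s2 := by
          refine le_trans ?_ (hs2 k)
          positivity
        have h4 : (21 / 20) * m * (4 * L ^ 2) * s2 ≤ (21 / 10) * m * g * s2 * L := by
          have : (21 / 20) * m * (4 * L ^ 2) * s2 = ((21 / 5) * m * s2 * L) * L := by ring
          rw [this]
          have : (21 / 10) * m * g * s2 * L = ((21 / 5) * m * s2 * L) * (g / 2) := by ring
          rw [this]
          gcongr
        calc _ ≤ (21 / 20) * m * (4 * L ^ 2) * s2 := h3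
          _ ≤ (21 / 10) * m * g * s2 * L := h4
          _ ≤ la * eps / 64 * L := by gcongr
      have h5 : l * ‖y k‖ * nearS (α k) (μ k) j (L / l) ≤
          ‖y k‖ * (la * (‖F (L / l)‖ - eps) * L) := by
        calc l * ‖y k‖ * nearS (α k) (μ k) j (L / l) ≤
            l * ‖y k‖ * (la * (‖F (L / l)‖ - eps) * (L / l)) := by gcongr
          _ = _ := by field_simp
      have h6 : ‖y k‖ * ‖F (L / l)‖ - eps / 8 ≤
          ‖fld (aN W α l Z) (mN y μ l μ0) e (some ⟨k, j⟩) L‖ := by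
        have h7 := hsmall L hLg
        have := norm_sub_norm_le ((‖y k‖ : ℂ) * F (L / l))
          (fld (aN W α l Z) (mN y μ l μ0) e (some ⟨k, j⟩) L)
        rw [norm_sub_rev, norm_mul, Complex.norm_real, norm_norm] at this
        linarith
      have h8 : la * (‖y k‖ * ‖F (L / l)‖ - eps / 8 - eps / 8) * L ≤
          la * (‖fld (aN W α l Z) (mN y μ l μ0) e (some ⟨k, j⟩) L‖ - eps / 8) * L := by
        gcongr
      have h9 : 0 ≤ la * L * (‖y k‖ * eps - 19 / 20 * eps) := by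
        have : 0 ≤ ‖y k‖ * eps - 19 / 20 * eps := by linarith
        positivity
      have h10 : 0 < la * L * eps := by positivity
      linarith
    · -- large L
      have h1 : NB W α y μ l (W k + (l : ℂ) * α k j) L k ≤ la / 8 * L := by
        have h2 : NB W α y μ l (W k + (l : ℂ) * α k j) L k ≤
            l * ‖y k‖ * m * Real.sqrt (L / (l * sig)) := by
          unfold NB
          rw [← (hC k).total, Finset.mul_sum, Finset.sum_mul]
          refine Finset.sum_le_sum fun i _ => ?_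
          have hn : 0 ≤ l * ‖y k‖ * μ k i := by have := (hC k).nonneg i; positivity
          refine mul_le_mul_of_nonneg_left ?_ hn
          have h1 : (W k + (l : ℂ) * α k i) - (W k + (l : ℂ) * α k j) = (l : ℂ) * (α k i - α k j) := by
            ring
          rw [h1, norm_mul, Complex.norm_real, Real.norm_of_nonneg hl.le]
          by_cases hij : i = j
          · subst hij
            rw [sub_self, norm_zero, mul_zero, K_zero]
            positivity
          · have h3 := (hC k).sep i j hij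
            refine (K_le_sqrt _ _).trans ?_
            gcongr
        have h3 : l * ‖y k‖ * m * Real.sqrt (L / (l * sig)) ≤
            (21 / 20) * m * l * Real.sqrt (L / (l * sig)) := by
          have : l * ‖y k‖ * m * Real.sqrt (L / (l * sig)) =
            ‖y k‖ * (m * l * Real.sqrt (L / (l * sig))) := by ring
          rw [this]
          calc _ ≤ (21 / 20) * (m * l * Real.sqrt (L / (l * sig))) := by gcongr
            _ = _ := by ring
        have h4 : (21 / 20) * m * l * Real.sqrt (L / (l * sig)) ≤ la / 8 * L := by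
          refine (pow_le_pow_iff_left₀ (by positivity) (by positivity) (two_ne_zero)).mp ?_
          rw [mul_pow, Real.sq_sqrt (by positivity)]
          have e1 : ((21 / 20) * m * l) ^ 2 * (L / (l * sig)) = (((21 / 20) * m) ^ 2 * l / sig) * L := by
            field_simp
          rw [e1]
          calc (((21 / 20) * m) ^ 2 * l / sig) * L ≤ ((la / 8) ^ 2 * (g / 2)) * L := by gcongr
            _ ≤ ((la / 8) ^ 2 * L) * L := by gcongr
            _ = (la / 8 * L) ^ 2 := by ring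
        exact h2.trans (h3.trans h4)
      have h2 : ∑ b ∈ Finset.univ.erase k, NB W α y μ l (W k + (l : ℂ) * α k j) L b ≤
          la / 100 * L := by
        have h3 : ∑ b ∈ Finset.univ.erase k, NB W α y μ l (W k + (l : ℂ) * α k j) L b ≤
            (∑ b ∈ Finset.univ.erase k, (l * ‖y b‖ * m) * (2 / ‖W k - W b‖)) * L := by
          rw [Finset.sum_mul]
          refine Finset.sum_le_sum fun b hb => ?_
          have hb' : k ≠ b := (Finset.ne_of_mem_erase hb).symm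
          have := far_N1 W α y μ l R g m L hl hg hL.le k b j ((hC k).bdd j) (hC b).bdd
            (hC b).nonneg (hC b).total (hsep k b hb') hd
          calc _ ≤ _ := this
            _ = _ := by ring
        calc _ ≤ _ := h3
          _ ≤ ((21 / 10) * m * s1) * L := by gcongr
          _ ≤ la / 100 * L := by gcongr
      have h3 := hlarge L hLg
      have h4 : la * (9 / 10 - 1 / 8) * L ≤
          la * (‖fld (aN W α l Z) (mN y μ l μ0) e (some ⟨k, j⟩) L‖ - eps / 8) * L := by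
        gcongr
      have h5 : la * eps / 64 * L ≤ la / 64 * L := by
        have h51 : la * eps ≤ la * 1 := by gcongr
        have : la * eps / 64 ≤ la / 64 := by linarith
        gcongr
      have h6 : 0 < la * L := by positivity
      linarith
  · -- separation condition
    have hμj : μ k j ≤ m := by
      rw [← (hC k).total]
      exact Finset.single_le_sum (fun i _ => (hC k).nonneg i) (Finset.mem_univ j)
    have hsmallμ : 14 * (l * ‖y k‖ * μ k j) ≤ (g / 2) * ((7 / 10) * eps) := by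
      refine le_trans ?_ n5
      have h1 := (hC k).nonneg j
      calc 14 * (l * ‖y k‖ * μ k j) ≤ 14 * (l * (21 / 20) * m) := by gcongr
        _ = _ := by ring
    intro i hi
    rcases i with _ | ⟨b, i⟩
    · show 14 * (l * ‖y k‖ * μ k j) ≤ ‖(Z : ℂ) - (W k + (l : ℂ) * α k j)‖ * _
      refine hsmallμ.trans ?_
      have := hZ k j
      gcongr
      linarith
    · show 14 * (l * ‖y k‖ * μ k j) ≤ ‖(W b + (l : ℂ) * α b i) - (W k + (l : ℂ) * α k j)‖ * _
      by_cases hb : k = b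
      · subst hb
        have hij : i ≠ j := by
          rintro rfl
          exact hi rfl
        have h1 : (W k + (l : ℂ) * α k i) - (W k + (l : ℂ) * α k j) = (l : ℂ) * (α k i - α k j) := by
          ring
        rw [h1, norm_mul, Complex.norm_real, Real.norm_of_nonneg hl.le]
        have h2 := hgood.2 i hij
        have h3 : ‖y k‖ * (‖F 0‖ - eps) ≤
            ‖fld (aN W α l Z) (mN y μ l μ0) e (some ⟨k, j⟩) 0‖ - eps / 8 := by
          linarith
        calc 14 * (l * ‖y k‖ * μ k j) = l * ‖y k‖ * (14 * μ k j) := by ring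
          _ ≤ l * ‖y k‖ * (‖α k i - α k j‖ * (‖F 0‖ - eps)) := by gcongr
          _ = l * ‖α k i - α k j‖ * (‖y k‖ * (‖F 0‖ - eps)) := by ring
          _ ≤ _ := by gcongr
      · have h2 := (far_pt W α l R g hl k b j i ((hC k).bdd j) ((hC b).bdd i) (hsep k b hb) hd).2
        have h3 := hsep k b hb
        refine hsmallμ.trans ?_
        gcongr
        linarith
  · show _ ≤ ‖y k‖ * (‖F 0‖ + eps)
    linarith

end Block

theorem aux1 (s : ℝ) (h : 2 ≤ s) : s ≤ s ^ 2 ∧ 4 ≤ s ^ 2 := by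
  constructor <;> nlinarith

theorem aux2 (R g : ℝ) (hg : 0 < g) (h : 4 * R * g ≤ 1) : 2 * R * (g * g) ≤ g / 2 := by
  nlinarith

theorem aux3 (m g eps : ℝ) (hg : 0 < g) (h : 42 * m * g ≤ eps) :
    14 * (g * g) * (21 / 20) * m ≤ (g / 2) * ((7 / 10) * eps) := by
  nlinarith

theorem Cfg_mono {la tau eps eps' R sig s0 m : ℝ} {N : ℕ} {e : ℂ} {ι : Type} [Fintype ι]
    {α : ι → ℂ} {μ : ι → ℝ} (hla : 0 ≤ la) (h : eps' ≤ eps)
    (hC : Cfg la tau eps R sig s0 m N e α μ) : Cfg la tau eps' R sig s0 m N e α μ := by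
  refine ⟨hC.card_le, hC.nonneg, hC.total, hC.bdd, hC.sep, fun t ht => ?_⟩
  obtain ⟨j, hj, hs, hc⟩ := hC.cover t ht
  refine ⟨j, ⟨fun L hL => ?_, fun i hi => ?_⟩, hs, ?_⟩
  · refine (hj.1 L hL).trans ?_
    gcongr
  · refine (hj.2 i hi).trans ?_
    gcongr
  · refine le_trans ?_ hc
    gcongr

theorem Wp_norm (q : ℕ) (hq : 0 < q) (H : ℝ) (hH : 1 ≤ H) (k : Fin q × Fin q) :
    ‖Wp q H k‖ ≤ 1 + H := by
  have hqr : (0 : ℝ) < q := by exact_mod_cast hq
  have h1 : (k.1 : ℝ) ≤ q - 1 := by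
    have := k.1.2
    have : (k.1 : ℕ) + 1 ≤ q := this
    have : ((k.1 : ℕ) : ℝ) + 1 ≤ q := by exact_mod_cast this
    linarith
  have h2 : (k.2 : ℝ) ≤ q - 1 := by
    have := k.2.2
    have : (k.2 : ℕ) + 1 ≤ q := this
    have : ((k.2 : ℕ) : ℝ) + 1 ≤ q := by exact_mod_cast this
    linarith
  have h10 : (0 : ℝ) ≤ (k.1 : ℝ) := by positivity
  have h20 : (0 : ℝ) ≤ (k.2 : ℝ) := by positivity
  unfold Wp
  refine (norm_add_le _ _).trans ?_
  rw [norm_mul, Complex.norm_I, mul_one, Complex.norm_real, Complex.norm_real,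
    Real.norm_of_nonneg (by positivity), Real.norm_of_nonneg (by positivity)]
  have e1 : ((k.1 : ℝ) * q + (k.2 : ℝ)) / (q : ℝ) ^ 2 ≤ 1 := by
    rw [div_le_one (by positivity)]
    nlinarith
  have e2 : H * (k.2 : ℝ) / q ≤ H := by
    rw [div_le_iff₀ hqr]
    nlinarith
  linarith

theorem Wp_re (q : ℕ) (H : ℝ) (k : Fin q × Fin q) :
    (Wp q H k).re = ((k.1 : ℝ) * q + (k.2 : ℝ)) / (q : ℝ) ^ 2 := by
  unfold Wp
  rw [Complex.add_re, Complex.ofReal_re, Complex.re_ofReal_mul, Complex.I_re, mul_zero, add_zero]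

theorem cover_index (q : ℕ) (hq : 0 < q) (t : ℝ) (ht : t ∈ Set.Icc (0 : ℝ) 1) :
    ∃ k : Fin q × Fin q, t * (q : ℝ) ^ 2 - ((k.1 : ℝ) * q + (k.2 : ℝ)) ∈ Set.Icc (0 : ℝ) 1 := by
  obtain ⟨ht0, ht1⟩ := ht
  have hqr : (0 : ℝ) < q := by exact_mod_cast hq
  have hJ : 0 < q * q := Nat.mul_pos hq hq
  set n : ℕ := min ⌊t * (q : ℝ) ^ 2⌋₊ (q * q - 1) with hn
  have hn1 : n < q * q := by
    have : n ≤ q * q - 1 := min_le_right _ _
    omega
  have hn2 : (n : ℝ) ≤ t * (q : ℝ) ^ 2 := by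
    have h0 : n ≤ ⌊t * (q : ℝ) ^ 2⌋₊ := min_le_left _ _
    have h1 : (n : ℝ) ≤ (⌊t * (q : ℝ) ^ 2⌋₊ : ℝ) := Nat.cast_le.mpr h0
    exact h1.trans (Nat.floor_le (by positivity))
  have hn3 : t * (q : ℝ) ^ 2 ≤ n + 1 := by
    rcases le_total ⌊t * (q : ℝ) ^ 2⌋₊ (q * q - 1) with h | h
    · rw [hn, min_eq_left h]
      exact (Nat.lt_floor_add_one _).le
    · rw [hn, min_eq_right h]
      have : ((q * q - 1 : ℕ) : ℝ) + 1 = (q : ℝ) ^ 2 := by
        rw [Nat.cast_sub (by omega)]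
        push_cast
        ring
      rw [this]
      nlinarith [sq_nonneg (q : ℝ)]
  refine ⟨(⟨n / q, Nat.div_lt_of_lt_mul hn1⟩, ⟨n % q, Nat.mod_lt _ hq⟩), ?_⟩
  have h4 : ((n / q : ℕ) : ℝ) * q + ((n % q : ℕ) : ℝ) = n := by
    have := Nat.div_add_mod n q
    have h5 : (n / q) * q + n % q = n := by rw [mul_comm]; exact this
    exact_mod_cast h5
  simp only
  rw [h4]
  constructor <;> linarith

/-- TARGET: the recursion step. -/
theorem step (la tau m0 : ℝ) (hla : 0 < la) (hla1 : la ≤ 1) (htau : 0 < tau) (hm0 : 0 < m0) :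
    ∃ c > 0, ∀ m, 0 < m → m ≤ m0 → A la tau m →
      ∀ m', m * (1 - c * m ^ 2) ≤ m' → m' ≤ m0 → A la tau m' := by
  obtain ⟨C1, hC1, hps1⟩ := pattern_sum1
  obtain ⟨C2, hC2, hps2⟩ := pattern_sum2
  set H : ℝ := 1 + (420 * m0 * C1 / la) ^ 2 with hHdef
  have hH1 : 1 ≤ H := by
    have := sq_nonneg (420 * m0 * C1 / la)
    linarith
  have hH0 : 0 < H := by linarith
  have hsH : 420 * m0 * C1 / la ≤ Real.sqrt H := by
    apply Real.le_sqrt_of_sq_le
    linarith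
  have hsH0 : 0 < Real.sqrt H := Real.sqrt_pos.mpr hH0
  set B : ℝ := 1 + H with hB
  have hB0 : 0 < B := by linarith
  refine ⟨min (1 / (4000 * B ^ 2)) (1 / (4 * m0 ^ 2)), lt_min (by positivity) (by positivity), ?_⟩
  set c : ℝ := min (1 / (4000 * B ^ 2)) (1 / (4 * m0 ^ 2)) with hc
  intro m hm hmm0 hA m' hm'1 hm'2
  obtain ⟨eps0, heps0, R, hR, sig, hsig, s0, hs0, N, hcfg⟩ := hA
  set eps : ℝ := min eps0 1 with heps
  have hepsp : 0 < eps := lt_min heps0 one_pos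
  have heps1 : eps ≤ 1 := min_le_right _ _
  set X : ℝ := 2 + 4 * R + 420 * m0 * C1 / la + 16 * ((21 / 5) * R * m * C2) / eps +
    64 * ((21 / 10) * m * C2) / (la * eps) + 128 * ((21 / 20) * m) ^ 2 / (sig * la ^ 2) +
    42 * m / eps + 20000 * B ^ 2 * C2 with hX
  have hXpos : ∀ z : ℝ, z = 2 ∨ z = 4 * R ∨ z = 420 * m0 * C1 / la ∨
      z = 16 * ((21 / 5) * R * m * C2) / eps ∨ z = 64 * ((21 / 10) * m * C2) / (la * eps) ∨
      z = 128 * ((21 / 20) * m) ^ 2 / (sig * la ^ 2) ∨ z = 42 * m / eps ∨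
      z = 20000 * B ^ 2 * C2 → z ≤ X := by
    have a1 : 0 < 4 * R := by positivity
    have a2 : 0 < 420 * m0 * C1 / la := by positivity
    have a3 : 0 < 16 * ((21 / 5) * R * m * C2) / eps := by positivity
    have a4 : 0 < 64 * ((21 / 10) * m * C2) / (la * eps) := by positivity
    have a5 : 0 < 128 * ((21 / 20) * m) ^ 2 / (sig * la ^ 2) := by positivity
    have a6 : 0 < 42 * m / eps := by positivity
    have a7 : 0 < 20000 * B ^ 2 * C2 := by positivity
    rintro z (h | h | h | h | h | h | h | h) <;> rw [h, hX] <;> linarith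
  obtain ⟨q, hqX⟩ := exists_nat_ge (X ^ 2)
  have hX2 : 2 ≤ X := hXpos 2 (Or.inl rfl)
  set s : ℝ := Real.sqrt q with hs
  have hsX : X ≤ s := Real.le_sqrt_of_sq_le hqX
  have hs2 : 2 ≤ s := by linarith
  have hsp : 0 < s := by linarith
  have hsq : s ^ 2 = q := Real.sq_sqrt (Nat.cast_nonneg q)
  have hqr : (0 : ℝ) < q := by rw [← hsq]; positivity
  have hq : 0 < q := by exact_mod_cast hqr
  have hsq' : s ≤ q := by rw [← hsq]; exact (aux1 s hs2).1
  have hq4 : (4 : ℝ) ≤ q := by rw [← hsq]; exact (aux1 s hs2).2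
  set l : ℝ := 1 / (q : ℝ) ^ 2 with hl
  have hlp : 0 < l := by positivity
  set g : ℝ := 1 / (q : ℝ) with hg
  have hgp : 0 < g := by positivity
  have hg1 : g ≤ 1 := by
    rw [hg, div_le_one hqr]; linarith
  have hlg : l = g * g := by rw [hl, hg]; field_simp
  have hl1 : l ≤ 1 := by rw [hlg]; exact mul_le_one₀ hg1 hgp.le hg1
  have hgs : g = 1 / s ^ 2 := by rw [hg, hsq]
  -- consequences
  have k1 : 4 * R ≤ s := (hXpos _ (by tauto)).trans hsX
  have k2 : 420 * m0 * C1 / la ≤ s := (hXpos _ (by tauto)).trans hsX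
  have k3 : 16 * ((21 / 5) * R * m * C2) / eps ≤ s := (hXpos _ (by tauto)).trans hsX
  have k4 : 64 * ((21 / 10) * m * C2) / (la * eps) ≤ s := (hXpos _ (by tauto)).trans hsX
  have k5 : 128 * ((21 / 20) * m) ^ 2 / (sig * la ^ 2) ≤ s := (hXpos _ (by tauto)).trans hsX
  have k6 : 42 * m / eps ≤ s := (hXpos _ (by tauto)).trans hsX
  have k7 : 20000 * B ^ 2 * C2 ≤ s := (hXpos _ (by tauto)).trans hsX
  have hd : 2 * R * l ≤ g / 2 := by
    rw [hlg]
    have : 4 * R * g ≤ 1 := by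
      rw [hg]
      rw [mul_one_div, div_le_one hqr]
      linarith
    exact aux2 R g hgp this
  have hgs1 : g * s = 1 / s := by rw [hgs]; field_simp
  have n1 : (21 / 5) * R * m * l * (C2 * s) ≤ eps / 16 := by
    have e1 : (21 / 5) * R * m * l * (C2 * s) = ((21 / 5) * R * m * C2) * (g * (g * s)) := by
      rw [hlg]; ring
    have e2 : (21 / 5) * R * m * C2 ≤ s * (eps / 16) := by
      rw [div_le_iff₀ hepsp] at k3
      linarith
    rw [e1, hgs1]
    calc ((21 / 5) * R * m * C2) * (g * (1 / s)) ≤ (s * (eps / 16)) * (1 * (1 / s)) := by gcongr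
      _ = eps / 16 := by field_simp
  have n2 : (21 / 10) * m * g * (C2 * s) ≤ la * eps / 64 := by
    have e1 : (21 / 10) * m * g * (C2 * s) = ((21 / 10) * m * C2) * (g * s) := by ring
    have e2 : (21 / 10) * m * C2 ≤ s * (la * eps / 64) := by
      rw [div_le_iff₀ (by positivity)] at k4
      linarith
    rw [e1, hgs1]
    calc ((21 / 10) * m * C2) * (1 / s) ≤ (s * (la * eps / 64)) * (1 / s) := by gcongr
      _ = la * eps / 64 := by field_simp
  have hCs : C1 / s ≤ la / (420 * m0) := by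
    rw [div_le_div_iff₀ hsp (by positivity)]
    rw [div_le_iff₀ hla] at k2
    linarith
  have hCH : C1 / Real.sqrt H ≤ la / (420 * m0) := by
    rw [div_le_div_iff₀ hsH0 (by positivity)]
    rw [div_le_iff₀ hla] at hsH
    linarith
  have hs1b : C1 / Real.sqrt H + C1 / s ≤ la / (210 * m0) := by
    have : la / (420 * m0) + la / (420 * m0) = la / (210 * m0) := by field_simp; ring
    linarith
  have hms1 : m * (C1 / Real.sqrt H + C1 / s) ≤ la / 210 := by
    calc m * (C1 / Real.sqrt H + C1 / s) ≤ m0 * (la / (210 * m0)) := by gcongr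
      _ = la / 210 := by field_simp
  have n3 : (21 / 10) * m * (C1 / Real.sqrt H + C1 / s) ≤ la / 100 := by
    have : (21 / 10) * m * (C1 / Real.sqrt H + C1 / s) =
      (21 / 10) * (m * (C1 / Real.sqrt H + C1 / s)) := by ring
    rw [this]
    linarith
  have n4 : ((21 / 20) * m) ^ 2 * l / sig ≤ (la / 8) ^ 2 * (g / 2) := by
    have e1 : 128 * ((21 / 20) * m) ^ 2 ≤ (q : ℝ) * (sig * la ^ 2) := by
      rw [div_le_iff₀ (by positivity)] at k5
      refine k5.trans ?_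
      gcongr
    rw [div_le_iff₀ hsig, hlg]
    have e2 : 128 * ((21 / 20) * m) ^ 2 * g ≤ sig * la ^ 2 := by
      rw [hg, mul_one_div, div_le_iff₀ hqr]
      linarith
    have e3 : (21 / 20 * m) ^ 2 * (g * g) = (128 * ((21 / 20) * m) ^ 2 * g) * (g / 128) := by ring
    rw [e3]
    calc (128 * ((21 / 20) * m) ^ 2 * g) * (g / 128) ≤ (sig * la ^ 2) * (g / 128) := by gcongr
      _ = (la / 8) ^ 2 * (g / 2) * sig := by ring
  have n5 : 14 * l * (21 / 20) * m ≤ (g / 2) * ((7 / 10) * eps) := by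
    have e1 : 42 * m ≤ q * eps := by
      rw [div_le_iff₀ hepsp] at k6
      refine k6.trans ?_
      gcongr
    have e2 : 42 * m * g ≤ eps := by
      rw [hg, mul_one_div, div_le_iff₀ hqr]
      linarith
    rw [hlg]
    exact aux3 m g eps hgp e2
  -- the dummy
  set Zd : ℝ := 1 + 64 * m0 / (la * eps) with hZd
  have hZd1 : 1 ≤ Zd := by
    have : 0 < 64 * m0 / (la * eps) := by positivity
    linarith
  set Z : ℝ := B + R + Zd with hZ
  have hZ0 : 0 < Z := by linarith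
  have hdumm : m0 ≤ la * eps / 64 * Zd := by
    rw [hZd, mul_add]
    have : la * eps / 64 * (64 * m0 / (la * eps)) = m0 := by field_simp
    rw [this]
    have : 0 < la * eps / 64 * 1 := by positivity
    linarith
  have hJ : ((Fintype.card (Fin q × Fin q) : ℕ) : ℝ) = (q : ℝ) ^ 2 := by
    rw [Fintype.card_prod, Fintype.card_fin]
    push_cast
    ring
  have hWsep : ∀ k b : Fin q × Fin q, k ≠ b → g ≤ ‖Wp q H k - Wp q H b‖ := fun k b h =>
    pattern_sep q hq H hH1 k b h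
  have hWB : ∀ k, ‖Wp q H k‖ ≤ B := fun k => Wp_norm q hq H hH1 k
  refine ⟨eps / 8, by positivity, Z, hZ0, min (l * sig) (g / 2), lt_min (by positivity) (by positivity),
    l * s0 / 2, by positivity, q ^ 2 * N + 1, ?_⟩
  intro e he
  obtain ⟨y, hyfix, hyclose, hysum⟩ := improvement (Wp q H) (by
      intro k b hkb
      by_contra hne
      have := hWsep k b hne
      rw [hkb, sub_self, norm_zero] at this
      linarith) m B (C2 * s) hm hB0 (by
      rw [Fintype.card_prod, Fintype.card_fin]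
      have : 4 ≤ q := by exact_mod_cast hq4
      exact le_trans (by omega) (Nat.le_mul_self q)) hWB (fun k => by
      rw [hJ]
      have h1 := hps1 q hq H hH1 k
      calc m / (q : ℝ) ^ 2 * ∑ b, 1 / ‖Wp q H k - Wp q H b‖ =
          m * (1 / (q : ℝ) ^ 2 * ∑ b, 1 / ‖Wp q H k - Wp q H b‖) := by ring
        _ ≤ m * (C1 / Real.sqrt H + C1 / s) := by gcongr
        _ ≤ la / 210 := hms1
        _ ≤ 1 / 50 := by linarith) (fun k => by
      rw [hJ]
      exact hps2 q hq H hH1 k) e he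
  rw [hJ] at hysum
  have hyfix' : ∀ k, y k = e + ∑ b, ((m * l * ‖y b‖ : ℝ) : ℂ) / (Wp q H k - Wp q H b) := by
    intro k
    have h1 := hyfix k
    rw [hJ] at h1
    have h2 : ∀ b, m / (q : ℝ) ^ 2 * ‖y b‖ = m * l * ‖y b‖ := fun b => by rw [hl]; ring
    simp only [h2] at h1
    exact h1
  have hy1 : ∀ k, 19 / 20 ≤ ‖y k‖ := by
    intro k
    have h1 := hyclose k
    have h2 := norm_sub_norm_le e (y k)
    rw [norm_sub_rev, he] at h2
    linarith
  have hy2 : ∀ k, ‖y k‖ ≤ 21 / 20 := by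
    intro k
    have h1 := hyclose k
    have h2 := norm_sub_norm_le (y k) e
    rw [he] at h2
    linarith
  have hunit : ∀ k, ‖y k / (‖y k‖ : ℂ)‖ = 1 := by
    intro k
    have : 0 < ‖y k‖ := by have := hy1 k; linarith
    rw [norm_div, Complex.norm_real, norm_norm, div_self this.ne']
  choose ι fι α μ hC0 using fun k => hcfg (y k / (‖y k‖ : ℂ)) (hunit k)
  have hC : ∀ k, Cfg la tau eps R sig s0 m N (y k / (‖y k‖ : ℂ)) (α k) (μ k) := fun k =>
    Cfg_mono hla.le (min_le_left _ _) (hC0 k)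
  set μ0 : ℝ := m' - m * l * ∑ k, ‖y k‖ with hμ0
  have hμ0n : 0 ≤ μ0 := by
    have h1 : m * l * ∑ k, ‖y k‖ = m / (q : ℝ) ^ 2 * ∑ k, ‖y k‖ := by rw [hl]; ring
    have h2 : m * (1 - m ^ 2 / (1000 * B ^ 2) + 10 * m ^ 2 * (C2 * s) / (q : ℝ) ^ 2) ≤
        m * (1 - c * m ^ 2) := by
      have e1 : 10 * m ^ 2 * (C2 * s) / (q : ℝ) ^ 2 = m ^ 2 * (10 * C2 * (g * (g * s))) := by
        rw [hg]; field_simp
      have e2 : 10 * C2 * (g * (g * s)) ≤ 1 / (2000 * B ^ 2) := by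
        rw [hgs1]
        have e3 : 10 * C2 * (g * (1 / s)) ≤ 10 * C2 * (1 * (1 / s)) := by gcongr
        refine e3.trans ?_
        rw [one_mul, mul_one_div, div_le_div_iff₀ hsp (by positivity)]
        linarith
      have e4 : c ≤ 1 / (4000 * B ^ 2) := min_le_left _ _
      have e5 : c + 10 * C2 * (g * (g * s)) ≤ 1 / (1000 * B ^ 2) := by
        have e6 : 1 / (4000 * B ^ 2) + 1 / (2000 * B ^ 2) ≤ 1 / (1000 * B ^ 2) := by
          have : 1 / (4000 * B ^ 2) + 1 / (2000 * B ^ 2) = (3 / 4) * (1 / (1000 * B ^ 2)) := by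
            field_simp; norm_num
          rw [this]
          have : 0 < 1 / (1000 * B ^ 2) := by positivity
          linarith
        linarith
      have e7 : m ^ 2 / (1000 * B ^ 2) = m ^ 2 * (1 / (1000 * B ^ 2)) := by ring
      rw [e1, e7]
      refine mul_le_mul_of_nonneg_left ?_ hm.le
      have e8 : m ^ 2 * (c + 10 * C2 * (g * (g * s))) ≤ m ^ 2 * (1 / (1000 * B ^ 2)) := by gcongr
      have e9 : m ^ 2 * (c + 10 * C2 * (g * (g * s))) =
        c * m ^ 2 + m ^ 2 * (10 * C2 * (g * (g * s))) := by ring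
      rw [e9] at e8
      linarith
    rw [hμ0, h1]
    linarith
  have hμ0le : μ0 ≤ m0 := by
    have : 0 ≤ m * l * ∑ k, ‖y k‖ := by positivity
    linarith
  have hbd : ∀ k (j : ι k), ‖Wp q H k + (l : ℂ) * α k j‖ ≤ B + R := by
    intro k j
    refine (norm_add_le _ _).trans ?_
    rw [norm_mul, Complex.norm_real, Real.norm_of_nonneg hlp.le]
    have h1 := hWB k
    have h2 := (hC k).bdd j
    have h3 : l * ‖α k j‖ ≤ 1 * R := by gcongr
    linarith
  have hZsep : ∀ k (j : ι k), Zd ≤ ‖(Z : ℂ) - (Wp q H k + (l : ℂ) * α k j)‖ := by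
    intro k j
    have h1 := norm_sub_norm_le (Z : ℂ) (Wp q H k + (l : ℂ) * α k j)
    rw [Complex.norm_real, Real.norm_of_nonneg hZ0.le] at h1
    have := hbd k j
    linarith
  have hgood := fun (k : Fin q × Fin q) (j : ι k)
      (hg' : GoodPt la eps (α k) (μ k) (y k / (‖y k‖ : ℂ)) j) =>
    block_good (Wp q H) α y μ l Z μ0 e la eps R sig s0 m g (C1 / Real.sqrt H + C1 / s) (C2 * s) Zd
      tau N hla hla1 hepsp heps1 hR hsig hm hlp hgp hg1 hZd1 hμ0n he hy1 hy2 hyfix' hC hWsep hd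
      (fun k => hps1 q hq H hH1 k) (fun k => hps2 q hq H hH1 k) hZsep (hμ0le.trans hdumm)
      n1 n2 n3 n4 n5 k j hg'
  refine ⟨Option (Σ k, ι k), inferInstance, aN (Wp q H) α l Z, mN y μ l μ0, ?_⟩
  refine ⟨?_, ?_, ?_, ?_, ?_, ?_⟩
  · rw [Fintype.card_option, Fintype.card_sigma]
    have h1 : ∑ k : Fin q × Fin q, Fintype.card (ι k) ≤ ∑ _k : Fin q × Fin q, N :=
      Finset.sum_le_sum fun k _ => (hC k).card_le
    rw [Finset.sum_const, Finset.card_univ, Fintype.card_prod, Fintype.card_fin, smul_eq_mul] at h1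
    rw [pow_two]
    exact Nat.add_le_add_right h1 1
  · rintro (_ | ⟨k, i⟩)
    · exact hμ0n
    · show 0 ≤ l * ‖y k‖ * μ k i
      have := (hC k).nonneg i
      positivity
  · rw [Fintype.sum_option, Fintype.sum_sigma]
    show μ0 + ∑ k, ∑ i, l * ‖y k‖ * μ k i = m'
    have h1 : ∀ k, ∑ i, l * ‖y k‖ * μ k i = m * l * ‖y k‖ := by
      intro k
      rw [← Finset.mul_sum, (hC k).total]
      ring
    simp only [h1]
    rw [← Finset.mul_sum, hμ0]
    ring
  · rintro (_ | ⟨k, i⟩)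
    · show ‖(Z : ℂ)‖ ≤ Z
      rw [Complex.norm_real, Real.norm_of_nonneg hZ0.le]
    · show ‖Wp q H k + (l : ℂ) * α k i‖ ≤ Z
      have := hbd k i
      linarith
  · have hgz : g / 2 ≤ Zd := by linarith
    rintro (_ | ⟨k, i⟩) (_ | ⟨b, j⟩) hne
    · exact absurd rfl hne
    · show min (l * sig) (g / 2) ≤ ‖(Z : ℂ) - (Wp q H b + (l : ℂ) * α b j)‖
      exact (min_le_right _ _).trans (hgz.trans (hZsep b j))
    · show min (l * sig) (g / 2) ≤ ‖(Wp q H k + (l : ℂ) * α k i) - (Z : ℂ)‖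
      rw [norm_sub_rev]
      exact (min_le_right _ _).trans (hgz.trans (hZsep k i))
    · show min (l * sig) (g / 2) ≤ ‖(Wp q H k + (l : ℂ) * α k i) - (Wp q H b + (l : ℂ) * α b j)‖
      by_cases hkb : k = b
      · subst hkb
        have hij : i ≠ j := by
          rintro rfl
          exact hne rfl
        have h1 : (Wp q H k + (l : ℂ) * α k i) - (Wp q H k + (l : ℂ) * α k j) =
          (l : ℂ) * (α k i - α k j) := by ring
        rw [h1, norm_mul, Complex.norm_real, Real.norm_of_nonneg hlp.le]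
        refine (min_le_left _ _).trans ?_
        have := (hC k).sep i j hij
        gcongr
      · have h1 := (far_pt (Wp q H) α l R g hlp b k j i ((hC b).bdd j) ((hC k).bdd i)
          (hWsep b k (Ne.symm hkb)) hd).2
        have h2 := hWsep b k (Ne.symm hkb)
        refine (min_le_right _ _).trans ?_
        linarith
  · intro t ht
    obtain ⟨k, hk⟩ := cover_index q hq t ht
    obtain ⟨j, hj, hsj, hcj⟩ := (hC k).cover _ hk
    obtain ⟨h1, h2⟩ := hgood k j hj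
    refine ⟨some ⟨k, j⟩, h1, ?_, ?_⟩
    · show l * s0 / 2 ≤ l * ‖y k‖ * μ k j
      have h3 := hy1 k
      calc l * s0 / 2 = l * (1 / 2) * s0 := by ring
        _ ≤ l * ‖y k‖ * μ k j := by gcongr; linarith
    · show |t - (Wp q H k + (l : ℂ) * α k j).re| * _ ≤ tau * (l * ‖y k‖ * μ k j)
      have h3 : t - (Wp q H k + (l : ℂ) * α k j).re =
          l * (t * (q : ℝ) ^ 2 - ((k.1 : ℝ) * q + (k.2 : ℝ)) - (α k j).re) := by
        rw [Complex.add_re, Wp_re, Complex.re_ofReal_mul, hl]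
        field_simp
        ring
      rw [h3, abs_mul, abs_of_pos hlp]
      set D := |t * (q : ℝ) ^ 2 - ((k.1 : ℝ) * q + (k.2 : ℝ)) - (α k j).re| with hD
      have hD0 : 0 ≤ D := abs_nonneg _
      calc l * D * (‖fld (aN (Wp q H) α l Z) (mN y μ l μ0) e (some ⟨k, j⟩) 0‖ + eps / 8)
          ≤ l * D * (‖y k‖ * (‖fld (α k) (μ k) (y k / (‖y k‖ : ℂ)) j 0‖ + eps)) := by gcongr
        _ = l * ‖y k‖ * (D * (‖fld (α k) (μ k) (y k / (‖y k‖ : ℂ)) j 0‖ + eps)) := by ring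
        _ ≤ l * ‖y k‖ * (tau * μ k j) := by gcongr
        _ = tau * (l * ‖y k‖ * μ k j) := by ring

end

end NevT.J670

namespace NevT

alias step := J670.step

end NevT
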