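import Pool.Agent.Helper551.NevDefs
import Pool.Agent.Helper551.NevJ670

set_option autoImplicit false
open Filter Topology
open scoped BigOperators

namespace NevT

noncomputable section

theorem A_base (la tau : ℝ) (hla : 0 < la) (htau : 0 < tau) : A la tau (1 / tau) := by
  refine ⟨1 / 2, by norm_num, 1, by norm_num, 1, by norm_num, 1 / tau, by positivity, 1, ?_⟩
  intro e he
  refine ⟨Unit, inferInstance, fun _ => ((1 / 2 : ℝ) : ℂ), fun _ => 1 / tau, ?_⟩
  have hfld : ∀ L : ℝ, 0 ≤ L →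
      fld (fun _ : Unit => ((1 / 2 : ℝ) : ℂ)) (fun _ => 1 / tau) e () L = e := by
    intro L hL
    unfold fld
    simp [not_lt.2 hL]
  refine ⟨by simp, fun _ => by positivity, by simp, ?_, ?_, ?_⟩
  · intro _
    rw [Complex.norm_real, Real.norm_of_nonneg (by norm_num)]
    norm_num
  · intro i j hij
    exact absurd (Subsingleton.elim i j) hij
  · intro t ht
    refine ⟨(), ⟨?_, ?_⟩, le_rfl, ?_⟩
    · intro L hL
      rw [hfld L hL.le, he]
      have : nearS (fun _ : Unit => ((1 / 2 : ℝ) : ℂ)) (fun _ => 1 / tau) () L = 0 := by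
        unfold nearS K
        simp
      rw [this]
      have : (0 : ℝ) < la * (1 - 1 / 2) * L := by positivity
      exact this.le
    · intro i hi
      exact absurd (Subsingleton.elim i ()) hi
    · rw [hfld 0 le_rfl, he, Complex.ofReal_re]
      have h1 : |t - 1 / 2| ≤ 1 / 2 := by
        rw [abs_le]
        constructor <;> linarith [ht.1, ht.2]
      have h2 : tau * (1 / tau) = 1 := by field_simp
      rw [h2]
      nlinarith [abs_nonneg (t - 1 / 2)]

theorem A_small (la tau m0 : ℝ) (hla : 0 < la) (hla1 : la ≤ 1) (htau : 0 < tau) (hm0 : 0 < m0) :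
    ∃ m, 0 < m ∧ m ≤ m0 ∧ A la tau m := by
  by_contra hcon
  push Not at hcon
  obtain ⟨M, hM⟩ : ∃ M, M = max (1 / tau) m0 := ⟨_, rfl⟩
  have hMpos : 0 < M := by rw [hM]; exact lt_max_of_lt_right hm0
  obtain ⟨c, hc, hstep⟩ := step la tau M hla hla1 htau hMpos
  set S : Set ℝ := {m | 0 < m ∧ m ≤ M ∧ A la tau m} with hS
  have hne : S.Nonempty :=
    ⟨1 / tau, by positivity, by rw [hM]; exact le_max_left _ _, A_base la tau hla htau⟩
  have hbdd : BddBelow S := ⟨0, fun m hm => hm.1.le⟩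
  have hlow : ∀ m ∈ S, m0 < m := by
    intro m hm
    by_contra h
    exact hcon m hm.1 (not_lt.1 h) hm.2.2
  have hI : m0 ≤ sInf S := le_csInf hne fun m hm => (hlow m hm).le
  have hIM : sInf S ≤ M := by
    obtain ⟨m, hm⟩ := hne
    exact (csInf_le hbdd hm).trans hm.2.1
  have hδ : 0 < c * m0 ^ 3 := by positivity
  obtain ⟨m, hm, hmlt⟩ := exists_lt_of_csInf_lt hne (lt_add_of_pos_right (sInf S) hδ)
  have hmm0 := hlow m hm
  have h1 : m * (1 - c * m ^ 2) < sInf S := by
    have h2 : m0 ^ 3 ≤ m ^ 3 := pow_le_pow_left₀ hm0.le hmm0.le 3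
    have h3 : m * (1 - c * m ^ 2) = m - c * m ^ 3 := by ring
    rw [h3]
    have h4 : c * m0 ^ 3 ≤ c * m ^ 3 := mul_le_mul_of_nonneg_left h2 hc.le
    linarith
  have hIpos : 0 < sInf S := lt_of_lt_of_le hm0 hI
  obtain ⟨m', hm'⟩ : ∃ m', m' = max (m * (1 - c * m ^ 2)) (sInf S / 2) := ⟨_, rfl⟩
  have hm'lt : m' < sInf S := by
    rw [hm']
    exact max_lt h1 (by linarith)
  have hm'pos : 0 < m' := by
    rw [hm']
    exact lt_max_of_lt_right (by linarith)
  have hm'S : m' ∈ S := by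
    refine ⟨hm'pos, (hm'lt.le.trans hIM), ?_⟩
    exact hstep m hm.1 hm.2.1 hm.2.2 m' (by rw [hm']; exact le_max_left _ _) (hm'lt.le.trans hIM)
  exact absurd (csInf_le hbdd hm'S) (not_le.2 hm'lt)

end

end NevT
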