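import Pool.Agent.Helper551.NevDefs
import Pool.Agent.Helper551.NevJ672
import Pool.Agent.Helper551.NevJ842
import Pool.Agent.Helper551.NevJ843
import Pool.Agent.Helper551.NevJ845
import Pool.Agent.Helper551.NevSmall
import Pool.Agent.Helper551.NevAux
import Pool.Agent.Helper551.NevGood
import Pool.Agent.Helper551.NevCover

set_option autoImplicit false
open Filter Topology
open scoped BigOperators

namespace NevT

noncomputable section

theorem exists_rho (d Cn Cm Ci : ℝ) (hd : 0 < d) (hCn : 0 < Cn) (hCm : 0 < Cm) (hCi : 0 < Ci) :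
    ∃ rho : ℝ, 0 < rho ∧ rho ≤ 1 / 4 ∧ rho < d ∧ Cm * rho ≤ 1 / 200 ∧ Cn * rho ≤ lam / 20 ∧
      ((9 / 4) * Cn + 1) * rho ≤ eta / 32 ∧ Ci * rho ≤ 1 / 8 := by
  have hlam : (0 : ℝ) < lam := by unfold lam; norm_num
  have heta : (0 : ℝ) < eta := by unfold eta; norm_num
  have key : ∀ c b : ℝ, 0 < b → ∀ᶠ x : ℝ in 𝓝[>] 0, c * x ≤ b := by
    intro c b hb
    have h1 : Tendsto (fun x : ℝ => c * x) (𝓝[>] 0) (𝓝 (c * 0)) :=
      ((continuous_const.mul continuous_id).tendsto 0).mono_left nhdsWithin_le_nhds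
    rw [mul_zero] at h1
    exact (h1.eventually (gt_mem_nhds hb)).mono fun x hx => le_of_lt hx
  have h0 : ∀ᶠ x : ℝ in 𝓝[>] 0, 0 < x := eventually_mem_nhdsWithin
  obtain ⟨x, hx⟩ := (h0.and ((key 1 (1 / 4) (by norm_num)).and ((key 1 (d / 2) (by positivity)).and
    ((key Cm (1 / 200) (by norm_num)).and ((key Cn (lam / 20) (by positivity)).and
    ((key ((9 / 4) * Cn + 1) (eta / 32) (by positivity)).and
      (key Ci (1 / 8) (by norm_num)))))))).exists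
  exact ⟨x, hx.1, by linarith [hx.2.1], by linarith [hx.2.2.1], hx.2.2.2.1, hx.2.2.2.2.1,
    hx.2.2.2.2.2.1, hx.2.2.2.2.2.2⟩

theorem exists_q (Rd Cf Cs eps m sg s0 R G : ℝ) (heps : 0 < eps) (hm : 0 < m)
    (hsg : 0 < sg) (hs0 : 0 < s0) :
    ∃ q : ℕ, 32 * Rd ≤ q ∧ 100000 ≤ q ∧ Cf * Rd / Real.sqrt q ≤ eps / 400 ∧
      Cs / (8 * Real.sqrt q) ≤ lam * eps / 5 ∧ m * Real.sqrt (8 / (q * sg)) ≤ lam / 10 ∧
      150 * m ≤ q * eps ∧ 18 * m ≤ eps * eta * (q : ℝ) ^ 2 * (9 / 10) ∧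
      Real.log (1 + 3 * (q : ℝ) ^ 2 / sg) +
        (Real.log (5 * (q : ℝ) ^ 2 * (2 + m / sg) / s0) + 3) ≤ (q : ℝ) ^ 2 ∧
      (R ^ 2 + 1) / (q : ℝ) ^ 2 * G ≤ s0 / 200 := by
  have hlam : (0 : ℝ) < lam := by unfold lam; norm_num
  have heta : (0 : ℝ) < eta := by unfold eta; norm_num
  have hcast : Tendsto (fun q : ℕ => (q : ℝ)) atTop atTop := tendsto_natCast_atTop_atTop
  have hsqrt : Tendsto (fun q : ℕ => Real.sqrt (q : ℝ)) atTop atTop :=
    Real.tendsto_sqrt_atTop.comp hcast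
  have hsq : Tendsto (fun q : ℕ => (q : ℝ) ^ 2) atTop atTop :=
    (tendsto_pow_atTop (by norm_num)).comp hcast
  have k1 : ∀ᶠ q : ℕ in atTop, 32 * Rd ≤ (q : ℝ) := hcast.eventually (eventually_ge_atTop _)
  have k2 : ∀ᶠ q : ℕ in atTop, 100000 ≤ q := eventually_ge_atTop _
  have k3 : ∀ᶠ q : ℕ in atTop, Cf * Rd / Real.sqrt q ≤ eps / 400 :=
    ((hsqrt.const_div_atTop (Cf * Rd)).eventually (gt_mem_nhds (by positivity : 0 < eps / 400))).mono
      fun q hq => le_of_lt hq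
  have k4 : ∀ᶠ q : ℕ in atTop, Cs / (8 * Real.sqrt q) ≤ lam * eps / 5 :=
    (((hsqrt.const_mul_atTop (by norm_num : (0 : ℝ) < 8)).const_div_atTop Cs).eventually
      (gt_mem_nhds (by positivity : 0 < lam * eps / 5))).mono fun q hq => le_of_lt hq
  have k5 : ∀ᶠ q : ℕ in atTop, m * Real.sqrt (8 / (q * sg)) ≤ lam / 10 := by
    have h1 : Tendsto (fun q : ℕ => 8 / ((q : ℝ) * sg)) atTop (𝓝 0) :=
      (hcast.atTop_mul_const hsg).const_div_atTop 8
    have h2 : Tendsto (fun q : ℕ => m * Real.sqrt (8 / ((q : ℝ) * sg))) atTop (𝓝 (m * Real.sqrt 0)) :=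
      ((Real.continuous_sqrt.tendsto 0).comp h1).const_mul m
    rw [Real.sqrt_zero, mul_zero] at h2
    exact (h2.eventually (gt_mem_nhds (by positivity : 0 < lam / 10))).mono fun q hq => le_of_lt hq
  have k6 : ∀ᶠ q : ℕ in atTop, 150 * m ≤ (q : ℝ) * eps :=
    (hcast.atTop_mul_const heps).eventually (eventually_ge_atTop _)
  have k7 : ∀ᶠ q : ℕ in atTop, 18 * m ≤ eps * eta * (q : ℝ) ^ 2 * (9 / 10) := by
    have h1 : Tendsto (fun q : ℕ => eps * eta * (q : ℝ) ^ 2 * (9 / 10)) atTop atTop :=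
      (hsq.const_mul_atTop (by positivity)).atTop_mul_const (by norm_num)
    exact h1.eventually (eventually_ge_atTop _)
  have k8 := log_cond sg m s0 hsg hm hs0
  have k9 : ∀ᶠ q : ℕ in atTop, (R ^ 2 + 1) / (q : ℝ) ^ 2 * G ≤ s0 / 200 := by
    have h1 : Tendsto (fun q : ℕ => (R ^ 2 + 1) / (q : ℝ) ^ 2 * G) atTop (𝓝 (0 * G)) :=
      (hsq.const_div_atTop (R ^ 2 + 1)).mul_const G
    rw [zero_mul] at h1
    exact (h1.eventually (gt_mem_nhds (by positivity : 0 < s0 / 200))).mono fun q hq => le_of_lt hq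
  obtain ⟨q, hq⟩ := (k1.and (k2.and (k3.and (k4.and (k5.and (k6.and (k7.and (k8.and k9)))))))).exists
  exact ⟨q, hq⟩

theorem exists_l (rho Cm Ci Cf eps s0 sg : ℝ) (N1 q : ℕ) (hq : 0 < q) (hrho : 0 < rho)
    (heps : 0 < eps) (hs0 : 0 < s0) :
    ∀ᶠ l : ℕ in atTop, Cm * Real.exp (-(rho * l / (q : ℝ) ^ 2)) ≤ 1 / 200 ∧
      Ci * Real.exp (-(rho * l / (q : ℝ) ^ 2)) ≤ 1 / 8 ∧
      12 ≤ (49 / 50) * (Nc rho q l / rho) * s0 ∧
      N1 / sg + Cf * N1 * (1 + (l : ℝ) / (q : ℝ) ^ 2) ≤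
        (49 / 50) * (Nc rho q l / rho) * (eps / 400) ∧
      (N1 : ℝ) * l ≤ (1 / 4) * ((q : ℝ) ^ 2 / rho * Nc rho q l) := by
  have hq0 : (0 : ℝ) < (q : ℝ) := by exact_mod_cast hq
  have ht := tendsto_lq rho hrho q hq
  have k1 := ht.eventually (lin_le_exp Cm 0 (1 / 200) (by norm_num))
  have k2 := ht.eventually (lin_le_exp Ci 0 (1 / 8) (by norm_num))
  have k3 := ht.eventually (lin_le_exp 12 0 ((49 / 50) * (1 / rho) * s0) (by positivity))
  have k4 := ht.eventually (lin_le_exp (N1 / sg + Cf * N1) (Cf * N1 / rho)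
    ((49 / 50) * (1 / rho) * (eps / 400)) (by positivity))
  have k5 := ht.eventually (lin_le_exp 0 (N1 * (q : ℝ) ^ 2 / rho)
    ((1 / 4) * ((q : ℝ) ^ 2 / rho)) (by positivity))
  filter_upwards [k1, k2, k3, k4, k5] with l k1 k2 k3 k4 k5
  have hexp : Real.exp (-(rho * l / (q : ℝ) ^ 2)) * Real.exp (rho * l / (q : ℝ) ^ 2) = 1 := by
    rw [← Real.exp_add]; simp
  have hpos : 0 < Real.exp (-(rho * l / (q : ℝ) ^ 2)) := Real.exp_pos _
  refine ⟨?_, ?_, ?_, ?_, ?_⟩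
  · have h1 := mul_le_mul_of_nonneg_right k1 hpos.le
    have h2 : 1 / 200 * Real.exp (rho * l / (q : ℝ) ^ 2) * Real.exp (-(rho * l / (q : ℝ) ^ 2)) =
        1 / 200 := by
      calc _ = 1 / 200 * (Real.exp (-(rho * l / (q : ℝ) ^ 2)) * Real.exp (rho * l / (q : ℝ) ^ 2)) := by
            ring
        _ = _ := by rw [hexp, mul_one]
    linarith
  · have h1 := mul_le_mul_of_nonneg_right k2 hpos.le
    have h2 : 1 / 8 * Real.exp (rho * l / (q : ℝ) ^ 2) * Real.exp (-(rho * l / (q : ℝ) ^ 2)) =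
        1 / 8 := by
      calc _ = 1 / 8 * (Real.exp (-(rho * l / (q : ℝ) ^ 2)) * Real.exp (rho * l / (q : ℝ) ^ 2)) := by
            ring
        _ = _ := by rw [hexp, mul_one]
    linarith
  · unfold Nc
    calc (12 : ℝ) ≤ 49 / 50 * (1 / rho) * s0 * Real.exp (rho * l / (q : ℝ) ^ 2) := by linarith
      _ = _ := by ring
  · unfold Nc
    have h1 : Cf * N1 / rho * (rho * (l : ℝ) / (q : ℝ) ^ 2) = Cf * N1 * ((l : ℝ) / (q : ℝ) ^ 2) := by
      field_simp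
    have h2 : 49 / 50 * (1 / rho) * (eps / 400) * Real.exp (rho * l / (q : ℝ) ^ 2) =
        (49 / 50) * (Real.exp (rho * l / (q : ℝ) ^ 2) / rho) * (eps / 400) := by ring
    rw [h1, h2] at k4
    linarith
  · unfold Nc
    have h1 : N1 * (q : ℝ) ^ 2 / rho * (rho * (l : ℝ) / (q : ℝ) ^ 2) = N1 * (l : ℝ) := by
      field_simp
    rw [h1] at k5
    linarith

end

end NevT
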