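import Mathlib
import Pool.Agent.Helper551.Limit

set_option autoImplicit false
open MeasureTheory Metric Set Filter Topology

namespace Pool.Agent.Helper551

/-- open bounded sets which are strictly star-shaped about the origin -/
structure Star (T : Set E) : Prop where
  op : IsOpen T
  bd : Bornology.IsBounded T
  zero : (0:E) ∈ T
  star : ∀ x ∈ closure T, ∀ t : ℝ, 0 ≤ t → t < 1 → t • x ∈ T

lemma Star.connected {T : Set E} (h : Star T) : IsConnected T := by
  have hs : StarConvex ℝ (0:E) T := by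
    intro y hy a b _ hb hab
    rw [smul_zero, zero_add]
    rcases (show b ≤ 1 by linarith).eq_or_lt with h1 | h1
    · rw [h1, one_smul]; exact hy
    · exact h.star y (subset_closure hy) b hb h1
  exact (hs.isPathConnected h.zero).isConnected

lemma Star.ne_zero {T : Set E} (h : Star T) {x : E} (hx : x ∈ frontier T) : x ≠ 0 := by
  rintro rfl
  rw [h.op.frontier_eq] at hx
  exact hx.2 h.zero

/-- radial projection -/
noncomputable def Star.proj {T : Set E} (h : Star T) (x : frontier T) : sphere (0:E) 1 :=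
  ⟨‖(x:E)‖⁻¹ • (x:E), by
    have := norm_pos_iff.2 (h.ne_zero x.2)
    rw [mem_sphere, dist_zero_right, norm_smul, norm_inv, norm_norm]
    field_simp⟩

lemma Star.proj_cont {T : Set E} (h : Star T) : Continuous h.proj := by
  apply Continuous.subtype_mk
  have h1 : Continuous (fun x : frontier T => ‖(x:E)‖⁻¹) := by
    apply Continuous.inv₀ (continuous_norm.comp continuous_subtype_val)
    intro x
    exact (norm_pos_iff.2 (h.ne_zero x.2)).ne'
  exact h1.smul continuous_subtype_val

lemma Star.norm_not_lt {T : Set E} (h : Star T) {x y : E} (hx : x ∈ frontier T) (hy : y ∈ frontier T)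
    (he : ‖x‖⁻¹ • x = ‖y‖⁻¹ • y) : ¬ ‖x‖ < ‖y‖ := by
  intro hlt
  have hx0 := norm_pos_iff.2 (h.ne_zero hx)
  have hy0 := norm_pos_iff.2 (h.ne_zero hy)
  have h1 : x = (‖x‖ / ‖y‖) • y := by
    have : ‖x‖ • (‖x‖⁻¹ • x) = ‖x‖ • (‖y‖⁻¹ • y) := by rw [he]
    rw [smul_smul, smul_smul, mul_inv_cancel₀ hx0.ne', one_smul] at this
    exact this.trans (by rw [div_eq_mul_inv])
  have h2 : x ∈ T := by
    rw [h1]
    exact h.star y (frontier_subset_closure hy) _ (by positivity) ((div_lt_one hy0).2 hlt)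
  rw [h.op.frontier_eq] at hx
  exact hx.2 h2

lemma Star.proj_inj {T : Set E} (h : Star T) : Function.Injective h.proj := by
  intro x y hxy
  have he : ‖(x:E)‖⁻¹ • (x:E) = ‖(y:E)‖⁻¹ • (y:E) := congrArg Subtype.val hxy
  have h1 := h.norm_not_lt x.2 y.2 he
  have h2 := h.norm_not_lt y.2 x.2 he.symm
  have h3 : ‖(x:E)‖ = ‖(y:E)‖ := le_antisymm (not_lt.1 h2) (not_lt.1 h1)
  have hx0 := norm_pos_iff.2 (h.ne_zero x.2)
  have h4 : ‖(x:E)‖ • (‖(x:E)‖⁻¹ • (x:E)) = ‖(x:E)‖ • (‖(x:E)‖⁻¹ • (y:E)) := by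
    rw [he, h3]
  rw [smul_smul, smul_smul, mul_inv_cancel₀ hx0.ne', one_smul, one_smul] at h4
  exact Subtype.ext h4

lemma Star.proj_surj {T : Set E} (h : Star T) : Function.Surjective h.proj := by
  rintro ⟨e, he⟩
  rw [mem_sphere, dist_zero_right] at he
  set A : Set ℝ := {t | 0 ≤ t ∧ t • e ∈ closure T} with hA
  have hAcl : IsClosed A := by
    apply (isClosed_le continuous_const continuous_id).inter
    exact isClosed_closure.preimage (by fun_prop : Continuous fun t : ℝ => t • e)
  obtain ⟨r, hr⟩ := h.bd.closure.subset_closedBall 0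
  have hAbd : BddAbove A := by
    refine ⟨r, fun t ht => ?_⟩
    have := hr ht.2
    rw [mem_closedBall, dist_zero_right, norm_smul, he, Real.norm_eq_abs, abs_of_nonneg ht.1] at this
    linarith
  have hAne : A.Nonempty := ⟨0, le_rfl, by rw [zero_smul]; exact subset_closure h.zero⟩
  have hmem : sSup A ∈ A := hAcl.csSup_mem hAne hAbd
  set t := sSup A with ht
  have hnot : t • e ∉ T := by
    intro hc
    obtain ⟨s, hs, hb⟩ := Metric.isOpen_iff.1 h.op _ hc
    have : (t + s/2) ∈ A := by
      refine ⟨by linarith [hmem.1], subset_closure (hb ?_)⟩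
      rw [mem_ball, dist_eq_norm, ← sub_smul, norm_smul, he, Real.norm_eq_abs]
      rw [show t + s/2 - t = s/2 by ring, abs_of_pos (by linarith)]
      linarith
    have := le_csSup hAbd this
    linarith
  have htfr : t • e ∈ frontier T := by
    rw [h.op.frontier_eq]; exact ⟨hmem.2, hnot⟩
  have htpos : 0 < t := by
    rcases hmem.1.eq_or_lt with h0 | h0
    · exfalso; apply hnot; rw [← h0, zero_smul]; exact h.zero
    · exact h0
  refine ⟨⟨t • e, htfr⟩, ?_⟩
  apply Subtype.ext
  show ‖t • e‖⁻¹ • (t • e) = e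
  rw [norm_smul, he, Real.norm_eq_abs, abs_of_pos htpos, mul_one, smul_smul, inv_mul_cancel₀ htpos.ne', one_smul]

theorem Star.homeo {T : Set E} (h : Star T) : Nonempty (frontier T ≃ₜ sphere (0:E) 1) := by
  have hc : IsCompact (frontier T) := by
    apply Metric.isCompact_of_isClosed_isBounded isClosed_frontier
    exact h.bd.closure.subset frontier_subset_closure
  have : CompactSpace (frontier T) := isCompact_iff_compactSpace.1 hc
  exact ⟨Continuous.homeoOfEquivCompactToT2 (f := Equiv.ofBijective h.proj ⟨h.proj_inj, h.proj_surj⟩) h.proj_cont⟩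

/-! ### the outer domain -/

noncomputable def pp : E := EuclideanSpace.single 0 1

lemma pp_norm : ‖pp‖ = 1 := by simp [pp]

def UU : Set E := ball pp 10 ∪ ball (-pp) 10

lemma round_ball (p : E) (hp : ‖p‖ = 1) (x y : E) (hx : x ∈ ball p 10) (h : 2 * ‖x - y‖ ≤ ‖x‖^2 - ‖y‖^2) :
    y ∈ ball p 10 := by
  rw [mem_ball, dist_eq_norm] at *
  have e1 : ‖x - p‖^2 = ‖x‖^2 - 2 * inner ℝ x p + 1 := by rw [norm_sub_sq_real, hp]; ring
  have e2 : ‖y - p‖^2 = ‖y‖^2 - 2 * inner ℝ y p + 1 := by rw [norm_sub_sq_real, hp]; ring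
  have e3 : inner ℝ x p - inner ℝ y p ≤ ‖x - y‖ := by
    rw [← inner_sub_left]
    have := real_inner_le_norm (x - y) p
    rw [hp, mul_one] at this
    exact this
  have e4 : ‖y - p‖^2 ≤ ‖x - p‖^2 := by rw [e1, e2]; linarith
  have e5 : ‖y - p‖ ≤ ‖x - p‖ := by
    exact (sq_le_sq₀ (norm_nonneg _) (norm_nonneg _)).1 e4
  linarith

lemma UU_dom : Dom UU where
  op := isOpen_ball.union isOpen_ball
  sub := by
    rintro x (hx | hx)
    · rw [mem_ball, dist_eq_norm] at hx
      rw [mem_ball, dist_zero_right]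
      have := norm_le_norm_sub_add x pp
      rw [pp_norm] at this
      linarith
    · rw [mem_ball, dist_eq_norm] at hx
      rw [mem_ball, dist_zero_right]
      have := norm_le_norm_sub_add x (-pp)
      rw [norm_neg, pp_norm] at this
      linarith
  sup := by
    intro x hx
    left
    rw [mem_ball, dist_zero_right] at hx
    rw [mem_ball, dist_eq_norm]
    have := norm_sub_le x pp
    rw [pp_norm] at this
    linarith
  round := by
    rintro x (hx | hx) y h
    · left; exact round_ball pp pp_norm x y hx h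
    · right; exact round_ball (-pp) (by rw [norm_neg, pp_norm]) x y hx h

lemma star_ball (p : E) (hp : ‖p‖ = 1) (x : E) (hx : x ∈ closedBall p 10) (t : ℝ) (ht0 : 0 ≤ t) (ht1 : t < 1) :
    t • x ∈ ball p 10 := by
  rw [mem_closedBall, dist_eq_norm] at hx
  rw [mem_ball, dist_eq_norm]
  have e : t • x - p = t • (x - p) - (1 - t) • p := by
    rw [smul_sub, sub_smul, one_smul]; abel
  rw [e]
  refine (norm_sub_le _ _).trans_lt ?_
  rw [norm_smul, norm_smul, hp, Real.norm_eq_abs, Real.norm_eq_abs, abs_of_nonneg ht0, abs_of_pos (by linarith)]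
  nlinarith

lemma UU_closure : closure UU ⊆ closedBall pp 10 ∪ closedBall (-pp) 10 := by
  unfold UU
  rw [closure_union]
  exact union_subset_union closure_ball_subset_closedBall closure_ball_subset_closedBall

lemma UU_star : Star UU where
  op := UU_dom.op
  bd := isBounded_ball.subset UU_dom.sub
  zero := UU_dom.sup (by simp)
  star := by
    intro x hx t ht0 ht1
    rcases UU_closure hx with h | h
    · left; exact star_ball pp pp_norm x h t ht0 ht1
    · right; exact star_ball (-pp) (by rw [norm_neg, pp_norm]) x h t ht0 ht1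

/-- the cavity -/
noncomputable def TT : Set E := interior (Lam UU_dom)

lemma TT_star : Star TT where
  op := isOpen_interior
  bd := isBounded_closedBall.subset (interior_subset.trans (Lam_sub UU_dom))
  zero := interior_mono (ball_sub_Lam UU_dom) (by rw [isOpen_ball.interior_eq]; simp)
  star := by
    intro x hx t ht0 ht1
    have hx' : x ∈ Lam UU_dom := by
      rw [← Lam_closure]; exact hx
    exact Lam_star UU_dom hx' ht0 ht1

lemma TT_closure : closure TT = Lam UU_dom := Lam_closure UU_dom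

lemma TT_closure_sub : closure TT ⊆ UU := by
  rw [TT_closure]
  refine (Lam_sub UU_dom).trans (Subset.trans ?_ UU_dom.sup)
  exact closedBall_subset_ball (by norm_num)

/-! ### four collinear boundary points -/

noncomputable def qq (a : ℝ) : E := !₂[a, √399 / 2, 0]

lemma pp_eq : pp = !₂[(1:ℝ), 0, 0] := by
  ext i
  fin_cases i <;> simp [pp]

lemma qq_dist (a : ℝ) : dist (qq a) pp ^ 2 = (a - 1)^2 + 399/4 := by
  rw [pp_eq, EuclideanSpace.dist_sq_eq, Fin.sum_univ_three]
  simp [qq, Real.dist_eq, sq_abs, div_pow]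
  norm_num

lemma qq_dist' (a : ℝ) : dist (qq a) (-pp) ^ 2 = (a + 1)^2 + 399/4 := by
  rw [pp_eq, EuclideanSpace.dist_sq_eq, Fin.sum_univ_three]
  simp [qq, Real.dist_eq, sq_abs, div_pow]
  norm_num

lemma qq_mem (a : ℝ) (h1 : 1/4 ≤ (a-1)^2) (h2 : 1/4 ≤ (a+1)^2) (h3 : (a-1)^2 = 1/4 ∨ (a+1)^2 = 1/4) :
    qq a ∈ frontier UU := by
  rw [UU_dom.op.frontier_eq]
  have d1 := qq_dist a
  have d2 := qq_dist' a
  constructor
  · unfold UU
    rw [closure_union, closure_ball _ (by norm_num), closure_ball _ (by norm_num)]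
    rcases h3 with h | h
    · left
      rw [mem_closedBall]
      nlinarith [dist_nonneg (x := qq a) (y := pp)]
    · right
      rw [mem_closedBall]
      nlinarith [dist_nonneg (x := qq a) (y := -pp)]
  · rintro (h | h)
    · rw [mem_ball] at h
      nlinarith [dist_nonneg (x := qq a) (y := pp)]
    · rw [mem_ball] at h
      nlinarith [dist_nonneg (x := qq a) (y := -pp)]

lemma q1_mem : qq (-1/2) ∈ frontier UU := qq_mem _ (by norm_num) (by norm_num) (by norm_num)
lemma q2_mem : qq (1/2) ∈ frontier UU := qq_mem _ (by norm_num) (by norm_num) (by norm_num)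
lemma q3_mem : qq (3/2) ∈ frontier UU := qq_mem _ (by norm_num) (by norm_num) (by norm_num)

lemma q_mid : qq (1/2) = midpoint ℝ (qq (-1/2)) (qq (3/2)) := by
  rw [midpoint_eq_smul_add]
  ext i
  fin_cases i <;> simp [qq] <;> ring

lemma not_ellipsoid (f : E ≃ᵃ[ℝ] E) : frontier UU ≠ f '' sphere (0:E) 1 := by
  intro h
  obtain ⟨s1, hs1, e1⟩ : qq (-1/2) ∈ f '' sphere (0:E) 1 := h ▸ q1_mem
  obtain ⟨s2, hs2, e2⟩ : qq (1/2) ∈ f '' sphere (0:E) 1 := h ▸ q2_mem
  obtain ⟨s3, hs3, e3⟩ : qq (3/2) ∈ f '' sphere (0:E) 1 := h ▸ q3_mem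
  have h2 : s2 = midpoint ℝ s1 s3 := by
    apply f.injective
    rw [f.map_midpoint, e1, e2, e3]; exact q_mid
  rw [mem_sphere, dist_zero_right] at hs1 hs2 hs3
  rw [h2, midpoint_eq_smul_add, norm_smul] at hs2
  have h5 : ‖s1 + s3‖ = 2 := by
    have : ‖(⅟2 : ℝ)‖ = 1/2 := by norm_num
    rw [this] at hs2; linarith
  have h6 := parallelogram_law_with_norm ℝ s1 s3
  rw [h5, hs1, hs3] at h6
  have h7 : ‖s1 - s3‖ = 0 := by nlinarith [norm_nonneg (s1 - s3)]
  have h8 : s1 = s3 := sub_eq_zero.1 (norm_eq_zero.1 h7)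
  have h9 : qq (-1/2) = qq (3/2) := by rw [← e1, ← e3, h8]
  have h10 : (qq (-1/2)) 0 = (qq (3/2)) 0 := by rw [h9]
  simp [qq] at h10
  norm_num at h10

end Pool.Agent.Helper551
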