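import Mathlib

set_option autoImplicit false

open Complex Filter Topology

namespace Pool.Agent.Helper551.Wr

/-- Exponential type series with real coefficients `c`. -/
noncomputable def Es (c : ℕ → ℝ) (z : ℂ) : ℂ := ∑' k : ℕ, (c k : ℂ) * (z ^ k / (k.factorial : ℂ))

/-- comparison function -/
noncomputable def Ph (z : ℂ) : ℝ := Real.exp (max z.re 0)

lemma Ph_pos (z : ℂ) : 0 < Ph z := Real.exp_pos _

lemma exp_le_Ph (z : ℂ) : ‖Complex.exp z‖ ≤ Ph z := by
  rw [Complex.norm_exp]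
  exact Real.exp_le_exp.mpr (le_max_left _ _)

lemma Ph_smul_le {t : ℝ} (ht0 : 0 ≤ t) (ht1 : t ≤ 1) (z : ℂ) : Ph ((t : ℂ) * z) ≤ Ph z := by
  unfold Ph
  apply Real.exp_le_exp.mpr
  have : ((t : ℂ) * z).re = t * z.re := by simp
  rw [this]
  apply max_le _ (le_max_right _ _)
  rcases le_total 0 z.re with h | h
  · exact le_trans (mul_le_of_le_one_left h ht1) (le_max_left _ _)
  · exact le_trans (mul_nonpos_of_nonneg_of_nonpos ht0 h) (le_max_right _ _)

lemma summable_pow_div (r : ℝ) : Summable (fun k : ℕ => r ^ k / (k.factorial : ℝ)) :=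
  Real.summable_pow_div_factorial r

lemma norm_term {c : ℕ → ℝ} {B : ℝ} (hc : ∀ k, |c k| ≤ B) (z : ℂ) (k : ℕ) :
    ‖(c k : ℂ) * (z ^ k / (k.factorial : ℂ))‖ ≤ B * (‖z‖ ^ k / (k.factorial : ℝ)) := by
  rw [norm_mul, norm_div, norm_pow, Complex.norm_natCast, Complex.norm_real, Real.norm_eq_abs]
  exact mul_le_mul_of_nonneg_right (hc k) (by positivity)

lemma summable_norm_Es {c : ℕ → ℝ} {B : ℝ} (hc : ∀ k, |c k| ≤ B) (z : ℂ) :
    Summable (fun k : ℕ => ‖(c k : ℂ) * (z ^ k / (k.factorial : ℂ))‖) :=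
  Summable.of_nonneg_of_le (fun _ => norm_nonneg _) (norm_term hc z)
    ((summable_pow_div ‖z‖).mul_left B)

lemma summable_Es {c : ℕ → ℝ} {B : ℝ} (hc : ∀ k, |c k| ≤ B) (z : ℂ) :
    Summable (fun k : ℕ => (c k : ℂ) * (z ^ k / (k.factorial : ℂ))) :=
  (summable_norm_Es hc z).of_norm

lemma Es_one (z : ℂ) : Es (fun _ => 1) z = Complex.exp z := by
  unfold Es
  rw [Complex.exp_eq_exp_ℂ, NormedSpace.exp_eq_tsum_div]
  simp

lemma differentiable_Es {c : ℕ → ℝ} {B : ℝ} (hc : ∀ k, |c k| ≤ B) : Differentiable ℂ (Es c) := by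
  intro z
  have hB : 0 ≤ B := le_trans (abs_nonneg _) (hc 0)
  have h : DifferentiableOn ℂ (fun w : ℂ => ∑' k : ℕ, (c k : ℂ) * (w ^ k / (k.factorial : ℂ)))
      (Metric.ball 0 (‖z‖ + 1)) := by
    refine differentiableOn_tsum_of_summable_norm
      (u := fun k => B * ((‖z‖ + 1) ^ k / (k.factorial : ℝ)))
      ((summable_pow_div _).mul_left B) ?_ Metric.isOpen_ball ?_
    · intro i
      fun_prop
    · intro i w hw
      refine le_trans (norm_term hc w i) ?_
      have hw' : ‖w‖ ≤ ‖z‖ + 1 := by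
        have := Metric.mem_ball.mp hw
        rw [dist_zero_right] at this
        exact this.le
      gcongr
  exact h.differentiableAt (Metric.isOpen_ball.mem_nhds (by simp))

lemma Es_conj (c : ℕ → ℝ) (z : ℂ) : Es c (starRingEnd ℂ z) = starRingEnd ℂ (Es c z) := by
  unfold Es
  rw [Complex.conj_tsum]
  apply tsum_congr
  intro k
  simp

/-- division of the coefficients by `k + p` -/
lemma Es_div_eq_integral {c : ℕ → ℝ} {B : ℝ} (hc : ∀ k, |c k| ≤ B) {p : ℝ} (hp : 0 < p) (z : ℂ) :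
    Es (fun k => c k / (k + p)) z =
      ∫ t in Set.Ioc (0 : ℝ) 1, ((t ^ (p - 1) : ℝ) : ℂ) * Es c ((t : ℂ) * z) := by
  have hB : 0 ≤ B := le_trans (abs_nonneg _) (hc 0)
  have hint : ∀ k : ℕ, MeasureTheory.IntegrableOn (fun t : ℝ => t ^ (p - 1 + k)) (Set.Ioc (0 : ℝ) 1) := by
    intro k
    have hk : -1 < p - 1 + (k : ℝ) := by
      have : (0 : ℝ) ≤ k := Nat.cast_nonneg k
      linarith
    have := intervalIntegral.intervalIntegrable_rpow' (a := 0) (b := 1) hk
    exact (intervalIntegrable_iff_integrableOn_Ioc_of_le zero_le_one).mp this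
  have hval : ∀ k : ℕ, ∫ t in Set.Ioc (0 : ℝ) 1, t ^ (p - 1 + k) = 1 / (k + p) := by
    intro k
    have hk : -1 < p - 1 + (k : ℝ) := by
      have : (0 : ℝ) ≤ k := Nat.cast_nonneg k
      linarith
    rw [← intervalIntegral.integral_of_le zero_le_one, integral_rpow (Or.inl hk)]
    have h0 : p - 1 + (k : ℝ) + 1 = k + p := by ring
    have h1 : (0 : ℝ) < k + p := by positivity
    rw [h0, Real.one_rpow, Real.zero_rpow h1.ne', sub_zero]
  -- terms
  set F : ℕ → ℝ → ℂ := fun k t => ((t ^ (p - 1 + k) : ℝ) : ℂ) * ((c k : ℂ) * (z ^ k / (k.factorial : ℂ)))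
    with hF
  have hFint : ∀ k, MeasureTheory.Integrable (F k) (MeasureTheory.volume.restrict (Set.Ioc (0 : ℝ) 1)) := by
    intro k
    exact (hint k).ofReal.mul_const _
  have hFval : ∀ k, ∫ t in Set.Ioc (0 : ℝ) 1, F k t
      = ((c k / (k + p) : ℝ) : ℂ) * (z ^ k / (k.factorial : ℂ)) := by
    intro k
    simp only [hF]
    rw [MeasureTheory.integral_mul_const, integral_complex_ofReal, hval k]
    push_cast
    ring
  have hFnorm : ∀ k, ∫ t in Set.Ioc (0 : ℝ) 1, ‖F k t‖
      = (1 / (k + p)) * ‖(c k : ℂ) * (z ^ k / (k.factorial : ℂ))‖ := by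
    intro k
    have : ∀ t ∈ Set.Ioc (0 : ℝ) 1, ‖F k t‖ = t ^ (p - 1 + k) * ‖(c k : ℂ) * (z ^ k / (k.factorial : ℂ))‖ := by
      intro t ht
      simp only [hF]
      rw [norm_mul, Complex.norm_real, Real.norm_eq_abs, abs_of_nonneg (Real.rpow_nonneg ht.1.le _)]
    rw [MeasureTheory.setIntegral_congr_fun measurableSet_Ioc this, MeasureTheory.integral_mul_const, hval k]
  have hsum : Summable (fun k => ∫ t in Set.Ioc (0 : ℝ) 1, ‖F k t‖) := by
    have : Summable (fun k : ℕ => (1 / p) * ‖(c k : ℂ) * (z ^ k / (k.factorial : ℂ))‖) :=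
      (summable_norm_Es hc z).mul_left _
    refine Summable.of_nonneg_of_le ?_ ?_ this
    · intro k
      rw [hFnorm k]
      positivity
    · intro k
      rw [hFnorm k]
      apply mul_le_mul_of_nonneg_right _ (norm_nonneg _)
      apply one_div_le_one_div_of_le hp
      have : (0 : ℝ) ≤ k := Nat.cast_nonneg k
      linarith
  have key := (MeasureTheory.hasSum_integral_of_summable_integral_norm hFint hsum).tsum_eq
  have hL : ∑' k, ∫ t in Set.Ioc (0 : ℝ) 1, F k t = Es (fun k => c k / (k + p)) z := by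
    unfold Es
    exact tsum_congr hFval
  rw [← hL, key]
  apply MeasureTheory.setIntegral_congr_fun measurableSet_Ioc
  intro t ht
  simp only [hF]
  unfold Es
  rw [← tsum_mul_left]
  apply tsum_congr
  intro k
  rw [Real.rpow_add ht.1, Real.rpow_natCast]
  push_cast
  rw [mul_pow]
  ring

lemma Es_div_bound {c : ℕ → ℝ} {B : ℝ} (hc : ∀ k, |c k| ≤ B) {p : ℝ} (hp : 0 < p) {A : ℝ}
    (hA : 0 ≤ A) (h : ∀ z, ‖Es c z‖ ≤ A * Ph z) (z : ℂ) :
    ‖Es (fun k => c k / (k + p)) z‖ ≤ (A / p) * Ph z := by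
  rw [Es_div_eq_integral hc hp z]
  have hk : -1 < p - 1 := by linarith
  have hint : MeasureTheory.IntegrableOn (fun t : ℝ => t ^ (p - 1)) (Set.Ioc (0 : ℝ) 1) :=
    (intervalIntegrable_iff_integrableOn_Ioc_of_le zero_le_one).mp
      (intervalIntegral.intervalIntegrable_rpow' (a := 0) (b := 1) hk)
  have hval : ∫ t in Set.Ioc (0 : ℝ) 1, t ^ (p - 1) = 1 / p := by
    rw [← intervalIntegral.integral_of_le zero_le_one, integral_rpow (Or.inl hk)]
    have h0 : p - 1 + 1 = p := by ring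
    rw [h0, Real.one_rpow, Real.zero_rpow hp.ne', sub_zero]
  have h1 : ‖∫ t in Set.Ioc (0 : ℝ) 1, ((t ^ (p - 1) : ℝ) : ℂ) * Es c ((t : ℂ) * z)‖
      ≤ ∫ t in Set.Ioc (0 : ℝ) 1, t ^ (p - 1) * (A * Ph z) := by
    apply MeasureTheory.norm_integral_le_of_norm_le (hint.mul_const _)
    rw [MeasureTheory.ae_restrict_iff' measurableSet_Ioc]
    refine Eventually.of_forall fun t ht => ?_
    rw [norm_mul, Complex.norm_real, Real.norm_eq_abs, abs_of_nonneg (Real.rpow_nonneg ht.1.le _)]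
    apply mul_le_mul_of_nonneg_left _ (Real.rpow_nonneg ht.1.le _)
    exact le_trans (h _) (mul_le_mul_of_nonneg_left (Ph_smul_le ht.1.le ht.2 z) hA)
  refine le_trans h1 (le_of_eq ?_)
  rw [MeasureTheory.integral_mul_const, hval]
  ring

lemma Es_sub {c d : ℕ → ℝ} {B D : ℝ} (hc : ∀ k, |c k| ≤ B) (hd : ∀ k, |d k| ≤ D) (δ : ℝ) (z : ℂ) :
    Es (fun k => c k - δ * d k) z = Es c z - δ * Es d z := by
  unfold Es
  rw [← tsum_mul_left, ← (summable_Es hc z).tsum_sub ((summable_Es hd z).mul_left _)]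
  apply tsum_congr
  intro k
  push_cast
  ring

/-- `Good c` : coefficients in `[0,1]`, and `Es c` is close to the exponential. -/
def Good (c : ℕ → ℝ) : Prop :=
  (∀ k, 0 ≤ c k ∧ c k ≤ 1) ∧ 0 < c 0 ∧ ∀ z, ‖Es c z - Complex.exp z‖ ≤ (1 / c 0 - 1) * Ph z

lemma Good_one : Good (fun _ => 1) := by
  refine ⟨fun _ => ⟨zero_le_one, le_refl 1⟩, one_pos, fun z => ?_⟩
  rw [Es_one]
  simp

lemma Good_step {c : ℕ → ℝ} (h : Good c) {δ p q : ℝ} (hδ : 0 ≤ δ) (hp : 0 < p) (hq : 0 < q)
    (hδpq : δ < p * q) :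
    Good (fun k => c k * (1 - δ / ((k + p) * (k + q)))) := by
  obtain ⟨h01, h0, hE⟩ := h
  have hcabs : ∀ k, |c k| ≤ 1 := fun k => by
    rw [abs_of_nonneg (h01 k).1]; exact (h01 k).2
  have hpq : 0 < p * q := mul_pos hp hq
  have hfrac : ∀ k : ℕ, 0 ≤ δ / ((k + p) * (k + q)) ∧ δ / ((k + p) * (k + q)) < 1 := by
    intro k
    have hk : (0 : ℝ) ≤ k := Nat.cast_nonneg k
    refine ⟨by positivity, ?_⟩
    rw [div_lt_one (by positivity)]
    nlinarith [mul_nonneg hk hk, mul_nonneg hk hp.le, mul_nonneg hk hq.le]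
  refine ⟨fun k => ⟨mul_nonneg (h01 k).1 (by linarith [(hfrac k).2]), ?_⟩, ?_, ?_⟩
  · exact mul_le_one₀ (h01 k).2 (by linarith [(hfrac k).2]) (by linarith [(hfrac k).1])
  · have := (hfrac 0).2
    exact mul_pos h0 (by linarith)
  · intro z
    -- the bound for `c`
    have hA1 : 1 ≤ 1 / c 0 := by
      rw [le_div_iff₀ h0]; linarith [(h01 0).2]
    have hA0 : 0 ≤ 1 / c 0 := by linarith
    have hb : ∀ z, ‖Es c z‖ ≤ (1 / c 0) * Ph z := by
      intro z
      have h1 : ‖Es c z‖ ≤ ‖Es c z - Complex.exp z‖ + ‖Complex.exp z‖ := by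
        have := norm_add_le (Es c z - Complex.exp z) (Complex.exp z)
        rwa [sub_add_cancel] at this
      have h2 := hE z
      have h3 := exp_le_Ph z
      calc ‖Es c z‖ ≤ (1 / c 0 - 1) * Ph z + Ph z := by linarith
        _ = (1 / c 0) * Ph z := by ring
    have hcp : ∀ k : ℕ, |c k / (k + p)| ≤ 1 / p := by
      intro k
      have hk : (0 : ℝ) ≤ k := Nat.cast_nonneg k
      rw [abs_div, abs_of_pos (show (0 : ℝ) < k + p by positivity)]
      apply div_le_div₀ zero_le_one (hcabs k) hp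
      linarith
    have hb1 := Es_div_bound hcabs hp hA0 hb
    have hb2 := Es_div_bound hcp hq (div_nonneg hA0 hp.le) hb1
    have hd : ∀ k : ℕ, |c k / (k + p) / (k + q)| ≤ 1 / p / q := by
      intro k
      have hk : (0 : ℝ) ≤ k := Nat.cast_nonneg k
      rw [abs_div (c k / (k + p)), abs_of_pos (show (0 : ℝ) < k + q by positivity)]
      apply div_le_div₀ (by positivity) (hcp k) hq
      linarith
    have hEq : Es (fun k => c k * (1 - δ / ((k + p) * (k + q)))) z
        = Es c z - δ * Es (fun k => c k / (k + p) / (k + q)) z := by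
      rw [← Es_sub hcabs hd]
      congr 1
      funext k
      have hk : (0 : ℝ) ≤ k := Nat.cast_nonneg k
      have h1 : (k : ℝ) + p ≠ 0 := by positivity
      have h2 : (k : ℝ) + q ≠ 0 := by positivity
      field_simp
    rw [hEq]
    have h4 : ‖Es c z - δ * Es (fun k => c k / (k + p) / (k + q)) z - Complex.exp z‖
        ≤ ‖Es c z - Complex.exp z‖ + δ * ‖Es (fun k => c k / (k + p) / (k + q)) z‖ := by
      have e : Es c z - δ * Es (fun k => c k / (k + p) / (k + q)) z - Complex.exp z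
          = (Es c z - Complex.exp z) - δ * Es (fun k => c k / (k + p) / (k + q)) z := by ring
      rw [e]
      refine le_trans (norm_sub_le _ _) ?_
      rw [norm_mul, Complex.norm_real, Real.norm_eq_abs, abs_of_nonneg hδ]
    refine le_trans h4 ?_
    have h5 := mul_le_mul_of_nonneg_left (hb2 z) hδ
    have h6 := hE z
    have hP : δ / (p * q) < 1 := by rw [div_lt_one hpq]; exact hδpq
    have hP0 : 0 ≤ δ / (p * q) := by positivity
    set P := δ / (p * q) with hPdef
    have h7 : δ * (1 / c 0 / p / q * Ph z) = (1 / c 0 * P) * Ph z := by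
      rw [hPdef]; field_simp
    have h8 : (1 / c 0 - 1) * Ph z + (1 / c 0 * P) * Ph z ≤ (1 / (c 0 * (1 - P)) - 1) * Ph z := by
      have h9 : 1 / c 0 * (1 + P) ≤ 1 / (c 0 * (1 - P)) := by
        rw [one_div_mul_eq_div, div_le_div_iff₀ h0 (mul_pos h0 (by linarith))]
        nlinarith [mul_nonneg h0.le (mul_nonneg hP0 hP0)]
      have := mul_le_mul_of_nonneg_right h9 (Ph_pos z).le
      nlinarith
    have h10 : c 0 * (1 - δ / ((((0 : ℕ) : ℝ) + p) * (((0 : ℕ) : ℝ) + q))) = c 0 * (1 - P) := by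
      simp [hPdef]
    show _ ≤ (1 / (c 0 * (1 - δ / ((((0 : ℕ) : ℝ) + p) * (((0 : ℕ) : ℝ) + q)))) - 1) * Ph z
    rw [h10]
    linarith

lemma Good_prod {ι : Type*} (S : Finset ι) (δ p q : ι → ℝ) (hδ : ∀ i ∈ S, 0 ≤ δ i)
    (hp : ∀ i ∈ S, 0 < p i) (hq : ∀ i ∈ S, 0 < q i) (h : ∀ i ∈ S, δ i < p i * q i) :
    Good (fun k => ∏ i ∈ S, (1 - δ i / ((k + p i) * (k + q i)))) := by
  classical
  induction S using Finset.induction_on with
  | empty => simpa using Good_one
  | insert a S ha ih =>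
    have h1 := ih (fun i hi => hδ i (Finset.mem_insert_of_mem hi))
      (fun i hi => hp i (Finset.mem_insert_of_mem hi))
      (fun i hi => hq i (Finset.mem_insert_of_mem hi))
      (fun i hi => h i (Finset.mem_insert_of_mem hi))
    have h2 := Good_step h1 (hδ a (Finset.mem_insert_self a S)) (hp a (Finset.mem_insert_self a S))
      (hq a (Finset.mem_insert_self a S)) (h a (Finset.mem_insert_self a S))
    have e : (fun k : ℕ => ∏ i ∈ insert a S, (1 - δ i / ((k + p i) * (k + q i))))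
        = fun k : ℕ => (∏ i ∈ S, (1 - δ i / ((k + p i) * (k + q i)))) *
          (1 - δ a / ((k + p a) * (k + q a))) := by
      funext k
      rw [Finset.prod_insert ha, mul_comm]
    rw [e]
    exact h2

/-- Zero free region. -/
theorem zero_free {c : ℕ → ℝ} {B θ : ℝ} (hc : ∀ k, |c k| ≤ B) (hθ : θ < 1)
    (h : ∀ z, ‖Es c z - Complex.exp z‖ ≤ θ * Ph z) {z : ℂ} (hz : z.re ≠ 0) :
    Es c z + Es c (-z) ≠ 0 := by
  have hθ0 : 0 ≤ θ := by
    have h1 := le_trans (norm_nonneg _) (h 0)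
    have h2 := Ph_pos 0
    by_contra hneg
    push Not at hneg
    nlinarith
  have hre : ∀ w : ℂ, 0 ≤ w.re → (1 - θ) * Real.exp w.re ≤ ‖Es c w‖ := by
    intro w hw
    have h1 := h w
    have h2 : Ph w = Real.exp w.re := by unfold Ph; rw [max_eq_left hw]
    have h3 : ‖Complex.exp w‖ = Real.exp w.re := Complex.norm_exp w
    have h4 : ‖Complex.exp w‖ ≤ ‖Es c w‖ + ‖Es c w - Complex.exp w‖ := by
      have := norm_sub_le (Es c w) (Es c w - Complex.exp w)
      rwa [sub_sub_cancel] at this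
    rw [h2] at h1
    rw [h3] at h4
    linarith
  have hne : ∀ w : ℂ, 0 ≤ w.re → Es c w ≠ 0 := by
    intro w hw h0
    have h1 := hre w hw
    rw [h0, norm_zero] at h1
    have := mul_pos (sub_pos.mpr hθ) (Real.exp_pos w.re)
    linarith
  have hneg : ∀ w : ℂ, 0 ≤ w.re → ‖Es c (-w)‖ ≤ 1 + θ := by
    intro w hw
    have h1 := h (-w)
    have h2 : Ph (-w) = 1 := by
      unfold Ph
      rw [max_eq_right (by simpa using hw), Real.exp_zero]
    have h3 : ‖Complex.exp (-w)‖ ≤ 1 := by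
      rw [Complex.norm_exp]
      exact Real.exp_le_one_iff.mpr (by simpa using hw)
    have h4 : ‖Es c (-w)‖ ≤ ‖Es c (-w) - Complex.exp (-w)‖ + ‖Complex.exp (-w)‖ := by
      have := norm_add_le (Es c (-w) - Complex.exp (-w)) (Complex.exp (-w))
      rwa [sub_add_cancel] at this
    rw [h2] at h1
    linarith
  set f : ℂ → ℂ := fun w => Es c (-w) * Complex.exp w / Es c w with hf
  have hfb : ∀ w : ℂ, 0 ≤ w.re → ‖f w‖ ≤ (1 + θ) / (1 - θ) := by
    intro w hw
    simp only [hf]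
    rw [norm_div, norm_mul, Complex.norm_exp, div_le_div_iff₀ (norm_pos_iff.mpr (hne w hw)) (by linarith)]
    have h1 := hre w hw
    have h2 := hneg w hw
    have h3 := Real.exp_pos w.re
    calc ‖Es c (-w)‖ * Real.exp w.re * (1 - θ) ≤ (1 + θ) * Real.exp w.re * (1 - θ) := by
          apply mul_le_mul_of_nonneg_right _ (by linarith)
          exact mul_le_mul_of_nonneg_right h2 h3.le
      _ = (1 + θ) * ((1 - θ) * Real.exp w.re) := by ring
      _ ≤ (1 + θ) * ‖Es c w‖ := mul_le_mul_of_nonneg_left h1 (by linarith)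
  have hdiff : DiffContOnCl ℂ f {w | 0 < w.re} := by
    apply DifferentiableOn.diffContOnCl
    rw [Complex.closure_setOfPred_lt_re]
    intro w hw
    have hd := differentiable_Es hc
    have h1 : DifferentiableAt ℂ (fun w => Es c (-w) * Complex.exp w) w := by
      apply DifferentiableAt.mul
      · exact (hd (-w)).comp w differentiableAt_id.neg
      · fun_prop
    exact (h1.div (hd w) (hne w hw)).differentiableWithinAt
  have him : ∀ x : ℝ, ‖f (x * Complex.I)‖ ≤ 1 := by
    intro x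
    have hw : (0 : ℝ) ≤ ((x : ℂ) * Complex.I).re := by simp
    have h1 : Es c (-((x : ℂ) * Complex.I)) = starRingEnd ℂ (Es c ((x : ℂ) * Complex.I)) := by
      rw [← Es_conj]
      congr 1
      simp
    simp only [hf]
    rw [norm_div, norm_mul, h1, RCLike.norm_conj, Complex.norm_exp]
    have h2 : ((x : ℂ) * Complex.I).re = 0 := by simp
    rw [h2, Real.exp_zero, mul_one, div_self (norm_ne_zero_iff.mpr (hne _ hw))]
  have hPL : ∀ w : ℂ, 0 ≤ w.re → ‖f w‖ ≤ 1 := by
    intro w hw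
    refine PhragmenLindelof.right_half_plane_of_bounded_on_real hdiff ?_ ?_ him hw
    · refine ⟨1, by norm_num, 0, ?_⟩
      refine Asymptotics.IsBigO.of_bound ((1 + θ) / (1 - θ)) ?_
      rw [Filter.eventually_inf_principal]
      refine Eventually.of_forall fun w hw => ?_
      have : (0 : ℝ) ≤ w.re := le_of_lt hw
      simpa using hfb w this
    · refine ⟨(1 + θ) / (1 - θ), ?_⟩
      rw [Filter.eventually_map]
      filter_upwards [Filter.eventually_ge_atTop (0 : ℝ)] with x hx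
      exact hfb x (by simpa using hx)
  have hlt : ∀ w : ℂ, 0 < w.re → ‖Es c (-w)‖ < ‖Es c w‖ := by
    intro w hw
    have h1 := hPL w hw.le
    simp only [hf] at h1
    have h0 : 0 < ‖Es c w‖ := norm_pos_iff.mpr (hne w hw.le)
    rw [norm_div, norm_mul, Complex.norm_exp, div_le_one h0] at h1
    have h2 : 1 < Real.exp w.re := by
      have := Real.add_one_lt_exp hw.ne'
      linarith
    rcases eq_or_lt_of_le (norm_nonneg (Es c (-w))) with h3 | h3
    · rw [← h3]; exact h0
    · nlinarith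
  intro hsum
  rcases lt_or_gt_of_ne hz with hneg' | hpos
  · have h1 := hlt (-z) (by simpa using hneg')
    rw [neg_neg] at h1
    have h2 : Es c z = - Es c (-z) := eq_neg_of_add_eq_zero_left hsum
    rw [h2, norm_neg] at h1
    exact lt_irrefl _ h1
  · have h1 := hlt z hpos
    have h2 : Es c z = - Es c (-z) := eq_neg_of_add_eq_zero_left hsum
    rw [h2, norm_neg] at h1
    exact lt_irrefl _ h1

end Pool.Agent.Helper551.Wr
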