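import Mathlib

set_option autoImplicit false

open Filter Topology

namespace Pool.Agent.Helper551.Wr

/-! ### finite products -/

lemma prod_pair_even (a : ℕ) (f : ℕ → ℝ) :
    ∏ i ∈ Finset.range (2 * a), f i = ∏ i ∈ Finset.range a, (f i * f (2 * a - 1 - i)) := by
  rw [Finset.prod_mul_distrib, two_mul, Finset.prod_range_add]
  congr 1
  rw [← Finset.prod_range_reflect (fun i => f (a + i)) a]
  apply Finset.prod_congr rfl
  intro j hj
  have : j < a := Finset.mem_range.mp hj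
  congr 1
  omega

lemma prod_pair_odd (a : ℕ) (f : ℕ → ℝ) :
    ∏ i ∈ Finset.range (2 * a + 1), f i
      = f a * ∏ i ∈ Finset.range a, (f i * f (2 * a - i)) := by
  have h : 2 * a + 1 = a + (a + 1) := by ring
  rw [Finset.prod_mul_distrib, h, Finset.prod_range_add, Finset.prod_range_succ' (fun i => f (a + i)),
    ← Finset.prod_range_reflect (fun i => f (a + (i + 1))) a]
  have e : ∏ j ∈ Finset.range a, f (a + (a - 1 - j + 1)) = ∏ j ∈ Finset.range a, f (2 * a - j) := by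
    apply Finset.prod_congr rfl
    intro j hj
    have : j < a := Finset.mem_range.mp hj
    congr 1
    omega
  rw [e, add_zero]
  ring

/-- `G q y = ∏_{i=1}^{q-1} (y + i/q)` -/
noncomputable def G (q : ℕ) (y : ℝ) : ℝ := ∏ i ∈ Finset.range (q - 1), (y + ((i : ℝ) + 1) / q)

noncomputable def Nf (m : ℕ) (j : ℕ) (y : ℝ) : ℝ :=
  (y + ((j : ℝ) + 1) / m) * (y + 1 - ((j : ℝ) + 1) / m)

lemma G_odd (l : ℕ) (y : ℝ) : G (2 * l + 1) y = ∏ j ∈ Finset.range l, Nf (2 * l + 1) j y := by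
  unfold G Nf
  rw [Nat.add_sub_cancel, prod_pair_even]
  apply Finset.prod_congr rfl
  intro j hj
  have hj' : j < l := Finset.mem_range.mp hj
  congr 1
  have : ((2 * l - 1 - j : ℕ) : ℝ) = 2 * l - 1 - j := by
    rw [Nat.cast_sub (by omega), Nat.cast_sub (by omega)]
    push_cast
    ring
  rw [this]
  push_cast
  field_simp
  ring

lemma G_even (l : ℕ) (y : ℝ) :
    G (2 * l + 2) y = (y + 1 / 2) * ∏ j ∈ Finset.range l, Nf (2 * l + 2) j y := by
  unfold G Nf
  have h : 2 * l + 2 - 1 = 2 * l + 1 := by omega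
  rw [h, prod_pair_odd]
  congr 1
  · push_cast
    field_simp
  · apply Finset.prod_congr rfl
    intro j hj
    have hj' : j < l := Finset.mem_range.mp hj
    congr 1
    have : ((2 * l - j : ℕ) : ℝ) = 2 * l - j := by
      rw [Nat.cast_sub (by omega)]
      push_cast
      ring
    rw [this]
    push_cast
    field_simp
    ring

lemma G_ratio (m : ℕ) (hm : 2 ≤ m) (y : ℝ) :
    G (m + 1) y * ∏ j ∈ Finset.range (m / 2), Nf m j y
      = (y + 1 / 2) * G m y * ∏ j ∈ Finset.range (m / 2), Nf (m + 1) j y := by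
  rcases Nat.even_or_odd' m with ⟨l, hl | hl⟩
  · -- even
    obtain ⟨a, rfl⟩ : ∃ a, l = a + 1 := ⟨l - 1, by omega⟩
    have h2 : m / 2 = a + 1 := by omega
    have hm' : m = 2 * a + 2 := by omega
    subst hm'
    rw [h2]
    have e1 : G (2 * a + 2 + 1) y = ∏ j ∈ Finset.range (a + 1), Nf (2 * a + 2 + 1) j y := by
      have := G_odd (a + 1) y
      have h3 : 2 * (a + 1) + 1 = 2 * a + 2 + 1 := by ring
      rwa [h3] at this
    have e2 : (y + 1 / 2) * G (2 * a + 2) y = ∏ j ∈ Finset.range (a + 1), Nf (2 * a + 2) j y := by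
      rw [G_even a y, Finset.prod_range_succ]
      have : Nf (2 * a + 2) a y = (y + 1 / 2) * (y + 1 / 2) := by
        unfold Nf
        push_cast
        field_simp
        ring
      rw [this]
      ring
    rw [e1, e2]
    ring
  · have h2 : m / 2 = l := by omega
    subst hl
    rw [h2]
    have e1 : G (2 * l + 1 + 1) y = (y + 1 / 2) * ∏ j ∈ Finset.range l, Nf (2 * l + 1 + 1) j y :=
      G_even l y
    rw [e1, G_odd l y]
    ring

lemma G_pos (q : ℕ) {y : ℝ} (hy : 0 ≤ y) : 0 < G q y := by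
  unfold G
  apply Finset.prod_pos
  intro i hi
  have hq : 0 < q := by
    have := Finset.mem_range.mp hi
    omega
  have : (0 : ℝ) < q := by exact_mod_cast hq
  positivity

lemma fact_mul (q : ℕ) (hq : 1 ≤ q) (k : ℕ) :
    ((q * (k + 1)).factorial : ℝ) = ((q * k).factorial : ℝ) * (q : ℝ) ^ q * G q k * (k + 1) := by
  obtain ⟨r, rfl⟩ : ∃ r, q = r + 1 := ⟨q - 1, by omega⟩
  have h1 : (r + 1) * (k + 1) = (r + 1) * k + (r + 1) := by ring
  have h2 := Nat.factorial_mul_ascFactorial ((r + 1) * k) (r + 1)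
  rw [h1, ← h2, Nat.ascFactorial_eq_prod_range]
  unfold G
  have hq0 : ((r + 1 : ℕ) : ℝ) ≠ 0 := by positivity
  rw [Nat.add_sub_cancel]
  push_cast
  have h3 : ∏ i ∈ Finset.range (r + 1), (((r : ℝ) + 1) * k + 1 + i)
      = ∏ i ∈ Finset.range (r + 1), (((r : ℝ) + 1) * (k + ((i : ℝ) + 1) / ((r : ℝ) + 1))) := by
    apply Finset.prod_congr rfl
    intro i _
    field_simp
    ring
  rw [h3, Finset.prod_mul_distrib, Finset.prod_const, Finset.card_range, Finset.prod_range_succ]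
  have h4 : ((k : ℝ) + ((r : ℝ) + 1) / ((r : ℝ) + 1)) = k + 1 := by
    rw [div_self (by positivity)]
  rw [h4]
  ring

/-- the constant -/
noncomputable def rho (m : ℕ) : ℝ := 4 * (m : ℝ) ^ m / ((m : ℝ) + 1) ^ (m + 1)

lemma rho_pos {m : ℕ} (hm : 1 ≤ m) : 0 < rho m := by
  unfold rho
  have : (0 : ℝ) < m := by exact_mod_cast hm
  positivity

noncomputable def bs (m k : ℕ) : ℝ :=
  ((2 * k).factorial : ℝ) * ((m * k).factorial : ℝ) /
    ((k.factorial : ℝ) * (((m + 1) * k).factorial : ℝ) * rho m ^ k)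

lemma bs_pos {m : ℕ} (hm : 1 ≤ m) (k : ℕ) : 0 < bs m k := by
  unfold bs
  have := rho_pos hm
  positivity

lemma bs_zero (m : ℕ) : bs m 0 = 1 := by
  unfold bs; simp

lemma bs_ratio {m : ℕ} (hm : 2 ≤ m) (k : ℕ) :
    bs m (k + 1) * G (m + 1) k = bs m k * (((k : ℝ) + 1 / 2) * G m k) := by
  have h2 := fact_mul 2 (by norm_num) k
  have hG2 : G 2 (k : ℝ) = (k : ℝ) + 1 / 2 := by
    unfold G
    simp
  rw [hG2] at h2
  have hmk := fact_mul m (by omega) k
  have hmk1 := fact_mul (m + 1) (by omega) k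
  have hk : ((k + 1).factorial : ℝ) = (k.factorial : ℝ) * (k + 1) := by
    rw [Nat.factorial_succ]; push_cast; ring
  have hm0 : (0 : ℝ) < m := by
    have : 0 < m := by omega
    exact_mod_cast this
  have hG1 := G_pos (m + 1) (y := (k : ℝ)) (Nat.cast_nonneg k)
  have hr := rho_pos (m := m) (by omega)
  unfold bs
  rw [h2, hmk, hmk1, hk, pow_succ (rho m) k]
  have hρ : rho m = 4 * (m : ℝ) ^ m / ((m : ℝ) + 1) ^ (m + 1) := rfl
  have hf1 : (0 : ℝ) < ((2 * k).factorial : ℝ) := by positivity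
  have hf2 : (0 : ℝ) < ((m * k).factorial : ℝ) := by positivity
  have hf3 : (0 : ℝ) < (((m + 1) * k).factorial : ℝ) := by positivity
  have hf4 : (0 : ℝ) < (k.factorial : ℝ) := by positivity
  have hrk : 0 < rho m ^ k := pow_pos hr k
  have hk1 : (0 : ℝ) < (k : ℝ) + 1 := by positivity
  generalize hX : rho m ^ k = X at *
  rw [hρ]
  push_cast
  field_simp
  norm_num
  ring

lemma bs_tendsto {m : ℕ} (hm : 2 ≤ m) :
    Tendsto (bs m) atTop (𝓝 (√(2 * m / (m + 1)))) := by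
  have hm0 : (0 : ℝ) < m := by
    have : 0 < m := by omega
    exact_mod_cast this
  have hs := Stirling.tendsto_stirlingSeq_sqrt_pi
  have hmul : ∀ q : ℕ, 1 ≤ q → Tendsto (fun k : ℕ => q * k) atTop atTop := by
    intro q hq
    exact tendsto_id.const_mul_atTop' (by omega)
  have h1 : Tendsto (fun k : ℕ => Stirling.stirlingSeq (2 * k)) atTop (𝓝 √Real.pi) :=
    hs.comp (hmul 2 (by norm_num))
  have h2 : Tendsto (fun k : ℕ => Stirling.stirlingSeq (m * k)) atTop (𝓝 √Real.pi) :=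
    hs.comp (hmul m (by omega))
  have h3 : Tendsto (fun k : ℕ => Stirling.stirlingSeq ((m + 1) * k)) atTop (𝓝 √Real.pi) :=
    hs.comp (hmul (m + 1) (by omega))
  have hpi : √Real.pi ≠ 0 := by
    have := Real.pi_pos
    positivity
  have h4 := ((h1.mul h2).div (hs.mul h3) (mul_ne_zero hpi hpi)).mul_const (√(2 * m / (m + 1)))
  rw [div_self (mul_ne_zero hpi hpi), one_mul] at h4
  refine h4.congr' ?_
  filter_upwards [eventually_ge_atTop 1] with k hk
  have hk0 : (0 : ℝ) < k := by exact_mod_cast hk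
  have hf : ∀ n : ℕ, 1 ≤ n → (n.factorial : ℝ)
      = Stirling.stirlingSeq n * (√(2 * n) * (n / Real.exp 1) ^ n) := by
    intro n hn
    unfold Stirling.stirlingSeq
    have hn0 : (0 : ℝ) < n := by exact_mod_cast hn
    have : √(2 * (n : ℝ)) * (n / Real.exp 1) ^ n ≠ 0 := by positivity
    rw [div_mul_cancel₀ _ this]
  have hspos : ∀ n : ℕ, 1 ≤ n → 0 < Stirling.stirlingSeq n := by
    intro n hn
    obtain ⟨r, rfl⟩ : ∃ r, n = r + 1 := ⟨n - 1, by omega⟩
    exact Stirling.stirlingSeq'_pos r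
  have k2 : 1 ≤ 2 * k := by omega
  have km : 1 ≤ m * k := Nat.one_le_iff_ne_zero.mpr (Nat.mul_ne_zero (by omega) (by omega))
  have km1 : 1 ≤ (m + 1) * k := Nat.one_le_iff_ne_zero.mpr (Nat.mul_ne_zero (by omega) (by omega))
  simp only [Pi.div_apply]
  unfold bs
  rw [hf (2 * k) k2, hf (m * k) km, hf k hk, hf ((m + 1) * k) km1]
  have s1 := hspos k hk
  have s2 := hspos _ km1
  set E := Real.exp 1 with hE
  have hEpos : 0 < E := Real.exp_pos 1
  have hpow : (((2 * k : ℕ) : ℝ) / E) ^ (2 * k) * (((m * k : ℕ) : ℝ) / E) ^ (m * k)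
      = ((k : ℝ) / E) ^ k * ((((m + 1) * k : ℕ) : ℝ) / E) ^ ((m + 1) * k) * rho m ^ k := by
    rw [pow_mul, pow_mul, pow_mul, ← mul_pow, ← mul_pow, ← mul_pow]
    congr 1
    unfold rho
    push_cast
    have hm1 : (0 : ℝ) < (m : ℝ) + 1 := by positivity
    rw [show ((m : ℝ) + 1) * k / E = ((m : ℝ) + 1) * (k / E) by ring,
      show (2 : ℝ) * k / E = 2 * (k / E) by ring, show (m : ℝ) * k / E = m * (k / E) by ring]
    have hX : 0 < (k : ℝ) / E := by positivity
    generalize (k : ℝ) / E = X at *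
    rw [mul_pow, mul_pow, mul_pow]
    field_simp
    ring
  have hsq : √(2 * ((2 * k : ℕ) : ℝ)) * √(2 * ((m * k : ℕ) : ℝ))
      = √(2 * (k : ℝ)) * √(2 * (((m + 1) * k : ℕ) : ℝ)) * √(2 * m / (m + 1)) := by
    rw [← Real.sqrt_mul (by positivity), ← Real.sqrt_mul (by positivity), ← Real.sqrt_mul (by positivity)]
    congr 1
    push_cast
    field_simp
  have hρ := rho_pos (m := m) (by omega)
  have e : Stirling.stirlingSeq (2 * k) * (√(2 * ((2 * k : ℕ) : ℝ)) * (((2 * k : ℕ) : ℝ) / E) ^ (2 * k)) *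
      (Stirling.stirlingSeq (m * k) * (√(2 * ((m * k : ℕ) : ℝ)) * (((m * k : ℕ) : ℝ) / E) ^ (m * k)))
      = Stirling.stirlingSeq (2 * k) * Stirling.stirlingSeq (m * k) * √(2 * m / (m + 1)) *
        (√(2 * (k : ℝ)) * √(2 * (((m + 1) * k : ℕ) : ℝ)) *
          (((k : ℝ) / E) ^ k * ((((m + 1) * k : ℕ) : ℝ) / E) ^ ((m + 1) * k) * rho m ^ k)) := by
    rw [← hpow]
    linear_combination (Stirling.stirlingSeq (2 * k) * Stirling.stirlingSeq (m * k) *
      ((((2 * k : ℕ) : ℝ) / E) ^ (2 * k) * (((m * k : ℕ) : ℝ) / E) ^ (m * k))) * hsq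
  rw [e]
  have hA : 0 < √(2 * (k : ℝ)) := by positivity
  have hB : 0 < √(2 * (((m + 1) * k : ℕ) : ℝ)) := by
    apply Real.sqrt_pos.mpr
    have : (0 : ℝ) < (((m + 1) * k : ℕ) : ℝ) := by exact_mod_cast km1
    linarith
  have hC : 0 < ((k : ℝ) / E) ^ k := by positivity
  have hD : 0 < ((((m + 1) * k : ℕ) : ℝ) / E) ^ ((m + 1) * k) := by
    apply pow_pos
    have : (0 : ℝ) < (((m + 1) * k : ℕ) : ℝ) := by exact_mod_cast km1
    positivity
  have hR : 0 < rho m ^ k := pow_pos hρ k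
  generalize √(2 * (k : ℝ)) = x1 at *
  generalize √(2 * (((m + 1) * k : ℕ) : ℝ)) = x2 at *
  generalize ((k : ℝ) / E) ^ k = x3 at *
  generalize ((((m + 1) * k : ℕ) : ℝ) / E) ^ ((m + 1) * k) = x4 at *
  generalize rho m ^ k = x5 at *
  field_simp

end Pool.Agent.Helper551.Wr
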