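import Mathlib
import Pool.Agent.Helper551.WrA
import Pool.Agent.Helper551.WrB

set_option autoImplicit false

open Filter Topology

namespace Pool.Agent.Helper551.Wr

/-- parameters -/
noncomputable def uu (m j : ℕ) : ℝ := ((j : ℝ) + 1) / m

noncomputable def dl (m j : ℕ) : ℝ := 4 * (uu m j * (1 - uu m j) - uu (m + 1) j * (1 - uu (m + 1) j))

noncomputable def pp (m : ℕ) (i : ℕ × ℕ) : ℝ := 2 * (i.1 : ℝ) + 2 * uu m i.2

noncomputable def qq (m : ℕ) (i : ℕ × ℕ) : ℝ := 2 * (i.1 : ℝ) + 2 - 2 * uu m i.2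

lemma uu_facts {m j : ℕ} (hm : 2 ≤ m) (hj : j < m / 2) :
    0 < uu (m + 1) j ∧ uu (m + 1) j < uu m j ∧ uu m j ≤ 1 / 2 := by
  have hm0 : (0 : ℝ) < m := by
    have : 0 < m := by omega
    exact_mod_cast this
  have hj1 : (0 : ℝ) < (j : ℝ) + 1 := by positivity
  have h2 : 2 * ((j : ℝ) + 1) ≤ m := by
    have : 2 * (j + 1) ≤ m := by omega
    exact_mod_cast this
  unfold uu
  push_cast
  refine ⟨by positivity, ?_, ?_⟩
  · exact div_lt_div_of_pos_left hj1 hm0 (by linarith)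
  · rw [div_le_iff₀ hm0]; linarith

/-- the factors -/
noncomputable def fac (m : ℕ) (i : ℕ × ℕ) (k : ℕ) : ℝ :=
  1 - dl m i.2 / ((k + pp m i) * (k + qq m i))

noncomputable def CM (m M k : ℕ) : ℝ :=
  ∏ i ∈ Finset.range M ×ˢ Finset.range (m / 2), fac m i k

lemma dl_nonneg {m j : ℕ} (hm : 2 ≤ m) (hj : j < m / 2) : 0 ≤ dl m j := by
  obtain ⟨h1, h2, h3⟩ := uu_facts hm hj
  unfold dl
  nlinarith

lemma pp_pos {m : ℕ} (hm : 2 ≤ m) {i : ℕ × ℕ} (hj : i.2 < m / 2) : 0 < pp m i := by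
  obtain ⟨h1, h2, h3⟩ := uu_facts hm hj
  have : (0 : ℝ) ≤ (i.1 : ℝ) := Nat.cast_nonneg _
  unfold pp; linarith

lemma qq_pos {m : ℕ} (hm : 2 ≤ m) {i : ℕ × ℕ} (hj : i.2 < m / 2) : 0 < qq m i := by
  obtain ⟨h1, h2, h3⟩ := uu_facts hm hj
  have : (0 : ℝ) ≤ (i.1 : ℝ) := Nat.cast_nonneg _
  unfold qq; linarith

lemma dl_lt {m : ℕ} (hm : 2 ≤ m) {i : ℕ × ℕ} (hj : i.2 < m / 2) : dl m i.2 < pp m i * qq m i := by
  obtain ⟨h1, h2, h3⟩ := uu_facts hm hj
  have hn : (0 : ℝ) ≤ (i.1 : ℝ) := Nat.cast_nonneg _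
  unfold dl pp qq
  set n : ℝ := (i.1 : ℝ)
  set u := uu m i.2
  set v := uu (m + 1) i.2
  have hv : 0 < v * (1 - v) := mul_pos h1 (by linarith)
  nlinarith [mul_nonneg hn hn, mul_nonneg hn (sub_nonneg.mpr h3)]

lemma CM_good {m : ℕ} (hm : 2 ≤ m) (M : ℕ) : Good (CM m M) := by
  have := Good_prod (Finset.range M ×ˢ Finset.range (m / 2)) (fun i => dl m i.2) (pp m) (qq m)
    (fun i hi => dl_nonneg hm (Finset.mem_range.mp (Finset.mem_product.mp hi).2))
    (fun i hi => pp_pos hm (Finset.mem_range.mp (Finset.mem_product.mp hi).2))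
    (fun i hi => qq_pos hm (Finset.mem_range.mp (Finset.mem_product.mp hi).2))
    (fun i hi => dl_lt hm (Finset.mem_range.mp (Finset.mem_product.mp hi).2))
  exact this

lemma Nf_pos {m j : ℕ} (hm : 2 ≤ m) (hj : j < m / 2) {y : ℝ} (hy : 0 ≤ y) : 0 < Nf m j y := by
  obtain ⟨h1, h2, h3⟩ := uu_facts hm hj
  unfold Nf
  unfold uu at h1 h2 h3
  apply mul_pos
  · linarith
  · linarith

lemma Nf_pos' {m j : ℕ} (hm : 2 ≤ m) (hj : j < m / 2) {y : ℝ} (hy : 0 ≤ y) : 0 < Nf (m + 1) j y := by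
  obtain ⟨h1, h2, h3⟩ := uu_facts hm hj
  unfold Nf
  unfold uu at h1 h2 h3
  apply mul_pos
  · linarith
  · linarith

lemma fac_eq {m j : ℕ} (hm : 2 ≤ m) (hj : j < m / 2) (n κ : ℕ) :
    fac m (n, j) (2 * κ) = Nf (m + 1) j ((n + κ : ℕ) : ℝ) / Nf m j ((n + κ : ℕ) : ℝ) := by
  have h1 := Nf_pos hm hj (y := ((n + κ : ℕ) : ℝ)) (Nat.cast_nonneg _)
  rw [eq_div_iff h1.ne']
  have h2 : (((2 * κ : ℕ) : ℝ) + pp m (n, j)) * (((2 * κ : ℕ) : ℝ) + qq m (n, j))
      = 4 * Nf m j ((n + κ : ℕ) : ℝ) := by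
    unfold Nf pp qq uu
    push_cast
    ring
  unfold fac
  rw [h2, sub_mul, div_mul_eq_mul_div, mul_comm 4 (Nf m j _), ← div_div, mul_div_assoc,
    div_self h1.ne', mul_one]
  unfold dl Nf uu
  push_cast
  ring

/-- one step of the product at even indices is a quotient of consecutive `bs`. -/
lemma prod_fac_eq {m : ℕ} (hm : 2 ≤ m) (n κ : ℕ) :
    ∏ j ∈ Finset.range (m / 2), fac m (n, j) (2 * κ) = bs m (n + κ) / bs m (n + κ + 1) := by
  have e1 : ∏ j ∈ Finset.range (m / 2), fac m (n, j) (2 * κ)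
      = (∏ j ∈ Finset.range (m / 2), Nf (m + 1) j ((n + κ : ℕ) : ℝ)) /
        ∏ j ∈ Finset.range (m / 2), Nf m j ((n + κ : ℕ) : ℝ) := by
    rw [← Finset.prod_div_distrib]
    apply Finset.prod_congr rfl
    intro j hj
    exact fac_eq hm (Finset.mem_range.mp hj) n κ
  have hy : (0 : ℝ) ≤ ((n + κ : ℕ) : ℝ) := Nat.cast_nonneg _
  have hN : 0 < ∏ j ∈ Finset.range (m / 2), Nf m j ((n + κ : ℕ) : ℝ) :=
    Finset.prod_pos fun j hj => Nf_pos hm (Finset.mem_range.mp hj) hy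
  have hb1 := bs_pos (m := m) (by omega) (n + κ + 1)
  have hG := G_ratio m hm ((n + κ : ℕ) : ℝ)
  have hr := bs_ratio hm (n + κ)
  have hG1 := G_pos (m + 1) hy
  rw [e1, div_eq_div_iff hN.ne' hb1.ne']
  have hGm := G_pos m hy
  have hk : 0 < ((n + κ : ℕ) : ℝ) + 1 / 2 := by linarith
  -- multiply by `(y + 1/2) G m y`
  have hX : 0 < (((n + κ : ℕ) : ℝ) + 1 / 2) * G m ((n + κ : ℕ) : ℝ) := mul_pos hk hGm
  apply mul_left_cancel₀ hX.ne'
  calc (((n + κ : ℕ) : ℝ) + 1 / 2) * G m ((n + κ : ℕ) : ℝ) *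
        ((∏ j ∈ Finset.range (m / 2), Nf (m + 1) j ((n + κ : ℕ) : ℝ)) * bs m (n + κ + 1))
      = ((((n + κ : ℕ) : ℝ) + 1 / 2) * G m ((n + κ : ℕ) : ℝ) *
        (∏ j ∈ Finset.range (m / 2), Nf (m + 1) j ((n + κ : ℕ) : ℝ))) * bs m (n + κ + 1) := by ring
    _ = (G (m + 1) ((n + κ : ℕ) : ℝ) * ∏ j ∈ Finset.range (m / 2), Nf m j ((n + κ : ℕ) : ℝ)) *
        bs m (n + κ + 1) := by rw [← hG]
    _ = (bs m (n + κ + 1) * G (m + 1) ((n + κ : ℕ) : ℝ)) *
        ∏ j ∈ Finset.range (m / 2), Nf m j ((n + κ : ℕ) : ℝ) := by ring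
    _ = (bs m (n + κ) * ((((n + κ : ℕ) : ℝ) + 1 / 2) * G m ((n + κ : ℕ) : ℝ))) *
        ∏ j ∈ Finset.range (m / 2), Nf m j ((n + κ : ℕ) : ℝ) := by rw [hr]
    _ = _ := by ring

lemma CM_succ (m M k : ℕ) :
    CM m (M + 1) k = CM m M k * ∏ j ∈ Finset.range (m / 2), fac m (M, j) k := by
  unfold CM
  rw [Finset.prod_product, Finset.prod_product, Finset.prod_range_succ]

lemma CM_even {m : ℕ} (hm : 2 ≤ m) (M κ : ℕ) : CM m M (2 * κ) = bs m κ / bs m (M + κ) := by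
  induction M with
  | zero =>
    have := bs_pos (m := m) (by omega) κ
    simp [CM, div_self this.ne']
  | succ M ih =>
    rw [CM_succ, ih, prod_fac_eq hm]
    have h1 := bs_pos (m := m) (by omega) (M + κ)
    have h2 := bs_pos (m := m) (by omega) (M + κ + 1)
    have e : M + 1 + κ = M + κ + 1 := by ring
    rw [e]
    field_simp

lemma fac_le_one {m : ℕ} (hm : 2 ≤ m) {i : ℕ × ℕ} (hj : i.2 < m / 2) (k : ℕ) :
    0 ≤ fac m i k ∧ fac m i k ≤ 1 := by
  have h1 := dl_nonneg hm hj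
  have h2 := pp_pos hm hj
  have h3 := qq_pos hm hj
  have h4 := dl_lt hm hj
  have hk : (0 : ℝ) ≤ k := Nat.cast_nonneg k
  unfold fac
  have h5 : dl m i.2 / ((k + pp m i) * (k + qq m i)) ≤ 1 := by
    rw [div_le_one (by positivity)]
    nlinarith [mul_nonneg hk hk, mul_nonneg hk h2.le, mul_nonneg hk h3.le]
  have h6 : 0 ≤ dl m i.2 / ((k + pp m i) * (k + qq m i)) := by positivity
  constructor <;> linarith

lemma CM_anti {m : ℕ} (hm : 2 ≤ m) (k : ℕ) : Antitone (fun M => CM m M k) := by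
  apply antitone_nat_of_succ_le
  intro M
  rw [CM_succ]
  have h0 : 0 ≤ CM m M k := ((CM_good hm M).1 k).1
  apply mul_le_of_le_one_right h0
  apply Finset.prod_le_one
  · intro j hj
    exact (fac_le_one hm (i := (M, j)) (Finset.mem_range.mp hj) k).1
  · intro j hj
    exact (fac_le_one hm (i := (M, j)) (Finset.mem_range.mp hj) k).2

noncomputable def Cinf (m k : ℕ) : ℝ := ⨅ M, CM m M k

lemma CM_tendsto {m : ℕ} (hm : 2 ≤ m) (k : ℕ) :
    Tendsto (fun M => CM m M k) atTop (𝓝 (Cinf m k)) := by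
  apply tendsto_atTop_ciInf (CM_anti hm k)
  refine ⟨0, ?_⟩
  rintro x ⟨M, rfl⟩
  exact ((CM_good hm M).1 k).1

lemma bs_mono {m : ℕ} (hm : 2 ≤ m) : Monotone (bs m) := by
  apply monotone_nat_of_le_succ
  intro n
  have h := prod_fac_eq hm n 0
  have h1 : ∏ j ∈ Finset.range (m / 2), fac m (n, j) (2 * 0) ≤ 1 := by
    apply Finset.prod_le_one
    · intro j hj
      exact (fac_le_one hm (i := (n, j)) (Finset.mem_range.mp hj) _).1
    · intro j hj
      exact (fac_le_one hm (i := (n, j)) (Finset.mem_range.mp hj) _).2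
  rw [h] at h1
  have h2 := bs_pos (m := m) (by omega) (n + 0 + 1)
  rw [div_le_one h2] at h1
  simpa using h1

noncomputable def LL (m : ℕ) : ℝ := √(2 * m / (m + 1))

lemma bs_le {m : ℕ} (hm : 2 ≤ m) (k : ℕ) : bs m k ≤ LL m :=
  (bs_mono hm).ge_of_tendsto (bs_tendsto hm) k

lemma LL_lt {m : ℕ} (hm : 2 ≤ m) : LL m < 2 := by
  have hm0 : (0 : ℝ) < m := by
    have : 0 < m := by omega
    exact_mod_cast this
  unfold LL
  rw [Real.sqrt_lt' (by norm_num), div_lt_iff₀ (by positivity)]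
  nlinarith

lemma LL_pos {m : ℕ} (hm : 2 ≤ m) : 0 < LL m := by
  have hm0 : (0 : ℝ) < m := by
    have : 0 < m := by omega
    exact_mod_cast this
  unfold LL
  positivity

lemma Cinf_even {m : ℕ} (hm : 2 ≤ m) (κ : ℕ) : Cinf m (2 * κ) = bs m κ / LL m := by
  have h1 := CM_tendsto hm (2 * κ)
  have h2 : Tendsto (fun M => bs m κ / bs m (M + κ)) atTop (𝓝 (bs m κ / LL m)) := by
    apply Tendsto.div tendsto_const_nhds _ (LL_pos hm).ne'
    exact (bs_tendsto hm).comp (tendsto_add_atTop_nat κ)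
  have h3 : (fun M => CM m M (2 * κ)) = fun M => bs m κ / bs m (M + κ) := by
    funext M
    exact CM_even hm M κ
  rw [h3] at h1
  exact tendsto_nhds_unique h1 h2

lemma Cinf_abs {m : ℕ} (hm : 2 ≤ m) (k : ℕ) : |Cinf m k| ≤ 1 := by
  have h1 := CM_tendsto hm k
  have h0 : 0 ≤ Cinf m k := ge_of_tendsto' h1 fun M => ((CM_good hm M).1 k).1
  rw [abs_of_nonneg h0]
  exact le_of_tendsto' h1 fun M => ((CM_good hm M).1 k).2

lemma Es_tendsto {m : ℕ} (hm : 2 ≤ m) (z : ℂ) :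
    Tendsto (fun M => Es (CM m M) z) atTop (𝓝 (Es (Cinf m) z)) := by
  unfold Es
  refine tendsto_tsum_of_dominated_convergence (bound := fun k => 1 * (‖z‖ ^ k / (k.factorial : ℝ)))
    ((summable_pow_div ‖z‖).mul_left 1) ?_ ?_
  · intro k
    apply Tendsto.mul_const
    exact (Complex.continuous_ofReal.tendsto _).comp (CM_tendsto hm k)
  · refine Eventually.of_forall fun M k => ?_
    apply norm_term
    intro k
    rw [abs_of_nonneg ((CM_good hm M).1 k).1]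
    exact ((CM_good hm M).1 k).2

lemma Cinf_close {m : ℕ} (hm : 2 ≤ m) (z : ℂ) :
    ‖Es (Cinf m) z - Complex.exp z‖ ≤ (LL m - 1) * Ph z := by
  have h1 : Tendsto (fun M => ‖Es (CM m M) z - Complex.exp z‖) atTop
      (𝓝 ‖Es (Cinf m) z - Complex.exp z‖) := ((Es_tendsto hm z).sub_const _).norm
  refine le_of_tendsto' h1 fun M => ?_
  obtain ⟨_, h0, hE⟩ := CM_good hm M
  refine le_trans (hE z) ?_
  apply mul_le_mul_of_nonneg_right _ (Ph_pos z).le
  have h2 : CM m M 0 = 1 / bs m M := by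
    have := CM_even hm M 0
    rw [bs_zero, mul_zero, add_zero] at this
    exact this
  rw [h2, one_div_one_div]
  linarith [bs_le hm M]

lemma even_part {m : ℕ} (hm : 2 ≤ m) (z : ℂ) :
    Es (Cinf m) z + Es (Cinf m) (-z)
      = (2 / (LL m : ℂ)) * ∑' κ : ℕ, (bs m κ : ℂ) * ((z ^ 2) ^ κ / ((2 * κ).factorial : ℂ)) := by
  have hs1 := summable_Es (Cinf_abs hm) z
  have hs2 := summable_Es (Cinf_abs hm) (-z)
  have h1 : Es (Cinf m) z + Es (Cinf m) (-z)
      = ∑' k : ℕ, ((Cinf m k : ℂ) * (z ^ k / (k.factorial : ℂ)) +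
        (Cinf m k : ℂ) * ((-z) ^ k / (k.factorial : ℂ))) := by
    unfold Es
    rw [← hs1.tsum_add hs2]
  have hinj : Function.Injective (fun κ : ℕ => 2 * κ) := by
    intro a b h
    simp only at h
    omega
  have hsupp : Function.support (fun k : ℕ => (Cinf m k : ℂ) * (z ^ k / (k.factorial : ℂ)) +
        (Cinf m k : ℂ) * ((-z) ^ k / (k.factorial : ℂ))) ⊆ Set.range (fun κ : ℕ => 2 * κ) := by
    intro k hk
    rcases Nat.even_or_odd' k with ⟨l, hl | hl⟩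
    · exact ⟨l, hl.symm⟩
    · exfalso
      apply hk
      have hodd : Odd k := ⟨l, hl⟩
      simp only
      rw [hodd.neg_pow]
      ring
  rw [h1, ← hinj.tsum_eq hsupp, ← tsum_mul_left]
  apply tsum_congr
  intro κ
  rw [Cinf_even hm κ]
  have he : Even (2 * κ) := even_two_mul κ
  rw [he.neg_pow, pow_mul]
  have hL : (LL m : ℂ) ≠ 0 := by
    have := (LL_pos hm).ne'
    exact_mod_cast this
  push_cast
  field_simp
  ring

theorem main (m : ℕ) (hm : 2 ≤ m) (w : ℂ)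
    (h : (∑' k : ℕ, ((Nat.factorial (m * k) : ℂ) /
          ((Nat.factorial ((m + 1) * k) : ℂ) * (Nat.factorial k : ℂ))) * w ^ k) = 0) :
    w.im = 0 := by
  by_contra hw
  have hρ := rho_pos (m := m) (by omega)
  obtain ⟨z, hz⟩ : ∃ z : ℂ, z ^ 2 = (rho m : ℂ) * w :=
    IsAlgClosed.exists_pow_nat_eq _ (by norm_num)
  have hre : z.re ≠ 0 := by
    intro h0
    have h1 : (z ^ 2).im = 0 := by
      rw [pow_two, Complex.mul_im, h0]; ring
    rw [hz, Complex.im_ofReal_mul] at h1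
    rcases mul_eq_zero.mp h1 with h2 | h2
    · exact hρ.ne' h2
    · exact hw h2
  have hfree := zero_free (Cinf_abs hm) (θ := LL m - 1) (by linarith [LL_lt hm]) (Cinf_close hm) hre
  apply hfree
  rw [even_part hm z]
  have : ∑' κ : ℕ, (bs m κ : ℂ) * ((z ^ 2) ^ κ / ((2 * κ).factorial : ℂ))
      = ∑' k : ℕ, ((Nat.factorial (m * k) : ℂ) /
          ((Nat.factorial ((m + 1) * k) : ℂ) * (Nat.factorial k : ℂ))) * w ^ k := by
    apply tsum_congr
    intro k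
    rw [hz, mul_pow]
    unfold bs
    have h1 : (rho m : ℂ) ≠ 0 := by exact_mod_cast hρ.ne'
    have h2 : (((2 * k).factorial : ℕ) : ℂ) ≠ 0 := by exact_mod_cast (Nat.factorial_pos _).ne'
    have h3 : (((m + 1) * k).factorial : ℂ) ≠ 0 := by exact_mod_cast (Nat.factorial_pos _).ne'
    have h4 : ((k).factorial : ℂ) ≠ 0 := by exact_mod_cast (Nat.factorial_pos _).ne'
    push_cast
    field_simp
  rw [this, h, mul_zero]

end Pool.Agent.Helper551.Wr
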